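import Pool.Agent.Lib.MP_9f3af0_lc.Base

/-!
# The boundary curve is connected

`isPreconnected_pc`: by induction on `b`: the union of the path up to `b` and the segment
`[u b, u (b+1)]`, which share `u b` (for `b = a` the path is empty).  Segments are preconnected
(`(convex_segment _ _).isPreconnected`).
-/

namespace VisMap

open Set

theorem isPreconnected_pc (u : ℕ → ℂ) (a b : ℕ) : IsPreconnected (tr (pc u a b)) := by
  induction b with
  | zero =>
    have h : tr (pc u a 0) = ∅ := by
      ext x
      rw [mem_tr_pc]
      simp
    rw [h]
    exact isPreconnected_empty
  | succ b ih =>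
    rcases Nat.lt_or_ge b a with hba | hab
    · have h : tr (pc u a (b + 1)) = ∅ := by
        ext x
        rw [mem_tr_pc]
        constructor
        · rintro ⟨k, h1, h2, -⟩
          omega
        · intro hx
          exact absurd hx (notMem_empty x)
      rw [h]
      exact isPreconnected_empty
    · have h : tr (pc u a (b + 1)) = tr (pc u a b) ∪ segment ℝ (u b) (u (b + 1)) := by
        ext x
        rw [mem_union, mem_tr_pc, mem_tr_pc]
        constructor
        · rintro ⟨k, h1, h2, hx⟩
          rcases Nat.lt_or_ge k b with h3 | h3
          · exact Or.inl ⟨k, h1, h3, hx⟩
          · have h4 : k = b := by omega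
            subst h4
            exact Or.inr hx
        · rintro (⟨k, h1, h2, hx⟩ | hx)
          · exact ⟨k, h1, by omega, hx⟩
          · exact ⟨b, hab, by omega, hx⟩
      rw [h]
      have hseg : IsPreconnected (segment ℝ (u b) (u (b + 1))) :=
        (convex_segment _ _).isPreconnected
      rcases Nat.eq_or_lt_of_le hab with h0 | h0
      · have h1 : tr (pc u a b) = ∅ := by
          ext x
          rw [mem_tr_pc]
          constructor
          · rintro ⟨k, h1, h2, -⟩
            omega
          · intro hx
            exact absurd hx (notMem_empty x)
        rw [h1, empty_union]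
        exact hseg
      · refine IsPreconnected.union (u b) ?_ ?_ ih hseg
        · rw [mem_tr_pc]
          refine ⟨b - 1, by omega, by omega, ?_⟩
          have h2 : b - 1 + 1 = b := by omega
          rw [h2]
          exact right_mem_segment ℝ _ _
        · exact left_mem_segment ℝ _ _

end VisMap
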