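import Pool.Agent.Lib.MP_9f3af0_lc.Base

/-!
# Local structure of a simple polygon

`open_edge`: a point of the open edge `j` is on no other edge `k ≠ j` (`j, k < N`).  Adjacent edges meet only
in the common vertex (`adj`, `adj0`; note `u N = u 0`), other pairs are disjoint (`disj`), and an end point
of a nondegenerate segment (`u j ≠ u (j+1)` by `inj`/`per`) is not in its open segment.

`vertex_edge`: a vertex `u m` (`m < N`) on the edge `k < N` is one of its end points: `u m = u k` or
`u m = u (k+1)` (otherwise it is in the open edge `k` and on the edge `m ≠ k`, or on the previous edge).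

`local_struct`: for every `t ∈ TT N u` there are `p1, p2` and `ε > 0` as in `two_radii`.  If `t` is in the
open edge `j`: `p1 = u j`, `p2 = u (j+1)`, and all other edges are closed sets not containing `t`
(`open_edge`); if `t = u j`: `p1 = u (j+1)`, `p2 = u (j-1)` (or `u (N-1)` for `j = 0`) and again the other
edges do not contain `t`.  `ε` = minimum of `dist p1 t`, `dist p2 t` and the positive distances from `t` to
the finitely many other edges (a finite union of closed sets not containing `t`; its complement is a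
neighbourhood of `t`).  For `t` in the open edge, `[t, u j] ∪ [t, u (j+1)] = [u j, u (j+1)]`.
-/

namespace VisMap

open Set Metric

private theorem ne_succ {N : ℕ} {u : ℕ → ℂ} (h : SP N u) {j : ℕ} (hj : j < N) : u j ≠ u (j + 1) := by
  intro he
  have h3 := h.three
  rcases Nat.lt_or_ge (j + 1) N with h1 | h1
  · have := h.inj j (j + 1) hj h1 he
    omega
  · have h2 : j + 1 = N := by omega
    rw [h2, h.per] at he
    have := h.inj j 0 hj (by omega) he
    omega

private theorem left_notMem_open {a b : ℂ} (hab : a ≠ b) : a ∉ openSegment ℝ a b := by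
  rw [left_mem_openSegment_iff]; exact hab

private theorem right_notMem_open {a b : ℂ} (hab : a ≠ b) : b ∉ openSegment ℝ a b := by
  rw [right_mem_openSegment_iff]; exact hab

theorem open_edge {N : ℕ} {u : ℕ → ℂ} (h : SP N u) {j k : ℕ} (hj : j < N) (hk : k < N) (hne : k ≠ j)
    {x : ℂ} (hx : x ∈ openSegment ℝ (u j) (u (j + 1))) : x ∉ segment ℝ (u k) (u (k + 1)) := by
  intro hx2
  have hx1 : x ∈ segment ℝ (u j) (u (j + 1)) := openSegment_subset_segment ℝ _ _ hx
  have hjj := ne_succ h hj
  have hL : x ≠ u j := fun e => left_notMem_open hjj (e ▸ hx)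
  have hR : x ≠ u (j + 1) := fun e => right_notMem_open hjj (e ▸ hx)
  rcases Nat.lt_or_gt_of_ne hne with hlt | hgt
  · -- k < j
    rcases Nat.lt_or_ge (k + 1) j with h1 | h1
    · by_cases h2 : k = 0 ∧ j + 1 = N
      · obtain ⟨h2, h3⟩ := h2
        subst h2
        have h4 : j = N - 1 := by omega
        have := h.adj0
        have hmem : x ∈ segment ℝ (u (N - 1)) (u N) ∩ segment ℝ (u 0) (u 1) := by
          refine ⟨?_, hx2⟩
          rw [← h4]
          rw [h3] at hx1
          exact hx1
        rw [this, mem_singleton_iff] at hmem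
        apply hR
        rw [hmem, h3, h.per]
      · exact Set.disjoint_left.1 (h.disj k j h1 hj h2) hx2 hx1
    · have h2 : j = k + 1 := by omega
      subst h2
      have hmem : x ∈ segment ℝ (u k) (u (k + 1)) ∩ segment ℝ (u (k + 1)) (u (k + 2)) := ⟨hx2, hx1⟩
      rw [h.adj k hj, mem_singleton_iff] at hmem
      exact hL hmem
  · -- j < k
    rcases Nat.lt_or_ge (j + 1) k with h1 | h1
    · by_cases h2 : j = 0 ∧ k + 1 = N
      · obtain ⟨h2, h3⟩ := h2
        subst h2
        have h4 : k = N - 1 := by omega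
        subst h4
        have hmem : x ∈ segment ℝ (u (N - 1)) (u N) ∩ segment ℝ (u 0) (u 1) := by
          refine ⟨?_, hx1⟩
          rw [h3] at hx2
          exact hx2
        rw [h.adj0, mem_singleton_iff] at hmem
        exact hL hmem
      · exact Set.disjoint_left.1 (h.disj j k h1 hk h2) hx1 hx2
    · have h2 : k = j + 1 := by omega
      subst h2
      have hmem : x ∈ segment ℝ (u j) (u (j + 1)) ∩ segment ℝ (u (j + 1)) (u (j + 2)) := ⟨hx1, hx2⟩
      rw [h.adj j hk, mem_singleton_iff] at hmem
      exact hR hmem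

theorem vertex_edge {N : ℕ} {u : ℕ → ℂ} (h : SP N u) {m k : ℕ} (hm : m < N) (hk : k < N)
    (hx : u m ∈ segment ℝ (u k) (u (k + 1))) : u m = u k ∨ u m = u (k + 1) := by
  by_contra hc
  rw [not_or] at hc
  have h1 : u m ∈ openSegment ℝ (u k) (u (k + 1)) :=
    mem_openSegment_of_ne_left_right (Ne.symm hc.1) (Ne.symm hc.2) hx
  have hne : m ≠ k := fun e => hc.1 (by rw [e])
  exact open_edge h hk hm hne h1 (left_mem_segment ℝ _ _)

private theorem near {N : ℕ} {u : ℕ → ℂ} (S : Finset ℕ) (hS : ∀ k ∈ S, k < N) {t : ℂ}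
    (ht : ∀ k < N, k ∉ S → t ∉ segment ℝ (u k) (u (k + 1))) :
    ∃ ε : ℝ, 0 < ε ∧ ∀ x ∈ ball t ε, x ∈ TT N u ↔ ∃ k ∈ S, x ∈ segment ℝ (u k) (u (k + 1)) := by
  have hcl : IsClosed (⋃ k ∈ (Finset.range N \ S), segment ℝ (u k) (u (k + 1))) := by
    apply isClosed_biUnion_finset
    intro k _
    rw [segment_eq_image]
    exact (isCompact_Icc.image (by fun_prop)).isClosed
  have hmem : t ∈ (⋃ k ∈ (Finset.range N \ S), segment ℝ (u k) (u (k + 1)))ᶜ := by
    rw [mem_compl_iff, mem_iUnion₂]
    rintro ⟨k, hk, hk2⟩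
    rw [Finset.mem_sdiff, Finset.mem_range] at hk
    exact ht k hk.1 hk.2 hk2
  obtain ⟨ε, hε, hsub⟩ := Metric.isOpen_iff.1 hcl.isOpen_compl t hmem
  refine ⟨ε, hε, fun x hx => ?_⟩
  rw [mem_TT]
  constructor
  · rintro ⟨k, hk, hxk⟩
    by_cases hkS : k ∈ S
    · exact ⟨k, hkS, hxk⟩
    · exfalso
      have := hsub hx
      rw [mem_compl_iff, mem_iUnion₂] at this
      exact this ⟨k, by rw [Finset.mem_sdiff, Finset.mem_range]; exact ⟨hk, hkS⟩, hxk⟩
  · rintro ⟨k, hk, hxk⟩
    exact ⟨k, hS k hk, hxk⟩

private theorem seg_split {a b t : ℂ} (ht : t ∈ segment ℝ a b) (x : ℂ) :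
    x ∈ segment ℝ a b ↔ x ∈ segment ℝ t a ∪ segment ℝ t b := by
  constructor
  · intro hx
    rw [segment_eq_image'] at ht hx
    obtain ⟨s, hs, rfl⟩ := ht
    obtain ⟨r, hr, rfl⟩ := hx
    rcases le_total r s with h1 | h1
    · left
      rw [segment_symm, segment_eq_image']
      rcases eq_or_lt_of_le hs.1 with h0 | h0
      · refine ⟨0, by simp, ?_⟩
        have : r = 0 := le_antisymm (h0 ▸ h1) hr.1
        simp [this]
      · refine ⟨r / s, ⟨div_nonneg hr.1 hs.1, (div_le_one h0).2 h1⟩, ?_⟩
        simp only [add_sub_cancel_left, smul_smul]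
        rw [div_mul_cancel₀ _ h0.ne']
    · right
      rw [segment_eq_image']
      rcases eq_or_lt_of_le hs.2 with h0 | h0
      · refine ⟨0, by simp, ?_⟩
        have : r = 1 := le_antisymm hr.2 (h0 ▸ h1)
        simp [this, h0]
      · have h2 : 0 < 1 - s := by linarith
        refine ⟨(r - s) / (1 - s), ⟨div_nonneg (by linarith) h2.le, (div_le_one h2).2 (by linarith [hr.2])⟩, ?_⟩
        have h3 : b - (a + s • (b - a)) = (1 - s) • (b - a) := by
          rw [sub_smul, one_smul]; ring
        simp only [h3, smul_smul]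
        rw [div_mul_cancel₀ _ h2.ne', add_assoc, ← add_smul]
        congr 2
        ring
  · have hcv : Convex ℝ (segment ℝ a b) := convex_segment a b
    rintro (hx | hx)
    · exact hcv.segment_subset ht (left_mem_segment ℝ a b) hx
    · exact hcv.segment_subset ht (right_mem_segment ℝ a b) hx

private theorem seg_inter {a b t : ℂ} (hab : a ≠ b) (ht : t ∈ openSegment ℝ a b) :
    segment ℝ t a ∩ segment ℝ t b = {t} := by
  apply Subset.antisymm
  · rintro x ⟨hx1, hx2⟩
    rw [openSegment_eq_image'] at ht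
    obtain ⟨s, hs, rfl⟩ := ht
    rw [segment_eq_image'] at hx1 hx2
    obtain ⟨p, hp, rfl⟩ := hx1
    obtain ⟨q, hq, hpq⟩ := hx2
    have hba : b - a ≠ 0 := sub_ne_zero.2 hab.symm
    have h1 : ((q * (1 - s) + p * s : ℝ) : ℂ) * (b - a) = 0 := by
      simp only [Complex.real_smul] at hpq
      push_cast
      linear_combination hpq
    rcases mul_eq_zero.1 h1 with h2 | h2
    · have h3 : q * (1 - s) + p * s = 0 := by exact_mod_cast h2
      have h4 : 0 ≤ q * (1 - s) := mul_nonneg hq.1 (by linarith [hs.2])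
      have h5 : 0 ≤ p * s := mul_nonneg hp.1 hs.1.le
      have h6 : p * s = 0 := by linarith
      have h7 : p = 0 := by
        rcases mul_eq_zero.1 h6 with h | h
        · exact h
        · exact absurd h hs.1.ne'
      simp [h7]
    · exact absurd h2 hba
  · rintro x rfl
    exact ⟨left_mem_segment ℝ _ _, left_mem_segment ℝ _ _⟩

private theorem local_vertex {N : ℕ} {u : ℕ → ℂ} (h : SP N u) {j : ℕ} (hj : j < N) :
    ∃ p1 p2 : ℂ, ∃ ε : ℝ, 0 < ε ∧ ε ≤ dist p1 (u j) ∧ ε ≤ dist p2 (u j) ∧
      (∀ x ∈ ball (u j) ε, x ∈ TT N u ↔ x ∈ segment ℝ (u j) p1 ∪ segment ℝ (u j) p2) ∧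
      segment ℝ (u j) p1 ∩ segment ℝ (u j) p2 = {u j} := by
  have h3 := h.three
  obtain ⟨q, hq, hqj, hqe, hint, honly⟩ : ∃ q, q < N ∧ q ≠ j ∧ u (q + 1) = u j ∧
      segment ℝ (u q) (u (q + 1)) ∩ segment ℝ (u j) (u (j + 1)) = {u j} ∧
      (∀ k < N, u j = u (k + 1) → k = q) := by
    rcases Nat.eq_zero_or_pos j with h0 | h0
    · subst h0
      refine ⟨N - 1, by omega, by omega, ?_, ?_, ?_⟩
      · rw [Nat.sub_add_cancel (by omega), h.per]
      · rw [Nat.sub_add_cancel (by omega)]
        exact h.adj0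
      · intro k hk he
        by_contra hc
        have := h.inj 0 (k + 1) hj (by omega) he
        omega
    · refine ⟨j - 1, by omega, by omega, ?_, ?_, ?_⟩
      · rw [Nat.sub_add_cancel h0]
      · have := h.adj (j - 1) (by omega)
        have e1 : j - 1 + 1 = j := by omega
        have e2 : j - 1 + 2 = j + 1 := by omega
        rw [e1, e2] at this
        rw [e1]
        exact this
      · intro k hk he
        rcases Nat.lt_or_ge (k + 1) N with h1 | h1
        · have := h.inj j (k + 1) hj h1 he
          omega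
        · have h2 : k + 1 = N := by omega
          rw [h2, h.per] at he
          have := h.inj j 0 hj (by omega) he
          omega
  obtain ⟨ε, hε, hnear⟩ := near (N := N) (u := u) {j, q} (by
    intro k hk
    rw [Finset.mem_insert, Finset.mem_singleton] at hk
    rcases hk with rfl | rfl
    · exact hj
    · exact hq) (t := u j) (by
    intro k hk hkS hmem
    rw [Finset.mem_insert, Finset.mem_singleton, not_or] at hkS
    rcases vertex_edge h hj hk hmem with he | he
    · exact hkS.1 (h.inj j k hj hk he).symm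
    · exact hkS.2 (honly k hk he))
  have hd1 : 0 < dist (u (j + 1)) (u j) := dist_pos.2 (ne_succ h hj).symm
  have hd2 : 0 < dist (u q) (u j) := dist_pos.2 fun e => hqj (h.inj q j hq hj e)
  refine ⟨u (j + 1), u q, min ε (min (dist (u (j + 1)) (u j)) (dist (u q) (u j))),
    lt_min hε (lt_min hd1 hd2), (min_le_right _ _).trans (min_le_left _ _),
    (min_le_right _ _).trans (min_le_right _ _), ?_, ?_⟩
  · intro x hx
    have hx' : x ∈ ball (u j) ε := ball_subset_ball (min_le_left _ _) hx
    rw [hnear x hx']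
    simp only [Finset.mem_insert, Finset.mem_singleton, exists_eq_or_imp, exists_eq_left, mem_union]
    rw [hqe, segment_symm ℝ (u q) (u j)]
  · rw [inter_comm, segment_symm ℝ (u j) (u q), ← hqe]
    rw [hqe]
    rw [hqe] at hint
    exact hint

theorem local_struct {N : ℕ} {u : ℕ → ℂ} (h : SP N u) {t : ℂ} (ht : t ∈ TT N u) :
    ∃ p1 p2 : ℂ, ∃ ε : ℝ, 0 < ε ∧ ε ≤ dist p1 t ∧ ε ≤ dist p2 t ∧
      (∀ x ∈ ball t ε, x ∈ TT N u ↔ x ∈ segment ℝ t p1 ∪ segment ℝ t p2) ∧
      segment ℝ t p1 ∩ segment ℝ t p2 = {t} := by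
  have h3 := h.three
  obtain ⟨j, hj, hmem⟩ := mem_TT.1 ht
  by_cases h1 : t = u j
  · subst h1
    exact local_vertex h hj
  by_cases h2 : t = u (j + 1)
  · rcases Nat.lt_or_ge (j + 1) N with h4 | h4
    · subst h2
      exact local_vertex h h4
    · have h5 : j + 1 = N := by omega
      rw [h5, h.per] at h2
      subst h2
      exact local_vertex h (by omega)
  have hop : t ∈ openSegment ℝ (u j) (u (j + 1)) :=
    mem_openSegment_of_ne_left_right (Ne.symm h1) (Ne.symm h2) hmem
  obtain ⟨ε, hε, hnear⟩ := near (N := N) (u := u) {j} (by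
    intro k hk
    rw [Finset.mem_singleton] at hk
    rw [hk]; exact hj) (t := t) (by
    intro k hk hkS
    rw [Finset.mem_singleton] at hkS
    exact open_edge h hj hk hkS hop)
  have hd1 : 0 < dist (u j) t := dist_pos.2 (Ne.symm h1)
  have hd2 : 0 < dist (u (j + 1)) t := dist_pos.2 (Ne.symm h2)
  refine ⟨u j, u (j + 1), min ε (min (dist (u j) t) (dist (u (j + 1)) t)),
    lt_min hε (lt_min hd1 hd2), (min_le_right _ _).trans (min_le_left _ _),
    (min_le_right _ _).trans (min_le_right _ _), ?_, seg_inter (ne_succ h hj) hop⟩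
  intro x hx
  have hx' : x ∈ ball t ε := ball_subset_ball (min_le_left _ _) hx
  rw [hnear x hx']
  simp only [Finset.mem_singleton, exists_eq_left]
  exact seg_split hmem x

end VisMap
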