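import Pool.Agent.Lib.MP_9f3af0_lc.TwoRad
import Pool.Agent.Lib.MP_9f3af0_lc.Struct
import Pool.Agent.Lib.MP_9f3af0_lc.Conn

/-!
# Every component of the complement accumulates at every boundary point

Let `T = TT N u`, `z ∉ T`, `K` the component of `z` in `Tᶜ` and `A = T ∩ closure K`.
`A` is not empty: `K` is open (`IsOpen.connectedComponentIn`, `T` is closed) and `K ≠ univ`, so `K` is not
closed (`ℂ` is connected, `K` is not empty); a point `t ∈ closure K \ K` lies in `T`: otherwise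
`t ∈ Tᶜ` has an open connected neighbourhood (a ball) in `Tᶜ` meeting `K`, so it lies in the same component.
`A` is open in `T`: let `t ∈ A`, take the ball `B` around `t` of `local_struct`; `K ∩ B` contains a point `z'`,
the component of `z'` is `K` (`connectedComponentIn_eq`), and by `two_radii` all `s ∈ B ∩ T` lie in the closure
of `K`.  `A` is closed in `T`, and `T` is preconnected (`isPreconnected_pc`), so `A = T`
(`isPreconnected_iff_subset_of_disjoint` or `IsPreconnected.subset_of_closure_inter_subset` ...).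
-/

namespace VisMap

open Set

theorem acc_all {N : ℕ} {u : ℕ → ℂ} (h : SP N u) {z : ℂ} (hz : z ∉ TT N u) {t : ℂ}
    (ht : t ∈ TT N u) : t ∈ closure (connectedComponentIn (TT N u)ᶜ z) := by
  have hTc : IsClosed (TT N u) := isClosed_tr _
  have hzK : z ∈ connectedComponentIn (TT N u)ᶜ z := mem_connectedComponentIn hz
  have hKo : IsOpen (connectedComponentIn (TT N u)ᶜ z) := hTc.isOpen_compl.connectedComponentIn
  have hKT : connectedComponentIn (TT N u)ᶜ z ⊆ (TT N u)ᶜ := connectedComponentIn_subset _ _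
  have hTp : IsPreconnected (TT N u) := isPreconnected_pc u 0 N
  have hne : (TT N u ∩ closure (connectedComponentIn (TT N u)ᶜ z)).Nonempty := by
    by_contra hcon
    have hsub : closure (connectedComponentIn (TT N u)ᶜ z) ⊆ (TT N u)ᶜ :=
      fun x hx hxT => hcon ⟨x, hxT, hx⟩
    have hcl : closure (connectedComponentIn (TT N u)ᶜ z) ⊆ connectedComponentIn (TT N u)ᶜ z :=
      (isPreconnected_connectedComponentIn.closure).subset_connectedComponentIn
        (subset_closure hzK) hsub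
    have hKc : IsClosed (connectedComponentIn (TT N u)ᶜ z) := closure_subset_iff_isClosed.1 hcl
    have huniv : connectedComponentIn (TT N u)ᶜ z = univ :=
      IsClopen.eq_univ ⟨hKc, hKo⟩ ⟨z, hzK⟩
    exact hKT (by rw [huniv]; exact mem_univ t) ht
  have hloc : ∀ s ∈ TT N u ∩ closure (connectedComponentIn (TT N u)ᶜ z), ∃ B : Set ℂ, IsOpen B ∧
      B ∩ TT N u ⊆ closure (connectedComponentIn (TT N u)ᶜ z) ∧ s ∈ B := by
    rintro s ⟨hsT, hsK⟩
    obtain ⟨p1, p2, ε, hε, hp1, hp2, hloc, hi⟩ := local_struct h hsT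
    refine ⟨Metric.ball s ε, Metric.isOpen_ball, ?_, Metric.mem_ball_self hε⟩
    rintro x ⟨hxB, hxT⟩
    obtain ⟨z', hz'B, hz'K⟩ := mem_closure_iff.1 hsK (Metric.ball s ε) Metric.isOpen_ball
      (Metric.mem_ball_self hε)
    have hcomp : connectedComponentIn (TT N u)ᶜ z' = connectedComponentIn (TT N u)ᶜ z :=
      (connectedComponentIn_eq hz'K).symm
    rw [← hcomp]
    exact two_radii hε hp1 hp2 hloc hi hz'B (hKT hz'K) hxB hxT
  by_contra htK
  have key := hTp
    (⋃₀ {B : Set ℂ | IsOpen B ∧ B ∩ TT N u ⊆ closure (connectedComponentIn (TT N u)ᶜ z)})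
    (closure (connectedComponentIn (TT N u)ᶜ z))ᶜ
    (isOpen_sUnion fun B hB => hB.1) isClosed_closure.isOpen_compl
    (by
      intro x hx
      by_cases hxK : x ∈ closure (connectedComponentIn (TT N u)ᶜ z)
      · obtain ⟨B, hB1, hB2, hB3⟩ := hloc x ⟨hx, hxK⟩
        exact Or.inl ⟨B, ⟨hB1, hB2⟩, hB3⟩
      · exact Or.inr hxK)
    (by
      obtain ⟨x, hx, hxK⟩ := hne
      obtain ⟨B, hB1, hB2, hB3⟩ := hloc x ⟨hx, hxK⟩
      exact ⟨x, hx, B, ⟨hB1, hB2⟩, hB3⟩)
    ⟨t, ht, htK⟩
  obtain ⟨x, hxT, ⟨B, ⟨-, hB2⟩, hxB⟩, hxK⟩ := key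
  exact hxK (hB2 ⟨hxB, hxT⟩)

end VisMap
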