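import Pool.Agent.Lib.MP_9f3af0_lc.AgMatch

/-!
# MP_9f3af0_lc: at least `n / 3` classes (`n ≤ 3 k`): the words determine the relation (CN only)

helper70's case (B).  Let `d` be the smallest offset such that two members of the family, at vertices
`i ≡ i'` modulo `k`, differ at the offset `d`.
-/

namespace VisMap

namespace Fam

variable {n : ℕ} {k : ℤ} {r : Bool → ℤ → ℤ → Prop}

open Classical in
/-- Number of visible vertices of the class of the offset `c` (for `n = 3 k`, `0 < c < k`). -/
noncomputable def cls (k : ℤ) (P : ℤ → Prop) (c : ℤ) : ℕ :=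
  (({c, c + k, c + 2 * k} : Finset ℤ).filter P).card

open Classical in
theorem cls_eq_sum (k : ℤ) (hk : 0 < k) (P : ℤ → Prop) (c : ℤ) : cls k P c =
    (if P c then 1 else 0) + ((if P (c + k) then 1 else 0) + (if P (c + 2 * k) then 1 else 0)) := by
  unfold cls
  rw [Finset.card_filter, Finset.sum_insert, Finset.sum_insert, Finset.sum_singleton]
  · simp only [Finset.mem_singleton]; omega
  · simp only [Finset.mem_insert, Finset.mem_singleton]; omega

theorem cls_le {k : ℤ} {P P' : ℤ → Prop} (h : Match k P P') {c : ℤ}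
    (hP' : ∀ o, P' o → k ∣ o - c → o = c ∨ o = c + k ∨ o = c + 2 * k) :
    cls k P c ≤ cls k P' c := by
  classical
  obtain ⟨φ, h1, h2, h3, h4⟩ := h
  unfold cls
  refine Finset.card_le_card_of_injOn φ ?_ ?_
  · intro o ho
    have ho' := Finset.mem_filter.1 ho
    have h5 : k ∣ φ o - c := by
      have h6 := h2 o ho'.2
      have h7 : k ∣ o - c := by
        have := ho'.1
        simp only [Finset.mem_insert, Finset.mem_singleton] at this
        rcases this with e | e | e <;> rw [e]
        · simp
        · exact ⟨1, by ring⟩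
        · exact ⟨2, by ring⟩
      have := dvd_add h6 h7
      have e : φ o - o + (o - c) = φ o - c := by ring
      rwa [e] at this
    have := hP' _ (h1 o ho'.2) h5
    show φ o ∈ (Finset.filter P' {c, c + k, c + 2 * k} : Finset ℤ)
    rw [Finset.mem_filter]
    refine ⟨?_, h1 o ho'.2⟩
    simp only [Finset.mem_insert, Finset.mem_singleton]
    exact this
  · intro a ha b hb hab
    have ha' := (Finset.mem_filter.1 ha).2
    have hb' := (Finset.mem_filter.1 hb).2
    rcases lt_trichotomy a b with hlt | heq | hgt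
    · have := h3 a b ha' hb' hlt; omega
    · exact heq
    · have := h3 b a hb' ha' hgt; omega

theorem three_offsets {k c o : ℤ} (hk : 0 < k) (hc : 0 < c) (hck : c < k) (ho : 0 < o)
    (ho3 : o < 3 * k) (hd : k ∣ o - c) : o = c ∨ o = c + k ∨ o = c + 2 * k := by
  obtain ⟨q, hq⟩ := hd
  have hq1 : -1 < q := by
    by_contra hcon
    push Not at hcon
    have : k * q ≤ k * (-1) := mul_le_mul_of_nonneg_left hcon hk.le
    omega
  have hq2 : q < 3 := by
    by_contra hcon
    push Not at hcon
    have : k * 3 ≤ k * q := mul_le_mul_of_nonneg_left hcon hk.le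
    omega
  have : q = 0 ∨ q = 1 ∨ q = 2 := by omega
  rcases this with rfl | rfl | rfl
  · left; omega
  · right; left; omega
  · right; right; omega

theorem cls_fw (h : Fam n k r) (hn : (n : ℤ) = 3 * k) {c : ℤ} (hc : 0 < c) (hck : c < k)
    (s s' : Bool) {i i' : ℤ} (hi : k ∣ i' - i) :
    cls k (Fw n (r s) i) c = cls k (Fw n (r s') i') c := by
  refine le_antisymm (cls_le (h.fw s s' i i' hi) fun o ho hd => ?_)
    (cls_le (h.fw s s' i i' hi).symm fun o ho hd => ?_)
  all_goals exact three_offsets h.kpos hc hck ho.1 (by have := ho.2.1; omega) hd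

theorem cls_bw (h : Fam n k r) (hn : (n : ℤ) = 3 * k) {c : ℤ} (hc : 0 < c) (hck : c < k)
    (s s' : Bool) {i i' : ℤ} (hi : k ∣ i' - i) :
    cls k (Bw n (r s) i) c = cls k (Bw n (r s') i') c := by
  refine le_antisymm (cls_le (h.bw s s' i i' hi) fun o ho hd => ?_)
    (cls_le (h.bw s s' i i' hi).symm fun o ho hd => ?_)
  all_goals exact three_offsets h.kpos hc hck ho.1 (by have := ho.2.1; omega) hd

/-- Double counting for `n = 3 k`. -/
theorem double (h : Fam n k r) (hn : (n : ℤ) = 3 * k) {c : ℤ} (hc : 0 < c) (hck : c < k)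
    (s : Bool) (a : ℤ) : cls k (Fw n (r s) a) c = cls k (Bw n (r s) (a + c)) c := by
  classical
  have hk := h.kpos
  have hper := (h.zr s).per
  have hperR := (h.zr s).perR
  have hsymm : ∀ a b, r s a b ↔ r s b a := fun a b => ⟨(h.zr s).symm _ _, (h.zr s).symm _ _⟩
  -- the nine relations
  have F : ∀ j o : ℤ, 0 < o → o < 3 * k → (Fw n (r s) (a + j) o ↔ r s (a + j) (a + j + o)) :=
    fun j o h1 h2 => ⟨fun x => x.2.2, fun x => ⟨h1, by omega, x⟩⟩
  have B : ∀ j o : ℤ, 0 < o → o < 3 * k →
      (Bw n (r s) (a + c + j) o ↔ r s (a + c + j) (a + c + j - o)) :=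
    fun j o h1 h2 => ⟨fun x => x.2.2, fun x => ⟨h1, by omega, x⟩⟩
  have r1 := h.cls_fw hn hc hck s s (i := a) (i' := a + k) (by simp)
  have r2 := h.cls_fw hn hc hck s s (i := a) (i' := a + 2 * k) (by simp)
  have c1 := h.cls_bw hn hc hck s s (i := a + c) (i' := a + c + k) (by simp)
  have c2 := h.cls_bw hn hc hck s s (i := a + c) (i' := a + c + 2 * k) (by simp)
  rw [cls_eq_sum k hk, cls_eq_sum k hk] at r1 r2 c1 c2 ⊢
  -- rewrite everything in terms of the nine relations `r s (a + j k) (a + c + l k)`
  have e0 : ∀ o, Fw n (r s) a o ↔ Fw n (r s) (a + 0) o := fun o => by rw [add_zero]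
  have e0' : ∀ o, Bw n (r s) (a + c) o ↔ Bw n (r s) (a + c + 0) o := fun o => by rw [add_zero]
  have f00 : Fw n (r s) a c ↔ r s a (a + c) := by
    rw [e0, F _ _ (by omega) (by omega), add_zero]
  have f01 : Fw n (r s) a (c + k) ↔ r s a (a + c + k) := by
    rw [e0, F _ _ (by omega) (by omega), add_zero, add_assoc a c k]
  have f02 : Fw n (r s) a (c + 2 * k) ↔ r s a (a + c + 2 * k) := by
    rw [e0, F _ _ (by omega) (by omega), add_zero, add_assoc a c (2 * k)]
  have f11 : Fw n (r s) (a + k) c ↔ r s (a + k) (a + c + k) := by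
    rw [F _ _ (by omega) (by omega)]
    have e : a + k + c = a + c + k := by ring
    rw [e]
  have f12 : Fw n (r s) (a + k) (c + k) ↔ r s (a + k) (a + c + 2 * k) := by
    rw [F _ _ (by omega) (by omega)]
    have e : a + k + (c + k) = a + c + 2 * k := by ring
    rw [e]
  have f10 : Fw n (r s) (a + k) (c + 2 * k) ↔ r s (a + k) (a + c) := by
    rw [F _ _ (by omega) (by omega)]
    have e : a + k + (c + 2 * k) = a + c + n := by rw [hn]; ring
    rw [e, hperR]
  have f22 : Fw n (r s) (a + 2 * k) c ↔ r s (a + 2 * k) (a + c + 2 * k) := by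
    rw [F _ _ (by omega) (by omega)]
    have e : a + 2 * k + c = a + c + 2 * k := by ring
    rw [e]
  have f20 : Fw n (r s) (a + 2 * k) (c + k) ↔ r s (a + 2 * k) (a + c) := by
    rw [F _ _ (by omega) (by omega)]
    have e : a + 2 * k + (c + k) = a + c + n := by rw [hn]; ring
    rw [e, hperR]
  have f21 : Fw n (r s) (a + 2 * k) (c + 2 * k) ↔ r s (a + 2 * k) (a + c + k) := by
    rw [F _ _ (by omega) (by omega)]
    have e : a + 2 * k + (c + 2 * k) = a + c + k + n := by rw [hn]; ring
    rw [e, hperR]
  have g00 : Bw n (r s) (a + c) c ↔ r s a (a + c) := by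
    rw [e0', B _ _ (by omega) (by omega), add_zero, add_sub_cancel_right, hsymm]
  have g02 : Bw n (r s) (a + c) (c + k) ↔ r s (a + 2 * k) (a + c) := by
    rw [e0', B _ _ (by omega) (by omega), add_zero, hsymm, ← hper]
    have e : a + c - (c + k) + n = a + 2 * k := by rw [hn]; ring
    rw [e]
  have g01 : Bw n (r s) (a + c) (c + 2 * k) ↔ r s (a + k) (a + c) := by
    rw [e0', B _ _ (by omega) (by omega), add_zero, hsymm, ← hper]
    have e : a + c - (c + 2 * k) + n = a + k := by rw [hn]; ring
    rw [e]
  have g11 : Bw n (r s) (a + c + k) c ↔ r s (a + k) (a + c + k) := by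
    rw [B _ _ (by omega) (by omega), hsymm]
    have e : a + c + k - c = a + k := by ring
    rw [e]
  have g10 : Bw n (r s) (a + c + k) (c + k) ↔ r s a (a + c + k) := by
    rw [B _ _ (by omega) (by omega), hsymm]
    have e : a + c + k - (c + k) = a := by ring
    rw [e]
  have g12 : Bw n (r s) (a + c + k) (c + 2 * k) ↔ r s (a + 2 * k) (a + c + k) := by
    rw [B _ _ (by omega) (by omega), hsymm, ← hper]
    have e : a + c + k - (c + 2 * k) + n = a + 2 * k := by rw [hn]; ring
    rw [e]
  have g22 : Bw n (r s) (a + c + 2 * k) c ↔ r s (a + 2 * k) (a + c + 2 * k) := by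
    rw [B _ _ (by omega) (by omega), hsymm]
    have e : a + c + 2 * k - c = a + 2 * k := by ring
    rw [e]
  have g21 : Bw n (r s) (a + c + 2 * k) (c + k) ↔ r s (a + k) (a + c + 2 * k) := by
    rw [B _ _ (by omega) (by omega), hsymm]
    have e : a + c + 2 * k - (c + k) = a + k := by ring
    rw [e]
  have g20 : Bw n (r s) (a + c + 2 * k) (c + 2 * k) ↔ r s a (a + c + 2 * k) := by
    rw [B _ _ (by omega) (by omega), hsymm]
    have e : a + c + 2 * k - (c + 2 * k) = a := by ring
    rw [e]
  simp only [f00, f01, f02, f11, f12, f10, f22, f20, f21] at r1 r2 ⊢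
  simp only [g00, g01, g02, g11, g12, g10, g22, g20, g21] at c1 c2 ⊢
  omega

/-- The residue class of an offset above `d` for `n ≤ 3 k`. -/
theorem above {k d o : ℤ} (hk : 0 < k) (hdo : d < o) (ho : o < 3 * k) (hd0 : 0 < d)
    (hd : k ∣ o - d) : (o = d + k ∨ o = d + 2 * k) := by
  obtain ⟨q, hq⟩ := hd
  have hq1 : 0 < q := by
    by_contra hcon
    push Not at hcon
    have : k * q ≤ k * 0 := mul_le_mul_of_nonneg_left hcon hk.le
    omega
  have hq2 : q < 3 := by
    by_contra hcon
    push Not at hcon
    have : k * 3 ≤ k * q := mul_le_mul_of_nonneg_left hcon hk.le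
    omega
  have : q = 1 ∨ q = 2 := by omega
  rcases this with rfl | rfl
  · left; omega
  · right; omega

/-- The two views at the smallest offset where they differ. -/
theorem step (h : Fam n k r) {d : ℤ}
    (hag : ∀ o, o < d → ∀ s s' i i', k ∣ i' - i → (Fw n (r s) i o ↔ Fw n (r s') i' o))
    {s s' : Bool} {i i' : ℤ} (hi : k ∣ i' - i) (hd : Fw n (r s) i d) (hd' : ¬ Fw n (r s') i' d) :
    ∃ e o' g, 0 < e ∧ e < d ∧ d < o' ∧ k ∣ o' - d ∧ Fw n (r s') i' o' ∧
      (∀ m, d ≤ m → m < o' → ¬ Fw n (r s') i' m) ∧
      r s (i + e) (i + d) ∧ Bw n (r s') (i' + o') (o' - e) ∧ Bw n (r s') (i' + o') o' ∧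
      d ≤ g ∧ k ∣ g - d ∧ Bw n (r s') (i' + o') g ∧
      (∀ m, d ≤ m → m < g → ¬ Bw n (r s') (i' + o') m) := by
  have hz := h.zr s
  have hz' := h.zr s'
  have hd1 : d ≠ 1 := by
    rintro rfl
    exact hd' ⟨by omega, by have := hd.2.1; omega, hz'.succ i'⟩
  have hdpos := hd.1
  have hdn := hd.2.1
  obtain ⟨e, he1, he2, he3, he4⟩ := exists_last (p := fun o => Fw n (r s) i o) (a := 1)
    (b := d - 1) (by omega) ⟨by omega, by omega, hz.succ i⟩
  have he3' : Fw n (r s') i' e := (hag e (by omega) s s' i i' hi).1 he3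
  obtain ⟨o', ho1, ho2, ho3, ho4⟩ := (h.fw s s' i i' hi).next (fun o ho => ho.1)
    (fun o ho => hag o ho s s' i i' hi) hd
  have hod : d ≠ o' := by rintro rfl; exact hd' ho1
  have hon := ho1.2.1
  have hcn : r s (i + e) (i + d) := by
    refine hz.cn i (i + e) (i + d) (by omega) (by omega) (by omega) he3.2.2 hd.2.2
      (fun m hm1 hm2 hm3 => ?_)
    refine he4 (m - i) (by omega) (by omega) ⟨by omega, by omega, ?_⟩
    rwa [add_sub_cancel]
  have hcn' : r s' (i' + e) (i' + o') := by
    refine hz'.cn i' (i' + e) (i' + o') (by omega) (by omega) (by omega) he3'.2.2 ho1.2.2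
      (fun m hm1 hm2 hm3 => ?_)
    have h5 : Fw n (r s') i' (m - i') := ⟨by omega, by omega, by rwa [add_sub_cancel]⟩
    rcases lt_or_ge (m - i') d with hlt | hge
    · exact he4 (m - i') (by omega) (by omega) ((hag _ hlt s s' i i' hi).2 h5)
    · exact ho4 _ hge (by omega) h5
  have hb1 : Bw n (r s) (i + d) d := by
    rw [h.bw_iff_fw, add_sub_cancel_right]; exact hd
  have hagB : ∀ o, o < d → (Bw n (r s) (i + d) o ↔ Bw n (r s') (i' + o') o) := by
    intro o ho
    rw [h.bw_iff_fw, h.bw_iff_fw]
    refine hag o ho s s' _ _ ?_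
    have := dvd_add hi ho3
    have e2 : i' - i + (o' - d) = i' + o' - o - (i + d - o) := by ring
    rwa [e2] at this
  have hii : k ∣ i' + o' - (i + d) := by
    have := dvd_add hi ho3
    have e2 : i' - i + (o' - d) = i' + o' - (i + d) := by ring
    rwa [e2] at this
  obtain ⟨g, hg1, hg2, hg3, hg4⟩ := (h.bw s s' (i + d) (i' + o') hii).next (fun o ho => ho.1)
    hagB hb1
  refine ⟨e, o', g, by omega, by omega, by omega, ho3, ho1, ho4, hcn, ?_, ?_, hg2, hg3, hg1, hg4⟩
  · rw [h.bw_iff_fw]
    refine ⟨by omega, by omega, ?_⟩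
    have e1 : i' + o' - (o' - e) = i' + e := by ring
    rw [e1]
    have e2 : i' + e + (o' - e) = i' + o' := by ring
    rw [e2]; exact hcn'
  · rw [h.bw_iff_fw, add_sub_cancel_right]; exact ho1

/-- The case `n = 3 k`, offset smaller than `k`. -/
theorem no_three (h : Fam n k r) (hn : (n : ℤ) = 3 * k) {d : ℤ}
    (hag : ∀ o, o < d → ∀ s s' i i', k ∣ i' - i → (Fw n (r s) i o ↔ Fw n (r s') i' o))
    {s s' : Bool} {i i' : ℤ} (hi : k ∣ i' - i) (hd : Fw n (r s) i d) (hd' : ¬ Fw n (r s') i' d)
    (hdk : d < k) : False := by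
  classical
  have hk := h.kpos
  have hdpos := hd.1
  obtain ⟨e, o', g, he1, he2, ho2, ho3, ho1, ho4, hcn, hx, hA, hg2, hg3, hg1, hg4⟩ :=
    h.step hag hi hd hd'
  have hge : g ≤ o' - e := by
    by_contra hc
    push Not at hc
    have h3 := above hk ho2 (by have := ho1.2.1; omega) hdpos ho3
    exact hg4 _ (by omega) hc hx
  have hperR := (h.zr s').perR
  have hper := (h.zr s').per
  have hsymm : ∀ a b, r s' a b ↔ r s' b a :=
    fun a b => ⟨(h.zr s').symm _ _, (h.zr s').symm _ _⟩
  have hdd : ¬ Bw n (r s') (i' + d) d := by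
    rw [h.bw_iff_fw, add_sub_cancel_right]; exact hd'
  -- the class counts
  have hrow := h.double hn hdpos hdk s' i'
  rcases above hk ho2 (by have := ho1.2.1; omega) hdpos ho3 with ho | ho
  · -- o' = d + k
    have hgd : g = d := by
      rcases hg2.lt_or_eq with hlt | heq
      · have := above hk hlt (by omega) hdpos hg3
        omega
      · exact heq.symm
    rw [hgd] at hg1
    rw [ho] at hg1 hx hA ho1
    have hcol := h.cls_bw hn hdpos hdk s' s' (i := i' + d) (i' := i' + (d + k))
      ⟨1, by ring⟩
    have hcol' := hcol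
    rw [cls_eq_sum k hk, cls_eq_sum k hk, if_neg hdd, if_pos hg1, if_pos hA] at hcol'
    have hb1 : Bw n (r s') (i' + d) (d + k) := by
      by_contra hc
      rw [if_neg hc] at hcol'
      split_ifs at hcol' <;> omega
    have hb2 : Bw n (r s') (i' + d) (d + 2 * k) := by
      by_contra hc
      rw [if_neg hc] at hcol'
      split_ifs at hcol' <;> omega
    -- the view of `D 0 = i' + d`
    have hagB : ∀ o, o < d → (Bw n (r s) (i + d) o ↔ Bw n (r s') (i' + d) o) := by
      intro o ho
      rw [h.bw_iff_fw, h.bw_iff_fw]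
      refine hag o ho s s' _ _ ?_
      have e2 : i' - i = i' + d - o - (i + d - o) := by ring
      rwa [e2] at hi
    have hbs : Bw n (r s) (i + d) d := by
      rw [h.bw_iff_fw, add_sub_cancel_right]; exact hd
    obtain ⟨g0, hg01, hg02, hg03, hg04⟩ :=
      (h.bw s s' (i + d) (i' + d) (by have e2 : i' + d - (i + d) = i' - i := by ring
                                      rwa [e2])).next (fun o ho => ho.1) hagB hbs
    have hg0k : g0 = d + k := by
      have h1 : g0 ≠ d := by rintro rfl; exact hdd hg01
      have h2 := above hk (show d < g0 by omega) (by have := hg01.2.1; omega) hdpos hg03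
      have h3 : g0 ≤ d + k := by
        by_contra hc
        push Not at hc
        exact hg04 _ (by omega) hc hb1
      omega
    have hno : ¬ Bw n (r s') (i' + d) (d - e + k) := hg04 _ (by omega) (by omega)
    -- the class of `x` between the two letters
    have hyes : Bw n (r s') (i' + d) (d - e + 2 * k) := by
      obtain ⟨ψ, p1, p2, p3, p4⟩ := h.bw s' s' (i' + (d + k)) (i' + d) ⟨-1, by ring⟩
      have a1 := p1 _ hg1
      have a2 := p1 _ hx
      have a3 := p1 _ hA
      have b1 := p2 _ hg1
      have b2 := p2 _ hx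
      have b3 := p2 _ hA
      have c1 := p3 _ _ hg1 hx (by omega)
      have c2 := p3 _ _ hx hA (by omega)
      have d1 := three_offsets hk hdpos hdk a1.1 (by have := a1.2.1; omega) b1
      have d3 := three_offsets (c := d) hk hdpos hdk a3.1 (by have := a3.2.1; omega)
        (by have := dvd_add b3 (show k ∣ k from dvd_refl k)
            have e2 : ψ (d + k) - (d + k) + k = ψ (d + k) - d := by ring
            rwa [e2] at this)
      have d2 := three_offsets (c := d - e) hk (by omega) (by omega) a2.1
        (by have := a2.2.1; omega)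
        (by have := dvd_add b2 (show k ∣ k from dvd_refl k)
            have e2 : ψ (d + k - e) - (d + k - e) + k = ψ (d + k - e) - (d - e) := by ring
            rwa [e2] at this)
      have n1 : ψ d ≠ d := by intro e1; rw [e1] at a1; exact hdd a1
      have : ψ (d + k - e) = d - e + 2 * k := by omega
      rwa [this] at a2
    have hnear : ∀ i'', k ∣ i'' - (i + e) → Fw n (r s') i'' (d - e) := by
      intro i'' hi''
      refine (hag (d - e) (by omega) s s' (i + e) i'' hi'').1 ⟨by omega, by omega, ?_⟩
      have e1 : i + e + (d - e) = i + d := by ring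
      rw [e1]; exact hcn
    have hx0 : Bw n (r s') (i' + d) (d - e) := by
      rw [h.bw_iff_fw]
      refine hnear _ ?_
      have e1 : i' + d - (d - e) - (i + e) = i' - i := by ring
      rwa [e1]
    have hx1 : Bw n (r s') (i' + (d + k)) (d - e) := by
      rw [h.bw_iff_fw]
      refine hnear _ ?_
      have e1 : i' + (d + k) - (d - e) - (i + e) = i' - i + k := by ring
      rw [e1]; exact dvd_add hi (dvd_refl k)
    have hc1 := h.cls_bw hn (c := d - e) (by omega) (by omega) s' s' (i := i' + d)
      (i' := i' + (d + k)) ⟨1, by ring⟩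
    have hc2 := h.double hn (c := d - e) (by omega) (by omega) s' (i' + e)
    have e3 : i' + e + (d - e) = i' + d := by ring
    rw [e3] at hc2
    have hc3 := h.cls_fw hn (c := d - e) (by omega) (by omega) s' s' (i := i' + e)
      (i' := i' + e + 2 * k) ⟨2, by ring⟩
    -- the row of `X 2`
    have hX0 : ¬ Fw n (r s') (i' + e + 2 * k) (d - e + k) := by
      intro hc
      refine hno ?_
      rw [h.bw_iff_fw]
      refine ⟨by omega, by omega, ?_⟩
      have h1 := hc.2.2
      have e4 : i' + e + 2 * k + (d - e + k) = i' + d - (d - e + k) + (d - e + k) + n := by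
        rw [hn]; ring
      rw [e4, hperR, ← hper] at h1
      have e5 : i' + d - (d - e + k) + (n : ℤ) = i' + e + 2 * k := by rw [hn]; ring
      rw [← hper, e5]
      have h2 := (hper (i' + e + 2 * k) (i' + d - (d - e + k) + (d - e + k))).1 h1
      exact h2
    have hX1 : Fw n (r s') (i' + e + 2 * k) (d - e + 2 * k) := by
      by_contra hc
      rw [cls_eq_sum k hk, cls_eq_sum k hk, if_neg hX0, if_neg hc] at hc3
      rw [cls_eq_sum k hk, cls_eq_sum k hk, if_pos hx0, if_neg hno, if_pos hyes] at hc2
      split_ifs at hc3 hc2 <;> omega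
    have hX2 : Bw n (r s') (i' + (d + k)) (d - e + 2 * k) := by
      rw [h.bw_iff_fw]
      refine ⟨by omega, by omega, ?_⟩
      have h1 := hX1.2.2
      have e4 : i' + e + 2 * k + (d - e + 2 * k) =
          i' + (d + k) - (d - e + 2 * k) + (d - e + 2 * k) + n := by rw [hn]; ring
      rw [e4, hperR] at h1
      have e5 : i' + (d + k) - (d - e + 2 * k) + (n : ℤ) = i' + e + 2 * k := by rw [hn]; ring
      rw [← hper, e5]
      exact h1
    have e6 : d + k - e = d - e + k := by ring
    rw [e6] at hx
    rw [cls_eq_sum k hk, cls_eq_sum k hk, if_pos hx0, if_neg hno, if_pos hyes, if_pos hx1,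
      if_pos hx, if_pos hX2] at hc1
    omega
  · -- o' = d + 2 k
    have hcol := h.cls_bw hn hdpos hdk s' s' (i := i' + d) (i' := i' + o')
      (by have e2 : i' + o' - (i' + d) = o' - d := by ring
          rwa [e2])
    have hgg : g = d ∨ g = d + k := by
      rcases hg2.lt_or_eq with hlt | heq
      · have := above hk hlt (by omega) hdpos hg3
        omega
      · exact Or.inl heq.symm
    rw [← hrow, cls_eq_sum k hk, cls_eq_sum k hk, if_neg hd',
      if_neg (ho4 (d + k) (by omega) (by omega)), ← ho, if_pos ho1, if_pos hA] at hcol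
    rcases hgg with hg | hg
    · rw [hg] at hg1
      rw [if_pos hg1] at hcol
      split_ifs at hcol <;> omega
    · rw [hg] at hg1
      rw [if_pos hg1] at hcol
      split_ifs at hcol <;> omega

/-- The case `n = 2 k`. -/
theorem no_two (h : Fam n k r) (hn : (n : ℤ) = 2 * k) {d : ℤ}
    (hag : ∀ o, o < d → ∀ s s' i i', k ∣ i' - i → (Fw n (r s) i o ↔ Fw n (r s') i' o))
    {s s' : Bool} {i i' : ℤ} (hi : k ∣ i' - i) (hd : Fw n (r s) i d) (hd' : ¬ Fw n (r s') i' d) :
    False := by
  have hk := h.kpos
  have hdpos := hd.1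
  obtain ⟨e, o', g, he1, he2, ho2, ho3, ho1, ho4, hcn, hx, hA, hg2, hg3, hg1, hg4⟩ :=
    h.step hag hi hd hd'
  have hon := ho1.2.1
  have ho : o' = d + k := by
    have := above hk ho2 (by omega) hdpos ho3
    omega
  have hge : g ≤ o' - e := by
    by_contra hc
    push Not at hc
    exact hg4 _ (by omega) hc hx
  have hgd : g = d := by
    rcases hg2.lt_or_eq with hlt | heq
    · have := above hk hlt (by omega) hdpos hg3
      omega
    · exact heq.symm
  rw [hgd, ho] at hg1
  rw [ho] at hA
  obtain ⟨ψ, p1, p2, p3, p4⟩ := h.bw s' s' (i' + (d + k)) (i' + d) ⟨-1, by ring⟩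
  have a1 := p1 _ hg1
  have a3 := p1 _ hA
  have b1 := p2 _ hg1
  have b3 := p2 _ hA
  have c1 := p3 _ _ hg1 hA (by omega)
  have hdk : d < k := by omega
  have d1 := three_offsets hk hdpos hdk a1.1 (by have := a1.2.1; omega) b1
  have d3 := three_offsets (c := d) hk hdpos hdk a3.1 (by have := a3.2.1; omega)
    (by have := dvd_add b3 (show k ∣ k from dvd_refl k)
        have e2 : ψ (d + k) - (d + k) + k = ψ (d + k) - d := by ring
        rwa [e2] at this)
  have h1 := a1.2.1
  have h3 := a3.2.1
  have n1 : ψ d = d := by omega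
  rw [n1, h.bw_iff_fw, add_sub_cancel_right] at a1
  exact hd' a1

/-- The case `n = 3 k`, offsets at least `k`. -/
theorem no_three' (h : Fam n k r) (hn : (n : ℤ) = 3 * k) {d : ℤ}
    (hag : ∀ o, o < d → ∀ s s' i i', k ∣ i' - i → (Fw n (r s) i o ↔ Fw n (r s') i' o))
    {s s' : Bool} {i i' : ℤ} (hi : k ∣ i' - i) (hd : Fw n (r s) i d) (hd' : ¬ Fw n (r s') i' d)
    (hdk : k ≤ d) : False := by
  have hk := h.kpos
  have hdpos := hd.1
  obtain ⟨φ, p1, p2, p3, p4⟩ := h.fw s s' i i' hi
  obtain ⟨o', ho1, ho2, ho3, ho4⟩ := (h.fw s s' i i' hi).next (fun o ho => ho.1)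
    (fun o ho => hag o ho s s' i i' hi) hd
  have hod : d ≠ o' := by rintro rfl; exact hd' ho1
  have hon := ho1.2.1
  have ho : o' = d + k := by
    have := above hk (show d < o' by omega) (by omega) hdpos ho3
    omega
  -- the image of `d`
  have hφd : φ d = d + k := by
    have q1 := p1 _ hd
    have q2 := p2 _ hd
    have hge : d ≤ φ d := by
      by_contra hc
      push Not at hc
      have h6 : Fw n (r s) i (φ d) := (hag _ hc s s' i i' hi).2 q1
      -- all offsets below `d` are fixed
      have hid : ∀ N : ℕ, ∀ o : ℤ, o.toNat ≤ N → o < d → Fw n (r s) i o → φ o ≤ o → φ o = o := by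
        intro N
        induction N with
        | zero => intro o ho _ hPo; have := hPo.1; omega
        | succ N ih =>
          intro o ho hod hPo hle
          by_contra hne
          have h5 : φ o < o := by omega
          have h6 : Fw n (r s) i (φ o) := (hag _ (by omega) s s' i i' hi).2 (p1 o hPo)
          have h8 := p3 _ _ h6 hPo h5
          have h7 := ih (φ o) (by have := h6.1; omega) (by omega) h6 h8.le
          omega
      have h8 := p3 _ _ h6 hd hc
      have h7 := hid _ (φ d) le_rfl hc h6 h8.le
      omega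
    have hne : d ≠ φ d := by intro e1; rw [← e1] at q1; exact hd' q1
    have := above hk (show d < φ d by omega) (by have := q1.2.1; omega) hdpos q2
    have := q1.2.1
    omega
  rcases hdk.lt_or_eq with hlt | heq
  · -- `k < d`: the offset `d + k` is common by minimality
    have h1 : Fw n (r s') (i' + (d + k)) (2 * k - d) := by
      rw [← ho]
      have := (h.bw_iff_fw (s := s') (i := i' + o') (o := o')).2
        (by rw [add_sub_cancel_right]; exact ho1)
      rw [h.bw_iff] at this
      have e1 : (n : ℤ) - o' = 2 * k - d := by rw [hn, ho]; ring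
      rwa [e1] at this
    have h2 : Fw n (r s) (i + (d + k)) (2 * k - d) :=
      (hag (2 * k - d) (by omega) s s' _ _ (by
        have e1 : i' + (d + k) - (i + (d + k)) = i' - i := by ring
        rwa [e1])).2 h1
    have h3 : Fw n (r s) i (d + k) := by
      have h4 : Bw n (r s) (i + (d + k)) (d + k) := by
        rw [h.bw_iff]
        have e1 : (n : ℤ) - (d + k) = 2 * k - d := by rw [hn]; ring
        rwa [e1]
      rw [h.bw_iff_fw, add_sub_cancel_right] at h4
      exact h4
    have h5 := p3 _ _ hd h3 (by omega)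
    have h6 := p1 _ h3
    have h7 := p2 _ h3
    have := above hk (show d + k < φ (d + k) by omega) (by have := h6.2.1; omega) (by omega) h7
    have := h6.2.1
    omega
  · -- `d = k`
    subst heq
    have hperR := (h.zr s').perR
    have hper := (h.zr s').per
    have hsymm : ∀ a b, r s' a b ↔ r s' b a :=
      fun a b => ⟨(h.zr s').symm _ _, (h.zr s').symm _ _⟩
    rw [ho] at ho1
    -- `A 0` does not see `A 1`, sees `A 2`
    have hA01 : ¬ r s' i' (i' + k) := fun hc => hd' ⟨hk, by omega, hc⟩
    have key : ∀ j, k ∣ j - i' → (r s' j (j + k) ∨ r s' j (j + 2 * k)) ∧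
        ¬ (r s' j (j + k) ∧ r s' j (j + 2 * k)) := by
      intro j hj
      constructor
      · obtain ⟨χ, x1, x2, x3, x4⟩ := h.fw s' s' i' j hj
        have y1 := x1 _ ho1
        have y2 := x2 _ ho1
        obtain ⟨q, hq⟩ := y2
        have hq1 : -2 < q := by
          by_contra hcon
          push Not at hcon
          have : k * q ≤ k * (-2) := mul_le_mul_of_nonneg_left hcon hk.le
          have := y1.1
          omega
        have hq2 : q < 1 := by
          by_contra hcon
          push Not at hcon
          have : k * 1 ≤ k * q := mul_le_mul_of_nonneg_left hcon hk.le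
          have := y1.2.1
          omega
        have : q = -1 ∨ q = 0 := by omega
        rcases this with rfl | rfl
        · have e1 : χ (k + k) = k := by omega
          rw [e1] at y1; exact Or.inl y1.2.2
        · have e1 : χ (k + k) = 2 * k := by omega
          rw [e1] at y1; exact Or.inr y1.2.2
      · rintro ⟨z1, z2⟩
        obtain ⟨χ, x1, x2, x3, x4⟩ := h.fw s' s' j i' (by
          have e1 : i' - j = -(j - i') := by ring
          rw [e1]; exact (dvd_neg).2 hj)
        have w1 : Fw n (r s') j k := ⟨hk, by omega, z1⟩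
        have w2 : Fw n (r s') j (2 * k) := ⟨by omega, by omega, z2⟩
        have v1 := x1 _ w1
        have v2 := x1 _ w2
        have v3 := x3 _ _ w1 w2 (by omega)
        have v4 := x2 _ w1
        have v5 : χ k ≠ k := by intro e1; rw [e1] at v1; exact hd' v1
        obtain ⟨q, hq⟩ := v4
        have v6 := v1.1
        have v7 := v2.2.1
        obtain ⟨q', hq'⟩ := x2 _ w2
        have hq1 : -1 < q := by
          by_contra hcon
          push Not at hcon
          have : k * q ≤ k * (-1) := mul_le_mul_of_nonneg_left hcon hk.le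
          omega
        have hq3 : q ≠ 0 := by rintro rfl; omega
        have hq2 : 1 ≤ q := by omega
        have hkq : k * 1 ≤ k * q := mul_le_mul_of_nonneg_left hq2 hk.le
        have hq1' : 0 < q' := by
          by_contra hcon
          push Not at hcon
          have : k * q' ≤ k * 0 := mul_le_mul_of_nonneg_left hcon hk.le
          omega
        have : k * 1 ≤ k * q' := mul_le_mul_of_nonneg_left (by omega) hk.le
        omega
    have hA02 : r s' i' (i' + 2 * k) := by
      have := ho1.2.2
      have e1 : i' + (k + k) = i' + 2 * k := by ring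
      rwa [e1] at this
    have k1 := key (i' + k) ⟨1, by ring⟩
    have k2 := key (i' + 2 * k) ⟨2, by ring⟩
    have e1 : i' + k + k = i' + 2 * k := by ring
    have e2 : i' + k + 2 * k = i' + n := by rw [hn]; ring
    have e3 : i' + 2 * k + k = i' + n := by rw [hn]; ring
    have e4 : i' + 2 * k + 2 * k = i' + k + n := by rw [hn]; ring
    rw [e1, e2, hperR] at k1
    rw [e3, e4, hperR, hperR] at k2
    have h10 : ¬ r s' (i' + k) i' := fun hc => hA01 ((hsymm _ _).1 hc)
    have h12 : r s' (i' + k) (i' + 2 * k) := by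
      rcases k1.1 with hh | hh
      · exact hh
      · exact absurd hh h10
    exact k2.2 ⟨(hsymm _ _).1 hA02, (hsymm _ _).1 h12⟩

/-- helper70's case (B): for `n ≤ 3 k` all members of the family are equal and `k`-periodic. -/
theorem agree (h : Fam n k r) (hn : (n : ℤ) ≤ 3 * k) (s s' : Bool) (i i' : ℤ)
    (hi : k ∣ i' - i) (o : ℤ) : Fw n (r s) i o ↔ Fw n (r s') i' o := by
  have hk := h.kpos
  have h3 := h.three
  -- strong induction on `o`
  have main : ∀ N : ℕ, ∀ o : ℤ, o.toNat ≤ N → ∀ s s' i i', k ∣ i' - i →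
      Fw n (r s) i o → Fw n (r s') i' o := by
    intro N
    induction N with
    | zero => intro o ho s s' i i' hi hP; have := hP.1; omega
    | succ N ih =>
      intro o ho s s' i i' hi hP
      by_contra hc
      have hag : ∀ o₁, o₁ < o → ∀ s s' i i', k ∣ i' - i →
          (Fw n (r s) i o₁ ↔ Fw n (r s') i' o₁) := by
        intro o₁ ho₁ s s' i i' hi
        have hpos := hP.1
        constructor
        · intro hh
          exact ih o₁ (by have := hh.1; omega) s s' i i' hi hh
        · intro hh
          refine ih o₁ (by have := hh.1; omega) s' s i' i ?_ hh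
          have e1 : i - i' = -(i' - i) := by ring
          rw [e1]; exact (dvd_neg).2 hi
      obtain ⟨m, hm⟩ := h.dvd
      have hm1 : 0 < m := by
        by_contra hcon
        push Not at hcon
        have : k * m ≤ k * 0 := mul_le_mul_of_nonneg_left hcon hk.le
        omega
      have hm4 : m < 4 := by
        by_contra hcon
        push Not at hcon
        have : k * 4 ≤ k * m := mul_le_mul_of_nonneg_left hcon hk.le
        omega
      have : m = 1 ∨ m = 2 ∨ m = 3 := by omega
      rcases this with rfl | rfl | rfl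
      · obtain ⟨o', ho1, ho2, ho3, ho4⟩ := (h.fw s s' i i' hi).next (fun o ho => ho.1)
          (fun o ho => hag o ho s s' i i' hi) hP
        have hne : o ≠ o' := by rintro rfl; exact hc ho1
        have := above hk (show o < o' by omega) (by have := ho1.2.1; omega) hP.1 ho3
        have := ho1.2.1
        have := hP.1
        omega
      · exact h.no_two (by rw [hm]; ring) hag hi hP hc
      · rcases lt_or_ge o k with hlt | hge
        · exact h.no_three (by rw [hm]; ring) hag hi hP hc hlt
        · exact h.no_three' (by rw [hm]; ring) hag hi hP hc hge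
  constructor
  · exact main _ o le_rfl s s' i i' hi
  · refine main _ o le_rfl s' s i' i ?_
    have e1 : i - i' = -(i' - i) := by ring
    rw [e1]; exact (dvd_neg).2 hi

end Fam

end VisMap
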