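import Pool.Agent.Lib.MP_9f3af0_lc.Defs

/-!
# MP_9f3af0_lc, agent half: ports of a relation on `ZMod n`
-/

namespace VisMap

namespace Ag

variable {n : ℕ} {R : ZMod n → ZMod n → Prop}

theorem val_sub_inj [NeZero n] {i j k : ZMod n} (h : (j - i).val = (k - i).val) : j = k := by
  have h1 := ZMod.val_injective n h
  exact sub_left_injective h1

theorem isPortR_unique [NeZero n] {i : ZMod n} {p : ℕ} {j j' : ZMod n} (h : IsPortR R i p j)
    (h' : IsPortR R i p j') : j = j' := by
  have key : ∀ j j' : ZMod n, IsPortR R i p j → IsPortR R i p j' →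
      ¬ (j - i).val < (j' - i).val := by
    intro j j' h h' hlt
    have h1 : {k | R i k ∧ (k - i).val < (j - i).val} ⊂ {k | R i k ∧ (k - i).val < (j' - i).val} := by
      refine ⟨fun k hk => ⟨hk.1, hk.2.trans hlt⟩, fun hsub => ?_⟩
      exact absurd (hsub (show j ∈ {k | R i k ∧ (k - i).val < (j' - i).val} from ⟨h.1, hlt⟩)).2
        (lt_irrefl _)
    have h2 := Set.ncard_lt_ncard h1 (Set.toFinite _)
    rw [h.2, h'.2] at h2
    exact lt_irrefl _ h2
  refine val_sub_inj (i := i) ?_
  exact le_antisymm (not_lt.1 (key _ _ h' h)) (not_lt.1 (key _ _ h h'))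

theorem isPortR_lt [NeZero n] {i : ZMod n} {p : ℕ} {j : ZMod n} (h : IsPortR R i p j) :
    p < degR R i := by
  rw [← h.2]
  refine Set.ncard_lt_ncard ⟨fun k hk => hk.1, fun hsub => ?_⟩ (Set.toFinite _)
  exact absurd (hsub (show j ∈ {k | R i k} from h.1)).2 (lt_irrefl _)

theorem exists_isPortR_of_rel {i j : ZMod n} (h : R i j) : ∃ p, IsPortR R i p j := ⟨_, h, rfl⟩

theorem exists_isPortR [NeZero n] {i : ZMod n} {p : ℕ} (hp : p < degR R i) :
    ∃ j, IsPortR R i p j := by
  classical
  set f : ZMod n → ℕ := fun j => {k | R i k ∧ (k - i).val < (j - i).val}.ncard with hf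
  have h1 : ∀ j ∈ {j | R i j}, f j ∈ (Set.Iio (degR R i)) := by
    intro j hj
    exact isPortR_lt (show IsPortR R i (f j) j from ⟨hj, rfl⟩)
  have h2 : Set.InjOn f {j | R i j} := by
    intro j hj j' hj' he
    exact isPortR_unique (p := f j) ⟨hj, rfl⟩ ⟨hj', he.symm⟩
  have h3 : f '' {j | R i j} = Set.Iio (degR R i) := by
    refine Set.eq_of_subset_of_ncard_le (Set.image_subset_iff.2 h1) ?_ (Set.finite_Iio _)
    rw [Set.InjOn.ncard_image h2]
    have : (Set.Iio (degR R i)).ncard = degR R i := by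
      rw [← Finset.coe_Iio, Set.ncard_coe_finset, Nat.card_Iio]
    rw [this]; rfl
  have h4 : p ∈ f '' {j | R i j} := by rw [h3]; exact hp
  obtain ⟨j, hj, hjp⟩ := h4
  exact ⟨j, hj, hjp⟩

open Classical in
/-- The neighbour in position `p`, in boundary order. -/
noncomputable def moveR (R : ZMod n → ZMod n → Prop) (i : ZMod n) (p : ℕ) : ZMod n :=
  if h : ∃ j, IsPortR R i p j then h.choose else i

theorem moveR_eq [NeZero n] {i : ZMod n} {p : ℕ} {j : ZMod n} (h : IsPortR R i p j) :
    moveR R i p = j := by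
  have he : ∃ j, IsPortR R i p j := ⟨j, h⟩
  rw [moveR, dif_pos he]
  exact isPortR_unique he.choose_spec h

theorem isPortR_moveR [NeZero n] {i : ZMod n} {p : ℕ} (hp : p < degR R i) :
    IsPortR R i p (moveR R i p) := by
  obtain ⟨j, hj⟩ := exists_isPortR hp
  rwa [moveR_eq hj]

theorem isPortR_succ (hn : 2 ≤ n) (hR : VisRel R) (i : ZMod n) : IsPortR R i 0 (i + 1) := by
  have : NeZero n := ⟨by omega⟩
  have : Fact (1 < n) := ⟨by omega⟩
  refine ⟨hR.succ i, ?_⟩
  rw [Set.ncard_eq_zero (Set.toFinite _)]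
  ext k
  simp only [Set.mem_ofPred_eq, Set.mem_empty_iff_false, iff_false, not_and, not_lt]
  intro hk
  rw [add_sub_cancel_left, ZMod.val_one]
  rcases Nat.eq_zero_or_pos (k - i).val with h | h
  · exfalso
    rw [ZMod.val_eq_zero, sub_eq_zero] at h
    exact hR.irrefl i (h ▸ hk)
  · exact h

theorem degR_pos (hn : 2 ≤ n) (hR : VisRel R) (i : ZMod n) : 0 < degR R i := by
  have : NeZero n := ⟨by omega⟩
  exact isPortR_lt (isPortR_succ hn hR i)

/-- The translate of a relation. -/
def shiftR (R : ZMod n → ZMod n → Prop) (a : ZMod n) (i j : ZMod n) : Prop := R (i + a) (j + a)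

theorem degR_shift (a i : ZMod n) : degR (shiftR R a) i = degR R (i + a) := by
  unfold degR shiftR
  rw [← Set.ncard_image_of_injective _ (add_left_injective a)]
  congr 1
  ext k
  simp only [Set.mem_image, Set.mem_ofPred_eq]
  constructor
  · rintro ⟨j, hj, rfl⟩; exact hj
  · intro hk; exact ⟨k - a, by simpa using hk, by simp⟩

theorem isPortR_shift {a i j : ZMod n} {p : ℕ} :
    IsPortR (shiftR R a) i p j ↔ IsPortR R (i + a) p (j + a) := by
  unfold IsPortR
  refine and_congr Iff.rfl ?_
  have : {k | R (i + a) k ∧ (k - (i + a)).val < (j + a - (i + a)).val} =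
      (fun k => k + a) '' {k | shiftR R a i k ∧ (k - i).val < (j - i).val} := by
    ext k
    simp only [Set.mem_image, Set.mem_ofPred_eq, shiftR, add_sub_add_right_eq_sub]
    constructor
    · rintro ⟨h1, h2⟩
      refine ⟨k - a, ⟨by simpa using h1, ?_⟩, by simp⟩
      rwa [sub_sub, add_comm a i]
    · rintro ⟨j, ⟨h1, h2⟩, rfl⟩
      exact ⟨h1, by rwa [add_sub_add_right_eq_sub]⟩
  rw [this, Set.ncard_image_of_injective _ (add_left_injective a)]

theorem visRel_shift (hR : VisRel R) (a : ZMod n) : VisRel (shiftR R a) where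
  symm i j h := hR.symm _ _ h
  irrefl i := hR.irrefl _
  succ i := by
    have := hR.succ (i + a)
    unfold shiftR; convert this using 1; ring
  cn i s t h0 h1 h2 hs ht hm := by
    unfold shiftR at *
    have e : ∀ m : ℕ, i + (m : ZMod n) + a = i + a + m := fun m => by ring
    simp only [e] at *
    exact hR.cn _ s t h0 h1 h2 hs ht hm
  nc i s t h0 h1 h2 hs ht hm := by
    unfold shiftR at *
    have e : ∀ m : ℕ, i + (m : ZMod n) + a = i + a + m := fun m => by ring
    simp only [e] at *
    exact hR.nc _ s t h0 h1 h2 hs ht hm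

end Ag

end VisMap
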