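import Pool.Agent.Lib.MP_9f3af0_lc.AgUnroll
import Pool.Agent.Lib.MP_9f3af0_lc.AgPort

/-!
# MP_9f3af0_lc: a regular visibility relation is complete; `Comb p` for every prime `p`
-/

namespace VisMap

namespace Ag

/-- `z` sees none of the `h` vertices `z + 2, …, z + 1 + h`. -/
def Gp (r : ℤ → ℤ → Prop) (z h : ℤ) : Prop := ∀ m, z + 2 ≤ m → m ≤ z + 1 + h → ¬ r z m

/-- `z` sees none of the `h` vertices `z - 2, …, z - 1 - h`. -/
def Gm (r : ℤ → ℤ → Prop) (z h : ℤ) : Prop := ∀ m, z - 1 - h ≤ m → m ≤ z - 2 → ¬ r z m

variable {n : ℕ} {r : ℤ → ℤ → Prop}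

/-- The main step: a first gap of maximal size makes the neighbourhoods of `z` and `z + 1`
nested. -/
theorem nested (hn : 3 ≤ n) (hr : ZR n r) {h : ℤ} (hh : 1 ≤ h) (hG : ∀ z, ¬ Gp r z (h + 1))
    (hG' : ∀ z, ¬ Gm r z (h + 1)) {z : ℤ} (hz : Gp r z h) :
    ¬ r z (z + 2) ∧ ∀ t, z + 1 < t → t < z + n → r z t → r (z + 1) t := by
  refine ⟨hz _ le_rfl (by omega), fun t ht1 ht2 ht => ?_⟩
  by_contra hxt
  have hy : r z (z + h + 2) := by
    have := hG z
    unfold Gp at this
    push Not at this
    obtain ⟨m, hm1, hm2, hm3⟩ := this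
    have hm4 : z + 1 + h < m := by
      by_contra hc
      exact hz m hm1 (by omega) hm3
    have : m = z + h + 2 := by omega
    exact this ▸ hm3
  have hyn : z + h + 2 ≤ z + n - 1 := by
    by_contra hc
    exact hz (z + n - 1) (by omega) (by omega) (hr.last z)
  have hxy : r (z + 1) (z + h + 2) :=
    hr.cn z (z + 1) (z + h + 2) (by omega) (by omega) (by omega) (hr.succ z) hy
      (fun m hm1 hm2 => hz m (by omega) (by omega))
  have hty : z + h + 2 < t := by
    rcases lt_trichotomy t (z + h + 2) with hlt | heq | hgt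
    · exact absurd ht (hz t (by omega) (by omega))
    · exact absurd (heq ▸ hxy) hxt
    · exact hgt
  rcases hr.nc2 (z + 1) t (by omega) (by omega) hxt with ⟨b, hb1, hb2, hb3⟩ | ⟨b, hb1, hb2, hb3⟩
  · rcases lt_or_ge b (z + h + 2) with hb | hb
    · exact hb3 (z + 1) (z + h + 2) le_rfl hb1 hb (by omega) hxy
    · refine hG' (b + 1) fun m hm1 hm2 hm3 => ?_
      exact hb3 m (b + 1) (by omega) (by omega) (by omega) (by omega) (hr.symm _ _ hm3)
  · rcases lt_or_ge b (z + n) with hb | hb
    · exact hb3 t (z + n) le_rfl hb1 hb (by omega) ((hr.perR _ _).2 (hr.symm _ _ ht))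
    · have hno : ¬ r (z - 1) (z + 1) := by
        intro hc
        have h1 := (hr.per _ _).2 ((hr.perR _ _).2 hc)
        exact hb3 (z - 1 + n) (z + 1 + n) (by omega) (by omega) (by omega) (by omega) h1
      have hlast := hr.last (z - 1)
      have hzz : r (z - 1) z := by have := hr.succ (z - 1); rwa [sub_add_cancel] at this
      obtain ⟨y', hy1, hy2, hy3, hy4⟩ := exists_first (p := fun m => r (z - 1) m) (a := z + 1)
        (b := z - 1 + n - 1) (by omega) hlast
      have hy5 : y' ≠ z + 1 := fun e => hno (e ▸ hy3)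
      have hzy : r z y' := hr.cn (z - 1) z y' (by omega) (by omega) (by omega) hzz hy3
        (fun m hm1 hm2 => hy4 m (by omega) hm2)
      have hy6 : z + 1 + h < y' := by
        by_contra hc
        exact hz y' (by omega) (by omega) hzy
      exact hG (z - 1) fun m hm1 hm2 => hy4 m (by omega) (by omega)

/-- If no two neighbouring vertices have nested neighbourhoods, all first and last gaps are
empty. -/
theorem ears (hn : 3 ≤ n) (hr : ZR n r)
    (h1 : ∀ z, r z (z + 2) ∨ ∃ t, z + 1 < t ∧ t < z + n ∧ r z t ∧ ¬ r (z + 1) t)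
    (h2 : ∀ z, r z (z - 2) ∨ ∃ t, z - n < t ∧ t < z - 1 ∧ r z t ∧ ¬ r (z - 1) t) :
    ∀ z, r z (z + 2) := by
  have key : ∀ k : ℕ, k + 1 ≤ n → ∀ z, ¬ Gp r z (n - k) ∧ ¬ Gm r z (n - k) := by
    intro k
    induction k with
    | zero =>
      intro _ z
      refine ⟨fun hg => hg (z + n - 1) (by omega) (by omega) (hr.last z), fun hg => ?_⟩
      refine hg (z - n + 1) (by push_cast; omega) (by omega) ?_
      have := (hr.perR z (z - n + 1)).1
      refine this ?_
      have e : z - n + 1 + (n : ℤ) = z + 1 := by ring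
      rw [e]; exact hr.succ z
    | succ k ih =>
      intro hk z
      have hih := ih (by omega)
      have e : ((n : ℤ) - (k + 1 : ℕ)) + 1 = n - k := by push_cast; ring
      constructor
      · intro hz
        obtain ⟨a, b⟩ := nested hn hr (h := n - (k + 1 : ℕ)) (by push_cast; omega)
          (fun z => by rw [e]; exact (hih z).1) (fun z => by rw [e]; exact (hih z).2) hz
        rcases h1 z with h | ⟨t, ht1, ht2, ht3, ht4⟩
        · exact a h
        · exact ht4 (b t ht1 ht2 ht3)
      · intro hz
        obtain ⟨a, b⟩ := nested hn hr.mirror (h := n - (k + 1 : ℕ)) (by push_cast; omega)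
          (z := -z)
          (fun z => by
            rw [e]; intro hg
            refine (hih (-z)).2 fun m hm1 hm2 hm3 => ?_
            refine hg (-m) (by omega) (by omega) ?_
            unfold mirror; rwa [neg_neg])
          (fun z => by
            rw [e]; intro hg
            refine (hih (-z)).1 fun m hm1 hm2 hm3 => ?_
            refine hg (-m) (by omega) (by omega) ?_
            unfold mirror; rwa [neg_neg])
          (fun m hm1 hm2 hm3 => by
            unfold mirror at hm3
            rw [neg_neg] at hm3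
            exact hz (-m) (by omega) (by omega) hm3)
        unfold mirror at a b
        simp only [neg_neg] at a b
        rcases h2 z with h | ⟨t, ht1, ht2, ht3, ht4⟩
        · refine a ?_
          have e2 : -(-z + 2) = z - 2 := by ring
          rwa [e2]
        · refine ht4 ?_
          have := b (-t) (by omega) (by omega) (by rwa [neg_neg])
          have e2 : -(-z + 1) = z - 1 := by ring
          rwa [neg_neg, e2] at this
  intro z
  by_contra hc
  refine (key (n - 1) (by omega) z).1 fun m hm1 hm2 => ?_
  have : m = z + 2 := by omega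
  exact this ▸ hc

/-- If all vertices are ears the relation is complete. -/
theorem complete_of_ears (hr : ZR n r) (he : ∀ z, r z (z + 2)) {u v : ℤ} (h1 : u < v)
    (h2 : v < u + n) : r u v := by
  by_contra hc
  rcases hr.nc2 u v h1 h2 hc with ⟨b, hb1, hb2, hb3⟩ | ⟨b, hb1, hb2, hb3⟩
  all_goals
    refine hb3 (b - 1) (b + 1) (by omega) (by omega) (by omega) (by omega) ?_
    have := he (b - 1)
    have e : b - 1 + 2 = b + 1 := by ring
    rwa [e] at this

theorem deg_lt_of_nested [NeZero n] {R : ZMod n → ZMod n → Prop} (hR : VisRel R) {i e f : ZMod n}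
    (hie : R i e) (hef : R e f) (hif : ¬ R i f) (hfi : f ≠ i)
    (h : ∀ j, R i j → j ≠ e → R e j) : degR R i < degR R e := by
  have h1 : {j | R i j} \ {e} ⊆ ({j | R e j} \ {i}) \ {f} := by
    rintro j ⟨hj1, hj2⟩
    refine ⟨⟨h j hj1 hj2, fun e' => hR.irrefl i ?_⟩, fun e' => hif ?_⟩
    · have : j = i := e'
      rw [this] at hj1; exact hj1
    · have : j = f := e'
      rw [this] at hj1; exact hj1
  have h2 := Set.ncard_le_ncard h1 (Set.toFinite _)
  have h3 : ({j | R i j} \ {e}).ncard = degR R i - 1 :=
    Set.ncard_sdiff_singleton_of_mem (show e ∈ {j | R i j} from hie)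
  have h4 : (({j | R e j} \ {i}) \ {f}).ncard = ({j | R e j} \ {i}).ncard - 1 :=
    Set.ncard_sdiff_singleton_of_mem (show f ∈ {j | R e j} \ {i} from ⟨hef, hfi⟩)
  have h5 : ({j | R e j} \ {i}).ncard = degR R e - 1 :=
    Set.ncard_sdiff_singleton_of_mem (show i ∈ {j | R e j} from hR.symm _ _ hie)
  have h6 : 0 < ({j | R e j} \ {i}).ncard :=
    (Set.ncard_pos (Set.toFinite _)).2 ⟨f, hef, hfi⟩
  have h7 : 0 < degR R i := (Set.ncard_pos (Set.toFinite _)).2 ⟨e, hie⟩
  omega

theorem lift_lt [NeZero n] (z : ℤ) (j : ZMod n) :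
    ∃ t : ℤ, z ≤ t ∧ t < z + n ∧ (t : ZMod n) = j := by
  refine ⟨z + (j - z).val, by omega, ?_, ?_⟩
  · have := ZMod.val_lt (j - (z : ZMod n))
    omega
  · push_cast
    rw [ZMod.natCast_zmod_val]; ring

/-- A visibility relation with equal degrees is complete. -/
theorem complete_of_regular (hn : 3 ≤ n) {R : ZMod n → ZMod n → Prop} (hR : VisRel R)
    (hd : ∀ i, degR R i = degR R 0) {i j : ZMod n} (hij : i ≠ j) : R i j := by
  have : NeZero n := ⟨by omega⟩
  have hr : ZR n (unroll R) := ZR.of_zRel (ZRel.of_visRel hR)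
  have hE := ears hn hr
    (fun z => by
      by_contra hc
      push Not at hc
      obtain ⟨hc1, hc2⟩ := hc
      have := deg_lt_of_nested hR (i := (z : ZMod n)) (e := ((z + 1 : ℤ) : ZMod n))
        (f := ((z + 2 : ℤ) : ZMod n)) (hr.succ z)
        (by have := hr.succ (z + 1); rwa [add_assoc, one_add_one_eq_two] at this) hc1
        (by
          intro e
          have : ((2 : ℤ) : ZMod n) = 0 := by
            have h := e
            push_cast at h
            simpa using h
          rw [ZMod.intCast_zmod_eq_zero_iff_dvd] at this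
          have := Int.le_of_dvd (by norm_num) this
          omega)
        (fun j hj hje => by
          obtain ⟨t, ht1, ht2, rfl⟩ := lift_lt z j
          have h1 : t ≠ z := by rintro rfl; exact hR.irrefl _ hj
          have h2 : t ≠ z + 1 := fun e => hje (by rw [e])
          exact hc2 t (by omega) ht2 hj)
      rw [hd, hd ((z + 1 : ℤ) : ZMod n)] at this
      exact lt_irrefl _ this)
    (fun z => by
      by_contra hc
      push Not at hc
      obtain ⟨hc1, hc2⟩ := hc
      have := deg_lt_of_nested hR (i := (z : ZMod n)) (e := ((z - 1 : ℤ) : ZMod n))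
        (f := ((z - 2 : ℤ) : ZMod n)) (hr.pred z)
        (by have := hr.pred (z - 1); rwa [sub_sub, one_add_one_eq_two] at this) hc1
        (by
          intro e
          have : ((2 : ℤ) : ZMod n) = 0 := by
            have h := e
            push_cast at h
            simpa using h
          rw [ZMod.intCast_zmod_eq_zero_iff_dvd] at this
          have := Int.le_of_dvd (by norm_num) this
          omega)
        (fun j hj hje => by
          obtain ⟨t, ht1, ht2, rfl⟩ := lift_lt (z - n + 1) j
          have h1 : t ≠ z := by rintro rfl; exact hR.irrefl _ hj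
          have h2 : t ≠ z - 1 := fun e => hje (by rw [e])
          exact hc2 t (by omega) (by omega) hj)
      rw [hd, hd ((z - 1 : ℤ) : ZMod n)] at this
      exact lt_irrefl _ this)
  obtain ⟨u, -, -, rfl⟩ := lift_lt 0 i
  obtain ⟨v, hv1, hv2, rfl⟩ := lift_lt u j
  have hne : u ≠ v := by rintro rfl; exact hij rfl
  exact complete_of_ears hr hE (by omega) hv2

end Ag

/-- The combinatorial statement for primes. -/
theorem comb_prime {p : ℕ} (hp : p.Prime) (hp3 : 3 ≤ p) : Comb p := by
  intro H R R' hR hR' hdeg hport hH hHport hHport'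
  have : Fact (Nat.card (ZMod p)).Prime := ⟨by rw [Nat.card_zmod]; exact hp⟩
  have : NeZero p := ⟨by omega⟩
  refine ⟨Equiv.refl _, fun i j => ?_⟩
  show R' i j ↔ R i j
  rcases AddSubgroup.eq_bot_or_eq_top_of_prime_card H with hb | ht
  · constructor
    · intro hij
      obtain ⟨q, hq⟩ := Ag.exists_isPortR_of_rel hij
      have h1 := Ag.isPortR_lt hq
      rw [hdeg] at h1
      obtain ⟨j', hj'⟩ := Ag.exists_isPortR h1
      have h2 := hport i q j' j hj' hq
      rw [hb, AddSubgroup.mem_bot, sub_eq_zero] at h2
      rw [h2]; exact hj'.1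
    · intro hij
      obtain ⟨q, hq⟩ := Ag.exists_isPortR_of_rel hij
      have h1 := Ag.isPortR_lt hq
      rw [← hdeg] at h1
      obtain ⟨j', hj'⟩ := Ag.exists_isPortR h1
      have h2 := hport i q j j' hq hj'
      rw [hb, AddSubgroup.mem_bot, sub_eq_zero] at h2
      rw [← h2]; exact hj'.1
  · have hreg : ∀ i, degR R i = degR R 0 := by
      intro i
      have := hH 0 i (by rw [ht]; trivial)
      rwa [zero_add] at this
    have hreg' : ∀ i, degR R' i = degR R' 0 := by
      intro i
      rw [hdeg, hdeg 0]; exact hreg i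
    constructor
    · intro hij
      exact Ag.complete_of_regular hp3 hR hreg (fun e => hR'.irrefl i (by rw [← e] at hij; exact hij))
    · intro hij
      exact Ag.complete_of_regular hp3 hR' hreg' (fun e => hR.irrefl i (by rw [← e] at hij; exact hij))

end VisMap
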