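import Pool.Agent.Lib.MP_9f3af0_lc.AgB
import Pool.Agent.Lib.MP_9f3af0_lc.AgReg

/-!
# MP_9f3af0_lc: from the hypotheses of `Comb` to a family `Fam n k r`
-/

namespace VisMap

namespace Ag

variable {n : ℕ}

theorem val_of_lt [NeZero n] {a o : ℤ} (h0 : 0 ≤ o) (hn : o < n) :
    (((a + o : ℤ) : ZMod n) - (a : ZMod n)).val = o.toNat := by
  obtain ⟨m, rfl⟩ : ∃ m : ℕ, o = m := ⟨o.toNat, by omega⟩
  push_cast
  rw [add_sub_cancel_left, ZMod.val_natCast, Nat.mod_eq_of_lt (by omega)]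
  rfl

theorem pos_lt [NeZero n] {S : ZMod n → ZMod n → Prop} {i j j' : ZMod n} {p p' : ℕ}
    (h : IsPortR S i p j) (h' : IsPortR S i p' j') :
    p < p' ↔ (j - i).val < (j' - i).val := by
  have key : ∀ (j j' : ZMod n) (p p' : ℕ), IsPortR S i p j → IsPortR S i p' j' →
      (j - i).val < (j' - i).val → p < p' := by
    intro j j' p p' h h' hlt
    rw [← h.2, ← h'.2]
    refine Set.ncard_lt_ncard ⟨fun k hk => ⟨hk.1, hk.2.trans hlt⟩, fun hsub => ?_⟩
      (Set.toFinite _)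
    exact absurd (hsub (show j ∈ {k | S i k ∧ (k - i).val < (j' - i).val} from ⟨h.1, hlt⟩)).2
      (lt_irrefl _)
  constructor
  · intro hp
    by_contra hc
    push Not at hc
    rcases hc.lt_or_eq with hlt | heq
    · have := key _ _ _ _ h' h hlt
      omega
    · have := val_sub_inj heq
      subst this
      have := h.2.symm.trans h'.2
      omega
  · exact key _ _ _ _ h h'

theorem match_of_ports [NeZero n] {k : ℤ} {H : AddSubgroup (ZMod n)}
    (hk : ∀ a : ℤ, (a : ZMod n) ∈ H ↔ k ∣ a) {S S' : ZMod n → ZMod n → Prop}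
    (hS : ∀ i, ¬ S i i) (hS' : ∀ i, ¬ S' i i) {a a' : ℤ} (ha : k ∣ a' - a)
    (hdeg : degR S a = degR S' a')
    (hport : ∀ p j j', IsPortR S a p j → IsPortR S' a' p j' → j' - j ∈ H) :
    Match k (Fw n (unroll S) a) (Fw n (unroll S') a') := by
  set pos : ZMod n → ℕ := fun j => {l | S a l ∧ (l - a).val < (j - a).val}.ncard with hpos
  have hP : ∀ o, Fw n (unroll S) a o → IsPortR S a (pos ((a + o : ℤ) : ZMod n)) ((a + o : ℤ) : ZMod n) :=
    fun o ho => ⟨ho.2.2, rfl⟩
  have hP' : ∀ o, Fw n (unroll S) a o →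
      IsPortR S' a' (pos ((a + o : ℤ) : ZMod n)) (moveR S' a' (pos ((a + o : ℤ) : ZMod n))) := by
    intro o ho
    refine isPortR_moveR ?_
    rw [← hdeg]
    exact isPortR_lt (hP o ho)
  have hval : ∀ j' : ZMod n, (((j' - (a' : ZMod n)).val : ℤ) : ZMod n) = j' - a' := by
    intro j'
    push_cast
    rw [ZMod.natCast_zmod_val]
  refine ⟨fun o => ((moveR S' a' (pos ((a + o : ℤ) : ZMod n)) - (a' : ZMod n)).val : ℤ),
    fun o ho => ⟨?_, ?_, ?_⟩, fun o ho => ?_, fun o1 o2 h1 h2 h12 => ?_, fun o' ho' => ?_⟩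
  · rcases Nat.eq_zero_or_pos (moveR S' a' (pos ((a + o : ℤ) : ZMod n)) - (a' : ZMod n)).val
      with h0 | h0
    · exfalso
      rw [ZMod.val_eq_zero, sub_eq_zero] at h0
      have := (hP' o ho).1
      rw [h0] at this
      exact hS' _ this
    · show (0 : ℤ) < ((moveR S' a' (pos ((a + o : ℤ) : ZMod n)) - (a' : ZMod n)).val : ℤ)
      exact_mod_cast h0
  · show ((moveR S' a' (pos ((a + o : ℤ) : ZMod n)) - (a' : ZMod n)).val : ℤ) < n
    exact_mod_cast ZMod.val_lt _
  · show S' _ _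
    have h1 := (hP' o ho).1
    rw [Int.cast_add, hval, add_sub_cancel]
    exact h1
  · rw [← hk]
    have h1 := hport _ _ _ (hP o ho) (hP' o ho)
    rw [Int.cast_sub, hval]
    have h2 : ((a' - a : ℤ) : ZMod n) ∈ H := (hk _).2 ha
    have h3 := H.sub_mem h1 h2
    push_cast at h3 ⊢
    have e : moveR S' (a' : ZMod n) (pos ((a : ZMod n) + o)) - ((a : ZMod n) + o) -
        ((a' : ZMod n) - a) = moveR S' (a' : ZMod n) (pos ((a : ZMod n) + o)) - a' - o := by ring
    rwa [e] at h3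
  · show ((moveR S' a' (pos ((a + o1 : ℤ) : ZMod n)) - (a' : ZMod n)).val : ℤ) <
      ((moveR S' a' (pos ((a + o2 : ℤ) : ZMod n)) - (a' : ZMod n)).val : ℤ)
    have h3 : pos ((a + o1 : ℤ) : ZMod n) < pos ((a + o2 : ℤ) : ZMod n) := by
      rw [pos_lt (hP _ h1) (hP _ h2), val_of_lt h1.1.le h1.2.1, val_of_lt h2.1.le h2.2.1]
      have := h1.1
      omega
    rw [pos_lt (hP' _ h1) (hP' _ h2)] at h3
    exact_mod_cast h3
  · have hq : IsPortR S' a' {l | S' a' l ∧ (l - a').val <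
        (((a' + o' : ℤ) : ZMod n) - (a' : ZMod n)).val}.ncard ((a' + o' : ℤ) : ZMod n) :=
      ⟨ho'.2.2, rfl⟩
    set q := {l | S' a' l ∧ (l - a').val <
        (((a' + o' : ℤ) : ZMod n) - (a' : ZMod n)).val}.ncard with hqdef
    have hqd : q < degR S a := by rw [hdeg]; exact isPortR_lt hq
    have hj := isPortR_moveR hqd
    set j := moveR S (a : ZMod n) q with hjdef
    have hcast : ((a + ((j - (a : ZMod n)).val : ℤ) : ℤ) : ZMod n) = j := by
      push_cast
      rw [ZMod.natCast_zmod_val]; ring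
    refine ⟨((j - (a : ZMod n)).val : ℤ), ⟨?_, ?_, ?_⟩, ?_⟩
    · rcases Nat.eq_zero_or_pos (j - (a : ZMod n)).val with h0 | h0
      · exfalso
        rw [ZMod.val_eq_zero, sub_eq_zero] at h0
        have := hj.1
        rw [h0] at this
        exact hS _ this
      · exact_mod_cast h0
    · exact_mod_cast ZMod.val_lt _
    · show S _ _
      rw [hcast]; exact hj.1
    · show ((moveR S' a' (pos ((a + ((j - (a : ZMod n)).val : ℤ) : ℤ) : ZMod n)) -
        (a' : ZMod n)).val : ℤ) = o'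
      rw [hcast]
      have h1 : pos j = q := hj.2
      rw [h1, moveR_eq hq, val_of_lt ho'.1.le ho'.2.1]
      have := ho'.1
      omega

/-- The generator of the periods. -/
theorem exists_gen [NeZero n] (H : AddSubgroup (ZMod n)) :
    ∃ k : ℤ, 0 < k ∧ k ∣ n ∧ ∀ a : ℤ, (a : ZMod n) ∈ H ↔ k ∣ a := by
  obtain ⟨g, hg⟩ := Int.subgroup_cyclic (H.comap (Int.castAddHom (ZMod n)))
  have hmem : ∀ a : ℤ, (a : ZMod n) ∈ H ↔ g ∣ a := by
    intro a
    have h1 : a ∈ H.comap (Int.castAddHom (ZMod n)) ↔ (a : ZMod n) ∈ H := Iff.rfl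
    rw [← h1, hg, ← AddSubgroup.zmultiples_eq_closure, Int.mem_zmultiples_iff]
  have hgn : g ∣ n := by
    rw [← hmem]
    simp
  have hg0 : g ≠ 0 := by
    rintro rfl
    rw [zero_dvd_iff] at hgn
    have := NeZero.ne n
    omega
  refine ⟨|g|, abs_pos.2 hg0, (abs_dvd _ _).2 hgn, fun a => ?_⟩
  rw [hmem, abs_dvd]

/-- The data of the combinatorial statement give a family. -/
theorem fam_of_comb (hn : 3 ≤ n) {k : ℤ} (hk0 : 0 < k) (hkn : k ∣ n) {H : AddSubgroup (ZMod n)}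
    (hk : ∀ a : ℤ, (a : ZMod n) ∈ H ↔ k ∣ a) {R R' : ZMod n → ZMod n → Prop}
    (hR : VisRel R) (hR' : VisRel R') (h1 : ∀ i, degR R' i = degR R i)
    (h2 : ∀ i p j j', IsPortR R i p j → IsPortR R' i p j' → j' - j ∈ H)
    (h3 : ∀ i, ∀ h ∈ H, degR R (i + h) = degR R i)
    (h4 : ∀ i p j j', ∀ h ∈ H, IsPortR R i p j → IsPortR R (i + h) p j' → j' - j ∈ H)
    (h5 : ∀ i p j j', ∀ h ∈ H, IsPortR R' i p j → IsPortR R' (i + h) p j' → j' - j ∈ H) :
    Fam n k (fun s => unroll (cond s R R')) := by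
  have : NeZero n := ⟨by omega⟩
  have hmem : ∀ i i' : ℤ, k ∣ i' - i → ∃ h ∈ H, (i' : ZMod n) = i + h := by
    intro i i' hi
    refine ⟨((i' - i : ℤ) : ZMod n), (hk _).2 hi, ?_⟩
    push_cast; ring
  have hRR : ∀ i i' : ℤ, k ∣ i' - i → Match k (Fw n (unroll R) i) (Fw n (unroll R) i') := by
    intro i i' hi
    obtain ⟨h, hh, he⟩ := hmem i i' hi
    refine match_of_ports hk hR.irrefl hR.irrefl hi ?_ ?_
    · rw [he]; exact (h3 _ _ hh).symm
    · intro p j j' hj hj'
      rw [he] at hj'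
      exact h4 _ _ _ _ _ hh hj hj'
  have hRR' : ∀ i i' : ℤ, k ∣ i' - i → Match k (Fw n (unroll R') i) (Fw n (unroll R') i') := by
    intro i i' hi
    obtain ⟨h, hh, he⟩ := hmem i i' hi
    refine match_of_ports hk hR'.irrefl hR'.irrefl hi ?_ ?_
    · rw [he, h1, h1]; exact (h3 _ _ hh).symm
    · intro p j j' hj hj'
      rw [he] at hj'
      exact h5 _ _ _ _ _ hh hj hj'
  have hX : ∀ i : ℤ, Match k (Fw n (unroll R) i) (Fw n (unroll R') i) := by
    intro i
    refine match_of_ports hk hR.irrefl hR'.irrefl (by simp) (h1 _).symm ?_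
    intro p j j' hj hj'
    exact h2 _ _ _ _ hj hj'
  refine ⟨hn, hk0, hkn, fun s => ?_, fun s s' i i' hi => ?_⟩
  · cases s
    · exact ZRel.of_visRel hR'
    · exact ZRel.of_visRel hR
  · cases s <;> cases s'
    · exact hRR' i i' hi
    · exact (hX i).symm.trans (hRR i i' hi)
    · exact (hX i).trans (hRR' i i' hi)
    · exact hRR i i' hi

/-- At least `n / 3` classes: the two relations are equal. -/
theorem eq_of_fam (hn : 3 ≤ n) {k : ℤ} {R R' : ZMod n → ZMod n → Prop}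
    (hF : Fam n k (fun s => unroll (cond s R R'))) (hk3 : (n : ℤ) ≤ 3 * k) (i j : ZMod n) :
    R' i j ↔ R i j := by
  have : NeZero n := ⟨by omega⟩
  have hirr : ∀ s, ∀ a : ℤ, ¬ unroll (cond s R R') a a := fun s => (hF.zrel s).irrefl
  obtain ⟨a, -, -, rfl⟩ := lift_lt 0 i
  obtain ⟨b, hb1, hb2, rfl⟩ := lift_lt a j
  rcases hb1.lt_or_eq with hlt | heq
  · have h1 := hF.agree hk3 false true a a (by simp) (b - a)
    have e : a + (b - a) = b := by ring
    constructor
    · intro h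
      have := (h1.1 ⟨by omega, by omega, by rw [e]; exact h⟩).2.2
      rw [e] at this; exact this
    · intro h
      have := (h1.2 ⟨by omega, by omega, by rw [e]; exact h⟩).2.2
      rw [e] at this; exact this
  · subst heq
    exact ⟨fun h => absurd h (hirr false a), fun h => absurd h (hirr true a)⟩

end Ag

end VisMap
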