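import Pool.Agent.Lib.MP_9f3af0_lc.Link

/-!
# MP_9f3af0_lc: deletion of an ear, dominated ears, and the fixed point lemma

The combinatorial structure `ZRel` is considered on a periodic set `S` of vertices.  An ear can be
deleted (`SR.del`), every structure with at least three vertices has an ear `w` whose closed
neighbourhood is contained in the closed neighbourhood of a vertex next to it (`SR.exists_dom`), so that
the visibility graph is cop-win.  Hence (helper44) every simulation of the graph by itself has a pair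
`(v, u)` with `u` in the closed neighbourhood of `v` (`SR.fixed`), and a relation which is invariant
under the rotation by `k` has a vertex `α` which sees `α + k` (`exists_link_of_periodic`).
-/

namespace VisMap

namespace Dism

/-- `x`, `y` are consecutive elements of `S`. -/
def Nx (S : ℤ → Prop) (x y : ℤ) : Prop := S x ∧ S y ∧ x < y ∧ ∀ z, S z → x < z → z < y → False

/-- `s`, `t` are consecutive elements of `S` in the view of `i`. -/
def GpS (n : ℕ) (S : ℤ → Prop) (r : ℤ → ℤ → Prop) (i s t : ℤ) : Prop :=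
  S i ∧ S s ∧ S t ∧ i < s ∧ s < t ∧ t < i + n ∧ r i s ∧ r i t ∧ ∀ m, S m → s < m → m < t → ¬ r i m

/-- The structure on the periodic set `S`. -/
structure SR (n : ℕ) (S : ℤ → Prop) (r : ℤ → ℤ → Prop) : Prop where
  perS : ∀ a, S (a + n) ↔ S a
  symm : ∀ a b, r a b → r b a
  per : ∀ a b, r (a + n) b ↔ r a b
  irrefl : ∀ a, ¬ r a a
  succ : ∀ a b, Nx S a b → b < a + n → r a b
  cn : ∀ i s t, GpS n S r i s t → r s t
  nc : ∀ i s t, GpS n S r i s t → ∃ c, s ≤ c ∧ c < t ∧
    (∀ x y, S x → S y → i ≤ x → x < s → s < y → y ≤ c → ¬ r x y) ∧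
    (∀ x y, S x → S y → t < x → x ≤ i + n → c < y → y < t → ¬ r x y)

theorem exists_last {P : ℤ → Prop} {b : ℤ} (hb : ∀ z, P z → z ≤ b) {a : ℤ} (ha : P a) :
    ∃ m, P m ∧ ∀ z, P z → z ≤ m := Int.exists_greatest_of_bdd ⟨b, hb⟩ ⟨a, ha⟩

theorem exists_first {P : ℤ → Prop} {b : ℤ} (hb : ∀ z, P z → b ≤ z) {a : ℤ} (ha : P a) :
    ∃ m, P m ∧ ∀ z, P z → m ≤ z := Int.exists_least_of_bdd ⟨b, hb⟩ ⟨a, ha⟩

theorem SR.of_zrel {n : ℕ} {r : ℤ → ℤ → Prop} (h : ZRel n r) : SR n (fun _ => True) r where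
  perS a := Iff.rfl
  symm := h.symm
  per := h.per
  irrefl := h.irrefl
  succ a b hn _ := by
    obtain ⟨-, -, h1, h2⟩ := hn
    have : b = a + 1 := by
      by_contra hne
      exact h2 (a + 1) trivial (by omega) (by omega)
    rw [this]; exact h.succ a
  cn i s t hg := by
    obtain ⟨-, -, -, h1, h2, h3, h4, h5, h6⟩ := hg
    exact h.cn i s t h1 h2 h3 h4 h5 (fun m => h6 m trivial)
  nc i s t hg := by
    obtain ⟨-, -, -, h1, h2, h3, h4, h5, h6⟩ := hg
    obtain ⟨c, c1, c2, c3, c4⟩ := h.nc i s t h1 h2 h3 h4 h5 (fun m => h6 m trivial)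
    exact ⟨c, c1, c2, fun x y _ _ => c3 x y, fun x y _ _ => c4 x y⟩

namespace SR

variable {n : ℕ} {S : ℤ → Prop} {r : ℤ → ℤ → Prop}

theorem perR (h : SR n S r) (a b : ℤ) : r a (b + n) ↔ r a b :=
  ⟨fun k => h.symm _ _ ((h.per _ _).1 (h.symm _ _ k)),
    fun k => h.symm _ _ ((h.per _ _).2 (h.symm _ _ k))⟩

theorem comm (h : SR n S r) (a b : ℤ) : r a b ↔ r b a := ⟨h.symm _ _, h.symm _ _⟩

theorem perS' (h : SR n S r) (a : ℤ) : S (a - n) ↔ S a := by
  rw [← h.perS (a - n), sub_add_cancel]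

theorem perR' (h : SR n S r) (a b : ℤ) : r a (b - n) ↔ r a b := by
  rw [← h.perR a (b - n), sub_add_cancel]

theorem per' (h : SR n S r) (a b : ℤ) : r (a - n) b ↔ r a b := by
  rw [← h.per (a - n) b, sub_add_cancel]

/-- The next element. -/
theorem exists_nx (h : SR n S r) (hn : 0 < n) {x : ℤ} (hx : S x) : ∃ y, Nx S x y ∧ y ≤ x + n := by
  obtain ⟨m, ⟨m1, m2⟩, m3⟩ := exists_first (P := fun z => S z ∧ x < z) (b := x)
    (fun z hz => hz.2.le) (a := x + n) ⟨(h.perS x).2 hx, by omega⟩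
  refine ⟨m, ⟨hx, m1, m2, fun z z1 z2 z3 => ?_⟩, m3 _ ⟨(h.perS x).2 hx, by omega⟩⟩
  have := m3 z ⟨z1, z2⟩
  omega

/-- The previous element. -/
theorem exists_pv (h : SR n S r) (hn : 0 < n) {x : ℤ} (hx : S x) : ∃ y, Nx S y x ∧ x - n ≤ y := by
  obtain ⟨m, ⟨m1, m2⟩, m3⟩ := exists_last (P := fun z => S z ∧ z < x) (b := x)
    (fun z hz => hz.2.le) (a := x - n) ⟨(h.perS' x).2 hx, by omega⟩
  refine ⟨m, ⟨m1, hx, m2, fun z z1 z2 z3 => ?_⟩, m3 _ ⟨(h.perS' x).2 hx, by omega⟩⟩
  have := m3 z ⟨z1, z3⟩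
  omega

theorem nx_add (h : SR n S r) {x y : ℤ} (hx : Nx S x y) : Nx S (x + n) (y + n) := by
  obtain ⟨h1, h2, h3, h4⟩ := hx
  refine ⟨(h.perS x).2 h1, (h.perS y).2 h2, by omega, fun z z1 z2 z3 => ?_⟩
  exact h4 (z - n) ((h.perS' z).2 z1) (by omega) (by omega)

theorem nx_sub (h : SR n S r) {x y : ℤ} (hx : Nx S x y) : Nx S (x - n) (y - n) := by
  obtain ⟨h1, h2, h3, h4⟩ := hx
  refine ⟨(h.perS' x).2 h1, (h.perS' y).2 h2, by omega, fun z z1 z2 z3 => ?_⟩
  exact h4 (z + n) ((h.perS z).2 z1) (by omega) (by omega)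

theorem nx_unique {x y y' : ℤ} (h : Nx S x y) (h' : Nx S x y') : y = y' := by
  obtain ⟨h1, h2, h3, h4⟩ := h
  obtain ⟨k1, k2, k3, k4⟩ := h'
  rcases lt_trichotomy y y' with hl | he | hl
  · exact (k4 y h2 h3 hl).elim
  · exact he
  · exact (h4 y' k2 k3 hl).elim

/-- The gap around a vertex that is not visible. -/
theorem gap_around (_h : SR n S r) {i s t z : ℤ} (hi : S i) (hs : S s) (ht : S t) (h1 : i < s)
    (h2 : s < z) (h3 : z < t) (h4 : t < i + n) (h5 : r i s) (h6 : r i t) (h7 : ¬ (S z ∧ r i z)) :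
    ∃ s' t', GpS n S r i s' t' ∧ s ≤ s' ∧ s' < z ∧ z < t' ∧ t' ≤ t := by
  obtain ⟨s', ⟨a1, a2, a3⟩, a4⟩ := exists_last (P := fun x => S x ∧ r i x ∧ x < z) (b := z)
    (fun x hx => hx.2.2.le) (a := s) ⟨hs, h5, h2⟩
  obtain ⟨t', ⟨b1, b2, b3⟩, b4⟩ := exists_first (P := fun x => S x ∧ r i x ∧ z < x) (b := z)
    (fun x hx => hx.2.2.le) (a := t) ⟨ht, h6, h3⟩
  have e1 := a4 s ⟨hs, h5, h2⟩
  have e2 := b4 t ⟨ht, h6, h3⟩
  refine ⟨s', t', ⟨hi, a1, b1, by omega, by omega, by omega, a2, b2, fun m m1 m2 m3 m4 => ?_⟩, e1, a3,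
    b3, e2⟩
  rcases lt_trichotomy m z with hl | rfl | hl
  · have := a4 m ⟨m1, m4, hl⟩; omega
  · exact h7 ⟨m1, m4⟩
  · have := b4 m ⟨m1, m4, hl⟩; omega

/-- The mirror image. -/
theorem mirror (h : SR n S r) : SR n (fun a => S (-a)) (fun a b => r (-a) (-b)) where
  perS a := by
    have e : -(a + (n : ℤ)) = -a - n := by ring
    rw [e]; exact h.perS' _
  symm a b hab := h.symm _ _ hab
  per a b := by
    have e : -(a + (n : ℤ)) = -a - n := by ring
    rw [e]; exact h.per' _ _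
  irrefl a := h.irrefl _
  succ a b hn hb := by
    obtain ⟨h1, h2, h3, h4⟩ := hn
    refine h.symm _ _ (h.succ _ _ ⟨h2, h1, by omega, fun z z1 z2 z3 => ?_⟩ (by omega))
    exact h4 (-z) (by show S (- -z); rw [neg_neg]; exact z1) (by omega) (by omega)
  cn i s t hg := by
    obtain ⟨g0, g1, g2, g3, g4, g5, g6, g7, g8⟩ := hg
    refine h.symm _ _ (h.cn (-i - n) _ _ ⟨(h.perS' _).2 g0, g2, g1, by omega, by omega, by omega,
      (h.per' _ _).2 g7, (h.per' _ _).2 g6, fun m m1 m2 m3 m4 => ?_⟩)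
    exact g8 (-m) (by show S (- -m); rw [neg_neg]; exact m1) (by omega) (by omega)
      (by show r (-i) (- -m); rw [neg_neg]; exact (h.per' _ _).1 m4)
  nc i s t hg := by
    obtain ⟨g0, g1, g2, g3, g4, g5, g6, g7, g8⟩ := hg
    obtain ⟨c, c1, c2, c3, c4⟩ := h.nc (-i - n) (-t) (-s) ⟨(h.perS' _).2 g0, g2, g1, by omega,
      by omega, by omega, (h.per' _ _).2 g7, (h.per' _ _).2 g6, fun m m1 m2 m3 m4 =>
      g8 (-m) (by show S (- -m); rw [neg_neg]; exact m1) (by omega) (by omega)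
        (by show r (-i) (- -m); rw [neg_neg]; exact (h.per' _ _).1 m4)⟩
    refine ⟨-c - 1, by omega, by omega, fun x y hx hy x1 x2 y1 y2 => ?_,
      fun x y hx hy x1 x2 y1 y2 => ?_⟩
    · exact c4 (-x) (-y) hx hy (by omega) (by omega) (by omega) (by omega)
    · exact c3 (-x) (-y) hx hy (by omega) (by omega) (by omega) (by omega)

/-- `w` is an ear. -/
def Ear (S : ℤ → Prop) (r : ℤ → ℤ → Prop) (w : ℤ) : Prop :=
  ∀ o p, Nx S o w → Nx S w p → r o p

theorem ear_shift (h : SR n S r) {w : ℤ} (hw : Ear S r w) (k : ℤ) : Ear S r (w + k * n) := by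
  have h1 : ∀ z, Ear S r (z + n) ↔ Ear S r z := by
    intro z
    constructor
    · intro he o p ho hp
      have := he _ _ (h.nx_add ho) (h.nx_add hp)
      rw [h.per, h.perR] at this
      exact this
    · intro he o p ho hp
      have h2 := h.nx_sub ho
      have h3 := h.nx_sub hp
      rw [add_sub_cancel_right] at h2 h3
      have := he _ _ h2 h3
      rw [h.per', h.perR'] at this
      exact this
  exact (per_mul h1 w k).2 hw

/-- The vertices other than `w`. -/
def dl (n : ℕ) (S : ℤ → Prop) (w : ℤ) (z : ℤ) : Prop := S z ∧ ¬ (n : ℤ) ∣ z - w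

/-- In a view of `i` with consecutive vertices `s`, `W`, `t`, where `W` is an ear, the vertices between
`s` and `W` are not seen from `[i, s)` and those between `W` and `t` not from `(t, i + n]`. -/
theorem ear_sides (h : SR n S r) {i s W t : ℤ} (h1 : GpS n S r i s W) (h2 : GpS n S r i W t)
    (hW : Ear S r W) :
    (∀ x y, S x → S y → i ≤ x → x < s → s < y → y < W → ¬ r x y) ∧
    (∀ x y, S x → S y → t < x → x ≤ i + n → W < y → y < t → ¬ r x y) := by
  obtain ⟨a0, a1, a2, a3, a4, a5, a6, a7, a8⟩ := id h1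
  obtain ⟨b0, b1, b2, b3, b4, b5, b6, b7, b8⟩ := id h2
  have hn : 0 < n := by omega
  obtain ⟨O, hO, hO'⟩ := h.exists_pv hn a2
  obtain ⟨Q, hQ, hQ'⟩ := h.exists_nx hn a2
  have hOs : s ≤ O := by
    by_contra hc
    exact hO.2.2.2 s a1 (by omega) a4
  have hQt : Q ≤ t := by
    by_contra hc
    exact hQ.2.2.2 t b2 b4 (by omega)
  have hOQ : r O Q := hW O Q hO hQ
  have hO3 := hO.2.2.1
  have hQ3 := hQ.2.2.1
  constructor
  · intro x y hx hy x1 x2 y1 y2
    obtain ⟨c, c1, c2, c3, c4⟩ := h.nc _ _ _ h1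
    have hyO : y ≤ O := by
      by_contra hc
      exact hO.2.2.2 y hy (by omega) y2
    have hOc : O ≤ c := by
      by_contra hc
      exact c4 Q O hQ.2.1 hO.1 hQ3 (by omega) (by omega) hO3 (h.symm _ _ hOQ)
    exact c3 x y hx hy x1 x2 y1 (by omega)
  · intro x y hx hy x1 x2 y1 y2
    obtain ⟨c, c1, c2, c3, c4⟩ := h.nc _ _ _ h2
    have hyQ : Q ≤ y := by
      by_contra hc
      exact hQ.2.2.2 y hy y1 (by omega)
    have hQc : c < Q := by
      by_contra hc
      exact c3 O Q hO.1 hQ.2.1 (by omega) (by omega) hQ3 (by omega) hOQ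
    exact c4 x y hx hy x1 x2 (by omega) y2

/-- In a view of `i` with consecutive vertices `s`, `W`, `t`, where `W` is an ear, `s` and `t` see each
other. -/
theorem ear_cn (h : SR n S r) {i s W t : ℤ} (h1 : GpS n S r i s W) (h2 : GpS n S r i W t)
    (hW : Ear S r W) : r s t := by
  obtain ⟨A, -⟩ := h.ear_sides h1 h2 hW
  obtain ⟨a0, a1, a2, a3, a4, a5, a6, a7, a8⟩ := id h1
  obtain ⟨b0, b1, b2, b3, b4, b5, b6, b7, b8⟩ := id h2
  have hn : 0 < n := by omega
  obtain ⟨O, hO, hO'⟩ := h.exists_pv hn a2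
  obtain ⟨Q, hQ, hQ'⟩ := h.exists_nx hn a2
  have hOs : s ≤ O := by
    by_contra hc
    exact hO.2.2.2 s a1 (by omega) a4
  have hQt : Q ≤ t := by
    by_contra hc
    exact hQ.2.2.2 t b2 b4 (by omega)
  have hOQ : r O Q := hW O Q hO hQ
  have hO3 := hO.2.2.1
  have hQ3 := hQ.2.2.1
  have hsW : r s W := h.cn _ _ _ h1
  have hWt : r W t := h.cn _ _ _ h2
  by_contra hst
  have hin : S (i + n) := (h.perS i).2 a0
  have hsi : r s (i + n) := (h.perR _ _).2 (h.symm _ _ a6)
  -- the gap of `s` around `t`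
  obtain ⟨g, g', hg, g1, g2, g3, g4⟩ := h.gap_around a1 a2 hin (z := t) a4 b4 (by omega) (by omega)
    hsW hsi (fun hz => hst hz.2)
  obtain ⟨c, c1, c2, c3, c4⟩ := h.nc _ _ _ hg
  have hct : c < t := by
    by_contra hc
    rcases g1.lt_or_eq with hl | he
    · exact c3 W t a2 b2 a4.le hl g2 (by omega) hWt
    · exact c3 O Q hO.1 hQ.2.1 hOs (by omega) (by omega) (by omega) hOQ
  have hg' : g' = i + n := by
    by_contra hc
    exact c4 (i + n) t hin b2 (by omega) (by omega) hct g3 ((h.per _ _).2 b7)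
  have hgi : r g (i + n) := by
    have := h.cn _ _ _ hg
    rw [hg'] at this
    exact this
  have hgW : g = W := by
    rcases g1.lt_or_eq with hl | he
    · exact (b8 g hg.2.1 hl g2 (h.symm _ _ ((h.perR _ _).1 hgi))).elim
    · exact he.symm
  -- `s` sees nothing in `(W, i + n)`
  have C : ∀ z, S z → W < z → z < i + n → ¬ r s z := by
    intro z z1 z2 z3
    exact hg.2.2.2.2.2.2.2.2 z z1 (by omega) (by omega)
  -- descent
  have D : ∀ m : ℕ, ∀ β α, S β → S α → s < β → β < W → W < α → α < i + n → β - s ≤ m → ¬ r β α := by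
    intro m
    induction m with
    | zero => intro β α hβ hα b1 b2 a1 a2 hm; omega
    | succ m ih =>
      intro β α hβ hα e1 e2 e3 e4 hm hr
      obtain ⟨π, hπ, hπ'⟩ := h.exists_pv hn hβ
      have hπs : s ≤ π := by
        by_contra hc
        exact hπ.2.2.2 s a1 (by omega) e1
      have hπ3 := hπ.2.2.1
      have hβπ : r β (π + n) := (h.perR _ _).2 (h.symm _ _ (h.succ _ _ hπ (by omega)))
      obtain ⟨α', β', hG, k1, k2, k3, k4⟩ := h.gap_around hβ hα ((h.perS _).2 hπ.1) (z := i + n)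
        (by omega) e4 (by omega) (by omega) hr hβπ
        (fun hz => A i β a0 hβ le_rfl a3 e1 e2 (h.symm _ _ ((h.perR _ _).1 hz.2)))
      have hα' := hG.2.1
      have hβ' := hG.2.2.1
      have hr' : r (β' - n) α' := (h.per' _ _).2 (h.symm _ _ (h.cn _ _ _ hG))
      have hββ' : r β (β' - n) := (h.perR' _ _).2 hG.2.2.2.2.2.2.2.1
      have hS' : S (β' - n) := (h.perS' _).2 hβ'
      rcases lt_trichotomy (β' - n) s with hl | he | hl
      · exact A (β' - n) β hS' hβ (by omega) hl e1 e2 (h.symm _ _ hββ')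
      · rw [he] at hr'
        exact C α' hα' (by omega) k2 hr'
      · exact ih (β' - n) α' hS' hα' hl (by omega) (by omega) k2 (by omega) hr'
  rcases hOs.lt_or_eq with hl | he
  · exact D (O - s).toNat O Q hO.1 hQ.2.1 hl hO3 hQ3 (by omega) (by omega) hOQ
  · rw [← he] at hOQ
    exact C Q hQ.2.1 hQ3 (by omega) hOQ

theorem dl_of_ne {w z : ℤ} (hz : S z) (hne : ∀ k : ℤ, z ≠ w + k * n) : dl n S w z :=
  ⟨hz, fun ⟨k, hk⟩ => hne k (by rw [mul_comm k]; linarith)⟩

/-- Deletion of an ear. -/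
theorem del (h : SR n S r) {w : ℤ} (hw : Ear S r w) : SR n (dl n S w) r := by
  -- a gap in the reduced structure
  have key : ∀ i s t, GpS n (dl n S w) r i s t → GpS n S r i s t ∨
      ∃ W, GpS n S r i s W ∧ GpS n S r i W t ∧ Ear S r W ∧ (n : ℤ) ∣ W - w := by
    intro i s t hg
    obtain ⟨g0, g1, g2, g3, g4, g5, g6, g7, g8⟩ := hg
    by_cases hc : ∃ W, S W ∧ s < W ∧ W < t ∧ r i W
    · obtain ⟨W, w1, w2, w3, w4⟩ := hc
      have hdv : ∀ m, S m → s < m → m < t → r i m → (n : ℤ) ∣ m - w := by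
        intro m m1 m2 m3 m4
        by_contra hm
        exact g8 m ⟨m1, hm⟩ m2 m3 m4
      have hu : ∀ m, S m → s < m → m < t → r i m → m = W := by
        intro m m1 m2 m3 m4
        have d1 := hdv m m1 m2 m3 m4
        have d2 := hdv W w1 w2 w3 w4
        have d3 : (n : ℤ) ∣ m - W := by
          have e : m - W = (m - w) - (W - w) := by ring
          rw [e]; exact dvd_sub d1 d2
        have := dvd_small d3 (by omega) (by omega)
        omega
      refine Or.inr ⟨W, ⟨g0.1, g1.1, w1, g3, w2, by omega, g6, w4, fun m m1 m2 m3 m4 => ?_⟩,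
        ⟨g0.1, w1, g2.1, by omega, w3, g5, w4, g7, fun m m1 m2 m3 m4 => ?_⟩, ?_,
        hdv W w1 w2 w3 w4⟩
      · have := hu m m1 m2 (by omega) m4; omega
      · have := hu m m1 (by omega) m3 m4; omega
      · obtain ⟨k, hk⟩ := hdv W w1 w2 w3 w4
        have e : W = w + k * n := by rw [mul_comm k]; linarith
        rw [e]; exact h.ear_shift hw k
    · push Not at hc
      exact Or.inl ⟨g0.1, g1.1, g2.1, g3, g4, g5, g6, g7, fun m m1 m2 m3 => hc m m1 m2 m3⟩
  refine ⟨fun a => ?_, h.symm, h.per, h.irrefl, fun a b hab hb => ?_, fun i s t hg => ?_,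
    fun i s t hg => ?_⟩
  · unfold dl
    rw [h.perS]
    have e : a + (n : ℤ) - w = (a - w) + n := by ring
    rw [e, dvd_add_self_right]
  · obtain ⟨⟨h1, h2⟩, ⟨h3, h4⟩, h5, h6⟩ := hab
    by_cases hc : ∃ W, S W ∧ a < W ∧ W < b
    · obtain ⟨W, w1, w2, w3⟩ := hc
      have hdv : ∀ m, S m → a < m → m < b → (n : ℤ) ∣ m - w := by
        intro m m1 m2 m3
        by_contra hm
        exact h6 m ⟨m1, hm⟩ m2 m3
      have hu : ∀ m, S m → a < m → m < b → m = W := by
        intro m m1 m2 m3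
        have d3 : (n : ℤ) ∣ m - W := by
          have e : m - W = (m - w) - (W - w) := by ring
          rw [e]; exact dvd_sub (hdv m m1 m2 m3) (hdv W w1 w2 w3)
        have := dvd_small d3 (by omega) (by omega)
        omega
      obtain ⟨k, hk⟩ := hdv W w1 w2 w3
      have e : W = w + k * n := by rw [mul_comm k]; linarith
      have hE := h.ear_shift hw k
      rw [← e] at hE
      refine hE a b ⟨h1, w1, w2, fun z z1 z2 z3 => ?_⟩ ⟨w1, h3, w3, fun z z1 z2 z3 => ?_⟩
      · have := hu z z1 z2 (by omega); omega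
      · have := hu z z1 (by omega) z3; omega
    · push Not at hc
      exact h.succ a b ⟨h1, h3, h5, fun z z1 z2 z3 => by
        have := hc z z1 z2; omega⟩ hb
  · rcases key i s t hg with hG | ⟨W, h1, h2, hE, hd⟩
    · exact h.cn i s t hG
    · exact h.ear_cn h1 h2 hE
  · rcases key i s t hg with hG | ⟨W, h1, h2, hE, hd⟩
    · obtain ⟨c, c1, c2, c3, c4⟩ := h.nc i s t hG
      exact ⟨c, c1, c2, fun x y hx hy => c3 x y hx.1 hy.1, fun x y hx hy => c4 x y hx.1 hy.1⟩
    · obtain ⟨A, B⟩ := h.ear_sides h1 h2 hE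
      refine ⟨W, h1.2.2.2.2.1.le, h2.2.2.2.2.1, fun x y hx hy x1 x2 y1 y2 => ?_,
        fun x y hx hy x1 x2 y1 y2 => ?_⟩
      · refine A x y hx.1 hy.1 x1 x2 y1 (lt_of_le_of_ne y2 ?_)
        rintro rfl
        exact hy.2 hd
      · exact B x y hx.1 hy.1 x1 x2 y1 y2

/-- `(p, z)` is the first gap in the view of `w`. -/
def FG (n : ℕ) (S : ℤ → Prop) (r : ℤ → ℤ → Prop) (w p z : ℤ) : Prop :=
  Nx S w p ∧ GpS n S r w p z

/-- `(z, q + n)` is the last gap in the view of `w`. -/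
def LG (n : ℕ) (S : ℤ → Prop) (r : ℤ → ℤ → Prop) (w q z : ℤ) : Prop :=
  Nx S q w ∧ GpS n S r w z (q + n)

theorem nx_mirror {x y : ℤ} : Nx (fun a => S (-a)) x y ↔ Nx S (-y) (-x) := by
  constructor
  · rintro ⟨h1, h2, h3, h4⟩
    exact ⟨h2, h1, by omega, fun z z1 z2 z3 => h4 (-z) (by show S (- -z); rwa [neg_neg]) (by omega)
      (by omega)⟩
  · rintro ⟨h1, h2, h3, h4⟩
    exact ⟨h2, h1, by omega, fun z z1 z2 z3 => h4 (-z) z1 (by omega) (by omega)⟩

theorem gp_mirror (h : SR n S r) {i s t : ℤ} :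
    GpS n (fun a => S (-a)) (fun a b => r (-a) (-b)) i s t ↔
      GpS n S r (-i) (-t + n) (-s + n) := by
  constructor
  · rintro ⟨g0, g1, g2, g3, g4, g5, g6, g7, g8⟩
    refine ⟨g0, (h.perS _).2 g2, (h.perS _).2 g1, by omega, by omega, by omega, (h.perR _ _).2 g7,
      (h.perR _ _).2 g6, fun m m1 m2 m3 m4 => ?_⟩
    have e : -(-m + (n : ℤ)) = m - n := by ring
    exact g8 (-m + n) (by show S _; rw [e]; exact (h.perS' _).2 m1) (by omega) (by omega)
      (by show r _ _; rw [e]; exact (h.perR' _ _).2 m4)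
  · rintro ⟨g0, g1, g2, g3, g4, g5, g6, g7, g8⟩
    refine ⟨g0, (h.perS _).1 g2, (h.perS _).1 g1, by omega, by omega, by omega, (h.perR _ _).1 g7,
      (h.perR _ _).1 g6, fun m m1 m2 m3 m4 => ?_⟩
    exact g8 (-m + n) ((h.perS _).2 m1) (by omega) (by omega) ((h.perR _ _).2 m4)

theorem fg_mirror (h : SR n S r) {w p z : ℤ} :
    FG n (fun a => S (-a)) (fun a b => r (-a) (-b)) w p z ↔ LG n S r (-w) (-p) (-z + n) := by
  unfold FG LG
  rw [nx_mirror, h.gp_mirror]

theorem lg_mirror (h : SR n S r) {w q z : ℤ} :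
    LG n (fun a => S (-a)) (fun a b => r (-a) (-b)) w q z ↔ FG n S r (-w) (-q) (-z + n) := by
  unfold FG LG
  rw [nx_mirror, h.gp_mirror]
  have e : -(q + (n : ℤ)) + n = -q := by ring
  rw [e]

/-- A longest first gap belongs to an ear, which is dominated by the next vertex. -/
theorem dom_aux (h : SR n S r) {L : ℤ} (h1 : ∀ w p z, FG n S r w p z → z - p ≤ L)
    (h2 : ∀ w q z, LG n S r w q z → q + n - z ≤ L) {w p z0 : ℤ} (hg : FG n S r w p z0)
    (hL : z0 - p = L) : Ear S r w ∧ ∀ z, S z → NN n r w z → NN n r p z := by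
  obtain ⟨hwp, g0, g1, g2, g3, g4, g5, g6, g7, g8⟩ := id hg
  have hn : 0 < n := by omega
  obtain ⟨o, ho, -⟩ := h.exists_pv hn g0
  have ho3 := ho.2.2.1
  have hon : ∀ z, S z → z < w + n → z ≤ o + n := by
    intro z z1 z2
    by_contra hc
    exact ho.2.2.2 (z - n) ((h.perS' _).2 z1) (by omega) (by omega)
  have hwp' : ∀ z, S z → z < p → z ≤ w := by
    intro z z1 z2
    by_contra hc
    exact hwp.2.2.2 z z1 (by omega) z2
  have hz0 := hon z0 g2 g5
  have hop : r o p := by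
    by_contra hr
    obtain ⟨q, hq, -⟩ := h.exists_pv hn ho.1
    have hq3 := hq.2.2.1
    have hqp : p ≤ q + n := by
      by_contra hc
      exact hq.2.2.2 (p - n) ((h.perS' _).2 g1) (by omega) (by omega)
    have hoq : r o (q + n) := (h.perR _ _).2 (h.symm _ _ (h.succ _ _ hq (by omega)))
    have how : r o w := h.succ _ _ ho (by omega)
    have hqp' : p ≠ q + n := by
      rintro rfl
      exact hr hoq
    obtain ⟨s', t', hG, k1, k2, k3, k4⟩ := h.gap_around ho.1 g0 ((h.perS _).2 hq.1) (z := p)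
      ho3 g3 (by omega) (by omega) how hoq (fun hz => hr hz.2)
    have hs' : s' = w := by
      have := hwp' s' hG.2.1 k2
      omega
    rw [hs'] at hG
    have hwt := h.cn _ _ _ hG
    have ht' : z0 ≤ t' := by
      by_contra hc
      exact g8 t' hG.2.2.1 k3 (by omega) hwt
    have := h1 o w t' ⟨ho, hG⟩
    omega
  refine ⟨fun o' p' ho' hp' => ?_, ?_⟩
  · rw [← nx_unique hwp hp']
    have : o' = o := by
      rcases lt_trichotomy o' o with hl | he | hl
      · exact (ho'.2.2.2 o ho.1 hl ho3).elim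
      · exact he
      · exact (ho.2.2.2 o' ho'.1 hl ho'.2.2.1).elim
    rw [this]; exact hop
  · intro z hz hwz
    obtain ⟨z', a1, a2, a4⟩ := Link.exists_rep' hn z w
    rw [← a4 _ (NN_per h.perR p)]
    rw [← a4 _ (NN_per h.perR w)] at hwz
    replace hz : S z' := (a4 _ h.perS).2 hz
    rcases a2.lt_or_eq with a2 | a2
    swap
    · rw [a2, NN_per h.perR]
      exact Or.inr (h.symm _ _ g6)
    have hr : r w z' := NN_of_ne hwz (by omega) (by omega) (by omega)
    have b1 := hon z' hz a2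
    have b2 : p ≤ z' := by
      by_contra hc
      have := hwp' z' hz (by omega)
      omega
    rcases b2.lt_or_eq with b2 | b2
    swap
    · rw [b2]; exact Or.inl (by simp)
    have b3 : z0 ≤ z' := by
      by_contra hc
      exact g8 z' hz b2 (by omega) hr
    have hpz0 : r p z0 := h.cn _ _ _ hg.2
    by_contra hc
    have hpz : ¬ r p z' := fun hc' => hc (Or.inr hc')
    have hpo : r p (o + n) := (h.perR _ _).2 (h.symm _ _ hop)
    have b4 : z0 ≠ z' := by
      rintro rfl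
      exact hpz hpz0
    have b5 : z' ≠ o + n := by
      rintro rfl
      exact hpz hpo
    obtain ⟨g, g', hG, k1, k2, k3, k4⟩ := h.gap_around g1 g2 ((h.perS _).2 ho.1) (z := z')
      g4 (by omega) (by omega) (by omega) hpz0 hpo (fun hz => hpz hz.2)
    obtain ⟨c, c1, c2, c3, c4⟩ := h.nc _ _ _ hG
    have hgS := hG.2.1
    have hzc : z' ≤ c := by
      by_contra hc
      exact c4 (w + n) z' ((h.perS _).2 g0) hz (by omega) (by omega) (by omega) k3
        ((h.per _ _).2 hr)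
    obtain ⟨y1, hy1, -⟩ := h.exists_nx hn hgS
    have hy1' : y1 ≤ z' := by
      by_contra hc
      exact hy1.2.2.2 z' hz k2 (by omega)
    have hy3 := hy1.2.2.1
    obtain ⟨y2, hy2, -⟩ := h.exists_nx hn hy1.2.1
    have hy2' : y2 ≤ g' := by
      by_contra hc
      exact hy2.2.2.2 g' hG.2.2.1 (by omega) (by omega)
    have hy23 := hy2.2.2.1
    obtain ⟨t, ⟨t1, t2, t3, t4⟩, t5⟩ := exists_last
      (P := fun x => S x ∧ y1 < x ∧ x < g + n ∧ r y1 x) (b := g + n) (fun x hx => hx.2.2.1.le)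
      (a := y2) ⟨hy2.2.1, hy23, by omega, h.succ _ _ hy2 (by omega)⟩
    have hGt : GpS n S r y1 t (g + n) :=
      ⟨hy1.2.1, t1, (h.perS _).2 hgS, t2, t3, by omega, t4,
        (h.perR _ _).2 (h.symm _ _ (h.succ _ _ hy1 (by omega))), fun m m1 m2 m3 m4 => by
          have := t5 m ⟨m1, by omega, m3, m4⟩
          omega⟩
    have htw : t < p + n := by
      by_contra hc
      exact c3 (t - n) y1 ((h.perS' _).2 t1) hy1.2.1 (by omega) (by omega) hy3 (by omega)
        ((h.per' _ _).2 (h.symm _ _ t4))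
    have htw' := hwp' (t - n) ((h.perS' _).2 t1) (by omega)
    have := h2 y1 g t ⟨hy1, hGt⟩
    omega

theorem ear_mirror {w : ℤ} (he : Ear (fun a => S (-a)) (fun a b => r (-a) (-b)) w)
    (hs : ∀ a b, r a b → r b a) : Ear S r (-w) := by
  intro o p ho hp
  have h1 : Nx (fun a => S (-a)) (-p) w := by
    rw [nx_mirror, neg_neg]; exact hp
  have h2 : Nx (fun a => S (-a)) w (-o) := by
    rw [nx_mirror, neg_neg]; exact ho
  have := he _ _ h1 h2
  have h3 : r (- -p) (- -o) := this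
  rw [neg_neg, neg_neg] at h3
  exact hs _ _ h3

/-- There is an ear which is dominated by a neighbour. -/
theorem exists_dom (h : SR n S r) {x y z : ℤ} (hx : S x) (hy : S y) (hz : S z) (hxy : x < y)
    (hyz : y < z) (hzx : z < x + n) :
    ∃ w p, S w ∧ S p ∧ ¬ (n : ℤ) ∣ p - w ∧ r w p ∧ Ear S r w ∧
      ∀ z, S z → NN n r w z → NN n r p z := by
  have hn : 0 < n := by omega
  -- there is a first gap
  obtain ⟨p, hp, -⟩ := h.exists_nx hn hx
  have hp3 := hp.2.2.1
  have hpy : p ≤ y := by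
    by_contra hc
    exact hp.2.2.2 y hy hxy (by omega)
  obtain ⟨q, hq, -⟩ := h.exists_pv hn hx
  have hq3 := hq.2.2.1
  have hqz : z ≤ q + n := by
    by_contra hc
    exact hq.2.2.2 (z - n) ((h.perS' _).2 hz) (by omega) (by omega)
  have hxq : r x (q + n) := (h.perR _ _).2 (h.symm _ _ (h.succ _ _ hq (by omega)))
  obtain ⟨z0, ⟨a1, a2, a3⟩, a4⟩ := exists_first (P := fun m => S m ∧ p < m ∧ r x m) (b := p)
    (fun m hm => hm.2.1.le) (a := q + n) ⟨(h.perS _).2 hq.1, by omega, hxq⟩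
  have a5 := a4 (q + n) ⟨(h.perS _).2 hq.1, by omega, hxq⟩
  have hFG : FG n S r x p z0 := ⟨hp, hx, hp.2.1, a1, hp3, a2, by omega,
    h.succ _ _ hp (by omega), a3, fun m m1 m2 m3 m4 => by
      have := a4 m ⟨m1, m2, m4⟩
      omega⟩
  obtain ⟨L, hL, hmax⟩ := exists_last
    (P := fun L => (∃ w p z, FG n S r w p z ∧ z - p = L) ∨
      (∃ w q z, LG n S r w q z ∧ q + n - z = L)) (b := n)
    (by
      rintro L (⟨w, p, z, ⟨-, -, -, -, b1, b2, b3, -⟩, rfl⟩ | ⟨w, q, z, ⟨-, -, -, -, b1, b2, b3, -⟩,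
        rfl⟩) <;> omega)
    (a := z0 - p) (Or.inl ⟨x, p, z0, hFG, rfl⟩)
  have h1 : ∀ w p z, FG n S r w p z → z - p ≤ L := fun w p z hg =>
    hmax _ (Or.inl ⟨w, p, z, hg, rfl⟩)
  have h2 : ∀ w q z, LG n S r w q z → q + n - z ≤ L := fun w q z hg =>
    hmax _ (Or.inr ⟨w, q, z, hg, rfl⟩)
  rcases hL with ⟨w, p, z, hg, hL⟩ | ⟨w, q, z, hg, hL⟩
  · obtain ⟨k1, k2⟩ := h.dom_aux h1 h2 hg hL
    obtain ⟨b0, b1, b2, b3, b4, b5, b6, -⟩ := hg.2
    exact ⟨w, p, b0, b1, fun hd => by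
      have := dvd_small hd (by omega) (by omega)
      omega, b6, k1, k2⟩
  · have hm := h.mirror
    have hg' : FG n (fun a => S (-a)) (fun a b => r (-a) (-b)) (-w) (-q) (-z + n) := by
      rw [h.fg_mirror]
      have e : -(-z + (n : ℤ)) + n = z := by ring
      rw [e, neg_neg, neg_neg]
      exact hg
    obtain ⟨k1, k2⟩ := hm.dom_aux (L := L)
      (fun w p z hg => by
        have := h2 _ _ _ (h.fg_mirror.1 hg)
        omega)
      (fun w q z hg => by
        have := h1 _ _ _ (h.lg_mirror.1 hg)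
        omega) hg' (by omega)
    obtain ⟨b0, b1, b2, b3, b4, b5, b6, b7, b8⟩ := hg.2
    have hE := ear_mirror k1 h.symm
    rw [neg_neg] at hE
    have hq := hg.1.1
    have hq3 := hg.1.2.2.1
    refine ⟨w, q, b0, hq, fun hd => ?_, (h.perR _ _).1 b7, hE, fun z hz hwz => ?_⟩
    · have := dvd_small hd (by omega) (by omega)
      omega
    · have := k2 (-z) (by show S (- -z); rwa [neg_neg]) (by
        rcases hwz with hd | hr
        · left
          have e : -z - -w = -(z - w) := by ring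
          rw [e]; exact (dvd_neg).2 hd
        · right
          show r (- -w) (- -z)
          rwa [neg_neg, neg_neg])
      rcases this with hd | hr
      · left
        have e : -z - -q = -(z - q) := by ring
        rw [e] at hd; exact (dvd_neg).1 hd
      · right
        have hr' : r (- -q) (- -z) := hr
        rwa [neg_neg, neg_neg] at hr'

/-- A simulation of the visibility relation on `S`. -/
structure Sim (n : ℕ) (S : ℤ → Prop) (r Φ : ℤ → ℤ → Prop) : Prop where
  left : ∀ v u, Φ v u → S v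
  right : ∀ v u, Φ v u → S u
  perL : ∀ v u, Φ (v + n) u ↔ Φ v u
  perR : ∀ v u, Φ v (u + n) ↔ Φ v u
  step : ∀ v u x, Φ v u → S x → NN n r v x → ∃ u', NN n r u u' ∧ Φ x u'

theorem nn_of_dvd {n : ℕ} {r : ℤ → ℤ → Prop} (hL : ∀ a b, r (a + n) b ↔ r a b) {u p z : ℤ}
    (hd : (n : ℤ) ∣ u - p) (h : NN n r p z) : NN n r u z := by
  obtain ⟨k, hk⟩ := hd
  have e : u = p + k * n := by rw [mul_comm k]; linarith
  have hper : ∀ a, NN n r (a + n) z ↔ NN n r a z := by
    intro a
    unfold NN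
    rw [hL]
    have e2 : z - (a + (n : ℤ)) = (z - a) - n := by ring
    rw [e2, dvd_sub_self_right]
  rw [e]
  exact (per_mul (p := fun a => NN n r a z) hper p k).2 h

theorem phi_of_dvd {n : ℕ} {Φ : ℤ → Prop} (hP : ∀ a, Φ (a + n) ↔ Φ a) {u p : ℤ}
    (hd : (n : ℤ) ∣ u - p) (h : Φ p) : Φ u := by
  obtain ⟨k, hk⟩ := hd
  have e : u = p + k * n := by rw [mul_comm k]; linarith
  rw [e]
  exact (per_mul (p := Φ) hP p k).2 h

theorem dvd_symm' {n : ℕ} {a b : ℤ} (h : (n : ℤ) ∣ a - b) : (n : ℤ) ∣ b - a := by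
  have e : b - a = -(a - b) := by ring
  rw [e]; exact (dvd_neg).2 h

open Classical in
/-- The fixed point lemma (helper44): a simulation of the visibility relation by itself contains a pair
of vertices that are equal or see each other. -/
theorem fixed (N : ℕ) : ∀ {S : ℤ → Prop}, SR n S r → 0 < n →
    ((Finset.Ico (0 : ℤ) n).filter S).card ≤ N → ∀ {Φ : ℤ → ℤ → Prop}, Sim n S r Φ →
    ∀ v₀ u₀, Φ v₀ u₀ → ∃ v u, Φ v u ∧ NN n r v u := by
  induction N with
  | zero =>
    intro S h hn hc Φ hΦ v₀ u₀ h0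
    exfalso
    obtain ⟨v', a1, a2, a4⟩ := Link.exists_rep' hn v₀ (-1)
    have hS : S v' := (a4 _ h.perS).2 (hΦ.left _ _ h0)
    have : v' ∈ (Finset.Ico (0 : ℤ) n).filter S :=
      Finset.mem_filter.2 ⟨Finset.mem_Ico.2 ⟨by omega, by omega⟩, hS⟩
    have := Finset.card_pos.2 ⟨v', this⟩
    omega
  | succ N ih =>
    intro S h hn hc Φ hΦ v₀ u₀ h0
    by_cases h3 : ∃ x y z, S x ∧ S y ∧ S z ∧ x < y ∧ y < z ∧ z < x + n
    · obtain ⟨x, y, z, hx, hy, hz, hxy, hyz, hzx⟩ := h3
      obtain ⟨w, p, hw, hp, hnd, hrwp, hear, hdom⟩ := h.exists_dom hx hy hz hxy hyz hzx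
      have h' := h.del hear
      have hpS : dl n S w p := ⟨hp, hnd⟩
      -- the number of vertices
      have hcard : ((Finset.Ico (0 : ℤ) n).filter (dl n S w)).card ≤ N := by
        obtain ⟨w', a1, a2, a4⟩ := Link.exists_rep' hn w (-1)
        have hS : S w' := (a4 _ h.perS).2 hw
        have hdw : (n : ℤ) ∣ w' - w := by
          refine (a4 (fun z => (n : ℤ) ∣ z - w) (fun z => ?_)).2 (by simp)
          have e : z + (n : ℤ) - w = z - w + n := by ring
          rw [e, dvd_add_self_right]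
        have hlt : (Finset.Ico (0 : ℤ) n).filter (dl n S w) ⊂ (Finset.Ico (0 : ℤ) n).filter S := by
          refine ⟨fun z hz => ?_, fun hsub => ?_⟩
          · rw [Finset.mem_filter] at hz ⊢
            exact ⟨hz.1, hz.2.1⟩
          · have := hsub (Finset.mem_filter.2 ⟨Finset.mem_Ico.2 ⟨by omega, by omega⟩, hS⟩)
            exact (Finset.mem_filter.1 this).2.2 hdw
        have := Finset.card_lt_card hlt
        omega
      have hns : ∀ {a b}, NN n r a b → NN n r b a := fun hab => NN_symm h.symm hab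
      have hdm : ∀ z, S z → NN n r w z → NN n r p z := hdom
      let Ψ : ℤ → ℤ → Prop := fun v u =>
        dl n S w v ∧ dl n S w u ∧ (Φ v u ∨ ((n : ℤ) ∣ u - p ∧ Φ v w))
      have hΨ : Sim n (dl n S w) r Ψ := by
        refine ⟨fun v u hvu => hvu.1, fun v u hvu => hvu.2.1, fun v u => ?_, fun v u => ?_, ?_⟩
        · show (_ ∧ _ ∧ _) ↔ (_ ∧ _ ∧ _)
          rw [h'.perS, hΦ.perL, hΦ.perL]
        · show (_ ∧ _ ∧ _) ↔ (_ ∧ _ ∧ _)
          rw [h'.perS, hΦ.perR]
          have e : u + (n : ℤ) - p = u - p + n := by ring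
          rw [e, dvd_add_self_right]
        · rintro v u x ⟨hv, hu, hvu⟩ hx hvx
          rcases hvu with hvu | ⟨hup, hvw⟩
          · obtain ⟨u', k1, k2⟩ := hΦ.step v u x hvu hx.1 hvx
            by_cases hd : (n : ℤ) ∣ u' - w
            · have k3 : Φ x w := phi_of_dvd (Φ := fun a => Φ x a) (hΦ.perR x) (dvd_symm' hd) k2
              refine ⟨p, ?_, hx, hpS, Or.inr ⟨by simp, k3⟩⟩
              have k4 : NN n r w u := nn_of_dvd h.per (dvd_symm' hd) (hns k1)
              exact hns (hdm u hu.1 k4)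
            · exact ⟨u', k1, hx, ⟨hΦ.right _ _ k2, hd⟩, Or.inl k2⟩
          · obtain ⟨u', k1, k2⟩ := hΦ.step v w x hvw hx.1 hvx
            by_cases hd : (n : ℤ) ∣ u' - w
            · have k3 : Φ x w := phi_of_dvd (Φ := fun a => Φ x a) (hΦ.perR x) (dvd_symm' hd) k2
              exact ⟨p, Or.inl (dvd_symm' hup), hx, hpS, Or.inr ⟨by simp, k3⟩⟩
            · exact ⟨u', nn_of_dvd h.per hup (hdm u' (hΦ.right _ _ k2) k1), hx,
                ⟨hΦ.right _ _ k2, hd⟩, Or.inl k2⟩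
      -- a pair of the new relation
      have hne : ∃ v u, Ψ v u := by
        obtain ⟨v, u, hv, hvu⟩ : ∃ v u, dl n S w v ∧ Φ v u := by
          by_cases hd : (n : ℤ) ∣ v₀ - w
          · obtain ⟨u', k1, k2⟩ := hΦ.step v₀ u₀ p h0 hp (nn_of_dvd h.per hd (Or.inr hrwp))
            exact ⟨p, u', hpS, k2⟩
          · exact ⟨v₀, u₀, ⟨hΦ.left _ _ h0, hd⟩, h0⟩
        by_cases hd : (n : ℤ) ∣ u - w
        · exact ⟨v, p, hv, hpS, Or.inr ⟨by simp,
            phi_of_dvd (Φ := fun a => Φ v a) (hΦ.perR v) (dvd_symm' hd) hvu⟩⟩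
        · exact ⟨v, u, hv, ⟨hΦ.right _ _ hvu, hd⟩, Or.inl hvu⟩
      obtain ⟨v₁, u₁, h1⟩ := hne
      obtain ⟨v, u, ⟨hv, hu, hvu⟩, hnn⟩ := ih h' hn hcard hΨ v₁ u₁ h1
      rcases hvu with hvu | ⟨hup, hvw⟩
      · exact ⟨v, u, hvu, hnn⟩
      · have hvp : NN n r v p := hns (nn_of_dvd h.per (dvd_symm' hup) (hns hnn))
        obtain ⟨u', k1, k2⟩ := hΦ.step v w p hvw hp hvp
        exact ⟨p, u', k2, hdm u' (hΦ.right _ _ k2) k1⟩
    · -- at most two vertices
      refine ⟨v₀, u₀, h0, ?_⟩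
      have hv := hΦ.left _ _ h0
      have hu := hΦ.right _ _ h0
      obtain ⟨u', a1, a2, a4⟩ := Link.exists_rep' hn u₀ v₀
      rw [← a4 _ (NN_per h.perR v₀)]
      replace hu : S u' := (a4 _ h.perS).2 hu
      rcases a2.lt_or_eq with a2 | a2
      · right
        refine h.succ v₀ u' ⟨hv, hu, a1, fun z z1 z2 z3 => ?_⟩ a2
        exact h3 ⟨v₀, z, u', hv, z1, hu, z2, z3, a2⟩
      · left
        rw [a2]
        have e : v₀ + (n : ℤ) - v₀ = n := by ring
        rw [e]

end SR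

/-- A relation which is invariant under the rotation by `k` has a vertex `α` which sees `α + k`. -/
theorem exists_link_of_periodic {n : ℕ} {r : ℤ → ℤ → Prop} (h : ZRel n r) {k : ℤ} (hk : 0 < k)
    (hkn : k < n) (hp : ∀ a b, r (a + k) (b + k) ↔ r a b) : ∃ α, r α (α + k) := by
  classical
  have hS := SR.of_zrel h
  have hΦ : SR.Sim n (fun _ => True) r (fun v u => (n : ℤ) ∣ u - (v + k)) := by
    refine ⟨fun _ _ _ => trivial, fun _ _ _ => trivial, fun v u => ?_, fun v u => ?_, ?_⟩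
    · have e : u - (v + (n : ℤ) + k) = u - (v + k) - n := by ring
      rw [e, dvd_sub_self_right]
    · have e : u + (n : ℤ) - (v + k) = u - (v + k) + n := by ring
      rw [e, dvd_add_self_right]
    · intro v u x hvu _ hvx
      refine ⟨x + k, SR.nn_of_dvd h.per hvu ?_, by simp⟩
      rcases hvx with hd | hr
      · left
        have e : x + k - (v + k) = x - v := by ring
        rw [e]; exact hd
      · right
        exact (hp v x).2 hr
  obtain ⟨v, u, h1, h2⟩ := SR.fixed _ hS (by omega) le_rfl hΦ 0 k (by simp)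
  have h3 : NN n r v (v + k) := by
    have hs := NN_symm h.symm h2
    exact NN_symm h.symm (SR.nn_of_dvd h.per (SR.dvd_symm' h1) hs)
  exact ⟨v, NN_of_ne h3 (by omega) (by omega) (by omega)⟩

end Dism

end VisMap
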