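import Pool.Agent.Lib.MP_9f3af0_lc.AgMain
import Pool.Agent.Lib.MP_9f3af0_lc.Dism

/-!
# MP_9f3af0_lc: `n`-gons in which the vertices of one class see the next vertex of their class
-/

namespace VisMap

variable {n : ℕ}

/-- There is a vertex `a` such that every vertex that looks like `a` sees the next vertex on the
boundary that looks like `a`. -/
def Linked (v : ZMod n → ℂ) : Prop :=
  ∃ a : ZMod n, ∀ (j : ZMod n) (m : ℕ), Alike v a j → Alike v a (j + m) → 0 < m → m < n →
    (∀ l : ℕ, 0 < l → l < m → ¬ Alike v a (j + l)) → Sees v j (j + m)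

/-- Vertices that look alike are equivalent under a rotation of the boundary which preserves
visibility. -/
def Turning (v : ZMod n → ℂ) : Prop :=
  ∀ a b : ZMod n, Alike v a b → ∀ i j : ZMod n, Sees v (i + (b - a)) (j + (b - a)) ↔ Sees v i j

/-- Every `n`-gon with at most `2` or at least `n / 3` different views, every linked and every turning
`n`-gon, can be mapped (among all `n`-gons). -/
theorem maps_linked
    (geo : ∀ v : ZMod n → ℂ, IsPolygon v → VisE (Sees v) (SeesE v) (ThrE v))
    (bef : ∀ v : ZMod n → ℂ, IsPolygon v → Ag.BoundaryOrder v) :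
    ∃ S : Strategy, ∀ (v : ZMod n → ℂ) (i : ZMod n), IsPolygon v →
      (views v ≤ 2 ∨ n ≤ 3 * views v ∨ Linked v ∨ Turning v) →
      ∃ t : ℕ, ∀ (v' : ZMod n → ℂ) (i' : ZMod n), IsPolygon v' →
        (run S v' i' t).1 = (run S v i t).1 → Nonempty (visGraph v' ≃g visGraph v) := by
  by_cases hn : 3 ≤ n
  swap
  · refine ⟨Ag.strat [], fun v i hv => absurd hv.simple.three hn⟩
  have hn2 : 2 ≤ n := by omega
  have : NeZero n := ⟨by omega⟩
  obtain ⟨W, hW⟩ := Ag.exists_homing (Q := Ag.St n) (o := Ag.out) (d := Ag.nxt)
  refine ⟨Ag.strat W, fun v i hv hviews => ⟨W.length + 1, fun v' i' hv' h => ?_⟩⟩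
  have hag : Ag.Agree Ag.out Ag.nxt W (Sees v', i') (Sees v, i) := by
    refine Ag.agree_of_take W fun t ht => ?_
    rw [← Ag.run_eq (bef v' hv') W i' ht, ← Ag.run_eq (bef v hv) W i ht]
    exact Ag.deg_eq_of_run_eq h (by omega)
  have hE := hW _ _ hag
  have h1 := Ag.run_eq (bef v' hv') W i' (le_refl _)
  have h2 := Ag.run_eq (bef v hv) W i (le_refl _)
  rw [List.take_length] at h1 h2
  rw [← h1, ← h2] at hE
  have hE' : Ag.E (Sees v) (Sees v') (run (Ag.strat W) v i W.length).2
      (run (Ag.strat W) v' i' W.length).2 := hE.symm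
  have hV := geo v hv
  have hV' := geo v' hv'
  obtain ⟨k, hk0, hkn, hk⟩ := Ag.exists_gen (Ag.periods hn2 hV.rel)
  obtain ⟨m, rfl⟩ : ∃ m : ℕ, k = m := ⟨k.toNat, by omega⟩
  have halike : ∀ a b : ZMod n, Alike v a b ↔ b - a ∈ Ag.periods hn2 hV.rel := fun a b => by
    rw [Ag.alike_iff (bef v hv) (fun i => Ag.degR_pos hn2 hV.rel i), Ag.E_iff_sub_mem]
  -- the number of views is `m`
  have hm : views v = m := by
    rw [← Ag.ncard_cosets (H := Ag.periods hn2 hV.rel) (k := m) (by omega) hk]
    unfold views
    have e : (fun i : ZMod n => {j | Alike v i j}) =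
        fun i => {j | j - i ∈ Ag.periods hn2 hV.rel} := by
      funext a
      ext b
      exact halike a b
    rw [e]
  rw [hm] at hviews
  set δ := (run (Ag.strat W) v' i' W.length).2 - (run (Ag.strat W) v i W.length).2 with hδ
  have hF := Ag.fam_of_E hn hV.rel hV'.rel hE' hk0 hkn hk
  have heq : ∀ a b, Ag.shiftR (Sees v') δ a b ↔ Sees v a b := by
    rcases hviews with h3 | h3 | h3
    · have : m = 1 ∨ m = 2 := by omega
      rcases this with rfl | rfl
      · exact Ag.eq_of_fam_one hn hV.rel (Ag.visRel_shift hV'.rel δ) hF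
      · exact eq_of_fam_two hn hV (Ag.visE_shift hV' δ) hF
    · exact Ag.eq_of_fam hn hF (by exact_mod_cast h3)
    · rcases lt_or_ge m n with hmn | hmn
      swap
      · exact Ag.eq_of_fam hn hF (by exact_mod_cast (by omega : n ≤ 3 * m))
      obtain ⟨α, hlink⟩ : ∃ α : ℤ, ∀ u : ℤ, (m : ℤ) ∣ u - α → unroll (Sees v) u (u + m) := by
        rcases h3 with h3 | h3
        · obtain ⟨a, ha⟩ := h3
          obtain ⟨α, -, -, hα⟩ := Ag.lift_lt 0 a
          have hcls : ∀ u : ℤ, Alike v a (u : ZMod n) ↔ (m : ℤ) ∣ u - α := by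
            intro u
            rw [halike, ← hk]
            push_cast
            rw [hα]
          refine ⟨α, fun u hu => ?_⟩
          have h4 := ha (u : ZMod n) m ((hcls u).2 hu)
            (by
              have := (hcls (u + m)).2 (Clq.dvd_shift hu m (dvd_refl _))
              push_cast at this; exact this)
            (by omega) hmn
            (fun l hl1 hl2 hl3 => by
              have h5 : (m : ℤ) ∣ (u + l) - α := (hcls (u + l)).1 (by push_cast; exact hl3)
              have := Clq.step hu h5 (by omega)
              omega)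
          unfold unroll
          push_cast; exact h4
        · have hal : Alike v 0 ((m : ℤ) : ZMod n) := by
            rw [halike, sub_zero, hk]
          have hp : ∀ a b : ℤ, unroll (Sees v) (a + m) (b + m) ↔ unroll (Sees v) a b := by
            intro a b
            have := h3 0 _ hal (a : ZMod n) (b : ZMod n)
            rw [sub_zero] at this
            unfold unroll
            push_cast at this ⊢
            exact this
          obtain ⟨α, hα⟩ := Dism.exists_link_of_periodic (ZRel.of_visRel hV.rel)
            (show (0 : ℤ) < m by omega) (by omega) hp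
          refine ⟨α, fun u hu => ?_⟩
          obtain ⟨t, ht⟩ := hu
          have e : u = α + t * m := by rw [mul_comm t]; linarith
          rw [e]
          exact (per_mul (n := m) (p := fun z => unroll (Sees v) z (z + m))
            (fun z => hp z (z + m)) α t).2 hα
      have hcl := Link.clique_of_link (s := true) hF (ZVE.of_visE hV) hlink
      exact Clq.eq_of_clique hn hF (α := α) (s₀ := true) (fun u u' h5 h6 h7 h8 =>
        hcl u u' h5 h6 h7 h8)
  refine ⟨⟨Equiv.subRight δ, fun {a b} => ?_⟩⟩
  have := heq (a - δ) (b - δ)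
  unfold Ag.shiftR at this
  rw [sub_add_cancel, sub_add_cancel] at this
  exact this.symm

end VisMap
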