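import Pool.Agent.Lib.MP_9f3af0_lc.AgViews

/-!
# MP_9f3af0_lc: every `n`-gon with at most `2` or at least `n / 3` different views can be mapped
-/

namespace VisMap

variable {n : ℕ}

namespace Ag

variable {R E T : ZMod n → ZMod n → Prop}

theorem isGap_shift {a i : ZMod n} {s t : ℕ} :
    IsGap (shiftR R a) i s t ↔ IsGap R (i + a) s t := by
  unfold IsGap shiftR
  have e : ∀ m : ℕ, i + (m : ZMod n) + a = i + a + m := fun m => by ring
  simp only [e]

theorem visE_shift (h : VisE R E T) (a : ZMod n) :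
    VisE (shiftR R a) (shiftR E a) (shiftR T a) := by
  have e : ∀ (i : ZMod n) (m : ℕ), i + (m : ZMod n) + a = i + a + m := fun i m => by ring
  constructor
  · exact visRel_shift h.rel a
  · intro i s t hg
    rw [isGap_shift] at hg
    unfold shiftR
    simp only [e]
    exact h.thr _ _ _ hg
  · intro i s t hg
    rw [isGap_shift] at hg
    unfold shiftR
    simp only [e]
    exact h.thr_unique _ _ _ hg
  · intro i c h1 h2
    unfold shiftR
    simp only [e]
    exact h.e_t _ _ h1 h2
  · intro i s t hg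
    rw [isGap_shift] at hg
    unfold shiftR
    simp only [e]
    exact h.t_e _ _ _ hg
  · intro i s t hg
    rw [isGap_shift] at hg
    unfold shiftR
    simp only [e]
    exact h.ve1l _ _ _ hg
  · intro i s t hg
    rw [isGap_shift] at hg
    unfold shiftR
    simp only [e]
    exact h.ve1r _ _ _ hg
  · intro i s t hg
    rw [isGap_shift] at hg
    unfold shiftR
    simp only [e]
    exact h.ve2l _ _ _ hg
  · intro i s t hg
    rw [isGap_shift] at hg
    unfold shiftR
    simp only [e]
    exact h.ve2r _ _ _ hg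

end Ag

/-- The combinatorial statement for two classes (helper88, paper 594). -/
def KTwo (n : ℕ) : Prop :=
  ∀ R E T R' E' T' : ZMod n → ZMod n → Prop, VisE R E T → VisE R' E' T' →
    Fam n 2 (fun s => unroll (cond s R R')) → ∀ i j, R' i j ↔ R i j

/-- Every `n`-gon with at most `2` or at least `n / 3` different views can be mapped (among all
`n`-gons). -/
theorem few_or_many_views
    (geo : ∀ v : ZMod n → ℂ, IsPolygon v → VisE (Sees v) (SeesE v) (ThrE v))
    (bef : ∀ v : ZMod n → ℂ, IsPolygon v → Ag.BoundaryOrder v) :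
    ∃ S : Strategy, ∀ (v : ZMod n → ℂ) (i : ZMod n), IsPolygon v →
      (views v ≤ 1 ∨ (views v ≤ 2 ∧ KTwo n) ∨ n ≤ 3 * views v) →
      ∃ t : ℕ, ∀ (v' : ZMod n → ℂ) (i' : ZMod n), IsPolygon v' →
        (run S v' i' t).1 = (run S v i t).1 → Nonempty (visGraph v' ≃g visGraph v) := by
  by_cases hn : 3 ≤ n
  swap
  · refine ⟨Ag.strat [], fun v i hv => absurd hv.simple.three hn⟩
  have hn2 : 2 ≤ n := by omega
  have : NeZero n := ⟨by omega⟩
  obtain ⟨W, hW⟩ := Ag.exists_homing (Q := Ag.St n) (o := Ag.out) (d := Ag.nxt)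
  refine ⟨Ag.strat W, fun v i hv hviews => ⟨W.length + 1, fun v' i' hv' h => ?_⟩⟩
  have hag : Ag.Agree Ag.out Ag.nxt W (Sees v', i') (Sees v, i) := by
    refine Ag.agree_of_take W fun t ht => ?_
    rw [← Ag.run_eq (bef v' hv') W i' ht, ← Ag.run_eq (bef v hv) W i ht]
    exact Ag.deg_eq_of_run_eq h (by omega)
  have hE := hW _ _ hag
  have h1 := Ag.run_eq (bef v' hv') W i' (le_refl _)
  have h2 := Ag.run_eq (bef v hv) W i (le_refl _)
  rw [List.take_length] at h1 h2
  rw [← h1, ← h2] at hE
  have hE' : Ag.E (Sees v) (Sees v') (run (Ag.strat W) v i W.length).2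
      (run (Ag.strat W) v' i' W.length).2 := hE.symm
  have hV := geo v hv
  have hV' := geo v' hv'
  obtain ⟨k, hk0, hkn, hk⟩ := Ag.exists_gen (Ag.periods hn2 hV.rel)
  obtain ⟨m, rfl⟩ : ∃ m : ℕ, k = m := ⟨k.toNat, by omega⟩
  -- the number of views is `m`
  have hm : views v = m := by
    rw [← Ag.ncard_cosets (H := Ag.periods hn2 hV.rel) (k := m) (by omega) hk]
    unfold views
    have e : (fun i : ZMod n => {j | Alike v i j}) =
        fun i => {j | j - i ∈ Ag.periods hn2 hV.rel} := by
      funext a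
      ext b
      show Alike v a b ↔ b - a ∈ Ag.periods hn2 hV.rel
      rw [Ag.alike_iff (bef v hv) (fun i => Ag.degR_pos hn2 hV.rel i), Ag.E_iff_sub_mem]
    rw [e]
  rw [hm] at hviews
  set δ := (run (Ag.strat W) v' i' W.length).2 - (run (Ag.strat W) v i W.length).2 with hδ
  have hF := Ag.fam_of_E hn hV.rel hV'.rel hE' hk0 hkn hk
  have heq : ∀ a b, Ag.shiftR (Sees v') δ a b ↔ Sees v a b := by
    rcases hviews with h3 | ⟨h3, hK2⟩ | h3
    · have : m = 1 := by omega
      subst this
      exact Ag.eq_of_fam_one hn hV.rel (Ag.visRel_shift hV'.rel δ) hF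
    · have : m = 1 ∨ m = 2 := by omega
      rcases this with rfl | rfl
      · exact Ag.eq_of_fam_one hn hV.rel (Ag.visRel_shift hV'.rel δ) hF
      · exact hK2 _ _ _ _ _ _ hV (Ag.visE_shift hV' δ) hF
    · exact Ag.eq_of_fam hn hF (by exact_mod_cast h3)
  refine ⟨⟨Equiv.subRight δ, fun {a b} => ?_⟩⟩
  have := heq (a - δ) (b - δ)
  unfold Ag.shiftR at this
  rw [sub_add_cancel, sub_add_cancel] at this
  exact this.symm

/-- The number of views divides `n`. -/
theorem views_dvd {v : ZMod n → ℂ} (hn : 3 ≤ n) (hR : VisRel (Sees v))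
    (bef : Ag.BoundaryOrder v) : 0 < views v ∧ views v ∣ n := by
  have hn2 : 2 ≤ n := by omega
  have : NeZero n := ⟨by omega⟩
  obtain ⟨k, hk0, hkn, hk⟩ := Ag.exists_gen (Ag.periods hn2 hR)
  obtain ⟨m, rfl⟩ : ∃ m : ℕ, k = m := ⟨k.toNat, by omega⟩
  have hm : views v = m := by
    rw [← Ag.ncard_cosets (H := Ag.periods hn2 hR) (k := m) (by omega) hk]
    unfold views
    have e : (fun i : ZMod n => {j | Alike v i j}) =
        fun i => {j | j - i ∈ Ag.periods hn2 hR} := by
      funext a
      ext b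
      show Alike v a b ↔ b - a ∈ Ag.periods hn2 hR
      rw [Ag.alike_iff bef (fun i => Ag.degR_pos hn2 hR i), Ag.E_iff_sub_mem]
    rw [e]
  rw [hm]
  exact ⟨by exact_mod_cast hk0, by exact_mod_cast hkn⟩

end VisMap
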