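import Pool.Agent.Lib.MP_9f3af0_lc.AgUnroll
import Pool.Agent.Lib.MP_9f3af0_lc.AgPort

/-!
# MP_9f3af0_lc: families of relations with the same words (unrolled)

`Fw n r i o`: the vertex `i` sees the vertex `i + o` (`0 < o < n`); `Bw n r i o`: it sees `i - o`.
`Match k P P'`: there is an order isomorphism between the offsets with `P` and those with `P'` which
preserves the residues modulo `k`.  `Fam n k r`: the relations `r s` (`s : Bool`) have the properties
`ZRel n` and all views of vertices that are congruent modulo `k` match modulo `k`.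
-/

namespace VisMap

/-- Forward offsets of the visible vertices. -/
def Fw (n : ℕ) (r : ℤ → ℤ → Prop) (i o : ℤ) : Prop := 0 < o ∧ o < n ∧ r i (i + o)

/-- Backward offsets of the visible vertices. -/
def Bw (n : ℕ) (r : ℤ → ℤ → Prop) (i o : ℤ) : Prop := 0 < o ∧ o < n ∧ r i (i - o)

/-- Order isomorphism between `{o | P o}` and `{o | P' o}` preserving residues modulo `k`. -/
def Match (k : ℤ) (P P' : ℤ → Prop) : Prop :=
  ∃ φ : ℤ → ℤ, (∀ o, P o → P' (φ o)) ∧ (∀ o, P o → k ∣ φ o - o) ∧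
    (∀ a b, P a → P b → a < b → φ a < φ b) ∧ (∀ o', P' o' → ∃ o, P o ∧ φ o = o')

theorem Match.trans {k : ℤ} {P P' P'' : ℤ → Prop} (h : Match k P P') (h' : Match k P' P'') :
    Match k P P'' := by
  obtain ⟨φ, h1, h2, h3, h4⟩ := h
  obtain ⟨ψ, g1, g2, g3, g4⟩ := h'
  refine ⟨ψ ∘ φ, fun o ho => g1 _ (h1 o ho), fun o ho => ?_, fun a b ha hb hab => ?_,
    fun o ho => ?_⟩
  · have := dvd_add (g2 _ (h1 o ho)) (h2 o ho)
    have e : ψ (φ o) - φ o + (φ o - o) = ψ (φ o) - o := by ring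
    rw [e] at this
    exact this
  · exact g3 _ _ (h1 a ha) (h1 b hb) (h3 a b ha hb hab)
  · obtain ⟨o1, ho1, rfl⟩ := g4 o ho
    obtain ⟨o2, ho2, rfl⟩ := h4 o1 ho1
    exact ⟨o2, ho2, rfl⟩

theorem Match.symm {k : ℤ} {P P' : ℤ → Prop} (h : Match k P P') : Match k P' P := by
  classical
  obtain ⟨φ, h1, h2, h3, h4⟩ := h
  choose! ψ hψ1 hψ2 using h4
  refine ⟨ψ, hψ1, fun o ho => ?_, fun a b ha hb hab => ?_, fun o ho => ⟨φ o, h1 o ho, ?_⟩⟩
  · have := h2 _ (hψ1 o ho)
    rw [hψ2 o ho] at this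
    have e : ψ o - o = -(o - ψ o) := by ring
    rw [e]; exact (dvd_neg).2 this
  · by_contra hc
    push Not at hc
    rcases hc.lt_or_eq with hlt | heq
    · have := h3 _ _ (hψ1 b hb) (hψ1 a ha) hlt
      rw [hψ2 b hb, hψ2 a ha] at this
      omega
    · have := hψ2 b hb
      rw [heq, hψ2 a ha] at this
      omega
  · rcases lt_trichotomy (ψ (φ o)) o with hlt | heq | hgt
    · have := h3 _ _ (hψ1 _ (h1 o ho)) ho hlt
      rw [hψ2 _ (h1 o ho)] at this
      omega
    · exact heq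
    · have := h3 _ _ ho (hψ1 _ (h1 o ho)) hgt
      rw [hψ2 _ (h1 o ho)] at this
      omega

/-- The element after a common initial part. -/
theorem Match.next {k : ℤ} {P P' : ℤ → Prop} (h : Match k P P') (hP : ∀ o, P o → 0 < o)
    {d : ℤ} (hag : ∀ o, o < d → (P o ↔ P' o)) (hd : P d) :
    ∃ o', P' o' ∧ d ≤ o' ∧ k ∣ o' - d ∧ ∀ m, d ≤ m → m < o' → ¬ P' m := by
  obtain ⟨φ, h1, h2, h3, h4⟩ := h
  have hid : ∀ N : ℕ, ∀ o : ℤ, o.toNat ≤ N → o < d → P o → φ o = o := by
    intro N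
    induction N with
    | zero =>
      intro o ho hod hPo
      have := hP o hPo
      omega
    | succ N ih =>
      intro o ho hod hPo
      obtain ⟨o2, ho2, he⟩ := h4 o ((hag o hod).1 hPo)
      rcases lt_trichotomy o2 o with hlt | heq | hgt
      · have := ih o2 (by have := hP o2 ho2; omega) (by omega) ho2
        omega
      · rw [← heq, he, heq]
      · exfalso
        have h5 := h3 _ _ hPo ho2 hgt
        rw [he] at h5
        have h6 : P (φ o) := (hag _ (by omega)).2 (h1 o hPo)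
        have h7 := ih (φ o) (by have := hP _ h6; omega) (by omega) h6
        have h8 := h3 _ _ h6 hPo h5
        omega
  have hid' : ∀ o, o < d → P o → φ o = o := fun o ho hPo => hid _ o le_rfl ho hPo
  have hge : d ≤ φ d := by
    by_contra hc
    push Not at hc
    have h6 : P (φ d) := (hag _ hc).2 (h1 d hd)
    have h7 := hid' _ hc h6
    have h8 := h3 _ _ h6 hd hc
    omega
  refine ⟨φ d, h1 d hd, hge, h2 d hd, fun m hm1 hm2 hm3 => ?_⟩
  obtain ⟨o, ho, rfl⟩ := h4 m hm3
  have hod : o < d := by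
    by_contra hc
    push Not at hc
    rcases hc.lt_or_eq with hlt | heq
    · have := h3 _ _ hd ho hlt
      omega
    · rw [← heq] at hm2
      omega
  have := hid' o hod ho
  omega

/-- Two relations with the properties `ZRel`, all views matching modulo `k`. -/
structure Fam (n : ℕ) (k : ℤ) (r : Bool → ℤ → ℤ → Prop) : Prop where
  three : 3 ≤ n
  kpos : 0 < k
  dvd : k ∣ n
  zrel : ∀ s, ZRel n (r s)
  fw : ∀ s s' i i', k ∣ i' - i → Match k (Fw n (r s) i) (Fw n (r s') i')

namespace Fam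

variable {n : ℕ} {k : ℤ} {r : Bool → ℤ → ℤ → Prop}

theorem zr (h : Fam n k r) (s : Bool) : ZR n (r s) := ZR.of_zRel (h.zrel s)

theorem bw_iff (h : Fam n k r) {s : Bool} {i o : ℤ} :
    Bw n (r s) i o ↔ Fw n (r s) i (n - o) := by
  unfold Bw Fw
  have h1 := (h.zr s).perR i (i - o)
  have e : i - o + (n : ℤ) = i + (n - o) := by ring
  rw [e] at h1
  rw [h1]
  constructor
  · rintro ⟨a, b, c⟩; exact ⟨by omega, by omega, c⟩
  · rintro ⟨a, b, c⟩; exact ⟨by omega, by omega, c⟩

theorem bw_iff_fw (h : Fam n k r) {s : Bool} {i o : ℤ} :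
    Bw n (r s) i o ↔ Fw n (r s) (i - o) o := by
  unfold Bw Fw
  rw [sub_add_cancel]
  exact and_congr_right fun _ => and_congr_right fun _ =>
    ⟨fun c => (h.zr s).symm _ _ c, fun c => (h.zr s).symm _ _ c⟩

theorem bw (h : Fam n k r) (s s' : Bool) (i i' : ℤ) (hi : k ∣ i' - i) :
    Match k (Bw n (r s) i) (Bw n (r s') i') := by
  obtain ⟨φ, h1, h2, h3, h4⟩ := h.fw s s' i i' hi
  refine ⟨fun o => n - φ (n - o), fun o ho => ?_, fun o ho => ?_, fun a b ha hb hab => ?_,
    fun o ho => ?_⟩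
  · rw [h.bw_iff] at ho ⊢
    rw [sub_sub_cancel]; exact h1 _ ho
  · rw [h.bw_iff] at ho
    have := h2 _ ho
    have e : (n : ℤ) - φ (n - o) - o = -(φ (n - o) - (n - o)) := by ring
    rw [e]; exact (dvd_neg).2 this
  · rw [h.bw_iff] at ha hb
    have := h3 _ _ hb ha (by omega)
    show (n : ℤ) - φ (n - a) < n - φ (n - b)
    omega
  · rw [h.bw_iff] at ho
    obtain ⟨o', ho', he⟩ := h4 _ ho
    refine ⟨n - o', by rw [h.bw_iff, sub_sub_cancel]; exact ho', ?_⟩
    show (n : ℤ) - φ (n - (n - o')) = o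
    rw [sub_sub_cancel, he]; ring

theorem fw_pos {s : Bool} {i o : ℤ} (h : Fw n (r s) i o) : 0 < o := h.1

theorem bw_pos {s : Bool} {i o : ℤ} (h : Bw n (r s) i o) : 0 < o := h.1

end Fam

end VisMap
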