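import Pool.Agent.Lib.MP_9f3af0_lc.AgWord
import Pool.Agent.Lib.MP_9f3af0_lc.AgPort

/-!
# MP_9f3af0_lc, agent half: from the combinatorial statement to the feasibility of mapping

The states are the pairs (relation on `ZMod n`, vertex); there are finitely many.  The strategy reads
a homing word of this finite machine (position `W[t] % degree` at time `t`).
-/

namespace VisMap

/-- The combinatorial statement `Comb n` for the relations with the property `V`. -/
def CombV {n : ℕ} (V : (ZMod n → ZMod n → Prop) → Prop) : Prop :=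
  ∀ (H : AddSubgroup (ZMod n)) (R R' : ZMod n → ZMod n → Prop), V R → V R' →
    (∀ i, degR R' i = degR R i) →
    (∀ i p j j', IsPortR R i p j → IsPortR R' i p j' → j' - j ∈ H) →
    (∀ i, ∀ h ∈ H, degR R (i + h) = degR R i) →
    (∀ i p j j', ∀ h ∈ H, IsPortR R i p j → IsPortR R (i + h) p j' → j' - j ∈ H) →
    (∀ i p j j', ∀ h ∈ H, IsPortR R' i p j → IsPortR R' (i + h) p j' → j' - j ∈ H) →
    ∃ e : ZMod n ≃ ZMod n, ∀ i j, R' (e i) (e j) ↔ R i j

theorem combV_visRel {n : ℕ} : CombV (n := n) VisRel ↔ Comb n := Iff.rfl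

namespace Ag

variable {n : ℕ}

/-- A state: a relation and the present vertex. -/
abbrev St (n : ℕ) := (ZMod n → ZMod n → Prop) × ZMod n

noncomputable def out (q : St n) : ℕ := degR q.1 q.2

noncomputable def nxt (q : St n) (p : ℕ) : St n := (q.1, moveR q.1 q.2 p)

/-- The strategy of a word. -/
def strat (W : List ℕ) : Strategy where
  next h d := (W.getD h.length 0) % d
  valid _ _ hd := Nat.mod_lt _ hd

/-- The order at a vertex is the boundary order. -/
def BoundaryOrder (v : ZMod n → ℂ) : Prop :=
  ∀ i j k, Sees v i j → Sees v i k → (Before v i j k ↔ (j - i).val < (k - i).val)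

theorem isPort_iff {v : ZMod n → ℂ} (hv : BoundaryOrder v) {i j : ZMod n} {p : ℕ} :
    IsPort v i p j ↔ IsPortR (Sees v) i p j := by
  unfold IsPort IsPortR
  refine and_congr_right fun hj => ?_
  have : {k | Sees v i k ∧ Before v i k j} = {k | Sees v i k ∧ (k - i).val < (j - i).val} := by
    ext k
    exact and_congr_right fun hk => hv i k j hk hj
  rw [this]

theorem move_eq [NeZero n] {v : ZMod n → ℂ} (hv : BoundaryOrder v) (i : ZMod n) (p : ℕ) :
    move v i p = moveR (Sees v) i p := by
  by_cases h : ∃ j, IsPort v i p j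
  · rw [move, dif_pos h]
    exact (moveR_eq ((isPort_iff hv).1 h.choose_spec)).symm
  · rw [move, dif_neg h, moveR, dif_neg]
    rintro ⟨j, hj⟩
    exact h ⟨j, (isPort_iff hv).2 hj⟩

theorem length_run (S : Strategy) (v : ZMod n → ℂ) (i : ZMod n) (t : ℕ) :
    (run S v i t).1.length = t := by
  induction t with
  | zero => rfl
  | succ t ih =>
    show (_ :: (run S v i t).1).length = _
    rw [List.length_cons, ih]

theorem run_eq [NeZero n] {v : ZMod n → ℂ} (hv : BoundaryOrder v) (W : List ℕ) (i : ZMod n)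
    {t : ℕ} (ht : t ≤ W.length) :
    ((Sees v, (run (strat W) v i t).2) : St n) = go out nxt (Sees v, i) (W.take t) := by
  induction t with
  | zero => rfl
  | succ t ih =>
    rw [go_take_succ W _ (by omega), ← ih (by omega)]
    show _ = nxt _ _
    unfold nxt out
    refine Prod.ext rfl ?_
    show move v (run (strat W) v i t).2 _ = moveR _ _ _
    rw [move_eq hv]
    show moveR _ _ ((W.getD (run (strat W) v i t).1.length 0) % _) = _
    rw [length_run]
    rfl

theorem deg_eq_of_run_eq {S : Strategy} {v v' : ZMod n → ℂ} {i i' : ZMod n} {T : ℕ}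
    (h : (run S v' i' T).1 = (run S v i T).1) {t : ℕ} (ht : t < T) :
    deg v' (run S v' i' t).2 = deg v (run S v i t).2 := by
  induction T with
  | zero => omega
  | succ T ih =>
    have h1 : (_ :: (run S v' i' T).1) = (_ :: (run S v i T).1) := h
    rw [List.cons.injEq] at h1
    rcases Nat.lt_succ_iff_lt_or_eq.1 ht with h2 | rfl
    · exact ih h1.2 h2
    · exact (Prod.ext_iff.1 h1.1).1

/-- Equivalent states. -/
abbrev E (R R' : ZMod n → ZMod n → Prop) (i i' : ZMod n) : Prop :=
  Eqv (out (n := n)) nxt (R, i) (R', i')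

variable {R R' : ZMod n → ZMod n → Prop}

theorem E.deg {i i' : ZMod n} (h : E R R' i i') : degR R i = degR R' i' := h.out

theorem E.port [NeZero n] {i i' j j' : ZMod n} {p : ℕ} (h : E R R' i i') (hj : IsPortR R i p j)
    (hj' : IsPortR R' i' p j') : E R R' j j' := by
  have h1 := h.move (p := p) (isPortR_lt hj)
  unfold nxt at h1
  rwa [moveR_eq hj, moveR_eq hj'] at h1

theorem E.succ (hn : 2 ≤ n) (hR : VisRel R) (hR' : VisRel R') {i i' : ZMod n}
    (h : E R R' i i') : E R R' (i + 1) (i' + 1) := by
  have : NeZero n := ⟨by omega⟩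
  exact h.port (isPortR_succ hn hR i) (isPortR_succ hn hR' i')

theorem E.add (hn : 2 ≤ n) (hR : VisRel R) (hR' : VisRel R') {i i' : ZMod n}
    (h : E R R' i i') (a : ZMod n) : E R R' (i + a) (i' + a) := by
  have : NeZero n := ⟨by omega⟩
  have key : ∀ k : ℕ, E R R' (i + k) (i' + k) := by
    intro k
    induction k with
    | zero => simpa using h
    | succ k ih =>
      have := ih.succ hn hR hR'
      push_cast
      rwa [← add_assoc, ← add_assoc]
  have := key a.val
  rwa [ZMod.natCast_zmod_val] at this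

/-- The periods of `R`: the `h` such that the states `0` and `h` are equivalent. -/
def periods (hn : 2 ≤ n) (hR : VisRel R) : AddSubgroup (ZMod n) where
  carrier := {h | E R R 0 h}
  zero_mem' := Eqv.refl _
  add_mem' {a b} ha hb := by
    have h1 : E R R 0 a := ha
    have h2 : E R R (0 + a) (b + a) := E.add hn hR hR hb a
    rw [zero_add, add_comm b a] at h2
    exact h1.trans h2
  neg_mem' {a} ha := by
    have h1 : E R R (0 + -a) (a + -a) := E.add hn hR hR ha (-a)
    rw [zero_add, add_neg_cancel] at h1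
    exact Eqv.symm h1

theorem mem_periods (hn : 2 ≤ n) (hR : VisRel R) {a : ZMod n} :
    a ∈ periods hn hR ↔ E R R 0 a := Iff.rfl

theorem E_iff_sub_mem (hn : 2 ≤ n) (hR : VisRel R) {i j : ZMod n} :
    E R R i j ↔ j - i ∈ periods hn hR := by
  rw [mem_periods]
  constructor
  · intro h
    have := E.add hn hR hR h (-i)
    rwa [add_neg_cancel, ← sub_eq_add_neg] at this
  · intro h
    have := E.add hn hR hR h i
    rwa [zero_add, sub_add_cancel] at this

theorem iso_of_E (hn : 2 ≤ n) {V : (ZMod n → ZMod n → Prop) → Prop}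
    (hV : ∀ R, V R → VisRel R) (hsh : ∀ R a, V R → V (shiftR R a)) (hC : CombV V)
    (hVR : V R) (hVR' : V R') {a b : ZMod n}
    (h : E R R' a b) : ∃ e : ZMod n ≃ ZMod n, ∀ i j, R' (e i) (e j) ↔ R i j := by
  have hR := hV R hVR
  have hR' := hV R' hVR'
  have : NeZero n := ⟨by omega⟩
  set δ := b - a with hδ
  have hE : ∀ i, E R R' i (i + δ) := by
    intro i
    have := E.add hn hR hR' h (i - a)
    have e1 : a + (i - a) = i := by ring
    have e2 : b + (i - a) = i + δ := by rw [hδ]; ring
    rwa [e1, e2] at this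
  have hper : ∀ i, ∀ x ∈ periods hn hR, E R R i (i + x) := by
    intro i x hx
    rw [E_iff_sub_mem hn hR, add_sub_cancel_left]; exact hx
  have hper' : ∀ i, ∀ x ∈ periods hn hR, E R' R' (i + δ) (i + x + δ) := by
    intro i x hx
    exact ((hE i).symm.trans (hper i x hx)).trans (hE (i + x))
  have hback : ∀ j j', E R' R' (j + δ) (j' + δ) → j' - j ∈ periods hn hR := by
    intro j j' hj
    rw [← E_iff_sub_mem hn hR]
    exact ((hE j).trans hj).trans (hE j').symm
  obtain ⟨e, he⟩ := hC (periods hn hR) R (shiftR R' δ) hVR (hsh R' δ hVR')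
    (fun i => by rw [degR_shift]; exact ((hE i).deg).symm)
    (fun i p j j' hj hj' => by
      rw [isPortR_shift] at hj'
      have h1 : E R R' j (j' + δ) := (hE i).port hj hj'
      rw [← E_iff_sub_mem hn hR]
      exact h1.trans (hE j').symm)
    (fun i x hx => ((hper i x hx).deg).symm)
    (fun i p j j' x hx hj hj' => by
      rw [← E_iff_sub_mem hn hR]
      exact (hper i x hx).port hj hj')
    (fun i p j j' x hx hj hj' => by
      rw [isPortR_shift] at hj hj'
      exact hback j j' ((hper' i x hx).port hj hj'))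
  refine ⟨e.trans (Equiv.addRight δ), fun i j => ?_⟩
  exact he i j

end Ag

/-- Mapping is feasible if the combinatorial statement holds for a shift invariant class `V` of
relations which contains the visibility relations of all polygons. -/
theorem feasible_of_combV {n : ℕ} {V : (ZMod n → ZMod n → Prop) → Prop}
    (hV : ∀ R, V R → VisRel R) (hsh : ∀ R a, V R → V (Ag.shiftR R a)) (hC : CombV V)
    (geo : ∀ v : ZMod n → ℂ, IsPolygon v → V (Sees v))
    (bef : ∀ v : ZMod n → ℂ, IsPolygon v → Ag.BoundaryOrder v) : Feasible n := by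
  by_cases hn : 3 ≤ n
  swap
  · refine ⟨Ag.strat [], fun v i hv => absurd hv.simple.three hn⟩
  have : NeZero n := ⟨by omega⟩
  obtain ⟨W, hW⟩ := Ag.exists_homing (Q := Ag.St n) (o := Ag.out) (d := Ag.nxt)
  refine ⟨Ag.strat W, fun v i hv => ⟨W.length + 1, fun v' i' hv' h => ?_⟩⟩
  have hag : Ag.Agree Ag.out Ag.nxt W (Sees v', i') (Sees v, i) := by
    refine Ag.agree_of_take W fun t ht => ?_
    rw [← Ag.run_eq (bef v' hv') W i' ht, ← Ag.run_eq (bef v hv) W i ht]
    exact Ag.deg_eq_of_run_eq h (by omega)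
  have hE := hW _ _ hag
  have h1 := Ag.run_eq (bef v' hv') W i' (le_refl _)
  have h2 := Ag.run_eq (bef v hv) W i (le_refl _)
  rw [List.take_length] at h1 h2
  rw [← h1, ← h2] at hE
  obtain ⟨e, he⟩ := Ag.iso_of_E (by omega) hV hsh hC (geo v' hv') (geo v hv) hE
  exact ⟨⟨e, fun {i j} => he i j⟩⟩

/-- Mapping is feasible if the combinatorial statement holds. -/
theorem feasible_of_comb' {n : ℕ} (hC : Comb n)
    (geo : ∀ v : ZMod n → ℂ, IsPolygon v → VisRel (Sees v))
    (bef : ∀ v : ZMod n → ℂ, IsPolygon v → Ag.BoundaryOrder v) : Feasible n :=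
  feasible_of_combV (V := VisRel) (fun _ h => h) (fun _ a h => Ag.visRel_shift h a) hC geo bef

end VisMap
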