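import Pool.Agent.Lib.MP_9f3af0_lc.Defs

/-!
# MP_9f3af0_lc: the unrolled form of a visibility relation (vertices = integers)
-/

namespace VisMap

/-- The unrolled form of `VisRel`: vertices are integers, everything is `n`-periodic. -/
structure ZRel (n : ℕ) (r : ℤ → ℤ → Prop) : Prop where
  symm : ∀ a b, r a b → r b a
  per : ∀ a b, r (a + n) b ↔ r a b
  irrefl : ∀ a, ¬ r a a
  succ : ∀ a, r a (a + 1)
  cn : ∀ i s t : ℤ, i < s → s < t → t < i + n → r i s → r i t →
    (∀ m, s < m → m < t → ¬ r i m) → r s t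
  nc : ∀ i s t : ℤ, i < s → s < t → t < i + n → r i s → r i t →
    (∀ m, s < m → m < t → ¬ r i m) →
    ∃ c, s ≤ c ∧ c < t ∧ (∀ x y, i ≤ x → x < s → s < y → y ≤ c → ¬ r x y) ∧
      (∀ x y, t < x → x ≤ i + n → c < y → y < t → ¬ r x y)

/-- The unrolled relation. -/
def unroll {n : ℕ} (R : ZMod n → ZMod n → Prop) (a b : ℤ) : Prop := R (a : ZMod n) (b : ZMod n)

theorem ZRel.of_visRel {n : ℕ} {R : ZMod n → ZMod n → Prop} (hR : VisRel R) :
    ZRel n (unroll R) where
  symm a b h := hR.symm _ _ h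
  per a b := by simp [unroll]
  irrefl a := hR.irrefl _
  succ a := by simpa [unroll] using hR.succ (a : ZMod n)
  cn i s t h0 h1 h2 hs ht hm := by
    obtain ⟨s', rfl⟩ : ∃ s' : ℕ, s = i + s' := ⟨(s - i).toNat, by omega⟩
    obtain ⟨t', rfl⟩ : ∃ t' : ℕ, t = i + t' := ⟨(t - i).toNat, by omega⟩
    unfold unroll at *
    push_cast at hs ht ⊢
    refine hR.cn _ s' t' (by omega) (by omega) (by omega) hs ht fun m hm1 hm2 => ?_
    have := hm (i + m) (by omega) (by omega)
    push_cast at this
    exact this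
  nc i s t h0 h1 h2 hs ht hm := by
    obtain ⟨s', rfl⟩ : ∃ s' : ℕ, s = i + s' := ⟨(s - i).toNat, by omega⟩
    obtain ⟨t', rfl⟩ : ∃ t' : ℕ, t = i + t' := ⟨(t - i).toNat, by omega⟩
    unfold unroll at *
    push_cast at hs ht
    obtain ⟨c, hc1, hc2, hc3, hc4⟩ := hR.nc _ s' t' (by omega) (by omega) (by omega) hs ht
      (fun m hm1 hm2 => by
        have := hm (i + m) (by omega) (by omega)
        push_cast at this
        exact this)
    refine ⟨i + c, by omega, by omega, fun x y hx1 hx2 hy1 hy2 => ?_,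
      fun x y hx1 hx2 hy1 hy2 => ?_⟩
    · have := hc3 (x - i).toNat (y - i).toNat (by omega) (by omega) (by omega)
      have e1 : (i : ZMod n) + ((x - i).toNat : ZMod n) = (x : ZMod n) := by
        have : ((x - i).toNat : ℤ) = x - i := Int.toNat_of_nonneg (by omega)
        have h := congrArg (Int.cast : ℤ → ZMod n) this
        push_cast at h
        rw [h]; ring
      have e2 : (i : ZMod n) + ((y - i).toNat : ZMod n) = (y : ZMod n) := by
        have : ((y - i).toNat : ℤ) = y - i := Int.toNat_of_nonneg (by omega)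
        have h := congrArg (Int.cast : ℤ → ZMod n) this
        push_cast at h
        rw [h]; ring
      rwa [e1, e2] at this
    · have := hc4 (x - i).toNat (y - i).toNat (by omega) (by omega) (by omega) (by omega)
      have e1 : (i : ZMod n) + ((x - i).toNat : ZMod n) = (x : ZMod n) := by
        have : ((x - i).toNat : ℤ) = x - i := Int.toNat_of_nonneg (by omega)
        have h := congrArg (Int.cast : ℤ → ZMod n) this
        push_cast at h
        rw [h]; ring
      have e2 : (i : ZMod n) + ((y - i).toNat : ZMod n) = (y : ZMod n) := by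
        have : ((y - i).toNat : ℤ) = y - i := Int.toNat_of_nonneg (by omega)
        have h := congrArg (Int.cast : ℤ → ZMod n) this
        push_cast at h
        rw [h]; ring
      rwa [e1, e2] at this

/-- The symmetric consequences used for the regular case: `CN` and `NC2`. -/
structure ZR (n : ℕ) (r : ℤ → ℤ → Prop) : Prop where
  symm : ∀ a b, r a b → r b a
  per : ∀ a b, r (a + n) b ↔ r a b
  irrefl : ∀ a, ¬ r a a
  succ : ∀ a, r a (a + 1)
  cn : ∀ i s t : ℤ, i < s → s < t → t < i + n → r i s → r i t →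
    (∀ m, s < m → m < t → ¬ r i m) → r s t
  nc2 : ∀ u v : ℤ, u < v → v < u + n → ¬ r u v →
    (∃ b, u < b ∧ b < v ∧ ∀ s t, u ≤ s → s < b → b < t → t ≤ v → ¬ r s t) ∨
    (∃ b, v < b ∧ b < u + n ∧ ∀ s t, v ≤ s → s < b → b < t → t ≤ u + n → ¬ r s t)

/-- The first element of an interval with a property. -/
theorem exists_first {p : ℤ → Prop} {a b : ℤ} (hab : a ≤ b) (hb : p b) :
    ∃ t, a ≤ t ∧ t ≤ b ∧ p t ∧ ∀ m, a ≤ m → m < t → ¬ p m := by
  classical
  obtain ⟨d, rfl⟩ : ∃ d : ℕ, b = a + d := ⟨(b - a).toNat, by omega⟩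
  have hex : ∃ k : ℕ, p (a + k) := ⟨d, hb⟩
  refine ⟨a + Nat.find hex, by omega, ?_, Nat.find_spec hex, fun m hm1 hm2 hm3 => ?_⟩
  · have := Nat.find_min' hex hb
    omega
  · refine Nat.find_min hex (m := (m - a).toNat) (by omega) ?_
    have : a + ((m - a).toNat : ℤ) = m := by omega
    rwa [this]

/-- The last element of an interval with a property. -/
theorem exists_last {p : ℤ → Prop} {a b : ℤ} (hab : a ≤ b) (ha : p a) :
    ∃ t, a ≤ t ∧ t ≤ b ∧ p t ∧ ∀ m, t < m → m ≤ b → ¬ p m := by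
  obtain ⟨t, h1, h2, h3, h4⟩ := exists_first (p := fun z => p (-z)) (a := -b) (b := -a)
    (by omega) (by simpa using ha)
  refine ⟨-t, by omega, by omega, h3, fun m hm1 hm2 => ?_⟩
  have := h4 (-m) (by omega) (by omega)
  simpa using this

theorem ZR.of_zRel {n : ℕ} {r : ℤ → ℤ → Prop} (h : ZRel n r) : ZR n r where
  symm := h.symm
  per := h.per
  irrefl := h.irrefl
  succ := h.succ
  cn := h.cn
  nc2 u v h1 h2 huv := by
    have hlast : r u (u + n - 1) := by
      have h1 := h.succ (u - 1)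
      rw [sub_add_cancel] at h1
      have h2 := h.symm _ _ h1
      have h3 := (h.per (u - 1) u).2 (h.symm _ _ h2)
      have e : u - 1 + (n : ℤ) = u + n - 1 := by ring
      rw [e] at h3
      exact h.symm _ _ h3
    have hv1 : v ≠ u + 1 := fun e => huv (e ▸ h.succ u)
    have hv2 : v ≠ u + n - 1 := fun e => huv (e ▸ hlast)
    obtain ⟨s, hs1, hs2, hs3, hs4⟩ := exists_last (p := fun z => r u z) (a := u + 1) (b := v - 1)
      (by omega) (h.succ u)
    obtain ⟨t, ht1, ht2, ht3, ht4⟩ := exists_first (p := fun z => r u z) (a := v + 1)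
      (b := u + n - 1) (by omega) hlast
    have hgap : ∀ m, s < m → m < t → ¬ r u m := by
      intro m hm1 hm2
      rcases lt_trichotomy m v with hlt | rfl | hgt
      · exact hs4 m hm1 (by omega)
      · exact huv
      · exact ht4 m (by omega) hm2
    obtain ⟨c, hc1, hc2, hc3, hc4⟩ := h.nc u s t (by omega) (by omega) (by omega) hs3 ht3 hgap
    rcases le_or_gt v c with hvc | hvc
    · refine Or.inl ⟨s, by omega, by omega, fun x y hx1 hx2 hy1 hy2 => ?_⟩
      exact hc3 x y hx1 hx2 hy1 (by omega)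
    · refine Or.inr ⟨t, by omega, by omega, fun x y hx1 hx2 hy1 hy2 hxy => ?_⟩
      exact hc4 y x hy1 hy2 (by omega) hx2 (h.symm _ _ hxy)

/-- Mirror image. -/
def mirror (r : ℤ → ℤ → Prop) (a b : ℤ) : Prop := r (-a) (-b)

theorem ZR.perR {n : ℕ} {r : ℤ → ℤ → Prop} (h : ZR n r) (a b : ℤ) : r a (b + n) ↔ r a b :=
  ⟨fun k => h.symm _ _ ((h.per _ _).1 (h.symm _ _ k)),
    fun k => h.symm _ _ ((h.per _ _).2 (h.symm _ _ k))⟩

theorem ZR.pred {n : ℕ} {r : ℤ → ℤ → Prop} (h : ZR n r) (a : ℤ) : r a (a - 1) := by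
  have := h.succ (a - 1)
  rw [sub_add_cancel] at this
  exact h.symm _ _ this

theorem ZR.last {n : ℕ} {r : ℤ → ℤ → Prop} (h : ZR n r) (a : ℤ) : r a (a + n - 1) := by
  have := (h.perR a (a - 1)).2 (h.pred a)
  have e : a - 1 + (n : ℤ) = a + n - 1 := by ring
  rwa [e] at this

theorem ZR.mirror {n : ℕ} {r : ℤ → ℤ → Prop} (h : ZR n r) : ZR n (mirror r) where
  symm a b hab := h.symm _ _ hab
  per a b := by
    unfold VisMap.mirror
    have := h.per (-(a + n)) (-b)
    rw [← this]
    have e : -(a + (n : ℤ)) + n = -a := by ring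
    rw [e]
  irrefl a := h.irrefl _
  succ a := by
    unfold VisMap.mirror
    have := h.pred (-a)
    have e : -a - 1 = -(a + 1) := by ring
    rwa [e] at this
  cn i s t h0 h1 h2 hs ht hm := by
    unfold VisMap.mirror at *
    have k := h.cn (-i) (-t + n) (-s + n) (by omega) (by omega) (by omega) ((h.perR _ _).2 ht)
      ((h.perR _ _).2 hs) (fun m hm1 hm2 hm3 => by
        refine hm (-(m - n)) (by omega) (by omega) ?_
        rw [neg_neg]
        have := h.perR (-i) (m - n)
        rw [sub_add_cancel] at this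
        exact this.1 hm3)
    exact h.symm _ _ ((h.per _ _).1 ((h.perR _ _).1 k))
  nc2 u v h1 h2 huv := by
    unfold VisMap.mirror at *
    rcases h.nc2 (-v) (-u) (by omega) (by omega) (fun k => huv (h.symm _ _ k)) with
      ⟨b, hb1, hb2, hb3⟩ | ⟨b, hb1, hb2, hb3⟩
    · refine Or.inl ⟨-b, by omega, by omega, fun s t hs1 hs2 ht1 ht2 hst => ?_⟩
      exact hb3 (-t) (-s) (by omega) (by omega) (by omega) (by omega) (h.symm _ _ hst)
    · refine Or.inr ⟨-b + n, by omega, by omega, fun s t hs1 hs2 ht1 ht2 hst => ?_⟩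
      refine hb3 (-t + n) (-s + n) (by omega) (by omega) (by omega) (by omega) ?_
      exact (h.per _ _).2 ((h.perR _ _).2 (h.symm _ _ hst))

end VisMap
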