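import Pool.Agent.Lib.MP_9f3af0_lc.Defs

/-!
# Vertex-edge visibility: the finer combinatorial structure
-/

namespace VisMap

open Set

variable {n : ℕ}

/-- `(s, t)` is a gap in the view of `i`: `i + s` and `i + t` are consecutive neighbours of `i`. -/
def IsGap (R : ZMod n → ZMod n → Prop) (i : ZMod n) (s t : ℕ) : Prop :=
  0 < s ∧ s < t ∧ t < n ∧ R i (i + s) ∧ R i (i + t) ∧ ∀ m : ℕ, s < m → m < t → ¬ R i (i + m)

/-- `E i d`: the vertex `i` sees an interior point of the edge `(d, d + 1)`;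
`T i d`: the edge `(d, d + 1)` is the threshold edge of the gap of `i` that contains it. -/
structure VisE (R E T : ZMod n → ZMod n → Prop) : Prop where
  rel : VisRel R
  thr : ∀ i s t, IsGap R i s t → ∃ c : ℕ, s ≤ c ∧ c < t ∧ T i (i + c)
  thr_unique : ∀ i s t, IsGap R i s t → ∀ c c' : ℕ, s ≤ c → c < t → s ≤ c' → c' < t →
    T i (i + c) → T i (i + c') → c = c'
  e_t : ∀ (i : ZMod n) (c : ℕ), 0 < c → c + 1 < n → E i (i + c) → T i (i + c)
  t_e : ∀ i s t, IsGap R i s t → ∀ c : ℕ, s ≤ c → c < t → T i (i + c) →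
    E i (i + c) ∨ c = s ∨ c + 1 = t
  ve1l : ∀ i s t, IsGap R i s t → ∀ c : ℕ, s ≤ c → c < t → T i (i + c) → ∀ x : ℕ, x < s →
    (∀ y : ℕ, s < y → y ≤ c → ¬ R (i + x) (i + y)) ∧
    (∀ d : ℕ, s ≤ d → d < c → ¬ E (i + x) (i + d))
  ve1r : ∀ i s t, IsGap R i s t → ∀ c : ℕ, s ≤ c → c < t → T i (i + c) → ∀ x : ℕ, t < x → x ≤ n →
    (∀ y : ℕ, c < y → y < t → ¬ R (i + x) (i + y)) ∧
    (∀ d : ℕ, c < d → d < t → ¬ E (i + x) (i + d))
  ve2l : ∀ i s t, IsGap R i s t → ∀ c : ℕ, s < c → c < t → T i (i + c) →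
    T (i + s) (i + c) ∧ (c + 1 < t → E (i + s) (i + c))
  ve2r : ∀ i s t, IsGap R i s t → ∀ c : ℕ, s ≤ c → c + 1 < t → T i (i + c) →
    T (i + t) (i + c) ∧ (s < c → E (i + t) (i + c))

/-- `i` sees an interior point of the edge `(d, d + 1)` of the polygon `v`. -/
def SeesE (v : ZMod n → ℂ) (i d : ZMod n) : Prop :=
  ∃ z ∈ openSegment ℝ (v d) (v (d + 1)), segment ℝ (v i) z ⊆ reg (bd v)

/-- The threshold edges of `i`: the edges of which `i` sees an interior point, and, in a gap of `i`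
without such an edge, the last edge if `i + s` is on the segment to `i + t` and the first edge
otherwise. -/
def ThrE (v : ZMod n → ℂ) (i d : ZMod n) : Prop :=
  SeesE v i d ∨ ∃ s t : ℕ, IsGap (Sees v) i s t ∧ (∀ c : ℕ, s ≤ c → c < t → ¬ SeesE v i (i + c)) ∧
    ((v (i + s) ∈ segment ℝ (v i) (v (i + t)) ∧ d = i + ((t - 1 : ℕ) : ZMod n)) ∨
      (v (i + s) ∉ segment ℝ (v i) (v (i + t)) ∧ d = i + s))

/-- The edge `c` of the gap `(s, t)` of `i` is good: it carries points `a'`, `b'` on the rays through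
`i + s` and `i + t` (at or behind these vertices) such that the triangle `v i, a', b'` lies in the polygon. -/
def Good (v : ZMod n → ℂ) (i : ZMod n) (s t c : ℕ) : Prop :=
  ∃ a' ∈ segment ℝ (v (i + c)) (v (i + (c + 1 : ℕ))), ∃ b' ∈ segment ℝ (v (i + c)) (v (i + (c + 1 : ℕ))),
    v (i + s) ∈ segment ℝ (v i) a' ∧ v (i + t) ∈ segment ℝ (v i) b' ∧
    convexHull ℝ {v i, a', b'} ⊆ reg (bd v)

end VisMap
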