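import Pool.Agent.Lib.MP_9f3af0_lc.AgRun
import Pool.Agent.Lib.MP_9f3af0_lc.AgFam
import Pool.Agent.Lib.MP_9f3af0_lc.DefsE

/-!
# MP_9f3af0_lc: the number of different views, and the theorem for few or many views

`Alike v i j`: no strategy distinguishes the start vertices `i` and `j` of the polygon `v`.
-/

namespace VisMap

variable {n : ℕ}

/-- The vertices `i`, `j` of the polygon `v` look alike: under every strategy an agent started at `i`
and an agent started at `j` make the same observations for ever. -/
def Alike (v : ZMod n → ℂ) (i j : ZMod n) : Prop :=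
  ∀ (S : Strategy) (t : ℕ), (run S v i t).1 = (run S v j t).1

/-- The number of different views in the polygon `v`: the number of classes of vertices that look
alike. -/
noncomputable def views (v : ZMod n → ℂ) : ℕ := (Set.range fun i => {j | Alike v i j}).ncard

namespace Ag

variable {R R' : ZMod n → ZMod n → Prop}

theorem alike_of_E [NeZero n] {v : ZMod n → ℂ} (hv : BoundaryOrder v)
    (hpos : ∀ i, 0 < degR (Sees v) i) {i j : ZMod n} (h : E (Sees v) (Sees v) i j) :
    Alike v i j := by
  intro S t
  have key : ∀ t, (run S v i t).1 = (run S v j t).1 ∧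
      E (Sees v) (Sees v) (run S v i t).2 (run S v j t).2 := by
    intro t
    induction t with
    | zero => exact ⟨rfl, h⟩
    | succ t ih =>
      obtain ⟨h1, h2⟩ := ih
      have hd : deg v (run S v i t).2 = deg v (run S v j t).2 := h2.deg
      constructor
      · show ((deg v (run S v i t).2, S.next (run S v i t).1 (deg v (run S v i t).2)) ::
          (run S v i t).1) = ((deg v (run S v j t).2,
            S.next (run S v j t).1 (deg v (run S v j t).2)) :: (run S v j t).1)
        rw [h1, hd]
      · show E (Sees v) (Sees v) (move v (run S v i t).2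
          (S.next (run S v i t).1 (deg v (run S v i t).2)))
          (move v (run S v j t).2 (S.next (run S v j t).1 (deg v (run S v j t).2)))
        have hp : S.next (run S v i t).1 (deg v (run S v i t).2) <
            degR (Sees v) (run S v i t).2 := S.valid _ _ (hpos _)
        rw [move_eq hv, move_eq hv, ← h1, ← hd]
        exact h2.move hp
  exact (key t).1

theorem E_of_alike [NeZero n] {v : ZMod n → ℂ} (hv : BoundaryOrder v) {i j : ZMod n}
    (h : Alike v i j) : E (Sees v) (Sees v) i j := by
  intro W
  refine agree_of_take W fun t ht => ?_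
  rw [← run_eq hv W i ht, ← run_eq hv W j ht]
  exact deg_eq_of_run_eq (h (strat W) (W.length + 1)) (by omega)

theorem alike_iff [NeZero n] {v : ZMod n → ℂ} (hv : BoundaryOrder v)
    (hpos : ∀ i, 0 < degR (Sees v) i) {i j : ZMod n} :
    Alike v i j ↔ E (Sees v) (Sees v) i j :=
  ⟨E_of_alike hv, alike_of_E hv hpos⟩

/-- The number of cosets. -/
theorem ncard_cosets [NeZero n] {H : AddSubgroup (ZMod n)} {k : ℕ} (hk0 : 0 < k)
    (hk : ∀ a : ℤ, (a : ZMod n) ∈ H ↔ (k : ℤ) ∣ a) :
    (Set.range fun i : ZMod n => {j | j - i ∈ H}).ncard = k := by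
  have hmem : ∀ i j : ZMod n, i ∈ {l | l - j ∈ H} → {l | l - i ∈ H} = {l | l - j ∈ H} := by
    intro i j hij
    have hij' : i - j ∈ H := hij
    ext l
    constructor
    · intro hl
      have := H.add_mem hl hij'
      rwa [sub_add_sub_cancel] at this
    · intro hl
      have := H.sub_mem hl hij'
      rwa [sub_sub_sub_cancel_right] at this
  have himg : (Set.range fun i : ZMod n => {j | j - i ∈ H}) =
      (fun a : ℕ => {j : ZMod n | j - (a : ZMod n) ∈ H}) '' (Set.Iio k) := by
    ext s
    constructor
    · rintro ⟨i, rfl⟩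
      refine ⟨i.val % k, Nat.mod_lt _ hk0, ?_⟩
      refine hmem _ _ ?_
      show ((i.val % k : ℕ) : ZMod n) - i ∈ H
      have h1 : (((i.val % k : ℕ) : ℤ) - (i.val : ℤ) : ℤ) = -((i.val / k : ℕ) : ℤ) * k := by
        have := Nat.div_add_mod i.val k
        have h2 : ((k * (i.val / k) + i.val % k : ℕ) : ℤ) = (i.val : ℤ) := by exact_mod_cast this
        push_cast at h2 ⊢
        linarith
      have h3 := (hk (((i.val % k : ℕ) : ℤ) - (i.val : ℤ))).2 (by rw [h1]; exact Dvd.intro_left _ rfl)
      have h4 : ((((i.val % k : ℕ) : ℤ) - (i.val : ℤ) : ℤ) : ZMod n) =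
          ((i.val % k : ℕ) : ZMod n) - i := by
        rw [Int.cast_sub, Int.cast_natCast, Int.cast_natCast, ZMod.natCast_zmod_val]
      rwa [h4] at h3
    · rintro ⟨a, -, rfl⟩
      exact ⟨(a : ZMod n), rfl⟩
  rw [himg, Set.InjOn.ncard_image, ← Finset.coe_Iio, Set.ncard_coe_finset, Nat.card_Iio]
  intro a ha b hb hab
  have h1 : (a : ZMod n) ∈ {j : ZMod n | j - (a : ZMod n) ∈ H} := by
    show (a : ZMod n) - a ∈ H
    rw [sub_self]; exact H.zero_mem
  have hab' : {j : ZMod n | j - (a : ZMod n) ∈ H} = {j : ZMod n | j - (b : ZMod n) ∈ H} := hab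
  rw [hab'] at h1
  have h2 : ((((a : ℤ) - (b : ℤ)) : ℤ) : ZMod n) ∈ H := by
    push_cast; exact h1
  rw [hk] at h2
  have ha' : a < k := ha
  have hb' : b < k := hb
  obtain ⟨q, hq⟩ := h2
  have hq1 : -1 < q := by
    by_contra hcon
    push Not at hcon
    have : (k : ℤ) * q ≤ k * (-1) := mul_le_mul_of_nonneg_left hcon (by omega)
    omega
  have hq2 : q < 1 := by
    by_contra hcon
    push Not at hcon
    have : (k : ℤ) * 1 ≤ k * q := mul_le_mul_of_nonneg_left hcon (by omega)
    omega
  have : q = 0 := by omega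
  subst this
  omega

/-- Two relations with equivalent states form a family. -/
theorem fam_of_E (hn : 3 ≤ n) (hR : VisRel R) (hR' : VisRel R') {a b : ZMod n}
    (h : E R R' a b) {k : ℤ} (hk0 : 0 < k) (hkn : k ∣ n)
    (hk : ∀ a : ℤ, (a : ZMod n) ∈ periods (show 2 ≤ n by omega) hR ↔ k ∣ a) :
    Fam n k (fun s => unroll (cond s R (shiftR R' (b - a)))) := by
  have : NeZero n := ⟨by omega⟩
  have hn2 : 2 ≤ n := by omega
  set δ := b - a with hδ
  have hE : ∀ i, E R R' i (i + δ) := by
    intro i
    have := E.add hn2 hR hR' h (i - a)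
    have e1 : a + (i - a) = i := by ring
    have e2 : b + (i - a) = i + δ := by rw [hδ]; ring
    rwa [e1, e2] at this
  have hper : ∀ i, ∀ x ∈ periods hn2 hR, E R R i (i + x) := by
    intro i x hx
    rw [E_iff_sub_mem hn2 hR, add_sub_cancel_left]; exact hx
  have hper' : ∀ i, ∀ x ∈ periods hn2 hR, E R' R' (i + δ) (i + x + δ) := by
    intro i x hx
    exact ((hE i).symm.trans (hper i x hx)).trans (hE (i + x))
  have hback : ∀ j j', E R' R' (j + δ) (j' + δ) → j' - j ∈ periods hn2 hR := by
    intro j j' hj
    rw [← E_iff_sub_mem hn2 hR]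
    exact ((hE j).trans hj).trans (hE j').symm
  exact fam_of_comb hn hk0 hkn hk hR (visRel_shift hR' δ)
    (fun i => by rw [degR_shift]; exact ((hE i).deg).symm)
    (fun i p j j' hj hj' => by
      rw [isPortR_shift] at hj'
      have h1 : E R R' j (j' + δ) := (hE i).port hj hj'
      rw [← E_iff_sub_mem hn2 hR]
      exact h1.trans (hE j').symm)
    (fun i x hx => ((hper i x hx).deg).symm)
    (fun i p j j' x hx hj hj' => by
      rw [← E_iff_sub_mem hn2 hR]
      exact (hper i x hx).port hj hj')
    (fun i p j j' x hx hj hj' => by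
      rw [isPortR_shift] at hj hj'
      exact hback j j' ((hper' i x hx).port hj hj'))

/-- Families with one class. -/
theorem eq_of_fam_one (hn : 3 ≤ n) (hR : VisRel R) (hR' : VisRel R')
    (hF : Fam n 1 (fun s => unroll (cond s R R'))) (i j : ZMod n) : R' i j ↔ R i j := by
  have : NeZero n := ⟨by omega⟩
  -- matching offsets have equal cardinality
  have hcard : ∀ (S : ZMod n → ZMod n → Prop), (∀ i, ¬ S i i) → ∀ a : ℤ,
      degR S a = {o : ℤ | Fw n (unroll S) a o}.ncard := by
    intro S hS a
    have himg : {j | S a j} = (fun o : ℤ => ((a + o : ℤ) : ZMod n)) '' {o : ℤ | Fw n (unroll S) a o} := by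
      ext j
      constructor
      · intro hj
        obtain ⟨b, hb1, hb2, rfl⟩ := lift_lt a j
        refine ⟨b - a, ⟨?_, by omega, ?_⟩, ?_⟩
        · rcases hb1.lt_or_eq with hlt | heq
          · omega
          · subst heq; exact absurd hj (hS _)
        · show S _ _
          rw [add_sub_cancel]; exact hj
        · show ((a + (b - a) : ℤ) : ZMod n) = _
          rw [add_sub_cancel]
      · rintro ⟨o, ho, rfl⟩
        exact ho.2.2
    unfold degR
    rw [himg, Set.InjOn.ncard_image]
    intro o1 h1 o2 h2 h12
    have h3 : ((a + o1 : ℤ) : ZMod n) = ((a + o2 : ℤ) : ZMod n) := h12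
    have h4 := val_of_lt (n := n) (a := a) h1.1.le h1.2.1
    have h5 := val_of_lt (n := n) (a := a) h2.1.le h2.2.1
    rw [h3, h5] at h4
    have := h1.1
    have := h2.1
    omega
  have hm : ∀ {P P' : ℤ → Prop}, Match 1 P P' → {o | P o}.ncard = {o | P' o}.ncard := by
    rintro P P' ⟨φ, h1, h2, h3, h4⟩
    have himg : {o | P' o} = φ '' {o | P o} := by
      ext o
      constructor
      · intro ho
        obtain ⟨o1, ho1, he⟩ := h4 o ho
        exact ⟨o1, ho1, he⟩
      · rintro ⟨o1, ho1, rfl⟩
        exact h1 _ ho1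
    rw [himg, Set.InjOn.ncard_image]
    intro a ha b hb hab
    rcases lt_trichotomy a b with hlt | heq | hgt
    · have := h3 a b ha hb hlt; omega
    · exact heq
    · have := h3 b a hb ha hgt; omega
  have hreg : ∀ i, degR R i = degR R 0 := by
    intro i
    obtain ⟨a, -, -, rfl⟩ := lift_lt 0 i
    have h1 := hcard R hR.irrefl a
    have h2 := hcard R hR.irrefl 0
    rw [Int.cast_zero] at h2
    rw [h1, h2]
    exact (hm (hF.fw true true 0 a (one_dvd _))).symm
  have hreg' : ∀ i, degR R' i = degR R' 0 := by
    intro i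
    obtain ⟨a, -, -, rfl⟩ := lift_lt 0 i
    have h1 := hcard R' hR'.irrefl a
    have h2 := hcard R' hR'.irrefl 0
    rw [Int.cast_zero] at h2
    rw [h1, h2]
    exact (hm (hF.fw false false 0 a (one_dvd _))).symm
  constructor
  · intro hij
    exact complete_of_regular hn hR hreg (fun e => hR'.irrefl i (by rw [← e] at hij; exact hij))
  · intro hij
    exact complete_of_regular hn hR' hreg' (fun e => hR.irrefl i (by rw [← e] at hij; exact hij))

end Ag

end VisMap
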