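import Mathlib

/-!
# MP_9f3af0_lc, agent half: homing words for finite machines

`o q` is the output of the state `q`, `d q p` the state reached through the exit `p`, and the letter
`x` of a word means : take the exit `x % o q`.
-/

namespace VisMap

namespace Ag

variable {Q : Type*} (o : Q → ℕ) (d : Q → ℕ → Q)

/-- One step: the letter `x` is read as the exit `x % o q`. -/
def step (q : Q) (x : ℕ) : Q := d q (x % o q)

/-- The state reached from `q` along the word `W`. -/
def go (q : Q) (W : List ℕ) : Q := W.foldl (step o d) q

/-- The states `q`, `q'` show equal outputs along the word `W`. -/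
def Agree : List ℕ → Q → Q → Prop
  | [], q, q' => o q = o q'
  | x :: W, q, q' => o q = o q' ∧ Agree W (step o d q x) (step o d q' x)

/-- The states `q`, `q'` show equal outputs along all words. -/
def Eqv (q q' : Q) : Prop := ∀ W, Agree o d W q q'

variable {o d}

theorem agree_append (W V : List ℕ) (q q' : Q) :
    Agree o d (W ++ V) q q' ↔ Agree o d W q q' ∧ Agree o d V (go o d q W) (go o d q' W) := by
  induction W generalizing q q' with
  | nil =>
    simp only [List.nil_append, go, List.foldl_nil, Agree]
    constructor
    · intro h
      refine ⟨?_, h⟩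
      cases V with
      | nil => exact h
      | cons x V => exact h.1
    · exact fun h => h.2
  | cons x W ih =>
    simp only [List.cons_append, Agree, ih, go, List.foldl_cons, and_assoc]

theorem Eqv.out {q q' : Q} (h : Eqv o d q q') : o q = o q' := h []

theorem Eqv.step {q q' : Q} (h : Eqv o d q q') (x : ℕ) :
    Eqv o d (step o d q x) (Ag.step o d q' x) := fun W => (h (x :: W)).2

theorem Eqv.move {q q' : Q} (h : Eqv o d q q') {p : ℕ} (hp : p < o q) :
    Eqv o d (d q p) (d q' p) := by
  have h1 := h.step p
  have h2 : p < o q' := h.out ▸ hp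
  simpa only [Ag.step, Nat.mod_eq_of_lt hp, Nat.mod_eq_of_lt h2] using h1

theorem agree_refl (W : List ℕ) (q : Q) : Agree o d W q q := by
  induction W generalizing q with
  | nil => rfl
  | cons x W ih => exact ⟨rfl, ih _⟩

theorem agree_symm (W : List ℕ) {q q' : Q} (h : Agree o d W q q') : Agree o d W q' q := by
  induction W generalizing q q' with
  | nil => exact Eq.symm h
  | cons x W ih => exact ⟨h.1.symm, ih h.2⟩

theorem agree_trans (W : List ℕ) {q q' q'' : Q} (h : Agree o d W q q')
    (h' : Agree o d W q' q'') : Agree o d W q q'' := by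
  induction W generalizing q q' q'' with
  | nil => exact Eq.trans h h'
  | cons x W ih => exact ⟨h.1.trans h'.1, ih h.2 h'.2⟩

theorem Eqv.refl (q : Q) : Eqv o d q q := fun W => agree_refl W q

theorem Eqv.symm {q q' : Q} (h : Eqv o d q q') : Eqv o d q' q := fun W => agree_symm W (h W)

theorem Eqv.trans {q q' q'' : Q} (h : Eqv o d q q') (h' : Eqv o d q' q'') : Eqv o d q q'' :=
  fun W => agree_trans W (h W) (h' W)

/-- Homing word: there is a word such that two states with equal outputs along it reach
equivalent states.  (Minimise the number of pairs with equal outputs along the word.) -/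
theorem exists_homing [Finite Q] :
    ∃ W : List ℕ, ∀ q q', Agree o d W q q' → Eqv o d (go o d q W) (go o d q' W) := by
  classical
  obtain ⟨W, -, hW⟩ := WellFounded.has_min
    (InvImage.wf (fun W : List ℕ => Set.ncard {p : Q × Q | Agree o d W p.1 p.2}) wellFounded_lt)
    Set.univ ⟨[], trivial⟩
  refine ⟨W, fun q q' h V => ?_⟩
  by_contra hV
  refine hW (W ++ V) trivial ?_
  refine Set.ncard_lt_ncard ?_ (Set.toFinite _)
  refine ⟨fun p hp => ((agree_append W V _ _).1 hp).1, fun hsub => ?_⟩
  have h1 : (q, q') ∈ {p : Q × Q | Agree o d (W ++ V) p.1 p.2} := hsub h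
  exact hV ((agree_append W V _ _).1 h1).2

/-- Equal outputs at all prefixes give `Agree`. -/
theorem agree_of_take (W : List ℕ) {q q' : Q}
    (h : ∀ t, t ≤ W.length → o (go o d q (W.take t)) = o (go o d q' (W.take t))) :
    Agree o d W q q' := by
  induction W generalizing q q' with
  | nil => exact h 0 (Nat.zero_le _)
  | cons x W ih =>
    refine ⟨h 0 (Nat.zero_le _), ih fun t ht => ?_⟩
    exact h (t + 1) (by simpa using ht)

theorem go_take_succ (W : List ℕ) (q : Q) {t : ℕ} (ht : t < W.length) :
    go o d q (W.take (t + 1)) = step o d (go o d q (W.take t)) (W.getD t 0) := by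
  rw [List.take_succ_eq_append_getElem ht, List.getD_eq_getElem _ _ ht]
  simp only [go, List.foldl_append, List.foldl_cons, List.foldl_nil]

end Ag

end VisMap
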