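import Pool.Agent.Lib.MP_9f3af0_lc.Defs

/-!
# The angle `ang v i j` and directions

`ang_of_dir`: `(v j - v i) / (v (i+1) - v i) = l * exp (φ I)`, its argument is `φ` modulo `2π`
(`Complex.arg_mul_cos_add_sin_mul_I_eq_toIocMod` or `Complex.arg_real_mul`, `Complex.arg_exp_mul_I`), and
`toIcoMod` of it in `[0, 2π)` is `φ`.
`dir_of_ang`: `z = ‖z‖ exp (arg z I)` for `z = (v j - v i) / (v (i+1) - v i)`, and `arg z` and `ang v i j` differ by a
multiple of `2π` (`toIcoMod`, `self_sub_toIcoMod`), so they have the same exponential.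
-/

namespace VisMap

open Complex

theorem ang_nonneg {n : ℕ} (v : ZMod n → ℂ) (i j : ZMod n) : 0 ≤ ang v i j :=
  left_le_toIcoMod Real.two_pi_pos 0 _

theorem ang_lt {n : ℕ} (v : ZMod n → ℂ) (i j : ZMod n) : ang v i j < 2 * Real.pi := by
  have h := toIcoMod_lt_right Real.two_pi_pos 0
    (Complex.arg ((v j - v i) / (v (i + 1) - v i)))
  rwa [zero_add] at h

theorem ang_of_dir {n : ℕ} {v : ZMod n → ℂ} {i j : ZMod n} {φ l : ℝ} (h0 : 0 ≤ φ)
    (h1 : φ < 2 * Real.pi) (hl : 0 < l) (hd : v (i + 1) ≠ v i)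
    (h : v j - v i = l * exp (φ * I) * (v (i + 1) - v i)) : ang v i j = φ := by
  have hz : v (i + 1) - v i ≠ 0 := sub_ne_zero.2 hd
  have h2 : (v j - v i) / (v (i + 1) - v i) = (l : ℂ) * exp (φ * I) := by
    rw [h, mul_div_assoc, div_self hz, mul_one]
  unfold ang
  rw [h2, Complex.arg_real_mul _ hl, Complex.arg_exp_mul_I, toIcoMod_toIocMod]
  rw [toIcoMod_eq_self]
  exact ⟨h0, by rwa [zero_add]⟩

theorem dir_of_ang {n : ℕ} {v : ZMod n → ℂ} {i j : ZMod n} (hd : v (i + 1) ≠ v i)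
    (hj : v j ≠ v i) : ∃ l : ℝ, 0 < l ∧ v j - v i = l * exp (ang v i j * I) * (v (i + 1) - v i) := by
  have hz : v (i + 1) - v i ≠ 0 := sub_ne_zero.2 hd
  have hw : v j - v i ≠ 0 := sub_ne_zero.2 hj
  have hq : (v j - v i) / (v (i + 1) - v i) ≠ 0 := div_ne_zero hw hz
  refine ⟨‖(v j - v i) / (v (i + 1) - v i)‖, norm_pos_iff.2 hq, ?_⟩
  have h1 : exp ((ang v i j : ℝ) * I) =
      exp ((Complex.arg ((v j - v i) / (v (i + 1) - v i)) : ℝ) * I) := by
    rw [Complex.exp_eq_exp_iff_exists_int]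
    refine ⟨-toIcoDiv Real.two_pi_pos 0 (Complex.arg ((v j - v i) / (v (i + 1) - v i))), ?_⟩
    have h2 := self_sub_toIcoDiv_zsmul Real.two_pi_pos 0
      (Complex.arg ((v j - v i) / (v (i + 1) - v i)))
    unfold ang
    rw [← h2]
    push_cast [zsmul_eq_mul]
    ring
  rw [h1, Complex.norm_mul_exp_arg_mul_I, div_mul_cancel₀ _ hz]

end VisMap
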