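import Pool.Agent.Lib.MP_9f3af0_lc.Defs

/-!
# Internal definitions for the geometric half: chains of segments, ray parity, simple polygons
indexed by natural numbers
-/

namespace VisMap

open Set

/-- The determinant of two plane vectors; `0 < det p q` means that `q` is strictly to the left of `p`. -/
def det (p q : ℂ) : ℝ := p.re * q.im - p.im * q.re

open Classical in
/-- Crossing indicator: the vertical ray going up from `z` crosses the segment from `a` to `b`
(half-open rule: the left end point counts, the right one does not). -/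
noncomputable def cr (a b z : ℂ) : ZMod 2 :=
  if (a.re ≤ z.re ∧ z.re < b.re ∧ det (b - a) (z - a) < 0) ∨
     (b.re ≤ z.re ∧ z.re < a.re ∧ 0 < det (b - a) (z - a)) then 1 else 0

open Classical in
/-- The contribution of the end point `a` to the variation of the crossing parity near `z0`. -/
noncomputable def gg (z0 a z : ℂ) : ZMod 2 :=
  if a.re = z0.re ∧ z0.im < a.im ∧ a.re ≤ z.re then 1 else 0

/-- Crossing parity of a chain (a list of segments). -/
noncomputable def par (L : List (ℂ × ℂ)) (z : ℂ) : ZMod 2 := (L.map fun e => cr e.1 e.2 z).sum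

/-- The trace of a chain: the union of its segments. -/
def tr (L : List (ℂ × ℂ)) : Set ℂ := {x | ∃ e ∈ L, x ∈ segment ℝ e.1 e.2}

/-- A chain is closed (a cycle modulo 2): every point is an end point an even number of times. -/
def Closed (L : List (ℂ × ℂ)) : Prop :=
  ∀ g : ℂ → ZMod 2, (L.map fun e => g e.1 + g e.2).sum = 0

/-- The chain of the consecutive segments `[u k, u (k+1)]`, `a ≤ k < b`. -/
def pc (u : ℕ → ℂ) (a b : ℕ) : List (ℂ × ℂ) := (List.Ico a b).map fun k => (u k, u (k + 1))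

/-- Simple closed polygon with vertices `u 0, …, u (N-1)`, `u N = u 0`. -/
structure SP (N : ℕ) (u : ℕ → ℂ) : Prop where
  three : 3 ≤ N
  per : u N = u 0
  inj : ∀ j k, j < N → k < N → u j = u k → j = k
  adj : ∀ k, k + 1 < N →
    segment ℝ (u k) (u (k + 1)) ∩ segment ℝ (u (k + 1)) (u (k + 2)) = {u (k + 1)}
  adj0 : segment ℝ (u (N - 1)) (u N) ∩ segment ℝ (u 0) (u 1) = {u 0}
  disj : ∀ j k, j + 1 < k → k < N → ¬ (j = 0 ∧ k + 1 = N) →
    Disjoint (segment ℝ (u j) (u (j + 1))) (segment ℝ (u k) (u (k + 1)))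

/-- The boundary curve of the polygon `u` with `N` vertices. -/
def TT (N : ℕ) (u : ℕ → ℂ) : Set ℂ := tr (pc u 0 N)

/-- What we need from the Jordan curve theorem for the closed curve `TT N u`. -/
structure Jordan (N : ℕ) (u : ℕ → ℂ) : Prop where
  sub : TT N u ⊆ reg (TT N u)
  inn : ∀ z ∈ reg (TT N u), z ∉ TT N u → par (pc u 0 N) z = 1
  out : ∀ z, z ∉ reg (TT N u) → par (pc u 0 N) z = 0
  acc : ∀ t ∈ TT N u, t ∈ closure (reg (TT N u))ᶜ
  accI : ∀ t ∈ TT N u, t ∈ closure (reg (TT N u) \ TT N u)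
  closed : IsClosed (reg (TT N u))
  bdd : Bornology.IsBounded (reg (TT N u))

/-- The two chains from `u 0` to the boundary point `β` of the edge `j` (without the cut). -/
def chA (u : ℕ → ℂ) (j : ℕ) (β : ℂ) : List (ℂ × ℂ) := pc u 0 j ++ [(u j, β)]

/-- The chain from the boundary point `β` of the edge `j` on to `u N = u 0` (without the cut). -/
def chB (N : ℕ) (u : ℕ → ℂ) (j : ℕ) (β : ℂ) : List (ℂ × ℂ) := (β, u (j + 1)) :: pc u (j + 1) N

/-- The vertices of the polygon `v` counted from the vertex `i`. -/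
def sq {n : ℕ} (v : ZMod n → ℂ) (i : ZMod n) : ℕ → ℂ := fun k => v (i + k)

theorem mem_tr {L : List (ℂ × ℂ)} {x : ℂ} : x ∈ tr L ↔ ∃ e ∈ L, x ∈ segment ℝ e.1 e.2 := Iff.rfl

theorem mem_tr_pc {u : ℕ → ℂ} {a b : ℕ} {x : ℂ} :
    x ∈ tr (pc u a b) ↔ ∃ k, a ≤ k ∧ k < b ∧ x ∈ segment ℝ (u k) (u (k + 1)) := by
  constructor
  · rintro ⟨e, he, hx⟩
    obtain ⟨k, hk, rfl⟩ := List.mem_map.1 he
    rw [List.Ico.mem] at hk
    exact ⟨k, hk.1, hk.2, hx⟩
  · rintro ⟨k, hk1, hk2, hx⟩
    exact ⟨(u k, u (k + 1)), List.mem_map.2 ⟨k, List.Ico.mem.2 ⟨hk1, hk2⟩, rfl⟩, hx⟩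

theorem mem_TT {N : ℕ} {u : ℕ → ℂ} {x : ℂ} :
    x ∈ TT N u ↔ ∃ k < N, x ∈ segment ℝ (u k) (u (k + 1)) := by
  rw [TT, mem_tr_pc]
  constructor
  · rintro ⟨k, -, hk, hx⟩; exact ⟨k, hk, hx⟩
  · rintro ⟨k, hk, hx⟩; exact ⟨k, Nat.zero_le _, hk, hx⟩

theorem tr_append (L L' : List (ℂ × ℂ)) : tr (L ++ L') = tr L ∪ tr L' := by
  ext x; simp only [mem_tr, List.mem_append, mem_union]
  constructor
  · rintro ⟨e, he | he, hx⟩
    · exact Or.inl ⟨e, he, hx⟩
    · exact Or.inr ⟨e, he, hx⟩
  · rintro (⟨e, he, hx⟩ | ⟨e, he, hx⟩)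
    · exact ⟨e, Or.inl he, hx⟩
    · exact ⟨e, Or.inr he, hx⟩

theorem tr_cons (e : ℂ × ℂ) (L : List (ℂ × ℂ)) : tr (e :: L) = segment ℝ e.1 e.2 ∪ tr L := by
  ext x; simp only [mem_tr, List.mem_cons, mem_union]
  constructor
  · rintro ⟨e', rfl | he, hx⟩
    · exact Or.inl hx
    · exact Or.inr ⟨e', he, hx⟩
  · rintro (hx | ⟨e', he, hx⟩)
    · exact ⟨e, Or.inl rfl, hx⟩
    · exact ⟨e', Or.inr he, hx⟩

theorem tr_nil : tr [] = ∅ := by
  ext x; simp [mem_tr]

theorem par_append (L L' : List (ℂ × ℂ)) (z : ℂ) : par (L ++ L') z = par L z + par L' z := by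
  simp [par]

theorem par_cons (e : ℂ × ℂ) (L : List (ℂ × ℂ)) (z : ℂ) : par (e :: L) z = cr e.1 e.2 z + par L z := by
  simp [par]

theorem par_nil (z : ℂ) : par [] z = 0 := by
  simp [par]

theorem par_perm {L L' : List (ℂ × ℂ)} (h : L.Perm L') (z : ℂ) : par L z = par L' z := by
  unfold par; exact (h.map _).sum_eq

theorem Closed.perm {L L' : List (ℂ × ℂ)} (h : L.Perm L') (hL : Closed L) : Closed L' := by
  intro g; rw [← (h.map _).sum_eq]; exact hL g

/-- The mod 2 boundary of a path is the sum of its end points. -/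
theorem bdry_pc (u : ℕ → ℂ) (g : ℂ → ZMod 2) {a b : ℕ} (hab : a ≤ b) :
    ((pc u a b).map fun e => g e.1 + g e.2).sum = g (u a) + g (u b) := by
  obtain ⟨m, rfl⟩ := Nat.exists_eq_add_of_le hab
  induction m with
  | zero => simp [pc, CharTwo.add_self_eq_zero]
  | succ m ih =>
    have h1 := ih (Nat.le_add_right _ _)
    have h2 : List.Ico a (a + (m + 1)) = List.Ico a (a + m) ++ [a + m] := by
      rw [← Nat.add_assoc]; exact List.Ico.succ_top (Nat.le_add_right _ _)
    simp only [pc, h2, List.map_append, List.map_cons, List.map_nil, List.sum_append] at h1 ⊢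
    rw [h1]
    simp only [List.sum_cons, List.sum_nil, Nat.add_assoc]
    have h3 : g (u (a + m)) + g (u (a + m)) = 0 := CharTwo.add_self_eq_zero _
    linear_combination h3

theorem closed_pc {N : ℕ} {u : ℕ → ℂ} (h : SP N u) : Closed (pc u 0 N) := by
  intro g
  rw [bdry_pc u g (Nat.zero_le _), h.per]
  exact CharTwo.add_self_eq_zero _

theorem isClosed_tr (L : List (ℂ × ℂ)) : IsClosed (tr L) := by
  induction L with
  | nil => rw [tr_nil]; exact isClosed_empty
  | cons e L ih =>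
    rw [tr_cons]
    refine IsClosed.union ?_ ih
    rw [segment_eq_image]
    exact (isCompact_Icc.image (by fun_prop)).isClosed

theorem isBounded_tr (L : List (ℂ × ℂ)) : Bornology.IsBounded (tr L) := by
  induction L with
  | nil => rw [tr_nil]; exact Bornology.isBounded_empty
  | cons e L ih =>
    rw [tr_cons]
    refine Bornology.IsBounded.union ?_ ih
    rw [segment_eq_image]
    exact (isCompact_Icc.image (by fun_prop)).isBounded

end VisMap
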