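import Pool.Agent.Lib.MP_9f3af0_lc.AgFam

/-!
# MP_9f3af0_lc: the clique case

Two relations with the properties `VisRel` and equal words modulo `k` are equal if one class modulo `k`
is a clique of mutually visible vertices (paper 613).
-/

namespace VisMap

namespace Clq

variable {n : ℕ}

theorem nc_right {r : ℤ → ℤ → Prop} (h : ZRel n r) {i s t b a' : ℤ} (h0 : i < s)
    (h1 : s < t) (h2 : t < i + n) (hs : r i s) (ht : r i t) (hm : ∀ m, s < m → m < t → ¬ r i m)
    (_ : s < b) (hbt : b < t) (hta : t < a') (han : a' ≤ i + n) (hab : r a' b) :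
    ∀ x y, i ≤ x → x < s → s < y → y ≤ b → ¬ r x y := by
  obtain ⟨c, hc1, hc2, hc3, hc4⟩ := h.nc i s t h0 h1 h2 hs ht hm
  have hbc : b ≤ c := by
    by_contra hc
    exact hc4 a' b hta han (by omega) hbt hab
  exact fun x y hx1 hx2 hy1 hy2 => hc3 x y hx1 hx2 hy1 (by omega)

/-- A line does not leave a pocket twice through the same chord. -/
theorem no_double_exit {r : ℤ → ℤ → Prop} (h : ZRel n r) {a b p r0 : ℤ} (hap : a < p)
    (hpr : p < r0) (hrb : r0 < b) (hba : b < a + n) (hab : r a b) (hpr' : r p r0)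
    (h1 : ∀ x, r0 < x → x ≤ b → ¬ r p x) (h2 : ∀ x, a ≤ x → x < p → ¬ r r0 x) : False := by
  have hz := ZR.of_zRel h
  have hab' : r (a + n) b := (hz.per _ _).2 hab
  -- the ascending chain
  have key : ∀ N : ℕ, ∀ q s : ℤ, (b - s).toNat ≤ N → p ≤ q → q < s → r0 ≤ s → s < b →
      (∀ x, a ≤ x → x < q → ¬ r s x) → (∀ y x, s < y → y ≤ b → p ≤ x → x < s → ¬ r y x) →
      (∃ y, b < y ∧ y < a + n ∧ r s y) → False := by
    intro N
    induction N with
    | zero =>
      intro q s hN _ _ _ hsb
      omega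
    | succ N ih =>
      intro q s hN hpq hqs hrs hsb hii hiii hiv
      obtain ⟨s', hs1, hs2, hs3, hs4⟩ := exists_last (p := fun z => r s z) (a := s + 1) (b := b)
        (by omega) (h.succ s)
      obtain ⟨z, hz1, hz2, hz3, hz4⟩ := exists_last (p := fun z => r s' z) (a := s' + 1)
        (b := s + n - 1) (by omega) (h.succ s')
      have hsz : r s z := by
        have hss : r s' (s + n) := (hz.perR _ _).2 (h.symm _ _ hs3)
        have := h.cn s' z (s + n) (by omega) (by omega) (by omega) hz3 hss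
          (fun m hm1 hm2 => hz4 m hm1 (by omega))
        exact h.symm _ _ ((hz.perR _ _).1 this)
      have hzb : b < z := by
        by_contra hc
        exact hs4 z (by omega) (by omega) hsz
      have hza : z < a + n := by
        by_contra hc
        rcases lt_or_ge z (p + n) with hlt | hge
        · refine hii (z - n) (by omega) (by omega) ?_
          have := hz.perR s (z - n)
          rw [sub_add_cancel] at this
          exact this.1 hsz
        · refine hiii s' (z - n) (by omega) hs2 (by omega) (by omega) ?_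
          have := hz.perR s' (z - n)
          rw [sub_add_cancel] at this
          exact this.1 hz3
      have hsb' : s' < b := by
        rcases hs2.lt_or_eq with hlt | heq
        · exact hlt
        · exfalso
          subst heq
          exact hz4 (a + n) (by omega) (by omega) (h.symm _ _ hab')
      refine ih s s' (by omega) (by omega) (by omega) (by omega) hsb' ?_ ?_ ⟨z, hzb, hza, hz3⟩
      · intro x hx1 hx2 hx3
        exact hz4 (x + n) (by omega) (by omega) ((hz.perR _ _).2 hx3)
      · intro y x hy1 hy2 hx1 hx2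
        rcases lt_or_ge x s with hlt | hge
        · exact hiii y x (by omega) hy2 hx1 hlt
        · obtain ⟨y1, hy11, hy12, hy13⟩ := hiv
          obtain ⟨y0, hy01, hy02, hy03, hy04⟩ := exists_first (p := fun z => r s z) (a := s' + 1)
            (b := y1) (by omega) hy13
          have hy0b : b < y0 := by
            by_contra hc
            exact hs4 y0 (by omega) (by omega) hy03
          intro hyx
          exact nc_right h (i := s) (s := s') (t := y0) (b := b) (a' := a + n) (by omega)
            (by omega) (by omega) hs3 hy03 (fun m hm1 hm2 => hy04 m (by omega) hm2) hsb' hy0b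
            (by omega) (by omega) hab' x y hge hx2 hy1 hy2 (h.symm _ _ hyx)
  -- the first exit
  obtain ⟨x, hx1, hx2, hx3, hx4⟩ := exists_first (p := fun z => r p z) (a := r0 + 1)
    (b := p + n - 1) (by omega) (hz.last p)
  have hxb : b < x := by
    by_contra hc
    exact h1 x (by omega) (by omega) hx3
  have hrx : r r0 x := h.cn p r0 x hpr (by omega) (by omega) hpr' hx3
    (fun m hm1 hm2 => hx4 m (by omega) hm2)
  have hxa : x < a + n := by
    by_contra hc
    refine h2 (x - n) (by omega) (by omega) ?_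
    have := hz.perR r0 (x - n)
    rw [sub_add_cancel] at this
    exact this.1 hrx
  refine key (b - r0).toNat p r0 le_rfl le_rfl hpr le_rfl hrb h2 ?_ ⟨x, hxb, hxa, hrx⟩
  intro y z hy1 hy2 hz1 hz2 hyz
  exact nc_right h (i := p) (s := r0) (t := x) (b := b) (a' := a + n) hpr (by omega) (by omega)
    hpr' hx3 (fun m hm1 hm2 => hx4 m (by omega) hm2) hrb hxb (by omega) (by omega) hab' z y hz1
    hz2 hy1 hy2 (h.symm _ _ hyz)

/-! ### Order isomorphisms -/

/-- `φ` is an order isomorphism from `P` onto `P'` preserving residues. -/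
structure IsM (k : ℤ) (P P' : ℤ → Prop) (φ : ℤ → ℤ) : Prop where
  map : ∀ o, P o → P' (φ o)
  res : ∀ o, P o → k ∣ φ o - o
  mono : ∀ a b, P a → P b → a < b → φ a < φ b
  surj : ∀ o', P' o' → ∃ o, P o ∧ φ o = o'

theorem exists_isM {k : ℤ} {P P' : ℤ → Prop} (h : Match k P P') : ∃ φ, IsM k P P' φ := by
  obtain ⟨φ, h1, h2, h3, h4⟩ := h
  exact ⟨φ, h1, h2, h3, h4⟩

/-- An order isomorphism of a set of positive integers onto itself is the identity. -/
theorem fixZ {Z : ℤ → Prop} {φ : ℤ → ℤ} (hpos : ∀ o, Z o → 0 < o) (h1 : ∀ o, Z o → Z (φ o))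
    (h3 : ∀ a b, Z a → Z b → a < b → φ a < φ b) (h4 : ∀ o', Z o' → ∃ o, Z o ∧ φ o = o') :
    ∀ o, Z o → φ o = o := by
  have key : ∀ N : ℕ, ∀ o : ℤ, o.toNat ≤ N → Z o → φ o = o := by
    intro N
    induction N with
    | zero =>
      intro o ho hZ
      have := hpos o hZ
      omega
    | succ N ih =>
      intro o ho hZ
      rcases lt_trichotomy (φ o) o with hlt | heq | hgt
      · have h5 := h1 o hZ
        have h6 := ih (φ o) (by have := hpos _ h5; omega) h5
        have h7 := h3 _ _ h5 hZ hlt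
        omega
      · exact heq
      · obtain ⟨o2, ho2, he⟩ := h4 o hZ
        rcases lt_trichotomy o2 o with hlt | heq | hgt2
        · have h6 := ih o2 (by have := hpos _ ho2; omega) ho2
          omega
        · rw [heq] at he; exact he
        · have := h3 _ _ hZ ho2 hgt2
          omega
  exact fun o hZ => key _ o le_rfl hZ

variable {k : ℤ} {P P' : ℤ → Prop} {φ : ℤ → ℤ}

theorem IsM.inj (h : IsM k P P' φ) {a b : ℤ} (ha : P a) (hb : P b) (hab : φ a = φ b) : a = b := by
  rcases lt_trichotomy a b with hlt | heq | hgt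
  · have := h.mono _ _ ha hb hlt; omega
  · exact heq
  · have := h.mono _ _ hb ha hgt; omega

theorem IsM.lt_iff (h : IsM k P P' φ) {a b : ℤ} (ha : P a) (hb : P b) : φ a < φ b ↔ a < b := by
  constructor
  · intro hl
    by_contra hc
    push Not at hc
    rcases hc.lt_or_eq with hlt | heq
    · have := h.mono _ _ hb ha hlt; omega
    · rw [heq] at hl; omega
  · exact h.mono _ _ ha hb

/-- Initial agreement. -/
theorem IsM.fix_le (h : IsM k P P' φ) (hpos : ∀ o, P o → 0 < o) {d : ℤ}
    (hag : ∀ o, o ≤ d → (P o ↔ P' o)) : ∀ o, o ≤ d → P o → φ o = o := by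
  have key : ∀ N : ℕ, ∀ o : ℤ, o.toNat ≤ N → o ≤ d → P o → φ o = o := by
    intro N
    induction N with
    | zero =>
      intro o ho hod hP
      have := hpos o hP
      omega
    | succ N ih =>
      intro o ho hod hP
      rcases lt_trichotomy (φ o) o with hlt | heq | hgt
      · have h5 : P (φ o) := (hag _ (by omega)).2 (h.map o hP)
        have h6 := ih (φ o) (by have := hpos _ h5; omega) (by omega) h5
        have h7 := h.mono _ _ h5 hP hlt
        omega
      · exact heq
      · obtain ⟨o2, ho2, he⟩ := h.surj o ((hag o hod).1 hP)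
        rcases lt_trichotomy o2 o with hlt | heq | hgt2
        · have h6 := ih o2 (by have := hpos _ ho2; omega) (by omega) ho2
          omega
        · rw [heq] at he; exact he
        · have := h.mono _ _ hP ho2 hgt2
          omega
  exact fun o hod hP => key _ o le_rfl hod hP

/-- Final agreement. -/
theorem IsM.fix_ge (h : IsM k P P' φ) {B : ℤ} (hB : ∀ o, P o → o < B) {d : ℤ}
    (hag : ∀ o, d ≤ o → (P o ↔ P' o)) : ∀ o, d ≤ o → P o → φ o = o := by
  have h' : IsM k (fun o => P (B - o)) (fun o => P' (B - o)) (fun o => B - φ (B - o)) := by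
    refine ⟨fun o ho => ?_, fun o ho => ?_, fun a b ha hb hab => ?_, fun o ho => ?_⟩
    · show P' (B - (B - φ (B - o)))
      rw [sub_sub_cancel]; exact h.map _ ho
    · have := h.res _ ho
      have e : B - φ (B - o) - o = -(φ (B - o) - (B - o)) := by ring
      rw [e]; exact (dvd_neg).2 this
    · have := h.mono _ _ hb ha (by omega)
      show B - φ (B - a) < B - φ (B - b)
      omega
    · obtain ⟨o', ho', he⟩ := h.surj _ ho
      refine ⟨B - o', ?_, ?_⟩
      · show P (B - (B - o'))
        rw [sub_sub_cancel]; exact ho'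
      · show B - φ (B - (B - o')) = o
        rw [sub_sub_cancel, he]; ring
  intro o hod hP
  have := h'.fix_le (d := B - d) (fun o ho => by have := hB _ ho; omega)
    (fun o ho => hag (B - o) (by omega)) (B - o) (by omega) (by
      show P (B - (B - o))
      rw [sub_sub_cancel]; exact hP)
  have h2 : B - φ (B - (B - o)) = B - o := this
  rw [sub_sub_cancel] at h2
  omega

/-- `x` separates: `φ` preserves the elements beyond `x`. -/
def Sep (P : ℤ → Prop) (φ : ℤ → ℤ) (x : ℤ) : Prop := ∀ o, P o → (x < o ↔ x < φ o)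

/-- `y` separates from the left. -/
def SepL (P : ℤ → Prop) (φ : ℤ → ℤ) (y : ℤ) : Prop := ∀ o, P o → (o < y ↔ φ o < y)

theorem IsM.sep_fix (h : IsM k P P' φ) {x : ℤ} (hx : P x) (hf : φ x = x) : Sep P φ x := by
  intro o ho
  rw [← h.lt_iff hx ho, hf]

theorem IsM.sepL_fix (h : IsM k P P' φ) {x : ℤ} (hx : P x) (hf : φ x = x) : SepL P φ x := by
  intro o ho
  rw [← h.lt_iff ho hx, hf]

theorem IsM.sep_agree (h : IsM k P P' φ) (hpos : ∀ o, P o → 0 < o) {x : ℤ}
    (hag : ∀ o, o ≤ x → (P o ↔ P' o)) : Sep P φ x := by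
  intro o ho
  constructor
  · intro hxo
    by_contra hc
    have h1 : P (φ o) := (hag _ (by omega)).2 (h.map o ho)
    have h2 := h.fix_le hpos hag (φ o) (by omega) h1
    have h3 := h.inj h1 ho h2
    omega
  · intro hxo
    by_contra hc
    have := h.fix_le hpos hag o (by omega) ho
    omega

theorem IsM.sepL_agree (h : IsM k P P' φ) {B : ℤ} (hB : ∀ o, P o → o < B) {x : ℤ}
    (hag : ∀ o, x ≤ o → (P o ↔ P' o)) : SepL P φ x := by
  intro o ho
  constructor
  · intro hxo
    by_contra hc
    have h1 : P (φ o) := (hag _ (by omega)).2 (h.map o ho)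
    have h2 := h.fix_ge hB hag (φ o) (by omega) h1
    have h3 := h.inj h1 ho h2
    omega
  · intro hxo
    by_contra hc
    have := h.fix_ge hB hag o (by omega) ho
    omega

theorem eq_of_window {o o' e : ℤ} (hk : k ∣ o' - o) (h1 : e < o) (h2 : o < e + k) (h1' : e < o')
    (h2' : o' < e + k) : o' = o := by
  obtain ⟨c, hc⟩ := hk
  have hk0 : 0 < k := by omega
  have hc1 : c < 1 := by
    by_contra hcc
    have : k * 1 ≤ k * c := mul_le_mul_of_nonneg_left (by omega) hk0.le
    omega
  have hc2 : -1 < c := by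
    by_contra hcc
    have : k * c ≤ k * (-1) := mul_le_mul_of_nonneg_left (by omega) hk0.le
    omega
  have : c = 0 := by omega
  rw [this] at hc
  omega

/-- The window lemma. -/
theorem IsM.window (h : IsM k P P' φ) {x y e : ℤ} (hx : Sep P φ x) (hy : SepL P φ y)
    (hP : ∀ o, x < o → o < y → P o → e < o ∧ o < e + k)
    (hP' : ∀ o, x < o → o < y → P' o → e < o ∧ o < e + k) :
    ∀ o, x < o → o < y → (P o ↔ P' o) := by
  have key : ∀ o, x < o → o < y → P o → φ o = o := by
    intro o h1 h2 ho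
    have a1 := (hx o ho).1 h1
    have a2 := (hy o ho).1 h2
    obtain ⟨b1, b2⟩ := hP o h1 h2 ho
    obtain ⟨b3, b4⟩ := hP' _ a1 a2 (h.map o ho)
    exact eq_of_window (h.res o ho) b1 b2 b3 b4
  intro o h1 h2
  constructor
  · intro ho
    have := h.map o ho
    rwa [key o h1 h2 ho] at this
  · intro ho
    obtain ⟨o1, ho1, he⟩ := h.surj o ho
    have a1 := (hx o1 ho1).2 (by omega)
    have a2 := (hy o1 ho1).2 (by omega)
    have := key o1 a1 a2 ho1
    have e1 : o1 = o := by omega
    rwa [e1] at ho1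

/-! ### Two relations with the same words -/

/-- Two relations with the properties `ZRel` and the same words modulo `k`. -/
structure Two (n : ℕ) (k : ℤ) (r : Bool → ℤ → ℤ → Prop) : Prop where
  three : 3 ≤ n
  kpos : 0 < k
  dvd : k ∣ n
  zrel : ∀ s, ZRel n (r s)
  fw : ∀ s s' i, Match k (Fw n (r s) i) (Fw n (r s') i)

theorem Two.of_fam {r : Bool → ℤ → ℤ → Prop} (h : Fam n k r) : Two n k r :=
  ⟨h.three, h.kpos, h.dvd, h.zrel, fun s s' i => h.fw s s' i i (by simp)⟩

variable {r : Bool → ℤ → ℤ → Prop}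

theorem Two.zr (h : Two n k r) (s : Bool) : ZR n (r s) := ZR.of_zRel (h.zrel s)

theorem step {a b α : ℤ} (ha : k ∣ a - α) (hb : k ∣ b - α) (hab : a < b) : a + k ≤ b := by
  have h1 := dvd_sub hb ha
  have e : b - α - (a - α) = b - a := by ring
  rw [e] at h1
  have := Int.le_of_dvd (by omega) h1
  omega

theorem exists_pocket (hk : 0 < k) {α v : ℤ} (hv : ¬ k ∣ v - α) :
    ∃ lo, k ∣ lo - α ∧ lo < v ∧ v < lo + k := by
  refine ⟨v - (v - α) % k, ?_, ?_, ?_⟩
  · have := Int.dvd_self_sub_emod (x := v - α) (m := k)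
    have e : v - (v - α) % k - α = v - α - (v - α) % k := by ring
    rw [e]; exact this
  · have h1 := Int.emod_nonneg (v - α) hk.ne'
    have h2 : (v - α) % k ≠ 0 := fun h => hv (Int.dvd_of_emod_eq_zero h)
    omega
  · have := Int.emod_lt_of_pos (v - α) hk
    omega

theorem dvd_shift {α lo : ℤ} (h : k ∣ lo - α) (c : ℤ) (hc : k ∣ c) : k ∣ lo + c - α := by
  have e : lo + c - α = (lo - α) + c := by ring
  rw [e]; exact dvd_add h hc

/-- The row of a vertex that sees its whole class. -/
theorem row_le {q q' : ℤ → ℤ → Prop} (hk : 0 < k) (hkn : k ∣ n) {a : ℤ}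
    (hM : Match k (Fw n q a) (Fw n q' a))
    (hcl : ∀ o : ℤ, 0 < o → o < n → k ∣ o → q a (a + o)) :
    ∀ o, Fw n q a o → Fw n q' a o := by
  obtain ⟨φ, h⟩ := exists_isM hM
  have hP : ∀ o : ℤ, 0 < o → o < n → k ∣ o → Fw n q a o := fun o h1 h2 h3 => ⟨h1, h2, hcl o h1 h2 h3⟩
  have hφk : ∀ o, Fw n q a o → k ∣ o → k ∣ φ o := by
    intro o ho hko
    have := dvd_add (h.res o ho) hko
    rwa [sub_add_cancel] at this
  have hk' : ∀ {x y : ℤ}, k ∣ x → k ∣ y → x < y → x + k ≤ y := by
    intro x y hx hy hxy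
    have h1 := dvd_sub hy hx
    have := Int.le_of_dvd (by omega) h1
    omega
  -- going up
  have up : ∀ N : ℕ, ∀ o : ℤ, o.toNat ≤ N → 0 < o → o < n → k ∣ o → o ≤ φ o := by
    intro N
    induction N with
    | zero => intro o ho h0; omega
    | succ N ih =>
      intro o ho h0 hn hko
      have hPo := hP o h0 hn hko
      rcases lt_or_ge k o with hlt | hge
      · have h1 := ih (o - k) (by omega) (by omega) (by omega) (dvd_sub hko (dvd_refl k))
        have h2 := h.mono _ _ (hP (o - k) (by omega) (by omega) (dvd_sub hko (dvd_refl k))) hPo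
          (by omega)
        have h3 := hk' (dvd_sub hko (dvd_refl k)) (hφk o hPo hko) (by omega)
        omega
      · have h1 := Int.le_of_dvd (h.map o hPo).1 (hφk o hPo hko)
        omega
  have down : ∀ N : ℕ, ∀ o : ℤ, (n - o).toNat ≤ N → 0 < o → o < n → k ∣ o → φ o ≤ o := by
    intro N
    induction N with
    | zero => intro o ho h0 hn; omega
    | succ N ih =>
      intro o ho h0 hn hko
      have hPo := hP o h0 hn hko
      rcases lt_or_ge (o + k) n with hlt | hge
      · have h1 := ih (o + k) (by omega) (by omega) (by omega) (dvd_add hko (dvd_refl k))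
        have h2 := h.mono _ _ hPo (hP (o + k) (by omega) (by omega) (dvd_add hko (dvd_refl k)))
          (by omega)
        have h3 := hk' (hφk o hPo hko) (dvd_add hko (dvd_refl k)) (by omega)
        omega
      · have h1 := hk' (hφk o hPo hko) hkn (h.map o hPo).2.1
        omega
  have fixα : ∀ o : ℤ, 0 < o → o < n → k ∣ o → φ o = o := fun o h1 h2 h3 =>
    le_antisymm (down _ o le_rfl h1 h2 h3) (up _ o le_rfl h1 h2 h3)
  intro o ho
  by_cases hko : k ∣ o
  · have := h.map o ho
    rwa [fixα o ho.1 ho.2.1 hko] at this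
  · obtain ⟨lo, hlo1, hlo2, hlo3⟩ := exists_pocket hk (α := 0) (v := o) (by simpa using hko)
    rw [sub_zero] at hlo1
    have hlo0 : 0 ≤ lo := by
      by_contra hc
      have := hk' hlo1 (dvd_zero k) (by omega)
      have h0 := ho.1
      omega
    have hhi : lo + k ≤ n := by
      have h1 := hk' hlo1 hkn (by have := ho.2.1; omega)
      exact h1
    have hm := h.map o ho
    have a1 : lo < φ o := by
      rcases hlo0.lt_or_eq with hlt | heq
      · have := h.mono _ _ (hP lo hlt (by omega) hlo1) ho hlo2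
        rwa [fixα lo hlt (by omega) hlo1] at this
      · have := hm.1
        omega
    have a2 : φ o < lo + k := by
      rcases hhi.lt_or_eq with hlt | heq
      · have := h.mono _ _ ho (hP (lo + k) (by omega) hlt (dvd_add hlo1 (dvd_refl k))) hlo3
        rwa [fixα (lo + k) (by omega) hlt (dvd_add hlo1 (dvd_refl k))] at this
      · have := hm.2.1
        omega
    have := eq_of_window (h.res o ho) hlo2 hlo3 a1 a2
    rwa [this] at hm

/-- `Two` with a clique class in both relations. -/
structure TwoC (n : ℕ) (k α : ℤ) (r : Bool → ℤ → ℤ → Prop) : Prop extends Two n k r where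
  lt : k < n
  cl : ∀ s u u', k ∣ u - α → k ∣ u' - α → u < u' → u' < u + n → r s u u'
  row : ∀ s s' u o, k ∣ u - α → Fw n (r s) u o → Fw n (r s') u o

theorem TwoC.of (h : Two n k r) (hlt : k < n) {α : ℤ} {s₀ : Bool}
    (hcl : ∀ u u', k ∣ u - α → k ∣ u' - α → u < u' → u' < u + n → r s₀ u u') :
    TwoC n k α r := by
  have hcl' : ∀ u, k ∣ u - α → ∀ o : ℤ, 0 < o → o < n → k ∣ o → r s₀ u (u + o) :=
    fun u hu o h1 h2 h3 => hcl u (u + o) hu (dvd_shift hu o h3) (by omega) (by omega)
  have h1 : ∀ s' u o, k ∣ u - α → Fw n (r s₀) u o → Fw n (r s') u o := fun s' u o hu ho =>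
    row_le h.kpos h.dvd (h.fw s₀ s' u) (hcl' u hu) o ho
  have h2 : ∀ s u u', k ∣ u - α → k ∣ u' - α → u < u' → u' < u + n → r s u u' := by
    intro s u u' hu hu' h3 h4
    have := (h1 s u (u' - u) hu ⟨by omega, by omega, by
      rw [add_sub_cancel]; exact hcl u u' hu hu' h3 h4⟩).2.2
    rwa [add_sub_cancel] at this
  refine ⟨h, hlt, h2, fun s s' u o hu ho => ?_⟩
  exact row_le h.kpos h.dvd (h.fw s s' u) (fun o h3 h4 h5 =>
    h2 s u (u + o) hu (dvd_shift hu o h5) (by omega) (by omega)) o ho

variable {α : ℤ}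

/-- The visible vertices of the class `α` agree. -/
theorem TwoC.alpha (h : TwoC n k α r) (s s' : Bool) {v u : ℤ} (hu : k ∣ u - α) (h1 : v < u)
    (h2 : u < v + n) (hr : r s v u) : r s' v u := by
  have h3 : r s u (v + n) := (h.toTwo.zr s).symm _ _ (((h.toTwo.zr s).per _ _).2 hr)
  have h4 := (h.row s s' u (v + n - u) hu ⟨by omega, by omega, by
    have e : u + (v + n - u) = v + n := by ring
    rw [e]; exact h3⟩).2.2
  have e : u + (v + n - u) = v + n := by ring
  rw [e] at h4
  exact ((h.toTwo.zr s').per _ _).1 ((h.toTwo.zr s').symm _ _ h4)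

theorem TwoC.alpha' (h : TwoC n k α r) (s s' : Bool) {v u : ℤ} (hu : k ∣ u - α) (h1 : u < v)
    (h2 : v < u + n) (hr : r s v u) : r s' v u := by
  have h3 : r s v (u + n) := ((h.toTwo.zr s).perR _ _).2 hr
  have h4 := h.alpha s s' (dvd_shift hu n h.dvd) (by omega) (by omega) h3
  exact ((h.toTwo.zr s').perR _ _).1 h4

theorem fw_pos' {q : ℤ → ℤ → Prop} {i o : ℤ} (h : Fw n q i o) : 0 < o := h.1

/-- The two backward words. -/
theorem Two.bw (h : Two n k r) (s s' : Bool) (i : ℤ) :
    Match k (Bw n (r s) i) (Bw n (r s') i) := by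
  have bwi : ∀ t o, Bw n (r t) i o ↔ Fw n (r t) i (n - o) := by
    intro t o
    unfold Bw Fw
    have h1 := (h.zr t).perR i (i - o)
    have e : i - o + (n : ℤ) = i + (n - o) := by ring
    rw [e] at h1
    rw [h1]
    constructor
    · rintro ⟨a, b, c⟩; exact ⟨by omega, by omega, c⟩
    · rintro ⟨a, b, c⟩; exact ⟨by omega, by omega, c⟩
  obtain ⟨φ, h1, h2, h3, h4⟩ := h.fw s s' i
  refine ⟨fun o => n - φ (n - o), fun o ho => ?_, fun o ho => ?_, fun a b ha hb hab => ?_,
    fun o ho => ?_⟩
  · rw [bwi] at ho ⊢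
    rw [sub_sub_cancel]; exact h1 _ ho
  · rw [bwi] at ho
    have := h2 _ ho
    have e : (n : ℤ) - φ (n - o) - o = -(φ (n - o) - (n - o)) := by ring
    rw [e]; exact (dvd_neg).2 this
  · rw [bwi] at ha hb
    have := h3 _ _ hb ha (by omega)
    show (n : ℤ) - φ (n - a) < n - φ (n - b)
    omega
  · rw [bwi] at ho
    obtain ⟨o', ho', he⟩ := h4 _ ho
    refine ⟨n - o', by rw [bwi, sub_sub_cancel]; exact ho', ?_⟩
    show (n : ℤ) - φ (n - (n - o')) = o
    rw [sub_sub_cancel, he]; ring

/-- After a first difference there is a long empty interval in the set of the other relation. -/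
theorem long_gap {Q Q' : ℤ → Prop} (hM : Match k Q Q') (hM' : Match k Q' Q)
    (hpos : ∀ o, Q o → 0 < o) (hpos' : ∀ o, Q' o → 0 < o) {q : ℤ} (hqk : q < k) (hq : Q q)
    (hq' : ¬ Q' q) : ∃ d, d ≤ q ∧ 0 < d ∧ ∀ m, d ≤ m → m < d + k → ¬ Q' m := by
  obtain ⟨d, hd1, hd2, hd3, hd4⟩ := exists_first (p := fun o => ¬ (Q o ↔ Q' o)) (a := 0) (b := q)
    (hpos q hq).le (fun h => hq' (h.1 hq))
  have hag : ∀ o, o < d → (Q o ↔ Q' o) := by
    intro o ho
    rcases lt_or_ge o 0 with hlt | hge
    · exact ⟨fun h => absurd (hpos o h) (by omega), fun h => absurd (hpos' o h) (by omega)⟩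
    · exact not_not.1 (hd4 o hge ho)
  have hdvd : ∀ o', d ≤ o' → k ∣ o' - d → o' ≠ d → d + k ≤ o' := by
    intro o' h1 h2 h3
    have := Int.le_of_dvd (by omega) h2
    omega
  by_cases hQd : Q d
  · have hQd' : ¬ Q' d := fun h => hd3 ⟨fun _ => h, fun _ => hQd⟩
    obtain ⟨o', h1, h2, h3, h4⟩ := hM.next hpos hag hQd
    have h5 := hdvd o' h2 h3 (fun h => hQd' (h ▸ h1))
    exact ⟨d, hd2, hpos _ hQd, fun m hm1 hm2 => h4 m hm1 (by omega)⟩
  · have hQd' : Q' d := by
      by_contra h
      exact hd3 ⟨fun h' => absurd h' hQd, fun h' => absurd h' h⟩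
    obtain ⟨o', h1, h2, h3, h4⟩ := hM'.next hpos' (fun o ho => (hag o ho).symm) hQd'
    have h5 := hdvd o' h2 h3 (fun h => hQd (h ▸ h1))
    have h6 := hpos' _ hQd'
    exact absurd hq (h4 q hd2 (by omega))

/-- Vertices of the same pocket see each other in both relations or in none. -/
theorem TwoC.own (h : TwoC n k α r) : ∀ N : ℕ, ∀ s s' : Bool, ∀ lo p q : ℤ,
    (k - (q - p)).toNat ≤ N → k ∣ lo - α → lo < p → p < q → q < lo + k → r s p q → r s' p q := by
  have hkpos := h.kpos
  have hlt := h.lt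
  intro N
  induction N with
  | zero => intro s s' lo p q hN; omega
  | succ N ih =>
    intro s s' lo p q hN hlo h1 h2 h3 hpq
    by_contra hpq'
    have hz := h.toTwo.zr s
    have hz' := h.toTwo.zr s'
    -- forward
    obtain ⟨d, hd1, hd2, hd3⟩ := long_gap (q := q - p) (h.fw s s' p) (h.fw s' s p)
      (fun o ho => ho.1) (fun o ho => ho.1) (by omega)
      ⟨by omega, by omega, by rw [add_sub_cancel]; exact hpq⟩
      (fun hf => hpq' (by have := hf.2.2; rwa [add_sub_cancel] at this))
    have a1 : ∀ x, q < x → x ≤ lo + k → ¬ r s p x := by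
      intro x hx1 hx2 hx3
      have hx4 : r s' p x := by
        rcases hx2.lt_or_eq with hl | he
        · exact ih s s' lo p x (by omega) hlo h1 (by omega) hl hx3
        · exact h.alpha s s' (by rw [he]; exact dvd_shift hlo k (dvd_refl k)) (by omega)
            (by omega) hx3
      exact hd3 (x - p) (by omega) (by omega) ⟨by omega, by omega, by
        rw [add_sub_cancel]; exact hx4⟩
    -- backward
    obtain ⟨d', hd1', hd2', hd3'⟩ := long_gap (q := q - p) (h.toTwo.bw s s' q)
      (h.toTwo.bw s' s q) (fun o ho => ho.1) (fun o ho => ho.1) (by omega)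
      ⟨by omega, by omega, by rw [sub_sub_cancel]; exact hz.symm _ _ hpq⟩
      (fun hf => hpq' (by have := hf.2.2; rw [sub_sub_cancel] at this; exact hz'.symm _ _ this))
    have a2 : ∀ x, lo ≤ x → x < p → ¬ r s q x := by
      intro x hx1 hx2 hx3
      have hx4 : r s' q x := by
        rcases hx1.lt_or_eq with hl | he
        · exact hz'.symm _ _ (ih s s' lo x q (by omega) hlo hl (by omega) h3 (hz.symm _ _ hx3))
        · exact h.alpha' s s' (by rw [← he]; exact hlo) (by omega) (by omega) hx3
      exact hd3' (q - x) (by omega) (by omega) ⟨by omega, by omega, by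
        rw [sub_sub_cancel]; exact hx4⟩
    exact no_double_exit (h.zrel s) h1 h2 h3 (by omega)
      (h.cl s lo (lo + k) hlo (dvd_shift hlo k (dvd_refl k)) (by omega) (by omega)) hpq a1 a2

theorem TwoC.own' (h : TwoC n k α r) (s s' : Bool) {lo p q : ℤ} (hlo : k ∣ lo - α) (h1 : lo < p)
    (h2 : p < q) (h3 : q < lo + k) : r s p q ↔ r s' p q :=
  ⟨h.own _ s s' lo p q le_rfl hlo h1 h2 h3, h.own _ s' s lo p q le_rfl hlo h1 h2 h3⟩

/-- Two visible vertices on both sides of a vertex of the class. -/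
theorem TwoC.star (h : TwoC n k α r) (s : Bool) {lo v u w w' : ℤ} (hlo : k ∣ lo - α)
    (h1 : lo < v) (h2 : v < lo + k) (hu : k ∣ u - α) (hw1 : lo + k < w) (hw2 : w < u)
    (hw3 : u < w') (hw4 : w' < lo + n) (hvw : r s v w) (hvw' : r s v w') : r s v u := by
  have hlt := h.lt
  have hkpos := h.kpos
  by_contra hvu
  obtain ⟨g, hg1, hg2, hg3, hg4⟩ := exists_last (p := fun z => r s v z) (a := w) (b := u)
    (by omega) hvw
  obtain ⟨t, ht1, ht2, ht3, ht4⟩ := exists_first (p := fun z => r s v z) (a := u) (b := w')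
    (by omega) hvw'
  have hgu : g ≠ u := fun e => hvu (e ▸ hg3)
  have htu : t ≠ u := fun e => hvu (e ▸ ht3)
  have hgap : ∀ m, g < m → m < t → ¬ r s v m := by
    intro m hm1 hm2
    rcases le_or_gt m u with hle | hgt
    · exact hg4 m hm1 hle
    · exact ht4 m (by omega) hm2
  obtain ⟨c, hc1, hc2, hc3, hc4⟩ := (h.zrel s).nc v g t (by omega) (by omega) (by omega) hg3 ht3 hgap
  rcases le_or_gt u c with hle | hgt
  · exact hc3 (lo + k) u (by omega) (by omega) (by omega) hle
      (h.cl s _ _ (dvd_shift hlo k (dvd_refl k)) hu (by omega) (by omega))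
  · exact hc4 (lo + n) u (by omega) (by omega) hgt (by omega) ((h.toTwo.zr s).symm _ _
      (h.cl s _ _ hu (dvd_shift hlo n h.dvd) (by omega) (by omega)))

/-- The initial agreement. -/
theorem TwoC.agree_le (h : TwoC n k α r) (s s' : Bool) {lo v : ℤ} (hlo : k ∣ lo - α)
    (h1 : lo < v) (h2 : v < lo + k) :
    ∀ o, o ≤ lo + k - v → (Fw n (r s) v o ↔ Fw n (r s') v o) := by
  have hlt := h.lt
  have key : ∀ s s' : Bool, ∀ o, o ≤ lo + k - v → Fw n (r s) v o → Fw n (r s') v o := by
    intro s s' o ho hf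
    obtain ⟨ha, hb, hc⟩ := hf
    refine ⟨ha, hb, ?_⟩
    rcases ho.lt_or_eq with hl | he
    · exact (h.own' s s' hlo h1 (by omega) (by omega)).1 hc
    · have e : v + o = lo + k := by omega
      rw [e] at hc ⊢
      exact h.alpha s s' (dvd_shift hlo k (dvd_refl k)) (by omega) (by omega) hc
  exact fun o ho => ⟨key s s' o ho, key s' s o ho⟩

/-- The final agreement. -/
theorem TwoC.agree_ge (h : TwoC n k α r) (s s' : Bool) {lo v : ℤ} (hlo : k ∣ lo - α)
    (h1 : lo < v) (h2 : v < lo + k) :
    ∀ o, lo + n - v ≤ o → (Fw n (r s) v o ↔ Fw n (r s') v o) := by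
  have hlt := h.lt
  have key : ∀ s s' : Bool, ∀ o, lo + n - v ≤ o → Fw n (r s) v o → Fw n (r s') v o := by
    intro s s' o ho hf
    obtain ⟨ha, hb, hc⟩ := hf
    refine ⟨ha, hb, ?_⟩
    have e1 : v + o = (v + o - n) + n := by ring
    rw [e1] at hc ⊢
    rw [(h.toTwo.zr s).perR] at hc
    rw [(h.toTwo.zr s').perR]
    rcases ho.lt_or_eq with hl | he
    · exact (h.toTwo.zr s').symm _ _ ((h.own' s s' hlo (p := v + o - n) (q := v) (by omega)
        (by omega) h2).1 ((h.toTwo.zr s).symm _ _ hc))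
    · have e : v + o - n = lo := by omega
      rw [e] at hc ⊢
      exact h.alpha' s s' hlo (by omega) (by omega) hc
  exact fun o ho => ⟨key s s' o ho, key s' s o ho⟩

theorem TwoC.fixα (h : TwoC n k α r) {s s' : Bool} {v : ℤ} {φ : ℤ → ℤ}
    (hφ : IsM k (Fw n (r s) v) (Fw n (r s') v) φ) :
    ∀ o, Fw n (r s) v o → k ∣ v + o - α → φ o = o := by
  have hmv : ∀ t t' : Bool, ∀ o, Fw n (r t) v o → k ∣ v + o - α → Fw n (r t') v o :=
    fun t t' o ho hk => ⟨ho.1, ho.2.1, h.alpha t t' hk (by have := ho.1; omega)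
      (by have := ho.2.1; omega) ho.2.2⟩
  have key := fixZ (Z := fun o => Fw n (r s) v o ∧ k ∣ v + o - α) (φ := φ)
    (fun o ho => ho.1.1) (fun o ho => by
      have h1 := hφ.map o ho.1
      have h2 : k ∣ v + φ o - α := by
        have := dvd_add (hφ.res o ho.1) ho.2
        have e : φ o - o + (v + o - α) = v + φ o - α := by ring
        rwa [e] at this
      exact ⟨hmv s' s _ h1 h2, h2⟩)
    (fun a b ha hb hab => hφ.mono a b ha.1 hb.1 hab)
    (fun o' ho' => by
      obtain ⟨o, ho, he⟩ := hφ.surj o' (hmv s s' _ ho'.1 ho'.2)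
      refine ⟨o, ⟨ho, ?_⟩, he⟩
      have := dvd_sub ho'.2 (hφ.res o ho)
      rw [he] at this
      have e : v + o' - α - (o' - o) = v + o - α := by ring
      rwa [e] at this)
  exact fun o ho hk => key o ⟨ho, hk⟩

/-- A vertex with a disagreement sees no foreign vertex of the class. -/
theorem TwoC.typeII (h : TwoC n k α r) (s s' : Bool) {lo v w lo' : ℤ} (hlo : k ∣ lo - α)
    (h1 : lo < v) (h2 : v < lo + k) (hlo' : k ∣ lo' - α) (hb : lo + k ≤ lo')
    (hb' : lo' + k ≤ lo + n) (hw1 : lo' < w) (hw2 : w < lo' + k) (hvw : r s v w)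
    (hvw' : ¬ r s' v w) :
    ∀ u, k ∣ u - α → lo + k < u → u < lo + n → ∀ t, ¬ r t v u := by
  intro u hu hu1 hu2 t hvu
  have hkpos := h.kpos
  replace hvu : r s v u := h.alpha t s hu (by omega) (by omega) hvu
  have hmv : ∀ t t' : Bool, ∀ z, k ∣ z - α → v < z → z < v + n → r t v z → r t' v z :=
    fun t t' z a b c d => h.alpha t t' a b c d
  have hhi' : k ∣ lo' + k - α := dvd_shift hlo' k (dvd_refl k)
  obtain ⟨φ, hφ⟩ := exists_isM (h.fw s s' v)
  have hfix : ∀ z, k ∣ z - α → v < z → z < v + n → r s v z →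
      Sep (Fw n (r s) v) φ (z - v) ∧ SepL (Fw n (r s) v) φ (z - v) := by
    intro z hz1 hz2 hz3 hz4
    have e : v + (z - v) = z := by ring
    have hf : Fw n (r s) v (z - v) := ⟨by omega, by omega, by rw [e]; exact hz4⟩
    have hfx := h.fixα hφ _ hf (by rw [e]; exact hz1)
    exact ⟨hφ.sep_fix hf hfx, hφ.sepL_fix hf hfx⟩
  have hwf : Fw n (r s) v (w - v) := ⟨by omega, by omega, by rw [add_sub_cancel]; exact hvw⟩
  have hwf' : ¬ Fw n (r s') v (w - v) := fun hf => hvw' (by
    have := hf.2.2; rwa [add_sub_cancel] at this)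
  -- not both ends of the pocket are visible
  have hboth : r s v lo' → r s v (lo' + k) → False := by
    intro g1 g2
    have f1 := (hfix lo' hlo' (by omega) (by omega) g1).1
    have f2 := (hfix (lo' + k) hhi' (by omega) (by omega) g2).2
    have := hφ.window (e := lo' - v) f1 f2 (fun o o1 o2 _ => ⟨by omega, by omega⟩)
      (fun o o1 o2 _ => ⟨by omega, by omega⟩) (w - v) (by omega) (by omega)
    exact hwf' (this.1 hwf)
  rcases lt_or_ge w u with hwu | huw
  · -- the visible vertex of the class is after `w`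
    have hge : lo' + k ≤ u := step hlo' hu (by omega)
    have g2 : r s v (lo' + k) := by
      rcases hge.lt_or_eq with hl | he
      · exact h.star s hlo h1 h2 hhi' (by omega) hw2 hl hu2 hvw hvu
      · rw [he]; exact hvu
    have g1 : ¬ r s v lo' := fun g => hboth g g2
    have g1' : ¬ r s' v lo' := fun g => g1 (hmv s' s lo' hlo' (by omega) (by omega) g)
    have g2' : r s' v (lo' + k) := hmv s s' _ hhi' (by omega) (by omega) g2
    have f1 := hφ.sep_agree (fun o ho => ho.1) (h.agree_le s s' hlo h1 h2)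
    have f2 := (hfix (lo' + k) hhi' (by omega) (by omega) g2).2
    have hwin : ∀ t, ¬ r t v lo' → r t v (lo' + k) → ∀ o, lo + k - v < o → o < lo' + k - v →
        Fw n (r t) v o → lo' - v < o ∧ o < lo' - v + k := by
      intro t a1 a2 o o1 o2 ho
      refine ⟨?_, by omega⟩
      by_contra hc
      have hne : v + o ≠ lo' := fun e => a1 (e ▸ ho.2.2)
      exact a1 (h.star t hlo h1 h2 hlo' (w := v + o) (w' := lo' + k) (by omega) (by omega)
        (by omega) (by omega) ho.2.2 a2)
    have := hφ.window (e := lo' - v) f1 f2 (hwin s g1 g2) (hwin s' g1' g2') (w - v) (by omega)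
      (by omega)
    exact hwf' (this.1 hwf)
  · -- the visible vertex of the class is before `w`
    have hne : w ≠ u := by
      rintro rfl
      exact hvw' (hmv s s' w hu (by omega) (by omega) hvw)
    have hle : u ≤ lo' := by
      by_contra hc
      have := step hlo' hu (by omega)
      omega
    have g1 : r s v lo' := by
      rcases hle.lt_or_eq with hl | he
      · exact h.star s hlo h1 h2 hlo' hu1 hl hw1 (by omega) hvu hvw
      · rw [← he]; exact hvu
    have g2 : ¬ r s v (lo' + k) := fun g => hboth g1 g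
    have g2' : ¬ r s' v (lo' + k) := fun g => g2 (hmv s' s _ hhi' (by omega) (by omega) g)
    have g1' : r s' v lo' := hmv s s' _ hlo' (by omega) (by omega) g1
    have f1 := (hfix lo' hlo' (by omega) (by omega) g1).1
    have f2 := hφ.sepL_agree (B := n) (fun o ho => ho.2.1) (h.agree_ge s s' hlo h1 h2)
    have hwin : ∀ t, ¬ r t v (lo' + k) → r t v lo' → ∀ o, lo' - v < o → o < lo + n - v →
        Fw n (r t) v o → lo' - v < o ∧ o < lo' - v + k := by
      intro t a1 a2 o o1 o2 ho
      refine ⟨o1, ?_⟩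
      by_contra hc
      have hne : v + o ≠ lo' + k := fun e => a1 (e ▸ ho.2.2)
      exact a1 (h.star t hlo h1 h2 hhi' (w := lo') (w' := v + o) (by omega) (by omega)
        (by omega) (by omega) a2 ho.2.2)
    have := hφ.window (e := lo' - v) f1 f2 (hwin s g2 g1) (hwin s' g2' g1') (w - v) (by omega)
      (by omega)
    exact hwf' (this.1 hwf)

/-- Without foreign vertices of the class all foreign visible vertices are in one pocket. -/
theorem TwoC.one_pocket (h : TwoC n k α r) (t : Bool) {lo v w lo' : ℤ} (hlo : k ∣ lo - α)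
    (h1 : lo < v) (h2 : v < lo + k) (hlo' : k ∣ lo' - α) (hb : lo + k ≤ lo')
    (hb' : lo' + k ≤ lo + n) (hw1 : lo' < w) (hw2 : w < lo' + k) (hvw : r t v w)
    (hII : ∀ u, k ∣ u - α → lo + k < u → u < lo + n → ∀ t, ¬ r t v u) :
    ∀ z, lo + k < z → z < lo + n → r t v z → lo' < z ∧ z < lo' + k := by
  intro z hz1 hz2 hvz
  have hhi' : k ∣ lo' + k - α := dvd_shift hlo' k (dvd_refl k)
  have hkpos := h.kpos
  constructor
  · by_contra hc
    rcases (not_lt.1 hc).lt_or_eq with hl | he
    · exact hII lo' hlo' (by omega) (by omega) t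
        (h.star t hlo h1 h2 hlo' hz1 hl hw1 (by omega) hvz hvw)
    · exact hII lo' hlo' (by omega) (by omega) t (he ▸ hvz)
  · by_contra hc
    rcases (not_lt.1 hc).lt_or_eq with hl | he
    · exact hII (lo' + k) hhi' (by omega) (by omega) t
        (h.star t hlo h1 h2 hhi' (by omega) hw2 hl hz2 hvw hvz)
    · exact hII (lo' + k) hhi' (by omega) (by omega) t (he ▸ hvz)

/-- The other relation sees nothing in the pocket of a disagreement, and it sees something. -/
theorem TwoC.other (h : TwoC n k α r) (s s' : Bool) {lo v w lo' : ℤ} (hlo : k ∣ lo - α)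
    (h1 : lo < v) (h2 : v < lo + k) (hlo' : k ∣ lo' - α) (hb : lo + k ≤ lo')
    (hb' : lo' + k ≤ lo + n) (hw1 : lo' < w) (hw2 : w < lo' + k) (hvw : r s v w)
    (hvw' : ¬ r s' v w) :
    (∀ z, lo' < z → z < lo' + k → ¬ r s' v z) ∧ ∃ z, lo + k < z ∧ z < lo + n ∧ r s' v z := by
  have hkpos := h.kpos
  have hII := h.typeII s s' hlo h1 h2 hlo' hb hb' hw1 hw2 hvw hvw'
  obtain ⟨φ, hφ⟩ := exists_isM (h.fw s s' v)
  have hwf : Fw n (r s) v (w - v) := ⟨by omega, by omega, by rw [add_sub_cancel]; exact hvw⟩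
  have hwf' : ¬ Fw n (r s') v (w - v) := fun hf => hvw' (by
    have := hf.2.2; rwa [add_sub_cancel] at this)
  have f1 := hφ.sep_agree (fun o ho => ho.1) (h.agree_le s s' hlo h1 h2)
  have f2 := hφ.sepL_agree (B := n) (fun o ho => ho.2.1) (h.agree_ge s s' hlo h1 h2)
  constructor
  · intro z hz1 hz2 hvz
    have hwin : ∀ t z, lo' < z → z < lo' + k → r t v z → ∀ o, lo + k - v < o → o < lo + n - v →
        Fw n (r t) v o → lo' - v < o ∧ o < lo' - v + k := by
      intro t z a1 a2 a3 o o1 o2 ho
      have := h.one_pocket t hlo h1 h2 hlo' hb hb' a1 a2 a3 hII (v + o) (by omega) (by omega)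
        ho.2.2
      exact ⟨by omega, by omega⟩
    have := hφ.window (e := lo' - v) f1 f2 (hwin s w hw1 hw2 hvw) (hwin s' z hz1 hz2 hvz)
      (w - v) (by omega) (by omega)
    exact hwf' (this.1 hwf)
  · have a1 := (f1 _ hwf).1 (by omega)
    have a2 := (f2 _ hwf).1 (by omega)
    have a3 := (hφ.map _ hwf).2.2
    exact ⟨v + φ (w - v), by omega, by omega, a3⟩

/-- The clique case. -/
theorem TwoC.all (h : TwoC n k α r) : ∀ N : ℕ, ∀ s lo v w, k ∣ lo - α → lo < v → v < lo + k →
    (lo + k - v).toNat ≤ N → v < w → w < v + n → r s v w → r (!s) v w := by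
  have hkpos := h.kpos
  have hlt := h.lt
  intro N
  induction N with
  | zero => intro s lo v w hlo h1 h2 hN; omega
  | succ N ih =>
    intro s lo v w hlo h1 h2 hN hw1 hw2 hvw
    by_contra hvw'
    set s' := !s with hs'
    have hhi : k ∣ lo + k - α := dvd_shift hlo k (dvd_refl k)
    -- `w` is in a foreign pocket
    have hwα : ¬ k ∣ w - α := fun hk => hvw' (h.alpha s s' hk hw1 hw2 hvw)
    have hw3 : lo + k < w := by
      by_contra hc
      have hne : w ≠ lo + k := fun e => hwα (e ▸ hhi)
      exact hvw' ((h.own' s s' hlo h1 hw1 (by omega)).1 hvw)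
    have hw4 : w < lo + n := by
      by_contra hc
      have := (h.agree_ge s s' hlo h1 h2 (w - v) (by omega)).1
        ⟨by omega, by omega, by rw [add_sub_cancel]; exact hvw⟩
      have h3 := this.2.2
      rw [add_sub_cancel] at h3
      exact hvw' h3
    have hpock : ∀ z, ¬ k ∣ z - α → lo + k < z → z < lo + n →
        ∃ lo', k ∣ lo' - α ∧ lo' < z ∧ z < lo' + k ∧ lo + k ≤ lo' ∧ lo' + k ≤ lo + n := by
      intro z hz hz1 hz2
      obtain ⟨lo', a1, a2, a3⟩ := exists_pocket hkpos hz
      refine ⟨lo', a1, a2, a3, ?_, ?_⟩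
      · by_contra hc
        have := step a1 hhi (by omega)
        omega
      · exact step a1 (dvd_shift hlo n h.dvd) (by omega)
    obtain ⟨lo', hlo', hp1, hp2, hb, hb'⟩ := hpock w hwα hw3 hw4
    have hII := h.typeII s s' hlo h1 h2 hlo' hb hb' hp1 hp2 hvw hvw'
    obtain ⟨hno, z0, hz01, hz02, hz03⟩ := h.other s s' hlo h1 h2 hlo' hb hb' hp1 hp2 hvw hvw'
    have hone := h.one_pocket s hlo h1 h2 hlo' hb hb' hp1 hp2 hvw hII
    -- the first foreign vertices
    obtain ⟨x, hx1, hx2, hx3, hx4⟩ := exists_first (p := fun z => r s v z) (a := lo + k + 1)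
      (b := w) (by omega) hvw
    obtain ⟨x', hx1', hx2', hx3', hx4'⟩ := exists_first (p := fun z => r s' v z)
      (a := lo + k + 1) (b := z0) (by omega) hz03
    obtain ⟨g, hg1, hg2, hg3, hg4⟩ := exists_last (p := fun z => r s v z) (a := v + 1)
      (b := lo + k) (by omega) ((h.zrel s).succ v)
    obtain ⟨hxp1, hxp2⟩ := hone x (by omega) (by omega) hx3
    have hgx : r s g x := (h.zrel s).cn v g x (by omega) (by omega) (by omega) hg3 hx3
      (fun m hm1 hm2 => by
        rcases le_or_gt m (lo + k) with hle | hgt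
        · exact hg4 m hm1 hle
        · exact hx4 m (by omega) hm2)
    have hxv : r s x (v + n) := ((h.toTwo.zr s).perR _ _).2 ((h.toTwo.zr s).symm _ _ hx3)
    have hxv' : ¬ r s' x (v + n) := fun hh => hno x hxp1 hxp2
      ((h.toTwo.zr s').symm _ _ (((h.toTwo.zr s').perR _ _).1 hh))
    have hlon : k ∣ lo + n - α := dvd_shift hlo n h.dvd
    have hIIx := h.typeII s s' hlo' hxp1 hxp2 hlon hb' (by omega) (by omega) (by omega) hxv hxv'
    obtain ⟨hnox, -⟩ := h.other s s' hlo' hxp1 hxp2 hlon hb' (by omega) (by omega) (by omega)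
      hxv hxv'
    rcases hg2.lt_or_eq with hgl | hge
    · -- `g` is an own vertex
      have h5 := ih s lo g x hlo (by omega) hgl (by omega) (by omega) (by omega) hgx
      exact hnox (g + n) (by omega) (by omega)
        (((h.toTwo.zr s').perR _ _).2 ((h.toTwo.zr s').symm _ _ h5))
    · -- `g` is the end of the pocket
      subst hge
      have hlo1 : lo + k = lo' := by
        by_contra hc
        exact hIIx (lo + k + n) (dvd_shift hhi n h.dvd) (by omega) (by omega) s
          (((h.toTwo.zr s).perR _ _).2 ((h.toTwo.zr s).symm _ _ hgx))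
      have hg3' : r s' v (lo + k) := h.alpha s s' hhi (by omega) (by omega) hg3
      have hgap' : ∀ m, lo + k < m → m < x' → ¬ r s' v m :=
        fun m hm1 hm2 => hx4' m (by omega) hm2
      have hgx' : r s' (lo + k) x' := (h.zrel s').cn v (lo + k) x' (by omega) (by omega)
        (by omega) hg3' hx3' hgap'
      have hx'α : ¬ k ∣ x' - α := fun hk => hII x' hk (by omega) (by omega) s' hx3'
      obtain ⟨lo'', hlo'', hq1, hq2, hc1, hc2⟩ := hpock x' hx'α (by omega) (by omega)
      have hx3n : ¬ r s v x' := fun hh => by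
        obtain ⟨e1, e2⟩ := hone x' (by omega) (by omega) hh
        exact hno x' e1 e2 hx3'
      have hxv2 : r s' x' (v + n) :=
        ((h.toTwo.zr s').perR _ _).2 ((h.toTwo.zr s').symm _ _ hx3')
      have hxv2' : ¬ r s x' (v + n) := fun hh => hx3n
        ((h.toTwo.zr s).symm _ _ (((h.toTwo.zr s).perR _ _).1 hh))
      have hIIx' := h.typeII s' s hlo'' hq1 hq2 hlon hc2 (by omega) (by omega) (by omega) hxv2
        hxv2'
      have hlo2 : lo + k = lo'' := by
        by_contra hc
        exact hIIx' (lo + k + n) (dvd_shift hhi n h.dvd) (by omega) (by omega) s'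
          (((h.toTwo.zr s').perR _ _).2 ((h.toTwo.zr s').symm _ _ hgx'))
      exact hno x' (by omega) (by omega) hx3'

theorem TwoC.imp (h : TwoC n k α r) (s : Bool) {a b : ℤ} (h1 : a < b) (h2 : b < a + n)
    (hr : r s a b) : r (!s) a b := by
  by_cases hα : k ∣ a - α
  · exact (h.toTwo.zr _).symm _ _ (h.alpha' s (!s) hα h1 h2 ((h.toTwo.zr s).symm _ _ hr))
  · obtain ⟨lo, a1, a2, a3⟩ := exists_pocket h.kpos hα
    exact h.all _ s lo a b a1 a2 a3 le_rfl h1 h2 hr

/-- **Theorem C.** Two relations with the same words modulo `k` are equal if one class is a clique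
of one of them. -/
theorem eq_of_clique (hn : 3 ≤ n) {k : ℤ} {R R' : ZMod n → ZMod n → Prop}
    (hF : Fam n k (fun s => unroll (cond s R R'))) {α : ℤ} {s₀ : Bool}
    (hcl : ∀ u u' : ℤ, k ∣ u - α → k ∣ u' - α → u < u' → u' < u + n →
      unroll (cond s₀ R R') u u') (i j : ZMod n) : R' i j ↔ R i j := by
  have : NeZero n := ⟨by omega⟩
  have hkn : k ≤ n := Int.le_of_dvd (by omega) hF.dvd
  rcases hkn.lt_or_eq with hlt | heq
  · have hT : TwoC n k α (fun s => unroll (cond s R R')) :=
      TwoC.of (Two.of_fam hF) hlt (s₀ := s₀) hcl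
    have hirr : ∀ s, ∀ a : ℤ, ¬ unroll (cond s R R') a a := fun s => (hF.zrel s).irrefl
    obtain ⟨a, -, -, rfl⟩ := Ag.lift_lt 0 i
    obtain ⟨b, hb1, hb2, rfl⟩ := Ag.lift_lt a j
    rcases hb1.lt_or_eq with hlt | heq
    · exact ⟨fun h => hT.imp false hlt hb2 h, fun h => hT.imp true hlt hb2 h⟩
    · subst heq
      exact ⟨fun h => absurd h (hirr false a), fun h => absurd h (hirr true a)⟩
  · exact Ag.eq_of_fam hn hF (by omega) i j

end Clq

end VisMap
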