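import Pool.Agent.Lib.MP_9f3af0_lc.Pocket

/-!
# MP_9f3af0_lc: numbers of hidden vertices of a class (helper47)

`Hc n k r v e` is the number of vertices of the class of `e` which are hidden from `v`.  It depends
only on the class of `v` (`Hc_class`), it is symmetric (`Hc_symm`).  `LP.Hc_le`: domination makes it
smaller; `twins_of`: in the case of equality `i` and `p` see the same vertices of the class.
-/

namespace VisMap

namespace Cut

open Classical in
/-- The number of the vertices of the class of `e` that are hidden from `v`. -/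
noncomputable def Hc (n : ℕ) (k : ℤ) (r : ℤ → ℤ → Prop) (v e : ℤ) : ℕ :=
  ((Finset.Ico (0 : ℤ) n).filter fun z => k ∣ z - e ∧ ¬ Nb n r v z).card

variable {n : ℕ} {k : ℤ} {r : ℤ → ℤ → Prop}

/-- Counting over a period does not depend on the starting point. -/
theorem card_shift {P : ℤ → Prop} [DecidablePred P] (hn : 0 < n) (hP : ∀ z, P (z + n) ↔ P z) (v : ℤ) :
    ((Finset.Ico (0 : ℤ) n).filter fun o => P (v + o)).card =
      ((Finset.Ico (0 : ℤ) n).filter P).card := by
  have hPj : ∀ z j : ℤ, P (z + j * n) ↔ P z := fun z j => per_mul (p := P) hP z j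
  have hn' : (n : ℤ) ≠ 0 := by omega
  have hn0 : (0 : ℤ) < n := by omega
  have hmod : ∀ z, P (z % n) ↔ P z := by
    intro z
    have e := Int.emod_add_mul_ediv z n
    have := hPj (z % n) (z / n)
    rw [← this]
    have e2 : z % n + z / n * n = z := by rw [mul_comm]; exact e
    rw [e2]
  refine Finset.card_bij' (fun o _ => (v + o) % n) (fun z _ => (z - v) % n) ?_ ?_ ?_ ?_
  · intro o ho
    rw [Finset.mem_filter, Finset.mem_Ico] at ho ⊢
    exact ⟨⟨Int.emod_nonneg _ hn', Int.emod_lt_of_pos _ hn0⟩, (hmod _).2 ho.2⟩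
  · intro z hz
    rw [Finset.mem_filter, Finset.mem_Ico] at hz ⊢
    refine ⟨⟨Int.emod_nonneg _ hn', Int.emod_lt_of_pos _ hn0⟩, ?_⟩
    have e := Int.emod_add_mul_ediv (z - v) n
    have e2 : v + (z - v) % n = z + (-((z - v) / n)) * n := by linarith [mul_comm (n : ℤ) ((z - v) / n)]
    rw [e2, hPj]; exact hz.2
  · intro o ho
    rw [Finset.mem_filter, Finset.mem_Ico] at ho
    show ((v + o) % n - v) % n = o
    rw [Int.emod_sub_emod]
    have : v + o - v = o := by ring
    rw [this]
    exact Int.emod_eq_of_lt ho.1.1 ho.1.2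
  · intro z hz
    rw [Finset.mem_filter, Finset.mem_Ico] at hz
    show (v + (z - v) % n) % n = z
    rw [Int.add_emod_emod]
    have : v + (z - v) = z := by ring
    rw [this]
    exact Int.emod_eq_of_lt hz.1.1 hz.1.2

theorem Nb.perR (h : ZRel n r) (v z : ℤ) : Nb n r v (z + n) ↔ Nb n r v z := by
  unfold Nb
  rw [(ZR.of_zRel h).perR]
  have : z + (n : ℤ) - v = z - v + n := by ring
  rw [this, dvd_add_self_right]

theorem Nb.symm (h : ZRel n r) {v z : ℤ} (hv : Nb n r v z) : Nb n r z v := by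
  rcases hv with h1 | h1
  · left
    have : v - z = -(z - v) := by ring
    rw [this]; exact (dvd_neg).2 h1
  · right; exact h.symm _ _ h1

theorem Nb.perL (h : ZRel n r) (v z : ℤ) : Nb n r (v + n) z ↔ Nb n r v z :=
  ⟨fun h1 => (((Nb.perR h z v).1 (h1.symm h)).symm h), fun h1 =>
    (((Nb.perR h z v).2 (h1.symm h)).symm h)⟩

theorem dvd_per (hd : k ∣ n) (z e : ℤ) : k ∣ z + n - e ↔ k ∣ z - e := by
  have : z + (n : ℤ) - e = z - e + n := by ring
  rw [this, dvd_add_left hd]

theorem dvd_congr {z e e' : ℤ} (h : k ∣ e' - e) : k ∣ z - e' ↔ k ∣ z - e := by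
  have h1 : z - e' = z - e - (e' - e) := by ring
  rw [h1, dvd_sub_left h]

theorem card_class (hn : 0 < n) (hd : k ∣ n) (a b : ℤ) :
    ((Finset.Ico (0 : ℤ) n).filter fun z => k ∣ z - a).card =
      ((Finset.Ico (0 : ℤ) n).filter fun z => k ∣ z - b).card := by
  rw [← card_shift (P := fun z => k ∣ z - b) hn (fun z => dvd_per hd z b) (b - a)]
  congr 1
  ext o
  have : b - a + o - b = o - a := by ring
  simp only [Finset.mem_filter, this]

theorem Hc_dvd {v e e' : ℤ} (h : k ∣ e' - e) : Hc n k r v e' = Hc n k r v e := by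
  unfold Hc
  congr 1
  ext z
  simp only [Finset.mem_filter, dvd_congr h]

open Classical in
/-- The number of visible vertices of the class by offsets. -/
theorem Hc_add (h : ZRel n r) (hn : 0 < n) (hd : k ∣ n) (v e : ℤ) :
    Hc n k r v e + (((Finset.Ioo (0 : ℤ) n).filter fun o => k ∣ v + o - e ∧ r v (v + o)).card +
      if k ∣ v - e then 1 else 0) = ((Finset.Ico (0 : ℤ) n).filter fun z => k ∣ z - e).card := by
  have h1 : ((Finset.Ico (0 : ℤ) n).filter fun z => k ∣ z - e ∧ Nb n r v z).card =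
      ((Finset.Ioo (0 : ℤ) n).filter fun o => k ∣ v + o - e ∧ r v (v + o)).card +
        if k ∣ v - e then 1 else 0 := by
    rw [← card_shift (P := fun z => k ∣ z - e ∧ Nb n r v z) hn (fun z => by
      rw [dvd_per hd, Nb.perR h]) v]
    have e1 : (Finset.Ico (0 : ℤ) n) = insert 0 (Finset.Ioo (0 : ℤ) n) := by
      ext z
      simp only [Finset.mem_Ico, Finset.mem_insert, Finset.mem_Ioo]
      omega
    rw [e1, Finset.filter_insert]
    have e2 : (Finset.Ioo (0 : ℤ) n).filter (fun o => k ∣ v + o - e ∧ Nb n r v (v + o)) =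
        (Finset.Ioo (0 : ℤ) n).filter fun o => k ∣ v + o - e ∧ r v (v + o) := by
      ext o
      rw [Finset.mem_filter, Finset.mem_filter, Finset.mem_Ioo]
      constructor
      · rintro ⟨a1, a2, a3 | a3⟩
        · exfalso
          have : v + o - v = o := by ring
          rw [this] at a3
          have := Int.le_of_dvd a1.1 a3
          omega
        · exact ⟨a1, a2, a3⟩
      · rintro ⟨a1, a2, a3⟩
        exact ⟨a1, a2, Or.inr a3⟩
    rw [e2]
    have e3 : Nb n r v (v + 0) := by left; simp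
    by_cases hve : k ∣ v - e
    · rw [if_pos (by rw [add_zero] at e3 ⊢; exact ⟨hve, e3⟩), if_pos hve,
        Finset.card_insert_of_notMem (by simp)]
    · rw [if_neg (by rw [add_zero]; exact fun hc => hve hc.1), if_neg hve, add_zero]
  rw [← h1]
  unfold Hc
  have e4 := Finset.card_filter_add_card_filter_not (s := (Finset.Ico (0 : ℤ) n).filter fun z => k ∣ z - e)
    (p := fun z => Nb n r v z)
  rw [Finset.filter_filter, Finset.filter_filter] at e4
  omega

open Classical in
theorem vis_class (hw : Wd n k r) {v v' e : ℤ} (hv : k ∣ v' - v) :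
    ((Finset.Ioo (0 : ℤ) n).filter fun o => k ∣ v + o - e ∧ r v (v + o)).card ≤
      ((Finset.Ioo (0 : ℤ) n).filter fun o => k ∣ v' + o - e ∧ r v' (v' + o)).card := by
  obtain ⟨φ, f1, f2, f3, f4⟩ := hw v v' hv
  refine Finset.card_le_card_of_injOn φ (fun o ho => ?_) (fun a ha b hb hab => ?_)
  · rw [Finset.mem_coe, Finset.mem_filter, Finset.mem_Ioo] at ho ⊢
    have h1 : Fw n r v o := ⟨ho.1.1, ho.1.2, ho.2.2⟩
    have h2 := f1 o h1
    refine ⟨⟨h2.1, h2.2.1⟩, ?_, h2.2.2⟩
    have e1 : v' + φ o - e = (v + o - e) + (v' - v) + (φ o - o) := by ring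
    rw [e1]
    exact dvd_add (dvd_add ho.2.1 hv) (f2 o h1)
  · rw [Finset.mem_coe, Finset.mem_filter, Finset.mem_Ioo] at ha hb
    have h1 : Fw n r v a := ⟨ha.1.1, ha.1.2, ha.2.2⟩
    have h2 : Fw n r v b := ⟨hb.1.1, hb.1.2, hb.2.2⟩
    rcases lt_trichotomy a b with hl | he | hl
    · have := f3 a b h1 h2 hl; omega
    · exact he
    · have := f3 b a h2 h1 hl; omega

theorem dvd_rev {a b : ℤ} (h : k ∣ a - b) : k ∣ b - a := by
  have : b - a = -(a - b) := by ring
  rw [this]; exact (dvd_neg).2 h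

/-- The number of hidden vertices depends only on the class. -/
theorem Hc_class (h : ZRel n r) (hn : 0 < n) (hd : k ∣ n) (hw : Wd n k r) {v v' e : ℤ}
    (hv : k ∣ v' - v) : Hc n k r v' e = Hc n k r v e := by
  classical
  have h1 := Hc_add h hn hd v e
  have h2 := Hc_add h hn hd v' e
  have h3 := vis_class hw (e := e) hv
  have h4 := vis_class hw (e := e) (dvd_rev hv)
  have h5 : (k ∣ v' - e) ↔ (k ∣ v - e) := by
    have e1 : v' - e = v - e + (v' - v) := by ring
    rw [e1, dvd_add_left hv]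
  simp only [h5] at h2
  omega

/-- Symmetry. -/
theorem Hc_symm (h : ZRel n r) (hn : 0 < n) (hd : k ∣ n) (hw : Wd n k r) (a b : ℤ) :
    Hc n k r a b = Hc n k r b a := by
  classical
  set A := (Finset.Ico (0 : ℤ) n).filter fun z => k ∣ z - a with hA
  set B := (Finset.Ico (0 : ℤ) n).filter fun z => k ∣ z - b with hB
  have hAB : A.card = B.card := card_class hn hd a b
  have h1 : ∑ v ∈ A, (B.bipartiteAbove (fun v z => ¬ Nb n r v z) v).card = A.card * Hc n k r a b := by
    rw [Finset.sum_congr rfl (g := fun _ => Hc n k r a b) ?_, Finset.sum_const, smul_eq_mul]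
    intro v hv
    rw [hA, Finset.mem_filter] at hv
    rw [← Hc_class h hn hd hw hv.2]
    unfold Hc Finset.bipartiteAbove
    rw [hB, Finset.filter_filter]
  have h2 : ∑ z ∈ B, (A.bipartiteBelow (fun v z => ¬ Nb n r v z) z).card = B.card * Hc n k r b a := by
    rw [Finset.sum_congr rfl (g := fun _ => Hc n k r b a) ?_, Finset.sum_const, smul_eq_mul]
    intro z hz
    rw [hB, Finset.mem_filter] at hz
    rw [← Hc_class h hn hd hw hz.2]
    unfold Hc Finset.bipartiteBelow
    rw [hA, Finset.filter_filter]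
    congr 1
    ext v
    simp only [Finset.mem_filter]
    refine and_congr_right fun _ => and_congr_right fun _ => not_congr ⟨fun h1 => h1.symm h,
      fun h1 => h1.symm h⟩
  have h3 := Finset.sum_card_bipartiteAbove_eq_sum_card_bipartiteBelow (s := A) (t := B)
    (fun v z => ¬ Nb n r v z)
  rw [h1, h2, hAB] at h3
  have hB0 : 0 < B.card := by
    have hne : ((Finset.Ico (0 : ℤ) n).filter fun z => k ∣ z - (0 : ℤ)).Nonempty :=
      ⟨0, by rw [Finset.mem_filter, Finset.mem_Ico]; exact ⟨⟨le_rfl, by omega⟩, by simp⟩⟩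
    rw [hB, card_class hn hd b 0]
    exact Finset.card_pos.2 hne
  exact Nat.eq_of_mul_eq_mul_left hB0 h3

/-- Domination. -/
theorem Hc_le {V : ℤ → Prop} {i p e : ℤ} (hdom : ∀ v, V v → Nb n r i v → Nb n r p v)
    (he : ∀ z, k ∣ z - e → V z) : Hc n k r p e ≤ Hc n k r i e := by
  classical
  refine Finset.card_le_card fun z hz => ?_
  rw [Finset.mem_filter] at hz ⊢
  exact ⟨hz.1, hz.2.1, fun h1 => hz.2.2 (hdom z (he z hz.2.1) h1)⟩

/-- In the case of equality both vertices see the same vertices of the class. -/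
theorem twins_of (h : ZRel n r) (hn : 0 < n) (hd : k ∣ n) {V : ℤ → Prop} {i p e : ℤ}
    (hdom : ∀ v, V v → Nb n r i v → Nb n r p v) (he : ∀ z, k ∣ z - e → V z)
    (heq : Hc n k r i e ≤ Hc n k r p e) {z : ℤ} (hz : k ∣ z - e) : Nb n r i z ↔ Nb n r p z := by
  classical
  refine ⟨hdom z (he z hz), fun h1 => ?_⟩
  have hsub : ((Finset.Ico (0 : ℤ) n).filter fun z => k ∣ z - e ∧ ¬ Nb n r p z) ⊆
      ((Finset.Ico (0 : ℤ) n).filter fun z => k ∣ z - e ∧ ¬ Nb n r i z) := fun z hz => by
    rw [Finset.mem_filter] at hz ⊢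
    exact ⟨hz.1, hz.2.1, fun h1 => hz.2.2 (hdom z (he z hz.2.1) h1)⟩
  have h2 := Finset.eq_of_subset_of_card_le hsub heq
  have hn0 : (0 : ℤ) < n := by omega
  have e1 := Int.emod_add_mul_ediv z n
  have e2 : z % n = z + (-(z / n)) * n := by linarith [mul_comm (n : ℤ) (z / n)]
  have h3 : k ∣ z % n - e := by
    rw [e2]
    exact (per_mul (p := fun z => k ∣ z - e) (fun z => dvd_per hd z e) z _).2 hz
  have h4 : Nb n r p (z % n) := by
    rw [e2]; exact (per_mul (p := fun z => Nb n r p z) (fun z => Nb.perR h p z) z _).2 h1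
  have h5 : Nb n r i (z % n) := by
    by_contra h6
    have h7 : z % n ∈ ((Finset.Ico (0 : ℤ) n).filter fun z => k ∣ z - e ∧ ¬ Nb n r i z) := by
      rw [Finset.mem_filter, Finset.mem_Ico]
      exact ⟨⟨Int.emod_nonneg _ hn0.ne', Int.emod_lt_of_pos _ hn0⟩, h3, h6⟩
    rw [← h2, Finset.mem_filter] at h7
    exact h7.2.2 h4
  rw [e2] at h5
  exact (per_mul (p := fun z => Nb n r i z) (fun z => Nb.perR h i z) z _).1 h5

end Cut

end VisMap
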