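import Pool.Agent.Lib.MP_9f3af0_lc.Base

/-!
# Crossing indicator: symmetry and additivity

`cr_symm`: `det (a - b) (z - b) = - det (b - a) (z - a)` (bilinearity: `z - b = (z - a) - (b - a)`), so the
two disjuncts in the definition of `cr` are exchanged.

`cr_add`: let `β = a + λ (b - a)`, `0 ≤ λ ≤ 1`.  If `a.re ≤ z.re < b.re`: then `a.re ≤ β.re ≤ b.re`.  If
`z.re < β.re` then `λ > 0`, `cr β b z = 0` and `det (β - a) (z - a) = λ det (b - a) (z - a)`, so
`cr a β z = cr a b z`.  If `β.re ≤ z.re` then `1 - λ > 0`, `cr a β z = 0` and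
`det (b - β) (z - β) = (1 - λ) det (b - a) (z - a)`, so `cr β b z = cr a b z`.  The case
`b.re ≤ z.re < a.re` is symmetric (use `cr_symm`), and in all other cases all three are `0` because
`β.re` lies between `a.re` and `b.re`.
-/

namespace VisMap

theorem cr_symm (a b z : ℂ) : cr a b z = cr b a z := by
  unfold cr
  have h : det (a - b) (z - b) = - det (b - a) (z - a) := by
    simp only [det, Complex.sub_re, Complex.sub_im]; ring
  rw [h]
  refine if_congr ?_ rfl rfl
  rw [neg_pos, neg_lt_zero]
  exact or_comm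

private theorem cr_add_aux {a b β z : ℂ} (h : β ∈ segment ℝ a b) (hab : a.re ≤ b.re) :
    cr a β z + cr β b z = cr a b z := by
  obtain ⟨s, t, hs, ht, hst, hβ⟩ := h
  have hre : β.re = s * a.re + t * b.re := by rw [← hβ]; simp
  have him : β.im = s * a.im + t * b.im := by rw [← hβ]; simp
  have hs1 : s = 1 - t := by linarith
  have h1 : det (β - a) (z - a) = t * det (b - a) (z - a) := by
    simp only [det, Complex.sub_re, Complex.sub_im, hre, him, hs1]; ring
  have h2 : det (b - β) (z - β) = s * det (b - a) (z - a) := by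
    simp only [det, Complex.sub_re, Complex.sub_im, hre, him, hs1]; ring
  have h3 : a.re ≤ β.re := by rw [hre, hs1]; nlinarith
  have h4 : β.re ≤ b.re := by rw [hre, hs1]; nlinarith
  unfold cr
  rw [h1, h2]
  by_cases hc : a.re ≤ z.re ∧ z.re < b.re ∧ det (b - a) (z - a) < 0
  · rw [if_pos (c := (a.re ≤ z.re ∧ z.re < b.re ∧ det (b - a) (z - a) < 0) ∨
      (b.re ≤ z.re ∧ z.re < a.re ∧ 0 < det (b - a) (z - a))) (Or.inl hc)]
    by_cases hz : z.re < β.re
    · have ht' : 0 < t := by
        rcases ht.eq_or_lt with h0 | h0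
        · exfalso
          rw [hre, hs1, ← h0] at hz
          linarith [hc.1]
        · exact h0
      rw [if_pos, if_neg, add_zero]
      · rintro (⟨h5, -, -⟩ | ⟨h5, -, -⟩)
        · linarith
        · linarith [hc.2.1]
      · exact Or.inl ⟨hc.1, hz, mul_neg_of_pos_of_neg ht' hc.2.2⟩
    · have hs' : 0 < s := by
        rcases hs.eq_or_lt with h0 | h0
        · exfalso
          apply hz
          have : t = 1 := by linarith
          rw [hre, ← h0, this]
          linarith [hc.2.1]
        · exact h0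
      rw [if_neg, if_pos, zero_add]
      · exact Or.inl ⟨not_lt.1 hz, hc.2.1, mul_neg_of_pos_of_neg hs' hc.2.2⟩
      · rintro (⟨-, h5, -⟩ | ⟨-, h5, -⟩)
        · exact hz h5
        · linarith [hc.1]
  · rw [if_neg, if_neg, if_neg, add_zero]
    · rintro (h5 | ⟨h5, h6, -⟩)
      · exact hc h5
      · linarith
    · rintro (⟨h5, h6, h7⟩ | ⟨h5, h6, -⟩)
      · refine hc ⟨h3.trans h5, h6, ?_⟩
        by_contra h8
        exact absurd (mul_nonneg hs (not_lt.1 h8)) (not_le.2 h7)
      · linarith
    · rintro (⟨h5, h6, h7⟩ | ⟨h5, h6, -⟩)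
      · refine hc ⟨h5, h6.trans_le h4, ?_⟩
        by_contra h8
        exact absurd (mul_nonneg ht (not_lt.1 h8)) (not_le.2 h7)
      · linarith

theorem cr_add {a b β z : ℂ} (h : β ∈ segment ℝ a b) : cr a β z + cr β b z = cr a b z := by
  rcases le_total a.re b.re with hab | hab
  · exact cr_add_aux h hab
  · rw [segment_symm] at h
    rw [cr_symm a β, cr_symm β b, cr_symm a b, add_comm]
    exact cr_add_aux h hab

end VisMap
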