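import Pool.Agent.Lib.MP_9f3af0_lc.Base

/-!
# Local behaviour of the crossing indicator

Let `z0` be off the segment `[a, b]`.  Near `z0` we have `cr a b z = c + gg z0 a z + gg z0 b z` with a
constant `c`.

Proof.  For a point `p` with `p.re ≠ z0.re` the truth value of `p.re ≤ z.re` is constant near `z0` and
`gg z0 p z = 0`.
Case 1: `a.re ≠ z0.re`, `b.re ≠ z0.re`.  If `z0.re` is not between them, `cr = 0` near `z0`.  Otherwise
`det (b - a) (z0 - a) ≠ 0` (else `z0` is on the line `ab` with abscissa between, so `z0 ∈ [a, b]`), so its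
sign is constant near `z0` and `cr a b z` is constant near `z0`.
Case 2: `a.re = z0.re`, `b.re ≠ z0.re`.  Then `det (b - a) (z0 - a) = (b.re - a.re) (z0.im - a.im) ≠ 0`
because `z0 ≠ a`; its sign is constant near `z0`.  If `z0.re < b.re`: near `z0`, `z.re < b.re`, and
`cr a b z = 1` iff `a.re ≤ z.re` and `z0.im < a.im`, that is `cr = gg z0 a z`, `c = 0`.  If `b.re < z0.re`:
near `z0` `cr a b z = 1` iff `z.re < a.re` and `z0.im < a.im`, so `cr = c + gg z0 a z` with `c = 1` if
`z0.im < a.im` and `c = 0` otherwise.
Case 3: `b.re = z0.re`, `a.re ≠ z0.re`: by the symmetry `cr a b z = cr b a z` (prove it here or import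
`Cr.lean`).
Case 4: both `= z0.re`: `cr a b z = 0` for all `z`, and `gg z0 a z = gg z0 b z` because `z0 ∉ [a, b]` means
that `a.im, b.im` are both `> z0.im` or both `< z0.im`; `c = 0` and `x + x = 0` in `ZMod 2`.
-/

namespace VisMap

open Filter Topology

private theorem cr_of_le {a b z : ℂ} (hab : a.re ≤ b.re) :
    cr a b z = if a.re ≤ z.re ∧ z.re < b.re ∧ det (b - a) (z - a) < 0 then 1 else 0 := by
  unfold cr
  refine if_congr ?_ rfl rfl
  constructor
  · rintro (h | ⟨h1, h2, -⟩)
    · exact h
    · linarith
  · exact Or.inl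

private theorem ev_re_lt {z0 : ℂ} {x : ℝ} (h : z0.re < x) : ∀ᶠ z in 𝓝 z0, z.re < x :=
  (Complex.continuous_re.tendsto z0).eventually_lt_const h

private theorem ev_lt_re {z0 : ℂ} {x : ℝ} (h : x < z0.re) : ∀ᶠ z in 𝓝 z0, x < z.re :=
  (Complex.continuous_re.tendsto z0).eventually_const_lt h

private theorem cont_det (p a : ℂ) : Continuous fun z : ℂ => det p (z - a) := by
  unfold det
  fun_prop

private theorem ev_det_neg {p a z0 : ℂ} (h : det p (z0 - a) < 0) :
    ∀ᶠ z in 𝓝 z0, det p (z - a) < 0 :=
  ((cont_det p a).tendsto z0).eventually_lt_const h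

private theorem ev_det_pos {p a z0 : ℂ} (h : 0 < det p (z0 - a)) :
    ∀ᶠ z in 𝓝 z0, 0 < det p (z - a) :=
  ((cont_det p a).tendsto z0).eventually_const_lt h

private theorem gg_ne {z0 a z : ℂ} (h : a.re ≠ z0.re) : gg z0 a z = 0 := by
  unfold gg
  exact if_neg fun h' => h h'.1

private theorem gg_im {z0 a z : ℂ} (h : a.im ≤ z0.im) : gg z0 a z = 0 := by
  unfold gg
  exact if_neg fun h' => absurd h'.2.1 (not_lt.2 h)

private theorem gg_pos {z0 a z : ℂ} (h : a.re = z0.re) (h' : z0.im < a.im) :
    gg z0 a z = if a.re ≤ z.re then 1 else 0 := by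
  unfold gg
  exact if_congr ⟨fun x => x.2.2, fun x => ⟨h, h', x⟩⟩ rfl rfl

private theorem mem_seg {a b z : ℂ} {t : ℝ} (h0 : 0 ≤ t) (h1 : t ≤ 1)
    (hre : z.re = (1 - t) * a.re + t * b.re) (him : z.im = (1 - t) * a.im + t * b.im) :
    z ∈ segment ℝ a b := by
  refine ⟨1 - t, t, by linarith, h0, by ring, ?_⟩
  apply Complex.ext
  · simp [hre]
  · simp [him]

private theorem cr_local_aux {a b z0 : ℂ} (h : z0 ∉ segment ℝ a b) (hab : a.re ≤ b.re) :
    ∃ c : ZMod 2, ∀ᶠ z in 𝓝 z0, cr a b z = c + (gg z0 a z + gg z0 b z) := by
  rcases hab.eq_or_lt with hab' | hab'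
  · -- vertical segment
    refine ⟨0, Eventually.of_forall fun z => ?_⟩
    have h1 : cr a b z = 0 := by
      rw [cr_of_le hab]
      refine if_neg ?_
      rintro ⟨h1, h2, -⟩
      linarith
    rw [h1, zero_add]
    by_cases ha : a.re = z0.re
    · have hb : b.re = z0.re := by rw [← hab', ha]
      rcases le_or_gt a.im z0.im with h2 | h2
      · rcases le_or_gt b.im z0.im with h3 | h3
        · rw [gg_im h2, gg_im h3, add_zero]
        · exfalso
          apply h
          have h4 : 0 < b.im - a.im := by linarith
          refine mem_seg (t := (z0.im - a.im) / (b.im - a.im)) (div_nonneg (by linarith) h4.le)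
            ((div_le_one h4).2 (by linarith)) ?_ ?_
          · rw [ha, hb]; ring
          · field_simp
            ring
      · rcases le_or_gt b.im z0.im with h3 | h3
        · exfalso
          apply h
          have h4 : 0 < a.im - b.im := by linarith
          refine mem_seg (t := (a.im - z0.im) / (a.im - b.im)) (div_nonneg (by linarith) h4.le)
            ((div_le_one h4).2 (by linarith)) ?_ ?_
          · rw [ha, hb]; ring
          · field_simp
            ring
        · rw [gg_pos ha h2, gg_pos hb h3, hab']
          exact (CharTwo.add_self_eq_zero _).symm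
    · have hb : b.re ≠ z0.re := by rw [← hab']; exact ha
      rw [gg_ne ha, gg_ne hb, add_zero]
  · rcases lt_trichotomy z0.re a.re with h1 | h1 | h1
    · -- to the left of both
      refine ⟨0, ?_⟩
      filter_upwards [ev_re_lt h1] with z hz
      rw [gg_ne h1.ne', gg_ne (h1.trans hab').ne', cr_of_le hab, if_neg]
      · simp
      · rintro ⟨h2, -, -⟩
        linarith
    · -- below or above a
      have hb : b.re ≠ z0.re := by rw [h1]; exact hab'.ne'
      have hd : det (b - a) (z0 - a) = (b.re - a.re) * (z0.im - a.im) := by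
        simp only [det, Complex.sub_re, Complex.sub_im, h1]; ring
      refine ⟨0, ?_⟩
      rcases lt_trichotomy z0.im a.im with h2 | h2 | h2
      · have h3 : det (b - a) (z0 - a) < 0 := by
          rw [hd]; exact mul_neg_of_pos_of_neg (by linarith) (by linarith)
        filter_upwards [ev_det_neg h3, ev_re_lt (h1.trans_lt hab')] with z hz1 hz2
        rw [gg_ne hb, gg_pos h1.symm h2, cr_of_le hab, zero_add, add_zero]
        exact if_congr ⟨fun x => x.1, fun x => ⟨x, hz2, hz1⟩⟩ rfl rfl
      · exfalso
        apply h
        have : z0 = a := Complex.ext h1 h2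
        rw [this]
        exact left_mem_segment ℝ a b
      · have h3 : 0 < det (b - a) (z0 - a) := by
          rw [hd]; exact mul_pos (by linarith) (by linarith)
        filter_upwards [ev_det_pos h3] with z hz1
        rw [gg_ne hb, gg_im h2.le, cr_of_le hab, if_neg]
        · simp
        · rintro ⟨-, -, h4⟩
          linarith
    · have ha : a.re ≠ z0.re := h1.ne
      rcases lt_trichotomy z0.re b.re with h2 | h2 | h2
      · -- strictly between
        have hb : b.re ≠ z0.re := h2.ne'
        rcases lt_trichotomy (det (b - a) (z0 - a)) 0 with h3 | h3 | h3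
        · refine ⟨1, ?_⟩
          filter_upwards [ev_det_neg h3, ev_lt_re h1, ev_re_lt h2] with z hz1 hz2 hz3
          rw [gg_ne ha, gg_ne hb, cr_of_le hab, if_pos ⟨hz2.le, hz3, hz1⟩]
          simp
        · exfalso
          apply h
          have h4 : 0 < b.re - a.re := by linarith
          refine mem_seg (t := (z0.re - a.re) / (b.re - a.re)) (div_nonneg (by linarith) h4.le)
            ((div_le_one h4).2 (by linarith)) ?_ ?_
          · field_simp
            ring
          · simp only [det, Complex.sub_re, Complex.sub_im] at h3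
            field_simp
            linarith
        · refine ⟨0, ?_⟩
          filter_upwards [ev_det_pos h3] with z hz1
          rw [gg_ne ha, gg_ne hb, cr_of_le hab, if_neg]
          · simp
          · rintro ⟨-, -, h4⟩
            linarith
      · -- below or above b
        have hd : det (b - a) (z0 - a) = (b.re - a.re) * (z0.im - b.im) := by
          simp only [det, Complex.sub_re, Complex.sub_im, h2]; ring
        rcases lt_trichotomy z0.im b.im with h3 | h3 | h3
        · have h4 : det (b - a) (z0 - a) < 0 := by
            rw [hd]; exact mul_neg_of_pos_of_neg (by linarith) (by linarith)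
          refine ⟨1, ?_⟩
          filter_upwards [ev_det_neg h4, ev_lt_re h1] with z hz1 hz2
          rw [gg_ne ha, gg_pos h2.symm h3, cr_of_le hab, zero_add]
          by_cases h5 : z.re < b.re
          · rw [if_pos ⟨hz2.le, h5, hz1⟩, if_neg (not_le.2 h5), add_zero]
          · rw [if_neg fun x => h5 x.2.1, if_pos (not_lt.1 h5)]
            exact (CharTwo.add_self_eq_zero _).symm
        · exfalso
          apply h
          have : z0 = b := Complex.ext h2 h3
          rw [this]
          exact right_mem_segment ℝ a b
        · have h4 : 0 < det (b - a) (z0 - a) := by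
            rw [hd]; exact mul_pos (by linarith) (by linarith)
          refine ⟨0, ?_⟩
          filter_upwards [ev_det_pos h4] with z hz1
          rw [gg_ne ha, gg_im h3.le, cr_of_le hab, if_neg]
          · simp
          · rintro ⟨-, -, h5⟩
            linarith
      · -- to the right of both
        refine ⟨0, ?_⟩
        filter_upwards [ev_lt_re h2] with z hz
        rw [gg_ne ha, gg_ne h2.ne, cr_of_le hab, if_neg]
        · simp
        · rintro ⟨-, h3, -⟩
          linarith

private theorem cr_symm' (a b z : ℂ) : cr a b z = cr b a z := by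
  unfold cr
  have h : det (a - b) (z - b) = - det (b - a) (z - a) := by
    simp only [det, Complex.sub_re, Complex.sub_im]; ring
  rw [h]
  refine if_congr ?_ rfl rfl
  rw [neg_pos, neg_lt_zero]
  exact or_comm

theorem cr_local {a b z0 : ℂ} (h : z0 ∉ segment ℝ a b) :
    ∃ c : ZMod 2, ∀ᶠ z in 𝓝 z0, cr a b z = c + (gg z0 a z + gg z0 b z) := by
  rcases le_total a.re b.re with hab | hab
  · exact cr_local_aux h hab
  · rw [segment_symm] at h
    obtain ⟨c, hc⟩ := cr_local_aux h hab
    refine ⟨c, ?_⟩
    filter_upwards [hc] with z hz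
    rw [cr_symm', hz, add_comm (gg z0 b z)]

end VisMap
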