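import Pool.Agent.Lib.MP_9f3af0_lc.Inst

/-!
# The crossing lemma and the one-sided crossing lemma for a simple polygon

`crossC` is `Cut.cross` for `cut_inst` (`tr (chA u j β) ⊆ T` by `chA_union_chB`).

`crossA`, `crossB`: `D = [u 0, β] ⊆ reg T`, `σ = [x, y] ⊆ reg T` a segment with both end points on the same arc
(both in `tr (chA u j β)` or both in `tr (chB N u j β)`), which crosses `D` transversally in one point `m`
interior to both: impossible.  Proof for `crossA` (`x, y` in the arc A; note `x, y ∉ D`, since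
`σ ∩ D = {m}` follows from transversality: two different common points would make `σ` and `D`
parallel).  `m ≠ u 0, β`, so by `chA_inter_chB` `m ∉ tr (chB N u j β)` or `m ∉ tr (chA u j β)`.
If `m ∉ tr (chB N u j β)`: apply `flip` to `L2 = chB ++ [(u 0, β)]` at `m`: near `m`, off the line `u 0 β`, `par L2`
is `c + 1` on the left and `c` on the right.  The points of `σ` near `m` on one of the two sides have
`par L2 = 1`, say those on the side of `x` (the half-open segment `[x, m)`, which is convex, lies in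
`reg T` and misses `D`).  They do not have type 1, but `x` has type 1 (`Cut.type1`): contradiction with
`Cut.const`.
If `m ∉ tr (chA u j β)`: apply `flip` to `L1 = chA ++ [(β, u 0)]`: on one side near `m` the points of `σ` have
`par L1 = 0` and are off `tr L1` (for points of `σ` near `m` and `≠ m`: off `D`, and off `chA` by closedness), so
they have type 2 and not type 1 (`Cut.type_or`): the same contradiction.
`crossB` is the same with the roles exchanged.
-/

namespace VisMap

open Set

private theorem Cut.swap {T : Set ℂ} {P L1 L2 : List (ℂ × ℂ)} {D : Set ℂ} (C : Cut T P L1 L2 D) :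
    Cut T P L2 L1 D where
  c1 := C.c2
  c2 := C.c1
  s1 := C.s2
  s2 := C.s1
  t1 := C.t2
  t2 := C.t1
  cov := by rw [union_comm]; exact C.cov
  int := by rw [inter_comm]; exact C.int
  inn := C.inn
  sum := fun z h1 h2 => by rw [C.sum z h2 h1, add_comm]
  acc := C.acc

private theorem tr_perm {L L' : List (ℂ × ℂ)} (h : L.Perm L') {x : ℂ} : x ∈ tr L ↔ x ∈ tr L' := by
  rw [mem_tr, mem_tr]
  constructor
  · rintro ⟨e, he, hx⟩
    exact ⟨e, h.mem_iff.1 he, hx⟩
  · rintro ⟨e, he, hx⟩
    exact ⟨e, h.mem_iff.2 he, hx⟩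

private theorem det_seg {p q z : ℂ} (h : z ∈ segment ℝ p q) : det (q - p) (z - p) = 0 := by
  obtain ⟨a, b, -, -, hab, rfl⟩ := h
  have ha : a = 1 - b := by linarith
  subst ha
  simp only [det, Complex.sub_re, Complex.sub_im, Complex.add_re, Complex.add_im,
    Complex.smul_re, Complex.smul_im, smul_eq_mul]
  ring

private theorem det_line (p q m w : ℂ) (r : ℝ) :
    det (q - p) (m + r • w - p) = det (q - p) (m - p) + r * det (q - p) w := by
  simp only [det, Complex.sub_re, Complex.sub_im, Complex.add_re, Complex.add_im,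
    Complex.smul_re, Complex.smul_im, smul_eq_mul]
  ring

private theorem det_line' (p q m w : ℂ) (r : ℝ) :
    det (p - q) (m + r • w - q) = -(det (q - p) (m - p) + r * det (q - p) w) := by
  simp only [det, Complex.sub_re, Complex.sub_im, Complex.add_re, Complex.add_im,
    Complex.smul_re, Complex.smul_im, smul_eq_mul]
  ring

private theorem zmod2_cases (c : ZMod 2) : c = 0 ∨ c + 1 = 0 := by
  revert c
  decide

private theorem cross_aux {T : Set ℂ} {P L1 L2 A B : List (ℂ × ℂ)} {p q : ℂ}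
    (C : Cut T P L1 L2 (segment ℝ p q)) (h1 : L1.Perm ((p, q) :: A)) (h2 : L2.Perm ((q, p) :: B))
    {x y m : ℂ} (hs : segment ℝ x y ⊆ reg T) (hx : x ∈ T) (hx1 : x ∈ tr L1)
    (hy : y ∈ T) (hy1 : y ∈ tr L1) (hm : m ∈ openSegment ℝ x y) (hm' : m ∈ openSegment ℝ p q)
    (hAB : m ∉ tr A ∨ m ∉ tr B) (hd : det (q - p) (y - x) ≠ 0) : False := by
  obtain ⟨t, s, ht, hs0, hts, hmm⟩ := hm
  have ht1 : t = 1 - s := by linarith
  -- the parametrisation of the line
  set z : ℝ → ℂ := fun r => m + r • (y - x) with hz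
  have hzc : Continuous z := by
    rw [hz]
    fun_prop
  have hz0 : z 0 = m := by simp [hz]
  have hzx : z (-s) = x := by
    simp only [hz, ← hmm, ht1]
    apply Complex.ext <;> simp only [Complex.add_re, Complex.add_im, Complex.smul_re,
      Complex.smul_im, Complex.sub_re, Complex.sub_im, smul_eq_mul] <;> ring
  have hzy : z (1 - s) = y := by
    simp only [hz, ← hmm, ht1]
    apply Complex.ext <;> simp only [Complex.add_re, Complex.add_im, Complex.smul_re,
      Complex.smul_im, Complex.sub_re, Complex.sub_im, smul_eq_mul] <;> ring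
  have hzs : ∀ r, -s ≤ r → r ≤ 1 - s → z r ∈ segment ℝ x y := by
    intro r hr1 hr2
    refine ⟨1 - s - r, s + r, by linarith, by linarith, by ring, ?_⟩
    simp only [hz, ← hmm, ht1]
    apply Complex.ext <;> simp only [Complex.add_re, Complex.add_im, Complex.smul_re,
      Complex.smul_im, Complex.sub_re, Complex.sub_im, smul_eq_mul] <;> ring
  have hm0 : det (q - p) (m - p) = 0 := det_seg (openSegment_subset_segment ℝ p q hm')
  have hdz : ∀ r, det (q - p) (z r - p) = r * det (q - p) (y - x) := by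
    intro r
    rw [hz]
    simp only
    rw [det_line, hm0, zero_add]
  have hdz' : ∀ r, det (p - q) (z r - q) = -(r * det (q - p) (y - x)) := by
    intro r
    rw [hz]
    simp only
    rw [det_line', hm0, zero_add]
  have hzD : ∀ r, r ≠ 0 → z r ∉ segment ℝ p q := by
    intro r hr h
    have := det_seg h
    rw [hdz] at this
    exact (mul_ne_zero hr hd) this
  -- all points except `m` have type 1
  have hty : ∀ r, r ≠ 0 → -s ≤ r → r ≤ 1 - s → z r ∉ tr L2 ∧ par L2 (z r) = 0 := by
    intro r hr hr1 hr2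
    rcases lt_or_gt_of_ne hr with h | h
    · have hx0 : x ∉ segment ℝ p q := by
        rw [← hzx]
        exact hzD _ (by linarith)
      refine C.const (σ := z '' Ico (-s) 0) (isPreconnected_Ico.image _ hzc.continuousOn) ?_ ?_
        (x := x) (y := z r) ?_ ?_ (C.type1 hx hx1 hx0)
      · rintro _ ⟨r', hr', rfl⟩
        exact hs (hzs r' hr'.1 (by linarith [hr'.2]))
      · rw [Set.disjoint_left]
        rintro _ ⟨r', hr', rfl⟩
        exact hzD r' (ne_of_lt hr'.2)
      · exact ⟨-s, ⟨le_refl _, by linarith⟩, hzx⟩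
      · exact ⟨r, ⟨hr1, h⟩, rfl⟩
    · have hy0 : y ∉ segment ℝ p q := by
        rw [← hzy]
        exact hzD _ (by linarith)
      refine C.const (σ := z '' Ioc 0 (1 - s)) (isPreconnected_Ioc.image _ hzc.continuousOn) ?_ ?_
        (x := y) (y := z r) ?_ ?_ (C.type1 hy hy1 hy0)
      · rintro _ ⟨r', hr', rfl⟩
        exact hs (hzs r' (by linarith [hr'.1]) hr'.2)
      · rw [Set.disjoint_left]
        rintro _ ⟨r', hr', rfl⟩
        exact hzD r' (ne_of_gt hr'.1)
      · exact ⟨1 - s, ⟨by linarith, le_refl _⟩, hzy⟩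
      · exact ⟨r, ⟨h, hr2⟩, rfl⟩
  -- small parameters
  have hsmall : ∀ {Q : ℂ → Prop}, (∀ᶠ w in nhds m, Q w) →
      ∃ r : ℝ, 0 < r ∧ r ≤ s ∧ r ≤ 1 - s ∧ Q (z r) ∧ Q (z (-r)) := by
    intro Q hQ
    have h3 : ∀ᶠ r in nhds (0 : ℝ), Q (z r) := by
      have := hzc.tendsto 0
      rw [hz0] at this
      exact this.eventually hQ
    have h4 : ∀ᶠ r in nhds (0 : ℝ), Q (z (-r)) := by
      have h5 : Filter.Tendsto (fun r : ℝ => -r) (nhds 0) (nhds 0) := by
        have := (continuous_neg (G := ℝ)).tendsto 0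
        rwa [neg_zero] at this
      exact h5.eventually h3
    have h5 : ∀ᶠ r in nhds (0 : ℝ), r < s := gt_mem_nhds hs0
    have h6 : ∀ᶠ r in nhds (0 : ℝ), r < 1 - s := gt_mem_nhds (by linarith)
    have h7 := (((h3.and h4).and h5).and h6).filter_mono (nhdsWithin_le_nhds (s := Ioi (0 : ℝ)))
    obtain ⟨r, hr, hr0⟩ := (h7.and self_mem_nhdsWithin).exists
    exact ⟨r, hr0, hr.1.2.le, hr.2.le, hr.1.1.1, hr.1.1.2⟩
  rcases hAB with hA | hB
  · obtain ⟨c, hc⟩ := flip C.c1 h1 hm' hA
    have hA' : ∀ᶠ w in nhds m, w ∉ tr A := (isClosed_tr A).isOpen_compl.mem_nhds hA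
    obtain ⟨r, hr0, hr1, hr2, ⟨h3, h3'⟩, h4, h4'⟩ := hsmall (hc.and hA')
    have hrn : r ≠ 0 := hr0.ne'
    have hrn' : -r ≠ 0 := neg_ne_zero.2 hrn
    have hno : ∀ r', r' ≠ 0 → -s ≤ r' → r' ≤ 1 - s → z r' ∉ tr A → par L1 (z r') = 0 → False := by
      intro r' h0 ha hb hA2 hpar
      have hL1 : z r' ∉ tr L1 := by
        rw [tr_perm h1, tr_cons]
        rintro (h | h)
        · exact hzD r' h0 h
        · exact hA2 h
      rcases C.type_or (hs (hzs r' ha hb)) (hzD r' h0) with ⟨-, -, h⟩ | ⟨-, -, h⟩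
      · exact h ⟨hL1, hpar⟩
      · exact h (hty r' h0 ha hb)
    rw [hdz] at h3 h4
    have e3 := h3 (mul_ne_zero hrn hd)
    have e4 := h4 (mul_ne_zero hrn' hd)
    rcases lt_or_gt_of_ne hd with hd' | hd'
    · have f3 := e3.2 (mul_neg_of_pos_of_neg hr0 hd')
      have f4 := e4.1 (mul_pos_of_neg_of_neg (by linarith) hd')
      rcases zmod2_cases c with h | h
      · exact hno r hrn (by linarith) hr2 h3' (by rw [f3, h])
      · exact hno (-r) hrn' (by linarith) (by linarith) h4' (by rw [f4, h])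
    · have f3 := e3.1 (mul_pos hr0 hd')
      have f4 := e4.2 (mul_neg_of_neg_of_pos (by linarith) hd')
      rcases zmod2_cases c with h | h
      · exact hno (-r) hrn' (by linarith) (by linarith) h4' (by rw [f4, h])
      · exact hno r hrn (by linarith) hr2 h3' (by rw [f3, h])
  · obtain ⟨c, hc⟩ := flip C.c2 h2 (by rw [openSegment_symm]; exact hm') hB
    obtain ⟨r, hr0, hr1, hr2, h3, h4⟩ := hsmall hc
    have hrn : r ≠ 0 := hr0.ne'
    have hrn' : -r ≠ 0 := neg_ne_zero.2 hrn
    rw [hdz'] at h3 h4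
    have e3 := h3 (neg_ne_zero.2 (mul_ne_zero hrn hd))
    have e4 := h4 (neg_ne_zero.2 (mul_ne_zero hrn' hd))
    have g3 := (hty r hrn (by linarith) hr2).2
    have g4 := (hty (-r) hrn' (by linarith) (by linarith)).2
    have h01 : ∀ c : ZMod 2, c + 1 = 0 → c = 0 → False := by decide
    rcases lt_or_gt_of_ne hd with hd' | hd'
    · have f3 := e3.1 (by have := mul_neg_of_pos_of_neg hr0 hd'; linarith)
      have f4 := e4.2 (by
        have := mul_pos_of_neg_of_neg (show -r < 0 by linarith) hd'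
        linarith)
      exact h01 c (f3.symm.trans g3) (f4.symm.trans g4)
    · have f3 := e3.2 (by have := mul_pos hr0 hd'; linarith)
      have f4 := e4.1 (by
        have := mul_neg_of_neg_of_pos (show -r < 0 by linarith) hd'
        linarith)
      exact h01 c (f4.symm.trans g4) (f3.symm.trans g3)

private theorem ne_ends {a b m w : ℂ} (hm : m ∈ openSegment ℝ a b) (hd : det (b - a) w ≠ 0) :
    m ≠ a ∧ m ≠ b := by
  have hab : a ≠ b := by
    rintro rfl
    apply hd
    simp [det]
  obtain ⟨s, t, hs, ht, hst, rfl⟩ := hm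
  have hs1 : s = 1 - t := by linarith
  subst hs1
  constructor
  · intro h
    apply hab
    have h1 : t • (b - a) = 0 := by
      have : (1 - t) • a + t • b = a + t • (b - a) := by
        rw [sub_smul, one_smul, smul_sub]
        ring
      rw [this] at h
      exact add_eq_left.1 h
    rcases smul_eq_zero.1 h1 with h2 | h2
    · exact absurd h2 ht.ne'
    · exact (sub_eq_zero.1 h2).symm
  · intro h
    apply hab
    have h1 : (1 - t) • (a - b) = 0 := by
      have : (1 - t) • a + t • b = b + (1 - t) • (a - b) := by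
        rw [smul_sub, sub_smul 1 t b, one_smul]
        abel
      rw [this] at h
      exact add_eq_left.1 h
    rcases smul_eq_zero.1 h1 with h2 | h2
    · exact absurd h2 hs.ne'
    · exact sub_eq_zero.1 h2

private theorem det_neg' (a b w : ℂ) : det (a - b) w = - det (b - a) w := by
  simp only [det, Complex.sub_re, Complex.sub_im]
  ring

theorem crossC {N : ℕ} {u : ℕ → ℂ} (h : SP N u) {j : ℕ} (hj : j < N) {β : ℂ}
    (hβ : β ∈ segment ℝ (u j) (u (j + 1))) (hD : segment ℝ (u 0) β ⊆ reg (TT N u))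
    {σ : Set ℂ} (hσ : IsPreconnected σ) (hs : σ ⊆ reg (TT N u)) {x y : ℂ}
    (hx : x ∈ σ) (hxA : x ∈ tr (chA u j β)) (hy : y ∈ σ) (hyB : y ∈ tr (chB N u j β)) :
    (σ ∩ segment ℝ (u 0) β).Nonempty := by
  have C := cut_inst h hj hβ hD
  have hT := chA_union_chB hj hβ
  refine C.cross hσ hs hx ?_ ?_ hy ?_ ?_
  · rw [← hT]
    exact Or.inl hxA
  · rw [tr_append]
    exact Or.inl hxA
  · rw [← hT]
    exact Or.inr hyB
  · rw [tr_append]
    exact Or.inl hyB

theorem crossA {N : ℕ} {u : ℕ → ℂ} (h : SP N u) {j : ℕ} (hj : j < N) {β : ℂ}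
    (hβ : β ∈ segment ℝ (u j) (u (j + 1))) (hD : segment ℝ (u 0) β ⊆ reg (TT N u))
    {x y m : ℂ} (hs : segment ℝ x y ⊆ reg (TT N u))
    (hx : x ∈ tr (chA u j β)) (hy : y ∈ tr (chA u j β))
    (hm : m ∈ openSegment ℝ x y) (hm' : m ∈ openSegment ℝ (u 0) β)
    (hd : det (β - u 0) (y - x) ≠ 0) : False := by
  have C := cut_inst h hj hβ hD
  have hT := chA_union_chB hj hβ
  obtain ⟨hm1, hm2⟩ := ne_ends hm' hd
  rw [segment_symm] at C
  refine cross_aux C List.perm_append_comm List.perm_append_comm hs ?_ ?_ ?_ ?_ hm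
    (by rw [openSegment_symm]; exact hm') ?_ (by rw [det_neg']; exact neg_ne_zero.2 hd)
  · rw [← hT]
    exact Or.inl hx
  · rw [tr_append]
    exact Or.inl hx
  · rw [← hT]
    exact Or.inl hy
  · rw [tr_append]
    exact Or.inl hy
  · by_contra hcon
    rw [not_or, not_not, not_not] at hcon
    rcases chA_inter_chB h hj hβ hcon.1 hcon.2 with h1 | h1
    · exact hm1 h1
    · exact hm2 h1

theorem crossB {N : ℕ} {u : ℕ → ℂ} (h : SP N u) {j : ℕ} (hj : j < N) {β : ℂ}
    (hβ : β ∈ segment ℝ (u j) (u (j + 1))) (hD : segment ℝ (u 0) β ⊆ reg (TT N u))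
    {x y m : ℂ} (hs : segment ℝ x y ⊆ reg (TT N u))
    (hx : x ∈ tr (chB N u j β)) (hy : y ∈ tr (chB N u j β))
    (hm : m ∈ openSegment ℝ x y) (hm' : m ∈ openSegment ℝ (u 0) β)
    (hd : det (β - u 0) (y - x) ≠ 0) : False := by
  have C := (cut_inst h hj hβ hD).swap
  have hT := chA_union_chB hj hβ
  obtain ⟨hm1, hm2⟩ := ne_ends hm' hd
  refine cross_aux C List.perm_append_comm List.perm_append_comm hs ?_ ?_ ?_ ?_ hm hm' ?_ hd
  · rw [← hT]
    exact Or.inr hx
  · rw [tr_append]
    exact Or.inl hx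
  · rw [← hT]
    exact Or.inr hy
  · rw [tr_append]
    exact Or.inl hy
  · by_contra hcon
    rw [not_or, not_not, not_not] at hcon
    rcases chA_inter_chB h hj hβ hcon.2 hcon.1 with h1 | h1
    · exact hm1 h1
    · exact hm2 h1

end VisMap
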