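import Pool.Agent.Lib.MP_9f3af0_lc.Dism

/-!
# MP_9f3af0_lc: cutting along the chords `(u, u + d)` of one class, and the reduction to structures
without such chords

helper65, helper63, helper55: if all vertices `u` of one class see `u + d` for some `2 ≤ d < k`, then
the vertices inside these chords are deleted, which gives a structure with `k - d + 1` classes.
-/

namespace VisMap

namespace Cut

open Dism

/-- The words depend only on the class. -/
def Wd (n : ℕ) (k : ℤ) (r : ℤ → ℤ → Prop) : Prop :=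
  ∀ i i', k ∣ i' - i → Match k (Fw n r i) (Fw n r i')

/-- All vertices of one class see the next vertex of their class. -/
def Lkd (k : ℤ) (r : ℤ → ℤ → Prop) : Prop := ∃ a, ∀ u, k ∣ u - a → r u (u + k)

variable {n : ℕ} {S : ℤ → Prop} {r : ℤ → ℤ → Prop}

/-- A visible chord with vertices inside has an ear inside. -/
theorem exists_ear_inside (h : SR n S r) (hn : 0 < n) : ∀ N : ℕ, ∀ x t : ℤ, (t - x).toNat ≤ N →
    S x → S t → x < t → t < x + n → r x t → ∀ y, S y → x < y → y < t →
    ∃ w, S w ∧ x < w ∧ w < t ∧ SR.Ear S r w := by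
  intro N
  induction N with
  | zero => intro x t h1 _ _ h2; omega
  | succ N ih =>
    intro x t hN hx ht hxt htn hr y hy hxy hyt
    obtain ⟨y1, hy1, -⟩ := h.exists_nx hn hx
    obtain ⟨-, b1, b2, b3⟩ := hy1
    have b4 : y1 ≤ y := by
      by_contra hlt
      exact b3 y hy hxy (by omega)
    by_cases hc : ∃ m, S m ∧ y1 < m ∧ m < t ∧ r x m
    · obtain ⟨m, m1, m2, m3, m4⟩ := hc
      obtain ⟨w, w1, w2, w3, w4⟩ := ih x m (by omega) hx m1 (by omega) (by omega) m4 y1 b1 b2 m2
      exact ⟨w, w1, w2, by omega, w4⟩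
    · have hg : GpS n S r x y1 t := by
        refine ⟨hx, b1, ht, b2, by omega, htn, h.succ _ _ ⟨hx, b1, b2, b3⟩ (by omega), hr, ?_⟩
        intro m m1 m2 m3 m4
        exact hc ⟨m, m1, m2, m3, m4⟩
      have hyr := h.cn _ _ _ hg
      by_cases hd : ∃ m, S m ∧ y1 < m ∧ m < t
      · obtain ⟨m, m1, m2, m3⟩ := hd
        obtain ⟨w, w1, w2, w3, w4⟩ := ih y1 t (by omega) b1 ht (by omega) (by omega) hyr m m1 m2 m3
        exact ⟨w, w1, by omega, w3, w4⟩
      · refine ⟨y1, b1, b2, by omega, fun o p ho hp => ?_⟩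
        have e1 : o = x := by
          obtain ⟨o1, o2, o3, o4⟩ := ho
          rcases lt_trichotomy o x with hl | he | hl
          · exact (o4 x hx hl b2).elim
          · exact he
          · exact (b3 o o1 hl o3).elim
        have e2 : p = t := SR.nx_unique hp ⟨b1, ht, by omega, fun z z1 z2 z3 => hd ⟨z, z1, z2, z3⟩⟩
        rw [e1, e2]; exact hr

/-- The vertices of `S` which are not (congruent to a vertex) strictly between `x` and `t`. -/
def Out (n : ℕ) (S : ℤ → Prop) (x t : ℤ) (z : ℤ) : Prop :=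
  S z ∧ ¬ ∃ j : ℤ, x < z + j * n ∧ z + j * n < t

open Classical in
theorem del_inside_aux : ∀ N : ℕ, ∀ S : ℤ → Prop, SR n S r → 0 < n → ∀ x t : ℤ,
    ((Finset.Ioo x t).filter S).card ≤ N → S x → S t → x < t → t < x + n → r x t →
    SR n (Out n S x t) r := by
  intro N
  induction N with
  | zero =>
    intro S h hn x t hN hx ht hxt htn hr
    have e : Out n S x t = S := by
      funext z
      refine propext ⟨fun h1 => h1.1, fun h1 => ⟨h1, ?_⟩⟩
      rintro ⟨j, j1, j2⟩
      have h2 : S (z + j * n) := (per_mul h.perS z j).2 h1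
      have h3 : z + j * n ∈ (Finset.Ioo x t).filter S := by
        rw [Finset.mem_filter, Finset.mem_Ioo]
        exact ⟨⟨j1, j2⟩, h2⟩
      have h4 := Finset.card_pos.2 ⟨_, h3⟩
      omega
    rw [e]; exact h
  | succ N ih =>
    intro S h hn x t hN hx ht hxt htn hr
    by_cases hc : ∃ y, S y ∧ x < y ∧ y < t
    · obtain ⟨y, hy, y1, y2⟩ := hc
      obtain ⟨w, w1, w2, w3, w4⟩ := exists_ear_inside h hn _ x t le_rfl hx ht hxt htn hr y hy y1 y2
      have h1 := h.del w4
      have hx' : SR.dl n S w x := ⟨hx, fun hd => by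
        have := dvd_small hd (by omega) (by omega); omega⟩
      have ht' : SR.dl n S w t := ⟨ht, fun hd => by
        have := dvd_small hd (by omega) (by omega); omega⟩
      have hlt : ((Finset.Ioo x t).filter (SR.dl n S w)).card <
          ((Finset.Ioo x t).filter S).card := by
        refine Finset.card_lt_card ⟨fun z hz => ?_, fun hsub => ?_⟩
        · rw [Finset.mem_filter] at hz ⊢
          exact ⟨hz.1, hz.2.1⟩
        · have hw : w ∈ (Finset.Ioo x t).filter S := by
            rw [Finset.mem_filter, Finset.mem_Ioo]; exact ⟨⟨w2, w3⟩, w1⟩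
          have := hsub hw
          rw [Finset.mem_filter] at this
          exact this.2.2 (by simp)
      have h2 := ih _ h1 hn x t (by omega) hx' ht' hxt htn hr
      have e : Out n (SR.dl n S w) x t = Out n S x t := by
        funext z
        refine propext ⟨fun h3 => ⟨h3.1.1, h3.2⟩, fun h3 => ⟨⟨h3.1, ?_⟩, h3.2⟩⟩
        rintro ⟨j, hj⟩
        refine h3.2 ⟨-j, ?_⟩
        have e2 : z + -j * n = w := by rw [mul_comm] at hj; linarith
        rw [e2]; exact ⟨w2, w3⟩
      rw [← e]; exact h2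
    · have e : Out n S x t = S := by
        funext z
        refine propext ⟨fun h1 => h1.1, fun h1 => ⟨h1, ?_⟩⟩
        rintro ⟨j, j1, j2⟩
        exact hc ⟨_, (per_mul h.perS z j).2 h1, j1, j2⟩
      rw [e]; exact h

theorem del_inside (h : SR n S r) (hn : 0 < n) {x t : ℤ} (hx : S x) (ht : S t) (hxt : x < t)
    (htn : t < x + n) (hr : r x t) : SR n (Out n S x t) r :=
  del_inside_aux _ S h hn x t le_rfl hx ht hxt htn hr

/-- The classes which survive: the residues `0, d, d + 1, …, k - 1` with respect to `c`. -/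
def Kp (k d c z : ℤ) : Prop := (z - c) % k = 0 ∨ d ≤ (z - c) % k

theorem kp_of_dvd {k d c z z' : ℤ} (h : k ∣ z' - z) : Kp k d c z' ↔ Kp k d c z := by
  have e : (z' - c) % k = (z - c) % k := by
    apply Int.emod_emod_of_dvd _ (dvd_refl k) |>.symm.trans _
    rw [Int.emod_emod_of_dvd _ (dvd_refl k)]
    have : z' - c = (z - c) + (z' - z) := by ring
    rw [this]
    obtain ⟨t, ht⟩ := h
    rw [ht, Int.add_mul_emod_self_left]
  unfold Kp
  rw [e]

/-- Deletion of everything strictly inside the chords `(u, u + d)`, `u` in the class of `c`. -/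
theorem sr_kp (h : ZRel n r) {k d c : ℤ} (hn : 0 < n) (hk : k ∣ n) (h2 : 2 ≤ d) (hdk : d < k)
    (hv : ∀ u, k ∣ u - c → r u (u + d)) : SR n (Kp k d c) r := by
  have hkn : k ≤ n := Int.le_of_dvd (by omega) hk
  obtain ⟨q, hq⟩ := hk
  have hq0 : 0 < q := by
    by_contra hlt
    have : k * q ≤ 0 := mul_nonpos_of_nonneg_of_nonpos (by omega) (by omega)
    omega
  -- the set after the deletion of the first `m` chords
  set T : ℕ → ℤ → Prop := fun m z => ¬ ∃ i : ℤ, 0 ≤ i ∧ i < m ∧ ∃ j : ℤ,
    c + k * i < z + j * n ∧ z + j * n < c + k * i + d with hT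
  -- no vertex with residue `0` or `≥ d` is inside a chord
  have hin : ∀ z i j : ℤ, c + k * i < z + j * n → z + j * n < c + k * i + d →
      ¬ Kp k d c z := by
    intro z i j h1 h3 h4
    have e : (z - c) % k = z + j * n - (c + k * i) := by
      have e1 : z - c = (z + j * n - (c + k * i)) + k * (i - j * q) := by rw [hq]; ring
      rw [e1, Int.add_mul_emod_self_left, Int.emod_eq_of_lt (by omega) (by omega)]
    unfold Kp at h4
    rw [e] at h4
    omega
  have main : ∀ m : ℕ, SR n (T m) r := by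
    intro m
    induction m with
    | zero =>
      have e : T 0 = fun _ => True := by
        funext z
        refine propext ⟨fun _ => trivial, fun _ => ?_⟩
        rintro ⟨i, i1, i2, -⟩
        simp at i2; omega
      rw [e]; exact SR.of_zrel h
    | succ m ih =>
      have hx : Kp k d c (c + k * m) := by
        left
        have e : c + k * (m : ℤ) - c = k * m := by ring
        rw [e, Int.mul_emod_right]
      have ht : Kp k d c (c + k * m + d) := by
        right
        have e : c + k * (m : ℤ) + d - c = d + k * m := by ring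
        rw [e, Int.add_mul_emod_self_left, Int.emod_eq_of_lt (by omega) (by omega)]
      have h3 := del_inside ih hn (x := c + k * m) (t := c + k * m + d)
        (by rintro ⟨i, -, -, j, j1, j2⟩; exact hin _ _ _ j1 j2 hx)
        (by rintro ⟨i, -, -, j, j1, j2⟩; exact hin _ _ _ j1 j2 ht) (by omega) (by omega)
        (hv _ ⟨m, by ring⟩)
      have e : T (m + 1) = Out n (T m) (c + k * m) (c + k * m + d) := by
        funext z
        refine propext ⟨fun h4 => ⟨?_, ?_⟩, fun h4 => ?_⟩
        · rintro ⟨i, i1, i2, hj⟩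
          exact h4 ⟨i, i1, by push_cast; omega, hj⟩
        · rintro ⟨j, hj⟩
          exact h4 ⟨m, by omega, by push_cast; omega, j, hj⟩
        · rintro ⟨i, i1, i2, hj⟩
          push_cast at i2
          by_cases him : i = m
          · rw [him] at hj; exact h4.2 hj
          · exact h4.1 ⟨i, i1, by omega, hj⟩
      rw [e]; exact h3
  have hqn : q = (q.toNat : ℤ) := by omega
  have e : T q.toNat = Kp k d c := by
    funext z
    refine propext ⟨fun h1 => ?_, fun h1 => ?_⟩
    · by_contra h3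
      unfold Kp at h3
      have k1 := Int.emod_nonneg (z - c) (show k ≠ 0 by omega)
      have k2 := Int.emod_lt_of_pos (z - c) (show 0 < k by omega)
      have k3 := Int.mul_ediv_add_emod (z - c) k
      have l1 := Int.emod_nonneg ((z - c) / k) (show q ≠ 0 by omega)
      have l2 := Int.emod_lt_of_pos ((z - c) / k) hq0
      have l3 := Int.mul_ediv_add_emod ((z - c) / k) q
      refine h1 ⟨(z - c) / k % q, l1, by omega, -((z - c) / k / q), ?_⟩
      have e1 : z + -((z - c) / k / q) * n = c + k * ((z - c) / k % q) + (z - c) % k := by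
        rw [hq]
        have : z = c + (k * ((z - c) / k) + (z - c) % k) := by omega
        have e2 : k * ((z - c) / k) = k * (q * ((z - c) / k / q)) + k * ((z - c) / k % q) := by
          rw [← mul_add, l3]
        linarith
      rw [e1]
      omega
    · rintro ⟨i, -, -, j, j1, j2⟩
      exact hin _ _ _ j1 j2 h1
  rw [← e]; exact main _

/-- An increasing enumeration `φ` of `S`. -/
structure Enum (n n' : ℕ) (S : ℤ → Prop) (φ : ℤ → ℤ) : Prop where
  mono : StrictMono φ
  mem : ∀ a, S (φ a)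
  surj : ∀ z, S z → ∃ a, φ a = z
  per : ∀ a, φ (a + n') = φ a + n

theorem Enum.zrel {n' : ℕ} {φ : ℤ → ℤ} (h : SR n S r) (hE : Enum n n' S φ) (hn' : 2 ≤ n') :
    ZRel n' (fun a b => r (φ a) (φ b)) where
  symm a b hab := h.symm _ _ hab
  per a b := by
    show r (φ (a + n')) (φ b) ↔ r (φ a) (φ b)
    rw [hE.per]; exact h.per _ _
  irrefl a := h.irrefl _
  succ a := by
    refine h.succ _ _ ⟨hE.mem _, hE.mem _, hE.mono (by omega), fun z hz h1 h2 => ?_⟩ ?_
    · obtain ⟨b, rfl⟩ := hE.surj z hz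
      rw [hE.mono.lt_iff_lt] at h1 h2
      omega
    · rw [← hE.per, hE.mono.lt_iff_lt]; omega
  cn i s t h1 h2 h3 h4 h5 h6 := by
    refine h.cn (φ i) _ _ ⟨hE.mem _, hE.mem _, hE.mem _, hE.mono h1, hE.mono h2, ?_, h4, h5,
      fun m hm m1 m2 => ?_⟩
    · rw [← hE.per]; exact hE.mono h3
    · obtain ⟨b, rfl⟩ := hE.surj m hm
      rw [hE.mono.lt_iff_lt] at m1 m2
      exact h6 b m1 m2
  nc i s t h1 h2 h3 h4 h5 h6 := by
    obtain ⟨c, c1, c2, c3, c4⟩ := h.nc (φ i) (φ s) (φ t) ⟨hE.mem _, hE.mem _, hE.mem _,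
      hE.mono h1, hE.mono h2, by rw [← hE.per]; exact hE.mono h3, h4, h5, fun m hm m1 m2 => by
        obtain ⟨b, rfl⟩ := hE.surj m hm
        rw [hE.mono.lt_iff_lt] at m1 m2
        exact h6 b m1 m2⟩
    obtain ⟨c', ⟨d1, d2⟩, d3⟩ := Dism.exists_last (P := fun a => φ a ≤ c ∧ a < t) (b := t)
      (fun a ha => ha.2.le) (a := s) ⟨c1, h2⟩
    refine ⟨c', d3 s ⟨c1, h2⟩, d2, fun x y x1 x2 y1 y2 => ?_, fun x y x1 x2 y1 y2 => ?_⟩
    · exact c3 _ _ (hE.mem _) (hE.mem _) (hE.mono.monotone x1) (hE.mono x2) (hE.mono y1)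
        (le_trans (hE.mono.monotone y2) d1)
    · refine c4 _ _ (hE.mem _) (hE.mem _) (hE.mono x1)
        (by rw [← hE.per]; exact hE.mono.monotone x2) ?_ (hE.mono y2)
      by_contra hlt
      have := d3 y ⟨by omega, y2⟩
      omega

/-- The words of the reduced structure. -/
theorem Enum.wd {n' : ℕ} {φ : ℤ → ℤ} {k k' : ℤ} (hE : Enum n n' S φ) (hw : Wd n k r)
    (hS : ∀ z z', k ∣ z' - z → (S z' ↔ S z)) (hres : ∀ a b, k' ∣ b - a ↔ k ∣ φ b - φ a) :
    Wd n' k' (fun a b => r (φ a) (φ b)) := by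
  intro a a' haa
  obtain ⟨m, m1, m2, m3, m4⟩ := hw (φ a) (φ a') ((hres _ _).1 haa)
  have inj : ∀ {x y : ℤ}, φ x = φ y → x = y := fun h => hE.mono.injective h
  -- from an offset of the reduced structure to the next one
  have key : ∀ o, Fw n' (fun a b => r (φ a) (φ b)) a o →
      Fw n r (φ a) (φ (a + o) - φ a) := by
    rintro o ⟨o1, o2, o3⟩
    have e1 : φ a < φ (a + o) := hE.mono (by omega)
    have e2 : φ (a + o) < φ (a + n') := hE.mono (by omega)
    rw [hE.per] at e2
    refine ⟨by omega, by omega, ?_⟩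
    have e : φ a + (φ (a + o) - φ a) = φ (a + o) := by ring
    rw [e]; exact o3
  have hex : ∀ o, Fw n' (fun a b => r (φ a) (φ b)) a o →
      ∃ b, φ b = φ a' + m (φ (a + o) - φ a) := by
    intro o ho
    refine hE.surj _ ((hS (φ (a + o)) _ ?_).2 (hE.mem _))
    have d1 := m2 _ (key o ho)
    have d2 := (hres _ _).1 haa
    have e : φ a' + m (φ (a + o) - φ a) - φ (a + o) =
        (m (φ (a + o) - φ a) - (φ (a + o) - φ a)) + (φ a' - φ a) := by ring
    rw [e]; exact dvd_add d1 d2
  choose! β hβ using hex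
  refine ⟨fun o => β o - a', fun o ho => ?_, fun o ho => ?_, fun o o' ho ho' hlt => ?_,
    fun o' ho' => ?_⟩
  · obtain ⟨p1, p2, p3⟩ := m1 _ (key o ho)
    have hb := hβ o ho
    have q1 : a' < β o := by
      rw [← hE.mono.lt_iff_lt]; omega
    have q2 : β o < a' + n' := by
      rw [← hE.mono.lt_iff_lt, hE.per]; omega
    refine ⟨by show 0 < β o - a'; omega, by show β o - a' < n'; omega, ?_⟩
    show r (φ a') (φ (a' + (β o - a')))
    have e : a' + (β o - a') = β o := by ring
    rw [e, hb]; exact p3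
  · show k' ∣ β o - a' - o
    have d1 : k' ∣ β o - (a + o) := by
      rw [hres, hβ o ho]
      have d1 := m2 _ (key o ho)
      have d2 := (hres _ _).1 haa
      have e : φ a' + m (φ (a + o) - φ a) - φ (a + o) =
          (m (φ (a + o) - φ a) - (φ (a + o) - φ a)) + (φ a' - φ a) := by ring
      rw [e]; exact dvd_add d1 d2
    have e : β o - a' - o = (β o - (a + o)) - (a' - a) := by ring
    rw [e]; exact dvd_sub d1 haa
  · show β o - a' < β o' - a'
    have h1 := m3 _ _ (key o ho) (key o' ho') (by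
      have := hE.mono (show a + o < a + o' by omega)
      omega)
    have h2 : β o < β o' := by
      rw [← hE.mono.lt_iff_lt, hβ o ho, hβ o' ho']; omega
    omega
  · obtain ⟨o1, o2, o3⟩ := ho'
    have e1 : φ a' < φ (a' + o') := hE.mono (by omega)
    have e2 : φ (a' + o') < φ (a' + n') := hE.mono (by omega)
    rw [hE.per] at e2
    obtain ⟨p, p1, p2⟩ := m4 (φ (a' + o') - φ a') ⟨by omega, by omega, by
      have e : φ a' + (φ (a' + o') - φ a') = φ (a' + o') := by ring
      rw [e]; exact o3⟩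
    have d1 := m2 _ p1
    have d2 := (hres _ _).1 haa
    obtain ⟨b, hb⟩ := hE.surj (φ a + p) ((hS (φ (a' + o')) _ (by
      have e : φ a + p - φ (a' + o') = -((m p - p) + (φ a' - φ a)) := by rw [p2]; ring
      rw [e]; exact (dvd_neg).2 (dvd_add d1 d2))).2 (hE.mem _))
    obtain ⟨q1, q2, q3⟩ := p1
    have r1 : a < b := by rw [← hE.mono.lt_iff_lt]; omega
    have r2 : b < a + n' := by rw [← hE.mono.lt_iff_lt, hE.per]; omega
    have hF : Fw n' (fun a b => r (φ a) (φ b)) a (b - a) := by
      refine ⟨by omega, by omega, ?_⟩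
      show r (φ a) (φ (a + (b - a)))
      have e : a + (b - a) = b := by ring
      rw [e, hb]; exact q3
    refine ⟨b - a, hF, ?_⟩
    show β (b - a) - a' = o'
    have h1 := hβ _ hF
    have e : a + (b - a) = b := by ring
    rw [e, hb] at h1
    have e3 : φ a + p - φ a = p := by ring
    rw [e3, p2] at h1
    have h2 : β (b - a) = a' + o' := inj (by rw [h1]; ring)
    omega

/-! ### The enumeration of the surviving classes -/

/-- The position of the class `x` (`0 ≤ x < k - d + 1`) of the reduced structure. -/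
def gg (d x : ℤ) : ℤ := if x = 0 then 0 else d - 1 + x

/-- The enumeration of the set `Kp k d c`. -/
def ph (k' k d c a : ℤ) : ℤ := c + k * (a / k') + gg d (a % k')

theorem ph_eq {k' k d c : ℤ} (hk' : 0 < k') {p x : ℤ} (h0 : 0 ≤ x) (h1 : x < k') :
    ph k' k d c (x + k' * p) = c + k * p + gg d x := by
  unfold ph
  rw [Int.add_mul_emod_self_left, Int.emod_eq_of_lt h0 h1, Int.add_mul_ediv_left _ _ hk'.ne',
    Int.ediv_eq_zero_of_lt h0 h1, zero_add]

theorem ph_add {k' k d c : ℤ} (hk' : 0 < k') (a j : ℤ) :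
    ph k' k d c (a + k' * j) = ph k' k d c a + k * j := by
  unfold ph
  rw [Int.add_mul_emod_self_left, Int.add_mul_ediv_left _ _ hk'.ne']
  ring

theorem enum_ph {n q : ℕ} {k d c : ℤ} (hn : (n : ℤ) = k * q) (h2 : 2 ≤ d) (hdk : d < k) {n' : ℕ}
    (hn' : (n' : ℤ) = (k - d + 1) * q) : Enum n n' (Kp k d c) (ph (k - d + 1) k d c) where
  mono := by
    refine strictMono_int_of_lt_succ fun a => ?_
    obtain ⟨p, x, h0, h1, rfl⟩ : ∃ p x : ℤ, 0 ≤ x ∧ x < k - d + 1 ∧ a = x + (k - d + 1) * p :=
      ⟨a / (k - d + 1), a % (k - d + 1), Int.emod_nonneg _ (by omega),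
        Int.emod_lt_of_pos _ (by omega), by
          have := Int.mul_ediv_add_emod a (k - d + 1); omega⟩
    rw [ph_eq (by omega) h0 h1]
    by_cases hx : x + 1 < k - d + 1
    · have e : x + (k - d + 1) * p + 1 = (x + 1) + (k - d + 1) * p := by ring
      rw [e, ph_eq (by omega) (by omega) hx]
      unfold gg
      split_ifs <;> omega
    · have e : x + (k - d + 1) * p + 1 = 0 + (k - d + 1) * (p + 1) := by
        have : x = k - d := by omega
        rw [this]; ring
      rw [e, ph_eq (by omega) le_rfl (by omega)]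
      have e2 : k * (p + 1) = k * p + k := by ring
      rw [e2]
      unfold gg
      split_ifs <;> omega
  mem a := by
    obtain ⟨p, x, h0, h1, rfl⟩ : ∃ p x : ℤ, 0 ≤ x ∧ x < k - d + 1 ∧ a = x + (k - d + 1) * p :=
      ⟨a / (k - d + 1), a % (k - d + 1), Int.emod_nonneg _ (by omega),
        Int.emod_lt_of_pos _ (by omega), by
          have := Int.mul_ediv_add_emod a (k - d + 1); omega⟩
    rw [ph_eq (by omega) h0 h1]
    have e : c + k * p + gg d x - c = gg d x + k * p := by ring
    unfold Kp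
    rw [e, Int.add_mul_emod_self_left]
    unfold gg
    split_ifs with hx
    · left; simp
    · right; rw [Int.emod_eq_of_lt (by omega) (by omega)]; omega
  surj z hz := by
    have k1 := Int.emod_nonneg (z - c) (show k ≠ 0 by omega)
    have k2 := Int.emod_lt_of_pos (z - c) (show 0 < k by omega)
    have k3 := Int.mul_ediv_add_emod (z - c) k
    by_cases hx : (z - c) % k = 0
    · refine ⟨0 + (k - d + 1) * ((z - c) / k), ?_⟩
      rw [ph_eq (by omega) le_rfl (by omega)]
      unfold gg
      split_ifs <;> omega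
    · have hy : d ≤ (z - c) % k := by
        rcases hz with hz | hz
        · exact (hx hz).elim
        · exact hz
      refine ⟨((z - c) % k - d + 1) + (k - d + 1) * ((z - c) / k), ?_⟩
      rw [ph_eq (by omega) (by omega) (by omega)]
      unfold gg
      split_ifs <;> omega
  per a := by
    rw [hn', ph_add (by omega), hn]

theorem ph_res {k d c : ℤ} (h2 : 2 ≤ d) (hdk : d < k) (a b : ℤ) :
    k - d + 1 ∣ b - a ↔ k ∣ ph (k - d + 1) k d c b - ph (k - d + 1) k d c a := by
  obtain ⟨p, x, h0, h1, rfl⟩ : ∃ p x : ℤ, 0 ≤ x ∧ x < k - d + 1 ∧ a = x + (k - d + 1) * p :=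
    ⟨a / (k - d + 1), a % (k - d + 1), Int.emod_nonneg _ (by omega),
      Int.emod_lt_of_pos _ (by omega), by
        have := Int.mul_ediv_add_emod a (k - d + 1); omega⟩
  obtain ⟨p', x', h0', h1', rfl⟩ : ∃ p x : ℤ, 0 ≤ x ∧ x < k - d + 1 ∧ b = x + (k - d + 1) * p :=
    ⟨b / (k - d + 1), b % (k - d + 1), Int.emod_nonneg _ (by omega),
      Int.emod_lt_of_pos _ (by omega), by
        have := Int.mul_ediv_add_emod b (k - d + 1); omega⟩
  rw [ph_eq (by omega) h0 h1, ph_eq (by omega) h0' h1']
  have e1 : x' + (k - d + 1) * p' - (x + (k - d + 1) * p) =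
      (x' - x) + (k - d + 1) * (p' - p) := by ring
  have e2 : c + k * p' + gg d x' - (c + k * p + gg d x) = (gg d x' - gg d x) + k * (p' - p) := by
    ring
  rw [e1, e2, dvd_add_left (dvd_mul_right _ _), dvd_add_left (dvd_mul_right _ _)]
  constructor
  · intro h
    have := Int.eq_zero_of_abs_lt_dvd h (by rw [abs_lt]; constructor <;> omega)
    have e : x' = x := by omega
    rw [e]; simp
  · intro h
    have h3 : gg d x' - gg d x = 0 := by
      refine Int.eq_zero_of_abs_lt_dvd h ?_
      unfold gg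
      rw [abs_lt]
      split_ifs <;> constructor <;> omega
    have h4 : x' = x := by
      unfold gg at h3
      split_ifs at h3 <;> omega
    rw [h4]; simp

/-- **The cut.** -/
theorem cut {k d c : ℤ} (h : ZRel n r) (hn : 0 < n) (hk : k ∣ n) (hw : Wd n k r) (h2 : 2 ≤ d)
    (hdk : d < k) (hv : ∀ u, k ∣ u - c → r u (u + d)) :
    ∃ (n' : ℕ) (r' : ℤ → ℤ → Prop), ZRel n' r' ∧ (k - d + 1) ∣ (n' : ℤ) ∧
      (n' : ℤ) * k = n * (k - d + 1) ∧ Wd n' (k - d + 1) r' ∧ (Lkd (k - d + 1) r' → Lkd k r) := by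
  have hS := sr_kp h hn hk h2 hdk hv
  obtain ⟨q, hq⟩ := hk
  have hq0 : 0 < q := by
    by_contra hlt
    have : k * q ≤ 0 := mul_nonpos_of_nonneg_of_nonpos (by omega) (by omega)
    omega
  obtain ⟨q, rfl⟩ : ∃ m : ℕ, q = m := ⟨q.toNat, by omega⟩
  have hk'q : 0 ≤ (k - d + 1) * (q : ℤ) := mul_nonneg (by omega) (by omega)
  obtain ⟨n', hn'⟩ : ∃ n' : ℕ, (n' : ℤ) = (k - d + 1) * q :=
    ⟨((k - d + 1) * (q : ℤ)).toNat, by omega⟩
  have hE : Enum n n' (Kp k d c) (ph (k - d + 1) k d c) := enum_ph hq h2 hdk hn'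
  refine ⟨n', _, hE.zrel hS ?_, ⟨q, hn'⟩, by rw [hn', hq]; ring,
    hE.wd hw (fun z z' hz => kp_of_dvd hz) (ph_res h2 hdk), ?_⟩
  · have : (k - d + 1) * 1 ≤ (k - d + 1) * (q : ℤ) :=
      mul_le_mul_of_nonneg_left (by omega) (by omega)
    omega
  · rintro ⟨a, ha⟩
    refine ⟨ph (k - d + 1) k d c a, fun u hu => ?_⟩
    obtain ⟨b, rfl⟩ := hE.surj u ((kp_of_dvd hu).2 (hE.mem a))
    have h1 := ha b ((ph_res h2 hdk a b).2 hu)
    have e : ph (k - d + 1) k d c (b + (k - d + 1)) = ph (k - d + 1) k d c b + k := by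
      have := ph_add (k' := k - d + 1) (k := k) (d := d) (c := c) (by omega) b 1
      rwa [mul_one, mul_one] at this
    rw [← e]; exact h1


/-! ### The reduction -/

/-- At most three vertices per class. -/
theorem linked_three {k : ℤ} (h : ZRel n r) (hk : 0 < k) (hkn : k ∣ n) (hlt : k < n)
    (h3 : 3 ≤ n) (hn3 : (n : ℤ) ≤ 3 * k) (hw : Wd n k r) : Lkd k r := by
  have hF : Fam n k (fun _ : Bool => r) := ⟨h3, hk, hkn, fun _ => h, fun _ _ i i' hi => hw i i' hi⟩
  have hag := fun i i' hi o => hF.agree hn3 true true i i' hi o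
  have hp : ∀ a b, r (a + k) (b + k) ↔ r a b := by
    intro a b
    have hn : 0 < (n : ℤ) := by omega
    -- reduce to `0 ≤ b - a < n`
    obtain ⟨j, o, o1, o2, rfl⟩ : ∃ j o : ℤ, 0 ≤ o ∧ o < n ∧ b = a + o + j * n :=
      ⟨(b - a) / n, (b - a) % n, Int.emod_nonneg _ hn.ne', Int.emod_lt_of_pos _ hn, by
        have := Int.mul_ediv_add_emod (b - a) n
        rw [mul_comm] at this
        linarith⟩
    have hper : ∀ x y : ℤ, r x (y + j * n) ↔ r x y := fun x y =>
      per_mul (p := fun z => r x z) (fun z => ⟨fun h1 => h.symm _ _ ((h.per _ _).1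
        (h.symm _ _ h1)), fun h1 => h.symm _ _ ((h.per _ _).2 (h.symm _ _ h1))⟩) y j
    have e : a + o + j * n + k = (a + k + o) + j * n := by ring
    rw [e, hper, hper]
    rcases eq_or_lt_of_le o1 with o3 | o3
    · rw [← o3, add_zero, add_zero]
      exact ⟨fun h1 => (h.irrefl _ h1).elim, fun h1 => (h.irrefl _ h1).elim⟩
    · have h1 := hag a (a + k) (by simp) o
      unfold Fw at h1
      constructor
      · intro h2
        exact (h1.2 ⟨o3, o2, h2⟩).2.2
      · intro h2
        exact (h1.1 ⟨o3, o2, h2⟩).2.2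
  obtain ⟨α, hα⟩ := exists_link_of_periodic h hk hlt hp
  refine ⟨α, fun u hu => ?_⟩
  obtain ⟨t, ht⟩ := hu
  have key : ∀ m : ℤ, r (α + k * m) (α + k * m + k) := by
    intro m
    have := per_mul (n := k.toNat) (p := fun z => r z (z + k)) (fun z => by
      have e : ((k.toNat : ℕ) : ℤ) = k := by omega
      rw [e]
      exact hp z (z + k)) α m
    have e : α + m * ((k.toNat : ℕ) : ℤ) = α + k * m := by
      have e : ((k.toNat : ℕ) : ℤ) = k := by omega
      rw [e]; ring
    rw [e] at this
    exact this.2 hα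
  have e : u = α + k * t := by omega
  rw [e]; exact key t

/-- If there is no structure (with at least four vertices per class) without chords `(u, u + d)`,
`2 ≤ d ≤ k`, at all vertices `u` of one class, then every structure has the links `(u, u + k)` at all
vertices of one class. -/
theorem linked_of
    (H : ∀ (n : ℕ) (k : ℤ) (r : ℤ → ℤ → Prop), ZRel n r → 2 ≤ k → k ∣ (n : ℤ) → 4 * k ≤ n →
      Wd n k r → (∀ c d, 2 ≤ d → d ≤ k → ¬ ∀ u, k ∣ u - c → r u (u + d)) → False) :
    ∀ (n : ℕ) (k : ℤ) (r : ℤ → ℤ → Prop), ZRel n r → 0 < k → k ∣ (n : ℤ) → k < n → Wd n k r →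
      Lkd k r := by
  have main : ∀ N : ℕ, ∀ (n : ℕ) (k : ℤ) (r : ℤ → ℤ → Prop), k.toNat ≤ N → ZRel n r → 0 < k →
      k ∣ (n : ℤ) → k < n → Wd n k r → Lkd k r := by
    intro N
    induction N with
    | zero => intro n k r h1 _ h2; omega
    | succ N ih =>
      intro n k r hN h hk hkn hlt hw
      by_cases hk1 : k = 1
      · subst hk1
        exact ⟨0, fun u _ => h.succ u⟩
      obtain ⟨q, hq⟩ := id hkn
      have hq2 : 2 ≤ q := by
        by_contra hcon
        have : k * q ≤ k * 1 := mul_le_mul_of_nonneg_left (by omega) hk.le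
        omega
      have hn4 : 4 ≤ (n : ℤ) := by
        have : k * 2 ≤ k * q := mul_le_mul_of_nonneg_left hq2 hk.le
        omega
      by_cases hn3 : (n : ℤ) ≤ 3 * k
      · exact linked_three h hk hkn hlt (by omega) hn3 hw
      have hq4 : 4 ≤ q := by
        by_contra hcon
        have : k * q ≤ k * 3 := mul_le_mul_of_nonneg_left (by omega) hk.le
        omega
      have h4k : 4 * k ≤ n := by
        have : k * 4 ≤ k * q := mul_le_mul_of_nonneg_left hq4 hk.le
        omega
      by_contra hno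
      refine H n k r h (by omega) hkn h4k hw fun c d d1 d2 hv => ?_
      rcases eq_or_lt_of_le d2 with hd | hd
      · subst hd
        exact hno ⟨c, hv⟩
      · obtain ⟨n', r', p1, p2, p3, p4, p5⟩ := cut h (by omega) hkn hw d1 hd hv
        refine hno (p5 (ih n' (k - d + 1) r' (by omega) p1 (by omega) p2 ?_ p4))
        by_contra hcon
        have h5 : (n' : ℤ) * k ≤ (k - d + 1) * k := mul_le_mul_of_nonneg_right (by omega) hk.le
        have h6 : k * (k - d + 1) < n * (k - d + 1) := mul_lt_mul_of_pos_right hlt (by omega)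
        have h7 : (k - d + 1) * k = k * (k - d + 1) := by ring
        omega
  exact fun n k r h => main _ n k r le_rfl h

/-- The second sights of two mates are the same, unless one of them is beyond the next mate. -/
theorem second_dvd {k : ℤ} (hw : Wd n k r) (h : ZRel n r) {v v' d d' : ℤ}
    (hv : k ∣ v' - v) (hd : 1 < d) (hdn : d < n) (hr : r v (v + d))
    (hh : ∀ m, 1 < m → m < d → ¬ r v (v + m)) (hd' : 1 < d') (hdn' : d' < n)
    (hr' : r v' (v' + d')) (hh' : ∀ m, 1 < m → m < d' → ¬ r v' (v' + m)) (hle : d ≤ d') :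
    k ∣ d' - d := by
  obtain ⟨o', p1, p2, p3, p4⟩ := (hw v v' hv).next (fun o ho => ho.1) (d := d) (fun o ho => by
    constructor
    · rintro ⟨a1, a2, a3⟩
      have : o = 1 := by
        by_contra hne
        exact hh o (by omega) ho a3
      subst this
      exact ⟨a1, a2, h.succ _⟩
    · rintro ⟨a1, a2, a3⟩
      have : o = 1 := by
        by_contra hne
        exact hh' o (by omega) (by omega) a3
      subst this
      exact ⟨a1, a2, h.succ _⟩) ⟨by omega, hdn, hr⟩
  have e : o' = d' := by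
    rcases lt_trichotomy o' d' with hl | he | hg
    · exact (hh' o' (by omega) hl p1.2.2).elim
    · exact he
    · exact (p4 d' hle hg ⟨by omega, hdn', hr'⟩).elim
  rw [← e]; exact p3

/-- Without chords `(u, u + d)` at all vertices of one class, every class contains a vertex `v`
which sees nothing in `(v + 1, v + k]`. -/
theorem alpha_one {k : ℤ} (h : ZRel n r) (hkn : k < n) (hw : Wd n k r)
    (hc : ∀ c d, 2 ≤ d → d ≤ k → ¬ ∀ u, k ∣ u - c → r u (u + d)) (c : ℤ) :
    ∃ v, k ∣ v - c ∧ ∀ m, v + 1 < m → m ≤ v + k → ¬ r v m := by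
  by_contra hcon
  have hex : ∀ v, k ∣ v - c → ∃ d, 1 < d ∧ d ≤ k ∧ r v (v + d) ∧
      ∀ m, 1 < m → m < d → ¬ r v (v + m) := by
    intro v hv
    by_contra hno
    refine hcon ⟨v, hv, fun m m1 m2 m3 => ?_⟩
    obtain ⟨d, ⟨d1, d2⟩, d3⟩ := Int.exists_least_of_bdd (P := fun d => 1 < d ∧ r v (v + d))
      ⟨1, fun z hz => hz.1.le⟩ ⟨m - v, by omega, by
        have e : v + (m - v) = m := by ring
        rw [e]; exact m3⟩
    have d4 := d3 (m - v) ⟨by omega, by
      have e : v + (m - v) = m := by ring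
      rw [e]; exact m3⟩
    refine hno ⟨d, d1, by omega, d2, fun z z1 z2 z3 => ?_⟩
    have := d3 z ⟨z1, z3⟩
    omega
  obtain ⟨d, d1, d2, d3, d4⟩ := hex c (by simp)
  refine hc c d (by omega) d2 fun u hu => ?_
  obtain ⟨d', e1, e2, e3, e4⟩ := hex u hu
  have : k ∣ d' - d := by
    rcases le_total d d' with hle | hle
    · exact second_dvd hw h hu d1 (by omega) d3 d4 e1 (by omega) e3 e4 hle
    · have hu' : k ∣ c - u := by
        have := (dvd_neg).2 hu
        rwa [neg_sub] at this
      have := second_dvd hw h hu' e1 (by omega) e3 e4 d1 (by omega) d3 d4 hle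
      have := (dvd_neg).2 this
      rwa [neg_sub] at this
  have h0 : d' - d = 0 := Int.eq_zero_of_abs_lt_dvd this (by
    rw [abs_lt]; constructor <;> omega)
  have e : d = d' := by omega
  rw [e]; exact e3

/-- The mirror image of a relation. -/
def mir (r : ℤ → ℤ → Prop) (a b : ℤ) : Prop := r (-a) (-b)

theorem zrel_mir (h : ZRel n r) : ZRel n (mir r) where
  symm a b hab := h.symm _ _ hab
  per a b := by
    show r (-(a + n)) (-b) ↔ r (-a) (-b)
    rw [← h.per (-(a + n)) (-b)]
    have e : -(a + (n : ℤ)) + n = -a := by ring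
    rw [e]
  irrefl a := h.irrefl _
  succ a := by
    refine h.symm _ _ ?_
    have := h.succ (-(a + 1))
    have e : -(a + 1) + 1 = -a := by ring
    rwa [e] at this
  cn i s t h1 h2 h3 h4 h5 h6 := by
    have hper : ∀ x y : ℤ, r x (y + n) ↔ r x y := fun x y =>
      ⟨fun h1 => h.symm _ _ ((h.per _ _).1 (h.symm _ _ h1)),
        fun h1 => h.symm _ _ ((h.per _ _).2 (h.symm _ _ h1))⟩
    have h7 := h.cn (-i) (-t + n) (-s + n) (by omega) (by omega) (by omega)
      ((hper _ _).2 h5) ((hper _ _).2 h4) (fun m m1 m2 m3 => by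
        refine h6 (-(m - n)) (by omega) (by omega) ?_
        show r (-i) (- -(m - n))
        rw [neg_neg, ← hper]
        have e : m - (n : ℤ) + n = m := by ring
        rwa [e])
    rw [hper] at h7
    exact h.symm _ _ ((h.per _ _).1 h7)
  nc i s t h1 h2 h3 h4 h5 h6 := by
    have hper : ∀ x y : ℤ, r x (y + n) ↔ r x y := fun x y =>
      ⟨fun h1 => h.symm _ _ ((h.per _ _).1 (h.symm _ _ h1)),
        fun h1 => h.symm _ _ ((h.per _ _).2 (h.symm _ _ h1))⟩
    obtain ⟨c, c1, c2, c3, c4⟩ := h.nc (-i) (-t + n) (-s + n) (by omega) (by omega) (by omega)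
      ((hper _ _).2 h5) ((hper _ _).2 h4) (fun m m1 m2 m3 => by
        refine h6 (-(m - n)) (by omega) (by omega) ?_
        show r (-i) (- -(m - n))
        rw [neg_neg, ← hper]
        have e : m - (n : ℤ) + n = m := by ring
        rwa [e])
    -- the vertices strictly between are cut between `c` and `c + 1`; mirrored: `n - c - 1`
    refine ⟨n - c - 1, by omega, by omega, fun x y x1 x2 x3 x4 x5 => ?_,
      fun x y x1 x2 x3 x4 x5 => ?_⟩
    · refine c4 (-x + n) (-y + n) (by omega) (by omega) (by omega) (by omega) ?_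
      rw [h.per, hper]; exact x5
    · refine c3 (-x + n) (-y + n) (by omega) (by omega) (by omega) (by omega) ?_
      rw [h.per, hper]; exact x5

theorem wd_mir {k : ℤ} (h : ZRel n r) (hw : Wd n k r) : Wd n k (mir r) := by
  have hper : ∀ x y : ℤ, r x (y + n) ↔ r x y := fun x y =>
    ⟨fun h1 => h.symm _ _ ((h.per _ _).1 (h.symm _ _ h1)),
      fun h1 => h.symm _ _ ((h.per _ _).2 (h.symm _ _ h1))⟩
  have hfw : ∀ i o, Fw n (mir r) i o ↔ Fw n r (-i) (n - o) := by
    intro i o
    unfold Fw mir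
    have e1 : -i + ((n : ℤ) - o) = -(i + o) + n := by ring
    rw [e1, hper]
    constructor
    · rintro ⟨a, b, c⟩; exact ⟨by omega, by omega, c⟩
    · rintro ⟨a, b, c⟩; exact ⟨by omega, by omega, c⟩
  intro i i' hi
  obtain ⟨φ, h1, h2, h3, h4⟩ := hw (-i) (-i') (by
    have := (dvd_neg).2 hi
    have e : -i' - -i = -(i' - i) := by ring
    rwa [e])
  refine ⟨fun o => n - φ (n - o), fun o ho => ?_, fun o ho => ?_, fun a b ha hb hab => ?_,
    fun o ho => ?_⟩
  · rw [hfw] at ho ⊢
    rw [sub_sub_cancel]; exact h1 _ ho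
  · rw [hfw] at ho
    have := h2 _ ho
    have e : (n : ℤ) - φ (n - o) - o = -(φ (n - o) - (n - o)) := by ring
    rw [e]; exact (dvd_neg).2 this
  · rw [hfw] at ha hb
    have := h3 _ _ hb ha (by omega)
    show (n : ℤ) - φ (n - a) < n - φ (n - b)
    omega
  · rw [hfw] at ho
    obtain ⟨p, p1, p2⟩ := h4 _ ho
    refine ⟨n - p, (hfw _ _).2 (by rw [sub_sub_cancel]; exact p1), ?_⟩
    show (n : ℤ) - φ (n - (n - p)) = o
    rw [sub_sub_cancel, p2, sub_sub_cancel]

/-- The mirror image of `alpha_one`. -/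
theorem alpha_one' {k : ℤ} (h : ZRel n r) (hkn : k < n) (hw : Wd n k r)
    (hc : ∀ c d, 2 ≤ d → d ≤ k → ¬ ∀ u, k ∣ u - c → r u (u + d)) (c : ℤ) :
    ∃ v, k ∣ v - c ∧ ∀ m, v - k ≤ m → m < v - 1 → ¬ r v m := by
  obtain ⟨v, hv, hv2⟩ := alpha_one (zrel_mir h) hkn (wd_mir h hw)
    (fun c' d d1 d2 hv => hc (-c' - d) d d1 d2 fun u hu => by
      have h1 := hv (-u - d) (by
        have e : -u - d - c' = -(u - (-c' - d)) := by ring
        rw [e]; exact (dvd_neg).2 hu)
      unfold mir at h1
      have e1 : -(-u - d) = u + d := by ring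
      have e2 : -(-u - d + d) = u := by ring
      rw [e1, e2] at h1
      exact h.symm _ _ h1) (-c)
  refine ⟨-v, by
    have e : -v - c = -(v - -c) := by ring
    rw [e]; exact (dvd_neg).2 hv, fun m m1 m2 m3 => hv2 (-m) (by omega) (by omega) ?_⟩
  show r (-v) (- -m)
  rwa [neg_neg]


end Cut

end VisMap
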