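import Mathlib

/-!
# Mapping visibility graphs with known vertex count: the definitions

Polygons are given by the cyclic sequence of their vertices `v : ZMod n → ℂ`, labelled
counter-clockwise.  Collinear vertices are allowed.
-/

namespace VisMap

open Set

variable {n : ℕ}

/-- The boundary curve of the closed polygonal chain with vertices `v`. -/
def bd (v : ZMod n → ℂ) : Set ℂ := ⋃ i, segment ℝ (v i) (v (i + 1))

/-- The closed region enclosed by a closed curve `T`: the points `z` whose connected component in the
complement of `T` is bounded (for `z ∈ T` this component is empty by convention, so `T ⊆ reg T`). -/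
def reg (T : Set ℂ) : Set ℂ := {z | Bornology.IsBounded (connectedComponentIn Tᶜ z)}

/-- The closed polygonal chain `v` is simple: the vertices are distinct, consecutive edges meet only in
their common vertex and all other pairs of edges are disjoint. -/
structure IsSimple (v : ZMod n → ℂ) : Prop where
  three : 3 ≤ n
  inj : Function.Injective v
  adj : ∀ i, segment ℝ (v i) (v (i + 1)) ∩ segment ℝ (v (i + 1)) (v (i + 2)) = {v (i + 1)}
  disj : ∀ i j, j ≠ i → j ≠ i + 1 → i ≠ j + 1 →
    Disjoint (segment ℝ (v i) (v (i + 1))) (segment ℝ (v j) (v (j + 1)))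

/-- The counter-clockwise angle in `[0, 2π)` at the vertex `i` from the direction of the next vertex
`i + 1` to the direction of the vertex `j`. -/
noncomputable def ang (v : ZMod n → ℂ) (i j : ZMod n) : ℝ :=
  toIcoMod Real.two_pi_pos 0 (Complex.arg ((v j - v i) / (v (i + 1) - v i)))

/-- The labelling is counter-clockwise: at every vertex `i` the interior angle of the polygon is the
angle swept counter-clockwise from the next vertex `i + 1` to the previous vertex `i - 1`, that is, near
the vertex this sector lies in the polygon. -/
def CCW (v : ZMod n → ℂ) : Prop :=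
  ∀ i, ∀ᶠ r : ℝ in nhdsWithin 0 (Ioi 0), ∀ φ ∈ Icc (0 : ℝ) (ang v i (i - 1)),
    v i + r * Complex.exp (φ * Complex.I) * (v (i + 1) - v i) ∈ reg (bd v)

/-- A simple polygon with `n` vertices, labelled counter-clockwise. -/
structure IsPolygon (v : ZMod n → ℂ) : Prop where
  simple : IsSimple v
  ccw : CCW v

/-- The vertices `i ≠ j` see each other: the segment between them lies in the polygon. -/
def Sees (v : ZMod n → ℂ) (i j : ZMod n) : Prop :=
  i ≠ j ∧ segment ℝ (v i) (v j) ⊆ reg (bd v)

theorem Sees.symm {v : ZMod n → ℂ} {i j : ZMod n} (h : Sees v i j) : Sees v j i :=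
  ⟨h.1.symm, by rw [segment_symm]; exact h.2⟩

/-- The visibility graph. -/
def visGraph (v : ZMod n → ℂ) : SimpleGraph (ZMod n) where
  Adj := Sees v
  symm := ⟨fun _ _ h => h.symm⟩
  loopless := ⟨fun _ h => h.1 rfl⟩

/-- At the vertex `i` the vertex `j` comes before the vertex `k` in counter-clockwise order through the
interior angle; vertices in the same direction are ordered as on the boundary, counted from `i`. -/
def Before (v : ZMod n → ℂ) (i j k : ZMod n) : Prop :=
  ang v i j < ang v i k ∨ (ang v i j = ang v i k ∧ (j - i).val < (k - i).val)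

/-- The number of vertices seen from `i`. -/
noncomputable def deg (v : ZMod n → ℂ) (i : ZMod n) : ℕ := {j | Sees v i j}.ncard

/-- `j` is the vertex in position `p` (counted from `0`) among the vertices seen from `i`. -/
def IsPort (v : ZMod n → ℂ) (i : ZMod n) (p : ℕ) (j : ZMod n) : Prop :=
  Sees v i j ∧ {k | Sees v i k ∧ Before v i k j}.ncard = p

open Classical in
/-- The vertex reached from `i` by choosing the position `p`. -/
noncomputable def move (v : ZMod n → ℂ) (i : ZMod n) (p : ℕ) : ZMod n :=
  if h : ∃ j, IsPort v i p j then h.choose else i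

/-- A strategy: from the past observations, most recent first, each of them the degree seen and the
position chosen, and from the degree seen now it chooses the next position, one of `0, …, d - 1`. -/
structure Strategy where
  next : List (ℕ × ℕ) → ℕ → ℕ
  valid : ∀ h d, 0 < d → next h d < d

/-- The list of observations (most recent first) and the current vertex after `t` steps of the
strategy `S` in the polygon `v`, started at the vertex `i`. -/
noncomputable def run (S : Strategy) (v : ZMod n → ℂ) (i : ZMod n) : ℕ → List (ℕ × ℕ) × ZMod n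
  | 0 => ([], i)
  | t + 1 =>
    let s := run S v i t
    ((deg v s.2, S.next s.1 (deg v s.2)) :: s.1, move v s.2 (S.next s.1 (deg v s.2)))

/-- Mapping is feasible for the simple polygons with `n` vertices. -/
def Feasible (n : ℕ) : Prop :=
  ∃ S : Strategy, ∀ (v : ZMod n → ℂ) (i : ZMod n), IsPolygon v →
    ∃ t : ℕ, ∀ (v' : ZMod n → ℂ) (i' : ZMod n), IsPolygon v' →
      (run S v' i' t).1 = (run S v i t).1 → Nonempty (visGraph v' ≃g visGraph v)

/-! ### The combinatorial side -/

/-- The combinatorial properties of the visibility relation used in the proof.  `cn`: two consecutive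
vertices `i + s`, `i + t` in the view of `i` see each other.  `nc`: there is one boundary edge
`i + c`, `i + c + 1` between them such that no vertex of `[i, i + s)` sees a vertex of `(i + s, i + c]`
and no vertex of `(i + t, i]` sees a vertex of `[i + c + 1, i + t)`. -/
structure VisRel (R : ZMod n → ZMod n → Prop) : Prop where
  symm : ∀ i j, R i j → R j i
  irrefl : ∀ i, ¬ R i i
  succ : ∀ i, R i (i + 1)
  cn : ∀ (i : ZMod n) (s t : ℕ), 0 < s → s < t → t < n → R i (i + s) → R i (i + t) →
    (∀ m : ℕ, s < m → m < t → ¬ R i (i + m)) → R (i + s) (i + t)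
  nc : ∀ (i : ZMod n) (s t : ℕ), 0 < s → s < t → t < n → R i (i + s) → R i (i + t) →
    (∀ m : ℕ, s < m → m < t → ¬ R i (i + m)) →
    ∃ c : ℕ, s ≤ c ∧ c < t ∧ (∀ x y : ℕ, x < s → s < y → y ≤ c → ¬ R (i + x) (i + y)) ∧
      (∀ x y : ℕ, t < x → x ≤ n → c < y → y < t → ¬ R (i + x) (i + y))

/-- The number of neighbours. -/
noncomputable def degR (R : ZMod n → ZMod n → Prop) (i : ZMod n) : ℕ := {j | R i j}.ncard

/-- `j` is the neighbour in position `p` in the boundary order counted from `i`. -/
def IsPortR (R : ZMod n → ZMod n → Prop) (i : ZMod n) (p : ℕ) (j : ZMod n) : Prop :=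
  R i j ∧ {k | R i k ∧ (k - i).val < (j - i).val}.ncard = p

/-- The combinatorial statement for `n`: two relations with the properties `VisRel` with equal degrees
and with ports that agree modulo the subgroup `H` of periods of both relations are isomorphic. -/
def Comb (n : ℕ) : Prop :=
  ∀ (H : AddSubgroup (ZMod n)) (R R' : ZMod n → ZMod n → Prop), VisRel R → VisRel R' →
    (∀ i, degR R' i = degR R i) →
    (∀ i p j j', IsPortR R i p j → IsPortR R' i p j' → j' - j ∈ H) →
    (∀ i, ∀ h ∈ H, degR R (i + h) = degR R i) →
    (∀ i p j j', ∀ h ∈ H, IsPortR R i p j → IsPortR R (i + h) p j' → j' - j ∈ H) →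
    (∀ i p j j', ∀ h ∈ H, IsPortR R' i p j → IsPortR R' (i + h) p j' → j' - j ∈ H) →
    ∃ e : ZMod n ≃ ZMod n, ∀ i j, R' (e i) (e j) ↔ R i j

end VisMap
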