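import Pool.Agent.Lib.MP_9f3af0_lc.Fat

/-!
# MP_9f3af0_lc: the first ear at a vertex with a maximal first gap (lemma U1)

Let `w` have a maximal first gap.  Then `w + 1` is an ear tip: `r (w - 1) (w + 1)`, and `w + 1` sees
everything that `w` sees.
-/

namespace VisMap

namespace Cut

variable {n : ℕ} {k h : ℤ} {r : ℤ → ℤ → Prop}

/-- U1 (a): the vertex `w` is an ear. -/
theorem MaxGap.ear (hz : ZRel n r) (hn : h + 1 < n) {w : ℤ} (hg : MaxGap h r w) :
    r (w - 1) (w + 1) := by
  obtain ⟨h1, hGB, hw1, hw2⟩ := hg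
  obtain ⟨m, m1, m2, m3⟩ := hGB.1 (w - 1)
  obtain ⟨u, u1, u2, u3, u4⟩ := exists_next (i := w - 1) (a := w) (b := m) (by omega) m3
  have hws : r (w - 1) w := by
    have := hz.succ (w - 1)
    rwa [sub_add_cancel] at this
  have hwu : r w u := hz.cn (w - 1) w u (by omega) u1 (by omega) hws u3 u4
  have hu : u = w + 1 := by
    by_contra hne
    exact hw2 u (by omega) (by omega) hwu
  rwa [hu] at u3

/-- U1 (b): `w + 1` sees everything that `w` sees. -/
theorem MaxGap.sub (hz : ZRel n r) (hn : h + 1 < n) {w : ℤ} (hg : MaxGap h r w) {y : ℤ}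
    (y1 : w + 1 < y) (y2 : y < w + n) (hy : r w y) : r (w + 1) y := by
  have ha := hg.ear hz hn
  obtain ⟨h1, hGB, hw1, hw2⟩ := hg
  have hp := ZR.of_zRel hz
  by_contra hno
  have hyh : w + h + 1 ≤ y := by
    by_contra hc
    exact hw2 y y1 (by omega) hy
  have hs0 : r (w + 1) (w + h + 1) :=
    hz.cn w (w + 1) (w + h + 1) (by omega) (by omega) (by omega) (hz.succ w) hw1 hw2
  have hyne : y ≠ w + h + 1 := fun he => hno (he ▸ hs0)
  have hlast : r (w + 1) (w - 1 + n) := (hp.perR _ _).2 (hz.symm _ _ ha)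
  have hyne2 : y ≠ w - 1 + n := fun he => hno (he ▸ hlast)
  obtain ⟨s, s1, s2, s3, s4⟩ := VisMap.exists_last (p := fun z => r (w + 1) z) (a := w + h + 1)
    (b := y) (by omega) hs0
  have hsy : s < y := by
    rcases s2.lt_or_eq with hl | he
    · exact hl
    · exact absurd (he ▸ s3) hno
  obtain ⟨t, t1, t2, t3, t4⟩ := exists_next (i := w + 1) (a := y) (b := w - 1 + n) (by omega) hlast
  obtain ⟨c, c1, c2, c3, c4⟩ := hz.nc (w + 1) s t (by omega) (by omega) (by omega) s3 t3
    (fun m m1 m2 m3 => by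
      rcases le_or_gt m y with hl | hg
      · exact s4 m m1 hl m3
      · exact t4 m hg m2 m3)
  have hyc : y ≤ c := by
    by_contra hc
    exact c4 (w + n) y (by omega) (by omega) (by omega) (by omega) ((hz.per w y).2 hy)
  obtain ⟨m, m1, m2, m3⟩ := hGB.2 (s + 1)
  exact c3 m (s + 1) (by omega) (by omega) (by omega) (by omega) (hz.symm _ _ m3)

end Cut

end VisMap
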