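import Pool.Agent.Lib.MP_9f3af0_lc.Jump

/-!
# MP_9f3af0_lc: fat rectangles and ears (helper53, after a decomposition of helper8)

`Fat k r s`: the rectangle `[s - k, s) × (s, s + k]` is hidden.  `NoFat`: there are no fat
rectangles.  `ear_mates`: without fat rectangles, all mates of a vertex with the largest first gap
are ears.  `linked_of_noFat`: `NoFat` implies that some class is linked.
-/

namespace VisMap

namespace Cut

/-- The rectangle `[s - k, s) × (s, s + k]` is hidden. -/
def Fat (k : ℤ) (r : ℤ → ℤ → Prop) (s : ℤ) : Prop :=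
  ∀ x y, s - k ≤ x → x < s → s < y → y ≤ s + k → ¬ r x y

/-- There are no fat rectangles. -/
def NoFat : Prop :=
  ∀ (n : ℕ) (k : ℤ) (r : ℤ → ℤ → Prop), ZRel n r → 2 ≤ k → k ∣ n → 4 * k ≤ n → Wd n k r →
    NL k r → ∀ s, ¬ Fat k r s

variable {n : ℕ} {k J : ℤ} {r : ℤ → ℤ → Prop}

/-- A vertex that sees nothing at the distances `2, …, k` and whose successor does not see the `k`
vertices before it is the corner of a fat rectangle. -/
theorem fat_of (h : ZRel n r) (hkn : 2 * k + 1 ≤ n) {w : ℤ}
    (h1 : ∀ m, w + 1 < m → m ≤ w + k → ¬ r w m) (h2 : ∀ x, w - k ≤ x → x < w → ¬ r (w + 1) x) :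
    Fat k r w := by
  have main : ∀ N : ℕ, ∀ y : ℤ, y ≤ w + N → w < y → y ≤ w + k → ∀ x, w - k ≤ x → x < w →
      ¬ r x y := by
    intro N
    induction N with
    | zero => intro y a1 a2; simp at a1; omega
    | succ N ih =>
      intro y a1 a2 a3 x b1 b2 hxy
      have hy1 : y ≠ w + 1 := by
        rintro rfl
        exact h2 x b1 b2 (h.symm _ _ hxy)
      obtain ⟨x', ⟨c1, c2⟩, c3⟩ := Dism.exists_last (P := fun z => z < w ∧ r y z) (b := w)
        (fun z hz => hz.1.le) (a := x) ⟨b2, h.symm _ _ hxy⟩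
      have hyp : r y (y - 1) := by
        have := h.succ (y - 1)
        rw [sub_add_cancel] at this
        exact h.symm _ _ this
      obtain ⟨x'', ⟨d1, d2⟩, d3⟩ := Dism.exists_first (P := fun z => w < z ∧ r y z) (b := w)
        (fun z hz => hz.1.le) (a := y - 1) ⟨by omega, hyp⟩
      have c4 := c3 x ⟨b2, h.symm _ _ hxy⟩
      have d4 := d3 (y - 1) ⟨by omega, hyp⟩
      have hper : ∀ z, r (y - n) z ↔ r y z := by
        intro z
        have := h.per (y - n) z
        rw [sub_add_cancel] at this
        exact this.symm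
      have hcn : r x' x'' := by
        refine h.cn (y - n) x' x'' (by omega) (by omega) (by omega) ((hper _).2 c2)
          ((hper _).2 d2) fun m m1 m2 m3 => ?_
        rw [hper] at m3
        rcases lt_trichotomy m w with hm | hm | hm
        · have := c3 m ⟨hm, m3⟩
          omega
        · rw [hm] at m3
          exact h1 y (by omega) a3 (h.symm _ _ m3)
        · have := d3 m ⟨hm, m3⟩
          omega
      exact ih x'' (by push_cast at a1; omega) d1 (by omega) x' (by omega) c1 hcn
  intro x y a1 a2 a3 a4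
  exact main (y - w).toNat y (by omega) a3 a4 x a1 a2

/-- A vertex with the largest first gap is an ear. -/
theorem ear_self (h : ZRel n r) (hJ : JB n 1 J r) {v : ℤ}
    (hv : ∀ m, v + 1 < m → m < v + J → ¬ r v m) : r (v - 1) (v + 1) := by
  obtain ⟨m, m1, m2, m3, m4⟩ := hJ.1 (v - 1)
  obtain ⟨t, t1, t2, t3, t4⟩ := exists_next (a := v) (by omega) m4
  have h1 : r (v - 1) v := by
    have := h.succ (v - 1)
    rwa [sub_add_cancel] at this
  have h2 := h.cn (v - 1) v t (by omega) t1 (by omega) h1 t3 t4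
  have h3 : t = v + 1 := by
    by_contra hne
    exact hv t (by omega) (by omega) h2
  rwa [h3] at t3

/-- Everything seen by a vertex with the largest first gap is seen by the next vertex. -/
theorem sub_next (h : ZRel n r) (hJ : JB n 1 J r) {v : ℤ}
    (hv : ∀ m, v + 1 < m → m < v + J → ¬ r v m) {o : ℤ} (h1 : 1 < o) (ho : Fw n r v o) :
    Fw n r (v + 1) (o - 1) := by
  have hz := ZR.of_zRel h
  refine ⟨by omega, by have := ho.2.1; omega, ?_⟩
  have e : v + 1 + (o - 1) = v + o := by ring
  rw [e]
  by_contra hno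
  have ho2 := ho.2.1
  have ho3 := ho.2.2
  have hear := ear_self h hJ hv
  have hlast : r (v + 1) (v + n - 1) := by
    have h2 := (hz.perR (v + 1) (v - 1)).2 (h.symm _ _ hear)
    have e2 : v - 1 + (n : ℤ) = v + n - 1 := by ring
    rwa [e2] at h2
  obtain ⟨m, m1, m2, m3, m4⟩ := hJ.1 v
  have hm : m = v + J := by
    by_contra hne
    exact hv m m1 (by omega) m4
  subst hm
  have hb : r (v + 1) (v + J) :=
    h.cn v (v + 1) (v + J) (by omega) m1 m3 (h.succ v) m4 fun m a1 a2 => hv m a1 a2
  have hJo : J < o := by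
    rcases lt_trichotomy o J with hl | hl | hl
    · exact (hv (v + o) (by omega) (by omega) ho3).elim
    · rw [hl] at hno; exact (hno hb).elim
    · exact hl
  have hon : o < n - 1 := by
    rcases lt_trichotomy o (n - 1) with hl | hl | hl
    · exact hl
    · rw [hl] at hno
      have e3 : v + ((n : ℤ) - 1) = v + n - 1 := by ring
      rw [e3] at hno
      exact (hno hlast).elim
    · omega
  obtain ⟨s, t, ⟨-, -, -, a1, a2, a3, a4, a5, a6⟩, b1, b2, b3, b4⟩ :=
    (Dism.SR.of_zrel h).gap_around (i := v + 1) (s := v + J) (t := v + n - 1) (z := v + o) trivial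
      trivial trivial (by omega) (by omega) (by omega) (by omega) hb hlast (fun hc => hno hc.2)
  obtain ⟨c, c1, c2, c3, c4⟩ := h.nc (v + 1) s t a1 a2 a3 a4 a5
    (fun m m1 m2 => a6 m trivial m1 m2)
  rcases lt_or_ge c (v + o) with hc | hc
  · refine c4 (v + n) (v + o) (by omega) (by omega) hc (by omega) ?_
    exact (h.per v (v + o)).2 ho3
  · obtain ⟨m', d1, d2, d3, d4⟩ := hJ.2 (s + 1)
    exact c3 m' (s + 1) (by omega) (by omega) (by omega) (by omega) (h.symm _ _ d4)

/-- Without fat rectangles all mates of a vertex with the largest first gap are ears. -/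
theorem ear_mates (h : ZRel n r) (hk : 2 ≤ k) (h4 : 2 * k + 1 ≤ n) (hw : Wd n k r)
    (hJ : JB n 1 J r) (hF : ∀ s, ¬ Fat k r s) {v : ℤ}
    (hv : ∀ m, v + 1 < m → m < v + J → ¬ r v m) {w : ℤ} (hvw : k ∣ w - v) :
    r (w - 1) (w + 1) := by
  have hz := ZR.of_zRel h
  by_contra hne
  obtain ⟨φ, f1, f2, f3, f4⟩ := hw v w hvw
  obtain ⟨ψ, g1, g2, g3, g4⟩ := hw (v + 1) (w + 1) (by
    have e : w + 1 - (v + 1) = w - v := by ring
    rw [e]; exact hvw)
  have hfst : ∀ u, Fw n r u 1 := fun u => ⟨by omega, by omega, h.succ u⟩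
  have hlst : ∀ u, Fw n r u (n - 1) := by
    intro u
    refine ⟨by omega, by omega, ?_⟩
    have e : u + ((n : ℤ) - 1) = u + n - 1 := by ring
    rw [e]; exact last h u
  -- first and last sights correspond
  have φ1 : φ 1 = 1 := by
    obtain ⟨o, o1, o2⟩ := f4 1 (hfst w)
    rcases lt_or_ge 1 o with hl | hl
    · have h5 := f3 1 o (hfst v) o1 hl
      have h6 := (f1 1 (hfst v)).1
      omega
    · have : o = 1 := by have := o1.1; omega
      rw [this] at o2; exact o2
  have φn : φ (n - 1) = n - 1 := by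
    obtain ⟨o, o1, o2⟩ := f4 (n - 1) (hlst w)
    rcases lt_or_ge o (n - 1) with hl | hl
    · have h5 := f3 o (n - 1) o1 (hlst v) hl
      have h6 := (f1 (n - 1) (hlst v)).2.1
      omega
    · have : o = n - 1 := by have := o1.2.1; omega
      rw [this] at o2; exact o2
  have ψn : ψ (n - 1) = n - 1 := by
    obtain ⟨o, o1, o2⟩ := g4 (n - 1) (hlst (w + 1))
    rcases lt_or_ge o (n - 1) with hl | hl
    · have h5 := g3 o (n - 1) o1 (hlst (v + 1)) hl
      have h6 := (g1 (n - 1) (hlst (v + 1))).2.1
      omega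
    · have : o = n - 1 := by have := o1.2.1; omega
      rw [this] at o2; exact o2
  -- the last sight of `v + 1` before `v`
  have hP : Fw n r (v + 1) (n - 2) := by
    refine ⟨by omega, by omega, ?_⟩
    have h2 := (hz.perR (v + 1) (v - 1)).2 (h.symm _ _ (ear_self h hJ hv))
    have e2 : v - 1 + (n : ℤ) = v + 1 + (n - 2) := by ring
    rwa [e2] at h2
  have hP1 := g1 _ hP
  have hP2 := g2 _ hP
  have hP3 := g3 _ _ hP (hlst (v + 1)) (by omega)
  rw [ψn] at hP3
  have hPne : ψ (n - 2) ≠ n - 2 := by
    intro he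
    rw [he] at hP1
    have h5 := hP1.2.2
    have e2 : w + 1 + ((n : ℤ) - 2) = w - 1 + n := by ring
    rw [e2, hz.perR] at h5
    exact hne (h.symm _ _ h5)
  have hPk : ψ (n - 2) ≤ n - 2 - k := by
    have h5 : k ∣ (n : ℤ) - 2 - ψ (n - 2) := by
      have e : (n : ℤ) - 2 - ψ (n - 2) = -(ψ (n - 2) - (n - 2)) := by ring
      rw [e]; exact (dvd_neg).2 hP2
    have h6 := Int.le_of_dvd (by omega) h5
    omega
  have hhid : ∀ m, ψ (n - 2) < m → m < n - 1 → ¬ Fw n r (w + 1) m := by
    intro m m1 m2 m3
    obtain ⟨o, o1, rfl⟩ := g4 m m3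
    have h5 : (n : ℤ) - 2 < o := by
      by_contra hc
      push Not at hc
      rcases hc.lt_or_eq with hl | hl
      · have := g3 _ _ o1 hP hl
        omega
      · rw [hl] at m1; omega
    have h6 := o1.2.1
    have h7 : o = n - 1 := by omega
    rw [h7, ψn] at m2
    omega
  have hO : Fw n r w (ψ (n - 2) + 1) := by
    refine ⟨by have := hP1.1; omega, by omega, ?_⟩
    have h5 := h.cn (w + 1) (w + 1 + ψ (n - 2)) (w + 1 + (n - 1)) (by have := hP1.1; omega)
      (by omega) (by omega) hP1.2.2 (hlst (w + 1)).2.2 (fun m m1 m2 m3 => by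
        refine hhid (m - (w + 1)) (by omega) (by omega) ⟨by have := hP1.1; omega, by omega, ?_⟩
        rw [add_sub_cancel]; exact m3)
    have e1 : w + 1 + ((n : ℤ) - 1) = w + n := by ring
    rw [e1, hz.perR] at h5
    have e2 : w + (ψ (n - 2) + 1) = w + 1 + ψ (n - 2) := by ring
    rw [e2]; exact h.symm _ _ h5
  -- the comparison of the sights of `w` and `w + 1`
  have claim : ∀ N : ℕ, ∀ o : ℤ, o ≤ N → Fw n r v o → 1 < o → φ o ≤ ψ (n - 2) + 1 →
      φ o ≤ ψ (o - 1) + 1 := by
    intro N
    induction N with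
    | zero => intro o o1 _ o2; simp at o1; omega
    | succ N ih =>
      intro o o1 ho o2 ho3
      by_contra hcon
      push Not at hcon
      have hs := sub_next h hJ hv o2 ho
      have hs1 := g1 _ hs
      have hdv : k ∣ φ o - (ψ (o - 1) + 1) := by
        have h5 := dvd_sub (f2 o ho) (g2 _ hs)
        have e : φ o - o - (ψ (o - 1) - (o - 1)) = φ o - (ψ (o - 1) + 1) := by ring
        rwa [e] at h5
      have hle := Int.le_of_dvd (by omega) hdv
      -- the previous sight of `v`
      obtain ⟨u, ⟨u1, u2⟩, u3⟩ := Dism.exists_last (P := fun z => Fw n r v z ∧ z < o) (b := o)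
        (fun z hz => hz.2.le) (a := 1) ⟨hfst v, o2⟩
      have hcons : ∀ m, φ u < m → m < φ o → ¬ Fw n r w m := by
        intro m m1 m2 m3
        obtain ⟨z, z1, rfl⟩ := f4 m m3
        have h5 : u < z := by
          by_contra hc
          push Not at hc
          rcases hc.lt_or_eq with hl | hl
          · have := f3 _ _ z1 u1 hl
            omega
          · rw [hl] at m1; omega
        have h6 : z < o := by
          by_contra hc
          push Not at hc
          rcases hc.lt_or_eq with hl | hl
          · have := f3 _ _ ho z1 hl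
            omega
          · rw [← hl] at m2; omega
        have := u3 z ⟨z1, h6⟩
        omega
      have hu1 := u1.1
      rcases (show u = 1 ∨ 1 < u by omega) with hu | hu
      · subst hu
        rw [φ1] at hcons
        refine hF w (fat_of h h4 (fun m m1 m2 m3 => ?_) fun x x1 x2 x3 => ?_)
        · refine hcons (m - w) (by omega) (by have := hs1.1; omega) ⟨by omega, ?_, ?_⟩
          · omega
          · rw [add_sub_cancel]; exact m3
        · refine hhid (x + n - (w + 1)) (by omega) (by omega) ⟨by omega, by omega, ?_⟩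
          rw [add_sub_cancel, hz.perR]; exact x3
      · have hus := sub_next h hJ hv hu u1
        have h5 := ih u (by push_cast at o1; omega) u1 hu (by
          have := f3 _ _ u1 ho u2; omega)
        have h6 := g3 _ _ hus hs (by omega)
        have h7 := f3 _ _ (hfst v) u1 hu
        rw [φ1] at h7
        have hφo := (f1 o ho).2.1
        obtain ⟨c, c1, c2, c3, c4⟩ := h.nc w (w + φ u) (w + φ o) (by omega)
          (by have := f3 _ _ u1 ho u2; omega) (by omega) (f1 u u1).2.2 (f1 o ho).2.2
          (fun m m1 m2 m3 => by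
            refine hcons (m - w) (by omega) (by omega) ⟨by omega, by omega, ?_⟩
            rw [add_sub_cancel]; exact m3)
        have hsee : r (w + 1) (w + 1 + ψ (o - 1)) := hs1.2.2
        rcases lt_or_ge c (w + 1 + ψ (o - 1)) with hc | hc
        · refine hF (w + φ o) fun x y x1 x2 y1 y2 hxy => ?_
          exact c4 y x y1 (by omega) (by omega) x2 (h.symm _ _ hxy)
        · exact c3 (w + 1) (w + 1 + ψ (o - 1)) (by omega) (by omega) (by omega) hc hsee
  obtain ⟨o, o1, o2⟩ := f4 _ hO
  have ho1 : 1 < o := by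
    have h5 := o1.1
    rcases (show o = 1 ∨ 1 < o by omega) with h6 | h6
    · rw [h6, φ1] at o2
      have := hP1.1
      omega
    · exact h6
  have ho2 : o < n - 1 := by
    have h5 := o1.2.1
    rcases (show o = n - 1 ∨ o < n - 1 by omega) with h6 | h6
    · rw [h6, φn] at o2
      omega
    · exact h6
  have h5 := claim o.toNat o (by omega) o1 ho1 (by omega)
  have h6 := g3 _ _ (sub_next h hJ hv ho1 o1) hP (by omega)
  omega

theorem Fat.mirror {s : ℤ} (hs : ∀ a b, r a b → r b a) (hf : Fat k (VisMap.mirror r) s) :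
    Fat k r (-s) := by
  intro x y x1 x2 y1 y2 hxy
  refine hf (-y) (-x) (by omega) (by omega) (by omega) (by omega) ?_
  show r (- -y) (- -x)
  rw [neg_neg, neg_neg]
  exact hs _ _ hxy

/-- Without fat rectangles there is a distance `2` that is visible at all vertices of a class. -/
theorem false_of_noFat (h : ZRel n r) (hk : 2 ≤ k) (hd : k ∣ n) (h4 : 4 * k ≤ n)
    (hw : Wd n k r) (hnl : NL k r) (hF : ∀ s, ¬ Fat k r s) : False := by
  have hn : 3 ≤ n := by omega
  have hz := ZR.of_zRel h
  have htop : JB n 1 (n - 1) r := by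
    refine ⟨fun v => ⟨v + n - 1, by omega, by omega, by omega, last h v⟩, fun v =>
      ⟨v - n + 1, by omega, by omega, by omega, ?_⟩⟩
    have h1 := h.succ v
    rw [← hz.perR]
    have e : v - (n : ℤ) + 1 + n = v + 1 := by ring
    rw [e]; exact h1
  obtain ⟨J, hJ2, hJ3⟩ := Dism.exists_first (P := fun J => JB n 1 J r) (b := 2)
    (fun z hz => by
      obtain ⟨m, m1, m2, -, -⟩ := hz.1 0
      omega) (a := (n : ℤ) - 1) htop
  have hno : ¬ JB n 1 (J - 1) r := by
    intro hc
    have := hJ3 (J - 1) hc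
    omega
  unfold JB at hno
  rw [not_and_or] at hno
  rcases hno with hno | hno
  · push Not at hno
    obtain ⟨v₀, hv₀⟩ := hno
    have hide : ∀ m, v₀ + 1 < m → m < v₀ + J → ¬ r v₀ m := by
      intro m m1 m2 m3
      rcases lt_or_ge m (v₀ + n) with h5 | h5
      · exact hv₀ m m1 (by omega) h5 m3
      · obtain ⟨m', a1, a2, a3, a4⟩ := hJ2.1 v₀
        rcases lt_or_ge m' (v₀ + J) with h6 | h6
        · exact hv₀ m' a1 (by omega) a3 a4
        · omega
    refine hnl (v₀ - 1) 2 le_rfl hk fun u hu => ?_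
    have h5 := ear_mates h hk (by omega) hw hJ2 hF hide (w := u + 1) (by
      have e : u + 1 - v₀ = u - (v₀ - 1) := by ring
      rw [e]; exact hu)
    have e1 : u + 1 - 1 = u := by ring
    have e2 : u + 1 + 1 = u + 2 := by ring
    rwa [e1, e2] at h5
  · push Not at hno
    obtain ⟨v₀, hv₀⟩ := hno
    have hm := h.mirror
    have hwm := hw.mirror h (by omega) hd hn
    have hnlm := hnl.mirror h.symm
    have hJm := hJ2.mirror
    have hide : ∀ m, -v₀ + 1 < m → m < -v₀ + J → ¬ VisMap.mirror r (-v₀) m := by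
      intro m m1 m2 m3
      have m4 : r v₀ (-m) := by
        have : r (- -v₀) (-m) := m3
        rwa [neg_neg] at this
      rcases lt_or_ge m (-v₀ + n) with h5 | h5
      · exact hv₀ (-m) (by omega) (by omega) (by omega) m4
      · obtain ⟨m', a1, a2, a3, a4⟩ := hJ2.2 v₀
        rcases lt_or_ge (v₀ - J) m' with h6 | h6
        · exact hv₀ m' (by omega) a2 a3 a4
        · omega
    refine hnlm (-v₀ - 1) 2 le_rfl hk fun u hu => ?_
    have h5 := ear_mates hm hk (by omega) hwm hJm (fun s hs => hF _ (Fat.mirror h.symm hs)) hide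
      (w := u + 1) (by
        have e : u + 1 - -v₀ = u - (-v₀ - 1) := by ring
        rw [e]; exact hu)
    have e1 : u + 1 - 1 = u := by ring
    have e2 : u + 1 + 1 = u + 2 := by ring
    rwa [e1, e2] at h5

/-- `NoFat` implies that some class is linked. -/
theorem linked_of_noFat (H : NoFat) : ∀ (n : ℕ) (k : ℤ) (r : ℤ → ℤ → Prop), ZRel n r → 0 < k →
    k ∣ n → k < n → Wd n k r → Lkd k r :=
  linked_of fun _ _ _ h hk hd h4 hw hc =>
    false_of_noFat h hk hd h4 hw hc (H _ _ _ h hk hd h4 hw hc)

end Cut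

end VisMap
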