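import Pool.Agent.Lib.MP_9f3af0_lc.Thin
import Pool.Agent.Lib.MP_9f3af0_lc.FatEar

/-!
# MP_9f3af0_lc: the corner of the longest fat side (helper44, helpers 92, 77, 5, 25; Lean by helper74)

`Rect r c A B`: the rectangle `[c - A, c) × (c, c + B]` is hidden; it is fat if `k ≤ A, B`.
`FM n k r A B`: `B` is the longest side of all fat rectangles, attained at the corner `0`, and `A ≥ k`
is maximal for this `B`.  `exists_FM`: it exists, after a translation and a reflection, if there is a
fat rectangle.  `N1`, `N2`: the two statements about the gaps of `0` that have parts on both sides.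
`stepE`: `FM`, `N1`, `N2` imply `E(0) ≤ E(v)` for all `v` with `-A ≤ v < 0`.
-/

namespace VisMap

namespace FMax

open Cut Laps

variable {n : ℕ} {k A B : ℤ} {r : ℤ → ℤ → Prop}

/-- The rectangle `[c - A, c) × (c, c + B]` is hidden. -/
def Rect (r : ℤ → ℤ → Prop) (c A B : ℤ) : Prop :=
  ∀ x y, c - A ≤ x → x < c → c < y → y ≤ c + B → ¬ r x y

/-- The translate. -/
def sh (r : ℤ → ℤ → Prop) (c a b : ℤ) : Prop := r (a + c) (b + c)

theorem Rect.mono {c A' B' : ℤ} (h : Rect r c A B) (h1 : A' ≤ A) (h2 : B' ≤ B) : Rect r c A' B' :=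
  fun x y x1 x2 y1 y2 => h x y (by omega) x2 y1 (by omega)

theorem Rect.mirror {c : ℤ} (hs : ∀ a b, r a b → r b a) (h : Rect (VisMap.mirror r) c A B) :
    Rect r (-c) B A := by
  intro x y x1 x2 y1 y2 hxy
  refine h (-y) (-x) (by omega) (by omega) (by omega) (by omega) ?_
  show r (- -y) (- -x)
  rw [neg_neg, neg_neg]
  exact hs _ _ hxy

theorem Rect.to_mirror {c : ℤ} (hs : ∀ a b, r a b → r b a) (h : Rect r c A B) :
    Rect (VisMap.mirror r) (-c) B A := by
  intro x y x1 x2 y1 y2 hxy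
  exact h (-y) (-x) (by omega) (by omega) (by omega) (by omega) (hs _ _ hxy)

theorem Rect.of_sh {c d : ℤ} (h : Rect (sh r d) c A B) : Rect r (c + d) A B := by
  intro x y x1 x2 y1 y2 hxy
  refine h (x - d) (y - d) (by omega) (by omega) (by omega) (by omega) ?_
  show r (x - d + d) (y - d + d)
  rw [sub_add_cancel, sub_add_cancel]
  exact hxy

theorem zrel_sh (h : ZRel n r) (c : ℤ) : ZRel n (sh r c) where
  symm a b hab := h.symm _ _ hab
  per a b := by
    have e : a + n + c = a + c + n := by ring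
    show r (a + n + c) (b + c) ↔ r (a + c) (b + c)
    rw [e]
    exact h.per _ _
  irrefl a := h.irrefl _
  succ a := by
    have e : a + 1 + c = a + c + 1 := by ring
    show r (a + c) (a + 1 + c)
    rw [e]
    exact h.succ _
  cn i s t h0 h1 h2 hs ht hm := h.cn (i + c) (s + c) (t + c) (by omega) (by omega) (by omega) hs ht
    fun m m1 m2 m3 => hm (m - c) (by omega) (by omega) (by
      show r (i + c) (m - c + c)
      rwa [sub_add_cancel])
  nc i s t h0 h1 h2 hs ht hm := by
    obtain ⟨d, d1, d2, d3, d4⟩ := h.nc (i + c) (s + c) (t + c) (by omega) (by omega) (by omega) hs ht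
      fun m m1 m2 m3 => hm (m - c) (by omega) (by omega) (by
        show r (i + c) (m - c + c)
        rwa [sub_add_cancel])
    exact ⟨d - c, by omega, by omega,
      fun x y x1 x2 y1 y2 => d3 (x + c) (y + c) (by omega) (by omega) (by omega) (by omega),
      fun x y x1 x2 y1 y2 => d4 (x + c) (y + c) (by omega) (by omega) (by omega) (by omega)⟩

theorem fw_sh (r : ℤ → ℤ → Prop) (c i : ℤ) : Fw n (sh r c) i = Fw n r (i + c) := by
  funext o
  have e : i + o + c = i + c + o := by ring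
  simp only [Fw, sh, e]

theorem wd_sh (hw : Wd n k r) (c : ℤ) : Wd n k (sh r c) := by
  intro i i' hi
  have := hw (i + c) (i' + c) (by
    have e : i' + c - (i + c) = i' - i := by ring
    rw [e]; exact hi)
  rw [fw_sh, fw_sh]
  exact this

theorem nl_sh (hnl : NL k r) (c : ℤ) : NL k (sh r c) := by
  intro c' d h1 h2 h
  refine hnl (c' + c) d h1 h2 fun u hu => ?_
  have := h (u - c) (by
    have e : u - c - c' = u - (c' + c) := by ring
    rw [e]; exact hu)
  have h3 : r (u - c + c) (u - c + d + c) := this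
  have e1 : u - c + c = u := by ring
  have e2 : u - c + d + c = u + d := by ring
  rwa [e1, e2] at h3

/-- A hidden rectangle is not too large. -/
theorem Rect.le (h : ZRel n r) (hn : 3 ≤ n) {c : ℤ} (hA : 1 ≤ A) (hB : 1 ≤ B) (hr : Rect r c A B) :
    A + B ≤ n - 2 := by
  by_contra hlt
  rcases le_or_gt A (n - 2) with hA' | hA'
  · exact hr (c - A) (c - A + n - 1) le_rfl (by omega) (by omega) (by omega) (last h _)
  · exact hr (c - n + 2) (c + 1) (by omega) (by omega) (by omega) (by omega) (by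
      have := last h (c - n + 2)
      have e : c - n + 2 + n - 1 = c + 1 := by ring
      rwa [e] at this)

/-- `B` is the longest side of all fat rectangles, attained at the corner `0`, and `A` is maximal. -/
structure FM (n : ℕ) (k : ℤ) (r : ℤ → ℤ → Prop) (A B : ℤ) : Prop where
  z : ZRel n r
  k2 : 2 ≤ k
  kn : k ∣ n
  k4 : 4 * k ≤ n
  kA : k ≤ A
  kB : k ≤ B
  fat : ∀ c A' B', k ≤ A' → k ≤ B' → Rect r c A' B' → A' ≤ B ∧ B' ≤ B
  rect : Rect r 0 A B
  top : ∃ y, 0 < y ∧ y ≤ B ∧ r (-A - 1) y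

theorem FM.AB (h : FM n k r A B) : A ≤ B := (h.fat 0 A B h.kA h.kB h.rect).1

theorem FM.le (h : FM n k r A B) : A + B ≤ n - 2 := by
  have := h.kA
  have := h.kB
  have := h.k2
  have := h.k4
  exact h.rect.le h.z (by omega) (by omega) (by omega)

/-- If there is a fat rectangle, then there is a corner of the longest fat side. -/
theorem exists_FM (h : ZRel n r) (hk : 2 ≤ k) (hd : k ∣ n) (h4 : 4 * k ≤ n) {s : ℤ}
    (hf : Fat k r s) : ∃ A B c, FM n k (sh r c) A B ∨ FM n k (sh (VisMap.mirror r) c) A B := by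
  have hn : 3 ≤ n := by omega
  have hm := h.mirror
  have hb : ∀ z, (∃ B', z = -B' ∧ ∃ c A', k ≤ A' ∧ k ≤ B' ∧
      (Rect r c A' B' ∨ Rect (VisMap.mirror r) c A' B')) → (-(n : ℤ)) ≤ z := by
    rintro z ⟨B', rfl, c, A', hA, hB, hr | hr⟩
    · have := hr.le h hn (by omega) (by omega)
      omega
    · have := hr.le hm hn (by omega) (by omega)
      omega
  obtain ⟨b, ⟨B, rfl, c, A, hA, hB, hr⟩, hmin⟩ := Dism.exists_first
    (P := fun z => ∃ B', z = -B' ∧ ∃ c A', k ≤ A' ∧ k ≤ B' ∧
      (Rect r c A' B' ∨ Rect (VisMap.mirror r) c A' B')) hb (a := -k)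
    ⟨k, rfl, s, k, le_rfl, le_rfl, Or.inl hf⟩
  have hs := h.symm
  have hmax : ∀ c A' B', k ≤ A' → k ≤ B' → Rect r c A' B' → A' ≤ B ∧ B' ≤ B := by
    intro c A' B' h1 h2 h3
    have e1 := hmin (-B') ⟨B', rfl, c, A', h1, h2, Or.inl h3⟩
    have e2 := hmin (-A') ⟨A', rfl, -c, B', h2, h1, Or.inr (h3.to_mirror hs)⟩
    omega
  have hmax' : ∀ c A' B', k ≤ A' → k ≤ B' → Rect (VisMap.mirror r) c A' B' → A' ≤ B ∧ B' ≤ B := by
    intro c A' B' h1 h2 h3
    have := hmax (-c) B' A' h2 h1 (h3.mirror hs)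
    omega
  -- from a corner to `FM`
  have key : ∀ r' : ℤ → ℤ → Prop, ZRel n r' → (∀ c A' B', k ≤ A' → k ≤ B' → Rect r' c A' B' →
      A' ≤ B ∧ B' ≤ B) → Rect r' c A B → ∃ A₁, FM n k (sh r' c) A₁ B := by
    intro r' h' hfat hr'
    obtain ⟨a, ⟨A₁, rfl, h1, h2⟩, hmin'⟩ := Dism.exists_first
      (P := fun z => ∃ A₁, z = -A₁ ∧ k ≤ A₁ ∧ Rect r' c A₁ B) (b := -B)
      (by rintro z ⟨A₁, rfl, h1, h2⟩
          have := (hfat c A₁ B h1 hB h2).1
          omega) (a := -A) ⟨A, rfl, hA, hr'⟩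
    refine ⟨A₁, zrel_sh h' c, hk, hd, h4, h1, hB, fun c' A' B' e1 e2 e3 => hfat _ A' B' e1 e2 e3.of_sh,
      fun x y x1 x2 y1 y2 => h2 (x + c) (y + c) (by omega) (by omega) (by omega) (by omega), ?_⟩
    by_contra hno
    push Not at hno
    have := hmin' (-(A₁ + 1)) ⟨A₁ + 1, rfl, by omega, fun x y x1 x2 y1 y2 hxy => ?_⟩
    · omega
    · rcases x1.lt_or_eq with x1 | x1
      · exact h2 x y (by omega) x2 y1 y2 hxy
      · refine hno (y - c) (by omega) (by omega) ?_
        show r' (-A₁ - 1 + c) (y - c + c)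
        have e : -A₁ - 1 + c = x := by omega
        rw [e, sub_add_cancel]
        exact hxy
  rcases hr with hr | hr
  · obtain ⟨A₁, h1⟩ := key r h hmax hr
    exact ⟨A₁, B, c, Or.inl h1⟩
  · obtain ⟨A₁, h1⟩ := key _ hm hmax' hr
    exact ⟨A₁, B, c, Or.inr h1⟩

/-- The remaining statement. -/
def NoFM : Prop :=
  ∀ (n : ℕ) (k : ℤ) (r : ℤ → ℤ → Prop) (A B : ℤ), FM n k r A B → Wd n k r → NL k r → False

theorem noFat_of_noFM (H : NoFM) : NoFat := by
  intro n k r h hk hd h4 hw hnl s hf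
  obtain ⟨A, B, c, hF | hF⟩ := exists_FM h hk hd h4 hf
  · exact H n k _ A B hF (wd_sh hw c) (nl_sh hnl c)
  · exact H n k _ A B hF (wd_sh (hw.mirror h (by omega) hd (by omega)) c)
      (nl_sh (hnl.mirror h.symm) c)

theorem linked_of_noFM (H : NoFM) : ∀ (n : ℕ) (k : ℤ) (r : ℤ → ℤ → Prop), ZRel n r → 0 < k →
    k ∣ n → k < n → Wd n k r → Lkd k r := linked_of_noFat (noFat_of_noFM H)

/-! ### The geometry at the corner -/

/-- Some vertex of `[-A, 0)` sees `B + 1`. -/
theorem FM.exists_U (h : FM n k r A B) : ∃ v, -A ≤ v ∧ v < 0 ∧ r v (B + 1) := by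
  by_contra hno
  push Not at hno
  have := (h.fat 0 A (B + 1) h.kA (by have := h.kB; omega) fun x y x1 x2 y1 y2 hxy => by
    rcases y2.lt_or_eq with y2 | y2
    · exact h.rect x y x1 x2 y1 (by omega) hxy
    · rw [y2] at hxy
      exact hno x (by omega) x2 (by
        have e : (0 : ℤ) + (B + 1) = B + 1 := by ring
        rwa [e] at hxy)).2
  omega

theorem FM.U (h : FM n k r A B) : r 0 (B + 1) := by
  have hAB := h.le
  have hk := h.k2
  have hkA := h.kA
  have hkB := h.kB
  obtain ⟨v, h1, h2, h3⟩ := h.exists_U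
  obtain ⟨x, x1, x2, x3, x4⟩ := exists_last (p := fun x => r x (B + 1)) (a := v) (b := -1)
    (by omega) h3
  -- the last sight of `x` before `B + 1`
  obtain ⟨s, s1, s2, s3, s4⟩ := exists_last (p := fun z => r x z) (a := x + 1) (b := B) (by omega)
    (h.z.succ x)
  have s5 : s ≤ 0 := by
    by_contra hs
    exact h.rect x s (by omega) (by omega) (by omega) (by omega) s3
  have s6 : r s (B + 1) := h.z.cn x s (B + 1) (by omega) (by omega) (by omega) s3 x3
    fun m m1 m2 => s4 m m1 (by omega)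
  have s7 : s = 0 := by
    by_contra hne
    exact x4 s (by omega) (by omega) s6
  rwa [s7] at s6

theorem FM.T (h : FM n k r A B) : r (-A - 1) 0 := by
  have hAB := h.le
  have hk := h.k2
  have hkA := h.kA
  have hkB := h.kB
  have hz := ZR.of_zRel h.z
  obtain ⟨y, h1, h2, h3⟩ := h.top
  obtain ⟨y', y1, y2, y3, y4⟩ := exists_first (p := fun y => r (-A - 1) y) (a := 1) (b := y)
    (by omega) h3
  -- the first sight of `y'` after `-A - 1`
  have e : ∀ z, r (y' - n) z ↔ r y' z := fun z => by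
    rw [← h.z.per, sub_add_cancel]
  obtain ⟨s, s1, s2, s3, s4⟩ := exists_first (p := fun z => r y' z) (a := -A) (b := y' - 1) (by omega)
    (hz.pred y')
  have s5 : 0 ≤ s := by
    by_contra hs
    exact h.rect s y' (by omega) (by omega) (by omega) (by omega) (h.z.symm _ _ s3)
  have s6 : r (-A - 1) s := h.z.cn (y' - n) (-A - 1) s (by omega) (by omega) (by omega)
    ((e _).2 (h.z.symm _ _ y3)) ((e _).2 s3) fun m m1 m2 m3 => s4 m (by omega) m2 ((e m).1 m3)
  have s7 : s = 0 := by
    by_contra hne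
    exact y4 s (by omega) (by omega) s6
  rwa [s7] at s6

end FMax

end VisMap
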