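import Pool.Agent.Lib.MP_9f3af0_lc.FMax

/-!
# MP_9f3af0_lc: the laps at the corner of the longest fat side (helpers 44, 92, 77; Lean by helper74)

Setting of `FMax.lean`: `FM n k r A B`.  `N1`, `N2`: the two statements about the gaps of `0` that have
parts on both sides.  `Wn n r z`: `z` is in no part of a gap of `0` that ends at the right end of the
gap.  `row0_eq`: under `N1`, `N2` the laps of row `0` beyond `B + 1` are the laps of `Wn`.
`low`, `up`: `B / k + e ≤ E(v)` for `-A ≤ v < 0` and `E(0) ≤ (B - 1) / k + e`.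
-/

namespace VisMap

namespace FMax

open Cut Laps

variable {n : ℕ} {k A B : ℤ} {r : ℤ → ℤ → Prop}

/-- A gap `(s, t)` of `0` beyond `B` with a threshold `c`. -/
structure G0 (n : ℕ) (r : ℤ → ℤ → Prop) (B s t c : ℤ) : Prop where
  Bs : B < s
  sc : s ≤ c
  ct : c < t
  tn : t < n
  vs : r 0 s
  vt : r 0 t
  gap : ∀ m, s < m → m < t → ¬ r 0 m
  hP : ∀ x y, 0 ≤ x → x < s → s < y → y ≤ c → ¬ r x y
  hQ : ∀ x y, t < x → x ≤ n → c < y → y < t → ¬ r x y

/-- `N1`: two short parts make no lap. -/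
def N1 (n : ℕ) (k : ℤ) (r : ℤ → ℤ → Prop) (B : ℤ) : Prop :=
  ∀ s t c, G0 n r B s t c → c - s < k → t - 1 - c < k → t - 1 - s < k

/-- `N2`: a short part on the left makes no additional lap. -/
def N2 (n : ℕ) (k : ℤ) (r : ℤ → ℤ → Prop) (A B : ℤ) : Prop :=
  ∀ s t c, G0 n r B s t c → c - s < k → k ≤ t - 1 - c → t - 1 - c ≤ B → n - B ≤ t →
    t ≤ n - A - 1 → (t - 1 - s) / k = (t - 1 - c) / k

/-- The part at the left end is short. -/
theorem FM.G0_left (h : FM n k r A B) {s t c : ℤ} (hg : G0 n r B s t c) : c - s < k := by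
  by_contra hk
  have := h.k2
  have := h.kB
  have := hg.Bs
  have := (h.fat s s (c - s) (by omega) (by omega) fun x y x1 x2 y1 y2 =>
    hg.hP x y (by omega) x2 y1 (by omega)).1
  omega

/-- A gap of `0` beyond `B` is on one side of `n - A - 1`. -/
theorem FM.T' (h : FM n k r A B) : r 0 (n - A - 1) := by
  have h1 := h.T
  have hz := ZR.of_zRel h.z
  have h2 := (hz.perR 0 (-A - 1)).2 (h.z.symm _ _ h1)
  have e : -A - 1 + (n : ℤ) = n - A - 1 := by ring
  rwa [e] at h2

theorem FM.per_rect (h : FM n k r A B) {x y : ℤ} (x1 : n - A ≤ x) (x2 : x < n) (y1 : n < y)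
    (y2 : y ≤ n + B) : ¬ r x y := by
  intro hxy
  have hz := ZR.of_zRel h.z
  refine h.rect (x - n) (y - n) (by omega) (by omega) (by omega) (by omega) ?_
  rw [← h.z.per, ← hz.perR, sub_add_cancel, sub_add_cancel]
  exact hxy

/-- The part at the right end: short, or the gap is left of `n - A - 1` and the part is at most `B`. -/
theorem FM.G0_right (h : FM n k r A B) {s t c : ℤ} (hg : G0 n r B s t c) :
    t - 1 - c < k ∨ (t - 1 - c ≤ B ∧ n - B ≤ t ∧ t ≤ n - A - 1) := by
  by_contra hno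
  rw [not_or] at hno
  obtain ⟨h1, h2⟩ := hno
  have hk2 := h.k2
  have hkB := h.kB
  have hkA := h.kA
  have hBs := hg.Bs
  have htn := hg.tn
  have hsc := hg.sc
  have hAB := h.le
  rcases le_or_gt t (n - A - 1) with ht | ht
  · have := h.fat t (t - 1 - c) (n - t) (by omega) (by omega) fun x y x1 x2 y1 y2 hxy =>
      hg.hQ y x y1 (by omega) (by omega) x2 (h.z.symm _ _ hxy)
    omega
  · have hs : n - A - 1 ≤ s := by
      by_contra hlt
      exact hg.gap (n - A - 1) (by omega) ht h.T'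
    have := h.fat t (t - 1 - c) (n - t + B) (by omega) (by omega) fun x y x1 x2 y1 y2 hxy => by
      rcases le_or_gt y n with hy | hy
      · exact hg.hQ y x y1 (by omega) (by omega) x2 (h.z.symm _ _ hxy)
      · exact h.per_rect (by omega) (by omega) hy (by omega) hxy
    omega

/-- No part that ends at a right end of a gap of `0` contains `z`. -/
def Wn (n : ℕ) (r : ℤ → ℤ → Prop) (z : ℤ) : Prop :=
  ∀ t, z < t → t < n → r 0 t → ∃ x y, z ≤ x ∧ x < t ∧ t < y ∧ y ≤ n ∧ r x y

theorem vis_n (h : ZRel n r) {t : ℤ} (ht : r 0 t) : r t n := by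
  have hz := ZR.of_zRel h
  have := (hz.perR t 0).2 (h.symm _ _ ht)
  rwa [zero_add] at this

theorem Wn.of_vis (h : ZRel n r) {z : ℤ} (hv : r 0 z) : Wn n r z := fun _ h1 h2 _ =>
  ⟨z, n, le_rfl, h1, h2, le_rfl, vis_n h hv⟩

/-- The smallest threshold of a gap. -/
theorem exists_thr (h : ZRel n r) (hB : 0 ≤ B) {s t : ℤ} (h1 : B < s) (h2 : s < t) (h3 : t < n)
    (hs : r 0 s) (ht : r 0 t) (hgap : ∀ m, s < m → m < t → ¬ r 0 m) :
    ∃ c, G0 n r B s t c ∧ (∀ m, s < m → m ≤ c → Wn n r m) ∧ (∀ m, c < m → m < t → ¬ Wn n r m) := by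
  obtain ⟨c₀, c1, c2, c3, c4⟩ := h.nc 0 s t (by omega) h2 (by omega) hs ht hgap
  rw [zero_add] at c4
  obtain ⟨c, d1, d2, d3, d4⟩ := exists_first
    (p := fun c => ∀ x y, t < x → x ≤ (n : ℤ) → c < y → y < t → ¬ r x y) (a := s) (b := c₀) c1 c4
  refine ⟨c, ⟨h1, d1, by omega, h3, hs, ht, hgap, fun x y x1 x2 y1 y2 => c3 x y x1 x2 y1 (by omega),
    d3⟩, fun m m1 m2 t' t1 t2 t3 => ?_, fun m m1 m2 hm => ?_⟩
  · rcases lt_trichotomy t' t with ht' | rfl | ht'
    · exact (hgap t' (by omega) ht' t3).elim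
    · have := d4 (m - 1) (by omega) (by omega)
      push Not at this
      obtain ⟨x, y, e1, e2, e3, e4, e5⟩ := this
      exact ⟨y, x, by omega, e4, e1, e2, h.symm _ _ e5⟩
    · exact ⟨t, n, by omega, ht', t2, le_rfl, vis_n h ht⟩
  · obtain ⟨x, y, e1, e2, e3, e4, e5⟩ := hm t m2 h3 ht
    exact d3 y x e3 e4 (by omega) e2 (h.symm _ _ e5)

/-- The laps of a gap of `0` beyond `B` are the laps of its right part. -/
theorem FM.gap_eq (h : FM n k r A B) (hN1 : N1 n k r B) (hN2 : N2 n k r A B) {s t : ℤ} (h1 : B < s)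
    (h2 : s < t) (h3 : t < n) (hs : r 0 s) (ht : r 0 t) (hgap : ∀ m, s < m → m < t → ¬ r 0 m) :
    lq k (r 0) s t = lq k (Wn n r) s t := by
  have hk2 := h.k2
  have hkB := h.kB
  have hk : 0 < k := by omega
  obtain ⟨c, hg, hc1, hc2⟩ := exists_thr h.z (by omega) h1 h2 h3 hs ht hgap
  have hc3 := hg.sc
  have hc4 := hg.ct
  have e1 : lq k (r 0) s t = (t - 1 - s) / k := lp_gap h2 fun m m1 m2 m3 => hgap m m1 m2 m3.1
  have hleft := h.G0_left hg
  have e2 : lq k (Wn n r) s t = (t - 1 - c) / k := by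
    have e4 : lq k (Wn n r) c t = (t - 1 - c) / k :=
      lp_gap hc4 fun m m1 m2 m3 => hc2 m m1 m2 m3.1
    rcases hc3.lt_or_eq with hc3 | hc3
    · have e3 : lq k (Wn n r) s t = lq k (Wn n r) s c + lq k (Wn n r) c t :=
        lp_split (Ctr.id hk) hc3 hc4 (V_id.2 (hc1 c hc3 le_rfl))
      have e5 : lq k (Wn n r) s c ≤ (c - 1 - s) / k := lp_le (Ctr.id hk) hc3
      have e6 : (c - 1 - s) / k = 0 := Int.ediv_eq_zero_of_lt (by omega) (by omega)
      have e7 : 0 ≤ lq k (Wn n r) s c := lp_nonneg (Ctr.id hk)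
      omega
    · rw [← hc3] at e4 ⊢
      exact e4
  rw [e1, e2]
  rcases h.G0_right hg with hr | ⟨hr1, hr2, hr3⟩
  · rw [Int.ediv_eq_zero_of_lt (by omega) (hN1 s t c hg hleft hr),
      Int.ediv_eq_zero_of_lt (by omega) hr]
  · rcases lt_or_ge (t - 1 - c) k with hr | hr
    · rw [Int.ediv_eq_zero_of_lt (by omega) (hN1 s t c hg hleft hr),
        Int.ediv_eq_zero_of_lt (by omega) hr]
    · exact hN2 s t c hg hleft hr hr1 hr2 hr3

/-- The laps of `0` beyond a sight `s > B`. -/
theorem FM.row0_eq (h : FM n k r A B) (hN1 : N1 n k r B) (hN2 : N2 n k r A B) {s t : ℤ} (h1 : B < s)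
    (h2 : s ≤ t) (h3 : t < n) (hs : r 0 s) (ht : r 0 t) : lq k (r 0) s t = lq k (Wn n r) s t := by
  have hk2 := h.k2
  have hk : 0 < k := by omega
  have key : ∀ N : ℕ, ∀ s, B < s → s ≤ t → (t - s).toNat ≤ N → r 0 s →
      lq k (r 0) s t = lq k (Wn n r) s t := by
    intro N
    induction N with
    | zero =>
      intro s h1 h2 h3 hs
      have : s = t := by omega
      subst this
      rw [show lq k (r 0) s s = 0 from lp_self, show lq k (Wn n r) s s = 0 from lp_self]
    | succ N ih =>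
      intro s h1 h2 h4 hs
      rcases h2.lt_or_eq with h2 | rfl
      · obtain ⟨t', t1, t2, t3, t4⟩ := exists_next (r := r) (i := 0) h2 ht
        have e1 := h.gap_eq hN1 hN2 h1 t1 (by omega) hs t3 t4
        rcases t2.lt_or_eq with t2 | rfl
        · have e2 : lq k (r 0) s t = lq k (r 0) s t' + lq k (r 0) t' t :=
            lp_split (Ctr.id hk) t1 t2 (V_id.2 t3)
          have e3 : lq k (Wn n r) s t = lq k (Wn n r) s t' + lq k (Wn n r) t' t :=
            lp_split (Ctr.id hk) t1 t2 (V_id.2 (Wn.of_vis h.z t3))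
          rw [e2, e3, e1, ih t' (by omega) (by omega) (by omega) t3]
        · exact e1
      · rw [show lq k (r 0) s s = 0 from lp_self, show lq k (Wn n r) s s = 0 from lp_self]
  exact key _ s h1 h2 le_rfl hs

/-- `G3`: what a vertex of `[-A, 0)` sees beyond `B + 1` is in no right part of a gap of `0`. -/
theorem FM.Wn_of_vis (h : FM n k r A B) {v m : ℤ} (v1 : -A ≤ v) (v2 : v < 0)
    (m2 : m < n - A) (hm : r v m) : Wn n r m := by
  intro t t1 t2 t3
  by_contra hno
  push Not at hno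
  have h1 : r m (v + n) := (ZR.of_zRel h.z).perR _ _ |>.2 (h.z.symm _ _ hm)
  have h2 : v + n ≤ t := by
    by_contra hlt
    exact hno m (v + n) le_rfl t1 (by omega) (by omega) h1
  have h3 := vis_n h.z h.T'
  exact hno (n - A - 1) n (by omega) (by omega) t2 le_rfl h3

/-- The laps of row `0` in the right parts beyond `B + 1`. -/
noncomputable def ee (n : ℕ) (k : ℤ) (r : ℤ → ℤ → Prop) (A B : ℤ) : ℤ :=
  lq k (Wn n r) (B + 1) (n - A - 1)

theorem FM.ee_nonneg (h : FM n k r A B) : 0 ≤ ee n k r A B :=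
  lp_nonneg (Ctr.id (by have := h.k2; omega))

/-- No lap of row `0` behind `-A - 1`. -/
theorem FM.row0_last (h : FM n k r A B) (hN1 : N1 n k r B) : lq k (r 0) (n - A - 1) n = 0 := by
  have hk2 := h.k2
  have hkA := h.kA
  have hkB := h.kB
  have hAB := h.le
  have hk : 0 < k := by omega
  have h0 : 0 ≤ lq k (r 0) (n - A - 1) n := lp_nonneg (Ctr.id hk)
  by_contra hne
  obtain ⟨p, q, p1, p2, p3, p4, p5⟩ := exists_of_lp_pos (Ctr.id hk)
    (show 0 < lq k (r 0) (n - A - 1) n by omega)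
  have p4 : q - p = k := p4
  obtain ⟨s, s1, s2, s3, s4⟩ := exists_last (p := fun z => r 0 z) (a := n - A - 1) (b := p) p1 h.T'
  have hl : r 0 (n - 1) := by
    have := last h.z 0
    have e : 0 + (n : ℤ) - 1 = n - 1 := by ring
    rwa [e] at this
  have hq : q < n - 1 ∨ q = n - 1 := by omega
  rcases hq with hq | hq
  · obtain ⟨t, t1, t2, t3, t4⟩ := exists_first (p := fun z => r 0 z) (a := q + 1) (b := n - 1)
      (by omega) hl
    have hgap : ∀ m, s < m → m < t → ¬ r 0 m := by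
      intro m m1 m2 m3
      rcases le_or_gt m p with h5 | h5
      · exact s4 m m1 h5 m3
      · rcases le_or_gt m q with h6 | h6
        · exact p5 m h5 h6 (V_id.2 m3)
        · exact t4 m (by omega) m2 m3
    obtain ⟨c, hg, -, -⟩ := exists_thr h.z (by omega) (show B < s by omega) (by omega) (by omega)
      s3 t3 hgap
    have h1 := h.G0_left hg
    rcases h.G0_right hg with h2 | h2
    · have := hN1 s t c hg h1 h2
      omega
    · omega
  · exact p5 q p2 le_rfl (V_id.2 (by rw [hq]; exact hl))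

/-- The upper bound for `E(0)`. -/
theorem FM.up (h : FM n k r A B) (hN1 : N1 n k r B) (hN2 : N2 n k r A B) :
    El k n r 0 = lq k (r 0) 0 (B + 1) + ee n k r A B ∧ lq k (r 0) 0 (B + 1) ≤ (B - 1) / k := by
  have hk2 := h.k2
  have hkA := h.kA
  have hkB := h.kB
  have hAB := h.le
  have hk : 0 < k := by omega
  constructor
  · have e1 : lq k (r 0) 0 n = lq k (r 0) 0 (B + 1) + lq k (r 0) (B + 1) n :=
      lp_split (Ctr.id hk) (by omega) (by omega) (V_id.2 h.U)
    have e4 := h.row0_eq hN1 hN2 (s := B + 1) (t := n - A - 1) (by omega) (by omega) (by omega) h.U h.T'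
    have e3 := h.row0_last hN1
    have e2 : lq k (r 0) (B + 1) n = lq k (r 0) (B + 1) (n - A - 1) + lq k (r 0) (n - A - 1) n :=
      lp_split' (Ctr.id hk) (by omega) (by omega) (Or.inr (V_id.2 h.T'))
    show lp k (fun z => z) (r 0) 0 (0 + n) = _
    rw [zero_add]
    show lq k (r 0) 0 n = _
    unfold ee
    omega
  · have h1 : r 0 1 := by
      have := h.z.succ 0
      rwa [zero_add] at this
    have e1 : lq k (r 0) 0 (B + 1) = lq k (r 0) 0 1 + lq k (r 0) 1 (B + 1) :=
      lp_split (Ctr.id hk) (by omega) (by omega) (V_id.2 h1)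
    have e2 : lq k (r 0) 0 1 ≤ (1 - 1 - 0) / k := lp_le (Ctr.id hk) (by omega)
    have e3 : lq k (r 0) 1 (B + 1) ≤ (B + 1 - 1 - 1) / k := lp_le (Ctr.id hk) (by omega)
    have e4 : ((1 : ℤ) - 1 - 0) / k = 0 := by simp
    have e5 : B + 1 - 1 - 1 = B - 1 := by ring
    rw [e5] at e3
    omega

/-- The laps of a vertex `v` of `[-A, 0)`: at least those of its gap over `0` and of the right parts of
row `0`. -/
theorem FM.low (h : FM n k r A B) {v : ℤ} (v1 : -A ≤ v) (v2 : v < 0) :
    B / k ≤ lq k (r v) v (B + 1) ∧ ee n k r A B ≤ lq k (r v) (B + 1) (n - A - 1) ∧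
      lq k (r v) v (B + 1) + lq k (r v) (B + 1) (n - A - 1) ≤ El k n r v := by
  have hk2 := h.k2
  have hkA := h.kA
  have hkB := h.kB
  have hAB := h.le
  have hk : 0 < k := by omega
  refine ⟨?_, ?_, ?_⟩
  · have e1 : lq k (r v) 0 (B + 1) = (B + 1 - 1 - 0) / k := lp_gap (by omega) fun m m1 m2 m3 =>
      h.rect v m (by omega) v2 m1 (by omega) m3.1
    have e2 : lq k (r v) 0 (B + 1) ≤ lq k (r v) v (B + 1) :=
      lp_mono_left (Ctr.id hk) (by omega) (by omega)
    have e3 : B + 1 - 1 - 0 = B := by ring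
    rw [e3] at e1
    omega
  · exact lp_anti (Ctr.id hk) fun m m1 m2 m3 => V_id.2 (h.Wn_of_vis v1 v2 (by omega) m3.1)
  · have e1 := lp_add_le (P := r v) (Ctr.id hk) (a := v) (s := B) (b := v + n) (by omega) (by omega)
    have e2 := lp_mono_left (P := r v) (Ctr.id hk) (a := B) (s := B + 1) (b := v + n) (by omega)
      (by omega)
    have e3 : lq k (r v) (B + 1) (n - A - 1) ≤ lq k (r v) (B + 1) (v + n) := by
      rcases (show B + 1 ≤ n - A - 1 by omega).lt_or_eq with h5 | h5
      · exact lp_mono_right (Ctr.id hk) h5 (by omega)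
      · rw [← h5, show lq k (r v) (B + 1) (B + 1) = 0 from lp_self]
        exact lp_nonneg (Ctr.id hk)
    show lp k (fun z => z) (r v) v (B + 1) + lp k (fun z => z) (r v) (B + 1) (n - A - 1) ≤
      lp k (fun z => z) (r v) v (v + n)
    have e3 : lp k (fun z => z) (r v) (B + 1) (n - A - 1) ≤ lp k (fun z => z) (r v) (B + 1) (v + n) :=
      e3
    omega

/-- STEP E. -/
theorem FM.stepE (h : FM n k r A B) (hN1 : N1 n k r B) (hN2 : N2 n k r A B) {v : ℤ} (v1 : -A ≤ v)
    (v2 : v < 0) : El k n r 0 ≤ El k n r v := by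
  have h1 := h.up hN1 hN2
  have h2 := h.low v1 v2
  have h3 : (B - 1) / k ≤ B / k := Int.ediv_le_ediv (by have := h.k2; omega) (by omega)
  omega

/-- `E(0)` is the minimum of the laps. -/
theorem FM.min (h : FM n k r A B) (hw : Wd n k r) (hN1 : N1 n k r B) (hN2 : N2 n k r A B) (v : ℤ) :
    El k n r 0 ≤ El k n r v := by
  have hk2 := h.k2
  have hk : 0 < k := by omega
  have h1 := Int.emod_nonneg v hk.ne'
  have h2 := Int.emod_lt_of_pos v hk
  have h3 : El k n r v = El k n r (v % k - k) := by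
    refine El_eq hk (by have := h.k4; omega) hw ?_
    have e : v % k - k - v = k * (-(v / k) - 1) := by
      have := Int.emod_add_mul_ediv v k
      linear_combination this
    rw [e]
    exact dvd_mul_right _ _
  rw [h3]
  exact h.stepE hN1 hN2 (by have := h.kA; omega) (by omega)

/-- The equalities at the corner: `k` does not divide `B`, row `0` has `⌊B / k⌋` laps before `B + 1`. -/
theorem FM.eqs (h : FM n k r A B) (hw : Wd n k r) (hN1 : N1 n k r B) (hN2 : N2 n k r A B) :
    ¬ k ∣ B ∧ lq k (r 0) 0 (B + 1) = B / k ∧ El k n r 0 = B / k + ee n k r A B := by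
  have hk2 := h.k2
  have hkA := h.kA
  have hk : 0 < k := by omega
  have h1 := h.up hN1 hN2
  have h2 := h.low (v := -k) (by omega) (by omega)
  have h3 : (B - 1) / k ≤ B / k := Int.ediv_le_ediv hk (by omega)
  have h4 : El k n r (-k) = El k n r 0 :=
    El_eq hk (by have := h.k4; omega) hw (by simp)
  have h5 : (B - 1) / k = B / k := by omega
  refine ⟨fun ⟨j, hj⟩ => ?_, by omega, by omega⟩
  rw [hj, Int.mul_ediv_cancel_left _ hk.ne'] at h5
  have h6 : (k * j - 1) / k < j := Int.ediv_lt_of_lt_mul hk (by rw [mul_comm]; omega)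
  omega

/-- The equalities for the vertices of `[-A, 0)` with minimal `E`. -/
theorem FM.eq_row (h : FM n k r A B) (hw : Wd n k r) (hN1 : N1 n k r B) (hN2 : N2 n k r A B) {v : ℤ}
    (v1 : -A ≤ v) (v2 : v < 0) (hv : El k n r v = El k n r 0) :
    lq k (r v) v (B + 1) = B / k ∧ lq k (r v) (B + 1) (n - A - 1) = ee n k r A B := by
  have h1 := h.eqs hw hN1 hN2
  have h2 := h.low v1 v2
  omega

end FMax

end VisMap
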