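import Pool.Agent.Lib.MP_9f3af0_lc.Jump

/-!
# MP_9f3af0_lc: fat rectangles (helpers 92, 29, 96, 8, 60, 84)

`FatAt k r s`: all pairs in `[s - k, s) × (s, s + k]` are hidden.  `FRS`: a structure without the
chords of `NL` has no fat rectangle.  `STEP2`: a structure without fat rectangles has a class all of
whose vertices are ears.  `linked_of_fr`: both together imply that some class is linked.
-/

namespace VisMap

namespace Cut

/-- All pairs in `[s - k, s) × (s, s + k]` are hidden. -/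
def FatAt (k : ℤ) (r : ℤ → ℤ → Prop) (s : ℤ) : Prop :=
  ∀ a b, s - k ≤ a → a < s → s < b → b ≤ s + k → ¬ r a b

/-- There is no fat rectangle. -/
def FRS : Prop :=
  ∀ (n : ℕ) (k : ℤ) (r : ℤ → ℤ → Prop), ZRel n r → 2 ≤ k → k ∣ n → 4 * k ≤ n → Wd n k r →
    NL k r → ∀ s, ¬ FatAt k r s

/-- Without fat rectangles all vertices of some class are ears. -/
def STEP2 : Prop :=
  ∀ (n : ℕ) (k : ℤ) (r : ℤ → ℤ → Prop), ZRel n r → 2 ≤ k → k ∣ n → 4 * k ≤ n → Wd n k r →
    (∀ s, ¬ FatAt k r s) → ∃ c, ∀ u, k ∣ u - c → r (u - 1) (u + 1)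

variable {n : ℕ} {k h : ℤ} {r : ℤ → ℤ → Prop}

theorem FatAt.mirror {s : ℤ} (hs : ∀ a b, r a b → r b a) (hf : FatAt k (VisMap.mirror r) s) :
    FatAt k r (-s) := by
  intro a b a1 a2 b1 b2 hab
  refine hf (-b) (-a) (by omega) (by omega) (by omega) (by omega) ?_
  show r (- -b) (- -a)
  rw [neg_neg, neg_neg]
  exact hs _ _ hab

theorem not_nl_of_ears (hk : 2 ≤ k) {c : ℤ} (hc : ∀ u, k ∣ u - c → r (u - 1) (u + 1)) :
    ¬ NL k r := by
  intro hnl
  refine hnl (c - 1) 2 le_rfl hk fun u hu => ?_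
  have h1 := hc (u + 1) (by
    have e : u + 1 - c = u - (c - 1) := by ring
    rw [e]; exact hu)
  have e1 : u + 1 - 1 = u := by ring
  have e2 : u + 1 + 1 = u + 2 := by ring
  rw [e1, e2] at h1
  exact h1

/-- `FRS` and `STEP2` exclude `NL`. -/
theorem false_of_fr (H1 : FRS) (H2 : STEP2) (h : ZRel n r) (hk : 2 ≤ k) (hd : k ∣ n)
    (h4 : 4 * k ≤ n) (hw : Wd n k r) (hnl : NL k r) : False := by
  obtain ⟨c, hc⟩ := H2 n k r h hk hd h4 hw (H1 n k r h hk hd h4 hw hnl)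
  exact not_nl_of_ears hk hc hnl

/-- `FRS` and `STEP2` imply that some class is linked. -/
theorem linked_of_fr (H1 : FRS) (H2 : STEP2) : ∀ (n : ℕ) (k : ℤ) (r : ℤ → ℤ → Prop), ZRel n r →
    0 < k → k ∣ n → k < n → Wd n k r → Lkd k r :=
  linked_of fun _ _ _ h hk hd h4 hw hc => false_of_fr H1 H2 h hk hd h4 hw hc

/-- All first and last gaps hide less than `h` vertices: every vertex `v` sees one of
`v + 2, …, v + h + 1` and one of `v - h - 1, …, v - 2`. -/
def GB (h : ℤ) (r : ℤ → ℤ → Prop) : Prop :=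
  (∀ v, ∃ m, v + 1 < m ∧ m ≤ v + h + 1 ∧ r v m) ∧ (∀ v, ∃ m, v - h - 1 ≤ m ∧ m < v - 1 ∧ r v m)

theorem GB.mirror (hg : GB h r) : GB h (VisMap.mirror r) := by
  refine ⟨fun v => ?_, fun v => ?_⟩
  · obtain ⟨m, h1, h2, h3⟩ := hg.2 (-v)
    refine ⟨-m, by omega, by omega, ?_⟩
    show r (-v) (- -m)
    rwa [neg_neg]
  · obtain ⟨m, h1, h2, h3⟩ := hg.1 (-v)
    refine ⟨-m, by omega, by omega, ?_⟩
    show r (-v) (- -m)
    rwa [neg_neg]

/-- `w` has a maximal first gap. -/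
def MaxGap (h : ℤ) (r : ℤ → ℤ → Prop) (w : ℤ) : Prop :=
  1 ≤ h ∧ GB h r ∧ r w (w + h + 1) ∧ ∀ m, w + 1 < m → m < w + h + 1 → ¬ r w m

/-- There is a vertex with a maximal first gap, in the structure or in its mirror image. -/
theorem exists_maxGap (h : ZRel n r) (hn : 3 ≤ n) :
    ∃ g : ℤ, g + 1 < n ∧ ((∃ w, MaxGap g r w) ∨ ∃ w, MaxGap g (VisMap.mirror r) w) := by
  have hz := ZR.of_zRel h
  have htop : GB (n - 2) r := by
    refine ⟨fun v => ⟨v + n - 1, by omega, by omega, last h v⟩, fun v =>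
      ⟨v - n + 1, by omega, by omega, ?_⟩⟩
    have h1 := h.succ v
    rw [← hz.perR]
    have e : v - (n : ℤ) + 1 + n = v + 1 := by ring
    rw [e]; exact h1
  obtain ⟨g, ⟨g1, g2⟩, g3⟩ := Dism.exists_first (P := fun g => 1 ≤ g ∧ GB g r) (b := 1)
    (fun z hz => hz.1) (a := (n : ℤ) - 2) ⟨by omega, htop⟩
  have hgn := g3 _ ⟨by omega, htop⟩
  refine ⟨g, by omega, ?_⟩
  have hno : ¬ ((∀ v, ∃ m, v + 1 < m ∧ m ≤ v + (g - 1) + 1 ∧ r v m) ∧
      (∀ v, ∃ m, v - (g - 1) - 1 ≤ m ∧ m < v - 1 ∧ r v m)) := by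
    intro hc
    rcases g1.lt_or_eq with h1 | h1
    · have := g3 (g - 1) ⟨by omega, hc⟩
      omega
    · obtain ⟨m, m1, m2, m3⟩ := hc.1 0
      omega
  rw [not_and_or] at hno
  rcases hno with hno | hno
  · push Not at hno
    obtain ⟨w, hw⟩ := hno
    refine Or.inl ⟨w, g1, g2, ?_, fun m m1 m2 => hw m m1 (by omega)⟩
    obtain ⟨m, m1, m2, m3⟩ := g2.1 w
    have : m = w + g + 1 := by
      by_contra hne
      exact hw m m1 (by omega) m3
    rwa [this] at m3
  · push Not at hno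
    obtain ⟨w, hw⟩ := hno
    refine Or.inr ⟨-w, g1, g2.mirror, ?_, fun m m1 m2 m3 => ?_⟩
    · obtain ⟨m, m1, m2, m3⟩ := g2.2 w
      have : m = w - g - 1 := by
        by_contra hne
        exact hw m (by omega) m2 m3
      rw [this] at m3
      show r (- -w) (-(-w + g + 1))
      have e1 : - -w = w := by ring
      have e2 : -(-w + g + 1) = w - g - 1 := by ring
      rw [e1, e2]; exact m3
    · have m4 : r w (-m) := by
        have : r (- -w) (-m) := m3
        rwa [neg_neg] at this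
      exact hw (-m) (by omega) (by omega) m4

/-- It suffices to find the class of ears from a vertex with a maximal first gap. -/
theorem step2_of
    (H : ∀ (n : ℕ) (k : ℤ) (r : ℤ → ℤ → Prop), ZRel n r → 2 ≤ k → k ∣ n → 4 * k ≤ n → Wd n k r →
      (∀ s, ¬ FatAt k r s) → ∀ g w : ℤ, g + 1 < n → MaxGap g r w →
        ∀ u, k ∣ u - w → r (u - 1) (u + 1)) : STEP2 := by
  intro n k r h hk hd h4 hw hf
  obtain ⟨g, g1, ⟨w, hg⟩ | ⟨w, hg⟩⟩ := exists_maxGap h (by omega)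
  · exact ⟨w, H n k r h hk hd h4 hw hf g w g1 hg⟩
  · have h1 := H n k _ h.mirror hk hd h4 (hw.mirror h (by omega) hd (by omega))
      (fun s hs => hf _ (hs.mirror h.symm)) g w g1 hg
    refine ⟨-w, fun u hu => ?_⟩
    have h2 : r (-(-u - 1)) (-(-u + 1)) := h1 (-u) (by
      have e : -u - w = -(u - -w) := by ring
      rw [e]; exact (dvd_neg).2 hu)
    have e1 : -(-u - 1) = u + 1 := by ring
    have e2 : -(-u + 1) = u - 1 := by ring
    rw [e1, e2] at h2
    exact h.symm _ _ h2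

end Cut

end VisMap
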