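import Pool.Agent.Lib.MP_9f3af0_lc.FMax

/-!
# MP_9f3af0_lc: few hidden vertices (helper57)

If every vertex hides fewer than `2 k` vertices and every vertex has a gap that hides at least `k`
vertices, then there is no fat rectangle.
-/

namespace VisMap

namespace Few

open Cut Laps FMax

variable {n : ℕ} {k : ℤ} {r : ℤ → ℤ → Prop} {v v' P Q P' Q' t a o : ℤ}

/-- A gap of `v` that hides at least `k` vertices. -/
structure Lap (n : ℕ) (k : ℤ) (r : ℤ → ℤ → Prop) (v P Q : ℤ) : Prop where
  h1 : v < P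
  h2 : P + k < Q
  h3 : Q < v + n
  p : r v P
  q : r v Q
  hid : ∀ m, P < m → m < Q → ¬ r v m

/-- Every vertex hides at most `N` vertices. -/
def Hid (n : ℕ) (N : ℤ) (r : ℤ → ℤ → Prop) : Prop :=
  ∀ v, ∀ T : Finset ℤ, (∀ m ∈ T, v < m ∧ m < v + n ∧ ¬ r v m) → (T.card : ℤ) ≤ N

theorem Lap.len (hF : Hid n (2 * k - 1) r) (L : Lap n k r v P Q) : Q ≤ P + 2 * k := by
  have h := hF v (Finset.Ioo P Q) fun m hm => by
    rw [Finset.mem_Ioo] at hm
    exact ⟨by have := L.h1; omega, by have := L.h3; omega, L.hid m hm.1 hm.2⟩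
  rw [Int.card_Ioo] at h
  omega

theorem Lap.run (hF : Hid n (2 * k - 1) r) (hk : 0 < k) (L : Lap n k r v P Q) (a1 : v ≤ a)
    (a2 : a + k < v + n) (ha : ∀ m, a < m → m ≤ a + k → ¬ r v m) : P ≤ a ∧ a + k < Q := by
  by_contra hc
  have h1 := L.h1
  have h2 := L.h2
  have h3 := L.h3
  have hP : ¬ (a < P ∧ P ≤ a + k) := fun h => ha P h.1 h.2 L.p
  have hQ : ¬ (a < Q ∧ Q ≤ a + k) := fun h => ha Q h.1 h.2 L.q
  have hd : Disjoint (Finset.Ioo P Q) (Finset.Ioc a (a + k)) := by
    rw [Finset.disjoint_left]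
    intro m hm hm'
    rw [Finset.mem_Ioo] at hm
    rw [Finset.mem_Ioc] at hm'
    omega
  have h := hF v (Finset.Ioo P Q ∪ Finset.Ioc a (a + k)) fun m hm => by
    rw [Finset.mem_union, Finset.mem_Ioo, Finset.mem_Ioc] at hm
    rcases hm with hm | hm
    · exact ⟨by omega, by omega, L.hid m hm.1 hm.2⟩
    · exact ⟨by omega, by omega, ha m hm.1 hm.2⟩
  rw [Finset.card_union_of_disjoint hd, Int.card_Ioo, Int.card_Ioc] at h
  push_cast at h
  omega

theorem Lap.lp_before (hF : Hid n (2 * k - 1) r) (hk : 0 < k) (L : Lap n k r v P Q)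
    (h : v + o ≤ P) : lq k (r v) v (v + o) = 0 := by
  by_contra hc
  have h0 := lp_nonneg (P := r v) (a := v) (b := v + o) (Ctr.id hk)
  obtain ⟨s, t, h1, h2, h3, h4, h5⟩ := exists_of_lp_pos (Ctr.id hk) (lt_of_le_of_ne h0 (Ne.symm hc))
  have h4 : t - s = k := h4
  have := L.run hF hk h1 (by have := L.h2; have := L.h3; omega) fun m m1 m2 m3 =>
    h5 m m1 (by omega) (V_id.2 m3)
  omega

theorem Lap.lp_after (hF : Hid n (2 * k - 1) r) (hk : 0 < k) (L : Lap n k r v P Q)
    (h : Q ≤ v + o) (h' : o ≤ n) : lq k (r v) v (v + o) = 1 := by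
  have h1 := L.h1
  have h2 := L.h2
  have h3 := L.h3
  have h4 := L.len hF
  have e0 : lq k (r v) v P = 0 := by
    have := L.lp_before hF hk (o := P - v) (by omega)
    rwa [add_sub_cancel] at this
  have e1 : lq k (r v) P Q = 1 := by
    have := lp_gap (q := k) (c := fun z => z) (P := r v) (a := P) (b := Q) (by omega)
      fun m m1 m2 m3 => L.hid m m1 m2 m3.1
    unfold lq
    rw [this]
    apply le_antisymm
    · have : (Q - 1 - P) / k < 2 := by
        rw [Int.ediv_lt_iff_lt_mul hk]; omega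
      omega
    · rw [Int.le_ediv_iff_mul_le hk]; omega
  have s1 := lp_split (q := k) (c := fun z => z) (P := r v) (a := v) (b := v + o) (s := P)
    (Ctr.id hk) h1 (by omega) (V_id.2 L.p)
  rcases h.lt_or_eq with h5 | h5
  · have s2 := lp_split (q := k) (c := fun z => z) (P := r v) (a := P) (b := v + o) (s := Q)
      (Ctr.id hk) (by omega) h5 (V_id.2 L.q)
    have e2 : lq k (r v) Q (v + o) = 0 := by
      by_contra hc
      have h0 := lp_nonneg (P := r v) (a := Q) (b := v + o) (Ctr.id hk)
      obtain ⟨s, t, g1, g2, g3, g4, g5⟩ :=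
        exists_of_lp_pos (Ctr.id hk) (lt_of_le_of_ne h0 (Ne.symm hc))
      have g4 : t - s = k := g4
      have := L.run hF hk (a := s) (by omega) (by omega) fun m m1 m2 m3 =>
        g5 m m1 (by omega) (V_id.2 m3)
      omega
    unfold lq at *
    omega
  · rw [← h5] at s1 ⊢
    unfold lq at *
    omega

/-- The natural number `t` is not seen by `v`. -/
def Hole (k : ℤ) (r : ℤ → ℤ → Prop) (v P Q t : ℤ) : Prop :=
  (v + t ≤ P → ¬ r v (v + t)) ∧ (Q ≤ v + t + k → ¬ r v (v + t + k))

theorem Hole.transfer (hw : Wd n k r) (hF : Hid n (2 * k - 1) r) (hk : 0 < k)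
    (L : Lap n k r v P Q) (L' : Lap n k r v' P' Q') (hv : k ∣ v' - v) (t1 : 0 < t) (t2 : t + k < n)
    (hH : Hole k r v' P' Q' t) : Hole k r v P Q t := by
  obtain ⟨φ, h1, h2, h3, h4⟩ := hw v v' hv
  have W := word_inv (Ctr.id hk) hv h1 h2 h3 h4
  have key : ∀ o, Fw n r v o → o - k * lq k (r v) v (v + o) = t → False := by
    intro o ho he
    have h5 := W o ho (by show v + o - 1 < v + o; omega)
    beta_reduce at h5
    have ho' := h1 o ho
    have h6 : φ o - k * lq k (r v') v' (v' + φ o) = t := by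
      unfold lq at *
      linarith
    rcases le_or_gt (v' + φ o) P' with h7 | h7
    · rw [L'.lp_before hF hk h7, mul_zero, sub_zero] at h6
      rw [h6] at h7 ho'
      exact hH.1 h7 ho'.2.2
    · rcases lt_or_ge (v' + φ o) Q' with h8 | h8
      · exact L'.hid _ h7 h8 ho'.2.2
      · rw [L'.lp_after hF hk h8 ho'.2.1.le, mul_one] at h6
        have e : φ o = t + k := by omega
        rw [e] at h8 ho'
        refine hH.2 (by omega) ?_
        have e : v' + t + k = v' + (t + k) := by ring
        rw [e]; exact ho'.2.2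
  constructor
  · intro g1 g2
    refine key t ⟨t1, by omega, g2⟩ ?_
    rw [L.lp_before hF hk g1, mul_zero, sub_zero]
  · intro g1 g2
    have e : v + t + k = v + (t + k) := by ring
    rw [e] at g1 g2
    refine key (t + k) ⟨by omega, t2, g2⟩ ?_
    rw [L.lp_after hF hk g1 t2.le]
    ring

theorem Lap.count (hF : Hid n (2 * k - 1) r) (hk : 0 < k) (L : Lap n k r v P Q) (H : Finset ℤ)
    (hH : ∀ t ∈ H, 0 < t ∧ t + k < n ∧ Hole k r v P Q t) : (H.card : ℤ) ≤ k - 1 := by
  have h1 := L.h1
  have h2 := L.h2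
  have h3 := L.h3
  set f : ℤ → ℤ := fun t => if v + t ≤ P then v + t else v + t + k with hf
  have hinj : Set.InjOn f H := by
    intro x _ y _ hxy
    simp only [hf] at hxy
    split_ifs at hxy <;> omega
  have hd : Disjoint (Finset.Ioc P (P + k)) (H.image f) := by
    rw [Finset.disjoint_left]
    intro m hm hm'
    rw [Finset.mem_Ioc] at hm
    rw [Finset.mem_image] at hm'
    obtain ⟨t, _, rfl⟩ := hm'
    simp only [hf] at hm
    split_ifs at hm <;> omega
  have h := hF v (Finset.Ioc P (P + k) ∪ H.image f) fun m hm => by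
    rw [Finset.mem_union, Finset.mem_Ioc, Finset.mem_image] at hm
    rcases hm with hm | ⟨t, ht, rfl⟩
    · exact ⟨by omega, by omega, L.hid m hm.1 (by omega)⟩
    · obtain ⟨t1, t2, t3, t4⟩ := hH t ht
      simp only [hf]
      split_ifs with h5
      · exact ⟨by omega, by omega, t3 h5⟩
      · refine ⟨by omega, by omega, ?_⟩
        rcases lt_or_ge (v + t + k) Q with h6 | h6
        · exact L.hid _ (by omega) h6
        · exact t4 h6
  rw [Finset.card_union_of_disjoint hd, Int.card_Ioc, Finset.card_image_of_injOn hinj] at h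
  push_cast at h
  omega

/-- A fat rectangle at `0` in a structure in which every vertex has a gap that hides `k` vertices and
hides fewer than `2 k` vertices. -/
structure Hy (n : ℕ) (k : ℤ) (r : ℤ → ℤ → Prop) : Prop where
  z : ZRel n r
  k2 : 2 ≤ k
  d : k ∣ n
  n4 : 4 * k ≤ n
  w : Wd n k r
  e : ∀ v, ∃ P Q, Lap n k r v P Q
  f : Hid n (2 * k - 1) r
  fat : ∀ x y, -k ≤ x → x < 0 → 0 < y → y ≤ k → ¬ r x y

theorem Hid.mirror {N : ℤ} (h : ZRel n r) (hF : Hid n N r) : Hid n N (VisMap.mirror r) := by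
  have hz := ZR.of_zRel h
  intro v T hT
  have h1 := hF (-v) (T.image fun m => -m + n) fun m hm => by
    obtain ⟨t, ht, rfl⟩ := Finset.mem_image.1 hm
    obtain ⟨t1, t2, t3⟩ := hT t ht
    refine ⟨by omega, by omega, fun h2 => t3 ?_⟩
    exact (hz.perR _ _).1 h2
  rwa [Finset.card_image_of_injective _ fun a b hab => by
    have : -a + (n : ℤ) = -b + n := hab
    omega] at h1

theorem Lap.mirror (h : ZRel n r) (L : Lap n k r v P Q) :
    Lap n k (VisMap.mirror r) (-v) (-Q + n) (-P + n) := by
  have hz := ZR.of_zRel h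
  have h1 := L.h1
  have h2 := L.h2
  have h3 := L.h3
  refine ⟨by omega, by omega, by omega, ?_, ?_, fun m m1 m2 m3 => ?_⟩
  · show r (- -v) (-(-Q + n))
    have := (hz.perR v (-(-Q + n))).1 (by
      have e : -(-Q + (n : ℤ)) + n = Q := by ring
      rw [e]; exact L.q)
    rwa [neg_neg]
  · show r (- -v) (-(-P + n))
    have := (hz.perR v (-(-P + n))).1 (by
      have e : -(-P + (n : ℤ)) + n = P := by ring
      rw [e]; exact L.p)
    rwa [neg_neg]
  · have m4 : r v (-m) := by
      have : r (- -v) (-m) := m3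
      rwa [neg_neg] at this
    exact L.hid (-m + n) (by omega) (by omega) ((hz.perR _ _).2 m4)

theorem Hy.mirror (h : Hy n k r) : Hy n k (VisMap.mirror r) := by
  refine ⟨h.z.mirror, h.k2, h.d, h.n4, h.w.mirror h.z (by have := h.k2; omega) h.d
    (by have := h.k2; have := h.n4; omega), fun v => ?_, h.f.mirror h.z,
    fun x y x1 x2 y1 y2 hxy => ?_⟩
  · obtain ⟨P, Q, L⟩ := h.e (-v)
    have := L.mirror h.z
    rw [neg_neg] at this
    exact ⟨_, _, this⟩
  · exact h.fat (-y) (-x) (by omega) (by omega) (by omega) (by omega) (h.z.symm _ _ hxy)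

/-- The gap of `0` is not in the middle. -/
theorem Hy.mid (h : Hy n k r) (L : Lap n k r 0 P Q) (h1 : k < P) (h2 : Q < n - k) : False := by
  have hz := ZR.of_zRel h.z
  have k2 := h.k2
  have n4 := h.n4
  have L1' := L.h1
  have L2' := L.h2
  have L3' := L.h3
  obtain ⟨P1, Q1, L1⟩ := h.e (-k)
  obtain ⟨P2, Q2, L2⟩ := h.e k
  obtain ⟨a1, a2⟩ := L1.run h.f (by omega) (a := 0) (by omega) (by omega) fun m m1 m2 =>
    h.fat (-k) m le_rfl (by omega) m1 (by omega)
  obtain ⟨b1, b2⟩ := L2.run h.f (by omega) (a := n - k - 1) (by omega) (by omega)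
    fun m m1 m2 m3 => h.fat (m - n) k (by omega) (by omega) (by omega) le_rfl (by
      have := (hz.perR k (m - n)).1 (by rwa [sub_add_cancel])
      exact h.z.symm _ _ this)
  obtain ⟨c, c1, c2, c3, c4⟩ := h.z.nc 0 P Q (by omega) (by omega) (by omega) L.p L.q L.hid
  have hd : Disjoint (Finset.Ioo c Q) (Finset.Ioc (P - k) (c - k)) := by
    rw [Finset.disjoint_left]
    intro m hm hm'
    rw [Finset.mem_Ioo] at hm
    rw [Finset.mem_Ioc] at hm'
    omega
  have h3 := L.count h.f (by omega) (Finset.Ioo c Q ∪ Finset.Ioc (P - k) (c - k)) fun t ht => by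
    rw [Finset.mem_union, Finset.mem_Ioo, Finset.mem_Ioc] at ht
    rcases ht with ht | ht
    · refine ⟨by omega, by omega, ?_⟩
      refine Hole.transfer h.w h.f (by omega) L L1 (by simp) (by omega) (by omega)
        ⟨fun g => by omega, fun _ g => ?_⟩
      have e : -k + t + k = t := by ring
      rw [e] at g
      refine c4 (n - k) t (by omega) (by omega) (by omega) (by omega) ?_
      have := (h.z.per (-k) t).2 g
      have e : -k + (n : ℤ) = n - k := by ring
      rwa [e] at this
    · refine ⟨by omega, by omega, ?_⟩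
      refine Hole.transfer h.w h.f (by omega) L L2 (by simp) (by omega) (by omega)
        ⟨fun _ g => ?_, fun g => by omega⟩
      exact c3 k (k + t) (by omega) h1 (by omega) (by omega) g
  rw [Finset.card_union_of_disjoint hd, Int.card_Ioo, Int.card_Ioc] at h3
  push_cast at h3
  omega

/-- The gap of `0` is not at the beginning. -/
theorem Hy.low (h : Hy n k r) (L : Lap n k r 0 P Q) (h2 : Q ≤ 2 * k) : False := by
  have hz := ZR.of_zRel h.z
  have k2 := h.k2
  have n4 := h.n4
  have L1' := L.h1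
  have L2' := L.h2
  have L3' := L.h3
  obtain ⟨c, c1, c2, c3, c4⟩ := h.z.nc 0 P Q (by omega) (by omega) (by omega) L.p L.q L.hid
  -- the threshold is at the end
  have hc : c + 1 = Q := by
    by_contra hc
    have h3 := h.f (Q - 1) (Finset.Ioc Q n) fun m hm => by
      rw [Finset.mem_Ioc] at hm
      refine ⟨by omega, by omega, fun h4 => ?_⟩
      exact c4 m (Q - 1) (by omega) (by omega) (by omega) (by omega) (h.z.symm _ _ h4)
    rw [Int.card_Ioc] at h3
    omega
  have hper : ∀ x y, r x (y + n) ↔ r x y := fun x y => hz.perR x y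
  -- the gap starts at `1`
  have hP : P = 1 := by
    by_contra hP
    have hd : Disjoint (Finset.Ioo P Q) (Finset.Ico ((n : ℤ) - k) n) := by
      rw [Finset.disjoint_left]
      intro m hm hm'
      rw [Finset.mem_Ioo] at hm
      rw [Finset.mem_Ico] at hm'
      omega
    have h3 := h.f 1 (Finset.Ioo P Q ∪ Finset.Ico ((n : ℤ) - k) n) fun m hm => by
      rw [Finset.mem_union, Finset.mem_Ioo, Finset.mem_Ico] at hm
      rcases hm with hm | hm
      · exact ⟨by omega, by omega, c3 1 m (by omega) (by omega) (by omega) (by omega)⟩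
      · refine ⟨by omega, by omega, fun h4 => ?_⟩
        refine h.fat (m - n) 1 (by omega) (by omega) (by omega) (by omega) ?_
        refine h.z.symm _ _ ((hper 1 (m - n)).1 ?_)
        rwa [sub_add_cancel]
    rw [Finset.card_union_of_disjoint hd, Int.card_Ioo, Int.card_Ico] at h3
    push_cast at h3
    omega
  subst hP
  obtain ⟨P1, Q1, L1⟩ := h.e (-k)
  obtain ⟨a1, a2⟩ := L1.run h.f (by omega) (a := 0) (by omega) (by omega) fun m m1 m2 =>
    h.fat (-k) m le_rfl (by omega) m1 (by omega)
  have a3 := L1.len h.f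
  -- the holes of the vertices `2, …, k`
  have hole : ∀ z Pz Qz, 2 ≤ z → z ≤ k → Hole k r z Pz Qz (n - k - z) := by
    intro z Pz Qz z1 z2
    refine ⟨fun _ g => ?_, fun _ g => ?_⟩
    · have e : z + (n - k - z) = -k + n := by ring
      rw [e, hper] at g
      exact h.fat (-k) z le_rfl (by omega) (by omega) z2 (h.z.symm _ _ g)
    · have e : z + (n - k - z) + k = 0 + n := by ring
      rw [e, hper] at g
      exact L.hid z (by omega) (by omega) (h.z.symm _ _ g)
  have row : ∀ x, 2 - k ≤ x → x ≤ 0 → ¬ r (-k) x := by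
    intro x x1 x2 hx
    have hQ : ∃ Px Qx, Lap n k r x Px Qx ∧ Qx ≤ 2 * k := by
      rcases x2.lt_or_eq with x2 | rfl
      · obtain ⟨Px, Qx, Lx⟩ := h.e x
        obtain ⟨b1, b2⟩ := Lx.run h.f (by omega) (a := 0) (by omega) (by omega) fun m m1 m2 =>
          h.fat x m (by omega) (by omega) m1 (by omega)
        have := Lx.len h.f
        exact ⟨Px, Qx, Lx, by omega⟩
      · exact ⟨1, Q, L, h2⟩
    obtain ⟨Px, Qx, Lx, hQx⟩ := hQ
    obtain ⟨Pz, Qz, Lz⟩ := h.e (x + k)
    have := Hole.transfer h.w h.f (by omega) Lx Lz (by simp) (t := n - k - (x + k))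
      (by omega) (by omega) (hole _ _ _ (by omega) (by omega))
    refine this.2 (by omega) ?_
    have e : x + (n - k - (x + k)) + k = -k + n := by ring
    rw [e, hper]
    exact h.z.symm _ _ hx
  have last' : ¬ r (-k) (n - 2 * k) := by
    intro hx
    obtain ⟨Pz, Qz, Lz⟩ := h.e k
    have := Hole.transfer h.w h.f (by omega) L1 Lz (by
        have e : k - -k = k * 2 := by ring
        rw [e]; exact dvd_mul_right _ _) (t := n - k - k)
      (by omega) (by omega) (hole _ _ _ (by omega) (by omega))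
    refine this.2 (by omega) ?_
    have e : -k + (n - k - k) + k = n - 2 * k := by ring
    rw [e]; exact hx
  have hd : Disjoint (Finset.Icc (2 - k) k) {(n : ℤ) - 2 * k} := by
    rw [Finset.disjoint_singleton_right, Finset.mem_Icc]
    omega
  have h3 := h.f (-k) (Finset.Icc (2 - k) k ∪ {(n : ℤ) - 2 * k}) fun m hm => by
    rw [Finset.mem_union, Finset.mem_Icc, Finset.mem_singleton] at hm
    rcases hm with hm | rfl
    · refine ⟨by omega, by omega, ?_⟩
      rcases le_or_gt m 0 with h5 | h5
      · exact row m hm.1 h5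
      · exact h.fat (-k) m le_rfl (by omega) h5 hm.2
    · exact ⟨by omega, by omega, last'⟩
  rw [Finset.card_union_of_disjoint hd, Int.card_Icc, Finset.card_singleton] at h3
  push_cast at h3
  omega

theorem Hy.false (h : Hy n k r) : False := by
  have hz := ZR.of_zRel h.z
  have k2 := h.k2
  have n4 := h.n4
  obtain ⟨P, Q, L⟩ := h.e 0
  have L1' := L.h1
  have L2' := L.h2
  have L3' := L.h3
  -- the first sight of `-1` behind `0`
  obtain ⟨q, q1, q2, q3, q4⟩ := exists_next (r := r) (i := -1) (a := 0) (b := -1 + n - 1)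
    (by omega) (last h.z (-1))
  have q5 : k < q := by
    by_contra hc
    exact h.fat (-1) q (by omega) (by omega) (by omega) (by omega) q3
  have q6 := h.f (-1) (Finset.Ioo 0 q) fun m hm => by
    rw [Finset.mem_Ioo] at hm
    exact ⟨by omega, by omega, q4 m hm.1 hm.2⟩
  rw [Int.card_Ioo] at q6
  have s0 : r (-1) 0 := by
    have := h.z.succ (-1)
    rwa [neg_add_cancel] at this
  have q7 : r 0 q := h.z.cn (-1) 0 q (by omega) (by omega) (by omega) s0 q3 q4
  -- the last sight of `1` before `n`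
  have t0 : r 1 n := by
    have := (hz.perR 1 0).2 (by
      have := h.z.succ 0
      rw [zero_add] at this
      exact h.z.symm _ _ this)
    rwa [zero_add] at this
  obtain ⟨s, s1, s2, s3, s4⟩ := exists_last (p := fun z => r 1 z) (a := 2) (b := n - 1)
    (by omega) (by have := h.z.succ 1; exact this)
  have s5 : s < n - k := by
    by_contra hc
    refine h.fat (s - n) 1 (by omega) (by omega) (by omega) (by omega) ?_
    refine h.z.symm _ _ ((hz.perR 1 (s - n)).1 ?_)
    rwa [sub_add_cancel]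
  have s6 := h.f 1 (Finset.Ioo s n) fun m hm => by
    rw [Finset.mem_Ioo] at hm
    exact ⟨by omega, by omega, s4 m hm.1 (by omega)⟩
  rw [Int.card_Ioo] at s6
  have s7 : r 0 s := by
    have := h.z.cn 1 s n (by omega) (by omega) (by omega) s3 t0 fun m m1 m2 => s4 m m1 (by omega)
    refine h.z.symm _ _ ((hz.perR s 0).1 ?_)
    rwa [zero_add]
  have c1 : ¬ (P < q ∧ q < Q) := fun hc => L.hid q hc.1 hc.2 q7
  have c2 : ¬ (P < s ∧ s < Q) := fun hc => L.hid s hc.1 hc.2 s7
  rcases le_or_gt Q q with h1 | h1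
  · exact h.low L (by omega)
  · rcases le_or_gt Q s with h3 | h3
    · exact h.mid L (by omega) (by omega)
    · have L' := L.mirror h.z
      rw [neg_zero] at L'
      exact h.mirror.low L' (by omega)

/-- No fat rectangle if every vertex hides fewer than `2 k` vertices. -/
theorem noFat (h : ZRel n r) (hk : 2 ≤ k) (hd : k ∣ n) (h4 : 4 * k ≤ n) (hw : Wd n k r)
    (hnl : NL k r) (hF : Hid n (2 * k - 1) r) (s : ℤ) : ¬ Fat k r s := by
  intro hf
  have hE : ∀ v, ∃ P Q, Lap n k r v P Q := fun v => by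
    have h1 := one_le h hk (by omega) hw hnl v
    obtain ⟨P, Q, g1, g2, g3, g4, g5, g6⟩ := exists_gap (k := k) h (by omega) (v := v) (by omega)
    exact ⟨P, Q, g1, g2, g3, g4, g5, g6⟩
  refine Hy.false (n := n) (k := k) (r := sh r s) ⟨zrel_sh h s, hk, hd, h4, wd_sh hw s,
    fun v => ?_, fun v T hT => ?_, fun x y x1 x2 y1 y2 hxy => ?_⟩
  · obtain ⟨P, Q, L⟩ := hE (v + s)
    refine ⟨P - s, Q - s, by have := L.h1; omega, by have := L.h2; omega, by have := L.h3; omega,
      ?_, ?_, fun m m1 m2 => L.hid (m + s) (by omega) (by omega)⟩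
    · show r (v + s) (P - s + s)
      rw [sub_add_cancel]; exact L.p
    · show r (v + s) (Q - s + s)
      rw [sub_add_cancel]; exact L.q
  · have := hF (v + s) (T.image fun m => m + s) fun m hm => by
      obtain ⟨t, ht, rfl⟩ := Finset.mem_image.1 hm
      obtain ⟨t1, t2, t3⟩ := hT t ht
      exact ⟨by omega, by omega, t3⟩
    rwa [Finset.card_image_of_injective _ fun a b hab => by
      have : a + s = b + s := hab
      omega] at this
  · exact hf (x + s) (y + s) (by omega) (by omega) (by omega) (by omega) hxy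

end Few

end VisMap
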