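import Pool.Agent.Lib.MP_9f3af0_lc.One
import Pool.Agent.Lib.MP_9f3af0_lc.AgLink

/-!
# MP_9f3af0_lc: polygons in which every vertex hides few others (helper57)
-/

namespace VisMap

variable {n : ℕ}

namespace Few

/-- A combinatorial criterion for `Linked`. -/
theorem linked_of {v : ZMod n → ℂ} (hn : 3 ≤ n) (hR : VisRel (Sees v)) (hb : Ag.BoundaryOrder v)
    (H : ∀ k : ℤ, 0 < k → k ∣ (n : ℤ) → (∀ a b : ℤ, Alike v (a : ZMod n) (b : ZMod n) ↔ k ∣ b - a) →
      k < n → Cut.Wd n k (unroll (Sees v)) → Cut.Lkd k (unroll (Sees v))) :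
    n ≤ 3 * views v ∨ Linked v := by
  have hn2 : 2 ≤ n := by omega
  have : NeZero n := ⟨by omega⟩
  obtain ⟨k, hk0, hkn, hk⟩ := Ag.exists_gen (Ag.periods hn2 hR)
  obtain ⟨m, rfl⟩ : ∃ m : ℕ, k = m := ⟨k.toNat, by omega⟩
  have halike : ∀ a b : ZMod n, Alike v a b ↔ b - a ∈ Ag.periods hn2 hR := fun a b => by
    rw [Ag.alike_iff hb (fun i => Ag.degR_pos hn2 hR i), Ag.E_iff_sub_mem]
  have hal : ∀ a b : ℤ, Alike v (a : ZMod n) (b : ZMod n) ↔ (m : ℤ) ∣ b - a := fun a b => by
    rw [halike, ← hk]; push_cast; rfl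
  have hm : views v = m := by
    rw [← Ag.ncard_cosets (H := Ag.periods hn2 hR) (k := m) (by omega) hk]
    unfold views
    have e : (fun i : ZMod n => {j | Alike v i j}) =
        fun i => {j | j - i ∈ Ag.periods hn2 hR} := by
      funext a
      ext b
      exact halike a b
    rw [e]
  rcases lt_or_ge m n with hmn | hmn
  swap
  · exact Or.inl (by omega)
  right
  have hF := Ag.fam_of_E hn hR hR (a := 0) (b := 0) (Ag.Eqv.refl _) hk0 hkn hk
  have hw : Cut.Wd n m (unroll (Sees v)) := fun i i' hi => hF.fw true true i i' hi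
  obtain ⟨α, hα⟩ := H m hk0 hkn hal (by exact_mod_cast hmn) hw
  refine ⟨(α : ZMod n), fun j l h1 h2 h3 h4 h5 => ?_⟩
  obtain ⟨u, -, -, rfl⟩ := Ag.lift_lt 0 j
  have hu : (m : ℤ) ∣ u - α := (hal _ _).1 h1
  have hl : (m : ℤ) ∣ (u + l) - α := (hal _ _).1 (by push_cast; exact h2)
  have h6 := Clq.step hu hl (by omega)
  have h7 : ¬ (m < l) := fun hlt => h5 m (by omega) hlt (by
    have := (hal α (u + m)).2 (Clq.dvd_shift hu m (dvd_refl _))
    push_cast at this; exact this)
  have h8 : l = m := by omega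
  subst h8
  have := hα u hu
  unfold unroll at this
  push_cast at this; exact this

end Few

/-- Every vertex hides at most three others. -/
def HidesThree (v : ZMod n → ℂ) : Prop :=
  ∀ i : ZMod n, {l | l ≠ i ∧ ¬ Sees v i l}.ncard ≤ 3

/-- Every vertex hides at most one of the other vertices that look like it. -/
def HidesOne (v : ZMod n → ℂ) : Prop :=
  ∀ i : ZMod n, {l | Alike v i l ∧ l ≠ i ∧ ¬ Sees v i l}.ncard ≤ 1

namespace Few

/-- Finite sets of integers in a window and sets of residues. -/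
theorem card_le [NeZero n] {v : ℤ} {T : Finset ℤ} {S : Set (ZMod n)} {N : ℕ}
    (hT : ∀ m ∈ T, v < m ∧ m < v + n ∧ (m : ZMod n) ∈ S) (hS : S.ncard ≤ N) : T.card ≤ N := by
  classical
  have hinj : Set.InjOn (fun m : ℤ => (m : ZMod n)) T := by
    intro a ha b hb hab
    have h1 := hT a ha
    have h2 := hT b hb
    have h3 : ((a - b : ℤ) : ZMod n) = 0 := by
      push_cast
      exact sub_eq_zero.2 hab
    rw [ZMod.intCast_zmod_eq_zero_iff_dvd] at h3
    have := Int.eq_zero_of_abs_lt_dvd h3 (by rw [abs_lt]; constructor <;> omega)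
    omega
  rw [← Finset.card_image_of_injOn hinj, ← Set.ncard_coe_finset]
  refine (Set.ncard_le_ncard ?_ (Set.toFinite _)).trans hS
  intro x hx
  rw [Finset.mem_coe, Finset.mem_image] at hx
  obtain ⟨m, hm, rfl⟩ := hx
  exact (hT m hm).2.2

theorem ne_of_window [NeZero n] {v m : ℤ} (h1 : v < m) (h2 : m < v + n) :
    (m : ZMod n) ≠ (v : ZMod n) := by
  intro hab
  have h3 : ((m - v : ℤ) : ZMod n) = 0 := by
    push_cast
    exact sub_eq_zero.2 hab
  rw [ZMod.intCast_zmod_eq_zero_iff_dvd] at h3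
  have := Int.eq_zero_of_abs_lt_dvd h3 (by rw [abs_lt]; constructor <;> omega)
  omega

/-- Polygons in which every vertex hides at most three others or at most one that looks like it are
linked, or have many views. -/
theorem linked_of_hides {v : ZMod n → ℂ} (hn : 3 ≤ n) (hR : VisRel (Sees v))
    (hb : Ag.BoundaryOrder v) (hv : HidesThree v ∨ HidesOne v) : n ≤ 3 * views v ∨ Linked v := by
  have : NeZero n := ⟨by omega⟩
  refine linked_of hn hR hb fun k hk hkn hal hlt hw =>
    linked_of_one n k _ (ZRel.of_visRel hR) hk hkn hlt hw ?_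
  rcases hv with hv | hv
  · right
    intro a T hT
    have := card_le (S := {l | l ≠ (a : ZMod n) ∧ ¬ Sees v a l}) (N := 3) (fun m hm => by
      obtain ⟨h1, h2, h3⟩ := hT m hm
      exact ⟨h1, h2, ne_of_window h1 h2, h3⟩) (hv a)
    exact_mod_cast this
  · left
    intro c a b a1 a2 b1 b2 ha hb' va vb
    by_contra hne
    have := card_le (v := c) (T := {a, b})
      (S := {l | Alike v (c : ZMod n) l ∧ l ≠ (c : ZMod n) ∧ ¬ Sees v c l}) (N := 1)
      (fun m hm => by
        rw [Finset.mem_insert, Finset.mem_singleton] at hm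
        rcases hm with rfl | rfl
        · exact ⟨a1, a2, (hal c m).2 ha, ne_of_window a1 a2, va⟩
        · exact ⟨b1, b2, (hal c m).2 hb', ne_of_window b1 b2, vb⟩) (hv c)
    rw [Finset.card_pair hne] at this
    omega

end Few

end VisMap
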