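import Pool.Agent.Lib.MP_9f3af0_lc.Few

/-!
# MP_9f3af0_lc: structures in which every vertex hides few vertices of each class (helper57)

`Spr n k t r`: every vertex hides at most `t` vertices of each class and at most `t - 1` vertices of its
own class.  This property and `Hid n N r` are inherited by the structures obtained by cutting.
-/

namespace VisMap

namespace Few

open Cut Laps FMax

variable {n n' : ℕ} {k k' t N : ℤ} {r : ℤ → ℤ → Prop} {φ : ℤ → ℤ}

/-- Every vertex hides at most `t` vertices of each class and at most `t - 1` vertices of its own. -/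
def Spr (n : ℕ) (k t : ℤ) (r : ℤ → ℤ → Prop) : Prop :=
  ∀ v c, ∀ T : Finset ℤ, (∀ m ∈ T, v < m ∧ m < v + n ∧ ¬ r v m ∧ k ∣ m - c) →
    (T.card : ℤ) ≤ t ∧ (k ∣ v - c → (T.card : ℤ) ≤ t - 1)

theorem Hid.mono (h : Hid n N r) {N' : ℤ} (hN : N ≤ N') : Hid n N' r :=
  fun v T hT => (h v T hT).trans hN

theorem Hid.of_phi (h : Hid n N r) (hm : StrictMono φ) (hp : ∀ a, φ (a + n') = φ a + n) :
    Hid n' N (fun a b => r (φ a) (φ b)) := by
  intro v T hT
  have h1 := h (φ v) (T.image φ) fun m hm' => by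
    obtain ⟨a, ha, rfl⟩ := Finset.mem_image.1 hm'
    obtain ⟨a1, a2, a3⟩ := hT a ha
    exact ⟨hm a1, by rw [← hp]; exact hm a2, a3⟩
  rwa [Finset.card_image_of_injective _ hm.injective] at h1

theorem Spr.of_phi (h : Spr n k t r) (hm : StrictMono φ) (hp : ∀ a, φ (a + n') = φ a + n)
    (hr : ∀ a b, k' ∣ b - a ↔ k ∣ φ b - φ a) : Spr n' k' t (fun a b => r (φ a) (φ b)) := by
  intro v c T hT
  have h1 := h (φ v) (φ c) (T.image φ) fun m hm' => by
    obtain ⟨a, ha, rfl⟩ := Finset.mem_image.1 hm'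
    obtain ⟨a1, a2, a3, a4⟩ := hT a ha
    exact ⟨hm a1, by rw [← hp]; exact hm a2, a3, (hr _ _).1 a4⟩
  rw [Finset.card_image_of_injective _ hm.injective] at h1
  exact ⟨h1.1, fun h2 => h1.2 ((hr _ _).1 h2)⟩

theorem Spr.hid (hk : 0 < k) (h : Spr n k t r) : Hid n (t * k - 1) r := by
  intro v T hT
  have hmod : ∀ m : ℤ, 0 ≤ m % k ∧ m % k < k := fun m =>
    ⟨Int.emod_nonneg _ hk.ne', Int.emod_lt_of_pos _ hk⟩
  have hmaps : ∀ m ∈ T, m % k ∈ Finset.Ico (0 : ℤ) k := fun m _ => by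
    rw [Finset.mem_Ico]; exact hmod m
  have h1 := Finset.card_eq_sum_card_fiberwise hmaps
  have h2 : ∀ c ∈ Finset.Ico (0 : ℤ) k, (((T.filter fun m => m % k = c).card : ℕ) : ℤ) ≤
      t - (if v % k = c then 1 else 0) := by
    intro c hc
    rw [Finset.mem_Ico] at hc
    have h3 := h v c (T.filter fun m => m % k = c) fun m hm => by
      rw [Finset.mem_filter] at hm
      obtain ⟨a1, a2, a3⟩ := hT m hm.1
      exact ⟨a1, a2, a3, by rw [← hm.2]; exact Int.dvd_self_sub_emod⟩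
    split_ifs with h4
    · exact h3.2 (by rw [← h4]; exact Int.dvd_self_sub_emod)
    · have := h3.1
      omega
  rw [h1]
  push_cast
  refine (Finset.sum_le_sum h2).trans ?_
  rw [Finset.sum_sub_distrib, Finset.sum_const, Finset.sum_ite_eq, Int.card_Ico,
    if_pos (Finset.mem_Ico.2 (hmod v)), nsmul_eq_mul]
  have e : (((k - 0).toNat : ℕ) : ℤ) = k := by omega
  rw [e]
  linarith [mul_comm k t]

/-- The cut, with the enumeration of the remaining vertices. -/
theorem cut_phi {d c : ℤ} (h : ZRel n r) (hn : 0 < n) (hk : k ∣ n) (hw : Wd n k r) (h2 : 2 ≤ d)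
    (hdk : d < k) (hv : ∀ u, k ∣ u - c → r u (u + d)) :
    ∃ (n' : ℕ) (φ : ℤ → ℤ), StrictMono φ ∧ (∀ a, φ (a + n') = φ a + n) ∧
      (∀ a b, k - d + 1 ∣ b - a ↔ k ∣ φ b - φ a) ∧ ZRel n' (fun a b => r (φ a) (φ b)) ∧
      (k - d + 1) ∣ (n' : ℤ) ∧ (n' : ℤ) * k = n * (k - d + 1) ∧
      Wd n' (k - d + 1) (fun a b => r (φ a) (φ b)) ∧
      (Lkd (k - d + 1) (fun a b => r (φ a) (φ b)) → Lkd k r) := by
  have hS := sr_kp h hn hk h2 hdk hv
  obtain ⟨q, hq⟩ := hk
  have hq0 : 0 < q := by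
    by_contra hlt
    have : k * q ≤ 0 := mul_nonpos_of_nonneg_of_nonpos (by omega) (by omega)
    omega
  obtain ⟨q, rfl⟩ : ∃ m : ℕ, q = m := ⟨q.toNat, by omega⟩
  have hk'q : 0 ≤ (k - d + 1) * (q : ℤ) := mul_nonneg (by omega) (by omega)
  obtain ⟨n', hn'⟩ : ∃ n' : ℕ, (n' : ℤ) = (k - d + 1) * q :=
    ⟨((k - d + 1) * (q : ℤ)).toNat, by omega⟩
  have hE : Enum n n' (Kp k d c) (ph (k - d + 1) k d c) := enum_ph hq h2 hdk hn'
  refine ⟨n', ph (k - d + 1) k d c, hE.mono, hE.per, fun a b => ph_res h2 hdk a b,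
    hE.zrel hS ?_, ⟨q, hn'⟩, by rw [hn', hq]; ring,
    hE.wd hw (fun z z' hz => kp_of_dvd hz) (ph_res h2 hdk), ?_⟩
  · have : (k - d + 1) * 1 ≤ (k - d + 1) * (q : ℤ) :=
      mul_le_mul_of_nonneg_left (by omega) (by omega)
    omega
  · rintro ⟨a, ha⟩
    refine ⟨ph (k - d + 1) k d c a, fun u hu => ?_⟩
    obtain ⟨b, rfl⟩ := hE.surj u ((kp_of_dvd hu).2 (hE.mem a))
    have h1 := ha b ((ph_res h2 hdk a b).2 hu)
    have e : ph (k - d + 1) k d c (b + (k - d + 1)) = ph (k - d + 1) k d c b + k := by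
      have := ph_add (k' := k - d + 1) (k := k) (d := d) (c := c) (by omega) b 1
      rwa [mul_one, mul_one] at this
    rw [← e]; exact h1

/-- A property that is inherited by cutting and excludes the structures without chords at all vertices of
a class implies that some class is linked. -/
theorem linked_of_pred (G : ℕ → ℤ → (ℤ → ℤ → Prop) → Prop)
    (Gc : ∀ (n : ℕ) (k : ℤ) (r : ℤ → ℤ → Prop) (n' : ℕ) (k' : ℤ) (φ : ℤ → ℤ), G n k r →
      StrictMono φ → (∀ a, φ (a + n') = φ a + n) → (∀ a b, k' ∣ b - a ↔ k ∣ φ b - φ a) →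
      G n' k' (fun a b => r (φ a) (φ b)))
    (H : ∀ (n : ℕ) (k : ℤ) (r : ℤ → ℤ → Prop), ZRel n r → 2 ≤ k → k ∣ (n : ℤ) → 4 * k ≤ n →
      Wd n k r → NL k r → G n k r → False) :
    ∀ (n : ℕ) (k : ℤ) (r : ℤ → ℤ → Prop), ZRel n r → 0 < k → k ∣ (n : ℤ) → k < n → Wd n k r →
      G n k r → Lkd k r := by
  have main : ∀ N : ℕ, ∀ (n : ℕ) (k : ℤ) (r : ℤ → ℤ → Prop), k.toNat ≤ N → ZRel n r → 0 < k →
      k ∣ (n : ℤ) → k < n → Wd n k r → G n k r → Lkd k r := by
    intro N
    induction N with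
    | zero => intro n k r h1 _ h2; omega
    | succ N ih =>
      intro n k r hN h hk hkn hlt hw hG
      by_cases hk1 : k = 1
      · subst hk1
        exact ⟨0, fun u _ => h.succ u⟩
      obtain ⟨q, hq⟩ := id hkn
      have hq2 : 2 ≤ q := by
        by_contra hcon
        have : k * q ≤ k * 1 := mul_le_mul_of_nonneg_left (by omega) hk.le
        omega
      have hn4 : 4 ≤ (n : ℤ) := by
        have : k * 2 ≤ k * q := mul_le_mul_of_nonneg_left hq2 hk.le
        omega
      by_cases hn3 : (n : ℤ) ≤ 3 * k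
      · exact linked_three h hk hkn hlt (by omega) hn3 hw
      have hq4 : 4 ≤ q := by
        by_contra hcon
        have : k * q ≤ k * 3 := mul_le_mul_of_nonneg_left (by omega) hk.le
        omega
      have h4k : 4 * k ≤ n := by
        have : k * 4 ≤ k * q := mul_le_mul_of_nonneg_left hq4 hk.le
        omega
      by_contra hno
      refine H n k r h (by omega) hkn h4k hw (fun c d d1 d2 hv => ?_) hG
      rcases eq_or_lt_of_le d2 with hd | hd
      · subst hd
        exact hno ⟨c, hv⟩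
      · obtain ⟨n', φ, q1, q2, q3, p1, p2, p3, p4, p5⟩ := cut_phi h (by omega) hkn hw d1 hd hv
        refine hno (p5 (ih n' (k - d + 1) _ (by omega) p1 (by omega) p2 ?_ p4
          (Gc n k r n' _ φ hG q1 q2 q3)))
        by_contra hcon
        have h5 : (n' : ℤ) * k ≤ (k - d + 1) * k := mul_le_mul_of_nonneg_right (by omega) hk.le
        have h6 : k * (k - d + 1) < n * (k - d + 1) := mul_lt_mul_of_pos_right hlt (by omega)
        have h7 : (k - d + 1) * k = k * (k - d + 1) := by ring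
        omega
  exact fun n k r h => main _ n k r le_rfl h

/-- Every vertex hides at most two vertices of each class and at most one of its own class, or every
vertex hides at most three vertices: then some class is linked. -/
theorem linked_of_few (n : ℕ) (k : ℤ) (r : ℤ → ℤ → Prop) (h : ZRel n r) (hk : 0 < k)
    (hkn : k ∣ (n : ℤ)) (hlt : k < n) (hw : Wd n k r) (hs : Spr n k 2 r ∨ Hid n 3 r) : Lkd k r :=
  linked_of_pred (fun n k r => Spr n k 2 r ∨ Hid n 3 r)
    (fun _ _ _ _ _ _ hG a1 a2 a3 => hG.imp (fun h => h.of_phi a1 a2 a3) fun h => h.of_phi a1 a2)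
    (fun n k r h hk hd h4 hw hnl hG => false_of_noFat h hk hd h4 hw hnl fun s =>
      noFat h hk hd h4 hw hnl (hG.elim (fun h => h.hid (by omega)) fun h => h.mono (by omega)) s)
    n k r h hk hkn hlt hw hs

end Few

end VisMap
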