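import Pool.Agent.Lib.MP_9f3af0_lc.Jord

/-!
# First hit of a ray from the vertex `u 0` into the interior

Take the ball `B` around `u 0` in which `T = TT N u` consists of the two radii in the directions of
`u 1` and `u (N-1)` (from the proof of `local_struct`: the other edges are closed and do not contain
`u 0`), and a point `z ∈ reg T \ T` in `B` (`Jordan.accI`).  The ray from `u 0` through `z` contains no point of
the edges `0` and `N - 1` except `u 0` (a common point would put `z` on the radius).  The half open segment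
`(u 0, z]` is in `B` and off both radii, so off `T`; it is connected, so it lies in `reg T` (same component
as `z`; `reg T \ T` is a union of components: `par` is constant on it, or the component of `z` is bounded).
The ray leaves the bounded set `reg T` (`Jordan.bdd`), so it meets `T` behind `z` (the part of the ray up to
the first point of `T` is connected and off `T`, so it stays in `reg T`); let `h0` be the first point.  Then
`(u 0, h0)` is in `reg T` and off `T`, and `h0 ∈ T` is on no edge `0`, `N - 1`.  So `h0` is a vertex `u m`,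
`1 < m < N - 1`, or in the open edge `j`, `1 ≤ j`, `j + 1 < N`.  In the second case `u 0` is not on the line of
the edge `j`: otherwise the ray runs along this line and `(u 0, h0)` would contain points of the edge
near `h0`.
-/

namespace VisMap

open Set

private theorem fh_ray {a p z : ℂ} (hz : z ∉ segment ℝ a p) (hd : dist z a < dist p a) {r : ℝ}
    (hr : 0 < r) : a + r • (z - a) ∉ segment ℝ a p := by
  intro hx
  rw [segment_eq_image'] at hx
  obtain ⟨s, ⟨hs0, hs1⟩, hs⟩ := hx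
  apply hz
  have h1 : r • (z - a) = s • (p - a) := by
    have h0 : a + s • (p - a) = a + r • (z - a) := hs
    exact (add_left_cancel h0).symm
  have h2 : z - a = (s / r) • (p - a) := by
    rw [div_eq_inv_mul, mul_smul, ← h1, smul_smul, inv_mul_cancel₀ hr.ne', one_smul]
  have hsr : 0 ≤ s / r := div_nonneg hs0 hr.le
  have h3 : s / r ≤ 1 := by
    by_contra hcon
    push Not at hcon
    have h4 : dist z a = (s / r) * dist p a := by
      rw [dist_eq_norm, dist_eq_norm, h2, norm_smul, Real.norm_eq_abs, abs_of_nonneg hsr]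
    nlinarith [dist_nonneg (x := p) (y := a)]
  rw [segment_eq_image']
  refine ⟨s / r, ⟨hsr, h3⟩, ?_⟩
  show a + (s / r) • (p - a) = z
  rw [← h2]; ring

private theorem fh_det {w v : ℂ} (hw : w ≠ 0) (h : det w v = 0) : ∃ c : ℝ, v = c • w := by
  unfold det at h
  by_cases h1 : w.re = 0
  · have h2 : w.im ≠ 0 := fun h2 => hw (Complex.ext h1 h2)
    refine ⟨v.im / w.im, ?_⟩
    have h3 : v.re = 0 := by
      rw [h1] at h
      have : w.im * v.re = 0 := by linarith
      exact (mul_eq_zero.1 this).resolve_left h2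
    apply Complex.ext
    · simp [h1, h3]
    · simp only [Complex.real_smul, Complex.mul_im, Complex.ofReal_re, Complex.ofReal_im, zero_mul,
        add_zero]
      field_simp
  · refine ⟨v.re / w.re, ?_⟩
    apply Complex.ext
    · simp only [Complex.real_smul, Complex.mul_re, Complex.ofReal_re, Complex.ofReal_im, zero_mul,
        sub_zero]
      field_simp
    · simp only [Complex.real_smul, Complex.mul_im, Complex.ofReal_re, Complex.ofReal_im, zero_mul,
        add_zero]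
      field_simp
      linarith

theorem first_hit {N : ℕ} {u : ℕ → ℂ} (h : SP N u) :
    ∃ h0 ∈ TT N u, (∀ x ∈ openSegment ℝ (u 0) h0, x ∈ reg (TT N u) ∧ x ∉ TT N u) ∧
      ((∃ m, 1 < m ∧ m + 1 < N ∧ h0 = u m) ∨
        (∃ j, 1 ≤ j ∧ j + 1 < N ∧ h0 ∈ openSegment ℝ (u j) (u (j + 1)) ∧
          det (u (j + 1) - u j) (u 0 - u j) ≠ 0)) := by
  have h3 := h.three
  obtain ⟨M, hM⟩ : ∃ M : Set ℂ, M = tr (pc u 1 (N - 1)) := ⟨_, rfl⟩
  have hT : ∀ x, x ∈ TT N u ↔
      x ∈ segment ℝ (u 0) (u 1) ∨ x ∈ M ∨ x ∈ segment ℝ (u 0) (u (N - 1)) := by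
    intro x
    rw [mem_TT, hM, mem_tr_pc]
    constructor
    · rintro ⟨k, hk, hx⟩
      rcases Nat.eq_zero_or_pos k with rfl | hk0
      · left; simpa using hx
      · by_cases hk1 : k = N - 1
        · right; right
          rw [hk1, show N - 1 + 1 = N by omega, h.per] at hx
          rw [segment_symm]; exact hx
        · right; left; exact ⟨k, hk0, by omega, hx⟩
    · rintro (hx | ⟨k, hk1, hk2, hx⟩ | hx)
      · exact ⟨0, by omega, by simpa using hx⟩
      · exact ⟨k, by omega, hx⟩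
      · refine ⟨N - 1, by omega, ?_⟩
        rw [show N - 1 + 1 = N by omega, h.per, segment_symm]; exact hx
  have hM0 : u 0 ∉ M := by
    rw [hM, mem_tr_pc]
    rintro ⟨k, hk1, hk2, hx⟩
    rcases vertex_edge h (m := 0) (k := k) (by omega) (by omega) hx with h' | h'
    · have := h.inj 0 k (by omega) (by omega) h'
      omega
    · have := h.inj 0 (k + 1) (by omega) (by omega) h'
      omega
  have hMc : IsClosed M := by rw [hM]; exact isClosed_tr _
  have hu1 : u 1 ≠ u 0 := fun he => by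
    have := h.inj 1 0 (by omega) (by omega) he
    omega
  have huN : u (N - 1) ≠ u 0 := fun he => by
    have := h.inj (N - 1) 0 (by omega) (by omega) he
    omega
  have hu0T : u 0 ∈ TT N u := (hT _).2 (Or.inl (left_mem_segment _ _ _))
  obtain ⟨ε1, hε1, hB⟩ := Metric.mem_nhds_iff.1 (hMc.isOpen_compl.mem_nhds hM0)
  have hε : 0 < min ε1 (min (dist (u 1) (u 0)) (dist (u (N - 1)) (u 0))) :=
    lt_min hε1 (lt_min (dist_pos.2 hu1) (dist_pos.2 huN))
  obtain ⟨z, ⟨hzr, hzT⟩, hzd⟩ :=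
    Metric.mem_closure_iff.1 ((jordan h).accI (u 0) hu0T) _ hε
  rw [dist_comm] at hzd
  have hzd1 : dist z (u 0) < ε1 := lt_of_lt_of_le hzd (min_le_left _ _)
  have hzd2 : dist z (u 0) < dist (u 1) (u 0) :=
    lt_of_lt_of_le hzd ((min_le_right _ _).trans (min_le_left _ _))
  have hzd3 : dist z (u 0) < dist (u (N - 1)) (u 0) :=
    lt_of_lt_of_le hzd ((min_le_right _ _).trans (min_le_right _ _))
  have hz0 : z ≠ u 0 := fun he => hzT (he ▸ hu0T)
  have hd0 : 0 < ‖z - u 0‖ := norm_pos_iff.2 (sub_ne_zero.2 hz0)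
  have hr1 : ∀ r : ℝ, 0 < r → u 0 + r • (z - u 0) ∉ segment ℝ (u 0) (u 1) := fun r hr =>
    fh_ray (fun hx => hzT ((hT z).2 (Or.inl hx))) hzd2 hr
  have hr2 : ∀ r : ℝ, 0 < r → u 0 + r • (z - u 0) ∉ segment ℝ (u 0) (u (N - 1)) := fun r hr =>
    fh_ray (fun hx => hzT ((hT z).2 (Or.inr (Or.inr hx)))) hzd3 hr
  have hrT : ∀ r : ℝ, 0 < r → u 0 + r • (z - u 0) ∉ M → u 0 + r • (z - u 0) ∉ TT N u := by
    intro r hr hrM hx
    rcases (hT _).1 hx with hx | hx | hx
    · exact hr1 r hr hx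
    · exact hrM hx
    · exact hr2 r hr hx
  have hconn : ∀ I : Set ℝ, Convex ℝ I → (1 : ℝ) ∈ I →
      (∀ r ∈ I, 0 < r ∧ u 0 + r • (z - u 0) ∉ M) →
      ∀ r ∈ I, u 0 + r • (z - u 0) ∈ connectedComponentIn (TT N u)ᶜ z := by
    intro I hI h1 hI' r hr
    have hp : IsPreconnected ((fun r : ℝ => u 0 + r • (z - u 0)) '' I) :=
      hI.isPreconnected.image _ (by fun_prop)
    refine hp.subset_connectedComponentIn ⟨1, h1, by simp⟩ ?_ ⟨r, hr, rfl⟩
    rintro _ ⟨r, hr, rfl⟩
    exact hrT r (hI' r hr).1 (hI' r hr).2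
  have hsm : ∀ r : ℝ, 0 ≤ r → r ≤ 1 → u 0 + r • (z - u 0) ∉ M := by
    intro r hr0 hr1
    have hb : u 0 + r • (z - u 0) ∈ Metric.ball (u 0) ε1 := by
      rw [Metric.mem_ball, dist_eq_norm, add_sub_cancel_left, norm_smul, Real.norm_eq_abs,
        abs_of_nonneg hr0]
      rw [dist_eq_norm] at hzd1
      nlinarith
    exact hB hb
  obtain ⟨S, hS⟩ : ∃ S : Set ℝ, S = {r : ℝ | 0 ≤ r ∧ u 0 + r • (z - u 0) ∈ M} := ⟨_, rfl⟩
  have hSc : IsClosed S := by
    rw [hS]
    exact (isClosed_Ici (a := (0 : ℝ))).inter (hMc.preimage (by fun_prop))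
  have hSb : BddBelow S := ⟨0, fun r hr => by rw [hS] at hr; exact hr.1⟩
  have hSn : S.Nonempty := by
    by_contra hcon
    have hall : ∀ r : ℝ, 0 < r → u 0 + r • (z - u 0) ∉ M := fun r hr hx =>
      hcon ⟨r, by rw [hS]; exact ⟨hr.le, hx⟩⟩
    have hb : Bornology.IsBounded (connectedComponentIn (TT N u)ᶜ z) := hzr
    obtain ⟨R, hR⟩ := hb.exists_norm_le
    have hc := hconn (Ioi 0) (convex_Ioi 0) (by simp) (fun r hr => ⟨hr, hall r hr⟩)
    have hR0 : 0 ≤ R := le_trans (norm_nonneg _) (hR _ (hc 1 (by simp)))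
    have hpos : 0 < (R + ‖u 0‖ + 1) / ‖z - u 0‖ :=
      div_pos (by have := norm_nonneg (u 0); linarith) hd0
    have h1 := hR _ (hc _ hpos)
    have h2 : ‖((R + ‖u 0‖ + 1) / ‖z - u 0‖) • (z - u 0)‖ = R + ‖u 0‖ + 1 := by
      rw [norm_smul, Real.norm_eq_abs, abs_of_pos hpos, div_mul_cancel₀ _ hd0.ne']
    have h4 : ‖((R + ‖u 0‖ + 1) / ‖z - u 0‖) • (z - u 0)‖ ≤
        ‖u 0 + ((R + ‖u 0‖ + 1) / ‖z - u 0‖) • (z - u 0)‖ + ‖u 0‖ := by
      have := norm_sub_le (u 0 + ((R + ‖u 0‖ + 1) / ‖z - u 0‖) • (z - u 0)) (u 0)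
      rwa [add_sub_cancel_left] at this
    linarith
  have hr0S := hSc.csInf_mem hSn hSb
  obtain ⟨r0, hr0⟩ : ∃ r0, r0 = sInf S := ⟨_, rfl⟩
  have hlt : ∀ r : ℝ, 0 ≤ r → r < r0 → u 0 + r • (z - u 0) ∉ M := by
    intro r hr hrr hx
    rw [hr0] at hrr
    exact notMem_of_lt_csInf hrr hSb (by rw [hS]; exact ⟨hr, hx⟩)
  rw [← hr0] at hr0S
  rw [hS] at hr0S
  have hr0M : u 0 + r0 • (z - u 0) ∈ M := hr0S.2
  have hr01 : 1 < r0 := by
    by_contra hcon
    push Not at hcon
    exact hsm r0 hr0S.1 hcon hr0M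
  have hr0p : 0 < r0 := by linarith
  have hop : ∀ x ∈ openSegment ℝ (u 0) (u 0 + r0 • (z - u 0)),
      x ∈ reg (TT N u) ∧ x ∉ TT N u := by
    intro x hx
    rw [openSegment_eq_image'] at hx
    obtain ⟨t, ⟨ht0, ht1⟩, rfl⟩ := hx
    have he : u 0 + t • (u 0 + r0 • (z - u 0) - u 0) = u 0 + (t * r0) • (z - u 0) := by
      rw [add_sub_cancel_left, smul_smul]
    simp only [he]
    have htr : 0 < t * r0 := mul_pos ht0 hr0p
    have htr' : t * r0 < r0 := by nlinarith
    have hc := hconn (Ioo 0 r0) (convex_Ioo 0 r0) ⟨one_pos, hr01⟩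
      (fun r hr => ⟨hr.1, hlt r hr.1.le hr.2⟩) (t * r0) ⟨htr, htr'⟩
    refine ⟨?_, hrT _ htr (hlt _ htr.le htr')⟩
    show Bornology.IsBounded (connectedComponentIn (TT N u)ᶜ (u 0 + (t * r0) • (z - u 0)))
    rw [← connectedComponentIn_eq hc]
    exact hzr
  refine ⟨u 0 + r0 • (z - u 0), (hT _).2 (Or.inr (Or.inl hr0M)), hop, ?_⟩
  have hr0M' := hr0M
  rw [hM, mem_tr_pc] at hr0M'
  obtain ⟨k, hk1, hk2, hx⟩ := hr0M'
  by_cases hl : u 0 + r0 • (z - u 0) = u k
  · left
    refine ⟨k, ?_, by omega, hl⟩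
    by_contra hcon
    have hk : k = 1 := by omega
    apply hr1 r0 hr0p
    rw [hl, hk]
    exact right_mem_segment _ _ _
  by_cases hl' : u 0 + r0 • (z - u 0) = u (k + 1)
  · left
    refine ⟨k + 1, by omega, ?_, hl'⟩
    by_contra hcon
    have hk : k + 1 = N - 1 := by omega
    apply hr2 r0 hr0p
    rw [hl', hk]
    exact right_mem_segment _ _ _
  right
  have hopk : u 0 + r0 • (z - u 0) ∈ openSegment ℝ (u k) (u (k + 1)) :=
    mem_openSegment_of_ne_left_right (Ne.symm hl) (Ne.symm hl') hx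
  refine ⟨k, hk1, by omega, hopk, ?_⟩
  intro hdet
  have hw : u (k + 1) - u k ≠ 0 := by
    intro he
    have := h.inj (k + 1) k (by omega) (by omega) (sub_eq_zero.1 he)
    omega
  obtain ⟨c, hc⟩ := fh_det hw hdet
  have hopk' := hopk
  rw [openSegment_eq_image'] at hopk'
  obtain ⟨s, ⟨hs0, hs1⟩, hs⟩ := hopk'
  have hs' : u k + s • (u (k + 1) - u k) = u 0 + r0 • (z - u 0) := hs
  have hf : Continuous (fun t : ℝ => (1 - t) * c + t * s) := by fun_prop
  have hev : ∀ᶠ t in nhds (1 : ℝ), (1 - t) * c + t * s ∈ Ioo (0 : ℝ) 1 := by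
    apply hf.continuousAt.eventually_mem
    apply Ioo_mem_nhds
    · simpa using hs0
    · simpa using hs1
  obtain ⟨t, ht, ht'⟩ := ((hev.filter_mono nhdsWithin_le_nhds).and
    (Ioo_mem_nhdsLT (zero_lt_one (α := ℝ)))).exists
  have hxo : (1 - t) • u 0 + t • (u 0 + r0 • (z - u 0)) ∈
      openSegment ℝ (u 0) (u 0 + r0 • (z - u 0)) :=
    ⟨1 - t, t, by linarith [ht'.2], ht'.1, by ring, rfl⟩
  apply (hop _ hxo).2
  rw [mem_TT]
  refine ⟨k, by omega, ?_⟩
  rw [segment_eq_image']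
  refine ⟨(1 - t) * c + t * s, ⟨ht.1.le, ht.2.le⟩, ?_⟩
  show u k + ((1 - t) * c + t * s) • (u (k + 1) - u k) = _
  have hu0 : u 0 = u k + c • (u (k + 1) - u k) := by rw [← hc]; ring
  rw [← hs', hu0]
  module

end VisMap
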