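import Pool.Agent.Lib.MP_9f3af0_lc.Jord

/-!
# No visible segment crosses an edge in an interior point

`no_cross`: `[p, q] ⊆ reg T`, `x` in the open segment `(p, q)` and in the open edge `k`, not parallel:
impossible.  By `flip` (with `pc u 0 N` a permutation of `(u k, u (k+1)) :: L'`, `L' = pc u 0 k ++ pc u (k+1) N`,
`x ∉ tr L'` by `open_edge`, `pc u 0 N` closed by `closed_pc`) the points `x + δ (q - p)` and `x - δ (q - p)`,
`δ > 0` small, are on different sides of the line of the edge and have different parity.  They are off `T`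
(they are off the line of the edge `k`, and the other edges are closed and do not contain `x`) and on
`[p, q] ⊆ reg T`, so both have parity `1` (`Jordan.inn` of `jordan h`): contradiction.

`along_edge`: `z` is in the open edge `d`, `[u 0, z] ⊆ reg T`, and `u 0` is on the line of the edge `d`.  Then
`u 0, z, u d, u (d+1)` are collinear, `[u 0, z] ∪ [u d, u (d+1)]` is a connected subset of the line in
`reg T` (the edge is in `T ⊆ reg T`, both parts contain `z`), so it contains `[u 0, u d]` and `[u 0, u (d+1)]`.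
-/

namespace VisMap

open Set Filter Topology

private theorem ne_succF {N : ℕ} {u : ℕ → ℂ} (h : SP N u) {k : ℕ} (hk : k < N) :
    u k ≠ u (k + 1) := by
  intro he
  rcases Nat.lt_or_ge (k + 1) N with h1 | h1
  · have := h.inj k (k + 1) hk h1 he
    omega
  · have h2 : k + 1 = N := by omega
    rw [h2, h.per] at he
    have h3 := h.inj k 0 hk (by have := h.three; omega) he
    have := h.three
    omega

private theorem pc_permF (u : ℕ → ℂ) {N k : ℕ} (hk : k < N) :
    (pc u 0 N).Perm ((u k, u (k + 1)) :: (pc u 0 k ++ pc u (k + 1) N)) := by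
  have h1 : List.Ico 0 N = List.Ico 0 k ++ (k :: List.Ico (k + 1) N) := by
    rw [← List.Ico.append_consecutive (Nat.zero_le k) hk.le, List.Ico.eq_cons hk]
  have h2 : pc u 0 N = pc u 0 k ++ ((u k, u (k + 1)) :: pc u (k + 1) N) := by
    simp only [pc, h1, List.map_append, List.map_cons]
  rw [h2]
  exact List.perm_middle

private theorem seg_auxF {P Q : ℂ} {r : ℝ} (h0 : 0 ≤ r) (h1 : r ≤ 1) :
    P + r * (Q - P) ∈ segment ℝ P Q := by
  refine ⟨1 - r, r, by linarith, h0, by ring, ?_⟩
  simp only [Complex.real_smul]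
  push_cast
  ring

private theorem seg_btw {P e : ℂ} {a b r : ℝ} (h : (a ≤ r ∧ r ≤ b) ∨ (b ≤ r ∧ r ≤ a)) :
    P + r * e ∈ segment ℝ (P + a * e) (P + b * e) := by
  by_cases hab : a = b
  · subst hab
    have hr : r = a := by rcases h with ⟨h1, h2⟩ | ⟨h1, h2⟩ <;> linarith
    subst hr
    exact left_mem_segment ℝ _ _
  · have hba : b - a ≠ 0 := sub_ne_zero.2 (Ne.symm hab)
    refine ⟨(b - r) / (b - a), (r - a) / (b - a), ?_, ?_, ?_, ?_⟩
    · rcases h with ⟨h1, h2⟩ | ⟨h1, h2⟩
      · exact div_nonneg (by linarith) (by linarith)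
      · exact div_nonneg_of_nonpos (by linarith) (by linarith)
    · rcases h with ⟨h1, h2⟩ | ⟨h1, h2⟩
      · exact div_nonneg (by linarith) (by linarith)
      · exact div_nonneg_of_nonpos (by linarith) (by linarith)
    · rw [← add_div, div_eq_one_iff_eq hba]
      ring
    · apply Complex.ext
      · simp only [Complex.add_re, Complex.smul_re, Complex.mul_re, Complex.ofReal_re,
          Complex.ofReal_im, smul_eq_mul]
        field_simp
        ring
      · simp only [Complex.add_im, Complex.smul_im, Complex.mul_im, Complex.ofReal_re,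
          Complex.ofReal_im, smul_eq_mul]
        field_simp
        ring

private theorem det_parallel {e f : ℂ} (he : e ≠ 0) (hd : det e f = 0) :
    ∃ ρ : ℝ, f = ρ * e := by
  unfold det at hd
  have hn : e.re ^ 2 + e.im ^ 2 ≠ 0 := by
    intro h0
    apply he
    apply Complex.ext
    · simp only [Complex.zero_re]
      nlinarith [sq_nonneg e.re, sq_nonneg e.im]
    · simp only [Complex.zero_im]
      nlinarith [sq_nonneg e.re, sq_nonneg e.im]
  refine ⟨(f.re * e.re + f.im * e.im) / (e.re ^ 2 + e.im ^ 2), ?_⟩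
  apply Complex.ext
  · simp only [Complex.mul_re, Complex.ofReal_re, Complex.ofReal_im]
    field_simp
    linear_combination (- e.im) * hd
  · simp only [Complex.mul_im, Complex.ofReal_re, Complex.ofReal_im]
    field_simp
    linear_combination e.re * hd

theorem no_cross {N : ℕ} {u : ℕ → ℂ} (h : SP N u) {p q x : ℂ} {k : ℕ} (hk : k < N)
    (hv : segment ℝ p q ⊆ reg (TT N u)) (hx : x ∈ openSegment ℝ p q)
    (hx' : x ∈ openSegment ℝ (u k) (u (k + 1))) (hd : det (u (k + 1) - u k) (q - p) ≠ 0) : False := by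
  obtain ⟨s, μ, hs, hμ, hsμ, hxe⟩ := hx
  obtain ⟨s', l, hs', hl, hsl, hxe'⟩ := hx'
  have hdet := hd
  have hxd : x = p + μ * (q - p) := by
    rw [← hxe]
    have : s = 1 - μ := by linarith
    subst this
    simp only [Complex.real_smul]
    push_cast
    ring
  have hxd' : x = u k + l * (u (k + 1) - u k) := by
    rw [← hxe']
    have : s' = 1 - l := by linarith
    subst this
    simp only [Complex.real_smul]
    push_cast
    ring
  have hJ := jordan h
  have hxL' : x ∉ tr (pc u 0 k ++ pc u (k + 1) N) := by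
    rw [tr_append]
    rintro (h1 | h1)
    · obtain ⟨j, -, hj2, hj3⟩ := mem_tr_pc.1 h1
      exact open_edge h hk (by omega) (by omega) ⟨s', l, hs', hl, hsl, hxe'⟩ hj3
    · obtain ⟨j, hj1, hj2, hj3⟩ := mem_tr_pc.1 h1
      exact open_edge h hk (by omega) (by omega) ⟨s', l, hs', hl, hsl, hxe'⟩ hj3
  obtain ⟨c, hc⟩ := flip (closed_pc h) (pc_permF u hk)
    (⟨s', l, hs', hl, hsl, hxe'⟩ : x ∈ openSegment ℝ (u k) (u (k + 1))) hxL'
  have hoff : ∀ᶠ z in 𝓝 x, z ∉ tr (pc u 0 k ++ pc u (k + 1) N) :=
    (isClosed_tr _).isOpen_compl.mem_nhds hxL'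
  have hev := hc.and hoff
  have ht1 : Tendsto (fun δ : ℝ => x + δ * (q - p)) (𝓝[>] 0) (𝓝 x) := by
    have h1 : Tendsto (fun δ : ℝ => x + δ * (q - p)) (𝓝 0)
        (𝓝 (x + ((0 : ℝ) : ℂ) * (q - p))) := by
      apply Continuous.tendsto
      fun_prop
    simp only [Complex.ofReal_zero, zero_mul, add_zero] at h1
    exact h1.mono_left nhdsWithin_le_nhds
  have ht2 : Tendsto (fun δ : ℝ => x - δ * (q - p)) (𝓝[>] 0) (𝓝 x) := by
    have h1 : Tendsto (fun δ : ℝ => x - δ * (q - p)) (𝓝 0)
        (𝓝 (x - ((0 : ℝ) : ℂ) * (q - p))) := by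
      apply Continuous.tendsto
      fun_prop
    simp only [Complex.ofReal_zero, zero_mul, sub_zero] at h1
    exact h1.mono_left nhdsWithin_le_nhds
  have hsmall : ∀ᶠ δ : ℝ in 𝓝[>] 0, δ ∈ Ioo 0 (min s μ) :=
    Ioo_mem_nhdsGT (lt_min hs hμ)
  obtain ⟨δ, ⟨⟨h1, h2⟩, h3, h4⟩, h5, h6⟩ :=
    (((ht1.eventually hev).and (ht2.eventually hev)).and hsmall).exists
  have hδs : δ < s := lt_of_lt_of_le h6 (min_le_left _ _)
  have hδμ : δ < μ := lt_of_lt_of_le h6 (min_le_right _ _)
  -- membership in the segment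
  have hm1 : x + δ * (q - p) ∈ segment ℝ p q := by
    have := seg_auxF (P := p) (Q := q) (r := μ + δ) (by linarith) (by linarith)
    rw [hxd]
    convert this using 1
    push_cast
    ring
  have hm2 : x - δ * (q - p) ∈ segment ℝ p q := by
    have := seg_auxF (P := p) (Q := q) (r := μ - δ) (by linarith) (by linarith)
    rw [hxd]
    convert this using 1
    push_cast
    ring
  -- determinants
  have hdx : det (u (k + 1) - u k) (x - u k) = 0 := by
    rw [hxd']
    simp only [det, Complex.sub_re, Complex.sub_im, Complex.add_re, Complex.add_im,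
      Complex.mul_re, Complex.mul_im, Complex.ofReal_re, Complex.ofReal_im]
    ring
  have hd1 : det (u (k + 1) - u k) (x + δ * (q - p) - u k) =
      δ * det (u (k + 1) - u k) (q - p) := by
    have : det (u (k + 1) - u k) (x + δ * (q - p) - u k) =
        det (u (k + 1) - u k) (x - u k) + δ * det (u (k + 1) - u k) (q - p) := by
      simp only [det, Complex.sub_re, Complex.sub_im, Complex.add_re, Complex.add_im,
        Complex.mul_re, Complex.mul_im, Complex.ofReal_re, Complex.ofReal_im]
      ring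
    rw [this, hdx, zero_add]
  have hd2 : det (u (k + 1) - u k) (x - δ * (q - p) - u k) =
      - (δ * det (u (k + 1) - u k) (q - p)) := by
    have : det (u (k + 1) - u k) (x - δ * (q - p) - u k) =
        det (u (k + 1) - u k) (x - u k) - δ * det (u (k + 1) - u k) (q - p) := by
      simp only [det, Complex.sub_re, Complex.sub_im,
        Complex.mul_re, Complex.mul_im, Complex.ofReal_re, Complex.ofReal_im]
      ring
    rw [this, hdx, zero_sub]
  have hne1 : det (u (k + 1) - u k) (x + δ * (q - p) - u k) ≠ 0 := by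
    rw [hd1]
    exact mul_ne_zero h5.ne' hdet
  have hne2 : det (u (k + 1) - u k) (x - δ * (q - p) - u k) ≠ 0 := by
    rw [hd2]
    exact neg_ne_zero.2 (mul_ne_zero h5.ne' hdet)
  have hline : ∀ z ∈ segment ℝ (u k) (u (k + 1)), det (u (k + 1) - u k) (z - u k) = 0 := by
    rintro z ⟨a, b, -, -, hab, rfl⟩
    have : a = 1 - b := by linarith
    subst this
    simp only [det, Complex.sub_re, Complex.sub_im, Complex.add_re, Complex.add_im,
      Complex.smul_re, Complex.smul_im, smul_eq_mul]
    ring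
  have hT : ∀ z, z ∉ tr (pc u 0 k ++ pc u (k + 1) N) →
      det (u (k + 1) - u k) (z - u k) ≠ 0 → z ∉ TT N u := by
    intro z hz1 hz2 hz3
    obtain ⟨j, hj, hzj⟩ := mem_TT.1 hz3
    rcases lt_trichotomy j k with hjk | hjk | hjk
    · exact hz1 (by rw [tr_append]; exact Or.inl (mem_tr_pc.2 ⟨j, Nat.zero_le _, hjk, hzj⟩))
    · subst hjk
      exact hz2 (hline z hzj)
    · exact hz1 (by rw [tr_append]; exact Or.inr (mem_tr_pc.2 ⟨j, hjk, hj, hzj⟩))
  have hp1 : par (pc u 0 N) (x + δ * (q - p)) = 1 :=
    hJ.inn _ (hv hm1) (hT _ h2 hne1)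
  have hp2 : par (pc u 0 N) (x - δ * (q - p)) = 1 :=
    hJ.inn _ (hv hm2) (hT _ h4 hne2)
  have hc1 : c ≠ c + 1 := by
    intro h7
    have : (0 : ZMod 2) = 1 := by
      have h8 : c + 0 = c + 1 := by rw [add_zero]; exact h7
      exact add_left_cancel h8
    exact absurd this (by decide)
  rcases lt_or_gt_of_ne hdet with hlt | hgt
  · have hn1 : det (u (k + 1) - u k) (x + δ * (q - p) - u k) < 0 := by
      rw [hd1]; exact mul_neg_of_pos_of_neg h5 hlt
    have hn2 : 0 < det (u (k + 1) - u k) (x - δ * (q - p) - u k) := by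
      rw [hd2]; exact neg_pos.2 (mul_neg_of_pos_of_neg h5 hlt)
    have e1 := (h1 hne1).2 hn1
    have e2 := (h3 hne2).1 hn2
    rw [hp1] at e1
    rw [hp2] at e2
    exact hc1 (e1.symm.trans e2)
  · have hn1 : 0 < det (u (k + 1) - u k) (x + δ * (q - p) - u k) := by
      rw [hd1]; exact mul_pos h5 hgt
    have hn2 : det (u (k + 1) - u k) (x - δ * (q - p) - u k) < 0 := by
      rw [hd2]; exact neg_lt_zero.2 (mul_pos h5 hgt)
    have e1 := (h1 hne1).1 hn1
    have e2 := (h3 hne2).2 hn2
    rw [hp1] at e1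
    rw [hp2] at e2
    exact hc1 (e2.symm.trans e1)

theorem along_edge {N : ℕ} {u : ℕ → ℂ} (h : SP N u) {d : ℕ} (hd : d < N) {z : ℂ}
    (hz : z ∈ openSegment ℝ (u d) (u (d + 1))) (hv : segment ℝ (u 0) z ⊆ reg (TT N u))
    (hp : det (u (d + 1) - u d) (u 0 - u d) = 0) :
    segment ℝ (u 0) (u d) ⊆ reg (TT N u) ∧ segment ℝ (u 0) (u (d + 1)) ⊆ reg (TT N u) := by
  have hne := ne_succF h hd
  have he : u (d + 1) - u d ≠ 0 := sub_ne_zero.2 (Ne.symm hne)
  obtain ⟨a, ha⟩ := det_parallel he hp
  obtain ⟨s', l, hs', hl, hsl, hze⟩ := hz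
  have hJ := jordan h
  have hu0 : u 0 = u d + a * (u (d + 1) - u d) := by rw [← ha]; ring
  have hzd : z = u d + l * (u (d + 1) - u d) := by
    rw [← hze]
    have : s' = 1 - l := by linarith
    subst this
    simp only [Complex.real_smul]
    push_cast
    ring
  have hud : u d = u d + ((0 : ℝ) : ℂ) * (u (d + 1) - u d) := by
    simp
  have hud1 : u (d + 1) = u d + ((1 : ℝ) : ℂ) * (u (d + 1) - u d) := by
    simp
  have key : ∀ r : ℝ, ((a ≤ r ∧ r ≤ l) ∨ (l ≤ r ∧ r ≤ a) ∨ (0 ≤ r ∧ r ≤ 1)) →
      u d + r * (u (d + 1) - u d) ∈ reg (TT N u) := by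
    intro r hr
    rcases hr with h1 | h1 | h1
    · apply hv
      rw [hu0, hzd]
      exact seg_btw (Or.inl h1)
    · apply hv
      rw [hu0, hzd]
      exact seg_btw (Or.inr h1)
    · apply hJ.sub
      rw [mem_TT]
      exact ⟨d, hd, seg_auxF h1.1 h1.2⟩
  have gen : ∀ t : ℝ, 0 ≤ t → t ≤ 1 →
      segment ℝ (u 0) (u d + t * (u (d + 1) - u d)) ⊆ reg (TT N u) := by
    intro t ht0 ht1 y hy
    rw [hu0] at hy
    obtain ⟨s, μ, hs, hμ, hsμ, rfl⟩ := hy
    have e1 : s • (u d + a * (u (d + 1) - u d)) + μ • (u d + t * (u (d + 1) - u d)) =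
        u d + ((s * a + μ * t : ℝ) : ℂ) * (u (d + 1) - u d) := by
      have : s = 1 - μ := by linarith
      subst this
      simp only [Complex.real_smul]
      push_cast
      ring
    rw [e1]
    apply key
    have hs1 : s = 1 - μ := by linarith
    by_cases h01 : 0 ≤ s * a + μ * t ∧ s * a + μ * t ≤ 1
    · exact Or.inr (Or.inr h01)
    · rw [not_and_or] at h01
      rcases h01 with h2 | h2
      · left
        push Not at h2
        refine ⟨?_, by linarith⟩
        have hat : a ≤ t := by
          by_contra hc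
          push Not at hc
          nlinarith
        subst hs1
        nlinarith
      · right
        left
        push Not at h2
        refine ⟨by linarith, ?_⟩
        have hat : t ≤ a := by
          by_contra hc
          push Not at hc
          subst hs1
          nlinarith
        subst hs1
        nlinarith
  constructor
  · have h1 := gen 0 le_rfl zero_le_one
    rw [← hud] at h1
    exact h1
  · have h1 := gen 1 zero_le_one le_rfl
    rw [← hud1] at h1
    exact h1

end VisMap
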