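import Pool.Agent.Lib.MP_9f3af0_lc.ParLoc

/-!
# The crossing parity flips across a segment of the chain

Let `L` be a permutation of `(a, b) :: L'`, closed, `z0` in the open segment `(a, b)` and off `tr L'`.
Near `z0`, for `z` off the line `ab`: `par L z = c + [0 < det (b - a) (z - a)]`.

Proof.  By `par_local_aux` for `L'` near `z0`: `par L' z = c' + Σ_{e ∈ L'} (gg z0 e.1 z + gg z0 e.2 z)`, and by
closedness the sum is `gg z0 a z + gg z0 b z` (mod 2).  So
`par L z = c' + (cr a b z + gg z0 a z + gg z0 b z)`.
Not vertical (`a.re ≠ b.re`): `z0.re` is strictly between, so `gg z0 a z = gg z0 b z = 0`, and near `z0`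
`cr a b z = 1` iff `det (b - a) (z - a) < 0` (if `a.re < b.re`) or iff `0 < det (b - a) (z - a)` (if
`b.re < a.re`); off the line this is `1 + [0 < det]` or `[0 < det]`.
Vertical (`a.re = b.re = z0.re`): `cr a b z = 0`, exactly one of `a.im, b.im` is `> z0.im` (`a ≠ b`, since if
`a = b` then `det (b - a) _ = 0` and there is nothing to prove), so
`gg z0 a z + gg z0 b z = [z0.re ≤ z.re]`, and `det (b - a) (z - a) = - (b.im - a.im) (z.re - a.re)`: off the
line its sign is determined by the sign of `z.re - z0.re`.
-/

namespace VisMap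

open Filter Topology Set

theorem flip {L L' : List (ℂ × ℂ)} {a b z0 : ℂ} (hL : Closed L) (hp : L.Perm ((a, b) :: L'))
    (h0 : z0 ∈ openSegment ℝ a b) (h : z0 ∉ tr L') :
    ∃ c : ZMod 2, ∀ᶠ z in 𝓝 z0, det (b - a) (z - a) ≠ 0 →
      (0 < det (b - a) (z - a) → par L z = c + 1) ∧ (det (b - a) (z - a) < 0 → par L z = c) := by
  obtain ⟨c', hc'⟩ := par_local_aux h
  have hsum : ∀ z, (L'.map fun e => gg z0 e.1 z + gg z0 e.2 z).sum = gg z0 a z + gg z0 b z := by
    intro z
    have h1 := (Closed.perm hp hL) (fun x => gg z0 x z)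
    simp only [List.map_cons, List.sum_cons] at h1
    have h2 : ∀ x y : ZMod 2, x + y = 0 → y = x := by decide
    exact h2 _ _ h1
  have hpar : ∀ z, par L z = cr a b z + par L' z := by
    intro z; rw [par_perm hp, par_cons]
  have hmain : ∀ᶠ z in 𝓝 z0, par L z = cr a b z + (c' + (gg z0 a z + gg z0 b z)) := by
    filter_upwards [hc'] with z hz
    rw [hpar, hz, hsum]
  have htwo : ∀ x : ZMod 2, x + 1 + 1 = x := by decide
  obtain ⟨s, t, hs, ht, hst, rfl⟩ := h0
  have hre : (s • a + t • b).re = s * a.re + t * b.re := by simp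
  have him : (s • a + t • b).im = s * a.im + t * b.im := by simp
  set z0 := s • a + t • b with hz0
  have hs1 : s = 1 - t := by linarith
  have ht1 : t = 1 - s := by linarith
  have hcre : Continuous fun z : ℂ => z.re := Complex.continuous_re
  rcases lt_trichotomy a.re b.re with hab | hab | hab
  · have e1 : a.re < z0.re := by rw [hre, hs1]; nlinarith [mul_pos ht (sub_pos.2 hab)]
    have e2 : z0.re < b.re := by rw [hre, ht1]; nlinarith [mul_pos hs (sub_pos.2 hab)]
    refine ⟨c' + 1, ?_⟩
    filter_upwards [hmain, hcre.tendsto z0 |>.eventually (lt_mem_nhds e1),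
      hcre.tendsto z0 |>.eventually (gt_mem_nhds e2)] with z hz h1 h2 _
    have ga : gg z0 a z = 0 := by
      unfold gg; rw [if_neg]; rintro ⟨h3, -⟩; exact e1.ne h3
    have gb : gg z0 b z = 0 := by
      unfold gg; rw [if_neg]; rintro ⟨h3, -⟩; exact e2.ne' h3
    rw [hz, ga, gb]
    constructor
    · intro h3
      have : cr a b z = 0 := by
        unfold cr; rw [if_neg]
        rintro (⟨-, -, h4⟩ | ⟨-, h4, -⟩)
        · exact absurd h3 (not_lt.2 h4.le)
        · linarith
      rw [this, htwo]; simp
    · intro h3
      have : cr a b z = 1 := by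
        unfold cr; rw [if_pos (Or.inl ⟨h1.le, h2, h3⟩)]
      rw [this]; simp [add_comm]
  · by_cases him2 : a.im = b.im
    · have : a = b := Complex.ext hab him2
      refine ⟨0, Eventually.of_forall fun z hz => ?_⟩
      exfalso; apply hz; subst this; simp [det]
    · have e1 : z0.re = a.re := by rw [hre, ← hab, hs1]; ring
      have hdet : ∀ z : ℂ, det (b - a) (z - a) = - ((b.im - a.im) * (z.re - a.re)) := by
        intro z; unfold det; simp only [Complex.sub_re, Complex.sub_im, hab]; ring
      have hcr : ∀ z : ℂ, cr a b z = 0 := by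
        intro z; unfold cr; rw [if_neg]
        rintro (⟨h3, h4, -⟩ | ⟨h3, h4, -⟩) <;> linarith
      rcases lt_or_gt_of_ne him2 with h5 | h5
      · have e2 : a.im < z0.im := by rw [him, hs1]; nlinarith [mul_pos ht (sub_pos.2 h5)]
        have e3 : z0.im < b.im := by rw [him, ht1]; nlinarith [mul_pos hs (sub_pos.2 h5)]
        have ga : ∀ z, gg z0 a z = 0 := by
          intro z; unfold gg; rw [if_neg]; rintro ⟨-, h3, -⟩; linarith
        refine ⟨c' + 1, ?_⟩
        filter_upwards [hmain] with z hz _
        rw [hz, hcr, ga, hdet]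
        constructor
        · intro h3
          have h4 : z.re < a.re := by
            by_contra h6
            rw [not_lt] at h6
            nlinarith [mul_nonneg (sub_nonneg.2 h5.le) (sub_nonneg.2 h6)]
          have gb : gg z0 b z = 0 := by
            unfold gg; rw [if_neg]; rintro ⟨-, -, h7⟩; linarith
          rw [gb, htwo]; simp
        · intro h3
          have h4 : a.re < z.re := by
            by_contra h6
            rw [not_lt] at h6
            nlinarith [mul_nonneg (sub_nonneg.2 h5.le) (sub_nonneg.2 h6)]
          have gb : gg z0 b z = 1 := by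
            unfold gg; rw [if_pos]; exact ⟨by rw [e1, hab], e3, by linarith⟩
          rw [gb]; simp
      · have e2 : z0.im < a.im := by rw [him, hs1]; nlinarith [mul_pos ht (sub_pos.2 h5)]
        have e3 : b.im < z0.im := by rw [him, ht1]; nlinarith [mul_pos hs (sub_pos.2 h5)]
        have gb : ∀ z, gg z0 b z = 0 := by
          intro z; unfold gg; rw [if_neg]; rintro ⟨-, h3, -⟩; linarith
        refine ⟨c', ?_⟩
        filter_upwards [hmain] with z hz _
        rw [hz, hcr, gb, hdet]
        constructor
        · intro h3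
          have h4 : a.re < z.re := by
            by_contra h6
            rw [not_lt] at h6
            nlinarith [mul_nonneg (sub_nonneg.2 h5.le) (sub_nonneg.2 h6)]
          have ga : gg z0 a z = 1 := by
            unfold gg; rw [if_pos]; exact ⟨e1.symm, e2, h4.le⟩
          rw [ga]; simp
        · intro h3
          have h4 : z.re < a.re := by
            by_contra h6
            rw [not_lt] at h6
            nlinarith [mul_nonneg (sub_nonneg.2 h5.le) (sub_nonneg.2 h6)]
          have ga : gg z0 a z = 0 := by
            unfold gg; rw [if_neg]; rintro ⟨-, -, h7⟩; linarith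
          rw [ga]; simp
  · have e1 : b.re < z0.re := by rw [hre, ht1]; nlinarith [mul_pos hs (sub_pos.2 hab)]
    have e2 : z0.re < a.re := by rw [hre, hs1]; nlinarith [mul_pos ht (sub_pos.2 hab)]
    refine ⟨c', ?_⟩
    filter_upwards [hmain, hcre.tendsto z0 |>.eventually (lt_mem_nhds e1),
      hcre.tendsto z0 |>.eventually (gt_mem_nhds e2)] with z hz h1 h2 _
    have ga : gg z0 a z = 0 := by
      unfold gg; rw [if_neg]; rintro ⟨h3, -⟩; exact e2.ne' h3
    have gb : gg z0 b z = 0 := by
      unfold gg; rw [if_neg]; rintro ⟨h3, -⟩; exact e1.ne h3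
    rw [hz, ga, gb]
    constructor
    · intro h3
      have : cr a b z = 1 := by
        unfold cr; rw [if_pos (Or.inr ⟨h1.le, h2, h3⟩)]
      rw [this]; simp [add_comm]
    · intro h3
      have : cr a b z = 0 := by
        unfold cr; rw [if_neg]
        rintro (⟨-, h4, -⟩ | ⟨-, -, h4⟩)
        · linarith
        · exact absurd h3 (not_lt.2 h4.le)
      rw [this]; simp

end VisMap
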