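import Pool.Agent.Lib.MP_9f3af0_lc.VisEdge

/-!
# The subpolygon of a gap

`0 < s < t < N`, `u 0` sees `u s` and `u t` and no vertex strictly between, and neither of the two lies on the
segment from `u 0` to the other.  Then `u 0, u s, u (s+1), …, u t` is a simple polygon.

`qq u s t k = u 0` for `k = 0` and for `k ≥ t - s + 2`, `= u (s + k - 1)` for `1 ≤ k ≤ t - s + 1`.
Main fact: (F) if `x ∈ [u 0, u s]` is on the edge `k`, `s ≤ k < t`, then `x = u s` (and `k = s` by `vertex_edge`).
By `vis_edge` (with `p = 0`, `q = s`) `x = u k`, or `x = u (k+1)`, or both end points of the edge are in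
`[u 0, u s]`.  A vertex `u l` (`s ≤ l ≤ t`) in `[u 0, u s]` is visible from `u 0` (subsegment), so `l = s` or
`l = t`, and `l = t` is excluded by hypothesis.  So `x = u s` in the first two cases, and the third case is
impossible (two different vertices).  In the same way `x ∈ [u 0, u t]` on the edge `k`, `s ≤ k < t`, implies
`x = u t`.  (G) `[u 0, u s] ∩ [u 0, u t] = {u 0}`: a second common point puts `u s` and `u t` on one ray from
`u 0`, so one of them is on the segment from `u 0` to the other.
Now check the fields: `inj` from `inj` of `u`; the edges `1 ≤ k ≤ t - s` of `qq` are the edges `s + k - 1` of `u`; the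
edge `0` is `[u 0, u s]`, the last edge `t - s + 1` is `[u t, u 0]`.
`TT_qq`: the trace is `[u 0, u s] ∪ (edges k, s ≤ k < t) ∪ [u t, u 0]`, contained in `reg (TT N u)`.
-/

namespace VisMap

open Set

/-- The vertices `u 0, u s, …, u t, u 0, u 0, …`. -/
def qq (u : ℕ → ℂ) (s t k : ℕ) : ℂ := if k = 0 ∨ t - s + 1 < k then u 0 else u (s + k - 1)

private theorem qq_zero (u : ℕ → ℂ) (s t : ℕ) : qq u s t 0 = u 0 := by
  unfold qq; rw [if_pos (Or.inl rfl)]

private theorem qq_mid (u : ℕ → ℂ) {s t k : ℕ} (h1 : 1 ≤ k) (h2 : k ≤ t - s + 1) :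
    qq u s t k = u (s + k - 1) := by
  unfold qq; rw [if_neg]; omega

private theorem qq_last (u : ℕ → ℂ) (s t : ℕ) : qq u s t (t - s + 2) = u 0 := by
  unfold qq; rw [if_pos (Or.inr (by omega))]

private theorem sub_V {N : ℕ} {u : ℕ → ℂ} {s t : ℕ}
    (hvs : segment ℝ (u 0) (u s) ⊆ reg (TT N u))
    (hg : ∀ m, s < m → m < t → ¬ segment ℝ (u 0) (u m) ⊆ reg (TT N u))
    (h1 : u t ∉ segment ℝ (u 0) (u s)) {l : ℕ} (hl1 : s ≤ l) (hl2 : l ≤ t)
    (hl : u l ∈ segment ℝ (u 0) (u s)) : l = s := by
  rcases Nat.eq_or_lt_of_le hl1 with h | h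
  · exact h.symm
  · exfalso
    rcases Nat.eq_or_lt_of_le hl2 with h' | h'
    · rw [h'] at hl; exact h1 hl
    · refine hg l h h' (Subset.trans ?_ hvs)
      exact (convex_segment _ _).segment_subset (left_mem_segment ℝ _ _) hl

private theorem sub_V' {N : ℕ} {u : ℕ → ℂ} {s t : ℕ}
    (hvt : segment ℝ (u 0) (u t) ⊆ reg (TT N u))
    (hg : ∀ m, s < m → m < t → ¬ segment ℝ (u 0) (u m) ⊆ reg (TT N u))
    (h2 : u s ∉ segment ℝ (u 0) (u t)) {l : ℕ} (hl1 : s ≤ l) (hl2 : l ≤ t)
    (hl : u l ∈ segment ℝ (u 0) (u t)) : l = t := by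
  rcases Nat.eq_or_lt_of_le hl2 with h | h
  · exact h
  · exfalso
    rcases Nat.eq_or_lt_of_le hl1 with h' | h'
    · rw [← h'] at hl; exact h2 hl
    · refine hg l h' h (Subset.trans ?_ hvt)
      exact (convex_segment _ _).segment_subset (left_mem_segment ℝ _ _) hl

private theorem sub_G {a b c x : ℂ} (h1 : c ∉ segment ℝ a b) (h2 : b ∉ segment ℝ a c)
    (hx : x ∈ segment ℝ a b) (hx' : x ∈ segment ℝ a c) : x = a := by
  by_contra hne
  rw [segment_eq_image'] at hx hx'
  obtain ⟨α, ⟨hα0, hα1⟩, hα⟩ := hx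
  obtain ⟨β, ⟨hβ0, hβ1⟩, hβ⟩ := hx'
  simp only [Complex.real_smul] at hα hβ
  have hα' : 0 < α := by
    rcases hα0.lt_or_eq with h | h
    · exact h
    · exfalso; apply hne; rw [← hα, ← h]; simp
  have hβ' : 0 < β := by
    rcases hβ0.lt_or_eq with h | h
    · exact h
    · exfalso; apply hne; rw [← hβ, ← h]; simp
  have hαc : (α : ℂ) ≠ 0 := by exact_mod_cast hα'.ne'
  have hβc : (β : ℂ) ≠ 0 := by exact_mod_cast hβ'.ne'
  have hab : (α : ℂ) * (b - a) = β * (c - a) := by
    have : a + (α : ℂ) * (b - a) = a + β * (c - a) := hα.trans hβ.symm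
    exact add_left_cancel this
  rcases le_total α β with h | h
  · apply h1
    rw [segment_eq_image']
    refine ⟨α / β, ⟨by positivity, (div_le_one hβ').2 h⟩, ?_⟩
    simp only [Complex.real_smul, Complex.ofReal_div]
    have : (α : ℂ) / β * (b - a) = c - a := by
      rw [div_mul_eq_mul_div, hab, mul_div_cancel_left₀ _ hβc]
    rw [this]; ring
  · apply h2
    rw [segment_eq_image']
    refine ⟨β / α, ⟨by positivity, (div_le_one hα').2 h⟩, ?_⟩
    simp only [Complex.real_smul, Complex.ofReal_div]
    have : (β : ℂ) / α * (c - a) = b - a := by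
      rw [div_mul_eq_mul_div, ← hab, mul_div_cancel_left₀ _ hαc]
    rw [this]; ring

theorem sp_qq {N : ℕ} {u : ℕ → ℂ} (h : SP N u) {s t : ℕ} (hs : 0 < s) (hst : s < t) (ht : t < N)
    (hvs : segment ℝ (u 0) (u s) ⊆ reg (TT N u)) (hvt : segment ℝ (u 0) (u t) ⊆ reg (TT N u))
    (hg : ∀ m, s < m → m < t → ¬ segment ℝ (u 0) (u m) ⊆ reg (TT N u))
    (h1 : u t ∉ segment ℝ (u 0) (u s)) (h2 : u s ∉ segment ℝ (u 0) (u t)) :
    SP (t - s + 2) (qq u s t) := by
  have hN := h.three
  have hF : ∀ k, s ≤ k → k < t → ∀ x ∈ segment ℝ (u 0) (u s),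
      x ∈ segment ℝ (u k) (u (k + 1)) → x = u s := by
    intro k hk1 hk2 x hx hx'
    rcases vis_edge h (p := 0) (q := s) (by omega) (by omega) (by omega) hvs (by omega : k < N) hx hx'
      with h3 | h3 | ⟨h3, h4⟩
    · have := sub_V hvs hg h1 hk1 hk2.le (h3 ▸ hx)
      rw [h3, this]
    · have := sub_V hvs hg h1 (by omega) (by omega : k + 1 ≤ t) (h3 ▸ hx)
      rw [h3, this]
    · have e1 := sub_V hvs hg h1 hk1 hk2.le h3
      have e2 := sub_V hvs hg h1 (by omega) (by omega : k + 1 ≤ t) h4
      omega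
  have hF' : ∀ k, s ≤ k → k < t → ∀ x ∈ segment ℝ (u 0) (u t),
      x ∈ segment ℝ (u k) (u (k + 1)) → x = u t := by
    intro k hk1 hk2 x hx hx'
    rcases vis_edge h (p := 0) (q := t) (by omega) (by omega) (by omega) hvt (by omega : k < N) hx hx'
      with h3 | h3 | ⟨h3, h4⟩
    · have := sub_V' hvt hg h2 hk1 hk2.le (h3 ▸ hx)
      rw [h3, this]
    · have := sub_V' hvt hg h2 (by omega) (by omega : k + 1 ≤ t) (h3 ▸ hx)
      rw [h3, this]
    · have e1 := sub_V' hvt hg h2 hk1 hk2.le h3
      have e2 := sub_V' hvt hg h2 (by omega) (by omega : k + 1 ≤ t) h4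
      omega
  have hinj : ∀ a b, a < N → b < N → u a = u b → a = b := h.inj
  refine ⟨by omega, ?_, ?_, ?_, ?_, ?_⟩
  · rw [qq_last, qq_zero]
  · intro j k hj hk hjk
    rcases Nat.eq_zero_or_pos j with hj0 | hj0 <;> rcases Nat.eq_zero_or_pos k with hk0 | hk0
    · omega
    · rw [hj0, qq_zero, qq_mid u hk0 (by omega)] at hjk
      have := hinj _ _ (by omega) (by omega) hjk
      omega
    · rw [hk0, qq_zero, qq_mid u hj0 (by omega)] at hjk
      have := hinj _ _ (by omega) (by omega) hjk
      omega
    · rw [qq_mid u hk0 (by omega), qq_mid u hj0 (by omega)] at hjk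
      have := hinj _ _ (by omega) (by omega) hjk
      omega
  · intro k hk
    rcases Nat.eq_zero_or_pos k with hk0 | hk0
    · subst hk0
      have e1 : qq u s t (0 + 1) = u s := by
        rw [qq_mid u (by omega) (by omega)]; congr 1
      have e2 : qq u s t (0 + 2) = u (s + 1) := by
        rw [qq_mid u (by omega) (by omega)]; congr 1
      rw [e1, e2, qq_zero]
      apply Subset.antisymm
      · rintro x ⟨hx, hx'⟩
        exact hF s le_rfl hst x hx hx'
      · rintro x rfl
        exact ⟨right_mem_segment ℝ _ _, left_mem_segment ℝ _ _⟩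
    · have e0 : qq u s t k = u (s + k - 1) := qq_mid u hk0 (by omega)
      have e1 : qq u s t (k + 1) = u (s + k - 1 + 1) := by
        rw [qq_mid u (by omega) (by omega)]; congr 1; omega
      rcases Nat.lt_or_ge (t - s) (k + 1) with hk1 | hk1
      · have hk2 : k = t - s := by omega
        have e2 : qq u s t (k + 2) = u 0 := by rw [hk2]; exact qq_last u s t
        have e3 : s + k - 1 + 1 = t := by omega
        rw [e0, e1, e2, e3]
        apply Subset.antisymm
        · rintro x ⟨hx, hx'⟩
          rw [segment_symm] at hx'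
          exact hF' (s + k - 1) (by omega) (by omega) x hx' (by rw [e3]; exact hx)
        · rintro x rfl
          exact ⟨right_mem_segment ℝ _ _, left_mem_segment ℝ _ _⟩
      · have e2 : qq u s t (k + 2) = u (s + k - 1 + 2) := by
          rw [qq_mid u (by omega) (by omega)]; congr 1; omega
        rw [e0, e1, e2]
        exact h.adj (s + k - 1) (by omega)
  · have e1 : qq u s t (t - s + 2 - 1) = u t := by
      rw [qq_mid u (by omega) (by omega)]; congr 1; omega
    have e2 : qq u s t 1 = u s := by
      rw [qq_mid u (by omega) (by omega)]; congr 1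
    rw [e1, qq_last, qq_zero, e2]
    apply Subset.antisymm
    · rintro x ⟨hx, hx'⟩
      rw [segment_symm] at hx
      exact sub_G h1 h2 hx' hx
    · rintro x rfl
      exact ⟨right_mem_segment ℝ _ _, left_mem_segment ℝ _ _⟩
  · intro j k hjk hk hne
    have hk0 : 1 ≤ k := by omega
    have ek : qq u s t k = u (s + k - 1) := qq_mid u hk0 (by omega)
    rcases Nat.eq_zero_or_pos j with hj0 | hj0
    · subst hj0
      have hk1 : k ≤ t - s := by
        by_contra hc
        exact hne ⟨rfl, by omega⟩
      have e1 : qq u s t (0 + 1) = u s := by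
        rw [qq_mid u (by omega) (by omega)]; congr 1
      have e2 : qq u s t (k + 1) = u (s + k - 1 + 1) := by
        rw [qq_mid u (by omega) (by omega)]; congr 1; omega
      rw [qq_zero, e1, ek, e2, Set.disjoint_left]
      intro x hx hx'
      have hxs := hF (s + k - 1) (by omega) (by omega) x hx hx'
      rw [hxs] at hx'
      rcases vertex_edge h (m := s) (k := s + k - 1) (by omega) (by omega) hx' with h3 | h3
      · have := hinj _ _ (by omega) (by omega) h3
        omega
      · have := hinj _ _ (by omega) (by omega) h3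
        omega
    · have e0 : qq u s t j = u (s + j - 1) := qq_mid u hj0 (by omega)
      have e1 : qq u s t (j + 1) = u (s + j - 1 + 1) := by
        rw [qq_mid u (by omega) (by omega)]; congr 1; omega
      rcases Nat.lt_or_ge (t - s) k with hk1 | hk1
      · have hk2 : k = t - s + 1 := by omega
        have e2 : qq u s t (k + 1) = u 0 := by rw [hk2]; exact qq_last u s t
        have e3 : s + k - 1 = t := by omega
        rw [e0, e1, ek, e2, e3, Set.disjoint_left]
        intro x hx hx'
        rw [segment_symm] at hx'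
        have hxt := hF' (s + j - 1) (by omega) (by omega) x hx' hx
        rw [hxt] at hx
        rcases vertex_edge h (m := t) (k := s + j - 1) (by omega) (by omega) hx with h3 | h3
        · have := hinj _ _ (by omega) (by omega) h3
          omega
        · have := hinj _ _ (by omega) (by omega) h3
          omega
      · have e2 : qq u s t (k + 1) = u (s + k - 1 + 1) := by
          rw [qq_mid u (by omega) (by omega)]; congr 1; omega
        rw [e0, e1, ek, e2]
        exact h.disj (s + j - 1) (s + k - 1) (by omega) (by omega) (by omega)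

theorem TT_qq_sub {N : ℕ} {u : ℕ → ℂ} (h : SP N u) {s t : ℕ} (hs : 0 < s) (hst : s < t) (ht : t < N)
    (hvs : segment ℝ (u 0) (u s) ⊆ reg (TT N u)) (hvt : segment ℝ (u 0) (u t) ⊆ reg (TT N u)) :
    TT (t - s + 2) (qq u s t) ⊆ reg (TT N u) := by
  intro x hx
  obtain ⟨k, hk, hx⟩ := mem_TT.1 hx
  rcases Nat.eq_zero_or_pos k with hk0 | hk0
  · subst hk0
    have e1 : qq u s t (0 + 1) = u s := by
      rw [qq_mid u (by omega) (by omega)]; congr 1
    rw [qq_zero, e1] at hx
    exact hvs hx
  · have ek : qq u s t k = u (s + k - 1) := qq_mid u hk0 (by omega)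
    rcases Nat.lt_or_ge (t - s) k with hk1 | hk1
    · have hk2 : k = t - s + 1 := by omega
      have e2 : qq u s t (k + 1) = u 0 := by rw [hk2]; exact qq_last u s t
      have e3 : s + k - 1 = t := by omega
      rw [ek, e2, e3, segment_symm] at hx
      exact hvt hx
    · have e2 : qq u s t (k + 1) = u (s + k - 1 + 1) := by
        rw [qq_mid u (by omega) (by omega)]; congr 1; omega
      rw [ek, e2] at hx
      exact (jordan h).sub (mem_TT.2 ⟨s + k - 1, by omega, hx⟩)

end VisMap
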