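import Pool.Agent.Lib.MP_9f3af0_lc.Window
import Pool.Agent.Lib.MP_9f3af0_lc.Sub

/-!
# The structure of a gap

`0 < s < t < N`, `u 0` sees `u s` and `u t` and no vertex strictly between.  There are `c`, `s ≤ c < t`, and points
`a', b'` of the edge `c` with `u s ∈ [u 0, a']`, `u t ∈ [u 0, b']` and the triangle `u 0, a', b'` in the region.

If `u t ∈ [u 0, u s]`: `c = s`, `a' = b' = u s`.  If `u s ∈ [u 0, u t]`: `c = t - 1`, `a' = b' = u t`.  Otherwise apply
`window` to the polygon `qq u s t` with `t - s + 2` vertices (`sp_qq`): the vertices `qq m`,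
`1 < m`, `m + 1 < t - s + 2` are `u (s + m - 1)` strictly between, not visible in the subpolygon because
`reg (TT (qq)) ⊆ reg (TT N u)` (`reg_mono`, `TT_qq_sub`).  The edge `j` of `qq` is the edge `c = s + j - 1` of `u`.
-/

namespace VisMap

open Set

theorem gap {N : ℕ} {u : ℕ → ℂ} (h : SP N u) {s t : ℕ} (hs : 0 < s) (hst : s < t) (ht : t < N)
    (hvs : segment ℝ (u 0) (u s) ⊆ reg (TT N u)) (hvt : segment ℝ (u 0) (u t) ⊆ reg (TT N u))
    (hg : ∀ m, s < m → m < t → ¬ segment ℝ (u 0) (u m) ⊆ reg (TT N u)) :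
    ∃ c, s ≤ c ∧ c < t ∧ ∃ a' ∈ segment ℝ (u c) (u (c + 1)), ∃ b' ∈ segment ℝ (u c) (u (c + 1)),
      u s ∈ segment ℝ (u 0) a' ∧ u t ∈ segment ℝ (u 0) b' ∧
      convexHull ℝ {u 0, a', b'} ⊆ reg (TT N u) := by
  by_cases h1 : u t ∈ segment ℝ (u 0) (u s)
  · refine ⟨s, le_rfl, hst, u s, left_mem_segment ℝ _ _, u s, left_mem_segment ℝ _ _,
      right_mem_segment ℝ _ _, h1, ?_⟩
    rw [Set.pair_eq_singleton, convexHull_pair]
    exact hvs
  by_cases h2 : u s ∈ segment ℝ (u 0) (u t)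
  · have e1 : t - 1 + 1 = t := by omega
    refine ⟨t - 1, by omega, by omega, u t, ?_, u t, ?_, h2, right_mem_segment ℝ _ _, ?_⟩
    · rw [e1]; exact right_mem_segment ℝ _ _
    · rw [e1]; exact right_mem_segment ℝ _ _
    · rw [Set.pair_eq_singleton, convexHull_pair]
      exact hvt
  have hq := sp_qq h hs hst ht hvs hvt hg h1 h2
  have hsub := TT_qq_sub h hs hst ht hvs hvt
  have q0 : qq u s t 0 = u 0 := by simp [qq]
  have qm : ∀ m, 1 ≤ m → m ≤ t - s + 1 → qq u s t m = u (s + m - 1) := by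
    intro m hm1 hm2
    rw [qq, if_neg]
    rintro (h3 | h3) <;> omega
  obtain ⟨j, hj1, hj2, a', ha', b', hb', hu1, huN, hcv⟩ := window hq (by
    intro m hm1 hm2 h3
    rw [q0, qm m (by omega) (by omega)] at h3
    exact hg (s + m - 1) (by omega) (by omega) (h3.trans (reg_mono hsub)))
  have e2 : s + (j + 1) - 1 = s + j - 1 + 1 := by omega
  rw [qm j (by omega) (by omega), qm (j + 1) (by omega) (by omega), e2] at ha' hb'
  rw [q0, qm 1 le_rfl (by omega), Nat.add_sub_cancel] at hu1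
  have e3 : s + (t - s + 2 - 1) - 1 = t := by omega
  rw [q0, qm (t - s + 2 - 1) (by omega) (by omega), e3] at huN
  rw [q0] at hcv
  exact ⟨s + j - 1, by omega, by omega, a', ha', b', hb', hu1, huN, hcv.trans (reg_mono hsub)⟩

end VisMap
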