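import Pool.Agent.Lib.MP_9f3af0_lc.Base

/-!
# From `v : ZMod n → ℂ` to sequences

`sp_sq`: the vertices counted from `i` form a simple polygon in the sense of `SP`: `(n : ZMod n) = 0`;
`(a : ZMod n) = b` with `a, b < n` implies `a = b`; for `j + 1 < k < n`, not (`j = 0` and `k + 1 = n`), the indices
`i + j` and `i + k` satisfy the hypotheses of `IsSimple.disj`.
`TT_sq`: the trace is the whole boundary (every index is `i + k` with `k < n`).
`sq_add`: `sq v (i + s) k = sq v i (s + k)`.
-/

namespace VisMap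

open Set

theorem sp_sq {n : ℕ} {v : ZMod n → ℂ} (hv : IsSimple v) (i : ZMod n) : SP n (sq v i) := by
  have hn0 : ((n : ℕ) : ZMod n) = 0 := ZMod.natCast_self n
  have h3 := hv.three
  have hs1 : ∀ k : ℕ, sq v i (k + 1) = v (i + k + 1) := by
    intro k
    unfold sq
    rw [Nat.cast_add, Nat.cast_one, add_assoc]
  have hs2 : ∀ k : ℕ, sq v i (k + 2) = v (i + k + 2) := by
    intro k
    unfold sq
    rw [Nat.cast_add, Nat.cast_ofNat, add_assoc]
  have hs0 : ∀ k : ℕ, sq v i k = v (i + k) := fun k => rfl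
  have hcast : ∀ a b : ℕ, a < n → b < n → ((a : ℕ) : ZMod n) = b → a = b := by
    intro a b ha hb hab
    have h1 := (ZMod.natCast_eq_natCast_iff' a b n).1 hab
    rwa [Nat.mod_eq_of_lt ha, Nat.mod_eq_of_lt hb] at h1
  have hi0 : i + ((0 : ℕ) : ZMod n) = i := by rw [Nat.cast_zero, add_zero]
  have hin : i + ((n : ℕ) : ZMod n) = i := by rw [hn0, add_zero]
  have hm1 : i + ((n - 1 : ℕ) : ZMod n) + 1 = i := by
    have e1 : ((n - 1 : ℕ) : ZMod n) + 1 = 0 := by
      have e0 : ((n - 1 + 1 : ℕ) : ZMod n) = 0 := by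
        rw [Nat.sub_add_cancel (by omega : 1 ≤ n)]
        exact hn0
      rw [← e0, Nat.cast_add, Nat.cast_one]
    rw [add_assoc, e1, add_zero]
  refine ⟨h3, ?_, ?_, ?_, ?_, ?_⟩
  · rw [hs0, hs0, hi0, hin]
  · intro j k hj hk hjk
    rw [hs0, hs0] at hjk
    exact hcast j k hj hk (add_left_cancel (hv.inj hjk))
  · intro k _
    rw [hs2, hs1, hs0]
    exact hv.adj (i + k)
  · have h1 := hv.adj (i + ((n - 1 : ℕ) : ZMod n))
    have e2 : i + ((n - 1 : ℕ) : ZMod n) + 2 = i + 1 := by
      have e3 : (2 : ZMod n) = 1 + 1 := by norm_num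
      rw [e3, ← add_assoc, hm1]
    rw [hm1, e2] at h1
    have e4 : sq v i 1 = v (i + 1) := by
      unfold sq
      rw [Nat.cast_one]
    rw [hs0 (n - 1), hs0 n, hs0 0, hi0, hin, e4]
    exact h1
  · intro j k hjk hk hne
    rw [hs1, hs1, hs0, hs0]
    refine hv.disj (i + j) (i + k) ?_ ?_ ?_
    · intro h
      have := hcast k j hk (by omega) (add_left_cancel h)
      omega
    · intro h
      rw [add_assoc] at h
      have h2 := add_left_cancel h
      have h4 := hcast k (j + 1) hk (by omega) (by rw [h2, Nat.cast_add, Nat.cast_one])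
      omega
    · intro h
      rw [add_assoc] at h
      have h2 := add_left_cancel h
      by_cases hkn : k + 1 = n
      · have h5 : ((k : ℕ) : ZMod n) + 1 = 0 := by
          have e0 : ((k + 1 : ℕ) : ZMod n) = 0 := by
            rw [hkn]
            exact hn0
          rw [← e0, Nat.cast_add, Nat.cast_one]
        rw [h5] at h2
        have h6 := hcast j 0 (by omega) (by omega) (by rw [h2, Nat.cast_zero])
        exact hne ⟨h6, hkn⟩
      · have h4 := hcast j (k + 1) (by omega) (by omega)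
          (by rw [h2, Nat.cast_add, Nat.cast_one])
        omega

theorem TT_sq {n : ℕ} {v : ZMod n → ℂ} (hn : 0 < n) (i : ZMod n) : TT n (sq v i) = bd v := by
  haveI : NeZero n := ⟨by omega⟩
  have hs1 : ∀ k : ℕ, sq v i (k + 1) = v (i + k + 1) := by
    intro k
    unfold sq
    rw [Nat.cast_add, Nat.cast_one, add_assoc]
  ext x
  rw [mem_TT, bd, Set.mem_iUnion]
  constructor
  · rintro ⟨k, _, hx⟩
    refine ⟨i + k, ?_⟩
    rw [hs1] at hx
    exact hx
  · rintro ⟨j, hx⟩
    refine ⟨(j - i).val, ZMod.val_lt _, ?_⟩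
    have e1 : i + (((j - i).val : ℕ) : ZMod n) = j := by
      rw [ZMod.natCast_zmod_val]
      ring
    rw [hs1]
    unfold sq
    rw [e1]
    exact hx

theorem sq_add {n : ℕ} (v : ZMod n → ℂ) (i : ZMod n) (s k : ℕ) :
    sq v (i + s) k = sq v i (s + k) := by
  unfold sq
  rw [Nat.cast_add, add_assoc]

theorem sq_per {n : ℕ} (v : ZMod n → ℂ) (i : ZMod n) (k : ℕ) : sq v i (k + n) = sq v i k := by
  unfold sq
  rw [Nat.cast_add, ZMod.natCast_self, add_zero]

end VisMap
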