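import Pool.Agent.Lib.MP_9f3af0_lc.Ang
import Pool.Agent.Lib.MP_9f3af0_lc.Sq
import Pool.Agent.Lib.MP_9f3af0_lc.CrossC

/-!
# The angular order of the visible vertices is the boundary order

Let `u = sq v i`, `d = v (i+1) - v i`, `j = i + a`, `k = i + b`, `0 < a < b < n` (`a = (j - i).val`, ...), both visible
from `i`, and suppose `ang k < ang j`.  `Θ = ang v i (i-1)`.
For `r > 0` small the arc `{v i + r exp (φ I) d | φ ∈ [0, ψ]}` lies in `reg (bd v)` for every `ψ ≤ Θ` (`CCW`); it is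
preconnected (image of an interval).
Step 1 (`ang_le`): `ang k ≤ Θ` for every visible `k`.  Otherwise `b < n - 1` and, if `b = 1`, `ang k = 0`
(`ang_of_dir`), so `1 < b`.  Apply `crossC` with `β = u b` on the edge `b`, `D = [u 0, u b]`, `σ` the arc with
`ψ = Θ`, `r ≤ 1` so small that the end point lies on `[v i, v (i-1)]` (`dir_of_ang` for `i - 1`:
`v (i-1) - v i = l exp (Θ I) d`, take `r ≤ l`): `x = v i + r d` is on the edge `0`, in `tr (chA u b β)` as
`0 < b`; `y` = end point on the edge `n - 1 > b`, in `tr (chB n u b β)`.  So some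
`v i + r exp (φ I) d = v i + μ (u b - v i)`, `0 ≤ φ ≤ Θ`, `0 ≤ μ ≤ 1`, `μ ≠ 0`; so `ang k = φ ≤ Θ`
(`ang_of_dir`): contradiction.
Step 2: apply `crossC` with `β = u a` on the edge `a`, `D = [u 0, u a]`, and `σ` = the arc with `ψ = ang k` (`≤ Θ`)
together with the segment from its end point `v i + r exp (ang k I) d`, which lies on `[v i, u b]` for small
`r`, to `u b`; `σ ⊆ reg` as `[v i, u b] ⊆ reg`.  `x = v i + r d` on the edge `0` (`0 < a`), `y = u b` on the edge
`b > a`, `b < n`.  So `D` meets the arc, which gives `ang j = φ ≤ ang k`, or it meets the segment, which gives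
that `u a` and `u b` have the same direction, `ang j = ang k`: contradiction in both cases.
`before_iff`: if `(j - i).val < (k - i).val` then `ang j ≤ ang k`, so `Before v i j k`; if
`(k - i).val < (j - i).val` then `ang k ≤ ang j` and `Before v i j k` fails; if they are equal then `j = k` and both
sides are false.
-/

namespace VisMap

open Set Complex

private theorem ord_next_ne {n : ℕ} {v : ZMod n → ℂ} (hv : IsSimple v) (i : ZMod n) :
    v (i + 1) ≠ v i := by
  intro h
  have h1 := hv.inj h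
  have h2 : (1 : ZMod n) = 0 := by
    have h3 : i + 1 = i + 0 := by rw [add_zero]; exact h1
    exact add_left_cancel h3
  have h3 := hv.three
  have h4 : ((1 : ℕ) : ZMod n) = ((0 : ℕ) : ZMod n) := by
    rw [Nat.cast_one, Nat.cast_zero]; exact h2
  have h5 := (ZMod.natCast_eq_natCast_iff' 1 0 n).1 h4
  rw [Nat.mod_eq_of_lt (by omega), Nat.mod_eq_of_lt (by omega)] at h5
  omega

private theorem ord_arc {n : ℕ} {v : ZMod n → ℂ} (hv : IsPolygon v) (i : ZMod n) {l : ℝ}
    (hl : 0 < l) : ∃ r : ℝ, 0 < r ∧ r ≤ 1 ∧ r ≤ l ∧ ∀ φ ∈ Icc (0 : ℝ) (ang v i (i - 1)),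
      v i + r * exp (φ * I) * (v (i + 1) - v i) ∈ reg (bd v) := by
  have h1 := hv.ccw i
  have h2 : ∀ᶠ r : ℝ in nhdsWithin 0 (Ioi 0), r ∈ Ioo (0 : ℝ) (min 1 l) :=
    Ioo_mem_nhdsGT (lt_min one_pos hl)
  obtain ⟨r, hr1, hr2⟩ := (h1.and h2).exists
  exact ⟨r, hr2.1, hr2.2.le.trans (min_le_left _ _), hr2.2.le.trans (min_le_right _ _), hr1⟩

private theorem ord_ray {n : ℕ} {v : ZMod n → ℂ} {i j : ZMod n} (hd : v (i + 1) ≠ v i)
    {r φ : ℝ} (hr : 0 < r) (h0 : 0 ≤ φ) (h1 : φ < 2 * Real.pi) {z : ℂ}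
    (hz : z = v i + r * exp (φ * I) * (v (i + 1) - v i)) (hs : z ∈ segment ℝ (v i) (v j)) :
    ang v i j = φ := by
  rw [segment_eq_image'] at hs
  obtain ⟨μ, hμ, hzμ⟩ := hs
  have hd' : v (i + 1) - v i ≠ 0 := sub_ne_zero.2 hd
  have h2 : (μ : ℂ) * (v j - v i) = r * exp (φ * I) * (v (i + 1) - v i) := by
    have h3 : v i + μ • (v j - v i) = v i + r * exp (φ * I) * (v (i + 1) - v i) := by
      rw [← hz]; exact hzμ
    rw [real_smul] at h3
    exact add_left_cancel h3
  have hr' : (r : ℂ) ≠ 0 := ofReal_ne_zero.2 hr.ne'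
  have hμ0 : μ ≠ 0 := by
    intro h
    rw [h, ofReal_zero, zero_mul] at h2
    exact mul_ne_zero (mul_ne_zero hr' (exp_ne_zero _)) hd' h2.symm
  have hμ1 : 0 < μ := lt_of_le_of_ne hμ.1 (Ne.symm hμ0)
  have hμ' : (μ : ℂ) ≠ 0 := ofReal_ne_zero.2 hμ0
  refine ang_of_dir h0 h1 (div_pos hr hμ1) hd ?_
  push_cast
  field_simp
  linear_combination h2

private theorem ord_conn (c e : ℂ) (r ψ : ℝ) :
    IsPreconnected ((fun φ : ℝ => c + r * exp (φ * I) * e) '' Icc (0 : ℝ) ψ) := by
  refine isPreconnected_Icc.image _ ?_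
  refine Continuous.continuousOn ?_
  fun_prop

private theorem ord_chA {u : ℕ → ℂ} {j : ℕ} {β x : ℂ} (hj : 0 < j)
    (hx : x ∈ segment ℝ (u 0) (u 1)) : x ∈ tr (chA u j β) := by
  rw [chA, tr_append]
  left
  rw [mem_tr_pc]
  exact ⟨0, le_rfl, hj, hx⟩

private theorem ord_chB {N : ℕ} {u : ℕ → ℂ} {j k : ℕ} {β y : ℂ} (hjk : j < k) (hk : k < N)
    (hy : y ∈ segment ℝ (u k) (u (k + 1))) : y ∈ tr (chB N u j β) := by
  rw [chB, tr_cons]
  right
  rw [mem_tr_pc]
  exact ⟨k, hjk, hk, hy⟩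

private theorem ord_sq {n : ℕ} (hn : 0 < n) (v : ZMod n → ℂ) (i k : ZMod n) :
    sq v i (k - i).val = v k := by
  have : NeZero n := ⟨by omega⟩
  unfold sq
  rw [ZMod.natCast_zmod_val]
  congr 1
  ring

private theorem ord_sq0 {n : ℕ} (v : ZMod n → ℂ) (i : ZMod n) : sq v i 0 = v i := by
  unfold sq
  rw [Nat.cast_zero, add_zero]

private theorem ord_sq1 {n : ℕ} (v : ZMod n → ℂ) (i : ZMod n) : sq v i 1 = v (i + 1) := by
  unfold sq
  rw [Nat.cast_one]

private theorem ord_sqn {n : ℕ} (v : ZMod n → ℂ) (i : ZMod n) : sq v i n = v i := by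
  unfold sq
  rw [ZMod.natCast_self, add_zero]

private theorem ord_sqn1 {n : ℕ} (hn : 0 < n) (v : ZMod n → ℂ) (i : ZMod n) :
    sq v i (n - 1) = v (i - 1) := by
  have e1 : ((n - 1 : ℕ) : ZMod n) + 1 = 0 := by
    have e0 : ((n - 1 + 1 : ℕ) : ZMod n) = 0 := by
      rw [Nat.sub_add_cancel (by omega : 1 ≤ n)]
      exact ZMod.natCast_self n
    rw [← e0, Nat.cast_add, Nat.cast_one]
  unfold sq
  congr 1
  linear_combination e1

/-- the point `v i + r d` lies on the first edge -/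
private theorem ord_x {n : ℕ} (v : ZMod n → ℂ) (i : ZMod n) {r : ℝ} (h0 : 0 < r) (h1 : r ≤ 1) :
    v i + r * exp ((0 : ℝ) * I) * (v (i + 1) - v i) ∈ segment ℝ (sq v i 0) (sq v i 1) := by
  rw [ord_sq0, ord_sq1, segment_eq_image']
  refine ⟨r, ⟨h0.le, h1⟩, ?_⟩
  show v i + r • (v (i + 1) - v i) = _
  rw [real_smul, ofReal_zero, zero_mul, exp_zero, mul_one]

theorem ang_le {n : ℕ} {v : ZMod n → ℂ} (hv : IsPolygon v) {i k : ZMod n} (hk : Sees v i k) :
    ang v i k ≤ ang v i (i - 1) := by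
  have hn := hv.simple.three
  have : NeZero n := ⟨by omega⟩
  have hd := ord_next_ne hv.simple i
  have hb : (k - i).val < n := ZMod.val_lt _
  have hub := ord_sq (by omega) v i k
  have hne : v (i - 1) ≠ v i := by
    have h1 := ord_next_ne hv.simple (i - 1)
    rw [sub_add_cancel] at h1
    exact h1.symm
  obtain ⟨l, hl, hdir⟩ := dir_of_ang (j := i - 1) hd hne
  obtain ⟨r, hr0, hr1, hrl, harc⟩ := ord_arc hv i hl
  have hb0 : 0 < (k - i).val := by
    rcases Nat.eq_zero_or_pos (k - i).val with h | h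
    · exfalso
      rw [ZMod.val_eq_zero] at h
      exact hk.1 (sub_eq_zero.1 h).symm
    · exact h
  by_cases hbn : (k - i).val = n - 1
  · have h1 : v k = v (i - 1) := by
      rw [← hub, hbn]; exact ord_sqn1 (by omega) v i
    rw [hv.simple.inj h1]
  · set b := (k - i).val with hbdef
    have hT := TT_sq (v := v) (by omega : 0 < n) i
    have hcr := crossC (sp_sq hv.simple i) hb (β := sq v i b) (left_mem_segment ℝ _ _)
      (by rw [hT, ord_sq0, hub]; exact hk.2)
      (ord_conn (v i) (v (i + 1) - v i) r (ang v i (i - 1)))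
      (by
        rw [hT]
        rintro z ⟨φ, hφ, rfl⟩
        exact harc φ hφ)
      (x := v i + r * exp ((0 : ℝ) * I) * (v (i + 1) - v i))
      (y := v i + r * exp ((ang v i (i - 1) : ℝ) * I) * (v (i + 1) - v i))
      ⟨0, ⟨le_rfl, ang_nonneg _ _ _⟩, rfl⟩
      (ord_chA hb0 (ord_x v i hr0 hr1))
      ⟨ang v i (i - 1), ⟨ang_nonneg _ _ _, le_rfl⟩, rfl⟩
      (by
        refine ord_chB (k := n - 1) (by omega) (by omega) ?_
        rw [Nat.sub_add_cancel (by omega : 1 ≤ n), ord_sqn, ord_sqn1 (by omega), segment_symm,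
          segment_eq_image']
        refine ⟨r / l, ⟨by positivity, (div_le_one hl).2 hrl⟩, ?_⟩
        show v i + (r / l) • (v (i - 1) - v i) = _
        rw [hdir, real_smul]
        have hl' : (l : ℂ) ≠ 0 := ofReal_ne_zero.2 hl.ne'
        push_cast
        field_simp)
    obtain ⟨z, ⟨φ, hφ, hz⟩, hz2⟩ := hcr
    rw [ord_sq0, hub] at hz2
    have := ord_ray (j := k) hd hr0 hφ.1 (hφ.2.trans_lt (ang_lt _ _ _)) hz.symm hz2
    rw [this]
    exact hφ.2

theorem ang_mono {n : ℕ} {v : ZMod n → ℂ} (hv : IsPolygon v) {i j k : ZMod n} (hj : Sees v i j)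
    (hk : Sees v i k) (h : (j - i).val < (k - i).val) : ang v i j ≤ ang v i k := by
  have hn := hv.simple.three
  have : NeZero n := ⟨by omega⟩
  have hd := ord_next_ne hv.simple i
  have hb : (k - i).val < n := ZMod.val_lt _
  have ha : (j - i).val < n := ZMod.val_lt _
  have hub := ord_sq (by omega) v i k
  have hua := ord_sq (by omega) v i j
  have hle := ang_le hv hk
  have hne : v k ≠ v i := fun h => hk.1 (hv.simple.inj h).symm
  obtain ⟨l, hl, hdir⟩ := dir_of_ang (j := k) hd hne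
  obtain ⟨r, hr0, hr1, hrl, harc⟩ := ord_arc hv i hl
  have ha0 : 0 < (j - i).val := by
    rcases Nat.eq_zero_or_pos (j - i).val with h | h
    · exfalso
      rw [ZMod.val_eq_zero] at h
      exact hj.1 (sub_eq_zero.1 h).symm
    · exact h
  have hT := TT_sq (v := v) (by omega : 0 < n) i
  have hl' : (l : ℂ) ≠ 0 := ofReal_ne_zero.2 hl.ne'
  have hP : v i + (r / l) • (v k - v i) =
      v i + r * exp ((ang v i k : ℝ) * I) * (v (i + 1) - v i) := by
    rw [hdir, real_smul]
    push_cast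
    field_simp
  have hrl1 : r / l ≤ 1 := (div_le_one hl).2 hrl
  have hrl0 : 0 < r / l := div_pos hr0 hl
  have hconn : IsPreconnected (((fun φ : ℝ => v i + r * exp (φ * I) * (v (i + 1) - v i)) ''
      Icc (0 : ℝ) (ang v i k)) ∪ ((fun t : ℝ => v i + t • (v k - v i)) '' Icc (r / l) 1)) := by
    refine IsPreconnected.union (v i + r * exp ((ang v i k : ℝ) * I) * (v (i + 1) - v i))
      ⟨ang v i k, ⟨ang_nonneg _ _ _, le_rfl⟩, rfl⟩ ⟨r / l, ⟨le_rfl, hrl1⟩, hP⟩
      (ord_conn _ _ _ _) ?_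
    refine isPreconnected_Icc.image _ (Continuous.continuousOn ?_)
    fun_prop
  have hcr := crossC (sp_sq hv.simple i) ha (β := sq v i (j - i).val) (left_mem_segment ℝ _ _)
    (by rw [hT, ord_sq0, hua]; exact hj.2)
    hconn
    (by
      rw [hT]
      rintro z (⟨φ, hφ, rfl⟩ | ⟨t, ht, rfl⟩)
      · exact harc φ ⟨hφ.1, hφ.2.trans hle⟩
      · refine hk.2 ?_
        rw [segment_eq_image']
        exact ⟨t, ⟨hrl0.le.trans ht.1, ht.2⟩, rfl⟩)
    (x := v i + r * exp ((0 : ℝ) * I) * (v (i + 1) - v i))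
    (y := v k)
    (Or.inl ⟨0, ⟨le_rfl, ang_nonneg _ _ _⟩, rfl⟩)
    (ord_chA ha0 (ord_x v i hr0 hr1))
    (Or.inr ⟨1, ⟨hrl1, le_rfl⟩, by
      show v i + (1 : ℝ) • (v k - v i) = v k
      rw [one_smul]; ring⟩)
    (by
      refine ord_chB h hb ?_
      rw [hub]
      exact left_mem_segment ℝ _ _)
  obtain ⟨z, hz1, hz2⟩ := hcr
  rw [ord_sq0, hua] at hz2
  rcases hz1 with ⟨φ, hφ, hz⟩ | ⟨t, ht, hz⟩
  · have := ord_ray (j := j) hd hr0 hφ.1 (hφ.2.trans_lt (ang_lt _ _ _)) hz.symm hz2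
    rw [this]
    exact hφ.2
  · have ht0 : 0 < t := hrl0.trans_le ht.1
    have hz' : z = v i + ((t * l : ℝ) : ℂ) * exp ((ang v i k : ℝ) * I) * (v (i + 1) - v i) := by
      rw [← hz]
      show v i + t • (v k - v i) = _
      rw [hdir, real_smul]
      push_cast
      ring
    have := ord_ray (j := j) hd (mul_pos ht0 hl) (ang_nonneg _ _ _) (ang_lt _ _ _) hz' hz2
    exact this.le

theorem before_iff {n : ℕ} {v : ZMod n → ℂ} (hv : IsPolygon v) {i j k : ZMod n} (hj : Sees v i j)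
    (hk : Sees v i k) : Before v i j k ↔ (j - i).val < (k - i).val := by
  unfold Before
  constructor
  · rintro (h | h)
    · by_contra hc
      rcases Nat.lt_or_ge (k - i).val (j - i).val with h1 | h1
      · exact absurd (ang_mono hv hk hj h1) (not_le.2 h)
      · have hn := hv.simple.three
        have : NeZero n := ⟨by omega⟩
        have h2 : (j - i).val = (k - i).val := by omega
        have h3 := ZMod.val_injective n h2
        have h4 : j = k := by
          have := congrArg (· + i) h3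
          simpa using this
        rw [h4] at h
        exact lt_irrefl _ h
    · exact h.2
  · intro h
    rcases (ang_mono hv hj hk h).lt_or_eq with h1 | h1
    · exact Or.inl h1
    · exact Or.inr ⟨h1, h⟩

end VisMap
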