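import Pool.Agent.Lib.MP_9f3af0_lc.Nc
import Pool.Agent.Lib.MP_9f3af0_lc.Gap
import Pool.Agent.Lib.MP_9f3af0_lc.Ord

/-!
# The visibility relation of a polygon satisfies `VisRel`

`u = sq v i`, `TT n u = bd v` (`TT_sq`), `SP n u` (`sp_sq`).  `succ`: the edge `[v i, v (i+1)]` is in
`bd v ⊆ reg (bd v)` (`Jordan.sub`).  `cn`: `gap`; `[u s, u t]` lies in the triangle `u 0, a', b'` (convex; `u s ∈ [u 0, a']`,
`u t ∈ [u 0, b']`), which is in the region; `i + s ≠ i + t` as `0 < s < t < n`.
`nc`: `c` from `gap`, then `nc_left` and `nc_right` (`[u 0, a']`, `[u 0, b']` are in the triangle); a pair that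
sees each other gives `segment ⊆ reg`.
-/

namespace VisMap

theorem geo {n : ℕ} {v : ZMod n → ℂ} (hv : IsPolygon v) : VisRel (Sees v) := by
  have hn3 : 3 ≤ n := hv.simple.three
  have hn : 0 < n := by omega
  have hcast : ∀ a b : ℕ, a < n → b < n → ((a : ℕ) : ZMod n) = b → a = b := by
    intro a b ha hb hab
    have h1 := (ZMod.natCast_eq_natCast_iff' a b n).1 hab
    rwa [Nat.mod_eq_of_lt ha, Nat.mod_eq_of_lt hb] at h1
  have hsq : ∀ (i : ZMod n) (k : ℕ), sq v i k = v (i + k) := fun _ _ => rfl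
  have hsq0 : ∀ i : ZMod n, sq v i 0 = v i := by
    intro i
    rw [hsq, Nat.cast_zero, add_zero]
  have hgap : ∀ (i : ZMod n) (s t : ℕ), 0 < s → s < t → t < n → Sees v i (i + s) →
      Sees v i (i + t) → (∀ m : ℕ, s < m → m < t → ¬ Sees v i (i + m)) →
      (∀ m : ℕ, s < m → m < t → ¬ segment ℝ (sq v i 0) (sq v i m) ⊆ reg (bd v)) ∧
      ∃ c, s ≤ c ∧ c < t ∧ ∃ a' ∈ segment ℝ (sq v i c) (sq v i (c + 1)),
        ∃ b' ∈ segment ℝ (sq v i c) (sq v i (c + 1)),
        sq v i s ∈ segment ℝ (sq v i 0) a' ∧ sq v i t ∈ segment ℝ (sq v i 0) b' ∧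
        convexHull ℝ {sq v i 0, a', b'} ⊆ reg (bd v) := by
    intro i s t hs hst ht h1 h2 h3
    have hT : TT n (sq v i) = bd v := TT_sq hn i
    have hg : ∀ m : ℕ, s < m → m < t →
        ¬ segment ℝ (sq v i 0) (sq v i m) ⊆ reg (bd v) := by
      intro m hm hmt hseg
      refine h3 m hm hmt ⟨?_, ?_⟩
      · intro he
        have h4 : ((m : ℕ) : ZMod n) = ((0 : ℕ) : ZMod n) := by
          rw [Nat.cast_zero]
          exact left_eq_add.1 he
        have := hcast m 0 (by omega) hn h4
        omega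
      · rw [hsq0, hsq] at hseg
        exact hseg
    refine ⟨hg, ?_⟩
    have := gap (sp_sq hv.simple i) hs hst ht (by rw [hT, hsq0, hsq]; exact h1.2)
      (by rw [hT, hsq0, hsq]; exact h2.2) (by rw [hT]; exact hg)
    rw [hT] at this
    exact this
  refine ⟨fun i j h => h.symm, fun i h => h.1 rfl, ?_, ?_, ?_⟩
  · intro i
    refine ⟨?_, ?_⟩
    · intro he
      have h4 : ((1 : ℕ) : ZMod n) = ((0 : ℕ) : ZMod n) := by
        rw [Nat.cast_zero, Nat.cast_one]
        exact left_eq_add.1 he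
      have := hcast 1 0 (by omega) hn h4
      omega
    · have hT : TT n (sq v i) = bd v := TT_sq hn i
      have hJ := (jordan (sp_sq hv.simple i)).sub
      rw [hT] at hJ
      exact (Set.subset_iUnion (fun i => segment ℝ (v i) (v (i + 1))) i).trans hJ
  · intro i s t hs hst ht h1 h2 h3
    obtain ⟨-, c, hsc, hct, a', ha, b', hb, hsa, htb, hH⟩ := hgap i s t hs hst ht h1 h2 h3
    refine ⟨?_, ?_⟩
    · intro he
      have := hcast s t (by omega) ht (add_left_cancel he)
      omega
    · refine Set.Subset.trans ?_ hH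
      have hconv := convex_convexHull ℝ {sq v i 0, a', b'}
      have m0 : sq v i 0 ∈ convexHull ℝ {sq v i 0, a', b'} :=
        subset_convexHull ℝ _ (by simp)
      have ma : a' ∈ convexHull ℝ {sq v i 0, a', b'} := subset_convexHull ℝ _ (by simp)
      have mb : b' ∈ convexHull ℝ {sq v i 0, a', b'} := subset_convexHull ℝ _ (by simp)
      rw [← hsq, ← hsq]
      exact hconv.segment_subset (hconv.segment_subset m0 ma hsa)
        (hconv.segment_subset m0 mb htb)
  · intro i s t hs hst ht h1 h2 h3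
    obtain ⟨hg, c, hsc, hct, a', ha, b', hb, hsa, htb, hH⟩ := hgap i s t hs hst ht h1 h2 h3
    have hconv := convex_convexHull ℝ {sq v i 0, a', b'}
    have m0 : sq v i 0 ∈ convexHull ℝ {sq v i 0, a', b'} :=
      subset_convexHull ℝ _ (by simp)
    have ma : a' ∈ convexHull ℝ {sq v i 0, a', b'} := subset_convexHull ℝ _ (by simp)
    have mb : b' ∈ convexHull ℝ {sq v i 0, a', b'} := subset_convexHull ℝ _ (by simp)
    refine ⟨c, hsc, hct, ?_, ?_⟩
    · intro x y hx hy hyc hsee
      exact nc_left hv.simple hs hsc hct ht ha hsa ((hconv.segment_subset m0 ma).trans hH) hg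
        hx hy hyc hsee.2
    · intro x y hx hxn hy hyt hsee
      exact nc_right hv.simple hs hsc hct ht hb htb ((hconv.segment_subset m0 mb).trans hH) hg
        hx hxn hy hyt hsee.2

end VisMap
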