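import Pool.Agent.Lib.MP_9f3af0_lc.Gap
import Pool.Agent.Lib.MP_9f3af0_lc.Flat

/-!
# The seen edge of a gap is unique and good

`0 < s < t < N`, `u 0` sees `u s`, `u t` and no vertex strictly between.  Let `z` be in the open edge `d`,
`s ≤ d < t`, with `[u 0, z] ⊆ reg T`.  Let `c, a', b'` be as in `gap`.
(0) If `s + 1 < t` then `u 0` is not on the line of the edge `d`: otherwise `u d` and `u (d+1)` are visible
(`along_edge`), so `d = s` and `d + 1 = t`.  (If `t = s + 1` everything is trivial: `c = d = s`.)  In the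
following `s + 1 < t`.
(i) `d < c`.  Cut at `z` on the edge `d`: `u s ∈ tr (chA u d z)`, `a' ∈ tr (chB N u d z)` (edge `c > d`),
`σ = [u s, a'] ⊆ [u 0, a'] ⊆ reg T`.  By `crossC` there is `m ∈ [u s, a'] ∩ [u 0, z]`, `m ≠ u 0`; so `z` and `a'`
are on one ray from `u 0`, `z = u 0 + l (a' - u 0)`, `l > 0`, `l ≠ 1` (`z` is in the open edge `d`, `a'` on the
edge `c ≠ d`, `open_edge`).  `l < 1` contradicts `no_cross` (`x = z`, segment `[u 0, a']`, edge `d`, (0)).  So
`l > 1`, `a'` is in the open segment `(u 0, z)`.  `a'` in the open edge `c` contradicts `no_cross`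
(segment `[u 0, z]`, edge `c`, (0) for `a'`).  So `a' = u c` or `a' = u (c+1)`, a visible vertex; `u c` visible
means `c = s`, impossible as `d < c`; so `a' = u (c+1)`, `c + 1 = t`: `u s ∈ [u 0, u t]`, `u t ∈ [u 0, z]`.
(ii) `c < d`: the mirror image with `b'` and `u t`: `u t ∈ [u 0, u s]`, `u s ∈ [u 0, z]`, `c = s`.
In both cases `a'' = b'' = z` shows that `d` is good (the triangle is `[u 0, z]`).  If `c = d` then `d` is good.
Uniqueness: let also `z'` be in the open edge `d'`, `d < d' < t`, `[u 0, z'] ⊆ reg T`.  If `d < c`: by (i)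
`u t ∈ [u 0, z]`; cut at `z'`: `z ∈ chA`, `u t ∈ chB`, `σ = [u t, z]`: it meets `[u 0, z']`, so `z, z'` are on one ray.
If `c ≤ d`: then `c < d'`, by (ii) for `z'` `u s ∈ [u 0, z']`; cut at `z`: `u s ∈ chA`, `z' ∈ chB`,
`σ = [u s, z']`: again on one ray.  `z ≠ z'` (`open_edge`), and the nearer of the two contradicts
`no_cross` for the segment to the farther one.
-/

namespace VisMap

open Set

/-- Two points `A`, `z` seen from `P` in the same direction. -/
private theorem ray {P A w z : ℂ} (hw : w ∈ segment ℝ P A) (hw0 : w ≠ P)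
    (hm : (segment ℝ w A ∩ segment ℝ P z).Nonempty) :
    ∃ l : ℝ, 0 < l ∧ z - P = l • (A - P) := by
  rw [segment_eq_image'] at hw
  obtain ⟨κ, ⟨hκ0, hκ1⟩, rfl⟩ := hw
  obtain ⟨m, hm1, hm2⟩ := hm
  rw [segment_eq_image'] at hm1 hm2
  obtain ⟨θ, ⟨hθ0, hθ1⟩, hθ⟩ := hm1
  obtain ⟨ν, ⟨hν0, hν1⟩, hν⟩ := hm2
  simp only at hθ hν hw0
  have hκ : 0 < κ := by
    refine lt_of_le_of_ne hκ0 fun h => hw0 ?_
    rw [← h, zero_smul, add_zero]
  have hAP : A - P ≠ 0 := by
    intro h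
    apply hw0
    rw [h, smul_zero, add_zero]
  have hμ : 0 < κ + θ * (1 - κ) := by
    have : 0 ≤ θ * (1 - κ) := mul_nonneg hθ0 (by linarith)
    linarith
  have h1 : ν • (z - P) = (κ + θ * (1 - κ)) • (A - P) := by
    have h2 : P + κ • (A - P) + θ • (A - (P + κ • (A - P))) = P + ν • (z - P) := hθ.trans hν.symm
    have h3 : P + κ • (A - P) + θ • (A - (P + κ • (A - P))) =
        P + (κ + θ * (1 - κ)) • (A - P) := by
      module
    rw [h3] at h2
    exact (add_left_cancel h2).symm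
  have hν' : 0 < ν := by
    refine lt_of_le_of_ne hν0 fun h => ?_
    rw [← h, zero_smul] at h1
    rcases smul_eq_zero.1 h1.symm with h2 | h2
    · exact hμ.ne' h2
    · exact hAP h2
  refine ⟨(κ + θ * (1 - κ)) / ν, div_pos hμ hν', ?_⟩
  rw [div_eq_inv_mul, mul_smul, ← h1, smul_smul, inv_mul_cancel₀ hν'.ne', one_smul]

private theorem open_lt {P A z : ℂ} {l : ℝ} (h0 : 0 < l) (h1 : l < 1) (h : z - P = l • (A - P)) :
    z ∈ openSegment ℝ P A := by
  rw [openSegment_eq_image']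
  refine ⟨l, ⟨h0, h1⟩, ?_⟩
  simp only
  rw [← h, add_sub_cancel]

private theorem open_gt {P A z : ℂ} {l : ℝ} (h1 : 1 < l) (h : z - P = l • (A - P)) :
    A ∈ openSegment ℝ P z := by
  have h0 : 0 < l := by linarith
  refine open_lt (l := l⁻¹) (inv_pos.2 h0) (inv_lt_one_of_one_lt₀ h1) ?_
  rw [h, smul_smul, inv_mul_cancel₀ h0.ne', one_smul]

private theorem det_real (v w : ℂ) (l : ℝ) : det v (l • w) = l * det v w := by
  unfold det
  rw [Complex.real_smul, Complex.re_ofReal_mul, Complex.im_ofReal_mul]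
  ring

private theorem det_line {a b z P : ℂ} (hz : z ∈ openSegment ℝ a b) :
    det (b - a) (z - P) = - det (b - a) (P - a) := by
  rw [openSegment_eq_image'] at hz
  obtain ⟨θ, -, rfl⟩ := hz
  unfold det
  simp only [Complex.add_re, Complex.add_im, Complex.sub_re, Complex.sub_im, Complex.real_smul,
    Complex.re_ofReal_mul, Complex.im_ofReal_mul]
  ring

private theorem nocr {N : ℕ} {u : ℕ → ℂ} (h : SP N u) {k : ℕ} (hk : k < N) {A z : ℂ}
    (hv : segment ℝ (u 0) A ⊆ reg (TT N u)) (hz : z ∈ openSegment ℝ (u 0) A)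
    (hz' : z ∈ openSegment ℝ (u k) (u (k + 1)))
    (hd : det (u (k + 1) - u k) (u 0 - u k) ≠ 0) : False := by
  refine no_cross h hk hv hz hz' fun h0 => hd ?_
  have h1 := det_line (P := u 0) hz'
  rw [openSegment_eq_image'] at hz
  obtain ⟨l, -, hl⟩ := hz
  have h2 : z - u 0 = l • (A - u 0) := by
    rw [← hl, add_sub_cancel_left]
  rw [h2, det_real, h0, mul_zero] at h1
  linarith

private theorem noline {N : ℕ} {u : ℕ → ℂ} (h : SP N u) {s t : ℕ} (hst : s + 1 < t) (ht : t < N)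
    (hg : ∀ m, s < m → m < t → ¬ segment ℝ (u 0) (u m) ⊆ reg (TT N u))
    {d : ℕ} (hsd : s ≤ d) (hdt : d < t) {z : ℂ} (hz : z ∈ openSegment ℝ (u d) (u (d + 1)))
    (hvz : segment ℝ (u 0) z ⊆ reg (TT N u)) : det (u (d + 1) - u d) (u 0 - u d) ≠ 0 := by
  intro h0
  obtain ⟨h1, h2⟩ := along_edge h (by omega : d < N) hz hvz h0
  rcases hsd.eq_or_lt with h3 | h3
  · exact hg (d + 1) (by omega) (by omega) h2
  · exact hg d h3 hdt h1

private theorem core {N : ℕ} {u : ℕ → ℂ} (h : SP N u) {s t : ℕ} (hst : s + 1 < t) (ht : t < N)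
    (hg : ∀ m, s < m → m < t → ¬ segment ℝ (u 0) (u m) ⊆ reg (TT N u))
    {c d : ℕ} (hsc : s ≤ c) (hct : c < t) (hsd : s ≤ d) (hdt : d < t) (hcd : c ≠ d)
    {w A z : ℂ} (hw : w ∈ segment ℝ (u 0) A) (hw0 : w ≠ u 0)
    (hA : A ∈ segment ℝ (u c) (u (c + 1))) (hvA : segment ℝ (u 0) A ⊆ reg (TT N u))
    (hz : z ∈ openSegment ℝ (u d) (u (d + 1))) (hvz : segment ℝ (u 0) z ⊆ reg (TT N u))
    (hm : (segment ℝ w A ∩ segment ℝ (u 0) z).Nonempty) :
    A ∈ openSegment ℝ (u 0) z ∧ (A = u c ∨ A = u (c + 1)) := by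
  obtain ⟨l, hl, hlz⟩ := ray hw hw0 hm
  rcases lt_trichotomy l 1 with h1 | h1 | h1
  · exact (nocr h (by omega : d < N) hvA (open_lt hl h1 hlz) hz
      (noline h hst ht hg hsd hdt hz hvz)).elim
  · rw [h1, one_smul, sub_left_inj] at hlz
    rw [← hlz] at hA
    exact absurd hA (open_edge h (by omega) (by omega) hcd hz)
  · have h2 := open_gt h1 hlz
    refine ⟨h2, ?_⟩
    by_contra hc
    rw [not_or] at hc
    have h3 : A ∈ openSegment ℝ (u c) (u (c + 1)) :=
      mem_openSegment_of_ne_left_right (Ne.symm hc.1) (Ne.symm hc.2) hA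
    exact nocr h (by omega : c < N) hvz h2 h3 (noline h hst ht hg hsc hct h3 hvA)

private theorem inj' {N : ℕ} {u : ℕ → ℂ} (h : SP N u) {j k : ℕ} (hj : j < N) (hk : k < N)
    (hne : j ≠ k) : u j ≠ u k := fun he => hne (h.inj j k hj hk he)

private theorem left_case {N : ℕ} {u : ℕ → ℂ} (h : SP N u) {s t : ℕ} (hs : 0 < s)
    (hst : s + 1 < t) (ht : t < N)
    (hg : ∀ m, s < m → m < t → ¬ segment ℝ (u 0) (u m) ⊆ reg (TT N u))
    {c d : ℕ} (hsd : s ≤ d) (hdc : d < c) (hct : c < t)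
    {A z : ℂ} (hw : u s ∈ segment ℝ (u 0) A)
    (hA : A ∈ segment ℝ (u c) (u (c + 1))) (hvA : segment ℝ (u 0) A ⊆ reg (TT N u))
    (hz : z ∈ openSegment ℝ (u d) (u (d + 1))) (hvz : segment ℝ (u 0) z ⊆ reg (TT N u)) :
    u s ∈ segment ℝ (u 0) (u t) ∧ u t ∈ segment ℝ (u 0) z := by
  have hwA : segment ℝ (u s) A ⊆ reg (TT N u) :=
    ((convex_segment _ _).segment_subset hw (right_mem_segment ℝ _ _)).trans hvA
  have hm : (segment ℝ (u s) A ∩ segment ℝ (u 0) z).Nonempty := by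
    refine crossC h (by omega : d < N) (openSegment_subset_segment ℝ _ _ hz) hvz
      (convex_segment _ _).isPreconnected hwA (left_mem_segment ℝ _ _) ?_
      (right_mem_segment ℝ _ _) ?_
    · rcases hsd.eq_or_lt with h1 | h1
      · rw [h1]
        exact tr_chA.2 (Or.inr (left_mem_segment ℝ _ _))
      · exact tr_chA.2 (Or.inl ⟨s, h1, left_mem_segment ℝ _ _⟩)
    · exact tr_chB.2 (Or.inr ⟨c, hdc, by omega, hA⟩)
  obtain ⟨h1, h2⟩ := core h hst ht hg (by omega) hct hsd (by omega) (by omega) hw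
    (inj' h (by omega) (by omega) (by omega)) hA hvA hz hvz hm
  rcases h2 with h2 | h2
  · rw [h2] at hvA
    exact absurd hvA (hg c (by omega) hct)
  · have h3 : c + 1 = t := by
      by_contra h3
      rw [h2] at hvA
      exact hg (c + 1) (by omega) (by omega) hvA
    rw [← h3, ← h2]
    exact ⟨hw, openSegment_subset_segment ℝ _ _ h1⟩

private theorem right_case {N : ℕ} {u : ℕ → ℂ} (h : SP N u) {s t : ℕ}
    (hst : s + 1 < t) (ht : t < N)
    (hg : ∀ m, s < m → m < t → ¬ segment ℝ (u 0) (u m) ⊆ reg (TT N u))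
    {c d : ℕ} (hsc : s ≤ c) (hcd : c < d) (hdt : d < t)
    {A z : ℂ} (hw : u t ∈ segment ℝ (u 0) A)
    (hA : A ∈ segment ℝ (u c) (u (c + 1))) (hvA : segment ℝ (u 0) A ⊆ reg (TT N u))
    (hz : z ∈ openSegment ℝ (u d) (u (d + 1))) (hvz : segment ℝ (u 0) z ⊆ reg (TT N u)) :
    u t ∈ segment ℝ (u 0) (u s) ∧ u s ∈ segment ℝ (u 0) z := by
  have hwA : segment ℝ (u t) A ⊆ reg (TT N u) :=
    ((convex_segment _ _).segment_subset hw (right_mem_segment ℝ _ _)).trans hvA
  have hm : (segment ℝ (u t) A ∩ segment ℝ (u 0) z).Nonempty := by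
    refine crossC h (by omega : d < N) (openSegment_subset_segment ℝ _ _ hz) hvz
      (convex_segment _ _).isPreconnected hwA (right_mem_segment ℝ _ _) ?_
      (left_mem_segment ℝ _ _) ?_
    · exact tr_chA.2 (Or.inl ⟨c, hcd, hA⟩)
    · exact tr_chB.2 (Or.inr ⟨t, hdt, ht, left_mem_segment ℝ _ _⟩)
  obtain ⟨h1, h2⟩ := core h hst ht hg hsc (by omega) (by omega) hdt (by omega) hw
    (inj' h (by omega) (by omega) (by omega)) hA hvA hz hvz hm
  rcases h2 with h2 | h2
  · have h3 : c = s := by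
      by_contra h3
      rw [h2] at hvA
      exact hg c (by omega) (by omega) hvA
    rw [← h3, ← h2]
    exact ⟨hw, openSegment_subset_segment ℝ _ _ h1⟩
  · rw [h2] at hvA
    exact absurd hvA (hg (c + 1) (by omega) (by omega))

private theorem hull_left {P a b : ℂ} {T : Set ℂ} (h : convexHull ℝ {P, a, b} ⊆ T) :
    segment ℝ P a ⊆ T :=
  (segment_subset_convexHull (by simp) (by simp)).trans h

private theorem hull_right {P a b : ℂ} {T : Set ℂ} (h : convexHull ℝ {P, a, b} ⊆ T) :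
    segment ℝ P b ⊆ T :=
  (segment_subset_convexHull (by simp) (by simp)).trans h

theorem thr_good {N : ℕ} {u : ℕ → ℂ} (h : SP N u) {s t : ℕ} (hs : 0 < s) (hst : s < t) (ht : t < N)
    (hvs : segment ℝ (u 0) (u s) ⊆ reg (TT N u)) (hvt : segment ℝ (u 0) (u t) ⊆ reg (TT N u))
    (hg : ∀ m, s < m → m < t → ¬ segment ℝ (u 0) (u m) ⊆ reg (TT N u))
    {d : ℕ} (hsd : s ≤ d) (hdt : d < t) {z : ℂ} (hz : z ∈ openSegment ℝ (u d) (u (d + 1)))
    (hvz : segment ℝ (u 0) z ⊆ reg (TT N u)) :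
    ∃ a' ∈ segment ℝ (u d) (u (d + 1)), ∃ b' ∈ segment ℝ (u d) (u (d + 1)),
      u s ∈ segment ℝ (u 0) a' ∧ u t ∈ segment ℝ (u 0) b' ∧
      convexHull ℝ {u 0, a', b'} ⊆ reg (TT N u) := by
  obtain ⟨c, hsc, hct, a', ha', b', hb', hsa, htb, hcv⟩ := gap h hs hst ht hvs hvt hg
  rcases lt_trichotomy d c with h1 | h1 | h1
  · obtain ⟨h2, h3⟩ := left_case h hs (by omega) ht hg hsd h1 hct hsa ha' (hull_left hcv) hz hvz
    refine ⟨z, openSegment_subset_segment ℝ _ _ hz, z, openSegment_subset_segment ℝ _ _ hz,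
      (convex_segment _ _).segment_subset (left_mem_segment ℝ _ _) h3 h2, h3, ?_⟩
    rw [Set.pair_eq_singleton, convexHull_pair]
    exact hvz
  · rw [h1]
    exact ⟨a', ha', b', hb', hsa, htb, hcv⟩
  · obtain ⟨h2, h3⟩ := right_case h (by omega) ht hg hsc h1 hdt htb hb' (hull_right hcv) hz hvz
    refine ⟨z, openSegment_subset_segment ℝ _ _ hz, z, openSegment_subset_segment ℝ _ _ hz,
      h3, (convex_segment _ _).segment_subset (left_mem_segment ℝ _ _) h3 h2, ?_⟩
    rw [Set.pair_eq_singleton, convexHull_pair]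
    exact hvz

private theorem uniq_aux {N : ℕ} {u : ℕ → ℂ} (h : SP N u) {s t : ℕ} (hs : 0 < s) (hst : s < t)
    (ht : t < N)
    (hvs : segment ℝ (u 0) (u s) ⊆ reg (TT N u)) (hvt : segment ℝ (u 0) (u t) ⊆ reg (TT N u))
    (hg : ∀ m, s < m → m < t → ¬ segment ℝ (u 0) (u m) ⊆ reg (TT N u))
    {d d' : ℕ} (hsd : s ≤ d) (hdd : d < d') (hdt' : d' < t) {z : ℂ}
    (hz : z ∈ openSegment ℝ (u d) (u (d + 1)))
    (hvz : segment ℝ (u 0) z ⊆ reg (TT N u)) {z' : ℂ}
    (hz' : z' ∈ openSegment ℝ (u d') (u (d' + 1))) (hvz' : segment ℝ (u 0) z' ⊆ reg (TT N u)) :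
    False := by
  obtain ⟨c, hsc, hct, a', ha', b', hb', hsa, htb, hcv⟩ := gap h hs hst ht hvs hvt hg
  have hst' : s + 1 < t := by omega
  have hray : ∃ l : ℝ, 0 < l ∧ z - u 0 = l • (z' - u 0) := by
    rcases Nat.lt_or_ge d c with h1 | h1
    · obtain ⟨h2, h3⟩ := left_case h hs hst' ht hg hsd h1 hct hsa ha' (hull_left hcv) hz hvz
      have hwA : segment ℝ (u t) z ⊆ reg (TT N u) :=
        ((convex_segment _ _).segment_subset h3 (right_mem_segment ℝ _ _)).trans hvz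
      have hm : (segment ℝ (u t) z ∩ segment ℝ (u 0) z').Nonempty := by
        refine crossC h (by omega : d' < N) (openSegment_subset_segment ℝ _ _ hz') hvz'
          (convex_segment _ _).isPreconnected hwA (right_mem_segment ℝ _ _) ?_
          (left_mem_segment ℝ _ _) ?_
        · exact tr_chA.2 (Or.inl ⟨d, hdd, openSegment_subset_segment ℝ _ _ hz⟩)
        · exact tr_chB.2 (Or.inr ⟨t, hdt', ht, left_mem_segment ℝ _ _⟩)
      obtain ⟨l, hl, hlz⟩ := ray h3 (inj' h (by omega) (by omega) (by omega)) hm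
      refine ⟨l⁻¹, inv_pos.2 hl, ?_⟩
      rw [hlz, smul_smul, inv_mul_cancel₀ hl.ne', one_smul]
    · obtain ⟨h2, h3⟩ := right_case h hst' ht hg hsc (by omega : c < d') hdt' htb hb'
        (hull_right hcv) hz' hvz'
      have hwA : segment ℝ (u s) z' ⊆ reg (TT N u) :=
        ((convex_segment _ _).segment_subset h3 (right_mem_segment ℝ _ _)).trans hvz'
      have hm : (segment ℝ (u s) z' ∩ segment ℝ (u 0) z).Nonempty := by
        refine crossC h (by omega : d < N) (openSegment_subset_segment ℝ _ _ hz) hvz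
          (convex_segment _ _).isPreconnected hwA (left_mem_segment ℝ _ _) ?_
          (right_mem_segment ℝ _ _) ?_
        · rcases hsd.eq_or_lt with h4 | h4
          · rw [h4]
            exact tr_chA.2 (Or.inr (left_mem_segment ℝ _ _))
          · exact tr_chA.2 (Or.inl ⟨s, h4, left_mem_segment ℝ _ _⟩)
        · exact tr_chB.2 (Or.inr ⟨d', hdd, by omega, openSegment_subset_segment ℝ _ _ hz'⟩)
      exact ray h3 (inj' h (by omega) (by omega) (by omega)) hm
  obtain ⟨l, hl, hlz⟩ := hray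
  rcases lt_trichotomy l 1 with h1 | h1 | h1
  · exact nocr h (by omega : d < N) hvz' (open_lt hl h1 hlz) hz
      (noline h hst' ht hg hsd (by omega) hz hvz)
  · rw [h1, one_smul, sub_left_inj] at hlz
    rw [← hlz] at hz'
    exact open_edge h (by omega : d' < N) (by omega : d < N) (by omega) hz'
      (openSegment_subset_segment ℝ _ _ hz)
  · exact nocr h (by omega : d' < N) hvz (open_gt h1 hlz) hz'
      (noline h hst' ht hg (by omega) hdt' hz' hvz')

theorem thr_uniq {N : ℕ} {u : ℕ → ℂ} (h : SP N u) {s t : ℕ} (hs : 0 < s) (hst : s < t) (ht : t < N)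
    (hvs : segment ℝ (u 0) (u s) ⊆ reg (TT N u)) (hvt : segment ℝ (u 0) (u t) ⊆ reg (TT N u))
    (hg : ∀ m, s < m → m < t → ¬ segment ℝ (u 0) (u m) ⊆ reg (TT N u))
    {d d' : ℕ} (hsd : s ≤ d) (hdt : d < t) {z : ℂ} (hz : z ∈ openSegment ℝ (u d) (u (d + 1)))
    (hvz : segment ℝ (u 0) z ⊆ reg (TT N u)) (hsd' : s ≤ d') (hdt' : d' < t) {z' : ℂ}
    (hz' : z' ∈ openSegment ℝ (u d') (u (d' + 1))) (hvz' : segment ℝ (u 0) z' ⊆ reg (TT N u)) :
    d' = d := by
  rcases lt_trichotomy d d' with h1 | h1 | h1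
  · exact (uniq_aux h hs hst ht hvs hvt hg hsd h1 hdt' hz hvz hz' hvz').elim
  · exact h1.symm
  · exact (uniq_aux h hs hst ht hvs hvt hg hsd' h1 hdt hz' hvz' hz hvz).elim

private theorem mid_open {p q a b : ℂ} (ha : a ∈ segment ℝ p q) (hb : b ∈ segment ℝ p q)
    (hab : a ≠ b) : midpoint ℝ a b ∈ openSegment ℝ p q := by
  rw [segment_eq_image'] at ha hb
  obtain ⟨α, ⟨hα0, hα1⟩, rfl⟩ := ha
  obtain ⟨β, ⟨hβ0, hβ1⟩, rfl⟩ := hb
  simp only at hab ⊢
  have hne : α ≠ β := by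
    rintro rfl
    exact hab rfl
  rw [openSegment_eq_image']
  refine ⟨(α + β) / 2, ⟨?_, ?_⟩, ?_⟩
  · rcases lt_or_gt_of_ne hne with h | h <;> linarith
  · rcases lt_or_gt_of_ne hne with h | h <;> linarith
  · simp only
    rw [midpoint_eq_smul_add]
    have : (⅟2 : ℝ) = 1 / 2 := by norm_num
    rw [this]
    module

private theorem two_ray_aux {P A : ℂ} {κ τ : ℝ} (hκ : 0 ≤ κ) (h : κ ≤ τ) :
    P + κ • (A - P) ∈ segment ℝ P (P + τ • (A - P)) := by
  rcases (hκ.trans h).eq_or_lt with h0 | h0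
  · have h1 : κ = 0 := le_antisymm (h.trans h0.symm.le) hκ
    rw [h1, zero_smul, add_zero]
    exact left_mem_segment ℝ _ _
  · rw [segment_eq_image']
    refine ⟨κ / τ, ⟨div_nonneg hκ h0.le, (div_le_one h0).2 h⟩, ?_⟩
    simp only
    rw [add_sub_cancel_left, smul_smul, div_mul_cancel₀ _ h0.ne']

private theorem two_ray {P A a b : ℂ} (ha : a ∈ segment ℝ P A) (hb : b ∈ segment ℝ P A) :
    a ∈ segment ℝ P b ∨ b ∈ segment ℝ P a := by
  rw [segment_eq_image'] at ha hb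
  obtain ⟨κ, ⟨hκ0, hκ1⟩, rfl⟩ := ha
  obtain ⟨τ, ⟨hτ0, hτ1⟩, rfl⟩ := hb
  simp only
  rcases le_total κ τ with h | h
  · exact Or.inl (two_ray_aux hκ0 h)
  · exact Or.inr (two_ray_aux hτ0 h)

/-- In a gap without a seen edge the two vertices are on one ray. -/
theorem thr_none {N : ℕ} {u : ℕ → ℂ} (h : SP N u) {s t : ℕ} (hs : 0 < s) (hst : s < t) (ht : t < N)
    (hvs : segment ℝ (u 0) (u s) ⊆ reg (TT N u)) (hvt : segment ℝ (u 0) (u t) ⊆ reg (TT N u))
    (hg : ∀ m, s < m → m < t → ¬ segment ℝ (u 0) (u m) ⊆ reg (TT N u))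
    (hn : ∀ d, s ≤ d → d < t → ∀ z ∈ openSegment ℝ (u d) (u (d + 1)),
      ¬ segment ℝ (u 0) z ⊆ reg (TT N u)) :
    u s ∈ segment ℝ (u 0) (u t) ∨ u t ∈ segment ℝ (u 0) (u s) := by
  obtain ⟨c, hsc, hct, a', ha', b', hb', hsa, htb, hcv⟩ := gap h hs hst ht hvs hvt hg
  have hab : a' = b' := by
    by_contra hab
    have h1 : midpoint ℝ a' b' ∈ openSegment ℝ (u c) (u (c + 1)) := by
      exact mid_open ha' hb' hab
    refine hn c hsc hct _ h1 (Subset.trans ?_ hcv)
    refine (convex_convexHull ℝ _).segment_subset (subset_convexHull ℝ _ (by simp)) ?_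
    exact (convex_convexHull ℝ _).segment_subset (subset_convexHull ℝ _ (by simp))
      (subset_convexHull ℝ _ (by simp)) (midpoint_mem_segment a' b')
  subst hab
  exact two_ray hsa htb

end VisMap
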