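import Pool.Agent.Lib.MP_9f3af0_lc.DefsE
import Pool.Agent.Lib.MP_9f3af0_lc.Thr
import Pool.Agent.Lib.MP_9f3af0_lc.Sq

/-!
# Threshold edges of a polygon: existence, uniqueness, goodness

Translation of `Thr.lean` to `v : ZMod n → ℂ` (`u = sq v i`, `u k = v (i + k)`, `TT n u = bd v`, `v (i + k + 1) =
sq v i (k + 1)`), and the definition of `ThrE`.  `IsGap (Sees v) i s t` gives `SP n u` and the hypotheses of
`thr_good`, `thr_uniq`, `thr_none` (`Sees v i (i + m)` iff `m` is not `0` mod `n` and `segment ⊆ reg`).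

`gap_eq`: two gaps of `i` with a common `c` (`s ≤ c < t`, `s' ≤ c < t'`) are equal.
`thrE_exists`: if an edge of the gap is seen, it is a threshold edge; otherwise the second alternative of
`ThrE` with this gap, `c = t - 1` or `c = s`.
`thrE_unique`: if the gap has a seen edge `d`, a threshold edge `c` of the gap is seen (in the second
alternative of `ThrE` the gap is the same one by `gap_eq` and has no seen edge), so `c = d` by `thr_uniq`; if
not, both are given by the second alternative for the same gap.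
`thrE_good`: a seen edge is good by `thr_good`; in the second alternative: if `v (i+s) ∈ [v i, v (i+t)]`,
`c = t - 1`, `a' = b' = v (i+t)`; otherwise `v (i+t) ∈ [v i, v (i+s)]` by `thr_none`, `c = s`, `a' = b' = v (i+s)`.
`thrE_or`: immediate.
-/

namespace VisMap

theorem gap_eq {n : ℕ} {R : ZMod n → ZMod n → Prop} {i : ZMod n} {s t s' t' c : ℕ}
    (h : IsGap R i s t) (h' : IsGap R i s' t') (h1 : s ≤ c) (h2 : c < t) (h1' : s' ≤ c)
    (h2' : c < t') : s = s' ∧ t = t' := by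
  obtain ⟨_, _, _, a4, a5, a6⟩ := h
  obtain ⟨_, _, _, b4, b5, b6⟩ := h'
  constructor
  · rcases lt_trichotomy s s' with h3 | h3 | h3
    · exact absurd b4 (a6 s' h3 (by omega))
    · exact h3
    · exact absurd a4 (b6 s h3 (by omega))
  · rcases lt_trichotomy t t' with h3 | h3 | h3
    · exact absurd a5 (b6 t (by omega) h3)
    · exact h3
    · exact absurd b5 (a6 t' (by omega) h3)

private theorem u0 {n : ℕ} (v : ZMod n → ℂ) (i : ZMod n) : sq v i 0 = v i := by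
  unfold sq
  rw [Nat.cast_zero, add_zero]

private theorem us {n : ℕ} (v : ZMod n → ℂ) (i : ZMod n) (c : ℕ) :
    sq v i (c + 1) = v (i + c + 1) := by
  unfold sq
  rw [Nat.cast_add, Nat.cast_one, add_assoc]

private theorem ncast {n : ℕ} {i : ZMod n} {a b : ℕ} (ha : a < n) (hb : b < n)
    (h : i + (a : ZMod n) = i + (b : ZMod n)) : a = b := by
  have h1 := (ZMod.natCast_eq_natCast_iff' a b n).1 (add_left_cancel h)
  rwa [Nat.mod_eq_of_lt ha, Nat.mod_eq_of_lt hb] at h1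

private theorem seesE_iff {n : ℕ} {v : ZMod n → ℂ} (hn : 0 < n) (i : ZMod n) (c : ℕ) :
    SeesE v i (i + c) ↔ ∃ z ∈ openSegment ℝ (sq v i c) (sq v i (c + 1)),
      segment ℝ (sq v i 0) z ⊆ reg (TT n (sq v i)) := by
  rw [TT_sq hn, u0, us]
  rfl

private theorem data {n : ℕ} {v : ZMod n → ℂ} (hv : IsSimple v) {i : ZMod n} {s t : ℕ}
    (hg : IsGap (Sees v) i s t) :
    segment ℝ (sq v i 0) (sq v i s) ⊆ reg (TT n (sq v i)) ∧
    segment ℝ (sq v i 0) (sq v i t) ⊆ reg (TT n (sq v i)) ∧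
    ∀ m, s < m → m < t → ¬ segment ℝ (sq v i 0) (sq v i m) ⊆ reg (TT n (sq v i)) := by
  have hn : 0 < n := by
    have := hv.three
    omega
  obtain ⟨h1, h2, h3, h4, h5, h6⟩ := hg
  rw [TT_sq hn, u0]
  refine ⟨h4.2, h5.2, fun m hm1 hm2 h => h6 m hm1 hm2 ⟨?_, h⟩⟩
  intro h7
  have h8 : i + ((0 : ℕ) : ZMod n) = i + (m : ZMod n) := by
    rw [Nat.cast_zero, add_zero]
    exact h7
  have := ncast (by omega) (by omega) h8
  omega

private theorem second {n : ℕ} {v : ZMod n → ℂ} {i : ZMod n} {s t : ℕ}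
    (hg : IsGap (Sees v) i s t) {c : ℕ} (h1 : s ≤ c) (h2 : c < t) (h : ThrE v i (i + c)) :
    SeesE v i (i + c) ∨ ((∀ d : ℕ, s ≤ d → d < t → ¬ SeesE v i (i + d)) ∧
      ((v (i + s) ∈ segment ℝ (v i) (v (i + t)) ∧ c + 1 = t) ∨
        (v (i + s) ∉ segment ℝ (v i) (v (i + t)) ∧ c = s))) := by
  rcases h with h | ⟨s', t', hg', hno, hor⟩
  · exact Or.inl h
  · right
    have hc : c + 1 = t' ∨ c = s' := by
      rcases hor with ⟨_, h3⟩ | ⟨_, h3⟩
      · have h4 := ncast (by have := hg.2.2.1; omega) (by have := hg'.2.2.1; omega) h3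
        have := hg'.2.1
        left
        omega
      · exact Or.inr (ncast (by have := hg.2.2.1; omega)
          (by have := hg'.2.2.1; have := hg'.2.1; omega) h3)
    have hst' := hg'.2.1
    obtain ⟨rfl, rfl⟩ := gap_eq hg hg' h1 h2 (by omega) (by omega)
    refine ⟨hno, ?_⟩
    rcases hor with ⟨h4, h3⟩ | ⟨h4, h3⟩
    · refine Or.inl ⟨h4, ?_⟩
      have h5 := ncast (by have := hg.2.2.1; omega) (by have := hg'.2.2.1; omega) h3
      omega
    · refine Or.inr ⟨h4, ?_⟩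
      exact ncast (by have := hg.2.2.1; omega) (by have := hg'.2.2.1; omega) h3

theorem thrE_exists {n : ℕ} {v : ZMod n → ℂ} (hv : IsSimple v) {i : ZMod n} {s t : ℕ}
    (hg : IsGap (Sees v) i s t) : ∃ c : ℕ, s ≤ c ∧ c < t ∧ ThrE v i (i + c) := by
  have hst := hg.2.1
  by_cases h : ∃ c : ℕ, s ≤ c ∧ c < t ∧ SeesE v i (i + c)
  · obtain ⟨c, h1, h2, h3⟩ := h
    exact ⟨c, h1, h2, Or.inl h3⟩
  · have hno : ∀ c : ℕ, s ≤ c → c < t → ¬ SeesE v i (i + c) :=
      fun c h1 h2 h3 => h ⟨c, h1, h2, h3⟩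
    by_cases hm : v (i + s) ∈ segment ℝ (v i) (v (i + t))
    · exact ⟨t - 1, by omega, by omega, Or.inr ⟨s, t, hg, hno, Or.inl ⟨hm, rfl⟩⟩⟩
    · exact ⟨s, le_rfl, hst, Or.inr ⟨s, t, hg, hno, Or.inr ⟨hm, rfl⟩⟩⟩

theorem thrE_unique {n : ℕ} {v : ZMod n → ℂ} (hv : IsSimple v) {i : ZMod n} {s t : ℕ}
    (hg : IsGap (Sees v) i s t) {c c' : ℕ} (h1 : s ≤ c) (h2 : c < t) (h1' : s ≤ c') (h2' : c' < t)
    (h : ThrE v i (i + c)) (h' : ThrE v i (i + c')) : c = c' := by
  have hn : 0 < n := by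
    have := hv.three
    omega
  have hst := hg.2.1
  obtain ⟨d1, d2, d3⟩ := data hv hg
  rcases second hg h1 h2 h with h3 | ⟨h3, h4⟩
  · rcases second hg h1' h2' h' with h5 | ⟨h5, h6⟩
    · obtain ⟨z, hz, hvz⟩ := (seesE_iff hn i c).1 h3
      obtain ⟨z', hz', hvz'⟩ := (seesE_iff hn i c').1 h5
      exact thr_uniq (sp_sq hv i) hg.1 hst hg.2.2.1 d1 d2 d3 h1' h2' hz' hvz' h1 h2 hz hvz
    · exact absurd h3 (h5 c h1 h2)
  · rcases second hg h1' h2' h' with h5 | ⟨h5, h6⟩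
    · exact absurd h5 (h3 c' h1' h2')
    · rcases h4 with ⟨h4, h7⟩ | ⟨h4, h7⟩
      · rcases h6 with ⟨h6, h8⟩ | ⟨h6, h8⟩
        · omega
        · exact absurd h4 h6
      · rcases h6 with ⟨h6, h8⟩ | ⟨h6, h8⟩
        · exact absurd h6 h4
        · omega

theorem thrE_good {n : ℕ} {v : ZMod n → ℂ} (hv : IsSimple v) {i : ZMod n} {s t : ℕ}
    (hg : IsGap (Sees v) i s t) {c : ℕ} (h1 : s ≤ c) (h2 : c < t) (h : ThrE v i (i + c)) :
    Good v i s t c := by
  have hn : 0 < n := by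
    have := hv.three
    omega
  have hst := hg.2.1
  obtain ⟨d1, d2, d3⟩ := data hv hg
  rcases second hg h1 h2 h with h3 | ⟨h3, h4⟩
  · obtain ⟨z, hz, hvz⟩ := (seesE_iff hn i c).1 h3
    obtain ⟨a', ha', b', hb', hsa, htb, hcv⟩ :=
      thr_good (sp_sq hv i) hg.1 hst hg.2.2.1 d1 d2 d3 h1 h2 hz hvz
    rw [u0] at hsa htb hcv
    rw [TT_sq hn] at hcv
    exact ⟨a', ha', b', hb', hsa, htb, hcv⟩
  · rcases h4 with ⟨h4, h7⟩ | ⟨h4, h7⟩
    · subst h7
      have h8 : v (i + (c + 1 : ℕ)) ∈ segment ℝ (v (i + c)) (v (i + (c + 1 : ℕ))) :=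
        right_mem_segment ℝ _ _
      refine ⟨_, h8, _, h8, h4, right_mem_segment ℝ _ _, ?_⟩
      rw [Set.pair_eq_singleton, convexHull_pair]
      rw [u0, TT_sq hn] at d2
      exact d2
    · subst h7
      have h9 : v (i + t) ∈ segment ℝ (v i) (v (i + c)) := by
        have h10 := thr_none (sp_sq hv i) hg.1 hst hg.2.2.1 d1 d2 d3
          (fun d e1 e2 z hz hvz => h3 d e1 e2 ((seesE_iff hn i d).2 ⟨z, hz, hvz⟩))
        rw [u0] at h10
        rcases h10 with h10 | h10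
        · exact absurd h10 h4
        · exact h10
      have h8 : v (i + c) ∈ segment ℝ (v (i + c)) (v (i + (c + 1 : ℕ))) :=
        left_mem_segment ℝ _ _
      refine ⟨_, h8, _, h8, right_mem_segment ℝ _ _, h9, ?_⟩
      rw [Set.pair_eq_singleton, convexHull_pair]
      rw [u0, TT_sq hn] at d1
      exact d1

theorem thrE_or {n : ℕ} {v : ZMod n → ℂ} (hv : IsSimple v) {i : ZMod n} {s t : ℕ}
    (hg : IsGap (Sees v) i s t) {c : ℕ} (h1 : s ≤ c) (h2 : c < t) (h : ThrE v i (i + c)) :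
    SeesE v i (i + c) ∨ c = s ∨ c + 1 = t := by
  rcases second hg h1 h2 h with h3 | ⟨_, ⟨_, h4⟩ | ⟨_, h4⟩⟩
  · exact Or.inl h3
  · exact Or.inr (Or.inr h4)
  · exact Or.inr (Or.inl h4)

end VisMap
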