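import Pool.Agent.Lib.MP_9f3af0_lc.Sq
import Pool.Agent.Lib.MP_9f3af0_lc.CrossC
import Pool.Agent.Lib.MP_9f3af0_lc.Struct

/-!
# The edge part of the threshold property

The same proof as `nc_left`, `nc_right` in `Nc.lean`, with an interior point `z` of the edge `d` in place of the
vertex `u y`.  `u = sq v i`, `s ≤ d < c`, `a'` on the edge `c`, `u s ∈ [u 0, a'] ⊆ reg`, `[u 0, z]` not in `reg`.
Suppose `σ = [u x, z] ⊆ reg`, `x < s`; `x ≠ 0`.
(1) `crossC` at the base `i` with `β = u s` on the edge `s`: `u x ∈ chA` (edge `x < s`), `z ∈ chB` (`z` is on the edge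
`d ≥ s`; for `d = s` it is in `[β, u (s+1)]`).  So `σ` meets `[u 0, u s]` in `m1`.
(2) `crossC` at the base `i + s` with `β = a'` on the edge `c - s`: `z ∈ chA` (edge `d - s < c - s`), `u x ∈ chB`
(edge `n + x - s > c - s`).  So `σ` meets `[u s, a']` in `m2`.
Case A, `det (a' - u 0) (z - u x) = 0`: everything is on one line, `[u 0, u s] ∪ σ` is connected, in `reg` and
contains `u 0` and `z`, so `[u 0, z] ⊆ reg`: contradiction.
Case B: `m1 = m2 = u s`, `u s` is strictly between `u x` and `z` (`z` is in an open edge, not a vertex: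
`vertex_edge`/`open_edge`) and strictly between `u 0` and `a'` (`u s` is not on the edge `c > d ≥ s`, `c < n`,
by `vertex_edge`; `c + 1 < n`), and `crossA` at the base `i` with `β = a'` on the edge `c` gives the
contradiction (`u x` on the edge `x < c`, `z` on the edge `d < c`).
The mirror image `ve1_right`: `c < d < t`, `b'` on the edge `c`, `u t ∈ [u 0, b'] ⊆ reg`, `t < x ≤ n`.
-/

namespace VisMap

open Set

private theorem det_par {d e : ℂ} (hd : d ≠ 0) (h : det d e = 0) : ∃ r : ℝ, e = r • d := by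
  unfold det at h
  by_cases h1 : d.re = 0
  · have h2 : d.im ≠ 0 := fun h2 => hd (Complex.ext h1 h2)
    refine ⟨e.im / d.im, Complex.ext ?_ ?_⟩
    · rw [Complex.real_smul, Complex.re_ofReal_mul, h1, mul_zero]
      rw [h1, zero_mul, zero_sub, neg_eq_zero, mul_eq_zero] at h
      exact h.resolve_left h2
    · rw [Complex.real_smul, Complex.im_ofReal_mul, div_mul_cancel₀ _ h2]
  · refine ⟨e.re / d.re, Complex.ext ?_ ?_⟩
    · rw [Complex.real_smul, Complex.re_ofReal_mul, div_mul_cancel₀ _ h1]
    · rw [Complex.real_smul, Complex.im_ofReal_mul]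
      field_simp
      linarith

private theorem nc_core {R : Set ℂ} {P A w p q : ℂ} (hw : w ∈ segment ℝ P A) (hPA : A ≠ P)
    (h1 : (segment ℝ p q ∩ segment ℝ P w).Nonempty)
    (h2 : (segment ℝ p q ∩ segment ℝ w A).Nonempty) (hR : segment ℝ p q ⊆ R)
    (hPw : segment ℝ P w ⊆ R) :
    segment ℝ P q ⊆ R ∨ (det (A - P) (q - p) ≠ 0 ∧ w ∈ segment ℝ p q) := by
  obtain ⟨g, hg⟩ : ∃ g : ℝ →ᵃ[ℝ] ℂ, g = AffineMap.lineMap P A := ⟨_, rfl⟩
  have hg0 : g 0 = P := by rw [hg, AffineMap.lineMap_apply_zero]
  have hg1 : g 1 = A := by rw [hg, AffineMap.lineMap_apply_one]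
  have hgt : ∀ t, g t = P + t • (A - P) := by
    intro t
    rw [hg, AffineMap.lineMap_apply, vsub_eq_sub, vadd_eq_add, add_comm]
  obtain ⟨κ, hκ, rfl⟩ : ∃ κ ∈ Icc (0 : ℝ) 1, g κ = w := by
    rw [← hg0, ← hg1, ← image_segment, segment_eq_Icc zero_le_one] at hw
    exact hw
  obtain ⟨m1, hm1, hm1'⟩ := h1
  obtain ⟨m2, hm2, hm2'⟩ := h2
  have hm1s : segment ℝ P m1 ⊆ segment ℝ P (g κ) :=
    (convex_segment _ _).segment_subset (left_mem_segment ℝ _ _) hm1'
  obtain ⟨l1, hl1, rfl⟩ : ∃ l ∈ Icc (0 : ℝ) κ, g l = m1 := by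
    rw [← hg0, ← image_segment, segment_eq_Icc hκ.1] at hm1'
    exact hm1'
  obtain ⟨l2, hl2, rfl⟩ : ∃ l ∈ Icc κ (1 : ℝ), g l = m2 := by
    rw [← hg1, ← image_segment, segment_eq_Icc hκ.2] at hm2'
    exact hm2'
  by_cases hd : det (A - P) (q - p) = 0
  · left
    obtain ⟨r, hr⟩ := det_par (sub_ne_zero.2 hPA) hd
    obtain ⟨θ, hθ, hθm⟩ : ∃ θ ∈ Icc (0 : ℝ) 1, p + θ • (q - p) = g l1 := by
      rw [segment_eq_image'] at hm1
      exact hm1
    have hq : q = g (l1 + (1 - θ) * r) := by
      rw [hgt, add_smul, ← add_assoc, ← hgt, ← hθm, mul_smul, ← hr, add_assoc, ← add_smul]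
      rw [add_sub_cancel, one_smul, add_sub_cancel]
    rw [hq] at hR ⊢
    have h3 : segment ℝ (g l1) (g (l1 + (1 - θ) * r)) ⊆ R := by
      refine Subset.trans ?_ hR
      refine (convex_segment _ _).segment_subset ?_ (right_mem_segment ℝ _ _)
      rw [← hq]
      exact hm1
    have h4 : segment ℝ P (g l1) ⊆ R := hm1s.trans hPw
    rw [← hg0] at h4 ⊢
    rw [← image_segment, segment_eq_uIcc] at h3 h4 ⊢
    rintro _ ⟨x, hx, rfl⟩
    rcases uIcc_subset_uIcc_union_uIcc (b := l1) hx with h | h
    · exact h4 ⟨x, h, rfl⟩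
    · exact h3 ⟨x, h, rfl⟩
  · right
    refine ⟨hd, ?_⟩
    have h5 : l1 = l2 := by
      rw [segment_eq_image'] at hm1 hm2
      obtain ⟨θ1, -, h1⟩ := hm1
      obtain ⟨θ2, -, h2⟩ := hm2
      have h1r := congrArg Complex.re h1
      have h1i := congrArg Complex.im h1
      have h2r := congrArg Complex.re h2
      have h2i := congrArg Complex.im h2
      rw [hgt] at h1r h1i h2r h2i
      simp only [Complex.add_re, Complex.add_im, Complex.real_smul, Complex.re_ofReal_mul,
        Complex.im_ofReal_mul] at h1r h1i h2r h2i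
      have h6 : (l1 - l2) * det (A - P) (q - p) = 0 := by
        unfold det
        have e1 : (l1 - l2) * (A - P).re = (θ1 - θ2) * (q - p).re := by linarith
        have e2 : (l1 - l2) * (A - P).im = (θ1 - θ2) * (q - p).im := by linarith
        linear_combination (q - p).im * e1 - (q - p).re * e2
      rcases mul_eq_zero.1 h6 with h7 | h7
      · linarith
      · exact absurd h7 hd
    have h8 : l1 = κ := le_antisymm hl1.2 (by rw [h5]; exact hl2.1)
    rw [← h8]
    exact hm1

private theorem mem_open {p q w : ℂ} (h : w ∈ segment ℝ p q) (h1 : p ≠ w) (h2 : q ≠ w) :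
    w ∈ openSegment ℝ p q := mem_openSegment_of_ne_left_right h1 h2 h

theorem ve1_left {n : ℕ} {v : ZMod n → ℂ} (hv : IsSimple v) {i : ZMod n} {s c d : ℕ} (hs : 0 < s)
    (hsd : s ≤ d) (hdc : d < c) (hc : c + 1 < n) {a' z : ℂ}
    (ha : a' ∈ segment ℝ (sq v i c) (sq v i (c + 1))) (hsa : sq v i s ∈ segment ℝ (sq v i 0) a')
    (hD : segment ℝ (sq v i 0) a' ⊆ reg (bd v))
    (hz : z ∈ openSegment ℝ (sq v i d) (sq v i (d + 1)))
    (hnz : ¬ segment ℝ (sq v i 0) z ⊆ reg (bd v)) {x : ℕ} (hx : x < s) :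
    ¬ segment ℝ (sq v i x) z ⊆ reg (bd v) := by
  intro hσ
  have h := sp_sq hv i
  have hn : 0 < n := by omega
  have hT : TT n (sq v i) = bd v := TT_sq hn i
  have hinj : ∀ j k, j < n → k < n → j ≠ k → sq v i j ≠ sq v i k := fun j k hj hk hne he =>
    hne (h.inj j k hj hk he)
  have hz' : z ∈ segment ℝ (sq v i d) (sq v i (d + 1)) := openSegment_subset_segment ℝ _ _ hz
  have hzs : z ≠ sq v i s := by
    intro he
    rcases eq_or_ne s d with hsd' | hsd'
    · rw [← hsd', he, left_mem_openSegment_iff] at hz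
      exact hinj s (s + 1) (by omega) (by omega) (by omega) hz
    · refine open_edge h (by omega : d < n) (by omega : s < n) hsd' hz ?_
      rw [he]
      exact left_mem_segment ℝ _ _
  have hPw : segment ℝ (sq v i 0) (sq v i s) ⊆ reg (bd v) :=
    ((convex_segment _ _).segment_subset (left_mem_segment ℝ _ _) hsa).trans hD
  have hwA : segment ℝ (sq v i s) a' ⊆ reg (bd v) :=
    ((convex_segment _ _).segment_subset hsa (right_mem_segment ℝ _ _)).trans hD
  have h1 : (segment ℝ (sq v i x) z ∩ segment ℝ (sq v i 0) (sq v i s)).Nonempty := by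
    refine crossC h (by omega : s < n) (left_mem_segment ℝ _ _) (by rw [hT]; exact hPw)
      (convex_segment _ _).isPreconnected (by rw [hT]; exact hσ) (left_mem_segment ℝ _ _) ?_
      (right_mem_segment ℝ _ _) ?_
    · exact tr_chA.2 (Or.inl ⟨x, hx, left_mem_segment ℝ _ _⟩)
    · rcases eq_or_ne s d with hsd' | hsd'
      · refine tr_chB.2 (Or.inl ?_)
        rw [hsd']
        exact hz'
      · exact tr_chB.2 (Or.inr ⟨d, by omega, by omega, hz'⟩)
  have h2 : (segment ℝ (sq v i x) z ∩ segment ℝ (sq v i s) a').Nonempty := by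
    have h' := sp_sq hv (i + s)
    have hT' : TT n (sq v (i + s)) = bd v := TT_sq hn _
    have e0 : sq v (i + s) 0 = sq v i s := by rw [sq_add, add_zero]
    have ec : sq v (i + s) (c - s) = sq v i c := by
      rw [sq_add]
      congr 1
      omega
    have ec1 : sq v (i + s) (c - s + 1) = sq v i (c + 1) := by
      rw [sq_add]
      congr 1
      omega
    have ed : sq v (i + s) (d - s) = sq v i d := by
      rw [sq_add]
      congr 1
      omega
    have ed1 : sq v (i + s) (d - s + 1) = sq v i (d + 1) := by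
      rw [sq_add]
      congr 1
      omega
    have ex : sq v (i + s) (n + x - s) = sq v i x := by
      rw [sq_add, ← sq_per v i x]
      congr 1
      omega
    rw [segment_symm]
    have := crossC h' (by omega : c - s < n) (β := a') (by rw [ec, ec1]; exact ha)
      (by rw [hT', e0]; exact hwA) (σ := segment ℝ z (sq v i x))
      (convex_segment _ _).isPreconnected (by rw [hT', segment_symm]; exact hσ)
      (left_mem_segment ℝ _ _) ?_ (right_mem_segment ℝ _ _) ?_
    · rw [e0] at this
      exact this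
    · refine tr_chA.2 (Or.inl ⟨d - s, by omega, ?_⟩)
      rw [ed, ed1]
      exact hz'
    · refine tr_chB.2 (Or.inr ⟨n + x - s, by omega, by omega, ?_⟩)
      rw [ex]
      exact left_mem_segment ℝ _ _
  have hPA : a' ≠ sq v i 0 := by
    intro he
    rw [he, segment_same] at hsa
    exact hinj s 0 (by omega) hn (by omega) hsa
  rcases nc_core hsa hPA h1 h2 hσ hPw with h3 | ⟨h3, h4⟩
  · exact hnz h3
  · have hsa' : a' ≠ sq v i s := by
      intro he
      rw [he] at ha
      rcases vertex_edge h (by omega : s < n) (by omega : c < n) ha with h5 | h5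
      · exact hinj s c (by omega) (by omega) (by omega) h5
      · exact hinj s (c + 1) (by omega) (by omega) (by omega) h5
    refine crossA h (by omega : c < n) ha (by rw [hT]; exact hD) (by rw [hT]; exact hσ) ?_ ?_
      (mem_open h4 (hinj x s (by omega) (by omega) (by omega)) hzs)
      (mem_open hsa (hinj 0 s hn (by omega) (by omega)) hsa') h3
    · exact tr_chA.2 (Or.inl ⟨x, by omega, left_mem_segment ℝ _ _⟩)
    · exact tr_chA.2 (Or.inl ⟨d, hdc, hz'⟩)

theorem ve1_right {n : ℕ} {v : ZMod n → ℂ} (hv : IsSimple v) {i : ZMod n} {t c d : ℕ} (hc : 0 < c)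
    (hcd : c < d) (hdt : d < t) (ht : t < n) {b' z : ℂ}
    (hb : b' ∈ segment ℝ (sq v i c) (sq v i (c + 1))) (htb : sq v i t ∈ segment ℝ (sq v i 0) b')
    (hD : segment ℝ (sq v i 0) b' ⊆ reg (bd v))
    (hz : z ∈ openSegment ℝ (sq v i d) (sq v i (d + 1)))
    (hnz : ¬ segment ℝ (sq v i 0) z ⊆ reg (bd v)) {x : ℕ} (hx : t < x) (hxn : x ≤ n) :
    ¬ segment ℝ (sq v i x) z ⊆ reg (bd v) := by
  intro hσ
  have h := sp_sq hv i
  have hn : 0 < n := by omega
  have hT : TT n (sq v i) = bd v := TT_sq hn i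
  have hinj : ∀ j k, j < n → k < n → j ≠ k → sq v i j ≠ sq v i k := fun j k hj hk hne he =>
    hne (h.inj j k hj hk he)
  rcases hxn.lt_or_eq with hxn | hxn
  swap
  · rw [hxn, h.per] at hσ
    exact hnz hσ
  have hz' : z ∈ segment ℝ (sq v i d) (sq v i (d + 1)) := openSegment_subset_segment ℝ _ _ hz
  have hzt : z ≠ sq v i t := by
    intro he
    refine open_edge h (by omega : d < n) ht (by omega) hz ?_
    rw [he]
    exact left_mem_segment ℝ _ _
  have hPw : segment ℝ (sq v i 0) (sq v i t) ⊆ reg (bd v) :=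
    ((convex_segment _ _).segment_subset (left_mem_segment ℝ _ _) htb).trans hD
  have hwA : segment ℝ (sq v i t) b' ⊆ reg (bd v) :=
    ((convex_segment _ _).segment_subset htb (right_mem_segment ℝ _ _)).trans hD
  have h1 : (segment ℝ (sq v i x) z ∩ segment ℝ (sq v i 0) (sq v i t)).Nonempty := by
    refine crossC h ht (left_mem_segment ℝ _ _) (by rw [hT]; exact hPw)
      (convex_segment _ _).isPreconnected (by rw [hT]; exact hσ) (right_mem_segment ℝ _ _) ?_
      (left_mem_segment ℝ _ _) ?_
    · exact tr_chA.2 (Or.inl ⟨d, hdt, hz'⟩)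
    · exact tr_chB.2 (Or.inr ⟨x, hx, hxn, left_mem_segment ℝ _ _⟩)
  have h2 : (segment ℝ (sq v i x) z ∩ segment ℝ (sq v i t) b').Nonempty := by
    have h' := sp_sq hv (i + t)
    have hT' : TT n (sq v (i + t)) = bd v := TT_sq hn _
    have e0 : sq v (i + t) 0 = sq v i t := by rw [sq_add, add_zero]
    have ec : sq v (i + t) (c + n - t) = sq v i c := by
      rw [sq_add, ← sq_per v i c]
      congr 1
      omega
    have ec1 : sq v (i + t) (c + n - t + 1) = sq v i (c + 1) := by
      rw [sq_add, ← sq_per v i (c + 1)]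
      congr 1
      omega
    have ex : sq v (i + t) (x - t) = sq v i x := by
      rw [sq_add]
      congr 1
      omega
    have ed : sq v (i + t) (d + n - t) = sq v i d := by
      rw [sq_add, ← sq_per v i d]
      congr 1
      omega
    have ed1 : sq v (i + t) (d + n - t + 1) = sq v i (d + 1) := by
      rw [sq_add, ← sq_per v i (d + 1)]
      congr 1
      omega
    have := crossC h' (by omega : c + n - t < n) (β := b') (by rw [ec, ec1]; exact hb)
      (by rw [hT', e0]; exact hwA) (σ := segment ℝ (sq v i x) z)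
      (convex_segment _ _).isPreconnected (by rw [hT']; exact hσ)
      (left_mem_segment ℝ _ _) ?_ (right_mem_segment ℝ _ _) ?_
    · rw [e0] at this
      exact this
    · refine tr_chA.2 (Or.inl ⟨x - t, by omega, ?_⟩)
      rw [ex]
      exact left_mem_segment ℝ _ _
    · refine tr_chB.2 (Or.inr ⟨d + n - t, by omega, by omega, ?_⟩)
      rw [ed, ed1]
      exact hz'
  have hPA : b' ≠ sq v i 0 := by
    intro he
    rw [he, segment_same] at htb
    exact hinj t 0 (by omega) hn (by omega) htb
  rcases nc_core htb hPA h1 h2 hσ hPw with h3 | ⟨h3, h4⟩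
  · exact hnz h3
  · have hsa' : b' ≠ sq v i t := by
      intro he
      rw [he] at hb
      rcases vertex_edge h ht (by omega : c < n) hb with h5 | h5
      · exact hinj t c (by omega) (by omega) (by omega) h5
      · exact hinj t (c + 1) (by omega) (by omega) (by omega) h5
    refine crossB h (by omega : c < n) hb (by rw [hT]; exact hD) (by rw [hT]; exact hσ) ?_ ?_
      (mem_open h4 (hinj x t (by omega) (by omega) (by omega)) hzt)
      (mem_open htb (hinj 0 t hn (by omega) (by omega)) hsa') h3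
    · exact tr_chB.2 (Or.inr ⟨x, by omega, by omega, left_mem_segment ℝ _ _⟩)
    · exact tr_chB.2 (Or.inr ⟨d, by omega, by omega, hz'⟩)

end VisMap
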