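import Pool.Agent.Lib.MP_9f3af0_lc.ThrV

/-!
# VE2 for polygons

`(s, t)` is a gap of `i`, `c` its threshold, `u = sq v i`; by `thrE_good` there are `a', b'` on the edge `c`.

`ve2_left`, `s < c`.  `[u s, a'] ⊆ [u 0, a'] ⊆ reg`.
(A) `c + 1 < t`: `a'` is not `u c` or `u (c+1)`, since these are not visible from `i` (`s < c`, `c + 1 < t`); so
`a'` is in the open edge `c` and `i + s` sees it: `SeesE v (i+s) (i+c)`, hence `ThrE`.
(B) `c + 1 = t`.  (α) Suppose `SeesE v i (i+c)`, with the point `z`.  If `a' ≠ u t` then (`a' ≠ u c` as before) `a'` is in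
the open edge `c`: done as in (A).  If `a' = u t`: `u s ∈ [u 0, u t]`.  Cut at `z` on the edge `c = t - 1`: `u s ∈ chA`,
`u t ∈ chB` (`u t ∈ [z, u t]`), `σ = [u s, u t] ⊆ [u 0, u t]`; `crossC`: `σ` meets `[u 0, z]` (not in `u 0`), so `z` and
`u t` are on one ray from `u 0`; both are on the edge `c` and different, so `u 0` is on the line of the edge
`c`, and by `along_edge` `u c = u (t-1)` is visible, `s < t - 1 < t`: contradiction.
(β) `¬ SeesE v i (i+c)`: then no edge of the gap is seen (a seen edge would be the threshold), and `ThrE` comes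
from the second alternative with this gap (`gap_eq`); as `c = t - 1 > s`, `u s ∈ [u 0, u t]`.  So `[u s, u t] ⊆ reg`:
`i + s` sees `i + t`; let `(l, t)` be the gap of `i + s` that ends in `i + t` (indices relative to `i`: `l > s`, the
last vertex in `(s, t)` seen by `i + s`; it exists because `s + 1` is seen; relative to `i + s` the gap is
`(l - s, t - s)`), and `g` its threshold (`thrE_exists`), `l ≤ g < t`, good with `b''`: `u t ∈ [u s, b'']`.
Claim `g = t - 1`.  If `SeesE v (i+s) (i+g)` and `g < t - 1`: `u 0, u s, u t, b''` are in this order on one ray,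
`[u 0, b''] = [u 0, u t] ∪ [u s, b''] ⊆ reg`; `b'' ≠ u g, u (g+1)` (these would be visible from `i`, strictly
between `s` and `t`), so `b''` is in the open edge `g` and `SeesE v i (i+g)`: contradiction.  If not
`SeesE v (i+s) (i+g)`: by `thrE_or` and the definition either `g = t - 1`, or `u l ∉ [u s, u t]` and then
`u t ∈ [u s, u l]` (`thr_none`, or from the goodness of `g = l`), so `[u 0, u l] ⊆ reg`, `i` sees `l`, `s < l < t`:
contradiction.
`ve2_right` is the mirror image.
-/

namespace VisMap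

open Set

private theorem nat_ne {n : ℕ} {i : ZMod n} {m : ℕ} (h0 : 0 < m) (hm : m < n) :
    i ≠ i + (m : ZMod n) := by
  intro h
  have h1 : ((m : ℕ) : ZMod n) = 0 := by
    have h2 : i + (m : ZMod n) = i + 0 := by rw [← h, add_zero]
    exact add_left_cancel h2
  rw [ZMod.natCast_eq_zero_iff] at h1
  exact absurd (Nat.le_of_dvd h0 h1) (by omega)

private theorem sq_zero {n : ℕ} (v : ZMod n → ℂ) (j : ZMod n) : sq v j 0 = v j := by
  simp [sq]

private theorem sees_sq {n : ℕ} {v : ZMod n → ℂ} {j : ZMod n} {m : ℕ} (h0 : 0 < m) (hm : m < n) :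
    Sees v j (j + m) ↔ segment ℝ (sq v j 0) (sq v j m) ⊆ reg (bd v) := by
  rw [sq_zero]
  exact ⟨fun h => h.2, fun h => ⟨nat_ne h0 hm, h⟩⟩

private theorem seesE_at {n : ℕ} {v : ZMod n → ℂ} {i : ZMod n} {s c : ℕ} :
    SeesE v (i + s) (i + c) ↔ ∃ z ∈ openSegment ℝ (sq v i c) (sq v i (c + 1)),
      segment ℝ (sq v i s) z ⊆ reg (bd v) := by
  have e1 : sq v i (c + 1) = v (i + c + 1) := by simp [sq, add_assoc]
  rw [e1]
  exact Iff.rfl

private theorem seesE_sq {n : ℕ} {v : ZMod n → ℂ} {j : ZMod n} {c : ℕ} :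
    SeesE v j (j + c) ↔ ∃ z ∈ openSegment ℝ (sq v j c) (sq v j (c + 1)),
      segment ℝ (sq v j 0) z ⊆ reg (bd v) := by
  have e1 : sq v j (c + 1) = v (j + c + 1) := by simp [sq, add_assoc]
  rw [sq_zero, e1]
  exact Iff.rfl

private theorem good_sq {n : ℕ} {v : ZMod n → ℂ} {j : ZMod n} {s t c : ℕ} (h : Good v j s t c) :
    ∃ a' ∈ segment ℝ (sq v j c) (sq v j (c + 1)), ∃ b' ∈ segment ℝ (sq v j c) (sq v j (c + 1)),
      sq v j s ∈ segment ℝ (sq v j 0) a' ∧ sq v j t ∈ segment ℝ (sq v j 0) b' ∧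
      segment ℝ (sq v j 0) a' ⊆ reg (bd v) ∧ segment ℝ (sq v j 0) b' ⊆ reg (bd v) := by
  obtain ⟨a', ha, b', hb, h1, h2, h3⟩ := h
  rw [sq_zero]
  refine ⟨a', ha, b', hb, h1, h2, ?_, ?_⟩
  · refine Subset.trans ((convex_convexHull ℝ _).segment_subset ?_ ?_) h3
    · exact subset_convexHull ℝ _ (by simp)
    · exact subset_convexHull ℝ _ (by simp)
  · refine Subset.trans ((convex_convexHull ℝ _).segment_subset ?_ ?_) h3
    · exact subset_convexHull ℝ _ (by simp)
    · exact subset_convexHull ℝ _ (by simp)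

private theorem det_ray {P W z m : ℂ} (h1 : m ∈ segment ℝ P W) (h2 : m ∈ segment ℝ P z)
    (hm : m ≠ P) : det (z - P) (W - P) = 0 := by
  rw [segment_eq_image'] at h1 h2
  obtain ⟨l, -, hl⟩ := h1
  obtain ⟨k, -, hk⟩ := h2
  have e : l • (W - P) = k • (z - P) := by
    have h3 : P + l • (W - P) = P + k • (z - P) := hl.trans hk.symm
    exact add_left_cancel h3
  have hl0 : l ≠ 0 := by
    rintro rfl
    apply hm
    rw [← hl]
    simp
  have er := congrArg Complex.re e
  have ei := congrArg Complex.im e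
  simp only [Complex.real_smul, Complex.re_ofReal_mul, Complex.im_ofReal_mul] at er ei
  have h3 : l * det (z - P) (W - P) = 0 := by
    unfold det
    linear_combination (z - P).re * ei - (z - P).im * er
  exact (mul_eq_zero.1 h3).resolve_left hl0

private theorem det_edge {A B P z : ℂ} (hz : z ∈ openSegment ℝ A B)
    (h : det (z - P) (B - P) = 0 ∨ det (z - P) (A - P) = 0) : det (B - A) (P - A) = 0 := by
  rw [openSegment_eq_image'] at hz
  obtain ⟨θ, ⟨h0, h1⟩, rfl⟩ := hz
  rcases h with h | h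
  · have h2 : (1 - θ) * det (B - A) (P - A) = 0 := by
      unfold det at h ⊢
      simp only [Complex.sub_re, Complex.add_re, Complex.real_smul, Complex.re_ofReal_mul,
        Complex.sub_im, Complex.add_im, Complex.im_ofReal_mul] at h ⊢
      linear_combination h
    exact (mul_eq_zero.1 h2).resolve_left (by linarith)
  · have h2 : θ * det (B - A) (P - A) = 0 := by
      unfold det at h ⊢
      simp only [Complex.sub_re, Complex.add_re, Complex.real_smul, Complex.re_ofReal_mul,
        Complex.sub_im, Complex.add_im, Complex.im_ofReal_mul] at h ⊢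
      linear_combination -h
    exact (mul_eq_zero.1 h2).resolve_left h0.ne'

private theorem seg_split {a b c x : ℂ} (h : c ∈ segment ℝ a b) (hx : x ∈ segment ℝ a b) :
    x ∈ segment ℝ a c ∨ x ∈ segment ℝ c b := by
  rw [segment_eq_image_lineMap] at h hx
  obtain ⟨t, ht, rfl⟩ := h
  obtain ⟨s, hs, rfl⟩ := hx
  rcases le_total s t with hst | hst
  · left
    have h1 : Wbtw ℝ (0 : ℝ) s t := by
      rw [← mem_segment_iff_wbtw, segment_eq_Icc ht.1]; exact ⟨hs.1, hst⟩
    have h2 := h1.map (AffineMap.lineMap a b)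
    rw [AffineMap.lineMap_apply_zero] at h2
    exact mem_segment_iff_wbtw.2 h2
  · right
    have h1 : Wbtw ℝ t s (1 : ℝ) := by
      rw [← mem_segment_iff_wbtw, segment_eq_Icc ht.2]; exact ⟨hst, hs.2⟩
    have h2 := h1.map (AffineMap.lineMap a b)
    rw [AffineMap.lineMap_apply_one] at h2
    exact mem_segment_iff_wbtw.2 h2

/-- Two visible segments on one ray. -/
private theorem seg_ext {R : Set ℂ} {P X W b : ℂ} (hX : X ∈ segment ℝ P W) (hXW : X ≠ W)
    (hb : W ∈ segment ℝ X b) (h1 : segment ℝ P W ⊆ R) (h2 : segment ℝ X b ⊆ R) :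
    segment ℝ P b ⊆ R := by
  have h3 : W ∈ segment ℝ P b := mem_segment_iff_wbtw.2
    ((mem_segment_iff_wbtw.1 hX).trans_expand_right (mem_segment_iff_wbtw.1 hb) hXW)
  intro x hx
  rcases seg_split h3 hx with h | h
  · exact h1 h
  · exact h2 ((convex_segment _ _).segment_subset hb (right_mem_segment ℝ _ _) h)

theorem ve2_left {n : ℕ} {v : ZMod n → ℂ} (hv : IsSimple v) {i : ZMod n} {s t : ℕ}
    (hg : IsGap (Sees v) i s t) {c : ℕ} (h1 : s < c) (h2 : c < t) (h : ThrE v i (i + c)) :
    ThrE v (i + s) (i + c) ∧ (c + 1 < t → SeesE v (i + s) (i + c)) := by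
  have h' := sp_sq hv i
  have hg0 := hg
  obtain ⟨hs0, hst, htn, hvs, hvt, hno⟩ := hg0
  have hn : 0 < n := by omega
  have hT : TT n (sq v i) = bd v := TT_sq hn i
  rw [sees_sq hs0 (by omega)] at hvs
  rw [sees_sq (by omega) htn] at hvt
  have hno' : ∀ m, s < m → m < t → ¬ segment ℝ (sq v i 0) (sq v i m) ⊆ reg (bd v) :=
    fun m h3 h4 h5 => hno m h3 h4 ((sees_sq (by omega) (by omega)).2 h5)
  obtain ⟨a', ha, -, -, hsa, -, hD, -⟩ := good_sq (thrE_good hv hg h1.le h2 h)
  have e00 : sq v (i + s) 0 = sq v i s := by rw [sq_add, add_zero]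
  have hsa' : segment ℝ (sq v i s) a' ⊆ reg (bd v) :=
    ((convex_segment _ _).segment_subset hsa (right_mem_segment ℝ _ _)).trans hD
  by_cases ho : a' ∈ openSegment ℝ (sq v i c) (sq v i (c + 1))
  · have hk : SeesE v (i + s) (i + c) := seesE_at.2 ⟨a', ho, hsa'⟩
    exact ⟨Or.inl hk, fun _ => hk⟩
  have hac : a' ≠ sq v i c := by
    rintro rfl
    exact hno' c h1 h2 hD
  have ha1 : a' = sq v i (c + 1) := by
    by_contra hne
    exact ho (mem_openSegment_of_ne_left_right (Ne.symm hac) (Ne.symm hne) ha)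
  rw [ha1] at hD hsa hsa'
  have hct : c + 1 = t := by
    by_contra hne
    exact hno' (c + 1) (by omega) (by omega) hD
  subst hct
  refine ⟨?_, fun h3 => absurd h3 (lt_irrefl _)⟩
  have hXW : sq v i s ≠ sq v i (c + 1) := fun he => by
    have := h'.inj s (c + 1) (by omega) htn he
    omega
  have hnE : ¬ SeesE v i (i + c) := by
    rw [seesE_sq]
    rintro ⟨z, hz, hvz⟩
    obtain ⟨m, hm1, hm2⟩ := crossC h' (by omega : c < n) (openSegment_subset_segment ℝ _ _ hz)
      (by rw [hT]; exact hvz) (convex_segment (sq v i s) (sq v i (c + 1))).isPreconnected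
      (by rw [hT]; exact hsa') (left_mem_segment ℝ _ _)
      (tr_chA.2 (Or.inl ⟨s, h1, left_mem_segment ℝ _ _⟩)) (right_mem_segment ℝ _ _)
      (tr_chB.2 (Or.inl (right_mem_segment ℝ _ _)))
    have hmP : m ≠ sq v i 0 := by
      rintro rfl
      have h3 := (wbtw_swap_left_iff ℝ _).1
        ⟨mem_segment_iff_wbtw.1 hsa, mem_segment_iff_wbtw.1 hm1⟩
      have := h'.inj 0 s hn (by omega) h3
      omega
    have hmW : m ∈ segment ℝ (sq v i 0) (sq v i (c + 1)) :=
      (convex_segment _ _).segment_subset hsa (right_mem_segment ℝ _ _) hm1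
    have hdet := det_edge hz (Or.inl (det_ray hmW hm2 hmP))
    refine hno' c h1 h2 ?_
    rw [← hT]
    exact (along_edge h' (by omega) hz (by rw [hT]; exact hvz) hdet).1
  classical
  obtain ⟨l, hl, hlmax⟩ : ∃ l ∈ (Finset.Ioo s (c + 1)).filter fun m =>
      segment ℝ (sq v i s) (sq v i m) ⊆ reg (bd v), ∀ m ∈ (Finset.Ioo s (c + 1)).filter fun m =>
      segment ℝ (sq v i s) (sq v i m) ⊆ reg (bd v), m ≤ l := by
    have hS : ((Finset.Ioo s (c + 1)).filter fun m =>
        segment ℝ (sq v i s) (sq v i m) ⊆ reg (bd v)).Nonempty := by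
      refine ⟨s + 1, Finset.mem_filter.2 ⟨Finset.mem_Ioo.2 ⟨by omega, by omega⟩, ?_⟩⟩
      intro x hx
      rw [← hT]
      exact (jordan h').sub (mem_TT.2 ⟨s, by omega, hx⟩)
    exact ⟨_, Finset.max'_mem _ hS, fun m hm => Finset.le_max' _ m hm⟩
  rw [Finset.mem_filter, Finset.mem_Ioo] at hl
  have hsub : ∀ k, s ≤ k → sq v (i + s) (k - s) = sq v i k := by
    intro k hk
    rw [sq_add]
    congr 1
    omega
  have hgap' : IsGap (Sees v) (i + s) (l - s) (c + 1 - s) := by
    refine ⟨by omega, by omega, by omega, ?_, ?_, ?_⟩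
    · rw [sees_sq (by omega) (by omega), e00, hsub l (by omega)]
      exact hl.2
    · rw [sees_sq (by omega) (by omega), e00, hsub _ (by omega)]
      exact hsa'
    · intro m hm1 hm2 hm3
      rw [sees_sq (by omega) (by omega), e00, sq_add] at hm3
      have := hlmax (s + m) (Finset.mem_filter.2 ⟨Finset.mem_Ioo.2 ⟨by omega, by omega⟩, hm3⟩)
      omega
  obtain ⟨g, hg1, hg2, hg3⟩ := thrE_exists hv hgap'
  by_cases hgc : s + g = c
  · have e1 : i + (s : ZMod n) + (g : ZMod n) = i + c := by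
      rw [← hgc, Nat.cast_add, add_assoc]
    rw [e1] at hg3
    exact hg3
  · exfalso
    obtain ⟨-, -, b, hb, -, htb, -, hDb⟩ := good_sq (thrE_good hv hgap' hg1 hg2 hg3)
    rw [e00] at hDb
    rw [e00, hsub _ (by omega)] at htb
    rw [sq_add, sq_add, ← add_assoc] at hb
    have hDb' : segment ℝ (sq v i 0) b ⊆ reg (bd v) := seg_ext hsa hXW htb hD hDb
    have hb1 : b ≠ sq v i (s + g) := by
      rintro rfl
      exact hno' (s + g) (by omega) (by omega) hDb'
    have hb2 : b ≠ sq v i (s + g + 1) := by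
      rintro rfl
      exact hno' (s + g + 1) (by omega) (by omega) hDb'
    have hbo := mem_openSegment_of_ne_left_right (Ne.symm hb1) (Ne.symm hb2) hb
    have hE : SeesE v i (i + ((s + g : ℕ) : ZMod n)) := seesE_sq.2 ⟨b, hbo, hDb'⟩
    exact hgc (thrE_unique hv hg (by omega) (by omega) h1.le h2 (Or.inl hE) h)

theorem ve2_right {n : ℕ} {v : ZMod n → ℂ} (hv : IsSimple v) {i : ZMod n} {s t : ℕ}
    (hg : IsGap (Sees v) i s t) {c : ℕ} (h1 : s ≤ c) (h2 : c + 1 < t) (h : ThrE v i (i + c)) :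
    ThrE v (i + t) (i + c) ∧ (s < c → SeesE v (i + t) (i + c)) := by
  have h' := sp_sq hv i
  have hg0 := hg
  obtain ⟨hs0, hst, htn, hvs, hvt, hno⟩ := hg0
  have hn : 0 < n := by omega
  have hT : TT n (sq v i) = bd v := TT_sq hn i
  rw [sees_sq hs0 (by omega)] at hvs
  rw [sees_sq (by omega) htn] at hvt
  have hno' : ∀ m, s < m → m < t → ¬ segment ℝ (sq v i 0) (sq v i m) ⊆ reg (bd v) :=
    fun m h3 h4 h5 => hno m h3 h4 ((sees_sq (by omega) (by omega)).2 h5)
  obtain ⟨-, -, b', hb, -, htb, -, hD⟩ := good_sq (thrE_good hv hg h1 (by omega) h)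
  have e00 : sq v (i + t) 0 = sq v i t := by rw [sq_add, add_zero]
  have htb' : segment ℝ (sq v i t) b' ⊆ reg (bd v) :=
    ((convex_segment _ _).segment_subset htb (right_mem_segment ℝ _ _)).trans hD
  by_cases ho : b' ∈ openSegment ℝ (sq v i c) (sq v i (c + 1))
  · have hk : SeesE v (i + t) (i + c) := seesE_at.2 ⟨b', ho, htb'⟩
    exact ⟨Or.inl hk, fun _ => hk⟩
  have hbc : b' ≠ sq v i (c + 1) := by
    rintro rfl
    exact hno' (c + 1) (by omega) h2 hD
  have hb1 : b' = sq v i c := by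
    by_contra hne
    exact ho (mem_openSegment_of_ne_left_right (Ne.symm hne) (Ne.symm hbc) hb)
  rw [hb1] at hD htb htb'
  have hcs : c = s := by
    by_contra hne
    exact hno' c (by omega) (by omega) hD
  subst hcs
  refine ⟨?_, fun h3 => absurd h3 (lt_irrefl _)⟩
  have hXW : sq v i t ≠ sq v i c := fun he => by
    have := h'.inj t c htn (by omega) he
    omega
  have hnE : ¬ SeesE v i (i + c) := by
    rw [seesE_sq]
    rintro ⟨z, hz, hvz⟩
    obtain ⟨m, hm1, hm2⟩ := crossC h' (by omega : c < n) (openSegment_subset_segment ℝ _ _ hz)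
      (by rw [hT]; exact hvz) (convex_segment (sq v i t) (sq v i c)).isPreconnected
      (by rw [hT]; exact htb') (right_mem_segment ℝ _ _)
      (tr_chA.2 (Or.inr (left_mem_segment ℝ _ _))) (left_mem_segment ℝ _ _)
      (tr_chB.2 (Or.inr ⟨t, by omega, htn, left_mem_segment ℝ _ _⟩))
    have hmP : m ≠ sq v i 0 := by
      rintro rfl
      have h3 := (wbtw_swap_left_iff ℝ _).1
        ⟨mem_segment_iff_wbtw.1 htb, mem_segment_iff_wbtw.1 hm1⟩
      have := h'.inj 0 t hn htn h3
      omega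
    have hmW : m ∈ segment ℝ (sq v i 0) (sq v i c) :=
      (convex_segment _ _).segment_subset htb (right_mem_segment ℝ _ _) hm1
    have hdet := det_edge hz (Or.inr (det_ray hmW hm2 hmP))
    refine hno' (c + 1) (by omega) h2 ?_
    rw [← hT]
    exact (along_edge h' (by omega) hz (by rw [hT]; exact hvz) hdet).2
  classical
  obtain ⟨l, hl, hlmin⟩ : ∃ l ∈ (Finset.Ioo c t).filter fun m =>
      segment ℝ (sq v i t) (sq v i m) ⊆ reg (bd v), ∀ m ∈ (Finset.Ioo c t).filter fun m =>
      segment ℝ (sq v i t) (sq v i m) ⊆ reg (bd v), l ≤ m := by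
    have hS : ((Finset.Ioo c t).filter fun m =>
        segment ℝ (sq v i t) (sq v i m) ⊆ reg (bd v)).Nonempty := by
      refine ⟨t - 1, Finset.mem_filter.2 ⟨Finset.mem_Ioo.2 ⟨by omega, by omega⟩, ?_⟩⟩
      intro x hx
      rw [← hT]
      refine (jordan h').sub (mem_TT.2 ⟨t - 1, by omega, ?_⟩)
      have e1 : t - 1 + 1 = t := by omega
      rw [e1, segment_symm]
      exact hx
    exact ⟨_, Finset.min'_mem _ hS, fun m hm => Finset.min'_le _ m hm⟩
  rw [Finset.mem_filter, Finset.mem_Ioo] at hl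
  have hsub : ∀ k, k < t → sq v (i + t) (n + k - t) = sq v i k := by
    intro k hk
    rw [sq_add, ← sq_per v i k]
    congr 1
    omega
  have hgap' : IsGap (Sees v) (i + t) (n + c - t) (n + l - t) := by
    refine ⟨by omega, by omega, by omega, ?_, ?_, ?_⟩
    · rw [sees_sq (by omega) (by omega), e00, hsub c (by omega)]
      exact htb'
    · rw [sees_sq (by omega) (by omega), e00, hsub l (by omega)]
      exact hl.2
    · intro m hm1 hm2 hm3
      have e1 : m = n + (m + t - n) - t := by omega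
      rw [e1, sees_sq (by omega) (by omega), e00, hsub _ (by omega)] at hm3
      have := hlmin (m + t - n) (Finset.mem_filter.2 ⟨Finset.mem_Ioo.2 ⟨by omega, by omega⟩, hm3⟩)
      omega
  obtain ⟨g', hg1, hg2, hg3⟩ := thrE_exists hv hgap'
  obtain ⟨g, rfl⟩ : ∃ g, g' = n + g - t := ⟨g' + t - n, by omega⟩
  have e2 : i + (t : ZMod n) + ((n + g - t : ℕ) : ZMod n) = i + g := by
    rw [Nat.cast_sub (by omega), Nat.cast_add, ZMod.natCast_self]
    ring
  have hgt : c ≤ g ∧ g < l := by omega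
  by_cases hgc : g = c
  · rw [e2, hgc] at hg3
    exact hg3
  · exfalso
    obtain ⟨a, ha, -, -, hta, -, hDa, -⟩ := good_sq (thrE_good hv hgap' hg1 hg2 hg3)
    rw [e00] at hDa
    rw [e00, hsub _ (by omega)] at hta
    have e3 : n + g - t + 1 = n + (g + 1) - t := by omega
    rw [e3, hsub g (by omega), hsub (g + 1) (by omega)] at ha
    have hDa' : segment ℝ (sq v i 0) a ⊆ reg (bd v) := seg_ext htb hXW hta hD hDa
    have ha1 : a ≠ sq v i g := by
      rintro rfl
      exact hno' g (by omega) (by omega) hDa'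
    have ha2 : a ≠ sq v i (g + 1) := by
      rintro rfl
      exact hno' (g + 1) (by omega) (by omega) hDa'
    have hao := mem_openSegment_of_ne_left_right (Ne.symm ha1) (Ne.symm ha2) ha
    have hE : SeesE v i (i + g) := seesE_sq.2 ⟨a, hao, hDa'⟩
    exact hgc (thrE_unique hv hg (by omega) (by omega) h1 (by omega) (Or.inl hE) h)

end VisMap
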