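import Pool.Agent.Lib.MP_9f3af0_lc.Geo
import Pool.Agent.Lib.MP_9f3af0_lc.ThrV
import Pool.Agent.Lib.MP_9f3af0_lc.VeOne
import Pool.Agent.Lib.MP_9f3af0_lc.VeTwo

/-!
# The vertex-edge structure of a polygon

`rel`: `geo`.  `thr`, `thr_unique`, `t_e`: `ThrV.lean`.  `e_t`: the first alternative of `ThrE`.
`ve1l`: vertices: `nc_left` with `a'` from `thrE_good`; edges: `ve1_left`: `[v i, z]` is not in `reg` for `z` in the
open edge `d`, `s ≤ d < c`, because otherwise `d` would be a threshold edge (`SeesE`), `d = c` by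
`thrE_unique`.  `ve1r` in the same way (`nc_right`, `ve1_right`).  `ve2l`, `ve2r`: `VeTwo.lean`.
-/

namespace VisMap

private theorem sq_zero' {n : ℕ} (v : ZMod n → ℂ) (i : ZMod n) : sq v i 0 = v i := by
  unfold sq
  rw [Nat.cast_zero, add_zero]

private theorem sq_succ' {n : ℕ} (v : ZMod n → ℂ) (i : ZMod n) (d : ℕ) :
    sq v i (d + 1) = v (i + d + 1) := by
  unfold sq
  rw [Nat.cast_add, Nat.cast_one, add_assoc]

private theorem not_seg {n : ℕ} {v : ZMod n → ℂ} {i : ZMod n} {s t : ℕ}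
    (hg : IsGap (Sees v) i s t) (m : ℕ) (h1 : s < m) (h2 : m < t) :
    ¬ segment ℝ (sq v i 0) (sq v i m) ⊆ reg (bd v) := by
  intro h
  obtain ⟨h0, h3, h4, -, -, h5⟩ := hg
  refine h5 m h1 h2 ⟨?_, ?_⟩
  · intro he
    have h6 : ((m : ℕ) : ZMod n) = 0 := by
      have h7 : i + 0 = i + (m : ZMod n) := by rw [add_zero]; exact he
      exact (add_left_cancel h7).symm
    rw [ZMod.natCast_eq_zero_iff] at h6
    have := Nat.le_of_dvd (by omega) h6
    omega
  · rw [sq_zero'] at h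
    exact h

private theorem not_segE {n : ℕ} {v : ZMod n → ℂ} (hv : IsSimple v) {i : ZMod n} {s t : ℕ}
    (hg : IsGap (Sees v) i s t) {c d : ℕ} (h1 : s ≤ c) (h2 : c < t) (h : ThrE v i (i + c))
    (h3 : s ≤ d) (h4 : d < t) (hne : d ≠ c) {z : ℂ}
    (hz : z ∈ openSegment ℝ (sq v i d) (sq v i (d + 1))) :
    ¬ segment ℝ (sq v i 0) z ⊆ reg (bd v) := by
  intro h5
  rw [sq_zero'] at h5
  rw [sq_succ'] at hz
  exact hne (thrE_unique hv hg h3 h4 h1 h2 (Or.inl ⟨z, hz, h5⟩) h)

theorem geoE {n : ℕ} {v : ZMod n → ℂ} (hv : IsPolygon v) :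
    VisE (Sees v) (SeesE v) (ThrE v) := by
  have hs := hv.simple
  refine ⟨geo hv, fun i s t hg => thrE_exists hs hg, fun i s t hg c c' h1 h2 h1' h2' h h' =>
    thrE_unique hs hg h1 h2 h1' h2' h h', fun i c _ _ h => Or.inl h,
    fun i s t hg c h1 h2 h => thrE_or hs hg h1 h2 h, ?_, ?_,
    fun i s t hg c h1 h2 h => ve2_left hs hg h1 h2 h,
    fun i s t hg c h1 h2 h => ve2_right hs hg h1 h2 h⟩
  · intro i s t hg c h1 h2 h x hx
    obtain ⟨a', ha, b', hb, hsa, htb, hD⟩ := thrE_good hs hg h1 h2 h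
    have hs0 : 0 < s := hg.1
    have ht : t < n := hg.2.2.1
    have ha' : a' ∈ segment ℝ (sq v i c) (sq v i (c + 1)) := ha
    have hsa' : sq v i s ∈ segment ℝ (sq v i 0) a' := by
      rw [sq_zero']
      exact hsa
    have hD' : segment ℝ (sq v i 0) a' ⊆ reg (bd v) := by
      rw [sq_zero']
      refine Set.Subset.trans ?_ hD
      exact (convex_convexHull ℝ _).segment_subset (subset_convexHull ℝ _ (by simp))
        (subset_convexHull ℝ _ (by simp))
    refine ⟨fun y hy hyc hR => ?_, fun d hsd hdc hE => ?_⟩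
    · exact nc_left hs hs0 h1 h2 ht ha' hsa' hD' (not_seg hg) hx hy hyc hR.2
    · obtain ⟨z, hz, hz2⟩ := hE
      rw [← sq_succ' v i d] at hz
      exact ve1_left hs hs0 hsd hdc (by omega) ha' hsa' hD' hz
        (not_segE hs hg h1 h2 h hsd (by omega) (by omega) hz) hx hz2
  · intro i s t hg c h1 h2 h x hx hxn
    obtain ⟨a', ha, b', hb, hsa, htb, hD⟩ := thrE_good hs hg h1 h2 h
    have hs0 : 0 < s := hg.1
    have ht : t < n := hg.2.2.1
    have hb' : b' ∈ segment ℝ (sq v i c) (sq v i (c + 1)) := hb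
    have htb' : sq v i t ∈ segment ℝ (sq v i 0) b' := by
      rw [sq_zero']
      exact htb
    have hD' : segment ℝ (sq v i 0) b' ⊆ reg (bd v) := by
      rw [sq_zero']
      refine Set.Subset.trans ?_ hD
      exact (convex_convexHull ℝ _).segment_subset (subset_convexHull ℝ _ (by simp))
        (subset_convexHull ℝ _ (by simp))
    refine ⟨fun y hy hyc hR => ?_, fun d hsd hdc hE => ?_⟩
    · exact nc_right hs hs0 h1 h2 ht hb' htb' hD' (not_seg hg) hx hxn hy hyc hR.2
    · obtain ⟨z, hz, hz2⟩ := hE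
      rw [← sq_succ' v i d] at hz
      exact ve1_right hs (by omega) hsd hdc ht hb' htb' hD' hz
        (not_segE hs hg h1 h2 h (by omega) hdc (by omega) hz) hx hxn hz2

end VisMap
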