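import Pool.Agent.Lib.MP_9f3af0_lc.NRed

/-!
# MP_9f3af0_lc: fat rectangles have both sides shorter than the longest first or last gap (helper74)

`false_of_JB`: in the setting `FM n k r A B` some first or last gap hides more than `B` vertices.
Otherwise every gap of `0` beyond `B` is hidden from behind, all vertices of `[-A, 0)` see `0`,
everything that `-k` sees in `(B, n - k)` is seen by `0`, and `0` sees more vertices than `-k`.
-/

namespace VisMap

namespace FMax

open Cut Laps

variable {n : ℕ} {k A B : ℤ} {r : ℤ → ℤ → Prop}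

open Classical in
/-- The number of vertices seen by `v`. -/
noncomputable def dg (n : ℕ) (r : ℤ → ℤ → Prop) (v : ℤ) : ℕ :=
  ((Finset.Ioo v (v + n)).filter fun z => r v z).card

/-- Matching vertices see the same number of vertices. -/
theorem dg_eq {v w : ℤ} (h : Match k (Fw n r v) (Fw n r w)) : dg n r w = dg n r v := by
  classical
  obtain ⟨φ, h1, h2, h3, h4⟩ := h
  have key : ∀ z, z ∈ ((Finset.Ioo v (v + n)).filter fun z => r v z) → Fw n r v (z - v) := by
    intro z hz
    rw [Finset.mem_filter, Finset.mem_Ioo] at hz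
    have e : v + (z - v) = z := by ring
    exact ⟨by omega, by omega, by rw [e]; exact hz.2⟩
  unfold dg
  symm
  refine Finset.card_bij (fun z _ => w + φ (z - v)) ?_ ?_ ?_
  · intro z hz
    have h5 := h1 _ (key z hz)
    rw [Finset.mem_filter, Finset.mem_Ioo]
    exact ⟨⟨by have := h5.1; omega, by have := h5.2.1; omega⟩, h5.2.2⟩
  · intro a ha b hb hab
    have h5 : φ (a - v) = φ (b - v) := by simpa using hab
    rcases lt_trichotomy a b with hl | hl | hl
    · have := h3 _ _ (key a ha) (key b hb) (by omega)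
      omega
    · exact hl
    · have := h3 _ _ (key b hb) (key a ha) (by omega)
      omega
  · intro z hz
    rw [Finset.mem_filter, Finset.mem_Ioo] at hz
    have e : w + (z - w) = z := by ring
    obtain ⟨o, o1, o2⟩ := h4 (z - w) ⟨by omega, by omega, by rw [e]; exact hz.2⟩
    refine ⟨v + o, ?_, ?_⟩
    · rw [Finset.mem_filter, Finset.mem_Ioo]
      exact ⟨⟨by have := o1.1; omega, by have := o1.2.1; omega⟩, o1.2.2⟩
    · have e3 : v + o - v = o := by ring
      show w + φ (v + o - v) = z
      rw [e3, o2]
      ring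

/-- Every gap of `0` beyond `B` is hidden from behind. -/
theorem FM.pure (h : FM n k r A B) (hJ : JB n 1 (B + 2) r) {z : ℤ} (z1 : B < z) (z2 : z < n)
    (hz : ¬ r 0 z) : ∃ s t, B < s ∧ s < z ∧ z < t ∧ t < n ∧ r 0 t ∧
      (∀ m, s < m → m < t → ¬ r 0 m) ∧ ∀ x y, t < x → x ≤ n → s < y → y < t → ¬ r x y := by
  have hk2 := h.k2
  have hkB := h.kB
  have hU := h.U
  have hl : r 0 (n - 1) := by
    have := last h.z 0
    have e : 0 + (n : ℤ) - 1 = n - 1 := by ring
    rwa [e] at this
  have z3 : B + 1 < z := by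
    rcases (show B + 1 ≤ z by omega).lt_or_eq with h1 | h1
    · exact h1
    · rw [← h1] at hz; exact (hz hU).elim
  have z4 : z < n - 1 := by
    rcases (show z ≤ n - 1 by omega).lt_or_eq with h1 | h1
    · exact h1
    · rw [h1] at hz; exact (hz hl).elim
  obtain ⟨s, s1, s2, s3, s4⟩ := exists_last (p := fun y => r 0 y) (a := B + 1) (b := z) (by omega) hU
  obtain ⟨t, t1, t2, t3, t4⟩ := exists_first (p := fun y => r 0 y) (a := z) (b := n - 1) (by omega) hl
  have s5 : s < z := by
    rcases s2.lt_or_eq with h1 | h1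
    · exact h1
    · rw [h1] at s3; exact (hz s3).elim
  have t5 : z < t := by
    rcases t1.lt_or_eq with h1 | h1
    · exact h1
    · rw [← h1] at t3; exact (hz t3).elim
  have hgap : ∀ m, s < m → m < t → ¬ r 0 m := by
    intro m m1 m2
    rcases le_or_gt m z with h1 | h1
    · exact s4 m m1 h1
    · exact t4 m h1.le m2
  obtain ⟨c, hg, -, -⟩ := exists_thr h.z (by omega) (show B < s by omega) (by omega) (by omega)
    s3 t3 hgap
  have hc := hg.empty h.z.symm hJ (by omega)
  refine ⟨s, t, by omega, s5, t5, by omega, t3, hgap, fun x y x1 x2 y1 y2 =>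
    hg.hQ x y x1 x2 (by omega) y2⟩

/-- All vertices of `[-A, 0)` see `0`. -/
theorem FM.sees (h : FM n k r A B) (hJ : JB n 1 (B + 2) r) {v : ℤ} (v1 : -A ≤ v) (v2 : v < 0) :
    r v 0 := by
  have hk2 := h.k2
  have hkB := h.kB
  have hAB := h.le
  have hz := ZR.of_zRel h.z
  have e : ∀ a b, r (a - n) b ↔ r a b := fun a b => by
    rw [← h.z.per, sub_add_cancel]
  by_contra hno
  have h1 : ¬ r 0 (v + n) := fun h2 => hno (h.z.symm _ _ ((hz.perR _ _).1 h2))
  obtain ⟨s, t, s1, s2, t1, t2, t3, t4, t5⟩ := h.pure hJ (by omega) (by omega) h1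
  obtain ⟨m, m1, m2, m3, m4⟩ := hJ.1 (t - 1 - n)
  rcases le_or_gt m 0 with h5 | h5
  · exact t5 (m + n) (t - 1) (by omega) (by omega) (by omega) (by omega)
      ((h.z.per m (t - 1)).2 (h.z.symm _ _ ((e _ _).1 m4)))
  · exact h.rect (t - 1 - n) m (by omega) (by omega) h5 (by omega) m4

/-- Some first or last gap hides more than `B` vertices. -/
theorem FM.false_of_JB (h : FM n k r A B) (hw : Match k (Fw n r 0) (Fw n r (-k)))
    (hJ : JB n 1 (B + 2) r) : False := by
  classical
  have hk2 := h.k2
  have hkB := h.kB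
  have hkA := h.kA
  have hAB := h.le
  have hz := ZR.of_zRel h.z
  have hsee : ∀ v, -A - 1 ≤ v → v < 0 → r 0 (v + n) := by
    intro v v1 v2
    refine (hz.perR _ _).2 (h.z.symm _ _ ?_)
    rcases v1.lt_or_eq with v1 | v1
    · exact h.sees hJ (by omega) v2
    · rw [← v1]; exact h.T
  -- the inclusion
  have hsub : ∀ a, B < a → a < n - k → r (-k) a → r 0 a := by
    intro a a1 a2 a3
    by_contra hno
    obtain ⟨s, t, s1, s2, t1, t2, t3, t4, t5⟩ := h.pure hJ a1 (by omega) hno
    have h1 : r 0 (n - k - 1) := by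
      have := hsee (-k - 1) (by omega) (by omega)
      have e : -k - 1 + (n : ℤ) = n - k - 1 := by ring
      rwa [e] at this
    have h2 : t ≤ n - k - 1 := by
      by_contra hlt
      rcases (show a ≤ n - k - 1 by omega).lt_or_eq with h3 | h3
      · exact t4 (n - k - 1) (by omega) (by omega) h1
      · rw [← h3] at h1; exact hno h1
    refine t5 (n - k) a (by omega) (by omega) s2 t1 ?_
    have := (h.z.per (-k) a).2 a3
    have e : -k + (n : ℤ) = n - k := by ring
    rwa [e] at this
  -- the count
  set W := (Finset.Ioo B (n - k)).filter fun z => r 0 z with hW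
  have c1 : dg n r (-k) ≤ k.toNat + W.card := by
    have h1 : ((Finset.Ioo (-k) (-k + n)).filter fun z => r (-k) z) ⊆ Finset.Ioc (-k) 0 ∪ W := by
      intro z hz
      rw [Finset.mem_filter, Finset.mem_Ioo] at hz
      rw [Finset.mem_union, Finset.mem_Ioc, hW, Finset.mem_filter, Finset.mem_Ioo]
      rcases le_or_gt z 0 with h2 | h2
      · exact Or.inl ⟨by omega, h2⟩
      · have h3 : B < z := by
          by_contra hlt
          exact h.rect (-k) z (by omega) (by omega) h2 (by omega) hz.2
        exact Or.inr ⟨⟨h3, by omega⟩, hsub z h3 (by omega) hz.2⟩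
    have h2 := Finset.card_le_card h1
    have h3 := Finset.card_union_le (Finset.Ioc (-k) 0) W
    rw [Int.card_Ioc] at h3
    have e : (0 - -k) = k := by ring
    rw [e] at h3
    unfold dg
    omega
  have c2 : k.toNat + W.card + 1 ≤ dg n r 0 := by
    have h1 : insert 1 (Finset.Ico ((n : ℤ) - k) n ∪ W) ⊆
        ((Finset.Ioo (0 : ℤ) (0 + n)).filter fun z => r 0 z) := by
      intro z hz
      rw [Finset.mem_insert, Finset.mem_union, Finset.mem_Ico, hW, Finset.mem_filter,
        Finset.mem_Ioo] at hz
      rw [Finset.mem_filter, Finset.mem_Ioo]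
      rcases hz with hz | hz | hz
      · refine ⟨by omega, ?_⟩
        have := h.z.succ 0
        rw [zero_add] at this
        rwa [hz]
      · refine ⟨by omega, ?_⟩
        have := hsee (z - n) (by omega) (by omega)
        rwa [sub_add_cancel] at this
      · exact ⟨by omega, hz.2⟩
    have h2 := Finset.card_le_card h1
    have h3 : Disjoint (Finset.Ico ((n : ℤ) - k) n) W := by
      rw [Finset.disjoint_left]
      intro z z1 z2
      rw [Finset.mem_Ico] at z1
      rw [hW, Finset.mem_filter, Finset.mem_Ioo] at z2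
      omega
    rw [Finset.card_insert_of_notMem (by
      rw [Finset.mem_union, Finset.mem_Ico, hW, Finset.mem_filter, Finset.mem_Ioo]
      omega), Finset.card_union_of_disjoint h3, Int.card_Ico] at h2
    have e : ((n : ℤ) - (n - k)) = k := by ring
    rw [e] at h2
    exact h2
  have c3 := dg_eq hw
  omega

/-- Every fat rectangle is shorter than some first or last gap. -/
theorem FM.notJB (h : FM n k r A B) (hw : Wd n k r) : ¬ JB n 1 (B + 2) r :=
  fun hJ => h.false_of_JB (hw 0 (-k) (by simp)) hJ

end FMax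

end VisMap
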