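import Pool.Agent.Lib.MP_9f3af0_lc.Pocket2
import Pool.Agent.Lib.MP_9f3af0_lc.FatEar

/-!
# MP_9f3af0_lc: all parts of gaps are near (helper47, after helper44, paper 734)

`JB n 1 J r` says that all first and all last gaps hide at most `J - 2` vertices.  Then the near end
of every nonempty part of every gap is at distance at most `J - 2` from the viewer (`lp_near`,
`rp_near`), and a two-sided gap of `v` (`TS`) contains everything between `v + (J - 2)` and
`v + n - (J - 2)` (`TS.near`, `TS.far`); so there is at most one if `2 * (J - 2) < n` (`TS.unique`),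
and its length is at least `n - 2 * (J - 2)` (`TS.len`).
-/

namespace VisMap

namespace Cut

variable {n : ℕ} {k J : ℤ} {r : ℤ → ℤ → Prop}

/-- The near end of a forward part of a gap is at distance at most `J - 2`. -/
theorem part_near (hJ : JB n 1 J r) (hsy : ∀ a b, r a b → r b a) {v s : ℤ}
    (hid : ∀ x, v ≤ x → x < s → ¬ r x (s + 1)) : s - v ≤ J - 2 := by
  obtain ⟨m, m1, m2, m3, m4⟩ := hJ.2 (s + 1)
  by_contra hc
  exact hid m (by omega) (by omega) (hsy _ _ m4)

/-- The near end of a backward part of a gap is at distance at most `J - 2`. -/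
theorem part_near' (hJ : JB n 1 J r) {v t : ℤ} (hid : ∀ x, t < x → x ≤ v → ¬ r (t - 1) x) : v - t ≤ J - 2 := by
  obtain ⟨m, m1, m2, m3, m4⟩ := hJ.1 (t - 1)
  by_contra hc
  exact hid m (by omega) (by omega) m4

theorem lp_near (hz : ZRel n r) (hJ : JB n 1 J r) {v p c : ℤ} (hP : LP n r v p c) :
    p - v ≤ J - 2 :=
  part_near hJ hz.symm fun x h1 h2 =>
    hP.hid x (p + 1) h1 h2 (by omega) (by have := hP.pc; omega)

theorem rp_near (hz : ZRel n r) (hJ : JB n 1 J r) {v p c : ℤ} (hP : RP n r v p c) :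
    v - p ≤ J - 2 :=
  part_near' hJ fun x h1 h2 h3 =>
    hP.hid x (p - 1) h1 h2 (by have := hP.cp; omega) (by omega) (hz.symm _ _ h3)

/-- `(s, t)` is a two-sided gap of `v` with threshold `c`: the part `(s, c]` is hidden from `[v, s)`,
the part `(c, t)` is hidden from `(t, v + n]`, and both are nonempty. -/
structure TS (n : ℕ) (r : ℤ → ℤ → Prop) (v s c t : ℤ) : Prop where
  vs : v < s
  sc : s < c
  ct : c + 1 < t
  tn : t < v + n
  vis₁ : r v s
  vis₂ : r v t
  hid₁ : ∀ x y, v ≤ x → x < s → s < y → y ≤ c → ¬ r x y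
  hid₂ : ∀ x y, t < x → x ≤ v + n → c < y → y < t → ¬ r x y

theorem TS.hid (hz : ZRel n r) {v s c t : ℤ} (h : TS n r v s c t) {m : ℤ} (h1 : s < m)
    (h2 : m < t) : ¬ r v m := by
  rcases le_or_gt m c with hm | hm
  · exact h.hid₁ v m le_rfl h.vs h1 hm
  · intro h3
    exact h.hid₂ (v + n) m h.tn le_rfl hm h2 ((hz.per v m).2 h3)

theorem TS.near (hz : ZRel n r) (hJ : JB n 1 J r) {v s c t : ℤ} (h : TS n r v s c t) :
    s - v ≤ J - 2 :=
  part_near hJ hz.symm fun x h1 h2 =>
    h.hid₁ x (s + 1) h1 h2 (by omega) (by have := h.sc; omega)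

theorem TS.far (hz : ZRel n r) (hJ : JB n 1 J r) {v s c t : ℤ} (h : TS n r v s c t) :
    v + n - t ≤ J - 2 :=
  part_near' hJ fun x h1 h2 h3 =>
    h.hid₂ x (t - 1) h1 h2 (by have := h.ct; omega) (by omega) (hz.symm _ _ h3)

theorem TS.len (hz : ZRel n r) (hJ : JB n 1 J r) {v s c t : ℤ} (h : TS n r v s c t) :
    n - 2 * (J - 2) ≤ t - s := by
  have := h.near hz hJ
  have := h.far hz hJ
  omega

/-- Two two-sided gaps of a vertex are equal. -/
theorem TS.unique (hz : ZRel n r) (hJ : JB n 1 J r) (hn : 2 * (J - 2) < n) {v s c t s' c' t' : ℤ}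
    (h : TS n r v s c t) (h' : TS n r v s' c' t') : s = s' ∧ t = t' := by
  have a1 := h.near hz hJ
  have a2 := h.far hz hJ
  have b1 := h'.near hz hJ
  have b2 := h'.far hz hJ
  have hs : s = s' := by
    rcases lt_trichotomy s s' with hl | hl | hl
    · exact (h.hid hz (m := s') hl (by omega) h'.vis₁).elim
    · exact hl
    · exact (h'.hid hz (m := s) hl (by omega) h.vis₁).elim
  have ht : t = t' := by
    rcases lt_trichotomy t t' with hl | hl | hl
    · exact (h'.hid hz (m := t) (by omega) hl h.vis₂).elim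
    · exact hl
    · exact (h.hid hz (m := t') (by omega) hl h'.vis₂).elim
  exact ⟨hs, ht⟩

/-- A gap is hidden to one side or two-sided. -/
theorem gap_cases (hz : ZRel n r) {v s t : ℤ} (h1 : v < s) (h2 : s + 1 < t) (h3 : t < v + n)
    (hs : r v s) (ht : r v t) (hm : ∀ m, s < m → m < t → ¬ r v m) :
    (∀ x y, v ≤ x → x < s → s < y → y < t → ¬ r x y) ∨
      (∀ x y, t < x → x ≤ v + n → s < y → y < t → ¬ r x y) ∨ ∃ c, TS n r v s c t := by
  obtain ⟨c, c1, c2, c3, c4⟩ := hz.nc v s t h1 (by omega) h3 hs ht hm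
  rcases eq_or_lt_of_le c1 with hc | hc
  · right; left
    intro x y x1 x2 y1 y2
    exact c4 x y x1 x2 (by omega) y2
  · rcases lt_or_ge (c + 1) t with hc' | hc'
    · exact Or.inr (Or.inr ⟨c, h1, hc, hc', h3, hs, ht, c3, c4⟩)
    · left
      intro x y x1 x2 y1 y2
      exact c3 x y x1 x2 y1 (by omega)

/-- If the first and the last gaps are short then a two-sided gap is long. -/
theorem TS.false_of_len (hz : ZRel n r) (hJ : JB n 1 J r) {v s c t m : ℤ} (h : TS n r v s c t)
    (hl : t - s ≤ m) (hn : 2 * (J - 2) + m < n) : False := by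
  have := h.len hz hJ
  omega

/-- The mirror image of a two-sided gap. -/
theorem TS.mirror (hz : ZRel n r) {v s c t : ℤ} (h : TS n r v s c t) :
    TS n (VisMap.mirror r) (-(v + n)) (-t) (-c - 1) (-s) := by
  obtain ⟨h1, h2, h3, h4, h5, h6, h7, h8⟩ := h
  have e : ∀ a b, VisMap.mirror r a b ↔ r (-a) (-b) := fun a b => Iff.rfl
  refine ⟨by omega, by omega, by omega, by omega, ?_, ?_, ?_, ?_⟩
  · rw [e, neg_neg, neg_neg]
    exact (hz.per _ _).2 h6
  · rw [e, neg_neg, neg_neg]
    exact (hz.per _ _).2 h5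
  · intro x y x1 x2 y1 y2 hxy
    rw [e] at hxy
    exact h8 (-x) (-y) (by omega) (by omega) (by omega) (by omega) hxy
  · intro x y x1 x2 y1 y2 hxy
    rw [e] at hxy
    exact h7 (-x) (-y) (by omega) (by omega) (by omega) (by omega) hxy

end Cut

end VisMap
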