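import Pool.Agent.Lib.MP_9f3af0_lc.ParLoc

/-!
# The crossing parity vanishes on unbounded connected sets

Let `tr L ⊆ closedBall 0 R`, `R > 0` (`isBounded_tr`).
`par_high`: if `R < z.im` then `par L z = 0`, because each `cr a b z = 0`: for `a.re ≤ z.re < b.re` one has
`det (b - a) (z - a) = (b.re - a.re) (z.im - a.im) - (b.im - a.im) (z.re - a.re) > 0`: this is
`(b.re - z.re) (z.im - a.im) + (z.re - a.re) (z.im - b.im)` with all factors nonnegative and the first
product positive (`a, b ∈ tr L` have `im ≤ R < z.im`).  Symmetric for `b.re ≤ z.re < a.re`.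
`par_far`: if `R < ‖z‖` then `par L z = 0`.  The half-plane `H = {x | R * ‖z‖ < (x * conj z).re}` is convex,
contains `z` and misses the ball (Cauchy-Schwarz).  Put `y = z + s` if `0 ≤ z.re` and `y = z - s` if
`z.re < 0` with `s = R + 1 + |z.re|...` large: `y ∈ H` and `y` lies in the half-plane `{R < re}`
respectively `{re < -R}`, which is convex, misses the ball and contains `±(R+1) + (R+1) i`, where
`par_high` applies.  Use `par_const` on the three convex sets (`Convex.isPreconnected`).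
`par_unbdd`: an unbounded preconnected `K` off `tr L` contains a point `z` with `R < ‖z‖`; `par_const`.
-/

namespace VisMap

open Set

private theorem cr_high {a b z : ℂ} (ha : a.im < z.im) (hb : b.im < z.im) : cr a b z = 0 := by
  unfold cr
  rw [if_neg]
  rintro (⟨h1, h2, h3⟩ | ⟨h1, h2, h3⟩)
  · unfold det at h3
    simp only [Complex.sub_re, Complex.sub_im] at h3
    nlinarith [mul_nonneg (sub_nonneg.2 h1) (sub_nonneg.2 hb.le),
      mul_pos (sub_pos.2 h2) (sub_pos.2 ha)]
  · unfold det at h3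
    simp only [Complex.sub_re, Complex.sub_im] at h3
    nlinarith [mul_nonneg (sub_nonneg.2 h1) (sub_nonneg.2 ha.le),
      mul_pos (sub_pos.2 h2) (sub_pos.2 hb)]

private theorem par_high {L : List (ℂ × ℂ)} {R : ℝ} (hR : tr L ⊆ Metric.closedBall 0 R)
    {z : ℂ} (hz : R < z.im) : par L z = 0 := by
  have him : ∀ a ∈ tr L, a.im < z.im := by
    intro a ha
    have h1 : ‖a‖ ≤ R := by simpa using hR ha
    exact ((le_abs_self _).trans ((Complex.abs_im_le_norm a).trans h1)).trans_lt hz
  unfold par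
  refine List.sum_eq_zero ?_
  intro x hx
  obtain ⟨e, he, rfl⟩ := List.mem_map.1 hx
  exact cr_high (him _ ⟨e, he, left_mem_segment ℝ _ _⟩) (him _ ⟨e, he, right_mem_segment ℝ _ _⟩)

private theorem isPreconnected_far (R : ℝ) (hR : 0 ≤ R) : IsPreconnected {z : ℂ | R < ‖z‖} := by
  have hs : IsPreconnected (Metric.sphere (0 : ℂ) 1) :=
    isPreconnected_sphere (by rw [Complex.rank_real_complex]; exact_mod_cast Nat.one_lt_two) 0 1
  have hp : IsPreconnected ((Ioi R) ×ˢ (Metric.sphere (0 : ℂ) 1)) := isPreconnected_Ioi.prod hs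
  have himg : {z : ℂ | R < ‖z‖} = (fun p : ℝ × ℂ => (p.1 : ℂ) * p.2) ''
      ((Ioi R) ×ˢ (Metric.sphere (0 : ℂ) 1)) := by
    ext z
    simp only [mem_ofPred_eq, mem_image, mem_prod, mem_Ioi, mem_sphere_iff_norm, sub_zero,
      Prod.exists]
    constructor
    · intro hz
      have h0 : (‖z‖ : ℂ) ≠ 0 := by
        exact_mod_cast (hR.trans_lt hz).ne'
      refine ⟨‖z‖, z / ‖z‖, ⟨hz, ?_⟩, ?_⟩
      · rw [norm_div, Complex.norm_real, norm_norm]
        exact div_self (hR.trans_lt hz).ne'
      · field_simp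
    · rintro ⟨r, w, ⟨hr, hw⟩, rfl⟩
      rw [norm_mul, hw, mul_one, Complex.norm_real, Real.norm_eq_abs]
      exact hr.trans_le (le_abs_self r)
  rw [himg]
  exact hp.image _ (by fun_prop)

theorem par_far {L : List (ℂ × ℂ)} (hL : Closed L) {R : ℝ} (hR : tr L ⊆ Metric.closedBall 0 R)
    {z : ℂ} (hz : R < ‖z‖) : par L z = 0 := by
  rcases L with _ | ⟨e, L⟩
  · exact par_nil z
  have hR0 : 0 ≤ R := by
    have h1 : e.1 ∈ tr (e :: L) := ⟨e, List.mem_cons_self, left_mem_segment ℝ _ _⟩
    have h2 : ‖e.1‖ ≤ R := by simpa using hR h1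
    exact (norm_nonneg _).trans h2
  set y : ℂ := ((R + 1 : ℝ) : ℂ) * Complex.I with hy
  have hyim : R < y.im := by
    simp [hy]
  have hyn : R < ‖y‖ := hyim.trans_le ((le_abs_self _).trans (Complex.abs_im_le_norm y))
  have hd : Disjoint {z : ℂ | R < ‖z‖} (tr (e :: L)) := by
    rw [Set.disjoint_left]
    intro x hx hx2
    have h2 : ‖x‖ ≤ R := by simpa using hR hx2
    exact absurd hx (not_lt.2 h2)
  rw [par_const hL (isPreconnected_far R hR0) hd (show z ∈ {z : ℂ | R < ‖z‖} from hz)
    (show y ∈ {z : ℂ | R < ‖z‖} from hyn)]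
  exact par_high hR hyim

theorem par_unbdd {L : List (ℂ × ℂ)} (hL : Closed L) {K : Set ℂ} (hK : IsPreconnected K)
    (hd : Disjoint K (tr L)) (hu : ¬ Bornology.IsBounded K) {x : ℂ} (hx : x ∈ K) : par L x = 0 := by
  obtain ⟨R, hR⟩ := (isBounded_tr L).subset_closedBall (0 : ℂ)
  have : ∃ z ∈ K, R < ‖z‖ := by
    by_contra hcon
    push Not at hcon
    refine hu ((Metric.isBounded_closedBall (x := (0 : ℂ)) (r := R)).subset ?_)
    intro w hw
    simpa using hcon w hw
  obtain ⟨z, hzK, hz⟩ := this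
  rw [par_const hL hK hd hx hzK]
  exact par_far hL hR hz

end VisMap
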