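import Pool.Agent.Lib.MP_9f3af0_lc.Acc
import Pool.Agent.Lib.MP_9f3af0_lc.Flip
import Pool.Agent.Lib.MP_9f3af0_lc.ParFar

/-!
# The Jordan curve theorem for simple polygons (in the form of the structure `Jordan`)

Let `T = TT N u`, `P z = par (pc u 0 N) z`; `pc u 0 N` is closed (`closed_pc`).

Step 1 (`same_comp`): if `z, z' ∉ T` and `P z = P z'` then they have the same component.  Let `m` be the mid
point of `[u 0, u 1]`; `pc u 0 N = (u 0, u 1) :: pc u 1 N` and `m ∉ tr (pc u 1 N)` by `open_edge`.  By `flip` there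
are a ball `B` around `m` and `c` with `P = c + 1` on the left half disc `H+ = B ∩ {0 < det (u 1 - u 0) (x - u 0)}`
and `P = c` on the right one `H-`; make `B` so small that `B ∩ T ⊆ [u 0, u 1]` (other edges are closed and do
not contain `m`).  The half discs are convex and disjoint from `T`.  The component `K` of `z` accumulates
at `m` (`acc_all`), so it meets `B`; `K ∩ B` is off `T`; it is open, so it contains points off the line
`u 0 u 1` (in fact all points of `B` on the line are in `[u 0, u 1]` if `B` is small), that is, `K` meets `H+` or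
`H-`; `P` is constant `= P z` on `K` (`par_const`), so `K` meets `H+` if `P z = c + 1` and `H-` if `P z = c`.
The same holds for `z'`: both components meet (so contain) the same convex half disc, so they are equal.
Step 2: there is a point `z1` with `P z1 = 0` and unbounded component: take `R` with
`T ⊆ closedBall 0 R` (`isBounded_tr`); the half-plane `{R < im}` is convex, misses `T` and is unbounded;
it is contained in the component of its points, and `P = 0` there by `par_unbdd` (or `par_far`).
So `P z = 0`, `z ∉ T` implies: component of `z` unbounded, `z ∉ reg T`.  If `P z = 1` and `z ∉ T` then the component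
is bounded by `par_unbdd`, so `z ∈ reg T`.  (In `ZMod 2` every element is `0` or `1`.)
`sub`: for `z ∈ T` the set `connectedComponentIn Tᶜ z` is empty (`connectedComponentIn_eq_empty`).
`inn`, `out` follow (for `z ∉ reg T` we have `z ∉ T` by `sub`).
`acc`: the component of `z1` is contained in `(reg T)ᶜ` (all its points have the same component) and
accumulates at `t` (`acc_all`).  `accI`: one of the half discs at `m` has `P = 1`, so there is `z2 ∉ T` with
`P z2 = 1`, its component lies in `reg T \ T` and accumulates at `t`.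
`closed`: the complement of `reg T` is `{z ∉ T | P z = 0}`, open by `isOpen_par`.
`bdd`: `par_far`: for `R < ‖z‖` we have `z ∉ T`, `P z = 0`, so `z ∉ reg T`.
-/

namespace VisMap

open Set

open Metric Filter Topology

private theorem pc_cons' {N : ℕ} (u : ℕ → ℂ) (hN : 0 < N) : pc u 0 N = (u 0, u 1) :: pc u 1 N := by
  unfold pc
  rw [List.Ico.eq_cons hN]
  simp

private theorem det_add_smul (d x y : ℂ) (s t : ℝ) :
    det d (s • x + t • y) = s * det d x + t * det d y := by
  simp only [det, Complex.add_re, Complex.add_im, Complex.real_smul, Complex.mul_re, Complex.mul_im,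
    Complex.ofReal_re, Complex.ofReal_im]
  ring

private theorem det_self (d : ℂ) : det d d = 0 := by
  unfold det; ring

private theorem convex_left (d a : ℂ) : Convex ℝ {x | 0 < det d (x - a)} := by
  intro x hx y hy s t hs ht hst
  have hx' : 0 < det d (x - a) := hx
  have hy' : 0 < det d (y - a) := hy
  show 0 < det d (s • x + t • y - a)
  have e : s • x + t • y - a = s • (x - a) + t • (y - a) := by
    have : a = (s + t) • a := by rw [hst, one_smul]
    rw [smul_sub, smul_sub]
    nth_rewrite 1 [this]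
    rw [add_smul]; ring
  rw [e, det_add_smul]
  rcases hs.eq_or_lt with rfl | hs
  · have : t = 1 := by linarith
    rw [this]; simpa using hy'
  · have := mul_pos hs hx'
    have := mul_nonneg ht hy'.le
    linarith

private theorem convex_right (d a : ℂ) : Convex ℝ {x | det d (x - a) < 0} := by
  have h := convex_left (-d) a
  have e : {x | 0 < det (-d) (x - a)} = {x | det d (x - a) < 0} := by
    ext x
    show 0 < det (-d) (x - a) ↔ det d (x - a) < 0
    have : det (-d) (x - a) = - det d (x - a) := by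
      simp only [det, Complex.neg_re, Complex.neg_im]; ring
    rw [this, neg_pos]
  rwa [e] at h

/-- Points on the line through `a`, `b` near the mid point lie in the segment. -/
private theorem mem_seg_of_det {a b x : ℂ} (hab : a ≠ b) (h0 : det (b - a) (x - a) = 0)
    (hx : ‖x - (a + b) / 2‖ ≤ ‖b - a‖ / 2) : x ∈ segment ℝ a b := by
  have hd : b - a ≠ 0 := sub_ne_zero.2 hab.symm
  have hd2 : 0 < Complex.normSq (b - a) := Complex.normSq_pos.2 hd
  set t : ℝ := ((b - a).re * (x - a).re + (b - a).im * (x - a).im) / Complex.normSq (b - a) with ht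
  have hxt : x = a + (t : ℂ) * (b - a) := by
    have h1 : (b - a).re * (x - a).im - (b - a).im * (x - a).re = 0 := h0
    have hns : Complex.normSq (b - a) = (b - a).re * (b - a).re + (b - a).im * (b - a).im :=
      Complex.normSq_apply _
    have h2 : t * Complex.normSq (b - a) = (b - a).re * (x - a).re + (b - a).im * (x - a).im := by
      rw [ht]; exact div_mul_cancel₀ _ hd2.ne'
    rw [hns] at h2 hd2
    have key : (x - a) = (t : ℂ) * (b - a) := by
      apply Complex.ext
      · simp only [Complex.mul_re, Complex.ofReal_re, Complex.ofReal_im]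
        have : ((x - a).re - t * (b - a).re) *
            ((b - a).re * (b - a).re + (b - a).im * (b - a).im) = 0 := by
          linear_combination (-(b - a).im) * h1 - (b - a).re * h2
        rcases mul_eq_zero.1 this with h | h
        · linarith
        · exact absurd h hd2.ne'
      · simp only [Complex.mul_im, Complex.ofReal_re, Complex.ofReal_im]
        have : ((x - a).im - t * (b - a).im) *
            ((b - a).re * (b - a).re + (b - a).im * (b - a).im) = 0 := by
          linear_combination ((b - a).re) * h1 - (b - a).im * h2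
        rcases mul_eq_zero.1 this with h | h
        · linarith
        · exact absurd h hd2.ne'
    rw [← key]; ring
  have hnorm : x - (a + b) / 2 = ((t - 1 / 2 : ℝ) : ℂ) * (b - a) := by
    rw [hxt]; push_cast; ring
  rw [hnorm, norm_mul, Complex.norm_real, Real.norm_eq_abs] at hx
  have hpos : 0 < ‖b - a‖ := norm_pos_iff.2 hd
  have habs : |t - 1 / 2| ≤ 1 / 2 := by
    by_contra hc
    push Not at hc
    have := mul_lt_mul_of_pos_right hc hpos
    linarith
  rw [abs_le] at habs
  refine ⟨1 - t, t, by linarith [habs.2], by linarith [habs.1], by ring, ?_⟩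
  rw [hxt]
  simp only [Complex.real_smul]
  push_cast; ring

private theorem half_discs {N : ℕ} {u : ℕ → ℂ} (h : SP N u) :
    ∃ (Hp Hm : Set ℂ) (c : ZMod 2), IsPreconnected Hp ∧ IsPreconnected Hm ∧ Hp.Nonempty ∧
      Hm.Nonempty ∧ (∀ x ∈ Hp, x ∉ TT N u ∧ par (pc u 0 N) x = c + 1) ∧
      (∀ x ∈ Hm, x ∉ TT N u ∧ par (pc u 0 N) x = c) ∧
      ∀ z, z ∉ TT N u → (connectedComponentIn (TT N u)ᶜ z ∩ (Hp ∪ Hm)).Nonempty := by
  have hN : 3 ≤ N := h.three
  have hab : u 0 ≠ u 1 := fun e => by
    have := h.inj 0 1 (by omega) (by omega) e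
    omega
  set m : ℂ := (u 0 + u 1) / 2 with hm
  have hmo : m ∈ openSegment ℝ (u 0) (u 1) := by
    refine ⟨1 / 2, 1 / 2, by norm_num, by norm_num, by norm_num, ?_⟩
    rw [hm]; simp only [Complex.real_smul]; push_cast; ring
  have hL : pc u 0 N = (u 0, u 1) :: pc u 1 N := pc_cons' u (by omega)
  have hmtr : m ∉ tr (pc u 1 N) := by
    rw [mem_tr_pc]
    rintro ⟨k, hk1, hk2, hx⟩
    exact open_edge h (j := 0) (k := k) (by omega) hk2 (by omega) hmo hx
  have hmT : m ∈ TT N u := mem_TT.2 ⟨0, by omega, openSegment_subset_segment _ _ _ hmo⟩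
  obtain ⟨c, hc⟩ := flip (closed_pc h) (by rw [hL]) hmo hmtr
  have hev : ∀ᶠ z in 𝓝 m, (det (u 1 - u 0) (z - u 0) ≠ 0 →
      (0 < det (u 1 - u 0) (z - u 0) → par (pc u 0 N) z = c + 1) ∧
      (det (u 1 - u 0) (z - u 0) < 0 → par (pc u 0 N) z = c)) ∧ z ∉ tr (pc u 1 N) :=
    hc.and ((isClosed_tr _).isOpen_compl.mem_nhds hmtr)
  obtain ⟨ε0, hε0, hball0⟩ := Metric.eventually_nhds_iff_ball.1 hev
  have hd : u 1 - u 0 ≠ 0 := sub_ne_zero.2 hab.symm
  have hdn : 0 < ‖u 1 - u 0‖ := norm_pos_iff.2 hd
  set ε : ℝ := min ε0 (‖u 1 - u 0‖ / 2) with hε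
  have hεp : 0 < ε := lt_min hε0 (by positivity)
  have hball : ∀ z ∈ ball m ε, (det (u 1 - u 0) (z - u 0) ≠ 0 →
      (0 < det (u 1 - u 0) (z - u 0) → par (pc u 0 N) z = c + 1) ∧
      (det (u 1 - u 0) (z - u 0) < 0 → par (pc u 0 N) z = c)) ∧ z ∉ tr (pc u 1 N) :=
    fun z hz => hball0 z (ball_subset_ball (min_le_left _ _) hz)
  have hline : ∀ z ∈ ball m ε, det (u 1 - u 0) (z - u 0) = 0 → z ∈ TT N u := by
    intro z hz h0
    refine mem_TT.2 ⟨0, by omega, mem_seg_of_det hab h0 ?_⟩
    have : dist z m < ε := hz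
    rw [dist_eq_norm] at this
    exact (this.le).trans (min_le_right _ _)
  have hoff : ∀ z ∈ ball m ε, det (u 1 - u 0) (z - u 0) ≠ 0 → z ∉ TT N u := by
    intro z hz h0 hzT
    obtain ⟨k, hk, hzk⟩ := mem_TT.1 hzT
    rcases Nat.eq_zero_or_pos k with rfl | hk0
    · obtain ⟨s, t, hs, ht, hst, rfl⟩ := hzk
      refine h0 ?_
      have e : s • u 0 + t • u (0 + 1) - u 0 = (0 : ℝ) • (0 : ℂ) + t • (u 1 - u 0) := by
        have : s = 1 - t := by linarith
        rw [this]
        simp only [Complex.real_smul]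
        push_cast; ring
      rw [e, det_add_smul, det_self]; ring
    · exact (hball z hz).2 (mem_tr_pc.2 ⟨k, hk0, hk, hzk⟩)
  have hex : ∀ σ : ℝ, |σ| = 1 → ∃ z ∈ ball m ε, ∃ r : ℝ, 0 < r ∧
      det (u 1 - u 0) (z - u 0) = σ * r := by
    intro σ hσ
    refine ⟨m + ((σ * (ε / (2 * ‖u 1 - u 0‖)) : ℝ) : ℂ) * (Complex.I * (u 1 - u 0)), ?_,
      ε / (2 * ‖u 1 - u 0‖) * Complex.normSq (u 1 - u 0), ?_, ?_⟩
    · rw [mem_ball, dist_eq_norm, add_sub_cancel_left, norm_mul, norm_mul, Complex.norm_I, one_mul,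
        Complex.norm_real, Real.norm_eq_abs, abs_mul, hσ, one_mul, abs_of_pos (by positivity)]
      rw [div_mul_eq_mul_div, div_lt_iff₀ (by positivity)]
      nlinarith
    · have := Complex.normSq_pos.2 hd
      positivity
    · have e : m + ((σ * (ε / (2 * ‖u 1 - u 0‖)) : ℝ) : ℂ) * (Complex.I * (u 1 - u 0)) - u 0 =
          (1 / 2 : ℝ) • (u 1 - u 0) +
            (σ * (ε / (2 * ‖u 1 - u 0‖))) • (Complex.I * (u 1 - u 0)) := by
        rw [hm]; simp only [Complex.real_smul]; push_cast; ring
      rw [e, det_add_smul, det_self]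
      have : det (u 1 - u 0) (Complex.I * (u 1 - u 0)) = Complex.normSq (u 1 - u 0) := by
        simp only [det, Complex.mul_re, Complex.mul_im, Complex.I_re, Complex.I_im,
          Complex.normSq_apply]
        ring
      rw [this]; ring
  refine ⟨ball m ε ∩ {x | 0 < det (u 1 - u 0) (x - u 0)},
    ball m ε ∩ {x | det (u 1 - u 0) (x - u 0) < 0}, c,
    ((convex_ball m ε).inter (convex_left _ _)).isPreconnected,
    ((convex_ball m ε).inter (convex_right _ _)).isPreconnected, ?_, ?_, ?_, ?_, ?_⟩
  · obtain ⟨z, hz, r, hr, hzr⟩ := hex 1 (by norm_num)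
    have h0 : 0 < det (u 1 - u 0) (z - u 0) := by rw [hzr]; linarith
    exact ⟨z, hz, h0⟩
  · obtain ⟨z, hz, r, hr, hzr⟩ := hex (-1) (by norm_num)
    have h0 : det (u 1 - u 0) (z - u 0) < 0 := by rw [hzr]; linarith
    exact ⟨z, hz, h0⟩
  · rintro x ⟨hx1, hx2⟩
    have hx3 : 0 < det (u 1 - u 0) (x - u 0) := hx2
    exact ⟨hoff x hx1 hx3.ne', ((hball x hx1).1 hx3.ne').1 hx3⟩
  · rintro x ⟨hx1, hx2⟩
    have hx3 : det (u 1 - u 0) (x - u 0) < 0 := hx2
    exact ⟨hoff x hx1 hx3.ne, ((hball x hx1).1 hx3.ne).2 hx3⟩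
  · intro z hz
    have hcl := acc_all h hz hmT
    obtain ⟨y, hy1, hy2⟩ := mem_closure_iff.1 hcl (ball m ε) isOpen_ball (mem_ball_self hεp)
    refine ⟨y, hy2, ?_⟩
    have hyT : y ∉ TT N u := connectedComponentIn_subset _ _ hy2
    rcases lt_trichotomy (det (u 1 - u 0) (y - u 0)) 0 with h1 | h1 | h1
    · exact Or.inr ⟨hy1, h1⟩
    · exact absurd (hline y hy1 h1) hyT
    · exact Or.inl ⟨hy1, h1⟩

private theorem comp_const {N : ℕ} {u : ℕ → ℂ} (h : SP N u) {z y : ℂ}
    (hy : y ∈ connectedComponentIn (TT N u)ᶜ z) :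
    par (pc u 0 N) y = par (pc u 0 N) z := by
  have hz : z ∈ (TT N u)ᶜ := by
    by_contra hc
    rw [connectedComponentIn_eq_empty hc] at hy
    exact hy
  refine par_const (closed_pc h) (isPreconnected_connectedComponentIn
    (x := z) (F := (TT N u)ᶜ)) ?_ hy (mem_connectedComponentIn hz)
  rw [Set.disjoint_left]
  intro x hx hxT
  exact connectedComponentIn_subset _ _ hx hxT

private theorem same_comp {N : ℕ} {u : ℕ → ℂ} (h : SP N u) {z z' : ℂ} (hz : z ∉ TT N u)
    (hz' : z' ∉ TT N u) (he : par (pc u 0 N) z = par (pc u 0 N) z') :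
    connectedComponentIn (TT N u)ᶜ z = connectedComponentIn (TT N u)ᶜ z' := by
  obtain ⟨Hp, Hm, c, hp1, hm1, -, -, hp, hm, hK⟩ := half_discs h
  obtain ⟨y, hy1, hy2⟩ := hK z hz
  obtain ⟨y', hy1', hy2'⟩ := hK z' hz'
  have hPy := comp_const h hy1
  have hPy' := comp_const h hy1'
  have hc1 : c + 1 ≠ c := by
    intro e
    exact one_ne_zero (add_eq_left.1 e)
  have key : ∀ H : Set ℂ, IsPreconnected H → (∀ x ∈ H, x ∉ TT N u) → y ∈ H → y' ∈ H →
      connectedComponentIn (TT N u)ᶜ z = connectedComponentIn (TT N u)ᶜ z' := by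
    intro H hH hHT h1 h2
    have h3 : H ⊆ connectedComponentIn (TT N u)ᶜ y :=
      hH.subset_connectedComponentIn h1 (fun x hx => hHT x hx)
    have h4 := connectedComponentIn_eq hy1
    have h5 := connectedComponentIn_eq hy1'
    have h6 := connectedComponentIn_eq (h3 h2)
    rw [h4, h6, ← h5]
  rcases hy2 with hy2 | hy2 <;> rcases hy2' with hy2' | hy2'
  · exact key Hp hp1 (fun x hx => (hp x hx).1) hy2 hy2'
  · exfalso
    have h1 := (hp y hy2).2
    have h2 := (hm y' hy2').2
    rw [hPy, he, ← hPy', h2] at h1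
    exact hc1 h1.symm
  · exfalso
    have h1 := (hm y hy2).2
    have h2 := (hp y' hy2').2
    rw [hPy, he, ← hPy', h2] at h1
    exact hc1 h1
  · exact key Hm hm1 (fun x hx => (hm x hx).1) hy2 hy2'

theorem jordan {N : ℕ} {u : ℕ → ℂ} (h : SP N u) : Jordan N u := by
  have hTc : IsClosed (TT N u) := isClosed_tr _
  -- a point of the unbounded component
  obtain ⟨z1, hz1T, hz1P, hz1u⟩ : ∃ z1, z1 ∉ TT N u ∧ par (pc u 0 N) z1 = 0 ∧
      ¬ Bornology.IsBounded (connectedComponentIn (TT N u)ᶜ z1) := by
    obtain ⟨R, hR⟩ := (isBounded_tr (pc u 0 N)).subset_closedBall (0 : ℂ)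
    set z1 : ℂ := ((R + 1 : ℝ) : ℂ) * Complex.I with hz1
    have hz1im : z1.im = R + 1 := by simp [hz1]
    have hconv : IsPreconnected {z : ℂ | R < z.im} := by
      refine (?_ : Convex ℝ {z : ℂ | R < z.im}).isPreconnected
      exact convex_halfSpace_im_gt R
    have hsub : {z : ℂ | R < z.im} ⊆ (TT N u)ᶜ := by
      intro z hz hzT
      have h1 : ‖z‖ ≤ R := by simpa using hR hzT
      have h2 : z.im ≤ ‖z‖ := (le_abs_self _).trans (Complex.abs_im_le_norm z)
      have h3 : R < z.im := hz
      linarith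
    have hmem : z1 ∈ {z : ℂ | R < z.im} := by show R < z1.im; rw [hz1im]; linarith
    have hin := hconv.subset_connectedComponentIn hmem hsub
    have hub : ¬ Bornology.IsBounded (connectedComponentIn (TT N u)ᶜ z1) := by
      intro hb
      obtain ⟨M, hM⟩ := (hb.subset hin).subset_closedBall (0 : ℂ)
      have h1 : (((max (R + 1) (M + 1) : ℝ) : ℂ) * Complex.I) ∈ {z : ℂ | R < z.im} := by
        show R < (((max (R + 1) (M + 1) : ℝ) : ℂ) * Complex.I).im
        have : (((max (R + 1) (M + 1) : ℝ) : ℂ) * Complex.I).im = max (R + 1) (M + 1) := by simp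
        rw [this]
        exact lt_of_lt_of_le (by linarith) (le_max_left _ _)
      have h2 := hM h1
      rw [mem_closedBall_zero_iff, norm_mul, Complex.norm_I, mul_one, Complex.norm_real,
        Real.norm_eq_abs] at h2
      have h3 := le_abs_self (max (R + 1) (M + 1))
      have h4 := le_max_right (R + 1) (M + 1)
      linarith
    refine ⟨z1, hsub hmem, ?_, hub⟩
    refine par_unbdd (closed_pc h) isPreconnected_connectedComponentIn ?_ hub
      (mem_connectedComponentIn (hsub hmem))
    rw [Set.disjoint_left]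
    intro x hx hxT
    exact connectedComponentIn_subset _ _ hx hxT
  have hzero : ∀ z, z ∉ TT N u → par (pc u 0 N) z = 0 → z ∉ reg (TT N u) := by
    intro z hz hP hreg
    have h1 := same_comp h hz hz1T (hP.trans hz1P.symm)
    have h2 : Bornology.IsBounded (connectedComponentIn (TT N u)ᶜ z) := hreg
    rw [h1] at h2
    exact hz1u h2
  have hone : ∀ z, z ∉ TT N u → par (pc u 0 N) z ≠ 0 → z ∈ reg (TT N u) := by
    intro z hz hP
    by_contra hb
    refine hP (par_unbdd (closed_pc h) isPreconnected_connectedComponentIn ?_ hb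
      (mem_connectedComponentIn hz))
    rw [Set.disjoint_left]
    intro x hx hxT
    exact connectedComponentIn_subset _ _ hx hxT
  have hsub : TT N u ⊆ reg (TT N u) := by
    intro z hz
    show Bornology.IsBounded (connectedComponentIn (TT N u)ᶜ z)
    rw [connectedComponentIn_eq_empty (F := (TT N u)ᶜ) (x := z) (not_not.2 hz)]
    exact Bornology.isBounded_empty
  have h01 : ∀ a : ZMod 2, a ≠ 0 → a = 1 := by decide
  have hcompl : (reg (TT N u))ᶜ = {z | z ∉ tr (pc u 0 N) ∧ par (pc u 0 N) z = 0} := by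
    ext z
    constructor
    · intro hz
      have hzT : z ∉ TT N u := fun hc => hz (hsub hc)
      refine ⟨hzT, ?_⟩
      by_contra hP
      exact hz (hone z hzT hP)
    · rintro ⟨hz1, hz2⟩
      exact hzero z hz1 hz2
  refine ⟨hsub, ?_, ?_, ?_, ?_, ?_, ?_⟩
  · intro z hz hzT
    refine h01 _ fun hP => ?_
    exact hzero z hzT hP hz
  · intro z hz
    have : z ∈ (reg (TT N u))ᶜ := hz
    rw [hcompl] at this
    exact this.2
  · intro t ht
    refine closure_mono ?_ (acc_all h hz1T ht)
    intro y hy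
    have h1 := comp_const h hy
    exact hzero y (connectedComponentIn_subset _ _ hy) (h1.trans hz1P)
  · intro t ht
    obtain ⟨Hp, Hm, c, -, -, ⟨xp, hxp⟩, ⟨xm, hxm⟩, hp, hm, -⟩ := half_discs h
    obtain ⟨z2, hz2T, hz2P⟩ : ∃ z2, z2 ∉ TT N u ∧ par (pc u 0 N) z2 ≠ 0 := by
      by_cases hc : c = 0
      · refine ⟨xp, (hp xp hxp).1, ?_⟩
        rw [(hp xp hxp).2, hc]; decide
      · exact ⟨xm, (hm xm hxm).1, by rw [(hm xm hxm).2]; exact hc⟩
    refine closure_mono ?_ (acc_all h hz2T ht)
    intro y hy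
    have h1 := comp_const h hy
    have hyT : y ∉ TT N u := connectedComponentIn_subset _ _ hy
    exact ⟨hone y hyT (by rw [h1]; exact hz2P), hyT⟩
  · rw [← isOpen_compl_iff, hcompl]
    exact isOpen_par (closed_pc h) 0
  · obtain ⟨R, hR⟩ := (isBounded_tr (pc u 0 N)).subset_closedBall (0 : ℂ)
    refine (Metric.isBounded_closedBall (x := (0 : ℂ)) (r := R)).subset fun z hz => ?_
    by_contra hc
    rw [mem_closedBall_zero_iff, not_le] at hc
    have h1 := par_far (closed_pc h) hR hc
    have hzT : z ∉ TT N u := by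
      intro hzT
      have := hR hzT
      rw [mem_closedBall_zero_iff] at this
      linarith
    exact hzero z hzT h1 hz

end VisMap
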