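import Pool.Agent.Lib.MP_9f3af0_lc.Sep
import Pool.Agent.Lib.MP_9f3af0_lc.Cr
import Pool.Agent.Lib.MP_9f3af0_lc.Jord

/-!
# The cut of a simple polygon along a segment from the vertex `u 0` to a boundary point

`β` is a point of the edge `j < N` and `[u 0, β] ⊆ reg T`, `T = TT N u`, `D = [u 0, β]`.
`L1 = chA u j β ++ [(β, u 0)]`, `L2 = chB N u j β ++ [(u 0, β)]`.

`tr_chA`: `x ∈ tr (chA u j β)` iff `x` is on an edge `k < j` or in `[u j, β]`.
`tr_chB`: `x ∈ tr (chB N u j β)` iff `x ∈ [β, u (j+1)]` or `x` is on an edge `k`, `j < k < N`.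
`chA_union_chB`: the union is `T` (for the edge `j`: `[u j, β] ∪ [β, u (j+1)] = [u j, u (j+1)]`).
`chA_inter_chB`: a common point is `u 0` or `β`.  The edges `k < j` and `l > j` (`l < N`): disjoint unless
`k = 0`, `l = N - 1`, where the common point is `u 0` (`adj0`) [not adjacent otherwise as `k < j < l`].
`[u j, β]` and an edge `l > j`: by `adj`/`disj`/`adj0` the common points of the edges `j` and `l` are `u (j+1)` if
`l = j + 1` (and `u (j+1) ∈ [u j, β]` forces `β = u (j+1)`), `u 0` if `j = 0`, `l = N - 1`; the edge `k < j` and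
`[β, u (j+1)]`: `u j` if `k = j - 1` (`u j ∈ [β, u (j+1)]` forces `β = u j`) or `u 0 = u N` if `k = 0`, `j = N - 1`;
`[u j, β] ∩ [β, u (j+1)] = {β}`.  (For `N = 3` two edges may be adjacent only once: `N ≥ 3`.)
`cut_inst`: closedness of `L1`: the boundary is `(g (u 0) + g (u j)) + (g (u j) + g β) + (g β + g (u 0)) = 0`
(`bdry_pc`), similarly `L2` with `u N = u 0`.  `sum`: `cr (u j) β z + cr β (u (j+1)) z = cr (u j) (u (j+1)) z`
(`cr_add`) and `cr β (u 0) z + cr (u 0) β z = 0` (`cr_symm`, characteristic 2), and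
`pc u 0 N` is the concatenation of `pc u 0 j`, `[(u j, u (j+1))]`, `pc u (j+1) N`.
`inn`, `acc` from `jordan`.
-/

namespace VisMap

open Set

/-- The part of a segment before one of its points. -/
private theorem seg_left {a b c : ℂ} (h : c ∈ segment ℝ a b) : segment ℝ a c ⊆ segment ℝ a b :=
  (convex_segment a b).segment_subset (left_mem_segment ℝ a b) h

private theorem seg_right {a b c : ℂ} (h : c ∈ segment ℝ a b) : segment ℝ c b ⊆ segment ℝ a b :=
  (convex_segment a b).segment_subset h (right_mem_segment ℝ a b)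

private theorem seg_split {a b c x : ℂ} (h : c ∈ segment ℝ a b) (hx : x ∈ segment ℝ a b) :
    x ∈ segment ℝ a c ∨ x ∈ segment ℝ c b := by
  rw [segment_eq_image_lineMap] at h hx
  obtain ⟨t, ht, rfl⟩ := h
  obtain ⟨s, hs, rfl⟩ := hx
  rcases le_total s t with hst | hst
  · left
    have h1 : Wbtw ℝ (0 : ℝ) s t := by
      rw [← mem_segment_iff_wbtw, segment_eq_Icc ht.1]; exact ⟨hs.1, hst⟩
    have h2 := h1.map (AffineMap.lineMap a b)
    rw [AffineMap.lineMap_apply_zero] at h2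
    exact mem_segment_iff_wbtw.2 h2
  · right
    have h1 : Wbtw ℝ t s (1 : ℝ) := by
      rw [← mem_segment_iff_wbtw, segment_eq_Icc ht.2]; exact ⟨hst, hs.2⟩
    have h2 := h1.map (AffineMap.lineMap a b)
    rw [AffineMap.lineMap_apply_one] at h2
    exact mem_segment_iff_wbtw.2 h2

theorem tr_chA {u : ℕ → ℂ} {j : ℕ} {β x : ℂ} :
    x ∈ tr (chA u j β) ↔ (∃ k < j, x ∈ segment ℝ (u k) (u (k + 1))) ∨ x ∈ segment ℝ (u j) β := by
  unfold chA
  rw [tr_append, mem_union, mem_tr_pc, tr_cons, tr_nil, union_empty]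
  constructor
  · rintro (⟨k, -, hk, hx⟩ | hx)
    · exact Or.inl ⟨k, hk, hx⟩
    · exact Or.inr hx
  · rintro (⟨k, hk, hx⟩ | hx)
    · exact Or.inl ⟨k, Nat.zero_le _, hk, hx⟩
    · exact Or.inr hx

theorem tr_chB {N : ℕ} {u : ℕ → ℂ} {j : ℕ} {β x : ℂ} :
    x ∈ tr (chB N u j β) ↔
      x ∈ segment ℝ β (u (j + 1)) ∨ ∃ k, j < k ∧ k < N ∧ x ∈ segment ℝ (u k) (u (k + 1)) := by
  unfold chB
  rw [tr_cons, mem_union, mem_tr_pc]
  constructor
  · rintro (hx | ⟨k, hk1, hk, hx⟩)
    · exact Or.inl hx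
    · exact Or.inr ⟨k, hk1, hk, hx⟩
  · rintro (hx | ⟨k, hk1, hk, hx⟩)
    · exact Or.inl hx
    · exact Or.inr ⟨k, hk1, hk, hx⟩

theorem chA_union_chB {N : ℕ} {u : ℕ → ℂ} {j : ℕ} (hj : j < N) {β : ℂ}
    (hβ : β ∈ segment ℝ (u j) (u (j + 1))) : tr (chA u j β) ∪ tr (chB N u j β) = TT N u := by
  ext x
  rw [mem_union, tr_chA, tr_chB, mem_TT]
  have hs1 : segment ℝ (u j) β ⊆ segment ℝ (u j) (u (j + 1)) := seg_left hβ
  have hs2 : segment ℝ β (u (j + 1)) ⊆ segment ℝ (u j) (u (j + 1)) := seg_right hβ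
  constructor
  · rintro ((⟨k, hk, hx⟩ | hx) | (hx | ⟨k, hk1, hk, hx⟩))
    · exact ⟨k, hk.trans hj, hx⟩
    · exact ⟨j, hj, hs1 hx⟩
    · exact ⟨j, hj, hs2 hx⟩
    · exact ⟨k, hk, hx⟩
  · rintro ⟨k, hk, hx⟩
    rcases lt_trichotomy k j with h | h | h
    · exact Or.inl (Or.inl ⟨k, h, hx⟩)
    · subst h
      rcases seg_split hβ hx with h1 | h1
      · exact Or.inl (Or.inr h1)
      · exact Or.inr (Or.inl h1)
    · exact Or.inr (Or.inr ⟨k, h, hk, hx⟩)

theorem chA_inter_chB {N : ℕ} {u : ℕ → ℂ} (h : SP N u) {j : ℕ} (hj : j < N) {β : ℂ}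
    (hβ : β ∈ segment ℝ (u j) (u (j + 1))) {x : ℂ} (hA : x ∈ tr (chA u j β))
    (hB : x ∈ tr (chB N u j β)) : x = u 0 ∨ x = β := by
  have hs1 : segment ℝ (u j) β ⊆ segment ℝ (u j) (u (j + 1)) := seg_left hβ
  have hs2 : segment ℝ β (u (j + 1)) ⊆ segment ℝ (u j) (u (j + 1)) := seg_right hβ
  -- two edges `k < l`, not consecutive
  have key : ∀ k l : ℕ, k + 1 < l → l < N → x ∈ segment ℝ (u k) (u (k + 1)) →
      x ∈ segment ℝ (u l) (u (l + 1)) → x = u 0 := by
    intro k l hkl hl h1 h2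
    by_cases hc : k = 0 ∧ l + 1 = N
    · obtain ⟨rfl, rfl⟩ := hc
      have h3 : x ∈ segment ℝ (u (l + 1 - 1)) (u (l + 1)) ∩ segment ℝ (u 0) (u 1) := ⟨h2, h1⟩
      rw [h.adj0] at h3
      exact h3
    · exact absurd h2 (Set.disjoint_left.1 (h.disj k l hkl hl hc) h1)
  rw [tr_chA] at hA
  rw [tr_chB] at hB
  rcases hA with ⟨k, hk, hA⟩ | hA
  · rcases hB with hB | ⟨l, hjl, hl, hB⟩
    · rcases Nat.lt_or_ge (k + 1) j with hkj | hkj
      · exact Or.inl (key k j hkj hj hA (hs2 hB))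
      · have hkj' : j = k + 1 := by omega
        subst hkj'
        have h3 : x ∈ segment ℝ (u k) (u (k + 1)) ∩ segment ℝ (u (k + 1)) (u (k + 2)) :=
          ⟨hA, hs2 hB⟩
        rw [h.adj k hj] at h3
        have h4 : x = u (k + 1) := h3
        subst h4
        exact Or.inr ((wbtw_swap_left_iff ℝ _).1
          ⟨mem_segment_iff_wbtw.1 hβ, mem_segment_iff_wbtw.1 hB⟩)
    · exact Or.inl (key k l (by omega) hl hA hB)
  · rcases hB with hB | ⟨l, hjl, hl, hB⟩
    · refine Or.inr ?_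
      have h1 := mem_segment_iff_wbtw.1 hβ
      have h2 := mem_segment_iff_wbtw.1 hA
      have h3 := mem_segment_iff_wbtw.1 hB
      exact (wbtw_swap_left_iff ℝ _).1 ⟨h1.trans_left_right h2, h3⟩
    · rcases Nat.lt_or_ge (j + 1) l with hkj | hkj
      · exact Or.inl (key j l hkj hl (hs1 hA) hB)
      · have hkj' : l = j + 1 := by omega
        subst hkj'
        have h3 : x ∈ segment ℝ (u j) (u (j + 1)) ∩ segment ℝ (u (j + 1)) (u (j + 2)) :=
          ⟨hs1 hA, hB⟩
        rw [h.adj j hl] at h3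
        have h4 : x = u (j + 1) := h3
        subst h4
        exact Or.inr ((wbtw_swap_right_iff ℝ _).1
          ⟨mem_segment_iff_wbtw.1 hA, mem_segment_iff_wbtw.1 hβ⟩)

theorem cut_inst {N : ℕ} {u : ℕ → ℂ} (h : SP N u) {j : ℕ} (hj : j < N) {β : ℂ}
    (hβ : β ∈ segment ℝ (u j) (u (j + 1))) (hD : segment ℝ (u 0) β ⊆ reg (TT N u)) :
    Cut (TT N u) (pc u 0 N) (chA u j β ++ [(β, u 0)]) (chB N u j β ++ [(u 0, β)])
      (segment ℝ (u 0) β) := by
  have J := jordan h
  have hU := chA_union_chB (N := N) (u := u) hj hβ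
  have hAT : tr (chA u j β) ⊆ TT N u := by rw [← hU]; exact subset_union_left
  have hBT : tr (chB N u j β) ⊆ TT N u := by rw [← hU]; exact subset_union_right
  have e1 : tr (chA u j β ++ [(β, u 0)]) = tr (chA u j β) ∪ segment ℝ (u 0) β := by
    rw [tr_append, tr_cons, tr_nil, union_empty, segment_symm]
  have e2 : tr (chB N u j β ++ [(u 0, β)]) = tr (chB N u j β) ∪ segment ℝ (u 0) β := by
    rw [tr_append, tr_cons, tr_nil, union_empty]
  have two : ∀ x : ZMod 2, x + x = 0 := fun x => CharTwo.add_self_eq_zero x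
  refine
    { c1 := ?_, c2 := ?_, s1 := ?_, s2 := ?_, t1 := ?_, t2 := ?_, cov := ?_, int := ?_
      inn := J.inn, sum := ?_, acc := J.acc }
  · intro g
    unfold chA
    rw [List.map_append, List.sum_append, List.map_append, List.sum_append,
      bdry_pc u g (Nat.zero_le _)]
    simp only [List.map_cons, List.map_nil, List.sum_cons, List.sum_nil]
    linear_combination two (g (u 0)) + two (g (u j)) + two (g β)
  · intro g
    unfold chB
    rw [List.map_append, List.sum_append, List.map_cons, List.sum_cons,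
      bdry_pc u g hj, h.per]
    simp only [List.map_cons, List.map_nil, List.sum_cons, List.sum_nil]
    linear_combination two (g (u 0)) + two (g (u (j + 1))) + two (g β)
  · rw [e1]; exact union_subset (hAT.trans J.sub) hD
  · rw [e2]; exact union_subset (hBT.trans J.sub) hD
  · rw [e1]; exact union_subset_union_left _ hAT
  · rw [e2]; exact union_subset_union_left _ hBT
  · rw [e1, e2, ← hU]
    exact union_subset_union subset_union_left subset_union_left
  · rw [e1, e2]
    rintro x ⟨hx1 | hx1, hx2 | hx2⟩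
    · rcases chA_inter_chB h hj hβ hx1 hx2 with rfl | rfl
      · exact left_mem_segment ℝ _ _
      · exact right_mem_segment ℝ _ _
    · exact hx2
    · exact hx1
    · exact hx1
  · intro z _ _
    unfold chA chB
    have e3 : pc u 0 N = pc u 0 j ++ ((u j, u (j + 1)) :: pc u (j + 1) N) := by
      unfold pc
      have h1 : List.Ico 0 N = List.Ico 0 j ++ List.Ico j N :=
        (List.Ico.append_consecutive (Nat.zero_le _) hj.le).symm
      rw [h1, List.map_append, List.Ico.eq_cons hj, List.map_cons]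
    rw [e3]
    simp only [par_append, par_cons, par_nil]
    have h2 := cr_add (a := u j) (b := u (j + 1)) (z := z) hβ
    have h3 := cr_symm β (u 0) z
    rw [← h2, h3]
    linear_combination (-1 : ZMod 2) * two (cr (u 0) β z)

end VisMap
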