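import Pool.Agent.Lib.MP_9f3af0_lc.Cut

/-!
# MP_9f3af0_lc: the largest jump over a window of `k` vertices (helper65)

`Wd n k r`: the views of vertices that are congruent modulo `k` match.  `NL k r`: no class has a
distance `d` with `2 ≤ d ≤ k` such that every vertex `u` of the class sees `u + d`.
`MFJ`: if all forward and backward jumps over the next `k` vertices are at most `J ≥ k + 2` and `v₀`
has the forward jump `J`, then all vertices of its class hide the vertices between the distances `k`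
and `J`.  `false_of_mfj`: `MFJ` excludes `NL`; `linked_of_mfj`: `MFJ` implies that some class is
linked.
-/

namespace VisMap

namespace Cut

/-- No distance `2 ≤ d ≤ k` is visible at all vertices of a class. -/
def NL (k : ℤ) (r : ℤ → ℤ → Prop) : Prop :=
  ∀ c d, 2 ≤ d → d ≤ k → ¬ ∀ u, k ∣ u - c → r u (u + d)

/-- All forward and backward jumps over `k` vertices are at most `J`. -/
def JB (n : ℕ) (k J : ℤ) (r : ℤ → ℤ → Prop) : Prop :=
  (∀ v, ∃ m, v + k < m ∧ m ≤ v + J ∧ m < v + n ∧ r v m) ∧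
  (∀ v, ∃ m, v - J ≤ m ∧ m < v - k ∧ v - n < m ∧ r v m)

/-- The statement about maximal forward jumps. -/
def MFJ : Prop :=
  ∀ (n : ℕ) (k J : ℤ) (r : ℤ → ℤ → Prop), ZRel n r → 2 ≤ k → k ∣ n → 4 * k ≤ n → Wd n k r →
    NL k r → k + 2 ≤ J → JB n k J r →
    ∀ v₀, (∀ m, v₀ + k < m → m < v₀ + J → ¬ r v₀ m) →
      ∀ v, k ∣ v - v₀ → ∀ m, v + k < m → m < v + J → ¬ r v m

variable {n : ℕ} {k J : ℤ} {r : ℤ → ℤ → Prop}

theorem fam_of (h : ZRel n r) (hk : 0 < k) (hd : k ∣ n) (hn : 3 ≤ n) (hw : Wd n k r) :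
    Fam n k (fun _ => r) :=
  ⟨hn, hk, hd, fun _ => h, fun _ _ i i' hi => hw i i' hi⟩

theorem Wd.mirror (h : ZRel n r) (hk : 0 < k) (hd : k ∣ n) (hn : 3 ≤ n) (hw : Wd n k r) :
    Wd n k (VisMap.mirror r) :=
  fun i i' hi => (fam_of h hk hd hn hw).mirror.fw true true i i' hi

theorem NL.mirror (hnl : NL k r) (hs : ∀ a b, r a b → r b a) : NL k (VisMap.mirror r) := by
  intro c d h1 h2 h
  refine hnl (-c - d) d h1 h2 fun u hu => ?_
  have h3 := h (-u - d) (by
    have e : -u - d - c = -(u - (-c - d)) := by ring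
    rw [e]; exact (dvd_neg).2 hu)
  have h4 : r (- (-u - d)) (-(-u - d + d)) := h3
  have e1 : -(-u - d) = u + d := by ring
  have e2 : -(-u - d + d) = u := by ring
  rw [e1, e2] at h4
  exact hs _ _ h4

theorem JB.mirror (hj : JB n k J r) : JB n k J (VisMap.mirror r) := by
  refine ⟨fun v => ?_, fun v => ?_⟩
  · obtain ⟨m, h1, h2, h3, h4⟩ := hj.2 (-v)
    refine ⟨-m, by omega, by omega, by omega, ?_⟩
    show r (-v) (- -m)
    rwa [neg_neg]
  · obtain ⟨m, h1, h2, h3, h4⟩ := hj.1 (-v)
    refine ⟨-m, by omega, by omega, by omega, ?_⟩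
    show r (-v) (- -m)
    rwa [neg_neg]

/-- The next visible vertex. -/
theorem exists_next {i a b : ℤ} (hab : a < b) (hb : r i b) :
    ∃ t, a < t ∧ t ≤ b ∧ r i t ∧ ∀ m, a < m → m < t → ¬ r i m := by
  obtain ⟨t, ⟨h1, h2⟩, h3⟩ := Dism.exists_first (P := fun z => a < z ∧ r i z) (b := a)
    (fun z hz => hz.1.le) (a := b) ⟨hab, hb⟩
  refine ⟨t, h1, h3 b ⟨hab, hb⟩, h2, fun m m1 m2 m3 => ?_⟩
  have := h3 m ⟨m1, m3⟩
  omega

theorem last (h : ZRel n r) (v : ℤ) : r v (v + n - 1) := by
  have h1 := h.symm _ _ (h.succ (v - 1))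
  rw [sub_add_cancel] at h1
  have h2 := ((ZR.of_zRel h).perR v (v - 1)).2 h1
  have e : v - 1 + (n : ℤ) = v + n - 1 := by ring
  rwa [e] at h2

/-- `J = k + 1`: everything beyond the distance `k` is visible. -/
theorem far_of_jump (h : ZRel n r) (hk : 0 < k) (hJ : ∀ v, r v (v + (k + 1))) {v z : ℤ}
    (h1 : v + k < z) (h2 : z < v + n - k) : r v z := by
  by_contra hz
  have hz' := ZR.of_zRel h
  have ha : r v (v + k + 1) := by
    have := hJ v
    rwa [← add_assoc] at this
  have hb : r v (v + n - k - 1) := by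
    have h3 := hJ (v + n - k - 1)
    have e : v + (n : ℤ) - k - 1 + (k + 1) = v + n := by ring
    rw [e, hz'.perR] at h3
    exact h.symm _ _ h3
  have hne1 : z ≠ v + k + 1 := fun e => hz (by rw [e]; exact ha)
  have hne2 : z ≠ v + n - k - 1 := fun e => hz (by rw [e]; exact hb)
  obtain ⟨s, t, ⟨-, -, -, a1, a2, a3, a4, a5, a6⟩, b1, b2, b3, b4⟩ :=
    (Dism.SR.of_zrel h).gap_around (i := v) (s := v + k + 1) (t := v + n - k - 1) (z := z) trivial
      trivial trivial (by omega) (by omega) (by omega) (by omega) ha hb (fun hc => hz hc.2)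
  obtain ⟨c, c1, c2, c3, c4⟩ := h.nc v s t a1 a2 a3 a4 a5 (fun m m1 m2 => a6 m trivial m1 m2)
  rcases c1.lt_or_eq with hlt | heq
  · refine c3 (s - k) (s + 1) (by omega) (by omega) (by omega) (by omega) ?_
    have := hJ (s - k)
    have e : s - k + (k + 1) = s + 1 := by ring
    rwa [e] at this
  · refine c4 (t + k) (t - 1) (by omega) (by omega) (by omega) (by omega) ?_
    have := hJ (t - 1)
    have e : t - 1 + (k + 1) = t + k := by ring
    rw [e] at this
    exact h.symm _ _ this

theorem agree_of_jump (h : ZRel n r) (hk : 0 < k) (h3 : 3 * k ≤ n) (hn : 3 ≤ n)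
    (hw : Wd n k r) (hJ : ∀ v, r v (v + (k + 1))) {v v' : ℤ} (hv : k ∣ v' - v) :
    ∀ N : ℕ, ∀ o : ℤ, o ≤ N → o ≤ k → (Fw n r v o ↔ Fw n r v' o) := by
  intro N
  induction N with
  | zero =>
    intro o h1 _
    constructor <;> intro h2 <;> have := h2.1 <;> omega
  | succ N ih =>
    intro o h1 h2
    rcases h1.lt_or_eq with hlt | heq
    · exact ih o (by push_cast at hlt; omega) h2
    · -- one direction is enough
      have key : ∀ w w' : ℤ, k ∣ w' - w →
          (∀ o : ℤ, o ≤ N → o ≤ k → (Fw n r w o ↔ Fw n r w' o)) →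
          Fw n r w o → Fw n r w' o := by
        intro w w' hw' hag ho
        obtain ⟨o', g1, g2, g3, g4⟩ := (hw w w' hw').next (fun o ho => ho.1) (d := o)
          (fun o₁ ho₁ => hag o₁ (by push_cast at heq; omega) (by omega)) ho
        rcases g2.lt_or_eq with hlt | heq'
        · exfalso
          have h5 := Int.le_of_dvd (by omega) g3
          by_cases ho1 : o = 1
          · refine g4 1 (by omega) (by omega) ⟨by omega, by omega, h.succ _⟩
          · have := ho.1
            exact g4 (k + 1) (by omega) (by omega) ⟨by omega, by omega, hJ w'⟩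
        · rw [heq']; exact g1
      constructor
      · exact key v v' hv ih
      · exact key v' v (by
          have e : v - v' = -(v' - v) := by ring
          rw [e]; exact (dvd_neg).2 hv) (fun o h1 h2 => (ih o h1 h2).symm)

/-- `J = k + 1`: the relation is invariant under the rotation by `k`. -/
theorem periodic_of_jump (h : ZRel n r) (hk : 0 < k) (h3 : 3 * k ≤ n) (hn : 3 ≤ n)
    (hw : Wd n k r) (hJ : ∀ v, r v (v + (k + 1))) (a b : ℤ) : r (a + k) (b + k) ↔ r a b := by
  have hz := ZR.of_zRel h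
  -- small offsets
  have hsm : ∀ v o : ℤ, 0 < o → o ≤ k → (r (v + k) (v + k + o) ↔ r v (v + o)) := by
    intro v o h1 h2
    have := agree_of_jump h hk h3 hn hw hJ (v := v) (v' := v + k) (by simp) o.toNat o (by omega) h2
    unfold Fw at this
    constructor
    · intro h4; exact (this.2 ⟨h1, by omega, h4⟩).2.2
    · intro h4; exact (this.1 ⟨h1, by omega, h4⟩).2.2
  have hpos : ∀ v o : ℤ, 0 < o → o < n → (r (v + k) (v + k + o) ↔ r v (v + o)) := by
    intro v o h1 h2
    rcases le_or_gt o k with h4 | h4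
    · exact hsm v o h1 h4
    rcases lt_or_ge o (n - k) with h5 | h5
    · exact ⟨fun _ => far_of_jump h hk hJ (by omega) (by omega),
        fun _ => far_of_jump h hk hJ (by omega) (by omega)⟩
    · have h6 := hsm (v + o - n) (n - o) (by omega) (by omega)
      have e1 : v + o - (n : ℤ) + k + (n - o) = v + k := by ring
      have e2 : v + o - (n : ℤ) + (n - o) = v := by ring
      rw [e1, e2] at h6
      have e3 : r (v + o - n + k) (v + k) ↔ r (v + k) (v + k + o) := by
        rw [← hz.per (v + o - n + k)]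
        have e4 : v + o - (n : ℤ) + k + n = v + k + o := by ring
        rw [e4]
        exact ⟨h.symm _ _, h.symm _ _⟩
      have e5 : r (v + o - n) v ↔ r v (v + o) := by
        rw [← hz.per (v + o - n), sub_add_cancel]
        exact ⟨h.symm _ _, h.symm _ _⟩
      rw [← e3, ← e5]; exact h6
  obtain ⟨b', b1, b2, b3⟩ := Link.exists_rep' (n := n) (by omega) b a
  rw [← b3 (fun z => r a z) (fun z => hz.perR a z),
    ← b3 (fun z => r (a + k) (z + k)) (fun z => by
      have e : z + (n : ℤ) + k = z + k + n := by ring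
      rw [e]; exact hz.perR _ _)]
  rcases b2.lt_or_eq with hlt | heq
  · have := hpos a (b' - a) (by omega) (by omega)
    have e1 : a + k + (b' - a) = b' + k := by ring
    have e2 : a + (b' - a) = b' := by ring
    rwa [e1, e2] at this
  · rw [heq]
    have e : a + (n : ℤ) + k = a + k + n := by ring
    rw [e, hz.perR, hz.perR]
    exact ⟨fun h4 => absurd h4 (h.irrefl _), fun h4 => absurd h4 (h.irrefl _)⟩

/-- An invariant relation has a linked class. -/
theorem linked_of_periodic (h : ZRel n r) (hk : 0 < k) (hkn : k < n)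
    (hp : ∀ a b, r (a + k) (b + k) ↔ r a b) : Lkd k r := by
  obtain ⟨α, hα⟩ := Dism.exists_link_of_periodic h hk hkn hp
  refine ⟨α, fun u hu => ?_⟩
  obtain ⟨t, ht⟩ := hu
  obtain ⟨m, rfl⟩ : ∃ m : ℕ, k = m := ⟨k.toNat, by omega⟩
  have e : u = α + t * m := by rw [mul_comm t]; linarith
  rw [e]
  exact (per_mul (n := m) (p := fun z => r z (z + m)) (fun z => hp z (z + m)) α t).2 hα

/-- Every class has a vertex that sees nothing between the distances `1` and `k + 1`. -/
theorem exists_alpha_one (h : ZRel n r) (hk : 2 ≤ k) (hkn : 3 * k ≤ n) (hw : Wd n k r) (hnl : NL k r)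
    (c : ℤ) : ∃ v, k ∣ v - c ∧ ∀ m, v + 1 < m → m ≤ v + k → ¬ r v m := by
  by_contra hno
  push Not at hno
  -- the second sight
  have hsec : ∀ v, k ∣ v - c → ∃ d, 2 ≤ d ∧ d ≤ k ∧ Fw n r v d ∧ ∀ m, 1 < m → m < d → ¬ Fw n r v m := by
    intro v hv
    obtain ⟨m, m1, m2, m3⟩ := hno v hv
    obtain ⟨t, t1, t2, t3, t4⟩ := exists_next m1 m3
    refine ⟨t - v, by omega, by omega, ⟨by omega, by omega, by rw [add_sub_cancel]; exact t3⟩,
      fun m' h1 h2 h3 => t4 (v + m') (by omega) (by omega) h3.2.2⟩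
  have hle : ∀ v v' d d', k ∣ v' - v → 2 ≤ d → d' ≤ k → Fw n r v d → Fw n r v' d' →
      (∀ m, 1 < m → m < d → ¬ Fw n r v m) → (∀ m, 1 < m → m < d' → ¬ Fw n r v' m) → ¬ d < d' := by
    intro v v' d d' hv h2 h2' hd hd' hm hm' hlt
    obtain ⟨o', g1, g2, g3, g4⟩ := (hw v v' hv).next (fun o ho => ho.1) (d := d)
      (fun o ho => by
        rcases lt_trichotomy o 1 with h1 | rfl | h1
        · constructor <;> intro h3 <;> have := h3.1 <;> omega
        · exact ⟨fun _ => ⟨by omega, by omega, h.succ _⟩, fun _ => ⟨by omega, by omega, h.succ _⟩⟩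
        · exact ⟨fun h3 => absurd h3 (hm o h1 ho), fun h3 => absurd h3 (hm' o h1 (by omega))⟩) hd
    have h5 : o' = d' := by
      rcases lt_trichotomy o' d' with h1 | h1 | h1
      · exact absurd g1 (hm' o' (by omega) h1)
      · exact h1
      · exact absurd hd' (g4 d' (by omega) h1)
    rw [h5] at g3
    have := Int.le_of_dvd (by omega) g3
    omega
  obtain ⟨d, d1, d2, d3, d4⟩ := hsec c (by simp)
  refine hnl c d d1 d2 fun u hu => ?_
  obtain ⟨d', e1, e2, e3, e4⟩ := hsec u hu
  have h1 := hle c u d d' hu d1 e2 d3 e3 d4 e4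
  have h2 := hle u c d' d (by
    have e : c - u = -(u - c) := by ring
    rw [e]; exact (dvd_neg).2 hu) e1 d2 e3 d3 e4 d4
  have : d = d' := by omega
  rw [this]; exact e3.2.2

/-- If all vertices of the class of `v₀` hide the vertices between the distances `k` and `J`, then
there is a distance `2 ≤ d ≤ k` that is visible at all vertices of a class. -/
theorem false_of_hide (h : ZRel n r) (hk : 2 ≤ k) (h3 : 3 * k ≤ n) (hw : Wd n k r) (hnl : NL k r)
    (hJB : ∀ v, ∃ m, v + k < m ∧ m ≤ v + J ∧ m < v + n ∧ r v m) {v₀ : ℤ}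
    (hide : ∀ v, k ∣ v - v₀ → ∀ m, v + k < m → m < v + J → ¬ r v m) : False := by
  obtain ⟨v, hv, hv1⟩ := exists_alpha_one h hk h3 hw hnl v₀
  -- the second sight `g` of `v - 1`
  have hnx : ∀ w : ℤ, ∃ g, w < g ∧ g < w - 1 + n ∧ r (w - 1) g ∧ (∀ m, w < m → m < g → ¬ r (w - 1) m) ∧
      r w g := by
    intro w
    have h4 := last h (w - 1)
    obtain ⟨g, g1, g2, g3, g4⟩ := exists_next (a := w) (show w < w - 1 + n - 1 by omega) h4
    have h5 : r (w - 1) w := by
      have := h.succ (w - 1)
      rwa [sub_add_cancel] at this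
    exact ⟨g, g1, by omega, g3, g4, h.cn (w - 1) w g (by omega) g1 (by omega) h5 g3 g4⟩
  -- no second sight of `w - 1` beyond `w + J`
  have hbig : ∀ w g : ℤ, (∀ m, w < m → m < g → ¬ r (w - 1) m) → g < w + J := by
    intro w g hg
    obtain ⟨m, m1, m2, m3, m4⟩ := hJB (w - 1)
    by_contra hc
    push Not at hc
    exact hg m (by omega) (by omega) m4
  obtain ⟨g, g1, g2, g3, g4, g5⟩ := hnx v
  have hg : g = v + 1 := by
    by_contra hne
    have h6 := hbig v g g4
    rcases le_or_gt g (v + k) with h7 | h7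
    · exact hv1 g (by omega) h7 g5
    · exact hide v hv g h7 h6 g5
  rw [hg] at g3
  refine hnl (v - 1) 2 le_rfl hk fun u hu => ?_
  obtain ⟨o', e1, e2, e3, e4⟩ := (hw (v - 1) u hu).next (fun o ho => ho.1) (d := 2)
    (fun o ho => by
      rcases lt_trichotomy o 1 with h1 | rfl | h1
      · constructor <;> intro h3 <;> have := h3.1 <;> omega
      · exact ⟨fun _ => ⟨by omega, by omega, h.succ _⟩, fun _ => ⟨by omega, by omega, h.succ _⟩⟩
      · omega) ⟨by omega, by omega, by
        have e : v - 1 + 2 = v + 1 := by ring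
        rw [e]; exact g3⟩
  rcases e2.lt_or_eq with h6 | h6
  · exfalso
    have h7 := Int.le_of_dvd (by omega) e3
    -- `u + 1` sees `u + o'`
    have h8 : r (u + 1) (u + o') := by
      refine h.cn u (u + 1) (u + o') (by omega) (by omega) (by have := e1.2.1; omega) (h.succ u)
        e1.2.2 fun m m1 m2 m3 => ?_
      refine e4 (m - u) (by omega) (by omega) ⟨by omega, by have := e1.2.1; omega, ?_⟩
      rw [add_sub_cancel]; exact m3
    have h9 : ∀ m, u + 1 < m → m < u + o' → ¬ r u m := by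
      intro m m1 m2 m3
      refine e4 (m - u) (by omega) (by omega) ⟨by omega, by have := e1.2.1; omega, ?_⟩
      rw [add_sub_cancel]; exact m3
    have h10 := hbig (u + 1) (u + o') (by rw [add_sub_cancel_right]; exact h9)
    refine hide (u + 1) ?_ (u + o') (by omega) h10 h8
    have h11 : k ∣ u - (v - 1) + (v - v₀) := dvd_add hu hv
    have e : u - (v - 1) + (v - v₀) = u + 1 - v₀ := by ring
    rwa [e] at h11
  · rw [h6]; exact e1.2.2

/-- `MFJ` excludes `NL`. -/
theorem false_of_mfj (H : MFJ) (h : ZRel n r) (hk : 2 ≤ k) (hd : k ∣ n) (h4 : 4 * k ≤ n)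
    (hw : Wd n k r) (hnl : NL k r) : False := by
  have hn : 3 ≤ n := by omega
  have hz := ZR.of_zRel h
  -- the largest jump
  have htop : JB n k (n - 1) r := by
    refine ⟨fun v => ⟨v + n - 1, by omega, by omega, by omega, last h v⟩, fun v =>
      ⟨v - n + 1, by omega, by omega, by omega, ?_⟩⟩
    have h1 := h.succ v
    rw [← hz.perR]
    have e : v - (n : ℤ) + 1 + n = v + 1 := by ring
    rw [e]; exact h1
  obtain ⟨J, ⟨hJ1, hJ2⟩, hJ3⟩ := Dism.exists_first (P := fun J => k + 1 ≤ J ∧ JB n k J r) (b := k + 1)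
    (fun z hz => hz.1) (a := (n : ℤ) - 1) ⟨by omega, htop⟩
  rcases hJ1.lt_or_eq with hlt | heq
  · have hno : ¬ JB n k (J - 1) r := by
      intro hc
      have := hJ3 (J - 1) ⟨by omega, hc⟩
      omega
    unfold JB at hno
    rw [not_and_or] at hno
    rcases hno with hno | hno
    · push Not at hno
      obtain ⟨v₀, hv₀⟩ := hno
      have hide : ∀ m, v₀ + k < m → m < v₀ + J → ¬ r v₀ m := by
        intro m m1 m2 m3
        rcases lt_or_ge m (v₀ + n) with h5 | h5
        · exact hv₀ m m1 (by omega) h5 m3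
        · obtain ⟨m', a1, a2, a3, a4⟩ := hJ2.1 v₀
          rcases lt_or_ge m' (v₀ + J) with h6 | h6
          · exact hv₀ m' a1 (by omega) a3 a4
          · omega
      exact false_of_hide h hk (by omega) hw hnl hJ2.1
        (H n k J r h hk hd h4 hw hnl (by omega) hJ2 v₀ hide)
    · push Not at hno
      obtain ⟨v₀, hv₀⟩ := hno
      have hm := h.mirror
      have hwm := hw.mirror h (by omega) hd hn
      have hnlm := hnl.mirror h.symm
      have hJm := hJ2.mirror
      have hide : ∀ m, -v₀ + k < m → m < -v₀ + J → ¬ VisMap.mirror r (-v₀) m := by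
        intro m m1 m2 m3
        have m4 : r v₀ (-m) := by
          have : r (- -v₀) (-m) := m3
          rwa [neg_neg] at this
        rcases lt_or_ge m (-v₀ + n) with h5 | h5
        · exact hv₀ (-m) (by omega) (by omega) (by omega) m4
        · obtain ⟨m', a1, a2, a3, a4⟩ := hJ2.2 v₀
          rcases lt_or_ge (v₀ - J) m' with h6 | h6
          · exact hv₀ m' (by omega) a2 a3 a4
          · omega
      exact false_of_hide hm hk (by omega) hwm hnlm hJm.1
        (H n k J _ hm hk hd h4 hwm hnlm (by omega) hJm (-v₀) hide)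
  · -- `J = k + 1`
    have hJ : ∀ v, r v (v + (k + 1)) := by
      intro v
      obtain ⟨m, m1, m2, m3, m4⟩ := hJ2.1 v
      have : m = v + (k + 1) := by omega
      rwa [this] at m4
    obtain ⟨a, ha⟩ := linked_of_periodic h (by omega) (by omega)
      (periodic_of_jump h (by omega) (by omega) hn hw hJ)
    exact hnl a k hk le_rfl ha

/-- `MFJ` implies that some class is linked. -/
theorem linked_of_mfj (H : MFJ) : ∀ (n : ℕ) (k : ℤ) (r : ℤ → ℤ → Prop), ZRel n r → 0 < k → k ∣ n →
    k < n → Wd n k r → Lkd k r :=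
  linked_of fun _ _ _ h hk hd h4 hw hc => false_of_mfj H h hk hd h4 hw hc

end Cut

end VisMap
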