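import Pool.Agent.Lib.MP_9f3af0_lc.AgUnroll
import Pool.Agent.Lib.MP_9f3af0_lc.DefsE

/-!
# MP_9f3af0_lc, two classes (helper88, papers 594 and 604): the unrolled vertex-edge structure,
mirror images, pockets and the lemma T1
-/

namespace VisMap

/-- `s`, `t` are consecutive visible vertices in the view of `i` (unrolled). -/
def Gp (n : ℕ) (r : ℤ → ℤ → Prop) (i s t : ℤ) : Prop :=
  i < s ∧ s < t ∧ t < i + n ∧ r i s ∧ r i t ∧ ∀ m, s < m → m < t → ¬ r i m

/-- The unrolled form of `VisE`. -/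
structure ZVE (n : ℕ) (r E T : ℤ → ℤ → Prop) : Prop where
  symm : ∀ a b, r a b → r b a
  per : ∀ a b, r (a + n) b ↔ r a b
  irrefl : ∀ a, ¬ r a a
  succ : ∀ a, r a (a + 1)
  cn : ∀ i s t, Gp n r i s t → r s t
  perE : ∀ a b, E (a + n) b ↔ E a b
  perE' : ∀ a b, E a (b + n) ↔ E a b
  perT : ∀ a b, T (a + n) b ↔ T a b
  perT' : ∀ a b, T a (b + n) ↔ T a b
  thr : ∀ i s t, Gp n r i s t → ∃ c, s ≤ c ∧ c < t ∧ T i c
  thr_unique : ∀ i s t, Gp n r i s t → ∀ c c', s ≤ c → c < t → s ≤ c' → c' < t →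
    T i c → T i c' → c = c'
  t_e : ∀ i s t, Gp n r i s t → ∀ c, s ≤ c → c < t → T i c → E i c ∨ c = s ∨ c + 1 = t
  ve1l : ∀ i s t, Gp n r i s t → ∀ c, s ≤ c → c < t → T i c → ∀ x, i ≤ x → x < s →
    (∀ y, s < y → y ≤ c → ¬ r x y) ∧ (∀ d, s ≤ d → d < c → ¬ E x d)
  ve1r : ∀ i s t, Gp n r i s t → ∀ c, s ≤ c → c < t → T i c → ∀ x, t < x → x ≤ i + n →
    (∀ y, c < y → y < t → ¬ r x y) ∧ (∀ d, c < d → d < t → ¬ E x d)
  ve2l : ∀ i s t, Gp n r i s t → ∀ c, s < c → c < t → T i c →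
    T s c ∧ (c + 1 < t → E s c)
  ve2r : ∀ i s t, Gp n r i s t → ∀ c, s ≤ c → c + 1 < t → T i c →
    T t c ∧ (s < c → E t c)

section unroll

variable {n : ℕ} {R E T : ZMod n → ZMod n → Prop}

theorem cast_toNat {i x : ℤ} (h : i ≤ x) :
    (i : ZMod n) + ((x - i).toNat : ZMod n) = (x : ZMod n) := by
  have h1 : ((x - i).toNat : ℤ) = x - i := Int.toNat_of_nonneg (by omega)
  have h2 := congrArg (Int.cast : ℤ → ZMod n) h1
  push_cast at h2
  rw [h2]; ring

theorem isGap_of_gp {i s t : ℤ} (h : Gp n (unroll R) i s t) :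
    IsGap R (i : ZMod n) (s - i).toNat (t - i).toNat := by
  obtain ⟨h1, h2, h3, h4, h5, h6⟩ := h
  refine ⟨by omega, by omega, by omega, ?_, ?_, fun m hm1 hm2 hm3 => ?_⟩
  · rw [cast_toNat h1.le]; exact h4
  · rw [cast_toNat (by omega)]; exact h5
  · refine h6 (i + m) (by omega) (by omega) ?_
    unfold unroll
    push_cast; exact hm3

theorem ZVE.of_visE (h : VisE R E T) : ZVE n (unroll R) (unroll E) (unroll T) := by
  have hz := ZRel.of_visRel h.rel
  refine ⟨hz.symm, hz.per, hz.irrefl, hz.succ, fun i s t hg => ?_, fun a b => by simp [unroll],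
    fun a b => by simp [unroll], fun a b => by simp [unroll], fun a b => by simp [unroll],
    fun i s t hg => ?_, fun i s t hg c c' h1 h2 h3 h4 h5 h6 => ?_, fun i s t hg c h1 h2 h3 => ?_,
    fun i s t hg c h1 h2 h3 x hx1 hx2 => ?_, fun i s t hg c h1 h2 h3 x hx1 hx2 => ?_,
    fun i s t hg c h1 h2 h3 => ?_, fun i s t hg c h1 h2 h3 => ?_⟩
  · obtain ⟨h1, h2, h3, h4, h5, h6⟩ := hg
    exact hz.cn i s t h1 h2 h3 h4 h5 h6
  · obtain ⟨c, hc1, hc2, hc3⟩ := h.thr _ _ _ (isGap_of_gp hg)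
    obtain ⟨h1, h2, h3, h4, h5, h6⟩ := hg
    refine ⟨i + c, by omega, by omega, ?_⟩
    unfold unroll
    push_cast; exact hc3
  · have := h.thr_unique _ _ _ (isGap_of_gp hg) (c - i).toNat (c' - i).toNat
    obtain ⟨g1, g2, g3, g4, g5, g6⟩ := hg
    have h7 := this (by omega) (by omega) (by omega) (by omega)
      (by rw [cast_toNat (by omega)]; exact h5) (by rw [cast_toNat (by omega)]; exact h6)
    omega
  · have := h.t_e _ _ _ (isGap_of_gp hg) (c - i).toNat
    obtain ⟨g1, g2, g3, g4, g5, g6⟩ := hg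
    rw [cast_toNat (by omega)] at this
    rcases this (by omega) (by omega) h3 with h7 | h7 | h7
    · exact Or.inl h7
    · exact Or.inr (Or.inl (by omega))
    · exact Or.inr (Or.inr (by omega))
  · have := h.ve1l _ _ _ (isGap_of_gp hg) (c - i).toNat
    obtain ⟨g1, g2, g3, g4, g5, g6⟩ := hg
    rw [cast_toNat (by omega)] at this
    obtain ⟨k1, k2⟩ := this (by omega) (by omega) h3 (x - i).toNat (by omega)
    rw [cast_toNat hx1] at k1 k2
    refine ⟨fun y hy1 hy2 => ?_, fun d hd1 hd2 => ?_⟩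
    · have := k1 (y - i).toNat (by omega) (by omega)
      rw [cast_toNat (by omega)] at this
      exact this
    · have := k2 (d - i).toNat (by omega) (by omega)
      rw [cast_toNat (by omega)] at this
      exact this
  · have := h.ve1r _ _ _ (isGap_of_gp hg) (c - i).toNat
    obtain ⟨g1, g2, g3, g4, g5, g6⟩ := hg
    rw [cast_toNat (by omega)] at this
    obtain ⟨k1, k2⟩ := this (by omega) (by omega) h3 (x - i).toNat (by omega) (by omega)
    rw [cast_toNat (by omega)] at k1 k2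
    refine ⟨fun y hy1 hy2 => ?_, fun d hd1 hd2 => ?_⟩
    · have := k1 (y - i).toNat (by omega) (by omega)
      rw [cast_toNat (by omega)] at this
      exact this
    · have := k2 (d - i).toNat (by omega) (by omega)
      rw [cast_toNat (by omega)] at this
      exact this
  · have := h.ve2l _ _ _ (isGap_of_gp hg) (c - i).toNat
    obtain ⟨g1, g2, g3, g4, g5, g6⟩ := hg
    rw [cast_toNat (by omega), cast_toNat g1.le] at this
    obtain ⟨k1, k2⟩ := this (by omega) (by omega) h3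
    exact ⟨k1, fun h7 => k2 (by omega)⟩
  · have := h.ve2r _ _ _ (isGap_of_gp hg) (c - i).toNat
    obtain ⟨g1, g2, g3, g4, g5, g6⟩ := hg
    rw [cast_toNat (by omega), cast_toNat (by omega)] at this
    obtain ⟨k1, k2⟩ := this (by omega) (by omega) h3
    exact ⟨k1, fun h7 => k2 (by omega)⟩

end unroll

/-- Mirror image of an edge relation. -/
def mirrorE (E : ℤ → ℤ → Prop) (a d : ℤ) : Prop := E (-a) (-d - 1)

namespace ZVE

variable {n : ℕ} {r E T : ℤ → ℤ → Prop}

theorem perR (h : ZVE n r E T) (a b : ℤ) : r a (b + n) ↔ r a b :=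
  ⟨fun k => h.symm _ _ ((h.per _ _).1 (h.symm _ _ k)),
    fun k => h.symm _ _ ((h.per _ _).2 (h.symm _ _ k))⟩

theorem comm (h : ZVE n r E T) (a b : ℤ) : r a b ↔ r b a := ⟨h.symm _ _, h.symm _ _⟩

theorem perS (h : ZVE n r E T) (a b : ℤ) : r (a - n) b ↔ r a b := by
  rw [← h.per (a - n) b, sub_add_cancel]

theorem perRS (h : ZVE n r E T) (a b : ℤ) : r a (b - n) ↔ r a b := by
  rw [← h.perR a (b - n), sub_add_cancel]

theorem pred (h : ZVE n r E T) (a : ℤ) : r a (a - 1) := by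
  have := h.succ (a - 1)
  rw [sub_add_cancel] at this
  exact h.symm _ _ this

theorem last (h : ZVE n r E T) (a : ℤ) : r a (a + n - 1) := by
  have := (h.perR a (a - 1)).2 (h.pred a)
  have e : a - 1 + (n : ℤ) = a + n - 1 := by ring
  rwa [e] at this

theorem gp_mirror (h : ZVE n r E T) {i s t : ℤ} :
    Gp n (VisMap.mirror r) i s t ↔ Gp n r (-i) (-t + n) (-s + n) := by
  unfold Gp VisMap.mirror
  rw [h.perR, h.perR]
  constructor
  · rintro ⟨h1, h2, h3, h4, h5, h6⟩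
    refine ⟨by omega, by omega, by omega, h5, h4, fun m hm1 hm2 hm3 => ?_⟩
    refine h6 (-(m - n)) (by omega) (by omega) ?_
    rw [neg_neg, h.perRS]; exact hm3
  · rintro ⟨h1, h2, h3, h4, h5, h6⟩
    refine ⟨by omega, by omega, by omega, h5, h4, fun m hm1 hm2 hm3 => ?_⟩
    exact h6 (-m + n) (by omega) (by omega) ((h.perR _ _).2 hm3)

theorem mirror (h : ZVE n r E T) : ZVE n (VisMap.mirror r) (mirrorE E) (mirrorE T) where
  symm a b hab := h.symm _ _ hab
  per a b := by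
    unfold VisMap.mirror
    rw [← h.per (-(a + n))]
    have e : -(a + (n : ℤ)) + n = -a := by ring
    rw [e]
  irrefl a := h.irrefl _
  succ a := by
    unfold VisMap.mirror
    have := h.pred (-a)
    have e : -a - 1 = -(a + 1) := by ring
    rwa [e] at this
  cn i s t hg := by
    have := h.cn _ _ _ (h.gp_mirror.1 hg)
    rw [h.per, h.perR] at this
    exact h.symm _ _ this
  perE a b := by
    unfold mirrorE
    rw [← h.perE (-(a + n))]
    have e : -(a + (n : ℤ)) + n = -a := by ring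
    rw [e]
  perE' a b := by
    unfold mirrorE
    rw [← h.perE' _ (-(b + n) - 1)]
    have e : -(b + (n : ℤ)) - 1 + n = -b - 1 := by ring
    rw [e]
  perT a b := by
    unfold mirrorE
    rw [← h.perT (-(a + n))]
    have e : -(a + (n : ℤ)) + n = -a := by ring
    rw [e]
  perT' a b := by
    unfold mirrorE
    rw [← h.perT' _ (-(b + n) - 1)]
    have e : -(b + (n : ℤ)) - 1 + n = -b - 1 := by ring
    rw [e]
  thr i s t hg := by
    obtain ⟨c, h1, h2, h3⟩ := h.thr _ _ _ (h.gp_mirror.1 hg)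
    refine ⟨-(c - n) - 1, by omega, by omega, ?_⟩
    unfold mirrorE
    rw [← h.perT']
    have e : -(-(c - n) - 1) - 1 + (n : ℤ) = c := by ring
    rwa [e]
  thr_unique i s t hg c c' h1 h2 h3 h4 h5 h6 := by
    have h7 : T (-i) (-c - 1 + n) := (h.perT' _ _).2 h5
    have h8 : T (-i) (-c' - 1 + n) := (h.perT' _ _).2 h6
    have := h.thr_unique _ _ _ (h.gp_mirror.1 hg) _ _ (by omega) (by omega) (by omega)
      (by omega) h7 h8
    omega
  t_e i s t hg c h1 h2 h3 := by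
    have h7 : T (-i) (-c - 1 + n) := (h.perT' _ _).2 h3
    rcases h.t_e _ _ _ (h.gp_mirror.1 hg) _ (by omega) (by omega) h7 with h8 | h8 | h8
    · exact Or.inl ((h.perE' _ _).1 h8)
    · exact Or.inr (Or.inr (by omega))
    · exact Or.inr (Or.inl (by omega))
  ve1l i s t hg c h1 h2 h3 x hx1 hx2 := by
    have h7 : T (-i) (-c - 1 + n) := (h.perT' _ _).2 h3
    obtain ⟨k1, k2⟩ := h.ve1r _ _ _ (h.gp_mirror.1 hg) _ (by omega) (by omega) h7 (-x + n)
      (by omega) (by omega)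
    refine ⟨fun y hy1 hy2 hy3 => ?_, fun d hd1 hd2 hd3 => ?_⟩
    · refine k1 (-y + n) (by omega) (by omega) ?_
      rw [h.per, h.perR]; exact hy3
    · refine k2 (-d - 1 + n) (by omega) (by omega) ?_
      rw [h.perE, h.perE']; exact hd3
  ve1r i s t hg c h1 h2 h3 x hx1 hx2 := by
    have h7 : T (-i) (-c - 1 + n) := (h.perT' _ _).2 h3
    obtain ⟨k1, k2⟩ := h.ve1l _ _ _ (h.gp_mirror.1 hg) _ (by omega) (by omega) h7 (-x + n)
      (by omega) (by omega)
    refine ⟨fun y hy1 hy2 hy3 => ?_, fun d hd1 hd2 hd3 => ?_⟩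
    · refine k1 (-y + n) (by omega) (by omega) ?_
      rw [h.per, h.perR]; exact hy3
    · refine k2 (-d - 1 + n) (by omega) (by omega) ?_
      rw [h.perE, h.perE']; exact hd3
  ve2l i s t hg c h1 h2 h3 := by
    have h7 : T (-i) (-c - 1 + n) := (h.perT' _ _).2 h3
    obtain ⟨k1, k2⟩ := h.ve2r _ _ _ (h.gp_mirror.1 hg) _ (by omega) (by omega) h7
    refine ⟨?_, fun h8 => ?_⟩
    · rw [h.perT, h.perT'] at k1; exact k1
    · have := k2 (by omega)
      rw [h.perE, h.perE'] at this; exact this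
  ve2r i s t hg c h1 h2 h3 := by
    have h7 : T (-i) (-c - 1 + n) := (h.perT' _ _).2 h3
    obtain ⟨k1, k2⟩ := h.ve2l _ _ _ (h.gp_mirror.1 hg) _ (by omega) (by omega) h7
    refine ⟨?_, fun h8 => ?_⟩
    · rw [h.perT, h.perT'] at k1; exact k1
    · have := k2 (by omega)
      rw [h.perE, h.perE'] at this; exact this

/-- The gap of `v` around a hidden vertex `p`. -/
theorem gap_around (h : ZVE n r E T) {v p : ℤ} (h1 : v < p) (h2 : p < v + n) (hp : ¬ r v p) :
    ∃ l t, Gp n r v l t ∧ l < p ∧ p < t := by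
  have hp1 : p ≠ v + 1 := by rintro rfl; exact hp (h.succ v)
  have hp2 : p ≠ v + n - 1 := by rintro rfl; exact hp (h.last v)
  obtain ⟨l, hl1, hl2, hl3, hl4⟩ := exists_last (p := fun z => r v z) (a := v + 1) (b := p - 1)
    (by omega) (h.succ v)
  obtain ⟨t, ht1, ht2, ht3, ht4⟩ := exists_first (p := fun z => r v z) (a := p + 1)
    (b := v + n - 1) (by omega) (h.last v)
  refine ⟨l, t, ⟨by omega, by omega, by omega, hl3, ht3, fun m hm1 hm2 => ?_⟩, by omega, by omega⟩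
  rcases lt_trichotomy m p with hlt | rfl | hgt
  · exact hl4 m hm1 (by omega)
  · exact hp
  · exact ht4 m (by omega) hm2

end ZVE

/-- The hidden interval `[x, y]` is a pocket of `v`: either an `R`-pocket (hider `x - 1`, threshold
edge `(y, y + 1)`) or an `L`-pocket (hider `y + 1`, threshold edge `(x - 1, x)`). -/
def Pk (n : ℕ) (r T : ℤ → ℤ → Prop) (v x y : ℤ) : Prop :=
  x ≤ y ∧ ((∃ t, Gp n r v (x - 1) t ∧ y < t ∧ T v y) ∨
    (∃ s, Gp n r v s (y + 1) ∧ s ≤ x - 1 ∧ T v (x - 1)))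

namespace ZVE

variable {n : ℕ} {r E T : ℤ → ℤ → Prop}

theorem pk_bounds {v x y : ℤ} (h : Pk n r T v x y) : v < x ∧ x ≤ y ∧ y < v + n := by
  obtain ⟨h1, ⟨t, ⟨g1, g2, g3, -⟩, h3, -⟩ | ⟨s, ⟨g1, g2, g3, -⟩, h3, -⟩⟩ := h
  · exact ⟨by omega, by omega, by omega⟩
  · exact ⟨by omega, by omega, by omega⟩

theorem pk_mirror (h : ZVE n r E T) {v x y : ℤ} :
    Pk n (VisMap.mirror r) (mirrorE T) v x y ↔ Pk n r T (-v) (-y + n) (-x + n) := by
  unfold Pk
  constructor
  · rintro ⟨h1, ⟨t, hg, h3, h4⟩ | ⟨s, hg, h3, h4⟩⟩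
    · refine ⟨by omega, Or.inr ⟨-t + n, ?_, by omega, ?_⟩⟩
      · have := h.gp_mirror.1 hg
        have e : -(x - 1) + (n : ℤ) = -x + n + 1 := by ring
        rwa [e] at this
      · have h5 : T (-v) (-y - 1) := h4
        rw [← h.perT'] at h5
        have e : -y - 1 + (n : ℤ) = -y + n - 1 := by ring
        rwa [e] at h5
    · refine ⟨by omega, Or.inl ⟨-s + n, ?_, by omega, ?_⟩⟩
      · have := h.gp_mirror.1 hg
        have e : -(y + 1) + (n : ℤ) = -y + n - 1 := by ring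
        rwa [e] at this
      · have h5 : T (-v) (-(x - 1) - 1) := h4
        rw [← h.perT'] at h5
        have e : -(x - 1) - 1 + (n : ℤ) = -x + n := by ring
        rwa [e] at h5
  · rintro ⟨h1, ⟨t, hg, h3, h4⟩ | ⟨s, hg, h3, h4⟩⟩
    · refine ⟨by omega, Or.inr ⟨-t + n, ?_, by omega, ?_⟩⟩
      · rw [h.gp_mirror]
        have e1 : -(y + 1) + (n : ℤ) = -y + n - 1 := by ring
        have e2 : -(-t + (n : ℤ)) + n = t := by ring
        rwa [e1, e2]
      · show T (-v) (-(x - 1) - 1)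
        rw [← h.perT']
        have e : -(x - 1) - 1 + (n : ℤ) = -x + n := by ring
        rwa [e]
    · refine ⟨by omega, Or.inl ⟨-s + n, ?_, by omega, ?_⟩⟩
      · rw [h.gp_mirror]
        have e1 : -(x - 1) + (n : ℤ) = -x + n + 1 := by ring
        have e2 : -(-s + (n : ℤ)) + n = s := by ring
        rwa [e1, e2]
      · show T (-v) (-y - 1)
        rw [← h.perT']
        have e : -y - 1 + (n : ℤ) = -y + n - 1 := by ring
        rwa [e]

/-- Lemma T1. -/
theorem t1 (h : ZVE n r E T) {v0 p y0 c : ℤ} (hg : Gp n r v0 p y0) (hT : T v0 c) (hpc : p < c)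
    (hcy : c < y0) {z v : ℤ} (hz1 : v0 ≤ z) (hz2 : z < p) (hv1 : c - n < v) (hv2 : v < p)
    (hvz : v = z ∨ r v z) (hvp : ¬ r v p) : ∃ x y, Pk n r T v x y ∧ x ≤ p ∧ c ≤ y := by
  have g3 := hg.2.2.1
  obtain ⟨l, t, hgl, hlp, hpt⟩ := h.gap_around hv2 (by omega) hvp
  obtain ⟨k1, k2, k3, k4, k5, k6⟩ := hgl
  have hl0 : v0 ≤ l := by
    rcases hvz with rfl | hvz
    · omega
    · by_contra hc
      push Not at hc
      -- then `z > v` is visible and lies in `(l, p)`
      exact k6 z (by omega) (by omega) hvz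
  have hv := h.ve1l _ _ _ hg c hpc.le hcy hT l hl0 hlp
  have hlt : r l t := h.cn _ _ _ ⟨k1, k2, k3, k4, k5, k6⟩
  have hct : c < t := by
    by_contra hc
    push Not at hc
    exact hv.1 t hpt hc hlt
  obtain ⟨c', hc1, hc2, hc3⟩ := h.thr _ _ _ ⟨k1, k2, k3, k4, k5, k6⟩
  rcases lt_or_ge c' c with hcc | hcc
  · rcases lt_or_ge c' p with hcp | hcp
    · refine ⟨c' + 1, t - 1, ⟨by omega, Or.inr ⟨l, ?_, by omega, ?_⟩⟩, by omega, by omega⟩
      · rw [sub_add_cancel]; exact ⟨k1, k2, k3, k4, k5, k6⟩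
      · rw [add_sub_cancel_right]; exact hc3
    · exfalso
      have := (h.ve2l _ _ _ ⟨k1, k2, k3, k4, k5, k6⟩ c' (by omega) hc2 hc3).2 (by omega)
      exact hv.2 c' hcp hcc this
  · refine ⟨l + 1, c', ⟨by omega, Or.inl ⟨t, ?_, hc2, hc3⟩⟩, by omega, hcc⟩
    rw [add_sub_cancel_right]; exact ⟨k1, k2, k3, k4, k5, k6⟩

/-- Lemma T1 for `L`-pockets. -/
theorem t1L (h : ZVE n r E T) {v0 p y0 c : ℤ} (hg : Gp n r v0 y0 p) (hT : T v0 c) (hyc : y0 ≤ c)
    (hcp : c + 1 < p) {z v : ℤ} (hz1 : p - n < z) (hz2 : z ≤ v0) (hv1 : p - n < v) (hv2 : v ≤ c)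
    (hvz : v = z ∨ r v z) (hvp : ¬ r v p) : ∃ x y, Pk n r T v x y ∧ x ≤ c + 1 ∧ p ≤ y := by
  have hg' : Gp n (VisMap.mirror r) (-v0) (-p + n) (-y0 + n) := by
    rw [h.gp_mirror]
    have e1 : -(-y0 + (n : ℤ)) + n = y0 := by ring
    have e2 : -(-p + (n : ℤ)) + n = p := by ring
    rwa [e1, e2, neg_neg]
  have hT' : mirrorE T (-v0) (-c - 1 + n) := by
    show T (- -v0) (-(-c - 1 + n) - 1)
    rw [neg_neg, ← h.perT']
    have e : -(-c - 1 + (n : ℤ)) - 1 + n = c := by ring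
    rwa [e]
  obtain ⟨x, y, hP, hx, hy⟩ := h.mirror.t1 hg' hT' (by omega) (by omega) (z := -z) (v := -v)
    (by omega) (by omega) (by omega) (by omega)
    (by
      rcases hvz with rfl | hvz
      · exact Or.inl rfl
      · refine Or.inr ?_
        show r (- -v) (- -z)
        rwa [neg_neg, neg_neg])
    (by
      intro hc
      have hc' : r (- -v) (-(-p + n)) := hc
      rw [neg_neg, ← h.perR] at hc'
      have e : -(-p + (n : ℤ)) + n = p := by ring
      rw [e] at hc'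
      exact hvp hc')
  rw [h.pk_mirror, neg_neg] at hP
  exact ⟨_, _, hP, by omega, by omega⟩

end ZVE

end VisMap
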