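import Pool.Agent.Lib.MP_9f3af0_lc.K2a
import Pool.Agent.Lib.MP_9f3af0_lc.AgB

/-!
# MP_9f3af0_lc, two classes: counting visible vertices of one class
-/

namespace VisMap

theorem dvd_small {n : ℕ} {z : ℤ} (h : (n : ℤ) ∣ z) (h1 : -(n : ℤ) < z) (h2 : z < n) : z = 0 :=
  Int.eq_zero_of_abs_lt_dvd h (abs_lt.2 ⟨h1, h2⟩)

theorem per_mul {n : ℕ} {p : ℤ → Prop} (hp : ∀ z, p (z + n) ↔ p z) (z k : ℤ) :
    p (z + k * n) ↔ p z := by
  induction k with
  | zero => rw [zero_mul, add_zero]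
  | succ i ih =>
    rw [← ih, ← hp (z + i * n)]
    have e : z + ((i : ℤ) + 1) * n = z + i * n + n := by ring
    rw [e]
  | pred i ih =>
    rw [← ih, ← hp (z + (-(i : ℤ) - 1) * n)]
    have e : z + (-(i : ℤ) - 1) * n + n = z + -(i : ℤ) * n := by ring
    rw [e]

theorem card_window_le {n : ℕ} (hn : 0 < n) (p : ℤ → Prop) [DecidablePred p]
    (hp : ∀ z, p (z + n) ↔ p z) (w w' : ℤ) :
    ((Finset.Ico w (w + n)).filter p).card ≤ ((Finset.Ico w' (w' + n)).filter p).card := by
  refine Finset.card_le_card_of_injOn (fun z => w' + (z - w') % n) ?_ ?_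
  · intro z hz
    have hz' := Finset.mem_filter.1 (Finset.mem_coe.1 hz)
    refine Finset.mem_coe.2 (Finset.mem_filter.2 ⟨Finset.mem_Ico.2 ⟨?_, ?_⟩, ?_⟩)
    · have := Int.emod_nonneg (z - w') (show (n : ℤ) ≠ 0 by omega)
      show w' ≤ w' + (z - w') % n
      omega
    · have := Int.emod_lt_of_pos (z - w') (show (0 : ℤ) < n by omega)
      show w' + (z - w') % n < w' + n
      omega
    · show p (w' + (z - w') % n)
      have h1 := Int.mul_ediv_add_emod (z - w') n
      have e : w' + (z - w') % n = z + (-((z - w') / n)) * n := by linarith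
      rw [e, per_mul hp]
      exact hz'.2
  · intro a ha b hb hab
    have ha' := Finset.mem_Ico.1 (Finset.mem_filter.1 (Finset.mem_coe.1 ha)).1
    have hb' := Finset.mem_Ico.1 (Finset.mem_filter.1 (Finset.mem_coe.1 hb)).1
    have hab' : (a - w') % n = (b - w') % n := by
      have : w' + (a - w') % n = w' + (b - w') % n := hab
      omega
    have h1 : (n : ℤ) ∣ (b - w') - (a - w') := (show a - w' ≡ b - w' [ZMOD n] from hab').dvd
    have := dvd_small (z := b - a) (by
      have e : b - w' - (a - w') = b - a := by ring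
      rwa [e] at h1) (by omega) (by omega)
    omega

theorem card_window {n : ℕ} (hn : 0 < n) (p : ℤ → Prop) [DecidablePred p]
    (hp : ∀ z, p (z + n) ↔ p z) (w w' : ℤ) :
    ((Finset.Ico w (w + n)).filter p).card = ((Finset.Ico w' (w' + n)).filter p).card :=
  le_antisymm (card_window_le hn p hp w w') (card_window_le hn p hp w' w)

/-- Closed neighbourhoods. -/
def NN (n : ℕ) (r : ℤ → ℤ → Prop) (v z : ℤ) : Prop := (n : ℤ) ∣ z - v ∨ r v z

open Classical in
/-- The number of vertices of the class `e` in the closed neighbourhood of `v`, counted in the window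
`[w, w + n)`. -/
noncomputable def cntW (n : ℕ) (r : ℤ → ℤ → Prop) (e v w : ℤ) : ℕ :=
  ((Finset.Ico w (w + n)).filter fun z => z % 2 = e ∧ NN n r v z).card

open Classical in
/-- The number of visible vertices of the class `e` in `(v, y]`. -/
noncomputable def lev (r : ℤ → ℤ → Prop) (e v y : ℤ) : ℕ :=
  ((Finset.Ioc v y).filter fun z => z % 2 = e ∧ r v z).card

theorem NN_per {n : ℕ} {r : ℤ → ℤ → Prop} (hper : ∀ a b, r a (b + n) ↔ r a b) (v z : ℤ) :
    NN n r v (z + n) ↔ NN n r v z := by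
  unfold NN
  rw [hper]
  have e : z + (n : ℤ) - v = (z - v) + n := by ring
  rw [e, dvd_add_self_right]

theorem cntW_window {n : ℕ} (hn : 0 < n) (h2 : (n : ℤ) % 2 = 0) {r : ℤ → ℤ → Prop}
    (hper : ∀ a b, r a (b + n) ↔ r a b) (e v w w' : ℤ) : cntW n r e v w = cntW n r e v w' := by
  classical
  refine card_window hn _ (fun z => ?_) w w'
  rw [NN_per hper]
  have : (z + (n : ℤ)) % 2 = z % 2 := by omega
  rw [this]

theorem lev_mono {r : ℤ → ℤ → Prop} {e v y y' : ℤ} (h : y ≤ y') : lev r e v y ≤ lev r e v y' := by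
  classical
  refine Finset.card_le_card fun z hz => ?_
  rw [Finset.mem_filter, Finset.mem_Ioc] at hz ⊢
  exact ⟨⟨hz.1.1, hz.1.2.trans h⟩, hz.2⟩

theorem lev_lt {r : ℤ → ℤ → Prop} {e v y y' z : ℤ} (hv : v < z) (h1 : y < z) (h2 : z ≤ y')
    (hz : z % 2 = e) (hr : r v z) : lev r e v y < lev r e v y' := by
  classical
  refine Finset.card_lt_card ⟨fun x hx => ?_, fun hsub => ?_⟩
  · rw [Finset.mem_filter, Finset.mem_Ioc] at hx ⊢
    exact ⟨⟨hx.1.1, by omega⟩, hx.2⟩
  · have := hsub (Finset.mem_filter.2 ⟨Finset.mem_Ioc.2 ⟨hv, h2⟩, hz, hr⟩)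
    rw [Finset.mem_filter, Finset.mem_Ioc] at this
    omega

theorem lev_eq {r : ℤ → ℤ → Prop} {e v y y' : ℤ} (h : y ≤ y')
    (hno : ∀ z, y < z → z ≤ y' → z % 2 = e → ¬ r v z) : lev r e v y = lev r e v y' := by
  classical
  refine le_antisymm (lev_mono h) (Finset.card_le_card fun z hz => ?_)
  rw [Finset.mem_filter, Finset.mem_Ioc] at hz ⊢
  refine ⟨⟨hz.1.1, ?_⟩, hz.2⟩
  by_contra hc
  exact hno z (by omega) hz.1.2 hz.2.1 hz.2.2

theorem cntW_self {n : ℕ} (hn : 0 < n) {r : ℤ → ℤ → Prop} {e v : ℤ} (hv : v % 2 = e) :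
    cntW n r e v v = lev r e v (v + n - 1) + 1 := by
  classical
  have h1 : (Finset.Ico v (v + n)).filter (fun z => z % 2 = e ∧ NN n r v z) =
      insert v ((Finset.Ioc v (v + n - 1)).filter fun z => z % 2 = e ∧ r v z) := by
    ext z
    rw [Finset.mem_insert, Finset.mem_filter, Finset.mem_filter, Finset.mem_Ico, Finset.mem_Ioc]
    constructor
    · rintro ⟨⟨h1, h2⟩, h3, h4⟩
      rcases h1.lt_or_eq with h5 | h5
      · right
        refine ⟨⟨h5, by omega⟩, h3, ?_⟩
        rcases h4 with h4 | h4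
        · have := dvd_small h4 (by omega) (by omega); omega
        · exact h4
      · left; exact h5.symm
    · rintro (rfl | ⟨⟨h1, h2⟩, h3, h4⟩)
      · exact ⟨⟨le_rfl, by omega⟩, hv, Or.inl (by simp)⟩
      · exact ⟨⟨h1.le, by omega⟩, h3, Or.inr h4⟩
  unfold cntW lev
  rw [h1, Finset.card_insert_of_notMem]
  rw [Finset.mem_filter, Finset.mem_Ioc]
  omega

theorem cntW_self' {n : ℕ} {r : ℤ → ℤ → Prop} {e v : ℤ} (hv : v % 2 ≠ e) :
    cntW n r e v v = lev r e v (v + n - 1) := by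
  classical
  unfold cntW lev
  congr 1
  ext z
  rw [Finset.mem_filter, Finset.mem_filter, Finset.mem_Ico, Finset.mem_Ioc]
  constructor
  · rintro ⟨⟨h1, h2⟩, h3, h4⟩
    have hne : z ≠ v := by rintro rfl; exact hv h3
    refine ⟨⟨by omega, by omega⟩, h3, ?_⟩
    rcases h4 with h4 | h4
    · have := dvd_small h4 (by omega) (by omega); omega
    · exact h4
  · rintro ⟨⟨h1, h2⟩, h3, h4⟩
    exact ⟨⟨h1.le, by omega⟩, h3, Or.inr h4⟩

/-- The order isomorphism between the views of two vertices of the same class. -/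
theorem transfer {n : ℕ} {r : Bool → ℤ → ℤ → Prop} (h : Fam n 2 r) (s s' : Bool) {v w : ℤ}
    (hvw : 2 ∣ w - v) (e : ℤ) : ∃ ψ : ℤ → ℤ,
      (∀ y, v < y → y < v + n → r s v y → w < ψ y ∧ ψ y < w + n ∧ r s' w (ψ y) ∧
        ψ y % 2 = y % 2 ∧ lev (r s') e w (ψ y) = lev (r s) e v y) ∧
      (∀ y1 y2, v < y1 → y1 < y2 → y2 < v + n → r s v y1 → r s v y2 → ψ y1 < ψ y2) ∧
      (∀ y', w < y' → y' < w + n → r s' w y' → ∃ y, v < y ∧ y < v + n ∧ r s v y ∧ ψ y = y') := by
  classical
  obtain ⟨φ, h1, h2, h3, h4⟩ := h.fw s s' v w hvw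
  have hP : ∀ y, v < y → y < v + n → r s v y → Fw n (r s) v (y - v) := fun y a b c =>
    ⟨by omega, by omega, by rwa [add_sub_cancel]⟩
  have hmono : ∀ y1 y2, v < y1 → y1 < y2 → y2 < v + n → r s v y1 → r s v y2 →
      w + φ (y1 - v) < w + φ (y2 - v) := by
    intro y1 y2 a b c d e
    have := h3 _ _ (hP y1 a (by omega) d) (hP y2 (by omega) c e) (by omega)
    omega
  have hsurj : ∀ y', w < y' → y' < w + n → r s' w y' →
      ∃ y, v < y ∧ y < v + n ∧ r s v y ∧ w + φ (y - v) = y' := by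
    intro y' a b c
    obtain ⟨o, ho1, ho2⟩ := h4 (y' - w) ⟨by omega, by omega, by rwa [add_sub_cancel]⟩
    refine ⟨v + o, by have := ho1.1; omega, by have := ho1.2.1; omega, ho1.2.2, ?_⟩
    rw [add_sub_cancel_left, ho2]; ring
  have hbase : ∀ y, v < y → y < v + n → r s v y → w < w + φ (y - v) ∧ w + φ (y - v) < w + n ∧
      r s' w (w + φ (y - v)) ∧ (w + φ (y - v)) % 2 = y % 2 := by
    intro y a b c
    have g1 := h1 _ (hP y a b c)
    have g2 := h2 _ (hP y a b c)
    refine ⟨by have := g1.1; omega, by have := g1.2.1; omega, g1.2.2, ?_⟩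
    omega
  refine ⟨fun y => w + φ (y - v), fun y a b c => ?_, hmono, hsurj⟩
  obtain ⟨b1, b2, b3, b4⟩ := hbase y a b c
  refine ⟨b1, b2, b3, b4, ?_⟩
  unfold lev
  have himg : (Finset.Ioc w (w + φ (y - v))).filter (fun z => z % 2 = e ∧ r s' w z) =
      ((Finset.Ioc v y).filter (fun z => z % 2 = e ∧ r s v z)).image (fun z => w + φ (z - v)) := by
    ext z'
    rw [Finset.mem_filter, Finset.mem_Ioc, Finset.mem_image]
    constructor
    · rintro ⟨⟨c1, c2⟩, c3, c4⟩
      obtain ⟨z, d1, d2, d3, d4⟩ := hsurj z' c1 (by omega) c4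
      refine ⟨z, ?_, d4⟩
      rw [Finset.mem_filter, Finset.mem_Ioc]
      refine ⟨⟨d1, ?_⟩, ?_, d3⟩
      · by_contra hc
        push Not at hc
        have := hmono y z a hc d2 c d3
        omega
      · have := (hbase z d1 d2 d3).2.2.2
        rw [d4] at this
        omega
    · rintro ⟨z, hz, rfl⟩
      rw [Finset.mem_filter, Finset.mem_Ioc] at hz
      obtain ⟨⟨c1, c2⟩, c3, c4⟩ := hz
      obtain ⟨e1, e2, e3, e4⟩ := hbase z c1 (by omega) c4
      refine ⟨⟨e1, ?_⟩, by omega, e3⟩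
      rcases c2.lt_or_eq with hlt | rfl
      · exact (hmono z y c1 hlt b c4 c).le
      · exact le_rfl
  have hinj : Set.InjOn (fun z => w + φ (z - v))
      ((Finset.Ioc v y).filter (fun z => z % 2 = e ∧ r s v z) : Finset ℤ) := by
    intro z1 hz1 z2 hz2 h12
    have a1 := Finset.mem_filter.1 (Finset.mem_coe.1 hz1)
    have a2 := Finset.mem_filter.1 (Finset.mem_coe.1 hz2)
    rw [Finset.mem_Ioc] at a1 a2
    have h12' : w + φ (z1 - v) = w + φ (z2 - v) := h12
    rcases lt_trichotomy z1 z2 with hlt | heq | hgt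
    · have := hmono z1 z2 a1.1.1 hlt (by omega) a1.2.2 a2.2.2; omega
    · exact heq
    · have := hmono z2 z1 a2.1.1 hgt (by omega) a2.2.2 a1.2.2; omega
  show ((Finset.Ioc w (w + φ (y - v))).filter (fun z => z % 2 = e ∧ r s' w z)).card =
    ((Finset.Ioc v y).filter (fun z => z % 2 = e ∧ r s v z)).card
  rw [himg, Finset.card_image_of_injOn hinj]

/-- Two vertices of the same class see equally many vertices of each class. -/
theorem lev_total {n : ℕ} {r : Bool → ℤ → ℤ → Prop} (h : Fam n 2 r) (s s' : Bool) {v w : ℤ}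
    (hvw : 2 ∣ w - v) (e : ℤ) :
    lev (r s') e w (w + n - 1) = lev (r s) e v (v + n - 1) := by
  have hn := h.three
  obtain ⟨ψ, h1, h2, h3⟩ := transfer h s s' hvw e
  have hlast := (h.zr s).last v
  have hlast' := (h.zr s').last w
  obtain ⟨a1, a2, a3, a4, a5⟩ := h1 (v + n - 1) (by omega) (by omega) hlast
  obtain ⟨y, b1, b2, b3, b4⟩ := h3 (w + n - 1) (by omega) (by omega) hlast'
  have : ψ (v + n - 1) = w + n - 1 := by
    rcases lt_or_ge y (v + n - 1) with hlt | hge
    · have := h2 y (v + n - 1) b1 hlt (by omega) b3 hlast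
      omega
    · have : y = v + n - 1 := by omega
      rw [← this]; exact b4
  rw [← this]; exact a5

theorem cntW_const {n : ℕ} {r : Bool → ℤ → ℤ → Prop} (h : Fam n 2 r) (s s' : Bool) {v w : ℤ}
    (hvw : 2 ∣ w - v) (e : ℤ) : cntW n (r s') e w w = cntW n (r s) e v v := by
  have hn := h.three
  by_cases hv : v % 2 = e
  · rw [cntW_self (by omega) hv, cntW_self (by omega) (show w % 2 = e by omega),
      lev_total h s s' hvw e]
  · rw [cntW_self' hv, cntW_self' (show w % 2 ≠ e by omega), lev_total h s s' hvw e]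

theorem even_of_fam {n : ℕ} {r : Bool → ℤ → ℤ → Prop} (h : Fam n 2 r) : (n : ℤ) % 2 = 0 := by
  have := h.dvd
  omega

/-- Mirror images of `ZRel`. -/
theorem ZRel.mirror {n : ℕ} {r : ℤ → ℤ → Prop} (h : ZRel n r) : ZRel n (VisMap.mirror r) := by
  have hz := ZR.of_zRel h
  have hm := hz.mirror
  refine ⟨hm.symm, hm.per, hm.irrefl, hm.succ, hm.cn, fun i s t h0 h1 h2 hs ht hno => ?_⟩
  have hs' : r (-i) (-s + n) := (hz.perR _ _).2 hs
  have ht' : r (-i) (-t + n) := (hz.perR _ _).2 ht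
  obtain ⟨c, hc1, hc2, hc3, hc4⟩ := h.nc (-i) (-t + n) (-s + n) (by omega) (by omega) (by omega)
    ht' hs' (fun m hm1 hm2 hm3 => by
      refine hno (-(m - n)) (by omega) (by omega) ?_
      show r (-i) (- -(m - n))
      rw [neg_neg, ← hz.perR, sub_add_cancel]; exact hm3)
  refine ⟨-(c - n) - 1, by omega, by omega, fun x y hx1 hx2 hy1 hy2 hxy => ?_,
    fun x y hx1 hx2 hy1 hy2 hxy => ?_⟩
  · refine hc4 (-x + n) (-y + n) (by omega) (by omega) (by omega) (by omega) ?_
    rw [hz.per, hz.perR]; exact hxy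
  · refine hc3 (-x + n) (-y + n) (by omega) (by omega) (by omega) (by omega) ?_
    rw [hz.per, hz.perR]; exact hxy

theorem Fam.mirror {n : ℕ} {k : ℤ} {r : Bool → ℤ → ℤ → Prop} (h : Fam n k r) :
    Fam n k (fun s => VisMap.mirror (r s)) := by
  refine ⟨h.three, h.kpos, h.dvd, fun s => (h.zrel s).mirror, fun s s' i i' hi => ?_⟩
  have h1 := h.bw s s' (-i) (-i') (by
    have e : -i' - -i = -(i' - i) := by ring
    rw [e]; exact (dvd_neg).2 hi)
  have e1 : ∀ (s : Bool) (i : ℤ), Fw n (VisMap.mirror (r s)) i = Bw n (r s) (-i) := by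
    intro s i
    funext o
    unfold Fw Bw VisMap.mirror
    have e : -(i + o) = -i - o := by ring
    rw [e]
  rw [e1, e1]; exact h1

theorem cntW_mirror {n : ℕ} (hn : 0 < n) (h2 : (n : ℤ) % 2 = 0) {r : ℤ → ℤ → Prop}
    (hper : ∀ a b, r a (b + n) ↔ r a b) (e v w w' : ℤ) :
    cntW n (VisMap.mirror r) e v w = cntW n r e (-v) w' := by
  classical
  rw [cntW_window hn h2 hper e (-v) w' (-w - n + 1)]
  unfold cntW
  refine Finset.card_bij (fun z _ => -z) ?_ ?_ ?_
  · intro z hz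
    rw [Finset.mem_filter, Finset.mem_Ico] at hz ⊢
    refine ⟨by omega, by omega, ?_⟩
    rcases hz.2.2 with h3 | h3
    · left
      have e1 : -z - -v = -(z - v) := by ring
      rw [e1]; exact (dvd_neg).2 h3
    · right; exact h3
  · intro a _ b _ hab
    omega
  · intro z hz
    refine ⟨-z, ?_, by ring⟩
    rw [Finset.mem_filter, Finset.mem_Ico] at hz ⊢
    refine ⟨by omega, by omega, ?_⟩
    rcases hz.2.2 with h3 | h3
    · left
      have e1 : -z - v = -(z - -v) := by ring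
      rw [e1]; exact (dvd_neg).2 h3
    · right
      show r (-v) (- -z)
      rwa [neg_neg]

end VisMap
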