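import Pool.Agent.Lib.MP_9f3af0_lc.K2b

/-!
# MP_9f3af0_lc, two classes: maximal pockets and nested neighbourhoods

helper88, paper 604, (T1') and (3.1).
-/

namespace VisMap

theorem NN_symm {n : ℕ} {r : ℤ → ℤ → Prop} (hs : ∀ a b, r a b → r b a) {v z : ℤ}
    (h : NN n r v z) : NN n r z v := by
  rcases h with h | h
  · left
    have e : v - z = -(z - v) := by ring
    rw [e]; exact (dvd_neg).2 h
  · exact Or.inr (hs _ _ h)

theorem NN_of_ne {n : ℕ} {r : ℤ → ℤ → Prop} {v z : ℤ} (h : NN n r v z) (hne : v ≠ z)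
    (h1 : -(n : ℤ) < z - v) (h2 : z - v < n) : r v z := by
  rcases h with h | h
  · have := dvd_small h h1 h2
    omega
  · exact h

/-- Representatives. -/
theorem exists_rep {n : ℕ} (hn : 0 < n) (h2 : (n : ℤ) % 2 = 0) (v w : ℤ) :
    ∃ v', w < v' ∧ v' ≤ w + n ∧ v' % 2 = v % 2 ∧
      ∀ p : ℤ → Prop, (∀ z, p (z + n) ↔ p z) → (p v' ↔ p v) := by
  have h1 := Int.emod_nonneg (v - w - 1) (show (n : ℤ) ≠ 0 by omega)
  have h3 := Int.emod_lt_of_pos (v - w - 1) (show (0 : ℤ) < n by omega)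
  have h4 := Int.mul_ediv_add_emod (v - w - 1) n
  obtain ⟨m, hm⟩ : ∃ m : ℤ, (n : ℤ) = 2 * m := ⟨n / 2, by omega⟩
  refine ⟨w + 1 + (v - w - 1) % n, by omega, by omega, ?_, fun p hp => ?_⟩
  · have e : w + 1 + (v - w - 1) % n = v - 2 * (m * ((v - w - 1) / n)) := by
      have h5 : (n : ℤ) * ((v - w - 1) / n) = 2 * (m * ((v - w - 1) / n)) := by
        conv_lhs => rw [hm]
        rw [mul_assoc, ← hm]
      linarith
    rw [e]; omega
  · have e : w + 1 + (v - w - 1) % n = v + (-((v - w - 1) / n)) * n := by linarith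
    rw [e, per_mul hp]

/-- Equal cardinalities. -/
theorem NN_eq_of_sub {n : ℕ} (hn : 0 < n) (h2 : (n : ℤ) % 2 = 0) {r : ℤ → ℤ → Prop}
    (hper : ∀ a b, r a (b + n) ↔ r a b) {e z p : ℤ}
    (hsub : ∀ v, v % 2 = e → NN n r z v → NN n r p v)
    (hcard : cntW n r e p p ≤ cntW n r e z z) :
    ∀ v, v % 2 = e → NN n r p v → NN n r z v := by
  classical
  intro v hv hpv
  rw [cntW_window hn h2 hper e z z p] at hcard
  unfold cntW at hcard
  have h3 : (Finset.Ico p (p + n)).filter (fun x => x % 2 = e ∧ NN n r z x) ⊆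
      (Finset.Ico p (p + n)).filter (fun x => x % 2 = e ∧ NN n r p x) := by
    intro x hx
    rw [Finset.mem_filter] at hx ⊢
    exact ⟨hx.1, hx.2.1, hsub x hx.2.1 hx.2.2⟩
  have h4 := Finset.eq_of_subset_of_card_le h3 hcard
  obtain ⟨v', a1, a2, a3, a4⟩ := exists_rep hn h2 v (p - 1)
  have h5 : NN n r p v' := (a4 _ (NN_per hper p)).2 hpv
  have h6 : v' ∈ (Finset.Ico p (p + n)).filter (fun x => x % 2 = e ∧ NN n r p x) :=
    Finset.mem_filter.2 ⟨Finset.mem_Ico.2 ⟨by omega, by omega⟩, by omega, h5⟩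
  rw [← h4] at h6
  exact (a4 _ (NN_per hper z)).1 (Finset.mem_filter.1 h6).2.2

/-- (T1') for `R`-pockets which are at least as long as all pockets of the vertices of the class. -/
theorem t1R_gen {n : ℕ} {r E T : ℤ → ℤ → Prop} {e h : ℤ} (Z : ZVE n r E T) (h3 : 3 ≤ n)
    (h2 : (n : ℤ) % 2 = 0) (hmax : ∀ v x y, v % 2 = e → Pk n r T v x y → y - x + 1 ≤ h)
    {v0 p y0 c : ℤ} (hg : Gp n r v0 p y0) (hT : T v0 c)
    (hpc : p < c) (hcy : c < y0) (hlen : h ≤ c - p) {z : ℤ} (hz1 : v0 ≤ z) (hz2 : z < p)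
    {v : ℤ} (hv : v % 2 = e) (hzv : NN n r z v) : NN n r p v := by
  have g1 := hg.1
  have g2 := hg.2.1
  have g3 := hg.2.2.1
  obtain ⟨v', a1, a2, a3, a4⟩ := exists_rep (show 0 < n by omega) h2 v (c - n)
  rw [← a4 _ (NN_per Z.perR p)]
  rw [← a4 _ (NN_per Z.perR z)] at hzv
  rcases lt_trichotomy v' p with hlt | rfl | hgt
  · by_cases hr : r v' p
    · exact Or.inr (Z.symm _ _ hr)
    · exfalso
      obtain ⟨x, y, hP, hx, hy⟩ := Z.t1 hg hT hpc hcy hz1 hz2 (v := v') (by omega) hlt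
        (by
          rcases hzv with h4 | h4
          · have := dvd_small h4 (by omega) (by omega)
            exact Or.inl (by omega)
          · exact Or.inr (Z.symm _ _ h4)) hr
      have := hmax _ _ _ (by omega) hP
      omega
  · exact Or.inl (by simp)
  · exfalso
    rcases hzv with h4 | h4
    · have := dvd_small h4 (by omega) (by omega)
      omega
    · exact (Z.ve1l _ _ _ hg c hpc.le hcy hT z hz1 hz2).1 v' hgt (by omega) h4

/-- (T1') for `L`-pockets. -/
theorem t1L_gen {n : ℕ} {r E T : ℤ → ℤ → Prop} {e h : ℤ} (Z : ZVE n r E T) (h3 : 3 ≤ n)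
    (h2 : (n : ℤ) % 2 = 0) (hmax : ∀ v x y, v % 2 = e → Pk n r T v x y → y - x + 1 ≤ h)
    {v0 p y0 c : ℤ} (hg : Gp n r v0 y0 p) (hT : T v0 c)
    (hyc : y0 ≤ c) (hcp : c + 1 < p) (hlen : h ≤ p - 1 - c) {z : ℤ} (hz1 : p - n < z)
    (hz2 : z ≤ v0) {v : ℤ} (hv : v % 2 = e) (hzv : NN n r z v) : NN n r p v := by
  have g1 := hg.1
  have g2 := hg.2.1
  have g3 := hg.2.2.1
  obtain ⟨v', a1, a2, a3, a4⟩ := exists_rep (show 0 < n by omega) h2 v (p - n)
  rw [← a4 _ (NN_per Z.perR p)]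
  rw [← a4 _ (NN_per Z.perR z)] at hzv
  rcases lt_or_ge v' (c + 1) with hlt | hge
  · by_cases hr : r v' p
    · exact Or.inr (Z.symm _ _ hr)
    · exfalso
      obtain ⟨x, y, hP, hx, hy⟩ := Z.t1L hg hT hyc hcp hz1 hz2 (v := v') (by omega)
        (by omega)
        (by
          rcases hzv with h4 | h4
          · have := dvd_small h4 (by omega) (by omega)
            exact Or.inl (by omega)
          · exact Or.inr (Z.symm _ _ h4)) hr
      have := hmax _ _ _ (by omega) hP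
      omega
  · rcases lt_or_ge v' p with hvp | hvp
    · exfalso
      rcases hzv with h4 | h4
      · have := dvd_small h4 (by omega) (by omega)
        omega
      · exact (Z.ve1r _ _ _ hg c hyc (by omega) hT (z + n) (by omega) (by omega)).1 v'
          (by omega) (by omega) ((Z.per _ _).2 h4)
    · have : v' = p := by omega
      rw [this]; exact Or.inl (by simp)

/-- The context: `h` is the maximal length of a pocket of a vertex of the class `e`. -/
structure Ctx (n : ℕ) (r : Bool → ℤ → ℤ → Prop) (s : Bool) (E T : ℤ → ℤ → Prop)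
    (e h : ℤ) : Prop where
  fam : Fam n 2 r
  zve : ZVE n (r s) E T
  e01 : e = 0 ∨ e = 1
  ba : ∀ v w, v % 2 = e → w % 2 ≠ e → cntW n (r s) e w w ≤ cntW n (r s) e v v
  hmax : ∀ v x y, v % 2 = e → Pk n (r s) T v x y → y - x + 1 ≤ h
  one : 1 ≤ h

namespace Ctx

variable {n : ℕ} {r : Bool → ℤ → ℤ → Prop} {s : Bool} {E T : ℤ → ℤ → Prop} {e h : ℤ}

theorem mirror (C : Ctx n r s E T e h) :
    Ctx n (fun s => VisMap.mirror (r s)) s (mirrorE E) (mirrorE T) e h where
  fam := C.fam.mirror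
  zve := C.zve.mirror
  e01 := C.e01
  ba v w hv hw := by
    have h3 := C.fam.three
    have h2 := even_of_fam C.fam
    rw [cntW_mirror (by omega) h2 C.zve.perR e w w (-w),
      cntW_mirror (by omega) h2 C.zve.perR e v v (-v)]
    exact C.ba (-v) (-w) (by omega) (by omega)
  hmax v x y hv hP := by
    rw [C.zve.pk_mirror] at hP
    have := C.hmax _ _ _ (by omega) hP
    omega
  one := C.one

theorem npos (C : Ctx n r s E T e h) : 3 ≤ n := C.fam.three

theorem even (C : Ctx n r s E T e h) : (n : ℤ) % 2 = 0 := even_of_fam C.fam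

theorem cnt_le (C : Ctx n r s E T e h) {z : ℤ} (hz : z % 2 = e) (p : ℤ) :
    cntW n (r s) e p p ≤ cntW n (r s) e z z := by
  by_cases hp : p % 2 = e
  · exact (cntW_const C.fam s s (v := z) (w := p) (by omega) e).le
  · exact C.ba z p hz hp

/-- (T1') for `R`-pockets of any vertex `v0` which are at least as long as the maximum. -/
theorem t1R (C : Ctx n r s E T e h) {v0 p y0 c : ℤ} (hg : Gp n (r s) v0 p y0) (hT : T v0 c)
    (hpc : p < c) (hcy : c < y0) (hlen : h ≤ c - p) {z : ℤ} (hz1 : v0 ≤ z) (hz2 : z < p)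
    {v : ℤ} (hv : v % 2 = e) (hzv : NN n (r s) z v) : NN n (r s) p v :=
  t1R_gen C.zve C.npos C.even C.hmax hg hT hpc hcy hlen hz1 hz2 hv hzv

/-- (T1') for `L`-pockets. -/
theorem t1L (C : Ctx n r s E T e h) {v0 p y0 c : ℤ} (hg : Gp n (r s) v0 y0 p) (hT : T v0 c)
    (hyc : y0 ≤ c) (hcp : c + 1 < p) (hlen : h ≤ p - 1 - c) {z : ℤ} (hz1 : p - n < z)
    (hz2 : z ≤ v0) {v : ℤ} (hv : v % 2 = e) (hzv : NN n (r s) z v) : NN n (r s) p v :=
  t1L_gen C.zve C.npos C.even C.hmax hg hT hyc hcp hlen hz1 hz2 hv hzv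

/-- (3.1): the hider of a maximal `R`-pocket of a vertex of the class `e` is in the class `e`, and all
vertices of the class between see the same vertices of the class. -/
theorem hiderR (C : Ctx n r s E T e h) {v0 p y0 c : ℤ} (hv0 : v0 % 2 = e)
    (hg : Gp n (r s) v0 p y0) (hT : T v0 c) (hcy : c < y0) (hlen : c - p = h) :
    p % 2 = e ∧ ∀ z, v0 ≤ z → z < p → z % 2 = e → ∀ v, v % 2 = e → NN n (r s) p v →
      NN n (r s) z v := by
  have h3 := C.npos
  have h2 := C.even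
  have hh := C.one
  have hpc : p < c := by omega
  have key : ∀ z, v0 ≤ z → z < p → z % 2 = e → ∀ v, v % 2 = e → NN n (r s) p v →
      NN n (r s) z v := fun z hz1 hz2 hz =>
    NN_eq_of_sub (show 0 < n by omega) h2 C.zve.perR
      (fun v hv hzv => C.t1R hg hT hpc hcy (by omega) hz1 hz2 hv hzv) (C.cnt_le hz p)
  refine ⟨?_, key⟩
  by_contra hp
  have he := C.e01
  have h4 : NN n (r s) p (p + 1) := Or.inr (C.zve.succ p)
  have h5 := key v0 le_rfl hg.1 hv0 (p + 1) (by omega) h4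
  have g1 := hg.1
  have g3 := hg.2.2.1
  rcases h5 with h5 | h5
  · have := dvd_small h5 (by omega) (by omega)
    omega
  · exact (C.zve.ve1l _ _ _ hg c hpc.le hcy hT v0 le_rfl g1).1 (p + 1) (by omega) (by omega) h5

/-- (3.1) for `L`-pockets (only what we need). -/
theorem hiderL (C : Ctx n r s E T e h) {v0 p y0 c : ℤ} (hv0 : v0 % 2 = e)
    (hg : Gp n (r s) v0 y0 p) (hT : T v0 c) (hyc : y0 ≤ c) (hlen : p - 1 - c = h) :
    p % 2 = e ∧ ∀ v, v % 2 = e → NN n (r s) p v → NN n (r s) v0 v := by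
  have h3 := C.npos
  have h2 := C.even
  have hh := C.one
  have g1 := hg.1
  have g3 := hg.2.2.1
  have key : ∀ v, v % 2 = e → NN n (r s) p v → NN n (r s) v0 v :=
    NN_eq_of_sub (show 0 < n by omega) h2 C.zve.perR
      (fun v hv hzv => C.t1L hg hT hyc (by omega) (by omega) (z := v0) (by omega) le_rfl hv hzv)
      (C.cnt_le hv0 p)
  refine ⟨?_, key⟩
  by_contra hp
  have he := C.e01
  have h4 : NN n (r s) p (p - 1) := Or.inr (C.zve.pred p)
  have h5 := key (p - 1) (by omega) h4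
  rcases h5 with h5 | h5
  · have := dvd_small h5 (by omega) (by omega)
    omega
  · exact (C.zve.ve1r _ _ _ hg c hyc (by omega) hT (v0 + n) (by omega) le_rfl).1 (p - 1)
      (by omega) (by omega) ((C.zve.per _ _).2 h5)

end Ctx

end VisMap
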