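import Pool.Agent.Lib.MP_9f3af0_lc.K2c

/-!
# MP_9f3af0_lc, two classes: the maximal pocket, steps (3.3) to (3.9)

helper88, paper 604.
-/

namespace VisMap

/-- Number of integers of one parity class in an interval. -/
theorem card_parity {e u : ℤ} (hu : u % 2 = e) (m : ℕ) :
    ((Finset.Ioc u (u + 2 * m)).filter fun z => z % 2 = e).card = m := by
  have : (Finset.Ioc u (u + 2 * m)).filter (fun z => z % 2 = e) =
      (Finset.Ioc (0 : ℤ) m).image (fun j => u + 2 * j) := by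
    ext z
    rw [Finset.mem_filter, Finset.mem_Ioc, Finset.mem_image]
    constructor
    · rintro ⟨⟨h1, h2⟩, h3⟩
      refine ⟨(z - u) / 2, ?_, by omega⟩
      rw [Finset.mem_Ioc]; omega
    · rintro ⟨j, hj, rfl⟩
      rw [Finset.mem_Ioc] at hj
      omega
  rw [this, Finset.card_image_of_injective, Int.card_Ioc]
  · omega
  · intro a b hab
    have hab' : u + 2 * a = u + 2 * b := hab
    omega

theorem card_parity' {e u : ℤ} (hu : u % 2 = e) (m : ℕ) :
    ((Finset.Ico u (u + 2 * m)).filter fun z => z % 2 = e).card = m := by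
  have : (Finset.Ico u (u + 2 * m)).filter (fun z => z % 2 = e) =
      (Finset.Ico (0 : ℤ) m).image (fun j => u + 2 * j) := by
    ext z
    rw [Finset.mem_filter, Finset.mem_Ico, Finset.mem_image]
    constructor
    · rintro ⟨⟨h1, h2⟩, h3⟩
      refine ⟨(z - u) / 2, ?_, by omega⟩
      rw [Finset.mem_Ico]; omega
    · rintro ⟨j, hj, rfl⟩
      rw [Finset.mem_Ico] at hj
      omega
  rw [this, Finset.card_image_of_injective, Int.card_Ico]
  · omega
  · intro a b hab
    have hab' : u + 2 * a = u + 2 * b := hab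
    omega

/-- The vertex `v` sees a vertex of the other class at the level `j`. -/
def Lv (n : ℕ) (r : ℤ → ℤ → Prop) (e v : ℤ) (j : ℕ) : Prop :=
  ∃ y, v < y ∧ y < v + n ∧ y % 2 ≠ e ∧ r v y ∧ lev r e v y = j

namespace Ctx

variable {n : ℕ} {r : Bool → ℤ → ℤ → Prop} {s : Bool} {E T : ℤ → ℤ → Prop} {e h : ℤ}

theorem lv_transfer (C : Ctx n r s E T e h) {v w : ℤ} (hvw : 2 ∣ w - v) {j : ℕ}
    (hj : Lv n (r s) e v j) : Lv n (r s) e w j := by
  obtain ⟨ψ, h1, h2, h3⟩ := transfer C.fam s s hvw e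
  obtain ⟨y, a1, a2, a3, a4, a5⟩ := hj
  obtain ⟨b1, b2, b3, b4, b5⟩ := h1 y a1 a2 a4
  exact ⟨ψ y, b1, b2, by omega, b3, b5.trans a5⟩

/-- If one vertex of the class sees at most one vertex of the other class at the level `j`, all do. -/
theorem uniq_transfer (C : Ctx n r s E T e h) {v w : ℤ} (hvw : 2 ∣ w - v) {j : ℕ}
    (hv : ∀ y1 y2, v < y1 → y1 < y2 → y2 < v + n → y1 % 2 ≠ e → y2 % 2 ≠ e → r s v y1 →
      r s v y2 → lev (r s) e v y1 = j → lev (r s) e v y2 = j → False) :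
    ∀ y1 y2, w < y1 → y1 < y2 → y2 < w + n → y1 % 2 ≠ e → y2 % 2 ≠ e → r s w y1 →
      r s w y2 → lev (r s) e w y1 = j → lev (r s) e w y2 = j → False := by
  obtain ⟨ψ, h1, h2, h3⟩ := transfer C.fam s s (v := w) (w := v)
    (by have e1 : v - w = -(w - v) := by ring
        rw [e1]; exact (dvd_neg).2 hvw) e
  intro y1 y2 a1 a2 a3 a4 a5 a6 a7 a8 a9
  obtain ⟨b1, b2, b3, b4, b5⟩ := h1 y1 a1 (by omega) a6
  obtain ⟨c1, c2, c3, c4, c5⟩ := h1 y2 (by omega) a3 a7
  exact hv (ψ y1) (ψ y2) b1 (h2 y1 y2 a1 a2 a3 a6 a7) c2 (by omega) (by omega) b3 c3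
    (b5.trans a8) (c5.trans a9)

end Ctx

/-- The situation after (3.3): `v0` has the maximal `R`-pocket `[p + 1, f]` with hider `p`. -/
structure Sit (n : ℕ) (r : Bool → ℤ → ℤ → Prop) (s : Bool) (E T : ℤ → ℤ → Prop)
    (e h v0 p f q : ℤ) : Prop where
  C : Ctx n r s E T e h
  two : 2 ≤ h
  hv0 : v0 % 2 = e
  hp : p % 2 = e
  hq : q % 2 = e
  gap : ∃ y0, Gp n (r s) v0 p y0 ∧ f < y0
  thr : T v0 f
  len : f - p = h
  sub : ∀ z, v0 ≤ z → z < p → ∀ v, v % 2 = e → NN n (r s) z v → NN n (r s) p v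
  sup : ∀ z, v0 ≤ z → z < p → z % 2 = e → ∀ v, v % 2 = e → NN n (r s) p v → NN n (r s) z v
  gapp : Gp n (r s) p (p + 1) q
  tp : T p f
  fq : f < q
  qv : q < v0 + n
  u0 : ∀ v, v % 2 = e → ∀ y1 y2, v < y1 → y1 < y2 → y2 < v + n → y1 % 2 ≠ e → y2 % 2 ≠ e →
    r s v y1 → r s v y2 → lev (r s) e v y1 = 0 → lev (r s) e v y2 = 0 → False
  u1 : ∀ v, v % 2 = e → ∀ y1 y2, v < y1 → y1 < y2 → y2 < v + n → y1 % 2 ≠ e → y2 % 2 ≠ e →
    r s v y1 → r s v y2 → lev (r s) e v y1 = lev (r s) e v (v + n - 1) →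
    lev (r s) e v y2 = lev (r s) e v (v + n - 1) → False

/-- (3.3). -/
theorem Ctx.sit {n : ℕ} {r : Bool → ℤ → ℤ → Prop} {s : Bool} {E T : ℤ → ℤ → Prop} {e h : ℤ}
    (C : Ctx n r s E T e h) (hh : 2 ≤ h) {v0 p y0 f : ℤ} (hv0 : v0 % 2 = e)
    (hg : Gp n (r s) v0 p y0) (hT : T v0 f) (hfy : f < y0) (hlen : f - p = h) :
    ∃ q, Sit n r s E T e h v0 p f q := by
  have h3 := C.npos
  have h2 := C.even
  have he := C.e01
  have g1 := hg.1
  have g3 := hg.2.2.1
  obtain ⟨hp, hsup⟩ := C.hiderR hv0 hg hT hfy hlen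
  have hsub : ∀ z, v0 ≤ z → z < p → ∀ v, v % 2 = e → NN n (r s) z v → NN n (r s) p v :=
    fun z hz1 hz2 v hv hzv => C.t1R hg hT (by omega) hfy (by omega) hz1 hz2 hv hzv
  have hvis : ∀ z, v0 ≤ z → z < p → z % 2 = e → r s p z := by
    intro z hz1 hz2 hz
    have := hsub z hz1 hz2 z hz (Or.inl (by simp))
    exact NN_of_ne this (by omega) (by omega) (by omega)
  have hp2 : r s p (p - 2) := hvis (p - 2) (by omega) (by omega) (by omega)
  -- uniqueness at the level 0
  have u0 : ∀ v, v % 2 = e → ∀ y1 y2, v < y1 → y1 < y2 → y2 < v + n → y1 % 2 ≠ e → y2 % 2 ≠ e →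
      r s v y1 → r s v y2 → lev (r s) e v y1 = 0 → lev (r s) e v y2 = 0 → False := by
    intro v hv
    refine C.uniq_transfer (v := p - 2) (w := v) (by omega) ?_
    intro y1 y2 a1 a2 a3 a4 a5 a6 a7 a8 a9
    have : y2 < p := by
      by_contra hc
      have := lev_lt (r := r s) (e := e) (v := p - 2) (y := p - 2) (y' := y2) (z := p)
        (by omega) (by omega) (by omega) hp (C.zve.symm _ _ hp2)
      omega
    omega
  -- uniqueness at the last level
  have u1 : ∀ v, v % 2 = e → ∀ y1 y2, v < y1 → y1 < y2 → y2 < v + n → y1 % 2 ≠ e → y2 % 2 ≠ e →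
      r s v y1 → r s v y2 → lev (r s) e v y1 = lev (r s) e v (v + n - 1) →
      lev (r s) e v y2 = lev (r s) e v (v + n - 1) → False := by
    intro v hv
    have htot : lev (r s) e v (v + n - 1) = lev (r s) e p (p + n - 1) :=
      lev_total C.fam s s (v := p) (w := v) (by omega) e
    rw [htot]
    refine C.uniq_transfer (v := p) (w := v) (by omega) ?_
    intro y1 y2 a1 a2 a3 a4 a5 a6 a7 a8 a9
    have hy1 : p - 2 + n < y1 := by
      by_contra hc
      have h4 := lev_lt (r := r s) (e := e) (v := p) (y := y1) (y' := p + n - 1)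
        (z := p - 2 + n) (by omega) (by omega) (by omega) (by omega)
        ((C.zve.perR _ _).2 hp2)
      omega
    omega
  -- the first visible vertex of the class after `p`
  obtain ⟨q, hq1, hq2, ⟨hq3, hq4⟩, hq5⟩ := exists_first
    (p := fun z => z % 2 = e ∧ r s p z) (a := p + 1) (b := v0 + n) (by omega)
    ⟨by omega, (C.zve.perR _ _).2 (hvis v0 le_rfl g1 hv0)⟩
  have hlev0 : ∀ y, y < q → lev (r s) e p y = 0 := by
    intro y hy
    classical
    unfold lev
    rw [Finset.card_eq_zero, Finset.filter_eq_empty_iff]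
    intro z hz
    rw [Finset.mem_Ioc] at hz
    exact hq5 z (by omega) (by omega)
  have hq6 : p + 1 < q := by
    have : p + 1 ≠ q := by intro e1; rw [← e1] at hq3; omega
    omega
  have hgapp : Gp n (r s) p (p + 1) q := by
    refine ⟨by omega, hq6, by omega, C.zve.succ p, hq4, fun m hm1 hm2 hm3 => ?_⟩
    by_cases hm : m % 2 = e
    · exact hq5 m (by omega) hm2 ⟨hm, hm3⟩
    · exact u0 p hp (p + 1) m (by omega) hm1 (by omega) (by omega) hm (C.zve.succ p) hm3
        (hlev0 _ hq6) (hlev0 _ hm2)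
  have hcn : r s (p + 1) q := C.zve.cn _ _ _ hgapp
  have hve := C.zve.ve1l _ _ _ hg f (by omega) hfy hT v0 le_rfl g1
  have hqv : q < v0 + n := by
    rcases hq2.lt_or_eq with hlt | heq
    · exact hlt
    · exfalso
      rw [heq, C.zve.perR] at hcn
      exact hve.1 (p + 1) (by omega) (by omega) (C.zve.symm _ _ hcn)
  have hfq : f < q := by
    by_contra hc
    have h5 := hsup v0 le_rfl g1 hv0 q hq3 (Or.inr hq4)
    have h6 := NN_of_ne h5 (by omega) (by omega) (by omega)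
    exact hve.1 q (by omega) (by omega) h6
  exact ⟨q, C, hh, hv0, hp, hq3, ⟨y0, hg, hfy⟩, hT, hlen, hsub, hsup, hgapp,
    (C.zve.ve2l _ _ _ hg f (by omega) hfy hT).1, hfq, hqv, u0, u1⟩

namespace Sit

variable {n : ℕ} {r : Bool → ℤ → ℤ → Prop} {s : Bool} {E T : ℤ → ℤ → Prop} {e h v0 p f q : ℤ}

theorem lt (S : Sit n r s E T e h v0 p f q) : v0 < p := by
  obtain ⟨y0, hg, -⟩ := S.gap
  exact hg.1

/-- The vertices of the class in `[v0, p]` have the same neighbours of the class. -/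
theorem same (S : Sit n r s E T e h v0 p f q) {u : ℤ} (hu1 : v0 ≤ u) (hu2 : u ≤ p)
    (hu : u % 2 = e) {v : ℤ} (hv : v % 2 = e) : NN n (r s) u v ↔ NN n (r s) p v := by
  rcases hu2.lt_or_eq with hlt | rfl
  · exact ⟨S.sub u hu1 hlt v hv, S.sup u hu1 hlt hu v hv⟩
  · exact Iff.rfl

theorem seeEach (S : Sit n r s E T e h v0 p f q) {u w : ℤ} (hu1 : v0 ≤ u) (hu2 : u ≤ p)
    (hu : u % 2 = e) (hw1 : v0 ≤ w) (hw2 : w ≤ p) (hw : w % 2 = e) (hne : u ≠ w) : r s u w := by
  have h1 : NN n (r s) p w := (S.same hw1 hw2 hw hw).1 (Or.inl (by simp))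
  have h2 := (S.same hu1 hu2 hu hw).2 h1
  have h3 := S.qv
  have h4 := S.fq
  have h5 := S.len
  have h6 := S.two
  exact NN_of_ne h2 hne (by omega) (by omega)

/-- No vertex of `[v0, p)` sees a vertex of the pocket. -/
theorem hidden (S : Sit n r s E T e h v0 p f q) {u y : ℤ} (hu1 : v0 ≤ u) (hu2 : u < p)
    (hy1 : p < y) (hy2 : y ≤ f) : ¬ r s u y := by
  obtain ⟨y0, hg, hfy⟩ := S.gap
  have h5 := S.len
  have h6 := S.two
  exact (S.C.zve.ve1l _ _ _ hg f (by omega) hfy S.thr u hu1 hu2).1 y hy1 hy2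

/-- No vertex of the class in `[v0, p)` sees a vertex of `(p, q)`. -/
theorem hidden' (S : Sit n r s E T e h v0 p f q) {u y : ℤ} (hu1 : v0 ≤ u) (hu2 : u < p)
    (hy1 : p < y) (hy2 : y < q) : ¬ r s u y := by
  rcases le_or_gt y f with hy | hy
  · exact S.hidden hu1 hu2 hy1 hy
  · have h5 := S.len
    have h6 := S.two
    have h7 := S.fq
    have h8 := S.qv
    intro hc
    exact (S.C.zve.ve1r _ _ _ S.gapp f (by omega) h7 S.tp (u + n) (by omega) (by omega)).1 y
      hy hy2 ((S.C.zve.per _ _).2 hc)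

/-- Levels of `p` in the view of the vertices of the class in `[v0, p)`. -/
theorem lev_p (S : Sit n r s E T e h v0 p f q) {u : ℤ} (hu1 : v0 ≤ u) (hu2 : u < p)
    (hu : u % 2 = e) {y : ℤ} (hy1 : p ≤ y) (hy2 : y < q) :
    (lev (r s) e u y : ℤ) = (p - u) / 2 := by
  classical
  have hp := S.hp
  have h1 : lev (r s) e u p = lev (r s) e u y :=
    lev_eq hy1 fun z hz1 hz2 _ => S.hidden' hu1 hu2 hz1 (by omega)
  rw [← h1]
  have h2 : lev (r s) e u p = ((Finset.Ioc u (u + 2 * ((p - u) / 2).toNat)).filter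
      fun z => z % 2 = e).card := by
    unfold lev
    congr 1
    ext z
    rw [Finset.mem_filter, Finset.mem_filter, Finset.mem_Ioc, Finset.mem_Ioc]
    constructor
    · rintro ⟨⟨a1, a2⟩, a3, a4⟩
      exact ⟨⟨a1, by omega⟩, a3⟩
    · rintro ⟨⟨a1, a2⟩, a3⟩
      refine ⟨⟨a1, by omega⟩, a3, ?_⟩
      exact S.seeEach hu1 hu2.le hu (by omega) (by omega) a3 (by omega)
  rw [h2, card_parity hu]
  omega

/-- (3.6): no vertex of the other class at the levels `1, …, R`. -/
theorem no_low (S : Sit n r s E T e h v0 p f q) {i : ℤ} (hi1 : 1 ≤ i) (hi2 : 2 * i ≤ p - v0)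
    {j : ℕ} (hj : (j : ℤ) = i) : ¬ Lv n (r s) e v0 j := by
  intro hL
  have hp := S.hp
  have hv0 := S.hv0
  have hqe := S.hq
  have hqv := S.qv
  obtain ⟨y, a1, a2, a3, a4, a5⟩ := S.C.lv_transfer (w := p - 2 * i) (by omega) hL
  have hu : (p - 2 * i) % 2 = e := by omega
  have hlp := S.lev_p (u := p - 2 * i) (by omega) (by omega) hu (y := p) le_rfl
    (by have := S.gapp.2.1; omega)
  have hse : r s (p - 2 * i) p :=
    S.seeEach (by omega) (by omega) hu (by have := S.lt; omega) le_rfl hp (by omega)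
  rcases lt_trichotomy y p with hlt | rfl | hgt
  · have := lev_lt (r := r s) (e := e) (v := p - 2 * i) (y := y) (y' := p) (z := p)
      (by omega) hlt le_rfl hp hse
    omega
  · exact a3 hp
  · rcases lt_or_ge y q with hq | hq
    · exact S.hidden' (by omega) (by omega) hgt hq a4
    · have hpq : r s p q := S.gapp.2.2.2.2.1
      have hNN : NN n (r s) (p - 2 * i) q :=
        (S.same (by omega) (by omega) hu hqe).2 (Or.inr hpq)
      have hpq' := S.gapp.2.1
      have hr : r s (p - 2 * i) q := NN_of_ne hNN (by omega) (by omega) (by omega)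
      have := lev_lt (r := r s) (e := e) (v := p - 2 * i) (y := p) (y' := y) (z := q)
        (by omega) (by omega) hq hqe hr
      omega

end Sit

end VisMap
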