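import Pool.Agent.Lib.MP_9f3af0_lc.K2d

/-!
# MP_9f3af0_lc, two classes: the contradiction, steps (3.4) to (3.12)

helper88, paper 604.
-/

namespace VisMap

namespace Sit

variable {n : ℕ} {r : Bool → ℤ → ℤ → Prop} {s : Bool} {E T : ℤ → ℤ → Prop} {e h v0 p f q : ℤ}

/-- (3.4). -/
theorem claim34 (S : Sit n r s E T e h v0 p f q)
    (hmin : ∀ v y, v % 2 = e → p - n < v → v < p → Gp n (r s) v p y → f < y → T v f → v0 ≤ v)
    {v : ℤ} (hv : v % 2 = e) (hpv : NN n (r s) p v) (hv1 : p - n < v) (hv2 : v < p)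
    (hno : ¬ r s v (p + 1)) : v0 ≤ v := by
  have C := S.C
  have h2 := C.even
  have h3 := C.npos
  have hp := S.hp
  have hq := S.hq
  have he := C.e01
  have hlen := S.len
  have htwo := S.two
  have hfq := S.fq
  have hqv := S.qv
  have hlt0 := S.lt
  have hpr : r s v p := C.zve.symm _ _ (NN_of_ne hpv (by omega) (by omega) (by omega))
  have hvn : p < v + n - 1 := by omega
  obtain ⟨y, hy1, hy2, hy3, hy4⟩ := exists_first (p := fun z => r s v z) (a := p + 1)
    (b := v + n - 1) (by omega) (C.zve.last v)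
  have hyp : p + 1 ≠ y := by intro e1; rw [← e1] at hy3; exact hno hy3
  have hg : Gp n (r s) v p y :=
    ⟨hv2, by omega, by omega, hpr, hy3, fun m hm1 hm2 => hy4 m (by omega) hm2⟩
  obtain ⟨c, hc1, hc2, hc3⟩ := C.zve.thr _ _ _ hg
  rcases hc1.lt_or_eq with hlt | heq
  · -- right-behind
    have hP : Pk n (r s) T v (p + 1) c :=
      ⟨by omega, Or.inl ⟨y, by rw [add_sub_cancel_right]; exact hg, hc2, hc3⟩⟩
    have h4 := C.hmax _ _ _ hv hP
    have h5 := (C.zve.ve2l _ _ _ hg c hlt hc2 hc3).1
    have h6 := C.zve.thr_unique _ _ _ S.gapp c f (by omega) (by omega) (by omega) hfq h5 S.tp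
    subst h6
    exact hmin v y hv hv1 hv2 hg hc2 hc3
  · exfalso
    subst heq
    have hP : Pk n (r s) T v (p + 1) (y - 1) := by
      refine ⟨by omega, Or.inr ⟨p, ?_, by omega, ?_⟩⟩
      · rw [sub_add_cancel]; exact hg
      · rw [add_sub_cancel_right]; exact hc3
    have h4 := C.hmax _ _ _ hv hP
    have h5 : r s p y := C.zve.cn _ _ _ hg
    have hyq : q ≤ y := by
      by_contra hc
      exact S.gapp.2.2.2.2.2 y (by omega) (by omega) h5
    have hyq' : y = q := by omega
    subst hyq'
    have hqf : y = f + 1 := by omega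
    obtain ⟨-, hsup⟩ := C.hiderL hv hg hc3 le_rfl (by omega)
    -- `q` sees no vertex of the class in `(p, q)`
    have hno1 : ∀ z, p < z → z < y → z % 2 = e → ¬ r s y z := by
      intro z hz1 hz2 hz hr
      have h6 := hsup z hz (Or.inr hr)
      have h7 := NN_of_ne h6 (by omega) (by omega) (by omega)
      exact hg.2.2.2.2.2 z hz1 hz2 h7
    -- the last visible vertex of `q` before `q - 1 + n`
    have hyp' : r s y (p + n) := (C.zve.perR _ _).2 (C.zve.symm _ _ h5)
    obtain ⟨w, hw1, hw2, hw3, hw4⟩ := exists_last (p := fun z => r s y z) (a := p + n)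
      (b := y + n - 2) (by omega) hyp'
    have hwe : w % 2 = e := by
      by_contra hwe
      refine S.u1 y hq w (y + n - 1) (by omega) (by omega) (by omega) hwe (by omega) hw3
        (C.zve.last y) ?_ rfl
      refine lev_eq (by omega) fun z hz1 hz2 hz hz3 => ?_
      rcases lt_or_ge z (y + n - 1) with h8 | h8
      · exact hw4 z hz1 (by omega) hz3
      · omega
    have hwp : w = p + n := by
      by_contra hne
      refine hno1 (w - n) (by omega) (by omega) (by omega) ?_
      rw [C.zve.perRS]; exact hw3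
    have hgw : Gp n (r s) y w (y + n - 1) :=
      ⟨by omega, by omega, by omega, hw3, C.zve.last y, fun m hm1 hm2 hm3 =>
        hw4 m (by omega) (by omega) hm3⟩
    have h9 := C.zve.cn _ _ _ hgw
    rw [hwp, C.zve.per] at h9
    have e1 : y + (n : ℤ) - 1 = y - 1 + n := by ring
    rw [e1, C.zve.perR] at h9
    exact S.gapp.2.2.2.2.2 (y - 1) (by omega) (by omega) h9

/-- (3.7). -/
theorem count37 (S : Sit n r s E T e h v0 p f q)
    (hmin : ∀ v y, v % 2 = e → p - n < v → v < p → Gp n (r s) v p y → f < y → T v f → v0 ≤ v) :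
    (cntW n (r s) e p p : ℤ) + 1 ≤ cntW n (r s) e (p + 1) (p + 1) + (p - v0) / 2 := by
  classical
  have C := S.C
  have h2 := C.even
  have h3 := C.npos
  have hp := S.hp
  have hv0 := S.hv0
  have he := C.e01
  have hlen := S.len
  have htwo := S.two
  have hfq := S.fq
  have hqv := S.qv
  have hlt0 := S.lt
  rw [cntW_window (by omega) h2 C.zve.perR e p p v0,
    cntW_window (by omega) h2 C.zve.perR e (p + 1) (p + 1) v0]
  unfold cntW
  set ST := (Finset.Ico v0 (v0 + n)).filter (fun z => z % 2 = e ∧ NN n (r s) p z) with hST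
  set S1 := (Finset.Ico v0 (v0 + n)).filter (fun z => z % 2 = e ∧ NN n (r s) (p + 1) z) with hS1
  set SR := (Finset.Ico v0 (v0 + 2 * ((p - v0) / 2).toNat)).filter (fun z => z % 2 = e) with hSR
  have hcR : SR.card = ((p - v0) / 2).toNat := card_parity' hv0 _
  have hnot : p + 2 ∉ ST \ SR := by
    intro hc
    rw [Finset.mem_sdiff, hST, Finset.mem_filter] at hc
    have h4 := (S.same le_rfl hlt0.le hv0 (v := p + 2) (by omega)).2 hc.1.2.2
    have h5 := NN_of_ne h4 (by omega) (by omega) (by omega)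
    exact S.hidden le_rfl hlt0 (by omega) (by omega) h5
  have hsub : insert (p + 2) (ST \ SR) ⊆ S1 := by
    intro z hz
    rw [hS1, Finset.mem_filter, Finset.mem_Ico]
    rw [Finset.mem_insert] at hz
    rcases hz with rfl | hz
    · refine ⟨⟨by omega, by omega⟩, by omega, Or.inr ?_⟩
      have := C.zve.succ (p + 1)
      rwa [add_assoc, one_add_one_eq_two] at this
    · rw [Finset.mem_sdiff, hST, hSR, Finset.mem_filter, Finset.mem_filter, Finset.mem_Ico,
        Finset.mem_Ico] at hz
      obtain ⟨⟨⟨a1, a2⟩, a3, a4⟩, a5⟩ := hz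
      have hzp : p ≤ z := by
        by_contra hc
        exact a5 ⟨⟨a1, by omega⟩, a3⟩
      refine ⟨⟨a1, a2⟩, a3, ?_⟩
      rcases hzp.lt_or_eq with hlt | rfl
      · by_contra hc
        have h4 := S.claim34 hmin (v := z - n) (by omega)
          (by rw [← NN_per C.zve.perR, sub_add_cancel]; exact a4) (by omega) (by omega)
          (fun h5 => hc (Or.inr (C.zve.symm _ _ ((C.zve.perS _ _).1 h5))))
        omega
      · exact Or.inr (C.zve.symm _ _ (C.zve.succ p))
  have h4 := Finset.card_le_card hsub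
  rw [Finset.card_insert_of_notMem hnot] at h4
  have h5 : ST.card ≤ (ST \ SR).card + SR.card := by
    have := Finset.card_le_card_sdiff_add_card (s := ST) (t := SR)
    omega
  omega

/-- (3.9). -/
theorem exists_x (S : Sit n r s E T e h v0 p f q) :
    ∃ x t, x % 2 ≠ e ∧ q < x + n ∧ x < v0 ∧ r s x v0 ∧
      (∀ u, v0 < u → u ≤ p → u % 2 = e → ¬ r s x u) ∧ x < t ∧ t < v0 ∧ t % 2 = e ∧
      NN n (r s) p t := by
  classical
  have C := S.C
  have h2 := C.even
  have h3 := C.npos
  have hp := S.hp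
  have hq := S.hq
  have hv0 := S.hv0
  have he := C.e01
  have hlen := S.len
  have htwo := S.two
  have hfq := S.fq
  have hqv := S.qv
  have hlt0 := S.lt
  have hpq' := S.gapp.2.1
  -- (3.9)
  have hcn : r s (p + 1) q := C.zve.cn _ _ _ S.gapp
  have hLq : ∃ j : ℕ, 1 ≤ j ∧ j < lev (r s) e v0 (v0 + n - 1) ∧ Lv n (r s) e v0 j := by
    have hr : r s q (p + 1 + n) := (C.zve.perR _ _).2 (C.zve.symm _ _ hcn)
    have htot : lev (r s) e q (q + n - 1) = lev (r s) e v0 (v0 + n - 1) :=
      lev_total C.fam s s (v := v0) (w := q) (by omega) e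
    refine ⟨lev (r s) e q (p + 1 + n), ?_, ?_, C.lv_transfer (v := q) (by omega)
      ⟨p + 1 + n, by omega, by omega, by omega, hr, rfl⟩⟩
    · by_contra hc
      have h0 : lev (r s) e q (p + 1 + n) = 0 := by omega
      have h1 : lev (r s) e q (q + 1) = 0 := by
        have := lev_mono (r := r s) (e := e) (v := q) (show q + 1 ≤ p + 1 + n by omega)
        omega
      exact S.u0 q hq (q + 1) (p + 1 + n) (by omega) (by omega) (by omega) (by omega) (by omega)
        (C.zve.succ q) hr h1 h0
    · rw [← htot]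
      rcases (lev_mono (r := r s) (e := e) (v := q)
        (show p + 1 + n ≤ q + n - 1 by omega)).lt_or_eq with hlt | heq
      · exact hlt
      · exfalso
        exact S.u1 q hq (p + 1 + n) (q + n - 1) (by omega) (by omega) (by omega) (by omega)
          (by omega) hr (C.zve.last q) heq rfl
  have hex : ∃ j : ℕ, 1 ≤ j ∧ Lv n (r s) e v0 j := by
    obtain ⟨j, a, b, c⟩ := hLq
    exact ⟨j, a, c⟩
  set j0 := Nat.find hex with hj0
  have hj1 : 1 ≤ j0 := (Nat.find_spec hex).1
  have hj2 : Lv n (r s) e v0 j0 := (Nat.find_spec hex).2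
  have hj3 : ∀ j, 1 ≤ j → j < j0 → ¬ Lv n (r s) e v0 j := fun j a b c =>
    Nat.find_min hex b ⟨a, c⟩
  have hj4 : j0 < lev (r s) e v0 (v0 + n - 1) := by
    obtain ⟨j, a, b, c⟩ := hLq
    have := Nat.find_min' hex ⟨a, c⟩
    omega
  have hjR : (p - v0) / 2 < j0 := by
    by_contra hc
    push Not at hc
    exact S.no_low (i := j0) (by omega) (by omega) rfl hj2
  obtain ⟨x', a1, a2, a3, a4, a5⟩ := hj2
  have hlevp : (lev (r s) e v0 (q - 1) : ℤ) = (p - v0) / 2 :=
    S.lev_p le_rfl hlt0 hv0 (by omega) (by omega)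
  have hx'q : q < x' := by
    by_contra hc
    have hne : x' ≠ q := by rintro rfl; exact a3 hq
    have := lev_mono (r := r s) (e := e) (v := v0) (show x' ≤ q - 1 by omega)
    omega
  obtain ⟨t', ht1, ht2, ht3, ht4⟩ : ∃ t', x' < t' ∧ t' < v0 + n ∧ t' % 2 = e ∧ r s v0 t' := by
    by_contra hc
    push Not at hc
    have := lev_eq (r := r s) (e := e) (v := v0) (show x' ≤ v0 + n - 1 by omega)
      (fun z hz1 hz2 hz3 => hc z hz1 (by omega) hz3)
    omega
  -- the other vertices of the class in `(v0, p]` do not see `x'`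
  have hnx : ∀ u, v0 < u → u ≤ p → u % 2 = e → ¬ r s u x' := by
    intro u hu1 hu2 hu hr
    have hsplit : lev (r s) e v0 x' =
        ((Finset.Ioc v0 (v0 + 2 * ((u - v0) / 2).toNat)).filter fun z => z % 2 = e).card +
          lev (r s) e u x' := by
      have hdis : Disjoint ((Finset.Ioc v0 (v0 + 2 * ((u - v0) / 2).toNat)).filter
          fun z => z % 2 = e) ((Finset.Ioc u x').filter fun z => z % 2 = e ∧ r s u z) := by
        rw [Finset.disjoint_left]
        intro z hz1 hz2
        rw [Finset.mem_filter, Finset.mem_Ioc] at hz1 hz2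
        omega
      unfold lev
      rw [← Finset.card_union_of_disjoint hdis]
      congr 1
      ext z
      rw [Finset.mem_union, Finset.mem_filter, Finset.mem_filter, Finset.mem_filter,
        Finset.mem_Ioc, Finset.mem_Ioc, Finset.mem_Ioc]
      constructor
      · rintro ⟨⟨b1, b2⟩, b3, b4⟩
        rcases le_or_gt z u with hzu | hzu
        · exact Or.inl ⟨⟨b1, by omega⟩, b3⟩
        · right
          refine ⟨⟨hzu, b2⟩, b3, ?_⟩
          have c1 := (S.same le_rfl hlt0.le hv0 b3).1 (Or.inr b4)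
          have c2 := (S.same hu1.le hu2 hu b3).2 c1
          exact NN_of_ne c2 (by omega) (by omega) (by omega)
      · rintro (⟨⟨b1, b2⟩, b3⟩ | ⟨⟨b1, b2⟩, b3, b4⟩)
        · refine ⟨⟨b1, by omega⟩, b3, ?_⟩
          exact S.seeEach le_rfl hlt0.le hv0 (by omega) (by omega) b3 (by omega)
        · refine ⟨⟨by omega, b2⟩, b3, ?_⟩
          have c1 := (S.same hu1.le hu2 hu b3).1 (Or.inr b4)
          have c2 := (S.same le_rfl hlt0.le hv0 b3).2 c1
          exact NN_of_ne c2 (by omega) (by omega) (by omega)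
    rw [card_parity hv0, a5] at hsplit
    refine hj3 (lev (r s) e u x') (by omega) (by omega) ?_
    exact C.lv_transfer (v := u) (by omega) ⟨x', by omega, by omega, a3, hr, rfl⟩
  obtain ⟨x, rfl⟩ : ∃ x, x' = x + n := ⟨x' - n, by ring⟩
  obtain ⟨t, rfl⟩ : ∃ t, t' = t + n := ⟨t' - n, by ring⟩
  refine ⟨x, t, by omega, hx'q, by omega, C.zve.symm _ _ ((C.zve.perR _ _).1 a4),
    fun u b1 b2 b3 b4 => hnx u b1 b2 b3 ((C.zve.perR _ _).2 (C.zve.symm _ _ b4)), by omega,
    by omega, by omega, ?_⟩
  have h4 : NN n (r s) v0 (t + n) := Or.inr ht4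
  rw [NN_per C.zve.perR] at h4
  exact (S.same le_rfl hlt0.le hv0 (by omega)).1 h4

/-- (3.10) to (3.12): the final contradiction. -/
theorem contra (S : Sit n r s E T e h v0 p f q)
    (hmin : ∀ v y, v % 2 = e → p - n < v → v < p → Gp n (r s) v p y → f < y → T v f → v0 ≤ v) :
    False := by
  classical
  obtain ⟨x, t, hxe, hxq, hxv0, hxv, hxu, hxt, htv0, hte, htN⟩ := S.exists_x
  have h37 := S.count37 hmin
  clear hmin
  have C := S.C
  have h2 := C.even
  have h3 := C.npos
  have hp := S.hp
  have hv0 := S.hv0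
  have he := C.e01
  have hlen := S.len
  have htwo := S.two
  have hfq := S.fq
  have hqv := S.qv
  have hlt0 := S.lt
  obtain ⟨l, w, hgx, hl1, hw1⟩ := C.zve.gap_around (v := x) (p := v0 + 2) (by omega) (by omega)
    (hxu (v0 + 2) (by omega) (by omega) (by omega))
  have hl2 : v0 ≤ l := by
    by_contra hc
    exact hgx.2.2.2.2.2 v0 (by omega) (by omega) hxv
  obtain ⟨c', hc1, hc2, hc3⟩ := C.zve.thr _ _ _ hgx
  have hc4 : c' ≤ v0 + 1 := by
    by_contra hc
    have hve := C.zve.ve1l _ _ _ hgx c' hc1 hc2 hc3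
    rcases hl2.lt_or_eq with hlt | heq
    · exact (hve v0 (by omega) hlt).1 (v0 + 2) (by omega) (by omega)
        (S.seeEach le_rfl hlt0.le hv0 (by omega) (by omega) (by omega) (by omega))
    · refine (hve t (by omega) (by omega)).1 (v0 + 2) (by omega) (by omega) ?_
      have c1 := (S.same (u := v0 + 2) (v := t) (by omega) (by omega) (by omega) (by omega)).2 htN
      exact C.zve.symm _ _ (NN_of_ne c1 (by omega) (by omega) (by omega))
  have hwx : w < x + n := hgx.2.2.1
  have hver := C.zve.ve1r _ _ _ hgx c' hc1 hc2 hc3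
  have hwf : f < w := by
    by_contra hc
    push Not at hc
    rcases le_or_gt w p with hwp | hwp
    · by_cases hwe : w % 2 = e
      · exact hxu w (by omega) hwp hwe hgx.2.2.2.2.1
      · refine (hver (w + 1) (by omega) (by omega)).1 (w - 1) (by omega) (by omega) ?_
        exact S.seeEach (by omega) (by omega) (by omega) (by omega) (by omega) (by omega)
          (by omega)
    · exact S.hidden hl2 (by omega) hwp hc (C.zve.cn _ _ _ hgx)
  -- (3.11)
  have h311 : ∀ u, u % 2 = e → w < u → u < x + n → False := by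
    intro u hu hu1 hu2
    by_cases hr : r s u w
    · -- the gap of `u - n` ending at `w`
      have hr' : r s (u - n) w := (C.zve.perS _ _).2 hr
      obtain ⟨l2, d1, d2, d3, d4⟩ := exists_last (p := fun z => r s (u - n) z) (a := u - n + 1)
        (b := w - 1) (by omega) (C.zve.succ (u - n))
      have hg2 : Gp n (r s) (u - n) l2 w :=
        ⟨by omega, by omega, by omega, d3, hr', fun m hm1 hm2 => d4 m hm1 (by omega)⟩
      have hl2c : l2 ≤ c' := by
        by_contra hc
        exact (hver u hu1 hu2.le).1 l2 (by omega) (by omega) ((C.zve.perS _ _).1 d3)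
      obtain ⟨c2, e1, e2, e3⟩ := C.zve.thr _ _ _ hg2
      rcases le_or_gt c2 c' with hcc | hcc
      · have hP : Pk n (r s) T (u - n) (c2 + 1) (w - 1) := by
          refine ⟨by omega, Or.inr ⟨l2, ?_, by omega, ?_⟩⟩
          · rw [sub_add_cancel]; exact hg2
          · rw [add_sub_cancel_right]; exact e3
        have := C.hmax _ _ _ (by omega) hP
        omega
      · have hE : ¬ E (u - n) c2 := by
          intro hc
          refine (hver u hu1 hu2.le).2 c2 hcc e2 ?_
          rw [← C.zve.perE (u - n), sub_add_cancel] at hc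
          exact hc
        rcases C.zve.t_e _ _ _ hg2 c2 e1 e2 e3 with h4 | h4 | h4
        · exact hE h4
        · omega
        · have hP : Pk n (r s) T (u - n) (l2 + 1) (w - 1) := by
            refine ⟨by omega, Or.inl ⟨w, ?_, by omega, ?_⟩⟩
            · rw [add_sub_cancel_right]; exact hg2
            · have e5 : w - 1 = c2 := by omega
              rw [e5]; exact e3
          have := C.hmax _ _ _ (by omega) hP
          omega
    · obtain ⟨x1, y1, hP, hx1, hy1⟩ := C.zve.t1L hgx hc3 hc1 (by omega) (z := u - n) (v := u - n)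
        (by omega) (by omega) (by omega) (by omega) (Or.inl rfl)
        (fun hc => hr ((C.zve.perS _ _).1 hc))
      have := C.hmax _ _ _ (by omega) hP
      omega
  -- (3.12)
  have hwx' : w = x + n - 1 := by
    by_contra hc
    exact h311 (x + n - 1) (by omega) (by omega) (by omega)
  have hwe : w % 2 = e := by omega
  have hlw : NN n (r s) p w := by
    have h4 := C.zve.cn _ _ _ hgx
    exact S.sub l hl2 (by omega) w hwe (Or.inr h4)
  have hxw : ∀ v, v % 2 = e → NN n (r s) x v → NN n (r s) w v := fun v hv hxv' =>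
    C.t1L hgx hc3 hc1 (by omega) (by omega) (z := x) (by omega) le_rfl hv hxv'
  -- the final count
  have hcount : cntW n (r s) e x v0 + ((p - v0) / 2).toNat ≤ cntW n (r s) e w v0 := by
    unfold cntW
    rw [← card_parity hv0 ((p - v0) / 2).toNat, ← Finset.card_union_of_disjoint]
    · refine Finset.card_le_card fun z hz => ?_
      rw [Finset.mem_union, Finset.mem_filter, Finset.mem_filter, Finset.mem_Ico,
        Finset.mem_Ioc] at hz
      rw [Finset.mem_filter, Finset.mem_Ico]
      rcases hz with ⟨⟨b1, b2⟩, b3, b4⟩ | ⟨⟨b1, b2⟩, b3⟩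
      · exact ⟨⟨b1, b2⟩, b3, hxw z b3 b4⟩
      · refine ⟨⟨by omega, by omega⟩, b3, ?_⟩
        exact NN_symm C.zve.symm ((S.same (by omega) (by omega) b3 hwe).2 hlw)
    · rw [Finset.disjoint_left]
      intro z hz1 hz2
      rw [Finset.mem_filter, Finset.mem_Ico] at hz1
      rw [Finset.mem_filter, Finset.mem_Ioc] at hz2
      have h4 := NN_of_ne hz1.2.2 (by omega) (by omega) (by omega)
      exact hxu z (by omega) (by omega) hz2.2 h4
  have hb : cntW n (r s) e x v0 = cntW n (r s) e (p + 1) (p + 1) := by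
    rw [cntW_window (by omega) h2 C.zve.perR e x v0 x]
    exact cntW_const C.fam s s (v := p + 1) (w := x) (by omega) e
  have ha : cntW n (r s) e w v0 = cntW n (r s) e p p := by
    rw [cntW_window (by omega) h2 C.zve.perR e w v0 w]
    exact cntW_const C.fam s s (v := p) (w := w) (by omega) e
  omega

end Sit

/-- There is no maximal `R`-pocket of length at least `2`. -/
theorem Ctx.no_R {n : ℕ} {r : Bool → ℤ → ℤ → Prop} {s : Bool} {E T : ℤ → ℤ → Prop} {e h : ℤ}
    (C : Ctx n r s E T e h) (hh : 2 ≤ h) {v0 p y0 f : ℤ} (hv0 : v0 % 2 = e)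
    (hg : Gp n (r s) v0 p y0) (hT : T v0 f) (hfy : f < y0) (hlen : f - p = h) : False := by
  have g1 := hg.1
  have g3 := hg.2.2.1
  obtain ⟨v1, b1, b2, ⟨b3, y1, b4, b5, b6⟩, b7⟩ := exists_first
    (p := fun v => v % 2 = e ∧ ∃ y, Gp n (r s) v p y ∧ f < y ∧ T v f) (a := p - n + 1) (b := v0)
    (by omega) ⟨hv0, y0, hg, hfy, hT⟩
  obtain ⟨q, S⟩ := C.sit hh b3 b4 b6 b5 hlen
  refine S.contra fun v y hv hv1 hv2 hgv hfy' hTv => ?_
  by_contra hc
  exact b7 v (by omega) (by omega) ⟨hv, y, hgv, hfy', hTv⟩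

end VisMap
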