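import Pool.Agent.Lib.MP_9f3af0_lc.K2e
import Pool.Agent.Lib.MP_9f3af0_lc.AgFam

/-!
# MP_9f3af0_lc, two classes: the clique theorem and the end of the proof

helper88, paper 594, sections 2 and 4.
-/

namespace VisMap

/-- A hidden vertex lies in a pocket. -/
theorem ZVE.pocket_of_hidden {n : ℕ} {r E T : ℤ → ℤ → Prop} (Z : ZVE n r E T) {v p : ℤ}
    (h1 : v < p) (h2 : p < v + n) (hp : ¬ r v p) : ∃ x y, Pk n r T v x y ∧ x ≤ p ∧ p ≤ y := by
  obtain ⟨l, t, hg, hl, ht⟩ := Z.gap_around h1 h2 hp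
  obtain ⟨c, hc1, hc2, hc3⟩ := Z.thr _ _ _ hg
  rcases lt_or_ge c p with hcp | hcp
  · refine ⟨c + 1, t - 1, ⟨by omega, Or.inr ⟨l, ?_, by omega, ?_⟩⟩, by omega, by omega⟩
    · rw [sub_add_cancel]; exact hg
    · rw [add_sub_cancel_right]; exact hc3
  · refine ⟨l + 1, c, ⟨by omega, Or.inl ⟨t, ?_, by omega, hc3⟩⟩, by omega, hcp⟩
    rw [add_sub_cancel_right]; exact hg

section clique

variable {n : ℕ} {r : Bool → ℤ → ℤ → Prop} {s : Bool} {E T : ℤ → ℤ → Prop} {e : ℤ}

/-- The class with the larger count is a clique. -/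
theorem clique (F : Fam n 2 r) (Z : ZVE n (r s) E T) (he : e = 0 ∨ e = 1)
    (ba : ∀ v w, v % 2 = e → w % 2 ≠ e → cntW n (r s) e w w ≤ cntW n (r s) e v v)
    (i j : ℤ) (hi : i % 2 = e) (hj : j % 2 = e) (hij : i < j) (hjn : j < i + n) : r s i j := by
  by_contra hr
  obtain ⟨x, y, hP, hx, hy⟩ := Z.pocket_of_hidden hij hjn hr
  have hb := ZVE.pk_bounds hP
  obtain ⟨h, hh1, hh2, ⟨v, x', y', hv, hP', hlen⟩, hh4⟩ :=
    exists_last (p := fun z => ∃ v x y, v % 2 = e ∧ Pk n (r s) T v x y ∧ y - x + 1 = z)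
      (a := y - x + 1) (b := n) (by omega) ⟨i, x, y, hi, hP, rfl⟩
  have C : Ctx n r s E T e h :=
    { fam := F
      zve := Z
      e01 := he
      ba := ba
      hmax := by
        intro v x y hv hP
        by_contra hc
        push Not at hc
        have hb' := ZVE.pk_bounds hP
        exact hh4 (y - x + 1) hc (by omega) ⟨v, x, y, hv, hP, rfl⟩
      one := by omega }
  rcases lt_or_ge h 2 with h2 | h2
  · have hxj : x = j := by omega
    have hyj : y = j := by omega
    subst hxj
    rw [hyj] at hP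
    obtain ⟨-, ⟨t, hg, h3, h4⟩ | ⟨t, hg, h3, h4⟩⟩ := hP
    · have := (C.hiderR hi hg h4 h3 (by omega)).1
      omega
    · have := (C.hiderL hi hg h4 h3 (by omega)).1
      omega
  · obtain ⟨h5, ⟨t, hg, h3, h4⟩ | ⟨t, hg, h3, h4⟩⟩ := hP'
    · exact C.no_R h2 hv hg h4 h3 (by omega)
    · have hg' : Gp n (VisMap.mirror (r s)) (-v) (-y' - 1 + n) (-t + n) := by
        rw [Z.gp_mirror]
        have e1 : -(-t + (n : ℤ)) + n = t := by ring
        have e2 : -(-y' - 1 + (n : ℤ)) + n = y' + 1 := by ring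
        rwa [e1, e2, neg_neg]
      have hT' : mirrorE T (-v) (-x' + n) := by
        show T (- -v) (-(-x' + n) - 1)
        rw [neg_neg, ← Z.perT']
        have e1 : -(-x' + (n : ℤ)) - 1 + n = x' - 1 := by ring
        rwa [e1]
      exact C.mirror.no_R h2 (by omega) hg' hT' (by omega) (by omega)

/-- One of the two classes has the larger count. -/
theorem exists_ba (F : Fam n 2 r) (Z : ZVE n (r s) E T) {i j : ℤ} (hij : i < j)
    (hjn : j < i + n) (hr : ¬ r s i j) :
    ∃ e, (e = 0 ∨ e = 1) ∧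
      ∀ v w, v % 2 = e → w % 2 ≠ e → cntW n (r s) e w w ≤ cntW n (r s) e v v := by
  classical
  have hn := F.three
  have h2 := even_of_fam F
  obtain ⟨x, y, hP, hx, hy⟩ := Z.pocket_of_hidden hij hjn hr
  have hb := ZVE.pk_bounds hP
  obtain ⟨h, hh1, hh2, ⟨v, x', y', hP', hlen⟩, hh4⟩ :=
    exists_last (p := fun z => ∃ v x y, Pk n (r s) T v x y ∧ y - x + 1 = z)
      (a := y - x + 1) (b := n) (by omega) ⟨i, x, y, hP, rfl⟩
  have hmax : ∀ v x y, Pk n (r s) T v x y → y - x + 1 ≤ h := by
    intro v x y hP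
    by_contra hc
    push Not at hc
    have hb' := ZVE.pk_bounds hP
    exact hh4 (y - x + 1) hc (by omega) ⟨v, x, y, hP, rfl⟩
  have main : ∀ p z : ℤ, 2 ∣ z - p - 1 →
      (∀ v, v % 2 = p % 2 → NN n (r s) z v → NN n (r s) p v) →
      ∃ e, (e = 0 ∨ e = 1) ∧
        ∀ v w, v % 2 = e → w % 2 ≠ e → cntW n (r s) e w w ≤ cntW n (r s) e v v := by
    intro p z hz hsub
    refine ⟨p % 2, by omega, fun v w hv hw => ?_⟩
    rw [← cntW_const F s s (v := w) (w := z) (by omega) (p % 2),
      ← cntW_const F s s (v := v) (w := p) (by omega) (p % 2),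
      cntW_window (by omega) h2 Z.perR (p % 2) z z p]
    unfold cntW
    refine Finset.card_le_card fun q hq => ?_
    rw [Finset.mem_filter] at hq ⊢
    exact ⟨hq.1, hq.2.1, hsub q hq.2.1 hq.2.2⟩
  obtain ⟨h5, ⟨t, hg, h3, h4⟩ | ⟨t, hg, h3, h4⟩⟩ := hP'
  · refine main (x' - 1) (x' - 2) (by omega) fun u hu hzu => ?_
    have g1 := hg.1
    exact t1R_gen (e := (x' - 1) % 2) (h := h) Z hn h2 (fun v x y _ hP => hmax v x y hP) hg h4
      (by omega) h3 (by omega) (z := x' - 2) (by omega) (by omega) hu hzu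
  · refine main (y' + 1) (y' + 2 - n) (by omega) fun u hu hzu => ?_
    have g3 := hg.2.2.1
    exact t1L_gen (e := (y' + 1) % 2) (h := h) Z hn h2 (fun v x y _ hP => hmax v x y hP) hg h4
      h3 (by omega) (by omega) (z := y' + 2 - n) (by omega) (by omega) hu hzu

theorem complete_transfer (F : Fam n 2 r) (s s' : Bool)
    (hc : ∀ i j : ℤ, i < j → j < i + n → r s i j) (i j : ℤ) (hij : i < j) (hjn : j < i + n) :
    r s' i j := by
  classical
  have h1 := lev_total F s s' (v := i) (w := i) (by simp) (j % 2)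
  unfold lev at h1
  have h2 : ((Finset.Ioc i (i + n - 1)).filter fun z => z % 2 = j % 2 ∧ r s' i z) ⊆
      ((Finset.Ioc i (i + n - 1)).filter fun z => z % 2 = j % 2 ∧ r s i z) := by
    intro z hz
    rw [Finset.mem_filter, Finset.mem_Ioc] at hz ⊢
    exact ⟨hz.1, hz.2.1, hc i z hz.1.1 (by omega)⟩
  have h3 := Finset.eq_of_subset_of_card_le h2 h1.ge
  have h4 : j ∈ ((Finset.Ioc i (i + n - 1)).filter fun z => z % 2 = j % 2 ∧ r s i z) := by
    rw [Finset.mem_filter, Finset.mem_Ioc]
    exact ⟨⟨hij, by omega⟩, rfl, hc i j hij hjn⟩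
  rw [← h3, Finset.mem_filter] at h4
  exact h4.2.2

end clique

/-- Both relations have the clique `e`. -/
structure Cq (n : ℕ) (r : Bool → ℤ → ℤ → Prop) (E T : Bool → ℤ → ℤ → Prop) (e : ℤ) :
    Prop where
  fam : Fam n 2 r
  zve : ∀ s, ZVE n (r s) (E s) (T s)
  e01 : e = 0 ∨ e = 1
  cl : ∀ s i j, i % 2 = e → j % 2 = e → i < j → j < i + n → r s i j

namespace Cq

variable {n : ℕ} {r E T : Bool → ℤ → ℤ → Prop} {e : ℤ}

theorem lev_odd (Q : Cq n r E T e) (s : Bool) {v : ℤ} (hv : v % 2 = e) (m : ℕ)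
    (hm : 2 * (m : ℤ) + 1 < n) : lev (r s) e v (v + (2 * m + 1)) = m := by
  classical
  have h1 : lev (r s) e v (v + 2 * m) = lev (r s) e v (v + (2 * m + 1)) :=
    lev_eq (by omega) fun z hz1 hz2 hz3 _ => by omega
  rw [← h1]
  refine Eq.trans ?_ (card_parity hv m)
  unfold lev
  congr 1
  ext z
  rw [Finset.mem_filter, Finset.mem_filter, Finset.mem_Ioc]
  constructor
  · rintro ⟨h3, h4, -⟩
    exact ⟨h3, h4⟩
  · rintro ⟨h3, h4⟩
    exact ⟨h3, h4, Q.cl s v z hv h4 h3.1 (by omega)⟩

/-- The vertices of the other class seen by a vertex of the clique. -/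
theorem alpha (Q : Cq n r E T e) (s s' : Bool) {v w : ℤ} (hv : v % 2 = e) (hw : w % 2 = e)
    {d : ℤ} (h0 : 0 < d) (hd : d < n) (h1 : d % 2 = 1) (hr : r s v (v + d)) :
    r s' w (w + d) := by
  obtain ⟨m, hm⟩ : ∃ m : ℕ, d = 2 * m + 1 := ⟨(d / 2).toNat, by omega⟩
  obtain ⟨ψ, a1, a2, a3⟩ := transfer Q.fam s s' (v := v) (w := w) (by omega) e
  obtain ⟨b1, b2, b3, b4, b5⟩ := a1 (v + d) (by omega) (by omega) hr
  obtain ⟨m', hm'⟩ : ∃ m' : ℕ, ψ (v + d) = w + (2 * m' + 1) :=
    ⟨((ψ (v + d) - w) / 2).toNat, by omega⟩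
  rw [hm', Q.lev_odd s' hw m' (by omega), hm, Q.lev_odd s hv m (by omega)] at b5
  rw [hm', b5, ← hm] at b3
  exact b3

/-- The vertices of the clique seen by a vertex of the other class. -/
theorem beta (Q : Cq n r E T e) (s s' : Bool) {v w : ℤ} (hv : v % 2 ≠ e) (hw : w % 2 ≠ e)
    {d : ℤ} (h0 : 0 < d) (hd : d < n) (h1 : d % 2 = 1) (hr : r s v (v + d)) :
    r s' w (w + d) := by
  have he := Q.e01
  have h2 := even_of_fam Q.fam
  have h3 : r s (v + d) (v + d + (n - d)) := by
    have e1 : v + d + (n - d) = v + n := by ring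
    rw [e1, (Q.zve s).perR]
    exact (Q.zve s).symm _ _ hr
  have h4 := Q.alpha s s' (v := v + d) (w := w + d) (by omega) (by omega) (by omega) (by omega)
    (by omega) h3
  have e1 : w + d + (n - d) = w + n := by ring
  rw [e1, (Q.zve s').perR] at h4
  exact (Q.zve s').symm _ _ h4

/-- (star) -/
theorem star (Q : Cq n r E T e) (s : Bool) {i g t u : ℤ} (hi : i % 2 ≠ e)
    (hg : Gp n (r s) i g t) (hu : u % 2 = e) (h1 : g < u) (h2 : u < t) :
    g = i + 1 ∨ t = i + n - 1 := by
  have he := Q.e01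
  have hn := even_of_fam Q.fam
  obtain ⟨g1, g2, g3, g4, g5, g6⟩ := hg
  obtain ⟨c, hc1, hc2, hc3⟩ := (Q.zve s).thr _ _ _ ⟨g1, g2, g3, g4, g5, g6⟩
  rcases le_or_gt u c with huc | huc
  · left
    by_contra hne
    exact ((Q.zve s).ve1l _ _ _ ⟨g1, g2, g3, g4, g5, g6⟩ c hc1 hc2 hc3 (i + 1) (by omega)
      (by omega)).1 u h1 huc (Q.cl s _ _ (by omega) hu (by omega) (by omega))
  · right
    by_contra hne
    exact ((Q.zve s).ve1r _ _ _ ⟨g1, g2, g3, g4, g5, g6⟩ c hc1 hc2 hc3 (i + n - 1) (by omega)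
      (by omega)).1 u huc h2 ((Q.zve s).symm _ _ (Q.cl s _ _ hu (by omega) (by omega) (by omega)))

theorem lev_beta (Q : Cq n r E T e) (s s' : Bool) {v w : ℤ} (hv : v % 2 ≠ e) (hw : w % 2 ≠ e)
    {f : ℤ} (hf : f < n) : lev (r s) e v (v + f) = lev (r s') e w (w + f) := by
  classical
  have he := Q.e01
  unfold lev
  refine Finset.card_bij (fun z _ => z - v + w) ?_ ?_ ?_
  · intro z hz
    rw [Finset.mem_filter, Finset.mem_Ioc] at hz ⊢
    refine ⟨by omega, by omega, ?_⟩
    have := Q.beta s s' hv hw (d := z - v) (by omega) (by omega) (by omega)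
      (by rw [add_sub_cancel]; exact hz.2.2)
    have e1 : z - v + w = w + (z - v) := by ring
    rw [e1]; exact this
  · intro a _ b _ hab
    omega
  · intro z hz
    rw [Finset.mem_filter, Finset.mem_Ioc] at hz
    refine ⟨z - w + v, ?_, by ring⟩
    rw [Finset.mem_filter, Finset.mem_Ioc]
    refine ⟨by omega, by omega, ?_⟩
    have := Q.beta s' s hw hv (d := z - w) (by omega) (by omega) (by omega)
      (by rw [add_sub_cancel]; exact hz.2.2)
    have e1 : z - w + v = v + (z - w) := by ring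
    rw [e1]; exact this

/-- Two vertices of the other class. -/
theorem beta_beta (Q : Cq n r E T e) (hn8 : 8 ≤ n) (s s' : Bool) {i i' : ℤ} (hi : i % 2 ≠ e)
    (hi' : i' % 2 ≠ e) {f f' : ℤ} (hf0 : 0 < f) (hff : f < f') (hf' : f' < n)
    (hfe : f % 2 = 0) (hfe' : f' % 2 = 0) (hr : r s i (i + f)) (hr' : r s' i' (i' + f'))
    (hlev : lev (r s') e i' (i' + f') = lev (r s) e i (i + f)) : False := by
  have he := Q.e01
  have hn := even_of_fam Q.fam
  -- no vertex of the clique is seen between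
  have hno : ∀ d, f < d → d ≤ f' → d % 2 = 1 → ¬ r s' i' (i' + d) := by
    intro d hd1 hd2 hd3 hd4
    have h1 := Q.lev_beta s s' hi hi' (f := f) (by omega)
    have h2 : lev (r s') e i' (i' + f) < lev (r s') e i' (i' + f') :=
      lev_lt (z := i' + d) (by omega) (by omega) (by omega) (by omega) hd4
    omega
  -- all the odd offsets from `f` to `n - 1` are unseen
  have hD1 : ∀ d, f < d → d < n - 1 → d % 2 = 1 → ¬ r s i (i + d) := by
    have hu : ¬ r s i (i + (f + 1)) := fun hc =>
      hno (f + 1) (by omega) (by omega) (by omega) (Q.beta s s' hi hi' (by omega) (by omega)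
        (by omega) hc)
    obtain ⟨g, t, hg, hg1, ht1⟩ := (Q.zve s).gap_around (v := i) (p := i + (f + 1)) (by omega)
      (by omega) hu
    have hgf : i + f ≤ g := by
      by_contra hc
      exact hg.2.2.2.2.2 (i + f) (by omega) (by omega) hr
    rcases Q.star s hi hg (u := i + (f + 1)) (by omega) hg1 ht1 with h1 | h1
    · omega
    · intro d hd1 hd2 hd3
      exact hg.2.2.2.2.2 (i + d) (by omega) (by omega)
  -- all the odd offsets from `1` to `f'` are unseen
  have hD2 : ∀ d, 1 < d → d < f' → d % 2 = 1 → ¬ r s' i' (i' + d) := by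
    have hu : ¬ r s' i' (i' + (f' - 1)) := hno (f' - 1) (by omega) (by omega) (by omega)
    obtain ⟨g, t, hg, hg1, ht1⟩ := (Q.zve s').gap_around (v := i') (p := i' + (f' - 1)) (by omega)
      (by omega) hu
    have htf : t ≤ i' + f' := by
      by_contra hc
      exact hg.2.2.2.2.2 (i' + f') (by omega) (by omega) hr'
    rcases Q.star s' hi' hg (u := i' + (f' - 1)) (by omega) hg1 ht1 with h1 | h1
    · intro d hd1 hd2 hd3
      exact hg.2.2.2.2.2 (i' + d) (by omega) (by omega)
    · omega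
  -- a vertex of the other class sees only its neighbours in the clique
  have hD : ∀ (q : Bool) (v : ℤ), v % 2 ≠ e → ∀ d : ℤ, 1 < d → d < n - 1 → d % 2 = 1 →
      ¬ r q v (v + d) := by
    intro q v hv d hd1 hd2 hd3 hd4
    rcases lt_or_ge f d with h1 | h1
    · exact hD1 d h1 hd2 hd3 (Q.beta q s hv hi (by omega) (by omega) hd3 hd4)
    · exact hD2 d hd1 (by omega) hd3 (Q.beta q s' hv hi' (by omega) (by omega) hd3 hd4)
  -- the second vertex seen by `i`
  have hr2 : r s i (i + 2) := by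
    obtain ⟨y, hy1, hy2, hy3, hy4⟩ := exists_first (p := fun z => r s i z) (a := i + 2)
      (b := i + f) (by omega) hr
    have hye : y % 2 ≠ e := by
      intro hc
      have := hD s i hi (y - i) (by omega) (by omega) (by omega)
      rw [add_sub_cancel] at this
      exact this hy3
    have h1 : r s (i + 1) y := (Q.zve s).cn i (i + 1) y ⟨by omega, by omega, by omega,
      (Q.zve s).succ i, hy3, fun m hm1 hm2 => hy4 m (by omega) hm2⟩
    have h2 : r s y (y + (i + 1 - y + n)) := by
      have e1 : y + (i + 1 - y + n) = i + 1 + n := by ring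
      rw [e1, (Q.zve s).perR]
      exact (Q.zve s).symm _ _ h1
    have h3 : ¬ (1 < i + 1 - y + n ∧ i + 1 - y + n < n - 1) := fun hc =>
      hD s y hye _ hc.1 hc.2 (by omega) h2
    have : y = i + 2 := by omega
    rw [← this]; exact hy3
  have hrn : r s i (i + n - 2) := by
    obtain ⟨y, hy1, hy2, hy3, hy4⟩ := exists_last (p := fun z => r s i z) (a := i + f)
      (b := i + n - 2) (by omega) hr
    have hye : y % 2 ≠ e := by
      intro hc
      have := hD s i hi (y - i) (by omega) (by omega) (by omega)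
      rw [add_sub_cancel] at this
      exact this hy3
    have h1 : r s y (i + n - 1) := (Q.zve s).cn i y (i + n - 1) ⟨by omega, by omega, by omega,
      hy3, (Q.zve s).last i, fun m hm1 hm2 => hy4 m (by omega) (by omega)⟩
    have h3 : ¬ (1 < i + n - 1 - y ∧ i + n - 1 - y < n - 1) := fun hc =>
      hD s y hye _ hc.1 hc.2 (by omega) (by rw [add_sub_cancel]; exact h1)
    have : y = i + n - 2 := by omega
    rw [← this]; exact hy3
  have hu : ¬ r s i (i + 3) := hD s i hi 3 (by omega) (by omega) (by omega)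
  obtain ⟨g, t, hg, hg1, ht1⟩ := (Q.zve s).gap_around (v := i) (p := i + 3) (by omega)
    (by omega) hu
  have hg2 : i + 2 ≤ g := by
    by_contra hc
    exact hg.2.2.2.2.2 (i + 2) (by omega) (by omega) hr2
  have ht2 : t ≤ i + n - 2 := by
    by_contra hc
    exact hg.2.2.2.2.2 (i + n - 2) (by omega) (by omega) hrn
  rcases Q.star s hi hg (u := i + 3) (by omega) hg1 ht1 with h1 | h1 <;> omega

/-- The relation is determined by the views. -/
theorem main (Q : Cq n r E T e) (hn8 : 8 ≤ n) (s s' : Bool) {i j : ℤ} (hij : i < j)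
    (hjn : j < i + n) (hr : r s i j) : r s' i j := by
  have he := Q.e01
  have hn := even_of_fam Q.fam
  by_cases hi : i % 2 = e
  · by_cases hj : j % 2 = e
    · exact Q.cl s' i j hi hj hij hjn
    · have := Q.alpha s s' hi hi (d := j - i) (by omega) (by omega) (by omega)
        (by rw [add_sub_cancel]; exact hr)
      rwa [add_sub_cancel] at this
  · by_cases hj : j % 2 = e
    · have := Q.beta s s' hi hi (d := j - i) (by omega) (by omega) (by omega)
        (by rw [add_sub_cancel]; exact hr)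
      rwa [add_sub_cancel] at this
    · obtain ⟨ψ, a1, a2, a3⟩ := transfer Q.fam s s' (v := i) (w := i) (by simp) e
      obtain ⟨b1, b2, b3, b4, b5⟩ := a1 j hij hjn hr
      have hr1 : r s i (i + (j - i)) := by rw [add_sub_cancel]; exact hr
      have hr2 : r s' i (i + (ψ j - i)) := by rw [add_sub_cancel]; exact b3
      rcases lt_trichotomy (ψ j) j with hlt | heq | hgt
      · exfalso
        refine Q.beta_beta hn8 s' s hi hi (f := ψ j - i) (f' := j - i) (by omega) (by omega)
          (by omega) (by omega) (by omega) hr2 hr1 ?_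
        rw [add_sub_cancel, add_sub_cancel]
        exact b5.symm
      · rw [← heq]; exact b3
      · exfalso
        refine Q.beta_beta hn8 s s' hi hi (f := j - i) (f' := ψ j - i) (by omega) (by omega)
          (by omega) (by omega) (by omega) hr1 hr2 ?_
        rw [add_sub_cancel, add_sub_cancel]
        exact b5

end Cq

/-- Two families with two classes agree. -/
theorem two_classes {n : ℕ} {r E T : Bool → ℤ → ℤ → Prop} (F : Fam n 2 r)
    (Z : ∀ s, ZVE n (r s) (E s) (T s)) (hn8 : 8 ≤ n) (s s' : Bool) {i j : ℤ} (hij : i < j)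
    (hjn : j < i + n) (hr : r s i j) : r s' i j := by
  by_cases hc : ∀ i j : ℤ, i < j → j < i + n → r s i j
  · exact complete_transfer F s s' hc i j hij hjn
  · push Not at hc
    obtain ⟨i0, j0, h1, h2, h3⟩ := hc
    obtain ⟨e, he, hba⟩ := exists_ba F (Z s) h1 h2 h3
    have hba' : ∀ q v w, v % 2 = e → w % 2 ≠ e →
        cntW n (r q) e w w ≤ cntW n (r q) e v v := by
      intro q v w hv hw
      rw [cntW_const F s q (v := v) (w := v) (by simp), cntW_const F s q (v := w) (w := w)
        (by simp)]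
      exact hba v w hv hw
    have Q : Cq n r E T e :=
      { fam := F
        zve := Z
        e01 := he
        cl := fun q i j hi hj hij hjn => clique F (Z q) he (hba' q) i j hi hj hij hjn }
    exact Q.main hn8 s s' hij hjn hr

/-- The combinatorial statement for two classes (helper88, papers 594 and 604). -/
theorem eq_of_fam_two {n : ℕ} (hn : 3 ≤ n) {R E T R' E' T' : ZMod n → ZMod n → Prop}
    (hV : VisE R E T) (hV' : VisE R' E' T') (hF : Fam n 2 (fun s => unroll (cond s R R')))
    (i j : ZMod n) : R' i j ↔ R i j := by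
  have : NeZero n := ⟨by omega⟩
  have h2 := even_of_fam hF
  rcases lt_or_ge n 8 with h8 | h8
  · exact Ag.eq_of_fam hn hF (by omega) i j
  have Z : ∀ s, ZVE n (unroll (cond s R R')) (unroll (cond s E E')) (unroll (cond s T T')) := by
    intro s
    cases s
    · exact ZVE.of_visE hV'
    · exact ZVE.of_visE hV
  obtain ⟨a, -, -, rfl⟩ := Ag.lift_lt 0 i
  obtain ⟨b, hb1, hb2, rfl⟩ := Ag.lift_lt a j
  rcases hb1.lt_or_eq with hlt | heq
  · exact ⟨fun h => two_classes (E := fun s => unroll (cond s E E'))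
        (T := fun s => unroll (cond s T T')) hF Z h8 false true hlt hb2 h,
      fun h => two_classes (E := fun s => unroll (cond s E E'))
        (T := fun s => unroll (cond s T T')) hF Z h8 true false hlt hb2 h⟩
  · subst heq
    exact ⟨fun h => absurd h ((hF.zrel false).irrefl a), fun h => absurd h
      ((hF.zrel true).irrefl a)⟩

end VisMap
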