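import Mathlib

/-!
# MP_9f3af0_lc: minimisers of a quadratic form on the simplex (helper47, after helpers 80, 91, 93, 42)

`QF H f x = xᵀ H x + 2 fᵀ x`.  `Opt H f x`: `x` minimises `QF H f` on the simplex.  `Opt.le`: if
`x a ≠ 0` then `(H x + f) a ≤ (H x + f) b` for all `b`.  `exists_opt`: there is a minimiser whose
support is not contained in a larger one (`Opt.mem_of` uses this).
-/

namespace VisMap

namespace Kkt

open Matrix

variable {ι : Type*} [Fintype ι] [DecidableEq ι]

/-- The quadratic form. -/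
def QF (H : Matrix ι ι ℝ) (f x : ι → ℝ) : ℝ := x ⬝ᵥ (H *ᵥ x) + 2 * (f ⬝ᵥ x)

/-- The marginal value. -/
def mg (H : Matrix ι ι ℝ) (f x : ι → ℝ) (a : ι) : ℝ := (H *ᵥ x) a + f a

/-- `x` is a minimiser on the simplex. -/
structure Opt (H : Matrix ι ι ℝ) (f x : ι → ℝ) : Prop where
  nn : ∀ a, 0 ≤ x a
  sum : ∑ a, x a = 1
  mini : ∀ y : ι → ℝ, (∀ a, 0 ≤ y a) → ∑ a, y a = 1 → QF H f x ≤ QF H f y

/-- The direction from `a` to `b`. -/
def dir (a b : ι) : ι → ℝ := Pi.single b 1 - Pi.single a 1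

theorem QF_move {H : Matrix ι ι ℝ} (hs : ∀ a b, H a b = H b a) (f x : ι → ℝ) (a b : ι) (ε : ℝ) :
    QF H f (x + ε • dir a b) = QF H f x + 2 * ε * (mg H f x b - mg H f x a) +
      ε ^ 2 * (H b b - 2 * H a b + H a a) := by
  have hT : Hᵀ = H := by ext i j; exact hs j i
  have h1 : ∀ y : ι → ℝ, dir a b ⬝ᵥ y = y b - y a := by
    intro y
    simp [dir, sub_dotProduct]
  have h2 : x ⬝ᵥ (H *ᵥ dir a b) = (H *ᵥ x) b - (H *ᵥ x) a := by
    rw [dotProduct_mulVec, ← mulVec_transpose, hT, dotProduct_comm, h1]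
  have h3 : dir a b ⬝ᵥ (H *ᵥ dir a b) = H b b - 2 * H a b + H a a := by
    rw [h1]
    simp only [dir, mulVec_sub, Pi.sub_apply, mulVec_single_one, Matrix.col_apply]
    rw [hs b a]; ring
  have h4 : f ⬝ᵥ dir a b = f b - f a := by rw [dotProduct_comm, h1]
  unfold QF mg
  rw [mulVec_add, mulVec_smul, add_dotProduct, dotProduct_add, dotProduct_add, dotProduct_add,
    smul_dotProduct, smul_dotProduct, dotProduct_smul, dotProduct_smul, dotProduct_smul, h2, h3, h4,
    h1]
  simp only [smul_eq_mul]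
  ring

theorem sum_move (x : ι → ℝ) (a b : ι) (ε : ℝ) :
    ∑ i, (x + ε • dir a b) i = ∑ i, x i := by
  simp [dir, Finset.sum_add_distrib, ← Finset.mul_sum]

omit [Fintype ι] in
theorem nn_move {x : ι → ℝ} (hx : ∀ i, 0 ≤ x i) {a b : ι} {ε : ℝ} (h0 : 0 ≤ ε) (h1 : ε ≤ x a) :
    ∀ i, 0 ≤ (x + ε • dir a b) i := by
  intro i
  have h2 := hx i
  simp only [dir, Pi.add_apply, Pi.smul_apply, Pi.sub_apply, smul_eq_mul]
  by_cases ha : i = a
  · subst ha
    by_cases hb : i = b
    · subst hb; simp [h2]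
    · rw [Pi.single_eq_same, Pi.single_eq_of_ne hb]; linarith
  · rw [Pi.single_eq_of_ne ha]
    by_cases hb : i = b
    · subst hb; rw [Pi.single_eq_same]; linarith
    · rw [Pi.single_eq_of_ne hb]; linarith

/-- The first order condition. -/
theorem Opt.le {H : Matrix ι ι ℝ} (hs : ∀ a b, H a b = H b a) {f x : ι → ℝ} (h : Opt H f x)
    {a : ι} (ha : x a ≠ 0) (b : ι) : mg H f x a ≤ mg H f x b := by
  by_contra hlt
  push Not at hlt
  set δ := mg H f x a - mg H f x b with hδ
  have hδ0 : 0 < δ := by rw [hδ]; linarith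
  have ha0 : 0 < x a := lt_of_le_of_ne (h.nn a) (Ne.symm ha)
  set C := |H b b - 2 * H a b + H a a| with hC
  have hC0 : 0 ≤ C := abs_nonneg _
  set ε := min (x a) (δ / (C + 1)) with hε
  have hε0 : 0 < ε := lt_min ha0 (by positivity)
  have h1 := h.mini _ (nn_move h.nn hε0.le (min_le_left _ _) (a := a) (b := b)) (by
    rw [sum_move]; exact h.sum)
  rw [QF_move hs] at h1
  have h2 : ε * (C + 1) ≤ δ := by
    have := min_le_right (x a) (δ / (C + 1))
    rw [← hε] at this
    rwa [le_div_iff₀ (by linarith)] at this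
  have h3 : H b b - 2 * H a b + H a a ≤ C := le_abs_self _
  have h4 : ε ^ 2 * (H b b - 2 * H a b + H a a) ≤ ε ^ 2 * C :=
    mul_le_mul_of_nonneg_left h3 (by positivity)
  have h5 : mg H f x b - mg H f x a = -δ := by rw [hδ]; ring
  rw [h5] at h1
  nlinarith [mul_pos hε0 hδ0, mul_nonneg hε0.le hC0]

/-- The marginal values are equal on the support. -/
theorem Opt.eq {H : Matrix ι ι ℝ} (hs : ∀ a b, H a b = H b a) {f x : ι → ℝ} (h : Opt H f x)
    {a b : ι} (ha : x a ≠ 0) (hb : x b ≠ 0) : mg H f x a = mg H f x b :=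
  le_antisymm (h.le hs ha b) (h.le hs hb a)

omit [DecidableEq ι] in
theorem continuous_QF (H : Matrix ι ι ℝ) (f : ι → ℝ) : Continuous (QF H f) := by
  unfold QF dotProduct mulVec dotProduct
  fun_prop

omit [DecidableEq ι] in
theorem exists_opt_aux [Nonempty ι] (H : Matrix ι ι ℝ) (f : ι → ℝ) : ∃ x, Opt H f x := by
  classical
  obtain ⟨x, hx, hmin⟩ := (isCompact_stdSimplex ℝ ι).exists_isMinOn
    ⟨Pi.single (Classical.arbitrary ι) 1, single_mem_stdSimplex ℝ _⟩ (continuous_QF H f).continuousOn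
  exact ⟨x, hx.1, hx.2, fun y hy hs => hmin ⟨hy, hs⟩⟩

/-- A minimiser with a maximal support. -/
structure MOpt (H : Matrix ι ι ℝ) (f x : ι → ℝ) : Prop extends Opt H f x where
  maxi : ∀ y, Opt H f y → (∀ a, x a ≠ 0 → y a ≠ 0) → ∀ a, y a ≠ 0 → x a ≠ 0

omit [DecidableEq ι] in
theorem exists_mopt [Nonempty ι] (H : Matrix ι ι ℝ) (f : ι → ℝ) : ∃ x, MOpt H f x := by
  classical
  let P : ℕ → Prop := fun m => ∃ x, Opt H f x ∧ (Finset.univ.filter fun a => x a ≠ 0).card = m
  have hP : ∃ m, P m := by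
    obtain ⟨x, hx⟩ := exists_opt_aux H f
    exact ⟨_, x, hx, rfl⟩
  have hb : ∀ m, P m → m ≤ Fintype.card ι := by
    rintro m ⟨x, -, rfl⟩
    exact Finset.card_le_univ _
  have hspec := Nat.findGreatest_spec (P := P) (hb _ hP.choose_spec) hP.choose_spec
  obtain ⟨x, hx, hc⟩ := hspec
  refine ⟨x, hx, fun y hy hxy a ha => ?_⟩
  by_contra hne
  have hsub : (Finset.univ.filter fun a => x a ≠ 0) ⊂ (Finset.univ.filter fun a => y a ≠ 0) := by
    refine Finset.ssubset_iff_subset_ne.2 ⟨fun b hb' => ?_, fun he => ?_⟩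
    · rw [Finset.mem_filter] at hb' ⊢
      exact ⟨hb'.1, hxy b hb'.2⟩
    · have : a ∈ (Finset.univ.filter fun a => y a ≠ 0) := by
        rw [Finset.mem_filter]; exact ⟨Finset.mem_univ _, ha⟩
      rw [← he, Finset.mem_filter] at this
      exact this.2 hne
  have h1 := Finset.card_lt_card hsub
  have h2 : P (Finset.univ.filter fun a => y a ≠ 0).card := ⟨y, hy, rfl⟩
  have h3 := Nat.le_findGreatest (hb _ h2) h2
  omega

/-- If `b` has the same marginal value as `a` in the support and the second order term is not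
positive, then `b` is in the support of a minimiser with maximal support. -/
theorem MOpt.mem_of {H : Matrix ι ι ℝ} (hs : ∀ a b, H a b = H b a) {f x : ι → ℝ}
    (h : MOpt H f x) {a b : ι} (ha : x a ≠ 0) (hb : mg H f x b = mg H f x a)
    (h2 : H b b - 2 * H a b + H a a ≤ 0) : x b ≠ 0 := by
  by_cases hab : b = a
  · rw [hab]; exact ha
  have ha0 : 0 < x a := lt_of_le_of_ne (h.nn a) (Ne.symm ha)
  set y := x + (x a / 2) • dir a b with hy
  have hyn : ∀ i, 0 ≤ y i := nn_move h.nn (by linarith) (by linarith)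
  have hysum : ∑ i, y i = 1 := by rw [hy, sum_move]; exact h.sum
  have hval : QF H f y ≤ QF H f x := by
    rw [hy, QF_move hs, hb]
    have : (x a / 2) ^ 2 * (H b b - 2 * H a b + H a a) ≤ 0 :=
      mul_nonpos_of_nonneg_of_nonpos (by positivity) h2
    linarith
  have hopt : Opt H f y := ⟨hyn, hysum, fun z h1 h3 => hval.trans (h.mini z h1 h3)⟩
  have hya : y a = x a / 2 := by
    rw [hy]
    simp only [dir, Pi.add_apply, Pi.smul_apply, Pi.sub_apply, smul_eq_mul]
    rw [Pi.single_eq_same, Pi.single_eq_of_ne (Ne.symm hab)]; ring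
  have hyb : y b = x b + x a / 2 := by
    rw [hy]
    simp only [dir, Pi.add_apply, Pi.smul_apply, Pi.sub_apply, smul_eq_mul]
    rw [Pi.single_eq_same, Pi.single_eq_of_ne hab]; ring
  refine h.maxi y hopt (fun c hc => ?_) b ?_
  · by_cases hca : c = a
    · rw [hca, hya]; linarith
    · by_cases hcb : c = b
      · rw [hcb, hyb]; have := h.nn b; positivity
      · have : y c = x c := by
          rw [hy]
          simp only [dir, Pi.add_apply, Pi.smul_apply, Pi.sub_apply, smul_eq_mul]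
          rw [Pi.single_eq_of_ne hca, Pi.single_eq_of_ne hcb]; ring
        rw [this]; exact hc
  · rw [hyb]; have := h.nn b; positivity

end Kkt

end VisMap
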