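import Pool.Agent.Lib.MP_9f3af0_lc.Jump

/-!
# MP_9f3af0_lc: laps (helper74, after helpers 88, 71, 66, 83)

`c : ℤ → ℤ` is a counter (`Ctr k q c`): its steps are `0` or `1` and `c (z + k) = c z + q`; the
vertices `z` with `c (z - 1) < c z` are the counted vertices (`q` residue classes modulo `k`).  The
counter `id` with `q = k` counts all vertices.  `lp q c P a b` is the number of laps of the predicate
`P` in the open interval `(a, b)`: the sum over the gaps between consecutive counted `P`-vertices of
`⌊(number of counted vertices in the gap) / q⌋`.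
-/

namespace VisMap

namespace Laps

/-- A counter of `q` residue classes modulo `k`. -/
structure Ctr (k q : ℤ) (c : ℤ → ℤ) : Prop where
  qpos : 0 < q
  step : ∀ z, c (z - 1) ≤ c z ∧ c z ≤ c (z - 1) + 1
  per : ∀ z, c (z + k) = c z + q

theorem Ctr.id {k : ℤ} (hk : 0 < k) : Ctr k k fun z => z :=
  ⟨hk, fun z => ⟨by omega, by omega⟩, fun _ => rfl⟩

/-- The counted `P`-vertices. -/
def V (c : ℤ → ℤ) (P : ℤ → Prop) (z : ℤ) : Prop := P z ∧ c (z - 1) < c z

open Classical in
/-- The number of hidden counted vertices in `(a, a + j]`, rounded down to a multiple of `q` at each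
counted `P`-vertex, with initial value `x`. -/
noncomputable def W (q : ℤ) (c : ℤ → ℤ) (P : ℤ → Prop) (x a : ℤ) : ℕ → ℤ
  | 0 => x
  | j + 1 => if V c P (a + j + 1) then q * (W q c P x a j / q)
      else W q c P x a j + (c (a + j + 1) - c (a + j))

/-- The number of laps in the open interval `(a, b)`. -/
noncomputable def lp (q : ℤ) (c : ℤ → ℤ) (P : ℤ → Prop) (a b : ℤ) : ℤ :=
  W q c P 0 a (b - 1 - a).toNat / q

variable {k q : ℤ} {c : ℤ → ℤ} {P P' : ℤ → Prop} {x x' a b : ℤ}

theorem W_zero : W q c P x a 0 = x := rfl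

theorem W_vis {j : ℕ} (h : V c P (a + j + 1)) :
    W q c P x a (j + 1) = q * (W q c P x a j / q) := by
  rw [W, if_pos h]

theorem W_hid {j : ℕ} (h : ¬ V c P (a + j + 1)) :
    W q c P x a (j + 1) = W q c P x a j + (c (a + j + 1) - c (a + j)) := by
  rw [W, if_neg h]

theorem Ctr.mono (hc : Ctr k q c) {y z : ℤ} (h : y ≤ z) : c y ≤ c z := by
  obtain ⟨j, rfl⟩ : ∃ j : ℕ, z = y + j := ⟨(z - y).toNat, by omega⟩
  clear h
  induction j with
  | zero => simp
  | succ j ih =>
    have := (hc.step (y + (j + 1 : ℕ))).1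
    have e : y + ((j + 1 : ℕ) : ℤ) - 1 = y + j := by push_cast; ring
    rw [e] at this
    omega

theorem Ctr.succ (hc : Ctr k q c) (z : ℤ) : c z ≤ c (z + 1) ∧ c (z + 1) ≤ c z + 1 := by
  have := hc.step (z + 1)
  rwa [add_sub_cancel_right] at this

theorem floor_le (hq : 0 < q) (y : ℤ) : q * (y / q) ≤ y := by
  have := Int.emod_add_mul_ediv y q
  have := Int.emod_nonneg y hq.ne'
  omega

theorem lt_floor (hq : 0 < q) (y : ℤ) : y < q * (y / q) + q := by
  have := Int.emod_add_mul_ediv y q
  have := Int.emod_lt_of_pos y hq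
  omega

theorem W_add (x a : ℤ) (i j : ℕ) :
    W q c P x a (i + j) = W q c P (W q c P x a i) (a + i) j := by
  induction j with
  | zero => rfl
  | succ j ih =>
    have e : a + ((i + j : ℕ) : ℤ) + 1 = a + i + j + 1 := by push_cast; ring
    have e2 : a + ((i + j : ℕ) : ℤ) = a + i + j := by push_cast; ring
    rw [← Nat.add_assoc]
    by_cases h : V c P (a + i + j + 1)
    · rw [W_vis (by rw [e]; exact h), W_vis h, ih]
    · rw [W_hid (by rw [e]; exact h), W_hid h, ih, e, e2]

theorem W_shift (hq : 0 < q) (t : ℤ) (j : ℕ) :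
    W q c P (x + q * t) a j = W q c P x a j + q * t := by
  induction j with
  | zero => rfl
  | succ j ih =>
    by_cases h : V c P (a + j + 1)
    · rw [W_vis h, W_vis h, ih, Int.add_mul_ediv_left _ _ hq.ne']
      ring
    · rw [W_hid h, W_hid h, ih]; ring

theorem W_mono (hc : Ctr k q c) (hx : x ≤ x') {j : ℕ}
    (hP : ∀ m, a < m → m ≤ a + j → V c P m → V c P' m) :
    W q c P' x a j ≤ W q c P x' a j := by
  have hq := hc.qpos
  induction j with
  | zero => exact hx
  | succ j ih =>
    have ih := ih fun m h1 h2 h3 => hP m h1 (by push_cast; omega) h3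
    have hs := (hc.succ (a + j)).1
    by_cases h : V c P (a + j + 1)
    · rw [W_vis h, W_vis (hP _ (by omega) (by push_cast; omega) h)]
      exact mul_le_mul_of_nonneg_left (Int.ediv_le_ediv hq ih) hq.le
    · rw [W_hid (P := P) h]
      by_cases h' : V c P' (a + j + 1)
      · rw [W_vis h']
        have := floor_le hq (W q c P' x a j)
        omega
      · rw [W_hid h']; omega

theorem W_nonneg (hc : Ctr k q c) (hx : 0 ≤ x) (j : ℕ) : 0 ≤ W q c P x a j := by
  have hq := hc.qpos
  induction j with
  | zero => exact hx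
  | succ j ih =>
    by_cases h : V c P (a + j + 1)
    · rw [W_vis h]
      exact mul_nonneg hq.le (Int.ediv_nonneg ih hq.le)
    · rw [W_hid h]
      have := (hc.succ (a + j)).1
      omega

theorem W_run {i : ℕ} (h : ∀ m, a < m → m ≤ a + i → ¬ V c P m) :
    W q c P x a i = x + (c (a + i) - c a) := by
  induction i with
  | zero => simp [W_zero]
  | succ i ih =>
    rw [W_hid (h _ (by omega) (by push_cast; omega)),
      ih fun m h1 h2 => h m h1 (by push_cast; omega)]
    push_cast
    rw [← add_assoc]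
    ring

theorem W_le (hc : Ctr k q c) {j : ℕ} : W q c P x a j ≤ x + (c (a + j) - c a) := by
  have := W_mono (q := q) (P := fun _ => False) (P' := P) (a := a) hc (le_refl x) (j := j)
    fun m _ _ h => h.1.elim
  rwa [W_run (P := fun _ => False) fun m _ _ h => h.1.elim] at this

theorem W_congr {j : ℕ} (hP : ∀ m, a < m → m ≤ a + j → (V c P m ↔ V c P' m)) :
    W q c P x a j = W q c P' x a j := by
  induction j with
  | zero => rfl
  | succ j ih =>
    have ih := ih fun m h1 h2 => hP m h1 (by push_cast; omega)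
    have h' := hP (a + j + 1) (by omega) (by push_cast; omega)
    by_cases h : V c P (a + j + 1)
    · rw [W_vis h, W_vis (h'.1 h), ih]
    · rw [W_hid h, W_hid (fun hc => h (h'.2 hc)), ih]

/-! ### Laps -/

theorem lp_nonneg (hc : Ctr k q c) : 0 ≤ lp q c P a b :=
  Int.ediv_nonneg (W_nonneg hc le_rfl _) hc.qpos.le

theorem lp_anti (hc : Ctr k q c) (hP : ∀ m, a < m → m < b → V c P m → V c P' m) :
    lp q c P' a b ≤ lp q c P a b := by
  refine Int.ediv_le_ediv hc.qpos (W_mono hc le_rfl fun m h1 h2 h3 => hP m h1 ?_ h3)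
  omega

theorem lp_congr (hP : ∀ m, a < m → m < b → (V c P m ↔ V c P' m)) :
    lp q c P a b = lp q c P' a b := by
  unfold lp
  rw [W_congr fun m h1 h2 => hP m h1 (by omega)]

/-- An interval without counted `P`-vertices. -/
theorem lp_gap (hab : a < b) (h : ∀ m, a < m → m < b → ¬ V c P m) :
    lp q c P a b = (c (b - 1) - c a) / q := by
  unfold lp
  rw [W_run fun m h1 h2 => h m h1 (by omega)]
  have e : a + ((b - 1 - a).toNat : ℤ) = b - 1 := by omega
  rw [e, zero_add]

theorem lp_le (hc : Ctr k q c) (hab : a < b) : lp q c P a b ≤ (c (b - 1) - c a) / q := by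
  rw [← lp_gap (P := fun _ => False) hab fun m _ _ h => h.1.elim]
  exact lp_anti hc fun m _ _ h => h.1.elim

/-- Splitting at a counted `P`-vertex. -/
theorem lp_split (hc : Ctr k q c) {s : ℤ} (h1 : a < s) (h2 : s < b) (hs : V c P s) :
    lp q c P a b = lp q c P a s + lp q c P s b := by
  have hq := hc.qpos
  unfold lp
  obtain ⟨i, hi⟩ : ∃ i : ℕ, s = a + i + 1 := ⟨(s - 1 - a).toNat, by omega⟩
  obtain ⟨j, hj⟩ : ∃ j : ℕ, b = s + j + 1 := ⟨(b - 1 - s).toNat, by omega⟩
  have e1 : (b - 1 - a).toNat = (i + 1) + j := by omega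
  have e2 : (s - 1 - a).toNat = i := by omega
  have e3 : (b - 1 - s).toNat = j := by omega
  have e4 : a + ((i + 1 : ℕ) : ℤ) = s := by push_cast; omega
  rw [e1, e2, e3, W_add, W_vis (by rw [← hi]; exact hs), e4]
  have := W_shift (c := c) (P := P) (x := 0) (a := s) hq (W q c P 0 a i / q) j
  rw [zero_add] at this
  rw [this, Int.add_mul_ediv_left _ _ hq.ne', add_comm]

/-- Superadditivity. -/
theorem lp_add_le (hc : Ctr k q c) {s : ℤ} (h1 : a ≤ s) (h2 : s < b) :
    lp q c P a (s + 1) + lp q c P s b ≤ lp q c P a b := by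
  have hq := hc.qpos
  unfold lp
  obtain ⟨i, hi⟩ : ∃ i : ℕ, s = a + i := ⟨(s - a).toNat, by omega⟩
  obtain ⟨j, hj⟩ : ∃ j : ℕ, b = s + j + 1 := ⟨(b - 1 - s).toNat, by omega⟩
  have e1 : (b - 1 - a).toNat = i + j := by omega
  have e2 : (s + 1 - 1 - a).toNat = i := by omega
  have e3 : (b - 1 - s).toNat = j := by omega
  rw [e1, e2, e3, W_add, ← hi]
  have h3 := W_shift (c := c) (P := P) (x := 0) (a := s) hq (W q c P 0 a i / q) j
  rw [zero_add] at h3
  have h4 := W_mono (P := P) (P' := P) (a := s) (j := j) hc (floor_le hq (W q c P 0 a i))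
    fun m _ _ h => h
  rw [h3] at h4
  have h5 := Int.ediv_le_ediv hq h4
  rwa [Int.add_mul_ediv_left _ _ hq.ne', add_comm] at h5

theorem lp_mono_right (hc : Ctr k q c) {s : ℤ} (h1 : a < s) (h2 : s ≤ b) :
    lp q c P a s ≤ lp q c P a b := by
  rcases h2.lt_or_eq with h2 | rfl
  · have := lp_add_le (P := P) hc (a := a) (b := b) (s := s - 1) (by omega) (by omega)
    rw [sub_add_cancel] at this
    have := lp_nonneg (P := P) (a := s - 1) (b := b) hc
    omega
  · exact le_rfl

theorem lp_mono_left (hc : Ctr k q c) {s : ℤ} (h1 : a ≤ s) (h2 : s < b) :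
    lp q c P s b ≤ lp q c P a b := by
  have := lp_add_le (P := P) hc h1 h2
  have := lp_nonneg (P := P) (a := a) (b := s + 1) hc
  omega

/-- `q` times the number of laps, plus the number of counted `P`-vertices, is at most the number of
counted vertices. -/
theorem lp_card_le (hc : Ctr k q c) (hab : a < b) (S : Finset ℤ)
    (hS : ∀ s ∈ S, a < s ∧ s < b ∧ V c P s) :
    q * lp q c P a b + S.card ≤ c (b - 1) - c a := by
  have hq := hc.qpos
  have key : ∀ j : ℕ, ∀ S : Finset ℤ, (∀ s ∈ S, a < s ∧ s ≤ a + j ∧ V c P s) →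
      W q c P 0 a j + S.card ≤ c (a + j) - c a := by
    intro j
    induction j with
    | zero =>
      intro S hS
      have : S = ∅ := Finset.eq_empty_of_forall_notMem fun s hs => by
        obtain ⟨h1, h2, -⟩ := hS s hs
        simp at h2; omega
      simp [this, W_zero]
    | succ j ih =>
      intro S hS
      have hs := hc.succ (a + j)
      have e : a + ((j + 1 : ℕ) : ℤ) = a + j + 1 := by push_cast; ring
      rw [e]
      by_cases h : V c P (a + j + 1)
      · have h1 := ih (S.erase (a + j + 1)) fun s hs => by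
          obtain ⟨h1, h2⟩ := Finset.mem_erase.1 hs
          obtain ⟨h3, h4, h5⟩ := hS s h2
          refine ⟨h3, ?_, h5⟩
          push_cast at h4; omega
        have h2 : S.card ≤ (S.erase (a + j + 1)).card + 1 := by
          have := Finset.pred_card_le_card_erase (s := S) (a := a + j + 1)
          omega
        rw [W_vis h]
        have h3 := floor_le hq (W q c P 0 a j)
        have h4 := h.2
        rw [add_sub_cancel_right] at h4
        push_cast at *
        omega
      · have h1 := ih S fun s hs => by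
          obtain ⟨h3, h4, h5⟩ := hS s hs
          refine ⟨h3, ?_, h5⟩
          have : s ≠ a + j + 1 := by rintro rfl; exact h h5
          push_cast at h4; omega
        rw [W_hid h]
        omega
  have h1 := key (b - 1 - a).toNat S fun s hs => by
    obtain ⟨h1, h2, h3⟩ := hS s hs
    exact ⟨h1, by omega, h3⟩
  have e : a + ((b - 1 - a).toNat : ℤ) = b - 1 := by omega
  rw [e] at h1
  have h2 := floor_le hq (W q c P 0 a (b - 1 - a).toNat)
  unfold lp
  omega

/-- A lap contains `q` consecutive hidden counted vertices. -/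
theorem exists_of_lp_pos (hc : Ctr k q c) (h : 0 < lp q c P a b) :
    ∃ s t, a ≤ s ∧ s < t ∧ t < b ∧ c t - c s = q ∧ (∀ m, s < m → m ≤ t → ¬ V c P m) := by
  have hq := hc.qpos
  have key : ∀ j : ℕ, (∃ s t, a ≤ s ∧ s < t ∧ t ≤ a + j ∧ c t - c s = q ∧
      (∀ m, s < m → m ≤ t → ¬ V c P m)) ∨ (W q c P 0 a j < q ∧ ∃ s, a ≤ s ∧ s ≤ a + j ∧
        (∀ m, s < m → m ≤ a + j → ¬ V c P m) ∧ W q c P 0 a j = c (a + j) - c s) := by
    intro j
    induction j with
    | zero =>
      right
      exact ⟨by simpa [W_zero] using hq, a, le_rfl, by simp, fun m h1 h2 => by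
        simp at h2; omega, by simp [W_zero]⟩
    | succ j ih =>
      have e : a + ((j + 1 : ℕ) : ℤ) = a + j + 1 := by push_cast; ring
      rw [e]
      rcases ih with ⟨s, t, h1, h2, h3, h4, h5⟩ | ⟨h0, s, h1, h2, h3, h4⟩
      · exact Or.inl ⟨s, t, h1, h2, by omega, h4, h5⟩
      · have hs := hc.succ (a + j)
        by_cases h : V c P (a + j + 1)
        · right
          have h5 : W q c P 0 a j / q = 0 :=
            Int.ediv_eq_zero_of_lt (W_nonneg hc le_rfl _) h0
          rw [W_vis h, h5, mul_zero]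
          exact ⟨hq, a + j + 1, by omega, le_rfl, fun m m1 m2 => by omega, by ring⟩
        · rw [W_hid h]
          by_cases h6 : W q c P 0 a j + (c (a + j + 1) - c (a + j)) < q
          · right
            refine ⟨h6, s, h1, by omega, fun m m1 m2 => ?_, by rw [h4]; ring⟩
            rcases m2.lt_or_eq with m2 | rfl
            · exact h3 m m1 (by omega)
            · exact h
          · left
            refine ⟨s, a + j + 1, h1, by omega, le_rfl, by omega, fun m m1 m2 => ?_⟩
            rcases m2.lt_or_eq with m2 | rfl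
            · exact h3 m m1 (by omega)
            · exact h
  rcases key (b - 1 - a).toNat with ⟨s, t, h1, h2, h3, h4, h5⟩ | ⟨h0, -⟩
  · refine ⟨s, t, h1, h2, ?_, h4, h5⟩
    by_contra hb
    have h6 : a + ((b - 1 - a).toNat : ℤ) ≤ max a (b - 1) := by omega
    omega
  · exfalso
    unfold lp at h
    rw [Int.ediv_eq_zero_of_lt (W_nonneg hc le_rfl _) h0] at h
    exact lt_irrefl _ h

/-- `q` consecutive hidden counted vertices give a lap. -/
theorem lp_pos (hc : Ctr k q c) {s t : ℤ} (h1 : a ≤ s) (h2 : s < t) (h3 : t < b)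
    (h4 : q ≤ c t - c s) (h5 : ∀ m, s < m → m ≤ t → ¬ V c P m) : 0 < lp q c P a b := by
  have hq := hc.qpos
  have h6 : lp q c P s (t + 1) = (c t - c s) / q := by
    rw [lp_gap (by omega) fun m m1 m2 => h5 m m1 (by omega), add_sub_cancel_right]
  have h7 : 1 ≤ (c t - c s) / q := (Int.le_ediv_iff_mul_le hq).2 (by omega)
  have h8 := lp_mono_left (P := P) hc h1 (b := t + 1) (by omega)
  have h9 := lp_mono_right (P := P) hc (a := a) (s := t + 1) (b := b) (by omega) (by omega)
  omega

theorem lp_self : lp q c P a a = 0 := by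
  unfold lp
  have e : (a - 1 - a).toNat = 0 := by omega
  rw [e, W_zero]; simp

theorem lp_split' (hc : Ctr k q c) {s : ℤ} (h1 : a ≤ s) (h2 : s < b) (hs : s = a ∨ V c P s) :
    lp q c P a b = lp q c P a s + lp q c P s b := by
  rcases h1.lt_or_eq with h1 | rfl
  · rcases hs with rfl | hs
    · exact (lt_irrefl _ h1).elim
    · exact lp_split hc h1 h2 hs
  · rw [lp_self, zero_add]

/-- The laps are symmetric. -/
theorem lp_mirror (hc : Ctr k q c) (hc' : Ctr k q fun z => -c (-z - 1)) (a b : ℤ) :
    lp q c P a b = lp q (fun z => -c (-z - 1)) (fun z => P (-z)) (-b) (-a) := by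
  have hV : ∀ z, V (fun z => -c (-z - 1)) (fun z => P (-z)) z ↔ V c P (-z) := by
    intro z
    unfold V
    have e : -(z - 1) - 1 = -z := by ring
    simp only [e]
    constructor
    · rintro ⟨h1, h2⟩; exact ⟨h1, by omega⟩
    · rintro ⟨h1, h2⟩; exact ⟨h1, by omega⟩
  have main : ∀ N : ℕ, ∀ a b : ℤ, (b - a).toNat ≤ N →
      lp q c P a b = lp q (fun z => -c (-z - 1)) (fun z => P (-z)) (-b) (-a) := by
    intro N
    induction N with
    | zero =>
      intro a b h
      unfold lp
      have e1 : (b - 1 - a).toNat = 0 := by omega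
      have e2 : (-a - 1 - -b).toNat = 0 := by omega
      rw [e1, e2, W_zero, W_zero]
    | succ N ih =>
      intro a b h
      rcases lt_or_ge a b with hab | hab
      · by_cases hs : ∃ s, a < s ∧ s < b ∧ V c P s
        · obtain ⟨s, h1, h2, h3⟩ := hs
          rw [lp_split hc h1 h2 h3, lp_split hc' (s := -s) (by omega) (by omega)
            ((hV _).2 (by rwa [neg_neg])), ih a s (by omega), ih s b (by omega), add_comm]
        · rw [lp_gap hab fun m m1 m2 m3 => hs ⟨m, m1, m2, m3⟩, lp_gap (by omega) fun m m1 m2 m3 =>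
            hs ⟨-m, by omega, by omega, (hV _).1 m3⟩]
          have e1 : -(-a - 1) - 1 = a := by ring
          have e2 : -(-b) - 1 = b - 1 := by ring
          simp only [e1, e2]
          congr 1
          ring
      · exact ih a b (by omega)
  exact main _ a b le_rfl

theorem Ctr.mirror (hc : Ctr k q c) : Ctr k q fun z => -c (-z - 1) := by
  refine ⟨hc.qpos, fun z => ?_, fun z => ?_⟩
  · have := hc.step (-z)
    have e : -(z - 1) - 1 = -z := by ring
    simp only [e]
    constructor <;> omega
  · have := hc.per (-(z + k) - 1)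
    have e : -(z + k) - 1 + k = -z - 1 := by ring
    rw [e] at this
    show -c (-(z + k) - 1) = -c (-z - 1) + q
    omega

theorem lp_mirror_id (hk : 0 < k) (a b : ℤ) :
    lp k (fun z => z) P a b = lp k (fun z => z) (fun z => P (-z)) (-b) (-a) := by
  have h := lp_mirror (P := P) (Ctr.id hk) (Ctr.mirror (Ctr.id hk)) a b
  rw [h]
  have key : ∀ (Q : ℤ → Prop) (x a : ℤ) (j : ℕ),
      W k (fun z => -(-z - 1)) Q x a j = W k (fun z => z) Q x a j := by
    intro Q x a j
    have hV : ∀ z, V (fun z => -(-z - 1)) Q z ↔ V (fun z => z) Q z := by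
      intro z
      unfold V
      beta_reduce
      constructor
      · rintro ⟨h1, h2⟩; exact ⟨h1, by omega⟩
      · rintro ⟨h1, h2⟩; exact ⟨h1, by omega⟩
    induction j with
    | zero => rfl
    | succ j ih =>
      by_cases hv : V (fun z => z) Q (a + j + 1)
      · rw [W_vis hv, W_vis ((hV _).2 hv), ih]
      · rw [W_hid hv, W_hid (fun h => hv ((hV _).1 h)), ih]
        ring
  unfold lp
  rw [key]

/-! ### The laps of a row -/

variable {n : ℕ} {r : ℤ → ℤ → Prop}

/-- The laps of the vertex `v`. -/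
noncomputable def E (q : ℤ) (c : ℤ → ℤ) (n : ℕ) (r : ℤ → ℤ → Prop) (v : ℤ) : ℤ :=
  lp q c (r v) v (v + n)

theorem Ctr.per_mul (hc : Ctr k q c) (z j : ℤ) : c (z + k * j) = c z + q * j := by
  induction j using Int.induction_on with
  | zero => simp
  | succ j ih =>
    have := hc.per (z + k * j)
    have e : z + k * (j + 1) = z + k * j + k := by ring
    rw [e, this, ih]; ring
  | pred j ih =>
    have := hc.per (z + k * (-j - 1))
    have e : z + k * (-(j : ℤ) - 1) + k = z + k * -j := by ring
    rw [e, ih] at this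
    have e2 : q * (-(j : ℤ) - 1) = q * -j - q := by ring
    rw [e2]
    omega

theorem step_inv (hc : Ctr k q c) {v v' s s' t t' : ℤ} {P P' : ℤ → Prop} (hst : s < t)
    (hs0 : 0 ≤ s) (hst' : s' < t') (hs0' : 0 ≤ s') (hs : s = 0 ∨ V c P (v + s))
    (hs' : s' = 0 ∨ V c P' (v' + s')) (hn : ∀ m, v + s < m → m < v + t → ¬ V c P m)
    (hn' : ∀ m, v' + s' < m → m < v' + t' → ¬ V c P' m) (hv : k ∣ v' - v) (hks : k ∣ s' - s)
    (hkt : k ∣ t' - t) (ih : c (v + s) - c v - q * lp q c P v (v + s) =
      c (v' + s') - c v' - q * lp q c P' v' (v' + s')) :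
    c (v + t) - c v - q * lp q c P v (v + t) =
      c (v' + t') - c v' - q * lp q c P' v' (v' + t') := by
  have hq := hc.qpos
  obtain ⟨j0, hj0⟩ := hv
  obtain ⟨j1, hj1⟩ := hks
  obtain ⟨j2, hj2⟩ := hkt
  rw [lp_split' hc (s := v + s) (by omega) (by omega) (by
      rcases hs with h | h
      · exact Or.inl (by omega)
      · exact Or.inr h),
    lp_split' hc (P := P') (s := v' + s') (by omega) (by omega) (by
      rcases hs' with h | h
      · exact Or.inl (by omega)
      · exact Or.inr h), lp_gap (P := P) (by omega) hn, lp_gap (P := P') (by omega) hn']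
  have e1 : c (v' + t') = c (v + t) + q * (j0 + j2) := by
    rw [← hc.per_mul]
    congr 1
    have : v' + t' = v + t + (k * j0 + k * j2) := by rw [← hj0, ← hj2]; ring
    rw [this]; ring
  have e2 : c (v' + t' - 1) = c (v + t - 1) + q * (j0 + j2) := by
    rw [← hc.per_mul]
    congr 1
    have : v' + t' = v + t + (k * j0 + k * j2) := by rw [← hj0, ← hj2]; ring
    rw [this]; ring
  have e3 : c (v' + s') = c (v + s) + q * (j0 + j1) := by
    rw [← hc.per_mul]
    congr 1
    have : v' + s' = v + s + (k * j0 + k * j1) := by rw [← hj0, ← hj1]; ring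
    rw [this]; ring
  have e4 : c v' = c v + q * j0 := by
    rw [← hc.per_mul]
    congr 1
    rw [← hj0]; ring
  have e5 : (c (v' + t' - 1) - c (v' + s')) / q =
      (c (v + t - 1) - c (v + s)) / q + (j2 - j1) := by
    have : c (v' + t' - 1) - c (v' + s') = c (v + t - 1) - c (v + s) + q * (j2 - j1) := by
      rw [e2, e3]; ring
    rw [this, Int.add_mul_ediv_left _ _ hq.ne']
  rw [e5, e1, e4]
  rw [e3, e4] at ih
  linarith

theorem word_inv (hc : Ctr k q c) {v v' : ℤ} (hv : k ∣ v' - v) {φ : ℤ → ℤ}
    (h1 : ∀ o, Fw n r v o → Fw n r v' (φ o)) (h2 : ∀ o, Fw n r v o → k ∣ φ o - o)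
    (h3 : ∀ a b, Fw n r v a → Fw n r v b → a < b → φ a < φ b)
    (h4 : ∀ o', Fw n r v' o' → ∃ o, Fw n r v o ∧ φ o = o') :
    ∀ o, Fw n r v o → c (v + o - 1) < c (v + o) →
      c (v + o) - c v - q * lp q c (r v) v (v + o) =
        c (v' + φ o) - c v' - q * lp q c (r v') v' (v' + φ o) := by
  have hcnt : ∀ o o' : ℤ, k ∣ o' - o → (c (v + o - 1) < c (v + o) ↔ c (v' + o' - 1) < c (v' + o')) := by
    intro o o' ⟨j, hj⟩
    obtain ⟨j0, hj0⟩ := hv
    have e1 : c (v' + o') = c (v + o) + q * (j0 + j) := by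
      rw [← hc.per_mul]
      congr 1
      have : v' + o' = v + o + (k * j0 + k * j) := by rw [← hj0, ← hj]; ring
      rw [this]; ring
    have e2 : c (v' + o' - 1) = c (v + o - 1) + q * (j0 + j) := by
      rw [← hc.per_mul]
      congr 1
      have : v' + o' = v + o + (k * j0 + k * j) := by rw [← hj0, ← hj]; ring
      rw [this]; ring
    omega
  have main : ∀ N : ℕ, ∀ o, o.toNat ≤ N → Fw n r v o → c (v + o - 1) < c (v + o) →
      c (v + o) - c v - q * lp q c (r v) v (v + o) =
        c (v' + φ o) - c v' - q * lp q c (r v') v' (v' + φ o) := by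
    intro N
    induction N with
    | zero => intro o ho h; have := h.1; omega
    | succ N ih =>
      intro o ho hFo hco
      obtain ⟨s, s1, s2, s3, s4⟩ := exists_last
        (p := fun z => z = 0 ∨ (Fw n r v z ∧ c (v + z - 1) < c (v + z))) (a := 0) (b := o - 1)
        (by have := hFo.1; omega) (Or.inl rfl)
      have hn : ∀ m, v + s < m → m < v + o → ¬ V c (r v) m := by
        intro m m1 m2 m3
        refine s4 (m - v) (by omega) (by omega) (Or.inr ⟨⟨by omega, ?_, ?_⟩, ?_⟩)
        · have := hFo.2.1; omega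
        · have e : v + (m - v) = m := by ring
          rw [e]; exact m3.1
        · have e : v + (m - v) = m := by ring
          rw [e]; exact m3.2
      rcases s3 with rfl | ⟨s3, s5⟩
      · refine step_inv hc (s' := 0) (by have := hFo.1; omega) le_rfl (h1 o hFo).1 le_rfl
          (Or.inl rfl) (Or.inl rfl) hn (fun m m1 m2 m3 => ?_) hv (by simp) (h2 o hFo)
          (by simp [lp_self])
        obtain ⟨o2, o3, o4⟩ := h4 (m - v') ⟨by omega, by have := (h1 o hFo).2.1; omega, by
          have e : v' + (m - v') = m := by ring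
          rw [e]; exact m3.1⟩
        have o5 : o2 < o := by
          by_contra hge
          rcases (not_lt.1 hge).lt_or_eq with h | h
          · have := h3 _ _ hFo o3 h
            omega
          · rw [← h] at o4; omega
        refine s4 o2 o3.1 (by omega) (Or.inr ⟨o3, ?_⟩)
        rw [hcnt o2 (φ o2) (h2 o2 o3), o4]
        have e : v' + (m - v') = m := by ring
        rw [e]; exact m3.2
      · refine step_inv hc (s' := φ s) (by omega) s1 (h3 _ _ s3 hFo (by omega)) (h1 s s3).1.le
          (Or.inr ⟨s3.2.2, s5⟩) (Or.inr ⟨(h1 s s3).2.2, (hcnt s (φ s) (h2 s s3)).1 s5⟩) hn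
          (fun m m1 m2 m3 => ?_) hv (h2 s s3) (h2 o hFo) (ih s (by have := s3.1; omega) s3 s5)
        obtain ⟨o2, o3, o4⟩ := h4 (m - v') ⟨by have := (h1 s s3).1; omega, by
          have := (h1 o hFo).2.1; omega, by
          have e : v' + (m - v') = m := by ring
          rw [e]; exact m3.1⟩
        have o5 : o2 < o := by
          by_contra hge
          rcases (not_lt.1 hge).lt_or_eq with h | h
          · have := h3 _ _ hFo o3 h
            omega
          · rw [← h] at o4; omega
        have o6 : s < o2 := by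
          by_contra hge
          rcases (not_lt.1 hge).lt_or_eq with h | h
          · have := h3 _ _ o3 s3 h
            omega
          · rw [h] at o4; omega
        refine s4 o2 o6 (by omega) (Or.inr ⟨o3, ?_⟩)
        rw [hcnt o2 (φ o2) (h2 o2 o3), o4]
        have e : v' + (m - v') = m := by ring
        rw [e]; exact m3.2
  exact fun o ho => main _ o le_rfl ho

/-- The laps depend only on the class. -/
theorem E_eq (hc : Ctr k q c) (hn : 0 < n) (hw : Cut.Wd n k r) {v v' : ℤ} (hv : k ∣ v' - v) :
    E q c n r v = E q c n r v' := by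
  obtain ⟨φ, h1, h2, h3, h4⟩ := hw v v' hv
  have hword := word_inv hc hv h1 h2 h3 h4
  have hq := hc.qpos
  have hcnt : ∀ o o' : ℤ, k ∣ o' - o → (c (v + o - 1) < c (v + o) ↔ c (v' + o' - 1) < c (v' + o')) := by
    intro o o' ⟨j, hj⟩
    obtain ⟨j0, hj0⟩ := hv
    have e1 : c (v' + o') = c (v + o) + q * (j0 + j) := by
      rw [← hc.per_mul]
      congr 1
      have : v' + o' = v + o + (k * j0 + k * j) := by rw [← hj0, ← hj]; ring
      rw [this]; ring
    have e2 : c (v' + o' - 1) = c (v + o - 1) + q * (j0 + j) := by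
      rw [← hc.per_mul]
      congr 1
      have : v' + o' = v + o + (k * j0 + k * j) := by rw [← hj0, ← hj]; ring
      rw [this]; ring
    omega
  obtain ⟨s, s1, s2, s3, s4⟩ := exists_last
    (p := fun z => z = 0 ∨ (Fw n r v z ∧ c (v + z - 1) < c (v + z))) (a := 0) (b := (n : ℤ) - 1)
    (by omega) (Or.inl rfl)
  have hn1 : ∀ m, v + s < m → m < v + n → ¬ V c (r v) m := by
    intro m m1 m2 m3
    refine s4 (m - v) (by omega) (by omega) (Or.inr ⟨⟨by omega, by omega, ?_⟩, ?_⟩)
    · have e : v + (m - v) = m := by ring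
      rw [e]; exact m3.1
    · have e : v + (m - v) = m := by ring
      rw [e]; exact m3.2
  have fin : c (v + n) - c v - q * lp q c (r v) v (v + n) =
      c (v' + n) - c v' - q * lp q c (r v') v' (v' + n) := by
    rcases s3 with rfl | ⟨s3, s5⟩
    · refine step_inv hc (s' := 0) (by omega) le_rfl (by omega) le_rfl
        (Or.inl rfl) (Or.inl rfl) hn1 (fun m m1 m2 m3 => ?_) hv (by simp) (by simp)
        (by simp [lp_self])
      obtain ⟨o2, o3, o4⟩ := h4 (m - v') ⟨by omega, by omega, by
        have e : v' + (m - v') = m := by ring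
        rw [e]; exact m3.1⟩
      refine s4 o2 o3.1 (by have := o3.2.1; omega) (Or.inr ⟨o3, ?_⟩)
      rw [hcnt o2 (φ o2) (h2 o2 o3), o4]
      have e : v' + (m - v') = m := by ring
      rw [e]; exact m3.2
    · refine step_inv hc (s' := φ s) (by omega) s1 (h1 s s3).2.1 (h1 s s3).1.le
        (Or.inr ⟨s3.2.2, s5⟩) (Or.inr ⟨(h1 s s3).2.2, (hcnt s (φ s) (h2 s s3)).1 s5⟩) hn1
        (fun m m1 m2 m3 => ?_) hv (h2 s s3) (by simp) (hword s s3 s5)
      obtain ⟨o2, o3, o4⟩ := h4 (m - v') ⟨by have := (h1 s s3).1; omega, by omega, by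
        have e : v' + (m - v') = m := by ring
        rw [e]; exact m3.1⟩
      have o6 : s < o2 := by
        by_contra hge
        rcases (not_lt.1 hge).lt_or_eq with h | h
        · have := h3 _ _ o3 s3 h
          omega
        · rw [h] at o4; omega
      refine s4 o2 o6 (by have := o3.2.1; omega) (Or.inr ⟨o3, ?_⟩)
      rw [hcnt o2 (φ o2) (h2 o2 o3), o4]
      have e : v' + (m - v') = m := by ring
      rw [e]; exact m3.2
  obtain ⟨j0, hj0⟩ := hv
  have e1 : c (v' + n) = c (v + n) + q * j0 := by
    rw [← hc.per_mul]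
    congr 1
    rw [← hj0]; ring
  have e2 : c v' = c v + q * j0 := by
    rw [← hc.per_mul]
    congr 1
    rw [← hj0]; ring
  rw [e1, e2] at fin
  unfold E
  have : q * lp q c (r v) v (v + n) = q * lp q c (r v') v' (v' + n) := by linarith
  exact mul_left_cancel₀ hq.ne' this

end Laps

end VisMap
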