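import Pool.Agent.Lib.MP_9f3af0_lc.K2f
import Pool.Agent.Lib.MP_9f3af0_lc.Clique

/-!
# MP_9f3af0_lc: a class whose consecutive vertices see each other is a clique

helper1, paper 617, step (0), in the form needed for a class `u ≡ α` modulo `k`.
-/

namespace VisMap

namespace Link

/-- Representatives. -/
theorem exists_rep' {n : ℕ} (hn : 0 < n) (v w : ℤ) :
    ∃ v', w < v' ∧ v' ≤ w + n ∧ ∀ p : ℤ → Prop, (∀ z, p (z + n) ↔ p z) → (p v' ↔ p v) := by
  have h1 := Int.emod_nonneg (v - w - 1) (show (n : ℤ) ≠ 0 by omega)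
  have h3 := Int.emod_lt_of_pos (v - w - 1) (show (0 : ℤ) < n by omega)
  have h4 := Int.mul_ediv_add_emod (v - w - 1) n
  refine ⟨w + 1 + (v - w - 1) % n, by omega, by omega, fun p hp => ?_⟩
  have e : w + 1 + (v - w - 1) % n = v + (-((v - w - 1) / n)) * n := by linarith
  rw [e, per_mul hp]

open Classical in
/-- The number of vertices of the class `α` in the closed neighbourhood of `v`, in the window
`[w, w + n)`. -/
noncomputable def cntK (n : ℕ) (k α : ℤ) (r : ℤ → ℤ → Prop) (v w : ℤ) : ℕ :=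
  ((Finset.Ico w (w + n)).filter fun z => k ∣ z - α ∧ NN n r v z).card

theorem cls_per {n : ℕ} {k α : ℤ} (hk : k ∣ n) (z : ℤ) : k ∣ z + n - α ↔ k ∣ z - α := by
  have e : z + (n : ℤ) - α = z - α + n := by ring
  rw [e, dvd_add_left hk]

theorem cntK_window {n : ℕ} (hn : 0 < n) {k α : ℤ} (hk : k ∣ n) {r : ℤ → ℤ → Prop}
    (hper : ∀ a b, r a (b + n) ↔ r a b) (v w w' : ℤ) :
    cntK n k α r v w = cntK n k α r v w' := by
  classical
  refine card_window hn _ (fun z => ?_) w w'
  rw [NN_per hper, cls_per hk]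

theorem cntK_self {n : ℕ} (hn : 0 < n) {k α : ℤ} {r : ℤ → ℤ → Prop} {v : ℤ}
    (hv : k ∣ v - α) : ∃ S : Finset ℤ, cntK n k α r v v = S.card + 1 ∧
      ∀ z, z ∈ S ↔ Fw n r v (z - v) ∧ k ∣ z - α := by
  classical
  refine ⟨(Finset.Ioo v (v + n)).filter fun z => k ∣ z - α ∧ r v z, ?_, fun z => ?_⟩
  · have h1 : (Finset.Ico v (v + n)).filter (fun z => k ∣ z - α ∧ NN n r v z) =
        insert v ((Finset.Ioo v (v + n)).filter fun z => k ∣ z - α ∧ r v z) := by
      ext z
      rw [Finset.mem_insert, Finset.mem_filter, Finset.mem_filter, Finset.mem_Ico,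
        Finset.mem_Ioo]
      constructor
      · rintro ⟨⟨h1, h2⟩, h3, h4⟩
        rcases h1.lt_or_eq with h5 | h5
        · right
          refine ⟨⟨h5, h2⟩, h3, ?_⟩
          rcases h4 with h4 | h4
          · have := dvd_small h4 (by omega) (by omega); omega
          · exact h4
        · left; exact h5.symm
      · rintro (rfl | ⟨⟨h1, h2⟩, h3, h4⟩)
        · exact ⟨⟨le_rfl, by omega⟩, hv, Or.inl (by simp)⟩
        · exact ⟨⟨h1.le, h2⟩, h3, Or.inr h4⟩
    unfold cntK
    rw [h1, Finset.card_insert_of_notMem]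
    rw [Finset.mem_filter, Finset.mem_Ioo]
    omega
  · rw [Finset.mem_filter, Finset.mem_Ioo]
    unfold Fw
    rw [add_sub_cancel]
    constructor
    · rintro ⟨⟨h1, h2⟩, h3, h4⟩
      exact ⟨⟨by omega, by omega, h4⟩, h3⟩
    · rintro ⟨⟨h1, h2, h4⟩, h3⟩
      exact ⟨⟨by omega, by omega⟩, h3, h4⟩

theorem cntK_le {n : ℕ} (hn : 0 < n) {k α : ℤ} {q q' : ℤ → ℤ → Prop} {v w : ℤ}
    (hM : Match k (Fw n q v) (Fw n q' w)) (hv : k ∣ v - α) (hw : k ∣ w - α) :
    cntK n k α q v v ≤ cntK n k α q' w w := by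
  classical
  obtain ⟨S, hS, hSm⟩ := cntK_self (r := q) hn hv
  obtain ⟨S', hS', hSm'⟩ := cntK_self (r := q') hn hw
  rw [hS, hS']
  obtain ⟨φ, h1, h2, h3, h4⟩ := hM
  have : S.card ≤ S'.card := by
    refine Finset.card_le_card_of_injOn (fun z => w + φ (z - v)) ?_ ?_
    · intro z hz
      obtain ⟨a1, a2⟩ := (hSm z).1 (Finset.mem_coe.1 hz)
      refine Finset.mem_coe.2 ((hSm' _).2 ⟨?_, ?_⟩)
      · show Fw n q' w (w + φ (z - v) - w)
        rw [add_sub_cancel_left]; exact h1 _ a1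
      · show k ∣ w + φ (z - v) - α
        have e : w + φ (z - v) - α = (φ (z - v) - (z - v)) + (w - α) + (z - α) - (v - α) := by ring
        rw [e]
        exact dvd_sub (dvd_add (dvd_add (h2 _ a1) hw) a2) hv
    · intro a ha b hb hab
      obtain ⟨a1, a2⟩ := (hSm a).1 (Finset.mem_coe.1 ha)
      obtain ⟨b1, b2⟩ := (hSm b).1 (Finset.mem_coe.1 hb)
      have hab' : w + φ (a - v) = w + φ (b - v) := hab
      rcases lt_trichotomy a b with hlt | heq | hgt
      · have := h3 _ _ a1 b1 (by omega); omega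
      · exact heq
      · have := h3 _ _ b1 a1 (by omega); omega
  omega

/-- (T1') for `R`-pockets of the vertices of a set `A` which contain a vertex of `A` and have maximal
length among these. -/
theorem t1R_pred {n : ℕ} {r E T : ℤ → ℤ → Prop} (Z : ZVE n r E T) (h3 : 3 ≤ n) {A : ℤ → Prop}
    (hA : ∀ z, A (z + n) ↔ A z) {h : ℤ}
    (hmax : ∀ v x y u, A v → Pk n r T v x y → A u → x ≤ u → u ≤ y → y - x + 1 ≤ h)
    {v0 p y0 c u0 : ℤ} (hg : Gp n r v0 p y0) (hT : T v0 c) (hcy : c < y0) (hu0 : A u0)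
    (hu1 : p < u0) (hu2 : u0 ≤ c) (hlen : h ≤ c - p) {z : ℤ} (hz1 : v0 ≤ z) (hz2 : z < p)
    {v : ℤ} (hv : A v) (hzv : NN n r z v) : NN n r p v := by
  have g1 := hg.1
  have g2 := hg.2.1
  have g3 := hg.2.2.1
  have hpc : p < c ∨ p + 1 = c := by omega
  obtain ⟨v', a1, a2, a4⟩ := exists_rep' (show 0 < n by omega) v (c - n)
  rw [← a4 _ (NN_per Z.perR p)]
  rw [← a4 _ (NN_per Z.perR z)] at hzv
  replace hv : A v' := (a4 _ hA).2 hv
  rcases lt_trichotomy v' p with hlt | rfl | hgt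
  · by_cases hr : r v' p
    · exact Or.inr (Z.symm _ _ hr)
    · exfalso
      obtain ⟨x, y, hP, hx, hy⟩ := Z.t1 hg hT (by omega) hcy hz1 hz2 (v := v') (by omega) hlt
        (by
          rcases hzv with h4 | h4
          · have := dvd_small h4 (by omega) (by omega)
            exact Or.inl (by omega)
          · exact Or.inr (Z.symm _ _ h4)) hr
      have := hmax _ _ _ u0 hv hP hu0 (by omega) (by omega)
      omega
  · exact Or.inl (by simp)
  · exfalso
    rcases hzv with h4 | h4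
    · have := dvd_small h4 (by omega) (by omega)
      omega
    · exact (Z.ve1l _ _ _ hg c (by omega) hcy hT z hz1 hz2).1 v' hgt (by omega) h4

/-- The situation: all consecutive vertices of the class see each other. -/
structure Lk (n : ℕ) (k α : ℤ) (r : Bool → ℤ → ℤ → Prop) (s : Bool) (E T : ℤ → ℤ → Prop)
    (h : ℤ) : Prop where
  fam : Fam n k r
  zve : ZVE n (r s) E T
  link : ∀ u, k ∣ u - α → r s u (u + k)
  hmax : ∀ v x y u, k ∣ v - α → Pk n (r s) T v x y → k ∣ u - α → x ≤ u → u ≤ y →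
    y - x + 1 ≤ h

theorem Lk.mirror {n : ℕ} {k α : ℤ} {r : Bool → ℤ → ℤ → Prop} {s : Bool} {E T : ℤ → ℤ → Prop}
    {h : ℤ} (L : Lk n k α r s E T h) :
    Lk n k (-α) (fun s => VisMap.mirror (r s)) s (mirrorE E) (mirrorE T) h where
  fam := L.fam.mirror
  zve := L.zve.mirror
  link u hu := by
    show r s (-u) (-(u + k))
    have h1 : k ∣ -(u + k) - α := by
      have e : -(u + k) - α = -(u - -α) - k := by ring
      rw [e]; exact dvd_sub ((dvd_neg).2 hu) (dvd_refl k)
    have := L.link _ h1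
    have e : -(u + k) + k = -u := by ring
    rw [e] at this
    exact L.zve.symm _ _ this
  hmax v x y u hv hP hu h1 h2 := by
    rw [L.zve.pk_mirror] at hP
    have := L.hmax (-v) (-y + n) (-x + n) (-u + n)
      (by have e : -v - α = -(v - -α) := by ring
          rw [e]; exact (dvd_neg).2 hv) hP
      (by have e : -u + (n : ℤ) - α = -(u - -α) + n := by ring
          rw [e]; exact dvd_add ((dvd_neg).2 hu) L.fam.dvd) (by omega) (by omega)
    omega

theorem Lk.no_R {n : ℕ} {k α : ℤ} {r : Bool → ℤ → ℤ → Prop} {s : Bool} {E T : ℤ → ℤ → Prop}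
    {h : ℤ} (L : Lk n k α r s E T h) {v p y0 c u0 : ℤ} (hv : k ∣ v - α)
    (hg : Gp n (r s) v p y0) (hT : T v c) (hcy : c < y0) (hu0 : k ∣ u0 - α) (hu1 : p < u0)
    (hu2 : u0 ≤ c) (hlen : h = c - p) : False := by
  classical
  have hn := L.fam.three
  have hk := L.fam.kpos
  have hkn := L.fam.dvd
  have g1 := hg.1
  have g2 := hg.2.1
  have g3 := hg.2.2.1
  by_cases hp : k ∣ p - α
  · -- the hider is in the class
    have hpk : p + k ≤ u0 := Clq.step hp hu0 hu1
    have hpk' : k ∣ p + k - α := Clq.dvd_shift hp k (dvd_refl k)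
    have hlink := L.link p hp
    have hnot : ¬ r s v (p + k) := fun hc =>
      (L.zve.ve1l _ _ _ hg c (by omega) hcy hT v le_rfl g1).1 (p + k) (by omega) (by omega) hc
    have hcard : cntK n k α (r s) p p ≤ cntK n k α (r s) v v :=
      cntK_le (show 0 < n by omega) (L.fam.fw s s p v (by
        have e : v - p = (v - α) - (p - α) := by ring
        rw [e]; exact dvd_sub hv hp)) hp hv
    rw [cntK_window (by omega) hkn L.zve.perR v v p] at hcard
    unfold cntK at hcard
    have hlt : ((Finset.Ico p (p + n)).filter fun z => k ∣ z - α ∧ NN n (r s) v z) ⊂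
        ((Finset.Ico p (p + n)).filter fun z => k ∣ z - α ∧ NN n (r s) p z) := by
      refine ⟨fun z hz => ?_, fun hsub => ?_⟩
      · rw [Finset.mem_filter] at hz ⊢
        refine ⟨hz.1, hz.2.1, ?_⟩
        exact t1R_pred L.zve hn (A := fun z => k ∣ z - α) (cls_per hkn) L.hmax hg hT hcy hu0 hu1
          hu2 (by omega) le_rfl g1 hz.2.1 hz.2.2
      · have h1 := hsub (Finset.mem_filter.2 ⟨Finset.mem_Ico.2 ⟨by omega, by omega⟩, hpk',
          Or.inr hlink⟩)
        have h2 := (Finset.mem_filter.1 h1).2.2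
        exact hnot (NN_of_ne h2 (by omega) (by omega) (by omega))
    have := Finset.card_lt_card hlt
    omega
  · -- the hider is not in the class
    obtain ⟨lo, a1, a2, a3⟩ := Clq.exists_pocket hk hp
    have h1 : v ≤ lo := by
      by_contra hc
      have := Clq.step a1 hv (by omega)
      omega
    have h2 : lo + k ≤ u0 := Clq.step a1 hu0 (by omega)
    exact (L.zve.ve1l _ _ _ hg c (by omega) hcy hT lo h1 a2).1 (lo + k) a3 (by omega)
      (L.link lo a1)

/-- A class whose consecutive vertices see each other is a clique. -/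
theorem clique_of_link {n : ℕ} {k α : ℤ} {r : Bool → ℤ → ℤ → Prop} {s : Bool}
    {E T : ℤ → ℤ → Prop} (F : Fam n k r) (Z : ZVE n (r s) E T)
    (hlink : ∀ u, k ∣ u - α → r s u (u + k)) (i j : ℤ) (hi : k ∣ i - α) (hj : k ∣ j - α)
    (hij : i < j) (hjn : j < i + n) : r s i j := by
  by_contra hr
  obtain ⟨x, y, hP, hx, hy⟩ := Z.pocket_of_hidden hij hjn hr
  have hb := ZVE.pk_bounds hP
  obtain ⟨h, hh1, hh2, ⟨v, x', y', u, hv, hP', hu, hxu, huy, hlen⟩, hh4⟩ :=
    exists_last (p := fun z => ∃ v x y u, k ∣ v - α ∧ Pk n (r s) T v x y ∧ k ∣ u - α ∧ x ≤ u ∧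
      u ≤ y ∧ y - x + 1 = z)
      (a := y - x + 1) (b := n) (by omega) ⟨i, x, y, j, hi, hP, hj, hx, hy, rfl⟩
  have L : Lk n k α r s E T h :=
    { fam := F
      zve := Z
      link := hlink
      hmax := by
        intro v x y u hv hP hu h1 h2
        by_contra hc
        push Not at hc
        have hb' := ZVE.pk_bounds hP
        exact hh4 (y - x + 1) hc (by omega) ⟨v, x, y, u, hv, hP, hu, h1, h2, rfl⟩ }
  obtain ⟨h5, ⟨t, hg, h3, h4⟩ | ⟨t, hg, h3, h4⟩⟩ := hP'
  · exact L.no_R hv hg h4 h3 hu (by omega) huy (by omega)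
  · have hg' : Gp n (VisMap.mirror (r s)) (-v) (-y' - 1 + n) (-t + n) := by
      rw [Z.gp_mirror]
      have e1 : -(-t + (n : ℤ)) + n = t := by ring
      have e2 : -(-y' - 1 + (n : ℤ)) + n = y' + 1 := by ring
      rwa [e1, e2, neg_neg]
    have hT' : mirrorE T (-v) (-x' + n) := by
      show T (- -v) (-(-x' + n) - 1)
      rw [neg_neg, ← Z.perT']
      have e1 : -(-x' + (n : ℤ)) - 1 + n = x' - 1 := by ring
      rwa [e1]
    refine L.mirror.no_R (u0 := -u + n) ?_ hg' hT' (by omega) ?_ (by omega) (by omega) (by omega)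
    · have e : -v - -α = -(v - α) := by ring
      rw [e]; exact (dvd_neg).2 hv
    · have e : -u + (n : ℤ) - -α = -(u - α) + n := by ring
      rw [e]; exact dvd_add ((dvd_neg).2 hu) F.dvd

end Link

end VisMap
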