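import Pool.Agent.Lib.MP_9f3af0_lc.ParFar

/-!
# Curves inside the polygon

`reg_mono`: if `K ⊆ reg T` then `reg K ⊆ reg T`.  Let `z ∉ reg T`, `C = connectedComponentIn Tᶜ z`, unbounded.
All points of `C` have the same component `C` in `Tᶜ`, so `C` is disjoint from `reg T`, hence from `K`; `C` is
preconnected, contains `z` (it is not empty), so `C ⊆ connectedComponentIn Kᶜ z`, which is therefore
unbounded: `z ∉ reg K`.
`par_out`: for a closed chain `L` with `tr L ⊆ reg T` and `z ∉ reg T`: `par L z = 0`: the set `C` is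
preconnected, unbounded and disjoint from `tr L`; `par_unbdd`.
`par_bd`: if moreover `t ∉ tr L` and `t ∈ closure (reg T)ᶜ` then `par L t = 0`: `par L` is locally constant
at `t` (`par_local`) and `0` at points of `(reg T)ᶜ` arbitrarily near.
-/

namespace VisMap

open Set

private theorem comp_out {T : Set ℂ} {z : ℂ} (hz : z ∉ reg T) :
    ¬ Bornology.IsBounded (connectedComponentIn Tᶜ z) ∧ z ∈ connectedComponentIn Tᶜ z ∧
      connectedComponentIn Tᶜ z ⊆ (reg T)ᶜ := by
  have hu : ¬ Bornology.IsBounded (connectedComponentIn Tᶜ z) := hz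
  have hz1 : z ∈ Tᶜ := by
    by_contra h
    apply hu
    rw [connectedComponentIn_eq_empty h]
    exact Bornology.isBounded_empty
  refine ⟨hu, mem_connectedComponentIn hz1, ?_⟩
  intro w hw hw2
  have h1 : connectedComponentIn Tᶜ z = connectedComponentIn Tᶜ w := connectedComponentIn_eq hw
  apply hu
  rw [h1]
  exact hw2

theorem reg_mono {K T : Set ℂ} (h : K ⊆ reg T) : reg K ⊆ reg T := by
  intro z hz
  by_contra hzT
  obtain ⟨hu, hzC, hC⟩ := comp_out hzT
  apply hu
  have h2 : connectedComponentIn Tᶜ z ⊆ connectedComponentIn Kᶜ z :=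
    isPreconnected_connectedComponentIn.subset_connectedComponentIn hzC
      (fun w hw hwK => hC hw (h hwK))
  exact Bornology.IsBounded.subset hz h2

theorem par_out {T : Set ℂ} {L : List (ℂ × ℂ)} (hL : Closed L) (h : tr L ⊆ reg T) {z : ℂ}
    (hz : z ∉ reg T) : par L z = 0 := by
  obtain ⟨hu, hzC, hC⟩ := comp_out hz
  refine par_unbdd hL isPreconnected_connectedComponentIn ?_ hu hzC
  rw [Set.disjoint_left]
  intro w hw hwL
  exact hC hw (h hwL)

theorem par_bd {T : Set ℂ} {L : List (ℂ × ℂ)} (hL : Closed L) (h : tr L ⊆ reg T) {t : ℂ}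
    (ht : t ∉ tr L) (ha : t ∈ closure (reg T)ᶜ) : par L t = 0 := by
  have h1 := par_local hL ht
  rw [mem_closure_iff_frequently] at ha
  obtain ⟨z, hz1, hz2⟩ := (ha.and_eventually h1).exists
  rw [← hz2]
  exact par_out hL h hz1

end VisMap
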