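import Pool.Agent.Lib.MP_9f3af0_lc.FStep
import Pool.Agent.Lib.MP_9f3af0_lc.HRed

/-!
# MP_9f3af0_lc: `N1` and `N2` are empty if no first or last gap is longer than the longest fat side
(helper55; Lean by helper74)

`JB n 1 J r` with `J - 2 ≤ B`: every nonempty part of a gap of `0` that starts at the left end `s` has
`s ≤ J - 2 ≤ B`.  Hence the gaps of `0` beyond `B` have no such part.
-/

namespace VisMap

namespace FMax

open Cut Laps

variable {n : ℕ} {k A B J : ℤ} {r : ℤ → ℤ → Prop}

/-- A gap of `0` beyond `B` has no part at its left end. -/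
theorem G0.empty (hs : ∀ a b, r a b → r b a) (hJ : JB n 1 J r) (hJB : J - 2 ≤ B) {s t c : ℤ}
    (hg : G0 n r B s t c) : c = s := by
  by_contra hne
  have h1 := hg.sc
  have h2 := hg.Bs
  have h3 := part_near hJ hs (v := 0) (s := s) fun x x1 x2 =>
    hg.hP x (s + 1) x1 x2 (by omega) (by omega)
  omega

theorem N1_of_JB (hs : ∀ a b, r a b → r b a) (hJ : JB n 1 J r) (hJB : J - 2 ≤ B) : N1 n k r B := by
  intro s t c hg h1 h2
  have := hg.empty hs hJ hJB
  omega

theorem N2_of_JB (hs : ∀ a b, r a b → r b a) (hJ : JB n 1 J r) (hJB : J - 2 ≤ B) :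
    N2 n k r A B := by
  intro s t c hg _ _ _ _ _
  rw [hg.empty hs hJ hJB]

end FMax

end VisMap
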