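import Pool.Agent.Lib.MP_9f3af0_lc.Sq
import Pool.Agent.Lib.MP_9f3af0_lc.CrossC
import Pool.Agent.Lib.MP_9f3af0_lc.Struct

/-!
# The two halves of the threshold property

`u = sq v i`; `s ≤ c < t < n`; `a'` is on the edge `c`, `u s ∈ [u 0, a']`, `[u 0, a'] ⊆ reg`; no vertex strictly
between `s` and `t` is visible from `i`.  No `u x`, `x < s`, sees a `u y`, `s < y ≤ c`.

Proof (`nc_left`).  Suppose `σ = [u x, u y] ⊆ reg`.  `x = 0` is excluded since `u y` is not visible from `i`.
(1) `crossC` at the base `i` with `β = u s` on the edge `s`: `u x` is on the edge `x < s`, so in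
`tr (chA u s (u s))`; `u y` is on the edge `y`, `s < y < n`, so in `tr (chB n u s (u s))`
(`[u 0, u s] ⊆ [u 0, a'] ⊆ reg`).  So `σ` meets `[u 0, u s]` in `m1`.
(2) `crossC` at the base `i + s` (`sq v (i+s) k = u (s + k)`, the same `TT = bd v`) with `β = a'` on the edge
`c - s`: `u y = sq v (i+s) (y - s)` is in `tr (chA _ (c-s) a')` (on the edge `y - s < c - s`, or `y = c` and it is
the left end point of `[u c, a']`), `u x = sq v (i+s) (n + x - s)` is in `tr (chB ...)` (it is on the edge
`n + x - s`, which is `> c - s` and `< n`).  `[u s, a'] ⊆ [u 0, a'] ⊆ reg`.  So `σ` meets `[u s, a']` in `m2`.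
Case A: `det (a' - u 0) (u y - u x) = 0`.  Then `σ` lies on the line of `[u 0, a']` (`u x ≠ u y`; if
`a' = u 0` then `u s = u 0`, impossible), and `[u 0, u s] ∪ σ` is a connected subset of this line (they share
`m1`) in `reg` that contains `u 0` and `u y`, so `[u 0, u y] ⊆ reg`: `i` sees `i + y`, contradiction.  (Concretely:
write all points as `u 0 + λ (a' - u 0)`.)
Case B: not zero.  Then `m1 = m2` (two different common points of `σ` and the line would make them
parallel), so it is in `[u 0, u s] ∩ [u s, a'] = {u s}`: `u s ∈ σ`, and `u s ≠ u x, u y` (`inj`), so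
`u s ∈ openSegment (u x) (u y)`.  `u s ≠ a'`, because `a'` is on the edge `c > s` and `u s` is not an end point of
the edge `c` (`vertex_edge`; `c + 1 ≤ t < n`), so `u s ∈ openSegment (u 0) a'`.  `crossA` at the base `i`
with `β = a'` on the edge `c` (`u x` on the edge `x < c`; `u y` on the edge `y < c` or `y = c`):
contradiction.

`nc_right` is the mirror image: `b'` on the edge `c`, `u t ∈ [u 0, b']`, `t < x ≤ n`, `c < y < t`; `x = n` is the
vertex `i` itself.  (1) base `i`, `β = u t` on the edge `t`; (2) base `i + t`, `β = b'` on the edge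
`c + n - t` (`u y = sq v (i+t) (y + n - t)` in `chB`, `u x = sq v (i+t) (x - t)` in `chA`); Case B uses `crossB` at the
base `i` with `β = b'` on the edge `c` (`u y` is on the edge `y > c`; for `y = c + 1` also on `[b', u (c+1)]`;
`u x` on the edge `x > c`).
-/

namespace VisMap

open Set

private theorem det_par {d e : ℂ} (hd : d ≠ 0) (h : det d e = 0) : ∃ r : ℝ, e = r • d := by
  unfold det at h
  by_cases h1 : d.re = 0
  · have h2 : d.im ≠ 0 := fun h2 => hd (Complex.ext h1 h2)
    refine ⟨e.im / d.im, Complex.ext ?_ ?_⟩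
    · rw [Complex.real_smul, Complex.re_ofReal_mul, h1, mul_zero]
      rw [h1, zero_mul, zero_sub, neg_eq_zero, mul_eq_zero] at h
      exact h.resolve_left h2
    · rw [Complex.real_smul, Complex.im_ofReal_mul, div_mul_cancel₀ _ h2]
  · refine ⟨e.re / d.re, Complex.ext ?_ ?_⟩
    · rw [Complex.real_smul, Complex.re_ofReal_mul, div_mul_cancel₀ _ h1]
    · rw [Complex.real_smul, Complex.im_ofReal_mul]
      field_simp
      linarith

private theorem nc_core {R : Set ℂ} {P A w p q : ℂ} (hw : w ∈ segment ℝ P A) (hPA : A ≠ P)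
    (h1 : (segment ℝ p q ∩ segment ℝ P w).Nonempty)
    (h2 : (segment ℝ p q ∩ segment ℝ w A).Nonempty) (hR : segment ℝ p q ⊆ R)
    (hPw : segment ℝ P w ⊆ R) :
    segment ℝ P q ⊆ R ∨ (det (A - P) (q - p) ≠ 0 ∧ w ∈ segment ℝ p q) := by
  obtain ⟨g, hg⟩ : ∃ g : ℝ →ᵃ[ℝ] ℂ, g = AffineMap.lineMap P A := ⟨_, rfl⟩
  have hg0 : g 0 = P := by rw [hg, AffineMap.lineMap_apply_zero]
  have hg1 : g 1 = A := by rw [hg, AffineMap.lineMap_apply_one]
  have hgt : ∀ t, g t = P + t • (A - P) := by
    intro t
    rw [hg, AffineMap.lineMap_apply, vsub_eq_sub, vadd_eq_add, add_comm]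
  obtain ⟨κ, hκ, rfl⟩ : ∃ κ ∈ Icc (0 : ℝ) 1, g κ = w := by
    rw [← hg0, ← hg1, ← image_segment, segment_eq_Icc zero_le_one] at hw
    exact hw
  obtain ⟨m1, hm1, hm1'⟩ := h1
  obtain ⟨m2, hm2, hm2'⟩ := h2
  have hm1s : segment ℝ P m1 ⊆ segment ℝ P (g κ) :=
    (convex_segment _ _).segment_subset (left_mem_segment ℝ _ _) hm1'
  obtain ⟨l1, hl1, rfl⟩ : ∃ l ∈ Icc (0 : ℝ) κ, g l = m1 := by
    rw [← hg0, ← image_segment, segment_eq_Icc hκ.1] at hm1'
    exact hm1'
  obtain ⟨l2, hl2, rfl⟩ : ∃ l ∈ Icc κ (1 : ℝ), g l = m2 := by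
    rw [← hg1, ← image_segment, segment_eq_Icc hκ.2] at hm2'
    exact hm2'
  by_cases hd : det (A - P) (q - p) = 0
  · left
    obtain ⟨r, hr⟩ := det_par (sub_ne_zero.2 hPA) hd
    obtain ⟨θ, hθ, hθm⟩ : ∃ θ ∈ Icc (0 : ℝ) 1, p + θ • (q - p) = g l1 := by
      rw [segment_eq_image'] at hm1
      exact hm1
    have hq : q = g (l1 + (1 - θ) * r) := by
      rw [hgt, add_smul, ← add_assoc, ← hgt, ← hθm, mul_smul, ← hr, add_assoc, ← add_smul]
      rw [add_sub_cancel, one_smul, add_sub_cancel]
    rw [hq] at hR ⊢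
    have h3 : segment ℝ (g l1) (g (l1 + (1 - θ) * r)) ⊆ R := by
      refine Subset.trans ?_ hR
      refine (convex_segment _ _).segment_subset ?_ (right_mem_segment ℝ _ _)
      rw [← hq]
      exact hm1
    have h4 : segment ℝ P (g l1) ⊆ R := hm1s.trans hPw
    rw [← hg0] at h4 ⊢
    rw [← image_segment, segment_eq_uIcc] at h3 h4 ⊢
    rintro _ ⟨x, hx, rfl⟩
    rcases uIcc_subset_uIcc_union_uIcc (b := l1) hx with h | h
    · exact h4 ⟨x, h, rfl⟩
    · exact h3 ⟨x, h, rfl⟩
  · right
    refine ⟨hd, ?_⟩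
    have h5 : l1 = l2 := by
      rw [segment_eq_image'] at hm1 hm2
      obtain ⟨θ1, -, h1⟩ := hm1
      obtain ⟨θ2, -, h2⟩ := hm2
      have h1r := congrArg Complex.re h1
      have h1i := congrArg Complex.im h1
      have h2r := congrArg Complex.re h2
      have h2i := congrArg Complex.im h2
      rw [hgt] at h1r h1i h2r h2i
      simp only [Complex.add_re, Complex.add_im, Complex.real_smul, Complex.re_ofReal_mul,
        Complex.im_ofReal_mul] at h1r h1i h2r h2i
      have h6 : (l1 - l2) * det (A - P) (q - p) = 0 := by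
        unfold det
        have e1 : (l1 - l2) * (A - P).re = (θ1 - θ2) * (q - p).re := by linarith
        have e2 : (l1 - l2) * (A - P).im = (θ1 - θ2) * (q - p).im := by linarith
        linear_combination (q - p).im * e1 - (q - p).re * e2
      rcases mul_eq_zero.1 h6 with h7 | h7
      · linarith
      · exact absurd h7 hd
    have h8 : l1 = κ := le_antisymm hl1.2 (by rw [h5]; exact hl2.1)
    rw [← h8]
    exact hm1

private theorem mem_open {p q w : ℂ} (h : w ∈ segment ℝ p q) (h1 : p ≠ w) (h2 : q ≠ w) :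
    w ∈ openSegment ℝ p q := mem_openSegment_of_ne_left_right h1 h2 h

theorem nc_left {n : ℕ} {v : ZMod n → ℂ} (hv : IsSimple v) {i : ZMod n} {s t c : ℕ} (hs : 0 < s)
    (hsc : s ≤ c) (hct : c < t) (ht : t < n) {a' : ℂ}
    (ha : a' ∈ segment ℝ (sq v i c) (sq v i (c + 1))) (hsa : sq v i s ∈ segment ℝ (sq v i 0) a')
    (hD : segment ℝ (sq v i 0) a' ⊆ reg (bd v))
    (hg : ∀ m, s < m → m < t → ¬ segment ℝ (sq v i 0) (sq v i m) ⊆ reg (bd v))
    {x y : ℕ} (hx : x < s) (hy : s < y) (hyc : y ≤ c) :
    ¬ segment ℝ (sq v i x) (sq v i y) ⊆ reg (bd v) := by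
  intro hσ
  have h := sp_sq hv i
  have hn : 0 < n := by omega
  have hT : TT n (sq v i) = bd v := TT_sq hn i
  have hinj : ∀ j k, j < n → k < n → j ≠ k → sq v i j ≠ sq v i k := fun j k hj hk hne he =>
    hne (h.inj j k hj hk he)
  have hPw : segment ℝ (sq v i 0) (sq v i s) ⊆ reg (bd v) :=
    ((convex_segment _ _).segment_subset (left_mem_segment ℝ _ _) hsa).trans hD
  have hwA : segment ℝ (sq v i s) a' ⊆ reg (bd v) :=
    ((convex_segment _ _).segment_subset hsa (right_mem_segment ℝ _ _)).trans hD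
  have h1 : (segment ℝ (sq v i x) (sq v i y) ∩ segment ℝ (sq v i 0) (sq v i s)).Nonempty := by
    refine crossC h (by omega : s < n) (left_mem_segment ℝ _ _) (by rw [hT]; exact hPw)
      (convex_segment _ _).isPreconnected (by rw [hT]; exact hσ) (left_mem_segment ℝ _ _) ?_
      (right_mem_segment ℝ _ _) ?_
    · exact tr_chA.2 (Or.inl ⟨x, hx, left_mem_segment ℝ _ _⟩)
    · exact tr_chB.2 (Or.inr ⟨y, hy, by omega, left_mem_segment ℝ _ _⟩)
  have h2 : (segment ℝ (sq v i x) (sq v i y) ∩ segment ℝ (sq v i s) a').Nonempty := by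
    have h' := sp_sq hv (i + s)
    have hT' : TT n (sq v (i + s)) = bd v := TT_sq hn _
    have e0 : sq v (i + s) 0 = sq v i s := by rw [sq_add, add_zero]
    have ec : sq v (i + s) (c - s) = sq v i c := by
      rw [sq_add]
      congr 1
      omega
    have ec1 : sq v (i + s) (c - s + 1) = sq v i (c + 1) := by
      rw [sq_add]
      congr 1
      omega
    have ey : sq v (i + s) (y - s) = sq v i y := by
      rw [sq_add]
      congr 1
      omega
    have ex : sq v (i + s) (n + x - s) = sq v i x := by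
      rw [sq_add, ← sq_per v i x]
      congr 1
      omega
    rw [segment_symm]
    have := crossC h' (by omega : c - s < n) (β := a') (by rw [ec, ec1]; exact ha)
      (by rw [hT', e0]; exact hwA) (σ := segment ℝ (sq v i y) (sq v i x))
      (convex_segment _ _).isPreconnected (by rw [hT', segment_symm]; exact hσ)
      (left_mem_segment ℝ _ _) ?_ (right_mem_segment ℝ _ _) ?_
    · rw [e0] at this
      exact this
    · refine tr_chA.2 ?_
      rcases Nat.lt_or_ge y c with hlt | hge
      · left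
        refine ⟨y - s, by omega, ?_⟩
        rw [ey]
        exact left_mem_segment ℝ _ _
      · right
        have : y = c := le_antisymm hyc hge
        rw [ec, this]
        exact left_mem_segment ℝ _ _
    · refine tr_chB.2 (Or.inr ⟨n + x - s, by omega, by omega, ?_⟩)
      rw [ex]
      exact left_mem_segment ℝ _ _
  have hPA : a' ≠ sq v i 0 := by
    intro he
    rw [he, segment_same] at hsa
    exact hinj s 0 (by omega) hn (by omega) hsa
  rcases nc_core hsa hPA h1 h2 hσ hPw with h3 | ⟨h3, h4⟩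
  · exact hg y hy (by omega) h3
  · have hsa' : a' ≠ sq v i s := by
      intro he
      rw [he] at ha
      rcases vertex_edge h (by omega : s < n) (by omega : c < n) ha with h5 | h5
      · exact hinj s c (by omega) (by omega) (by omega) h5
      · exact hinj s (c + 1) (by omega) (by omega) (by omega) h5
    refine crossA h (by omega : c < n) ha (by rw [hT]; exact hD) (by rw [hT]; exact hσ) ?_ ?_
      (mem_open h4 (hinj x s (by omega) (by omega) (by omega))
        (hinj y s (by omega) (by omega) (by omega)))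
      (mem_open hsa (hinj 0 s hn (by omega) (by omega)) hsa') h3
    · exact tr_chA.2 (Or.inl ⟨x, by omega, left_mem_segment ℝ _ _⟩)
    · rcases Nat.lt_or_ge y c with hlt | hge
      · exact tr_chA.2 (Or.inl ⟨y, hlt, left_mem_segment ℝ _ _⟩)
      · have : y = c := le_antisymm hyc hge
        rw [this]
        exact tr_chA.2 (Or.inr (left_mem_segment ℝ _ _))

theorem nc_right {n : ℕ} {v : ZMod n → ℂ} (hv : IsSimple v) {i : ZMod n} {s t c : ℕ} (hs : 0 < s)
    (hsc : s ≤ c) (hct : c < t) (ht : t < n) {b' : ℂ}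
    (hb : b' ∈ segment ℝ (sq v i c) (sq v i (c + 1))) (htb : sq v i t ∈ segment ℝ (sq v i 0) b')
    (hD : segment ℝ (sq v i 0) b' ⊆ reg (bd v))
    (hg : ∀ m, s < m → m < t → ¬ segment ℝ (sq v i 0) (sq v i m) ⊆ reg (bd v))
    {x y : ℕ} (hx : t < x) (hxn : x ≤ n) (hy : c < y) (hyt : y < t) :
    ¬ segment ℝ (sq v i x) (sq v i y) ⊆ reg (bd v) := by
  intro hσ
  have h := sp_sq hv i
  have hn : 0 < n := by omega
  have hT : TT n (sq v i) = bd v := TT_sq hn i
  have hinj : ∀ j k, j < n → k < n → j ≠ k → sq v i j ≠ sq v i k := fun j k hj hk hne he =>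
    hne (h.inj j k hj hk he)
  rcases hxn.lt_or_eq with hxn | hxn
  swap
  · rw [hxn, h.per] at hσ
    exact hg y (by omega) hyt hσ
  have hPw : segment ℝ (sq v i 0) (sq v i t) ⊆ reg (bd v) :=
    ((convex_segment _ _).segment_subset (left_mem_segment ℝ _ _) htb).trans hD
  have hwA : segment ℝ (sq v i t) b' ⊆ reg (bd v) :=
    ((convex_segment _ _).segment_subset htb (right_mem_segment ℝ _ _)).trans hD
  have h1 : (segment ℝ (sq v i x) (sq v i y) ∩ segment ℝ (sq v i 0) (sq v i t)).Nonempty := by
    refine crossC h ht (left_mem_segment ℝ _ _) (by rw [hT]; exact hPw)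
      (convex_segment _ _).isPreconnected (by rw [hT]; exact hσ) (right_mem_segment ℝ _ _) ?_
      (left_mem_segment ℝ _ _) ?_
    · exact tr_chA.2 (Or.inl ⟨y, hyt, left_mem_segment ℝ _ _⟩)
    · exact tr_chB.2 (Or.inr ⟨x, hx, hxn, left_mem_segment ℝ _ _⟩)
  have h2 : (segment ℝ (sq v i x) (sq v i y) ∩ segment ℝ (sq v i t) b').Nonempty := by
    have h' := sp_sq hv (i + t)
    have hT' : TT n (sq v (i + t)) = bd v := TT_sq hn _
    have e0 : sq v (i + t) 0 = sq v i t := by rw [sq_add, add_zero]
    have ec : sq v (i + t) (c + n - t) = sq v i c := by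
      rw [sq_add, ← sq_per v i c]
      congr 1
      omega
    have ec1 : sq v (i + t) (c + n - t + 1) = sq v i (c + 1) := by
      rw [sq_add, ← sq_per v i (c + 1)]
      congr 1
      omega
    have ex : sq v (i + t) (x - t) = sq v i x := by
      rw [sq_add]
      congr 1
      omega
    have ey : sq v (i + t) (y + n - t) = sq v i y := by
      rw [sq_add, ← sq_per v i y]
      congr 1
      omega
    have := crossC h' (by omega : c + n - t < n) (β := b') (by rw [ec, ec1]; exact hb)
      (by rw [hT', e0]; exact hwA) (σ := segment ℝ (sq v i x) (sq v i y))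
      (convex_segment _ _).isPreconnected (by rw [hT']; exact hσ)
      (left_mem_segment ℝ _ _) ?_ (right_mem_segment ℝ _ _) ?_
    · rw [e0] at this
      exact this
    · refine tr_chA.2 (Or.inl ⟨x - t, by omega, ?_⟩)
      rw [ex]
      exact left_mem_segment ℝ _ _
    · refine tr_chB.2 (Or.inr ⟨y + n - t, by omega, by omega, ?_⟩)
      rw [ey]
      exact left_mem_segment ℝ _ _
  have hPA : b' ≠ sq v i 0 := by
    intro he
    rw [he, segment_same] at htb
    exact hinj t 0 (by omega) hn (by omega) htb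
  rcases nc_core htb hPA h1 h2 hσ hPw with h3 | ⟨h3, h4⟩
  · exact hg y (by omega) hyt h3
  · have hsa' : b' ≠ sq v i t := by
      intro he
      rw [he] at hb
      rcases vertex_edge h ht (by omega : c < n) hb with h5 | h5
      · exact hinj t c (by omega) (by omega) (by omega) h5
      · exact hinj t (c + 1) (by omega) (by omega) (by omega) h5
    refine crossB h (by omega : c < n) hb (by rw [hT]; exact hD) (by rw [hT]; exact hσ) ?_ ?_
      (mem_open h4 (hinj x t (by omega) (by omega) (by omega))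
        (hinj y t (by omega) (by omega) (by omega)))
      (mem_open htb (hinj 0 t hn (by omega) (by omega)) hsa') h3
    · exact tr_chB.2 (Or.inr ⟨x, by omega, by omega, left_mem_segment ℝ _ _⟩)
    · exact tr_chB.2 (Or.inr ⟨y, by omega, by omega, left_mem_segment ℝ _ _⟩)

end VisMap
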