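import Pool.Agent.Lib.MP_9f3af0_lc.FewRed

/-!
# MP_9f3af0_lc: structures in which every vertex hides at most one vertex of its class (helper57)

`One n k r`: every vertex hides at most one vertex of its class.  Then there is no fat rectangle: let it
have the corner `0`; then `-k` and `k` hide each other, hence `0` sees both, and `0` hides a vertex `m`
of its class, which sees `k` and `-k`.  By `nc` at `0` the vertex `m` is hidden from all of `[0, k)` or
from all of `(-k, 0]`; in the first case `cn` at `m` gives a vertex of `[-k, 0)` that sees `k`.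
-/

namespace VisMap

namespace Few

open Cut Laps FMax

variable {n n' : ℕ} {k k' : ℤ} {r : ℤ → ℤ → Prop} {φ : ℤ → ℤ}

/-- Every vertex hides at most one vertex of its class. -/
def One (n : ℕ) (k : ℤ) (r : ℤ → ℤ → Prop) : Prop :=
  ∀ v a b : ℤ, v < a → a < v + n → v < b → b < v + n → k ∣ a - v → k ∣ b - v → ¬ r v a → ¬ r v b → a = b

theorem One.of_phi (h : One n k r) (hm : StrictMono φ) (hp : ∀ a, φ (a + n') = φ a + n)
    (hr : ∀ a b, k' ∣ b - a ↔ k ∣ φ b - φ a) : One n' k' (fun a b => r (φ a) (φ b)) := by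
  intro v a b a1 a2 b1 b2 ha hb va vb
  refine hm.injective (h (φ v) (φ a) (φ b) (hm a1) ?_ (hm b1) ?_ ((hr _ _).1 ha) ((hr _ _).1 hb) va vb)
  · rw [← hp]; exact hm a2
  · rw [← hp]; exact hm b2

theorem One.false (h : ZRel n r) (hk : 0 < k) (hd : k ∣ (n : ℤ)) (h4 : 4 * k ≤ n) (hO : One n k r)
    (hf : ∀ x y, -k ≤ x → x < 0 → 0 < y → y ≤ k → ¬ r x y) {m : ℤ} (m1 : 0 < m) (m2 : m < n)
    (m3 : k ∣ m) (m4 : ¬ r 0 m) : False := by
  have hz := ZR.of_zRel h
  have f0 : ¬ r (-k) k := hf _ _ le_rfl (by omega) hk le_rfl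
  have p0 : ∀ x y, r x (y + n) ↔ r x y := hz.perR
  -- what `-k` and `k` see
  have e1 : r (-k) 0 := by
    by_contra hc
    have := hO (-k) k 0 (by omega) (by omega) (by omega) (by omega)
      (by have e : k - -k = k * 2 := by ring
          rw [e]; exact dvd_mul_right _ _) (by simp) f0 hc
    omega
  have e2 : r k 0 := by
    by_contra hc
    have := hO k (-k + n) (0 + n) (by omega) (by omega) (by omega) (by omega)
      (by have e : -k + (n : ℤ) - k = n - k * 2 := by ring
          rw [e]; exact dvd_sub hd (dvd_mul_right _ _))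
      (by have e : 0 + (n : ℤ) - k = n - k := by ring
          rw [e]; exact dvd_sub hd (dvd_refl _))
      (fun h1 => f0 (h.symm _ _ ((p0 _ _).1 h1))) (fun h1 => hc ((p0 _ _).1 h1))
    omega
  have v1 : r 0 k := h.symm _ _ e2
  have v2 : r 0 (n - k) := by
    have := (p0 0 (-k)).2 (h.symm _ _ e1)
    have e : -k + (n : ℤ) = n - k := by ring
    rwa [e] at this
  -- the position of `m`
  have q1 : k < m := by
    rcases (Int.le_of_dvd m1 m3).lt_or_eq with h1 | h1
    · exact h1
    · rw [← h1] at m4; exact (m4 v1).elim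
  have q2 : m < n - k := by
    rcases (Int.le_of_dvd (by omega) (dvd_sub hd m3)).lt_or_eq with h1 | h1
    · omega
    · have : m = n - k := by omega
      rw [this] at m4; exact (m4 v2).elim
  -- what `m` sees
  have own : ∀ z, m < z → z < m + n → z ≠ n → k ∣ z → r m z := by
    intro z z1 z2 z3 z4
    by_contra hc
    refine z3 (hO m z n z1 z2 (by omega) (by omega) (dvd_sub z4 m3) (dvd_sub hd m3) hc fun h1 => m4 ?_)
    have := (p0 m 0).1 (by rwa [zero_add])
    exact h.symm _ _ this
  have o1 : r m (n - k) := own _ (by omega) (by omega) (by omega) (dvd_sub hd (dvd_refl _))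
  have o2 : r m (n + k) := own _ (by omega) (by omega) (by omega) (dvd_add hd (dvd_refl _))
  -- the gap of `0` around `m`
  obtain ⟨P, a1, a2, a3, a4⟩ := exists_last (p := fun z => r 0 z) (a := k) (b := m) (by omega) v1
  obtain ⟨Q, b1, b2, b3, b4⟩ := exists_first (p := fun z => r 0 z) (a := m) (b := n - k) (by omega) v2
  have a5 : P ≠ m := fun h1 => m4 (h1 ▸ a3)
  have b5 : Q ≠ m := fun h1 => m4 (h1 ▸ b3)
  obtain ⟨c, c1, c2, c3, c4⟩ := h.nc 0 P Q (by omega) (by omega) (by omega) a3 b3 fun z z1 z2 z3 => by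
    rcases le_or_gt z m with h1 | h1
    · exact a4 z z1 h1 z3
    · exact b4 z h1.le z2 z3
  rcases le_or_gt m c with h1 | h1
  · -- `m` is hidden from `[0, k)`
    have hid : ∀ x, 0 ≤ x → x < k → ¬ r m (x + n) := fun x x1 x2 h2 =>
      c3 x m (by omega) (by omega) (by omega) h1 (h.symm _ _ ((p0 _ _).1 h2))
    obtain ⟨T, t1, t2, t3, t4⟩ := exists_last (p := fun z => r m z) (a := n - k) (b := n + k - 1)
      (by omega) o1
    have t5 : T < n := by
      by_contra hc
      refine hid (T - n) (by omega) (by omega) ?_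
      rwa [sub_add_cancel]
    have t6 := h.cn m T (n + k) (by omega) (by omega) (by omega) t3 o2 fun z z1 z2 =>
      t4 z z1 (by omega)
    refine hf (T - n) k (by omega) (by omega) hk le_rfl ?_
    refine (h.per _ _).1 ((p0 _ _).1 ?_)
    have e : k + (n : ℤ) = n + k := by ring
    rw [sub_add_cancel, e]; exact t6
  · -- `m` is hidden from `(-k, 0]`
    have hid : ∀ x, n - k < x → x ≤ n → ¬ r m x := fun x x1 x2 h2 =>
      c4 x m (by omega) (by omega) h1 (by omega) (h.symm _ _ h2)
    obtain ⟨T, t1, t2, t3, t4⟩ := exists_first (p := fun z => r m z) (a := n - k + 1) (b := n + k)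
      (by omega) o2
    have t5 : n < T := by
      by_contra hc
      exact hid T (by omega) (by omega) t3
    have t6 := h.cn m (n - k) T (by omega) (by omega) (by omega) o1 t3 fun z z1 z2 =>
      t4 z (by omega) z2
    refine hf (-k) (T - n) le_rfl (by omega) (by omega) (by omega) ?_
    refine (h.per _ _).1 ((p0 _ _).1 ?_)
    have e : -k + (n : ℤ) = n - k := by ring
    rw [sub_add_cancel, e]; exact t6

/-- No fat rectangle if every vertex hides at most one vertex of its class. -/
theorem noFat_one (h : ZRel n r) (hk : 2 ≤ k) (hd : k ∣ (n : ℤ)) (h4 : 4 * k ≤ n) (hw : Wd n k r)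
    (hnl : NL k r) (hO : One n k r) (s : ℤ) : ¬ Fat k r s := by
  intro hf
  -- a hidden vertex of the class of `s`
  have h1 := one_le h hk (by omega) hw hnl s
  obtain ⟨P, Q, g1, g2, g3, g4, g5, g6⟩ := exists_gap (k := k) h (by omega) (v := s) (by omega)
  have hk0 : 0 < k := by omega
  have hm1 := Int.emod_nonneg (P - s) hk0.ne'
  have hm2 := Int.emod_lt_of_pos (P - s) hk0
  have hm3 := Int.emod_add_mul_ediv (P - s) k
  set m := P - s - (P - s) % k + k with hm
  refine One.false (n := n) (k := k) (r := sh r s) (m := m) (zrel_sh h s) hk0 hd h4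
    (fun v a b a1 a2 b1 b2 ha hb va vb => ?_) (fun x y x1 x2 y1 y2 hxy => ?_) (by omega) (by omega)
    ?_ ?_
  · have := hO (v + s) (a + s) (b + s) (by omega) (by omega) (by omega) (by omega)
      (by have e : a + s - (v + s) = a - v := by ring
          rw [e]; exact ha)
      (by have e : b + s - (v + s) = b - v := by ring
          rw [e]; exact hb) va vb
    omega
  · exact hf (x + s) (y + s) (by omega) (by omega) (by omega) (by omega) hxy
  · have e : m = k * ((P - s) / k) + k := by rw [hm]; linarith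
    rw [e]; exact dvd_add (dvd_mul_right _ _) (dvd_refl _)
  · show ¬ r (0 + s) (m + s)
    rw [zero_add]
    exact g6 _ (by omega) (by omega)

/-- Every vertex hides at most one vertex of its own class, or every vertex hides at most three
vertices: then some class is linked. -/
theorem linked_of_one (n : ℕ) (k : ℤ) (r : ℤ → ℤ → Prop) (h : ZRel n r) (hk : 0 < k)
    (hkn : k ∣ (n : ℤ)) (hlt : k < n) (hw : Wd n k r) (hs : One n k r ∨ Hid n 3 r) : Lkd k r :=
  linked_of_pred (fun n k r => One n k r ∨ Hid n 3 r)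
    (fun _ _ _ _ _ _ hG a1 a2 a3 => hG.imp (fun h => h.of_phi a1 a2 a3) fun h => h.of_phi a1 a2)
    (fun n k r h hk hd h4 hw hnl hG => false_of_noFat h hk hd h4 hw hnl fun s =>
      hG.elim (fun hO => noFat_one h hk hd h4 hw hnl hO s)
        fun hH => noFat h hk hd h4 hw hnl (hH.mono (by omega)) s)
    n k r h hk hkn hlt hw hs

end Few

end VisMap
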