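import Pool.Agent.Lib.MP_9f3af0_lc.CrLoc

/-!
# The crossing parity of a closed chain is locally constant off the chain

`par_local`: by induction on the list `L`: if `z0 ∉ tr L` there is `c` such that near `z0`
`par L z = c + (L.map fun e => gg z0 e.1 z + gg z0 e.2 z).sum` (`cr_local` for each segment).  For a closed
chain the last sum is `0` (apply `Closed` to the function `fun a => gg z0 a z`).  So near `z0`
`par L z = c`, in particular `par L z0 = c`.

`par_const`: the function `par L` is locally constant on the preconnected set `K` (each point of `K` is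
off `tr L`), so it is constant on `K`: e.g. `IsPreconnected.constant_of_...` or
`IsPreconnected.eqOn_const_of_...` or `IsPreconnected.subset_of_...` applied to the (open) sets
`{z ∉ tr L | par L z = par L x}` and `{z ∉ tr L | par L z ≠ par L x}`; `tr L` is closed
(`isClosed_tr`).
-/

namespace VisMap

open Filter Topology Set

theorem par_local_aux {L : List (ℂ × ℂ)} {z0 : ℂ} (h : z0 ∉ tr L) :
    ∃ c : ZMod 2, ∀ᶠ z in 𝓝 z0,
      par L z = c + (L.map fun e => gg z0 e.1 z + gg z0 e.2 z).sum := by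
  induction L with
  | nil => exact ⟨0, Eventually.of_forall fun z => by simp [par]⟩
  | cons e L ih =>
    rw [tr_cons, mem_union, not_or] at h
    obtain ⟨c1, h1⟩ := cr_local h.1
    obtain ⟨c2, h2⟩ := ih h.2
    refine ⟨c1 + c2, ?_⟩
    filter_upwards [h1, h2] with z hz1 hz2
    rw [par_cons, hz1, hz2, List.map_cons, List.sum_cons]
    ring

theorem par_local {L : List (ℂ × ℂ)} (hL : Closed L) {z0 : ℂ} (h : z0 ∉ tr L) :
    ∀ᶠ z in 𝓝 z0, par L z = par L z0 := by
  obtain ⟨c, hc⟩ := par_local_aux h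
  have h0 : par L z0 = c := by
    rw [hc.self_of_nhds, hL fun a => gg z0 a z0, add_zero]
  filter_upwards [hc] with z hz
  rw [hz, hL fun a => gg z0 a z, add_zero, h0]

theorem isOpen_par {L : List (ℂ × ℂ)} (hL : Closed L) (c : ZMod 2) :
    IsOpen {z | z ∉ tr L ∧ par L z = c} := by
  rw [isOpen_iff_mem_nhds]
  rintro z0 ⟨h1, h2⟩
  have h3 : ∀ᶠ z in 𝓝 z0, z ∉ tr L := (isClosed_tr L).isOpen_compl.mem_nhds h1
  have h4 : ∀ᶠ z in 𝓝 z0, z ∉ tr L ∧ par L z = c := by
    filter_upwards [h3, par_local hL h1] with z hz1 hz2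
    exact ⟨hz1, hz2.trans h2⟩
  exact h4

theorem par_const {L : List (ℂ × ℂ)} (hL : Closed L) {K : Set ℂ} (hK : IsPreconnected K)
    (hd : Disjoint K (tr L)) {x y : ℂ} (hx : x ∈ K) (hy : y ∈ K) : par L x = par L y := by
  have hoff : ∀ z ∈ K, z ∉ tr L := fun z hz hz' => Set.disjoint_left.1 hd hz hz'
  by_contra hne
  have h1 : IsOpen {z | z ∉ tr L ∧ par L z = par L x} := isOpen_par hL _
  have h2 : IsOpen {z | z ∉ tr L ∧ par L z ≠ par L x} := by
    have h3 : {z | z ∉ tr L ∧ par L z ≠ par L x} =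
        ⋃ c ∈ {c : ZMod 2 | c ≠ par L x}, {z | z ∉ tr L ∧ par L z = c} := by
      ext z
      simp only [mem_ofPred_eq, mem_iUnion, exists_prop]
      constructor
      · rintro ⟨h4, h5⟩
        exact ⟨par L z, h5, h4, rfl⟩
      · rintro ⟨c, h4, h5, h6⟩
        exact ⟨h5, by rw [h6]; exact h4⟩
    rw [h3]
    exact isOpen_biUnion fun c _ => isOpen_par hL c
  have hcov : K ⊆ {z | z ∉ tr L ∧ par L z = par L x} ∪ {z | z ∉ tr L ∧ par L z ≠ par L x} := by
    intro z hz
    by_cases h4 : par L z = par L x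
    · exact Or.inl ⟨hoff z hz, h4⟩
    · exact Or.inr ⟨hoff z hz, h4⟩
  obtain ⟨z, -, hz1, hz2⟩ := hK _ _ h1 h2 hcov ⟨x, hx, hoff x hx, rfl⟩
    ⟨y, hy, hoff y hy, fun h4 => hne h4.symm⟩
  exact hz2.2 hz1.2

end VisMap
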