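import Pool.Agent.Lib.MP_9f3af0_lc.Fat

/-!
# MP_9f3af0_lc: pockets and domination (helper47, after helpers 44, 91, 93, 58)

`LP n r v p c`: the viewer `v` sees `p > v` and the rectangle `[v, p) × (p, c]` is hidden (a pocket
to the left end of a gap of `v`); `RP n r v p c` is the mirror image: `v` sees `p < v` and
`[c, p) × (p, v]` is hidden.  `pocket_around`: if the viewer `i` of the pocket `(p, c]` sees `v` and
`p` does not, then `v` has a pocket which contains `[p, c]`.  `dom`: if no pocket of a viewer in `V` is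
longer than the pocket `(p, c]` of `i`, then `p` sees all vertices of `V` that `i` sees.
-/

namespace VisMap

namespace Cut

open Dism

/-- `v` sees `p > v`, and the rectangle `[v, p) × (p, c]` is hidden. -/
structure LP (n : ℕ) (r : ℤ → ℤ → Prop) (v p c : ℤ) : Prop where
  vp : v < p
  pc : p < c
  cn : c < v + n
  vis : r v p
  hid : ∀ x y, v ≤ x → x < p → p < y → y ≤ c → ¬ r x y

/-- `v` sees `p < v`, and the rectangle `[c, p) × (p, v]` is hidden. -/
structure RP (n : ℕ) (r : ℤ → ℤ → Prop) (v p c : ℤ) : Prop where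
  pv : p < v
  cp : c < p
  cn : v - n < c
  vis : r v p
  hid : ∀ x y, p < x → x ≤ v → c ≤ y → y < p → ¬ r x y

/-- The closed neighbourhood. -/
def Nb (n : ℕ) (r : ℤ → ℤ → Prop) (v z : ℤ) : Prop := (n : ℤ) ∣ z - v ∨ r v z

variable {n : ℕ} {k : ℤ} {r : ℤ → ℤ → Prop}

theorem RP.of_mirror {v p c : ℤ}
    (h : LP n (VisMap.mirror r) v p c) : RP n r (-v) (-p) (-c) := by
  obtain ⟨h1, h2, h3, h4, h5⟩ := h
  refine ⟨by omega, by omega, by omega, h4, fun x y x1 x2 y1 y2 hxy => ?_⟩
  refine h5 (-x) (-y) (by omega) (by omega) (by omega) (by omega) ?_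
  show r (- -x) (- -y)
  rw [neg_neg, neg_neg]; exact hxy

theorem LP.of_mirror {v p c : ℤ}
    (h : RP n (VisMap.mirror r) v p c) : LP n r (-v) (-p) (-c) := by
  obtain ⟨h1, h2, h3, h4, h5⟩ := h
  refine ⟨by omega, by omega, by omega, h4, fun x y x1 x2 y1 y2 hxy => ?_⟩
  refine h5 (-x) (-y) (by omega) (by omega) (by omega) (by omega) ?_
  show r (- -x) (- -y)
  rw [neg_neg, neg_neg]; exact hxy

theorem RP.mirror {v p c : ℤ} (h : RP n r v p c) : LP n (VisMap.mirror r) (-v) (-p) (-c) := by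
  obtain ⟨h1, h2, h3, h4, h5⟩ := h
  refine ⟨by omega, by omega, by omega, ?_, fun x y x1 x2 y1 y2 hxy => ?_⟩
  · show r (- -v) (- -p)
    rw [neg_neg, neg_neg]; exact h4
  · exact h5 (-x) (-y) (by omega) (by omega) (by omega) (by omega) hxy

theorem LP.mirror {v p c : ℤ} (h : LP n r v p c) : RP n (VisMap.mirror r) (-v) (-p) (-c) := by
  obtain ⟨h1, h2, h3, h4, h5⟩ := h
  refine ⟨by omega, by omega, by omega, ?_, fun x y x1 x2 y1 y2 hxy => ?_⟩
  · show r (- -v) (- -p)
    rw [neg_neg, neg_neg]; exact h4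
  · exact h5 (-x) (-y) (by omega) (by omega) (by omega) (by omega) hxy

theorem LP.mono {v p c c' : ℤ} (h : LP n r v p c) (h1 : p < c') (h2 : c' ≤ c) : LP n r v p c' :=
  ⟨h.vp, h1, by have := h.cn; omega, h.vis, fun x y x1 x2 y1 y2 => h.hid x y x1 x2 y1 (by omega)⟩

theorem LP.shift (hz : ZRel n r) {v p c : ℤ} (h : LP n r v p c) :
    LP n r (v + n) (p + n) (c + n) := by
  have hp := (ZR.of_zRel hz).perR
  obtain ⟨h1, h2, h3, h4, h5⟩ := h
  refine ⟨by omega, by omega, by omega, (hz.per _ _).2 ((hp _ _).2 h4),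
    fun x y x1 x2 y1 y2 hxy => ?_⟩
  refine h5 (x - n) (y - n) (by omega) (by omega) (by omega) (by omega) ?_
  rw [← hz.per, ← hp, sub_add_cancel, sub_add_cancel]; exact hxy

theorem LP.shift' (hz : ZRel n r) {v p c : ℤ} (h : LP n r v p c) :
    LP n r (v - n) (p - n) (c - n) := by
  have hp := (ZR.of_zRel hz).perR
  obtain ⟨h1, h2, h3, h4, h5⟩ := h
  refine ⟨by omega, by omega, by omega, ?_, fun x y x1 x2 y1 y2 hxy => ?_⟩
  · rw [← hz.per, ← hp, sub_add_cancel, sub_add_cancel]; exact h4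
  · refine h5 (x + n) (y + n) (by omega) (by omega) (by omega) (by omega) ?_
    exact (hz.per _ _).2 ((hp _ _).2 hxy)

/-- If `i` sees `v` and `p` does not, then `v` has a pocket which contains `[p, c]`. -/
theorem pocket_around (h : ZRel n r) {i p c v : ℤ} (hP : LP n r i p c) (h1 : i < v)
    (h2 : v < i + n) (hiv : r i v) (hvp : v ≠ p) (hn : ¬ r v p) :
    ∃ v' p' c', (n : ℤ) ∣ v' - v ∧
      ((LP n r v' p' c' ∧ p' < p ∧ c ≤ c') ∨ (RP n r v' p' c' ∧ c' ≤ p ∧ c < p')) := by
  have hz := ZR.of_zRel h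
  have hper : ∀ a b, r (a - n) b ↔ r a b := fun a b => by
    rw [← h.per (a - n) b, sub_add_cancel]
  obtain ⟨q1, q2, q3, q4, q5⟩ := hP
  have hvi : r v (i + n) := (hz.perR _ _).2 (h.symm _ _ hiv)
  rcases lt_or_gt_of_ne hvp with hlt | hgt
  · -- `v < p`
    have e1 : v + 1 ≠ p := fun e => hn (e ▸ h.succ v)
    obtain ⟨l, t, ⟨-, -, -, a1, a2, a3, a4, a5, a6⟩, b1, b2, b3, b4⟩ :=
      (SR.of_zrel h).gap_around (i := v) (s := v + 1) (t := v + n - 1) (z := p) trivial trivial trivial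
        (by omega) (by omega) (by omega) (by omega) (h.succ v) (last h v) (fun hc => hn hc.2)
    have htn : t ≤ i + n := by
      by_contra hc
      exact a6 (i + n) trivial (by omega) (by omega) hvi
    obtain ⟨c', c1, c2, c3, c4⟩ := h.nc v l t a1 a2 a3 a4 a5 (fun m m1 m2 => a6 m trivial m1 m2)
    by_cases hA : ∃ x z, v ≤ x ∧ x < l ∧ l < z ∧ z ≤ p ∧ r x z
    · obtain ⟨x, z, x1, x2, z1, z2, hxz⟩ := hA
      have hzc : c' < z := by
        by_contra hc
        exact c3 x z x1 x2 z1 (by omega) hxz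
      rcases htn.lt_or_eq with hl | he
      · exfalso
        refine c4 (i + n) p hl (by omega) (by omega) b3 ?_
        exact (h.per i p).2 q4
      · refine ⟨v + n, t, c' + 1, ⟨1, by ring⟩, Or.inr ⟨⟨by omega, by omega, by omega,
          (h.per _ _).2 a5, fun x y x1 x2 y1 y2 => c4 x y x1 x2 (by omega) y2⟩, by omega, by omega⟩⟩
    · refine ⟨v, l, c, ⟨0, by ring⟩, Or.inl ⟨⟨a1, by omega, by omega, a4,
        fun x y x1 x2 y1 y2 hxy => ?_⟩, b2, le_rfl⟩⟩
      rcases le_or_gt y p with hy | hy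
      · exact hA ⟨x, y, x1, x2, y1, hy, hxy⟩
      · exact q5 x y (by omega) (by omega) hy y2 hxy
  · -- `p < v`
    set w := v - n with hw
    have hwr : ∀ z, r w z ↔ r v z := fun z => hper v z
    have e1 : v - 1 ≠ p := fun e => hn (e ▸ hz.pred v)
    have hwi : r w i := by
      rw [hwr]; exact h.symm _ _ hiv
    have hvc : c < v := by
      by_contra hc
      exact q5 i v le_rfl q1 hgt (by omega) hiv
    obtain ⟨l, t, ⟨-, -, -, a1, a2, a3, a4, a5, a6⟩, b1, b2, b3, b4⟩ :=
      (SR.of_zrel h).gap_around (i := w) (s := i) (t := v - 1) (z := p) trivial trivial trivial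
        (by omega) (by omega) (by omega) (by omega) hwi ((hwr _).2 (hz.pred v))
        (fun hc => hn ((hwr _).1 hc.2))
    have htc : c < t := by
      by_contra hc
      exact q5 l t b1 b2 b3 (by omega)
        (h.cn w l t a1 a2 a3 a4 a5 fun m m1 m2 => a6 m trivial m1 m2)
    obtain ⟨c', c1, c2, c3, c4⟩ := h.nc w l t a1 a2 a3 a4 a5 (fun m m1 m2 => a6 m trivial m1 m2)
    by_cases hA : ∃ x z, w ≤ x ∧ x < l ∧ l < z ∧ z ≤ p ∧ r x z
    · obtain ⟨x, z, x1, x2, z1, z2, hxz⟩ := hA
      have hzc : c' < z := by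
        by_contra hc
        exact c3 x z x1 x2 z1 (by omega) hxz
      refine ⟨v, t, c' + 1, ⟨0, by ring⟩, Or.inr ⟨⟨by omega, by omega, by omega, (hwr _).1 a5,
        fun x y x1 x2 y1 y2 => c4 x y x1 (by omega) (by omega) y2⟩, by omega, htc⟩⟩
    · have hli : l = i := by
        by_contra hne
        exact hA ⟨i, p, by omega, by omega, b2, le_rfl, q4⟩
      subst hli
      -- `[w, l)` sees nothing in `(p, c]`
      have hB : ∀ N : ℕ, ∀ y, y ≤ p + N → p < y → y ≤ c → ∀ x, w ≤ x → x < l → ¬ r x y := by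
        intro N
        induction N with
        | zero => intro y y1 y2; simp at y1; omega
        | succ N ih =>
          intro y y1 y2 y3 x x1 x2 hxy
          -- the last sight of `y` below `l` and the first one from `p` on
          obtain ⟨s2, ⟨d1, d2⟩, d3⟩ := Dism.exists_last (P := fun z => z < l ∧ r y z) (b := l)
            (fun z hz => hz.1.le) (a := x) ⟨x2, h.symm _ _ hxy⟩
          obtain ⟨s1, ⟨f1, f2⟩, f3⟩ := Dism.exists_first (P := fun z => p ≤ z ∧ r y z) (b := p)
            (fun z hz => hz.1) (a := y - 1) ⟨by omega, hz.pred y⟩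
          have g1 := d3 x ⟨x2, h.symm _ _ hxy⟩
          have g2 := f3 (y - 1) ⟨by omega, hz.pred y⟩
          have hcn : r s2 s1 := by
            refine h.cn (y - n) s2 s1 (by omega) (by omega) (by omega) ((hper _ _).2 d2)
              ((hper _ _).2 f2) fun m m1 m2 m3 => ?_
            rw [hper] at m3
            rcases lt_or_ge m l with hm | hm
            · have := d3 m ⟨hm, m3⟩
              omega
            · rcases lt_or_ge m p with hm' | hm'
              · exact q5 m y hm hm' y2 y3 (h.symm _ _ m3)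
              · have := f3 m ⟨hm', m3⟩
                omega
          rcases f1.lt_or_eq with hl | he
          · exact ih s1 (by push_cast at y1; omega) hl (by omega) s2 (by omega) d1 hcn
          · rw [← he] at hcn
            exact hA ⟨s2, p, by omega, d1, b2, le_rfl, hcn⟩
      refine ⟨w, l, c, ⟨-1, by rw [hw]; ring⟩, Or.inl ⟨⟨a1, by omega, by omega, a4,
        fun x y x1 x2 y1 y2 hxy => ?_⟩, b2, le_rfl⟩⟩
      rcases le_or_gt y p with hy | hy
      · exact hA ⟨x, y, x1, x2, y1, hy, hxy⟩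
      · exact hB (y - p).toNat y (by omega) hy y2 x x1 x2 hxy

/-- Both ends: the vertex behind a maximal pocket is seen by `p`. -/
theorem LP.vis_end (h : ZRel n r) {i p c x : ℤ} (hP : LP n r i p c) (h1 : i ≤ x) (h2 : x < p)
    (h3 : c + 1 < i + n) (h4 : r x (c + 1)) : r p (c + 1) := by
  have hz := ZR.of_zRel h
  have hper : ∀ a b, r (a - n) b ↔ r a b := fun a b => by
    rw [← h.per (a - n) b, sub_add_cancel]
  obtain ⟨q1, q2, q3, q4, q5⟩ := hP
  obtain ⟨s2, ⟨d1, d2⟩, d3⟩ := Dism.exists_last (P := fun z => z < p ∧ r (c + 1) z) (b := p)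
    (fun z hz => hz.1.le) (a := x) ⟨h2, h.symm _ _ h4⟩
  obtain ⟨s1, ⟨f1, f2⟩, f3⟩ := Dism.exists_first (P := fun z => p ≤ z ∧ r (c + 1) z) (b := p)
    (fun z hz => hz.1) (a := c + 1 - 1) ⟨by omega, hz.pred _⟩
  have g1 := d3 x ⟨h2, h.symm _ _ h4⟩
  have g2 := f3 (c + 1 - 1) ⟨by omega, hz.pred _⟩
  have hcn : r s2 s1 := by
    refine h.cn (c + 1 - n) s2 s1 (by omega) (by omega) (by omega) ((hper _ _).2 d2)
      ((hper _ _).2 f2) fun m m1 m2 m3 => ?_
    rw [hper] at m3
    rcases lt_or_ge m p with hm | hm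
    · have := d3 m ⟨hm, m3⟩
      omega
    · have := f3 m ⟨hm, m3⟩
      omega
  rcases f1.lt_or_eq with hl | he
  · exact (q5 s2 s1 (by omega) d1 hl (by omega) hcn).elim
  · rw [he]; exact h.symm _ _ f2

/-- No pocket of a viewer in `V` hides more than `L` vertices. -/
def PB (n : ℕ) (r : ℤ → ℤ → Prop) (V : ℤ → Prop) (L : ℤ) : Prop :=
  ∀ v p c, V v → (LP n r v p c → c - p ≤ L) ∧ (RP n r v p c → p - c ≤ L)

theorem PB.mirror {V : ℤ → Prop} {L : ℤ} (hB : PB n r V L) :
    PB n (VisMap.mirror r) (fun z => V (-z)) L := by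
  intro v p c hv
  refine ⟨fun hP => ?_, fun hP => ?_⟩
  · have := (hB (-v) (-p) (-c) hv).2 (RP.of_mirror hP)
    omega
  · have := (hB (-v) (-p) (-c) hv).1 (LP.of_mirror hP)
    omega

theorem PB.mono {V W : ℤ → Prop} {L : ℤ} (hB : PB n r V L) (hW : ∀ z, W z → V z) : PB n r W L :=
  fun v p c hv => hB v p c (hW v hv)

/-- Domination: if `i` has a longest pocket among the viewers in `V`, then its pivot `p` sees
everything in `V` that `i` sees. -/
theorem LP.dom (h : ZRel n r) {V : ℤ → Prop} (hV : ∀ a, V (a + n) ↔ V a) {i p c : ℤ}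
    (hP : LP n r i p c) (hB : PB n r V (c - p)) {v : ℤ} (hv : V v) (hiv : Nb n r i v) :
    Nb n r p v := by
  have hz := ZR.of_zRel h
  have hVj : ∀ (j : ℤ) (a : ℤ), V (a + j * n) ↔ V a := by
    intro j a
    exact per_mul (p := V) hV a j
  have hrj : ∀ (j a b : ℤ), r a (b + j * n) ↔ r a b := by
    intro j a b
    exact per_mul (p := fun z => r a z) (fun z => hz.perR a z) b j
  have hn : (0 : ℤ) < n := by have := hP.vp; have := hP.pc; have := hP.cn; omega
  rcases hiv with hd | hr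
  · obtain ⟨j, hj⟩ := hd
    right
    have e : v = i + j * n := by rw [mul_comm] at hj; linarith
    rw [e, hrj]
    exact h.symm _ _ hP.vis
  · by_contra hno
    have e := Int.emod_add_mul_ediv (v - i) n
    have e1 := Int.emod_nonneg (v - i) hn.ne'
    have e2 := Int.emod_lt_of_pos (v - i) hn
    set m := (v - i) % n with hm
    set j := (v - i) / n with hj
    have hvm : i + m = v + (-j) * n := by linarith [mul_comm (n : ℤ) j]
    have hr' : r i (i + m) := by rw [hvm, hrj]; exact hr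
    have hm0 : m ≠ 0 := by
      intro h0
      rw [h0, add_zero] at hr'
      exact h.irrefl _ hr'
    have hmp : i + m ≠ p := by
      intro h0
      refine hno (Or.inl ⟨j, ?_⟩)
      rw [← h0, hvm]; ring
    have hnp : ¬ r (i + m) p := by
      intro h0
      refine hno (Or.inr ?_)
      rw [← hrj (-j) p v, ← hvm]
      exact h.symm _ _ h0
    obtain ⟨v', p', c', ⟨t, ht⟩, hpk⟩ := pocket_around h hP (v := i + m) (by omega) (by omega) hr' hmp hnp
    have hv' : V v' := by
      have e3 : v' = v + (t - j) * n := by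
        have e4 : v' = i + m + t * n := by rw [mul_comm] at ht; linarith
        rw [e4, hvm]; ring
      rw [e3, hVj]; exact hv
    rcases hpk with ⟨a1, a2, a3⟩ | ⟨a1, a2, a3⟩
    · have := (hB v' p' c' hv').1 a1
      omega
    · have := (hB v' p' c' hv').2 a1
      omega

/-- If some viewer in `V` has a pocket, then there is a longest one (for `r` or for its mirror
image). -/
theorem exists_longest {V : ℤ → Prop} (hex : ∃ v p c, V v ∧ (LP n r v p c ∨ RP n r v p c)) :
    ∃ L, 0 < L ∧ PB n r V L ∧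
      ((∃ i p c, V i ∧ LP n r i p c ∧ c - p = L) ∨ (∃ i p c, V i ∧ RP n r i p c ∧ p - c = L)) := by
  obtain ⟨L₀, hL₀⟩ : ∃ L, (∃ i p c, V i ∧ LP n r i p c ∧ c - p = L) ∨
      (∃ i p c, V i ∧ RP n r i p c ∧ p - c = L) := by
    obtain ⟨v, p, c, hv, hP | hP⟩ := hex
    · exact ⟨c - p, Or.inl ⟨v, p, c, hv, hP, rfl⟩⟩
    · exact ⟨p - c, Or.inr ⟨v, p, c, hv, hP, rfl⟩⟩
  obtain ⟨L, hL, hmax⟩ := Dism.exists_last
    (P := fun L => (∃ i p c, V i ∧ LP n r i p c ∧ c - p = L) ∨
      (∃ i p c, V i ∧ RP n r i p c ∧ p - c = L)) (b := n) (by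
        rintro z (⟨i, p, c, -, h1, h2⟩ | ⟨i, p, c, -, h1, h2⟩)
        · have := h1.vp; have := h1.cn; omega
        · have := h1.pv; have := h1.cn; omega) hL₀
  refine ⟨L, ?_, fun v p c hv => ⟨fun hP => hmax _ (Or.inl ⟨v, p, c, hv, hP, rfl⟩),
    fun hP => hmax _ (Or.inr ⟨v, p, c, hv, hP, rfl⟩)⟩, hL⟩
  rcases hL with ⟨i, p, c, -, h1, h2⟩ | ⟨i, p, c, -, h1, h2⟩
  · have := h1.pc; omega
  · have := h1.cp; omega

end Cut

end VisMap
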