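import Pool.Agent.Lib.MP_9f3af0_lc.Twin

/-!
# MP_9f3af0_lc: more lemmas on pockets (helper47, after helpers 14, 58)

`pocket_mid`: if `[w, p) × (p, c]` is hidden and `w` does not see `p`, then `w` has a pocket which
contains `[p, c]`.  `part_dist`: a vertex `u` of `(s, c]`, where `[v, s) × (s, c]` is hidden, has a
pocket which hides at least `s - v` vertices.  `exists_T`: the last vertex before `p` which sees
something of the pocket `(p, c]` sees `p`.
-/

namespace VisMap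

namespace Cut

open Dism

variable {n : ℕ} {k : ℤ} {r : ℤ → ℤ → Prop}

/-- If `[w, p) × (p, c]` is hidden and `w` does not see `p`, then `w` has a pocket which contains
`[p, c]`. -/
theorem pocket_mid (h : ZRel n r) {w p c : ℤ} (h1 : w < p) (h2 : p < c) (h3 : c < w + n)
    (hR : ∀ x y, w ≤ x → x < p → p < y → y ≤ c → ¬ r x y) (hn : ¬ r w p) :
    ∃ v' p' c', (n : ℤ) ∣ v' - w ∧
      ((LP n r v' p' c' ∧ p' < p ∧ c ≤ c') ∨ (RP n r v' p' c' ∧ c' ≤ p ∧ c < p')) := by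
  have e1 : w + 1 ≠ p := fun e => hn (e ▸ h.succ w)
  have hcw : c ≠ w + n - 1 := fun e => hR w c le_rfl h1 h2 le_rfl (e ▸ last h w)
  obtain ⟨l, t, ⟨-, -, -, a1, a2, a3, a4, a5, a6⟩, b1, b2, b3, b4⟩ :=
    (SR.of_zrel h).gap_around (i := w) (s := w + 1) (t := w + n - 1) (z := p) trivial trivial trivial
      (by omega) (by omega) (by omega) (by omega) (h.succ w) (last h w) (fun hc => hn hc.2)
  have htc : c < t := by
    by_contra hc
    exact hR w t le_rfl h1 b3 (by omega) a5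
  obtain ⟨c', c1, c2, c3, c4⟩ := h.nc w l t a1 a2 a3 a4 a5 (fun m m1 m2 => a6 m trivial m1 m2)
  by_cases hA : ∃ x z, w ≤ x ∧ x < l ∧ l < z ∧ z ≤ p ∧ r x z
  · obtain ⟨x, z, x1, x2, z1, z2, hxz⟩ := hA
    have hzc : c' < z := by
      by_contra hc
      exact c3 x z x1 x2 z1 (by omega) hxz
    exact ⟨w + n, t, c' + 1, ⟨1, by ring⟩, Or.inr ⟨⟨by omega, by omega, by omega,
      (h.per _ _).2 a5, fun x y x1 x2 y1 y2 => c4 x y x1 x2 (by omega) y2⟩, by omega, htc⟩⟩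
  · refine ⟨w, l, c, ⟨0, by ring⟩, Or.inl ⟨⟨a1, by omega, by omega, a4,
      fun x y x1 x2 y1 y2 hxy => ?_⟩, b2, le_rfl⟩⟩
    rcases le_or_gt y p with hy | hy
    · exact hA ⟨x, y, x1, x2, y1, hy, hxy⟩
    · exact hR x y x1 (by omega) hy y2 hxy

/-- A viewer `w` in `V` sees `p` if `[w, p) × (p, c]` is hidden and no pocket of a viewer in `V` hides
more than `c - p` vertices. -/
theorem vis_of_rect (h : ZRel n r) {V : ℤ → Prop} (hV : ∀ a, V (a + n) ↔ V a) {w p c : ℤ}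
    (hw : V w) (hB : PB n r V (c - p)) (h1 : w < p) (h2 : p < c) (h3 : c < w + n)
    (hR : ∀ x y, w ≤ x → x < p → p < y → y ≤ c → ¬ r x y) : r w p := by
  by_contra hn
  obtain ⟨v', p', c', ⟨t, ht⟩, hpk⟩ := pocket_mid h h1 h2 h3 hR hn
  have hv' : V v' := by
    have e3 : v' = w + t * n := by rw [mul_comm] at ht; linarith
    rw [e3]; exact (per_mul (p := V) hV w t).2 hw
  rcases hpk with ⟨a1, a2, a3⟩ | ⟨a1, a2, a3⟩
  · have := (hB v' p' c' hv').1 a1
    omega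
  · have := (hB v' p' c' hv').2 a1
    omega

/-- A vertex `u` of `(s, c]`, where `[v, s) × (s, c]` is hidden, has a pocket which hides at least
`s - v` vertices. -/
theorem pocket_part (h : ZRel n r) {v s c u : ℤ} (h1 : v < s) (h3 : u < v + n)
    (hR : ∀ x y, v ≤ x → x < s → s < y → y ≤ c → ¬ r x y) (hu1 : s < u) (hu2 : u ≤ c) :
    ∃ v' p' c', (n : ℤ) ∣ v' - u ∧
      ((LP n r v' p' c' ∧ p' < v ∧ s ≤ c') ∨ (RP n r v' p' c' ∧ c' ≤ v ∧ s ≤ p')) := by
  have hz := ZR.of_zRel h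
  have hper : ∀ a b, r (a - n) b ↔ r a b := fun a b => by
    rw [← h.per (a - n) b, sub_add_cancel]
  have hyd : ∀ x, v ≤ x → x < s → ¬ r u x := fun x x1 x2 x3 =>
    hR x u x1 x2 hu1 hu2 (h.symm _ _ x3)
  have hlast : r u (u - n + 1) := by
    have h4 := h.succ u
    rw [← hz.perR]
    have e : u - (n : ℤ) + 1 + n = u + 1 := by ring
    rw [e]; exact h4
  have hne : u - n + 1 < v := by
    rcases lt_trichotomy (u - n + 1) v with hl | he | hl
    · exact hl
    · exact (hyd v le_rfl h1 (he ▸ hlast)).elim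
    · omega
  -- the largest sight of `u` before `v` and the smallest one from `s` on
  obtain ⟨l, ⟨d1, d2⟩, d3⟩ := Dism.exists_last (P := fun z => z < v ∧ r u z) (b := v)
    (fun z hz => hz.1.le) (a := u - n + 1) ⟨hne, hlast⟩
  obtain ⟨t, ⟨f1, f2⟩, f3⟩ := Dism.exists_first (P := fun z => s ≤ z ∧ r u z) (b := s)
    (fun z hz => hz.1) (a := u - 1) ⟨by omega, hz.pred u⟩
  have g1 := d3 (u - n + 1) ⟨hne, hlast⟩
  have g2 := f3 (u - 1) ⟨by omega, hz.pred u⟩
  have hgap : ∀ m, l < m → m < t → ¬ r (u - n) m := by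
    intro m m1 m2 m3
    rw [hper] at m3
    rcases lt_or_ge m v with hm | hm
    · have := d3 m ⟨hm, m3⟩
      omega
    · rcases lt_or_ge m s with hm' | hm'
      · exact hyd m hm hm' m3
      · have := f3 m ⟨hm', m3⟩
        omega
  obtain ⟨c', c1, c2, c3, c4⟩ := h.nc (u - n) l t (by omega) (by omega) (by omega)
    ((hper _ _).2 d2) ((hper _ _).2 f2) hgap
  by_cases hA : ∃ x z, t < x ∧ x ≤ u ∧ s ≤ z ∧ z < t ∧ r x z
  · obtain ⟨x, z, x1, x2, z1, z2, hxz⟩ := hA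
    have hzc : z ≤ c' := by
      by_contra hc
      exact c4 x z x1 (by omega) (by omega) z2 hxz
    refine ⟨u - n, l, c', ⟨-1, by ring⟩, Or.inl ⟨⟨by omega, by omega, by omega, (hper _ _).2 d2, c3⟩,
      d1, by omega⟩⟩
  · refine ⟨u, t, v, ⟨0, by ring⟩, Or.inr ⟨⟨by omega, by omega, by omega, f2,
      fun x y x1 x2 y1 y2 hxy => ?_⟩, le_rfl, f1⟩⟩
    rcases lt_or_ge y s with hy | hy
    · exact hR y x y1 hy (by omega) (by omega) (h.symm _ _ hxy)
    · exact hA ⟨x, y, x1, x2, hy, y2, hxy⟩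

/-- Distances to hidden viewers in `V` are bounded by the longest pocket. -/
theorem part_dist (h : ZRel n r) {V : ℤ → Prop} (hV : ∀ a, V (a + n) ↔ V a) {L : ℤ}
    (hB : PB n r V L) {v s c u : ℤ} (h1 : v < s) (h3 : u < v + n)
    (hR : ∀ x y, v ≤ x → x < s → s < y → y ≤ c → ¬ r x y) (hu : V u) (hu1 : s < u) (hu2 : u ≤ c) :
    s - v ≤ L := by
  obtain ⟨v', p', c', ⟨t, ht⟩, hpk⟩ := pocket_part h h1 h3 hR hu1 hu2
  have hv' : V v' := by
    have e3 : v' = u + t * n := by rw [mul_comm] at ht; linarith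
    rw [e3]; exact (per_mul (p := V) hV u t).2 hu
  rcases hpk with ⟨a1, a2, a3⟩ | ⟨a1, a2, a3⟩
  · have := (hB v' p' c' hv').1 a1
    omega
  · have := (hB v' p' c' hv').2 a1
    omega

/-- The last vertex `T` before `p` which sees something of `(p, c]` sees `p`, and `(T, p) × (p, c]`
is hidden. -/
theorem exists_T (h : ZRel n r) {i p c : ℤ} (hP : LP n r i p c) :
    ∃ T, c - n < T ∧ T < i ∧ r T p ∧ (∃ y, p < y ∧ y ≤ c ∧ r T y) ∧
      ∀ x y, T < x → x < p → p < y → y ≤ c → ¬ r x y := by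
  have hz := ZR.of_zRel h
  have hper : ∀ a b, r (a - n) b ↔ r a b := fun a b => by
    rw [← h.per (a - n) b, sub_add_cancel]
  obtain ⟨q1, q2, q3, q4, q5⟩ := hP
  have hex : r (c + 1 - n) c := by
    rw [hper]; exact h.symm _ _ (h.succ c)
  obtain ⟨T, ⟨t1, y, t2, t3, t4⟩, t5⟩ := Dism.exists_last
    (P := fun x => x < p ∧ ∃ y, p < y ∧ y ≤ c ∧ r x y) (b := p) (fun z hz => hz.1.le)
    (a := c + 1 - n) ⟨by omega, c, q2, le_rfl, hex⟩
  have t6 := t5 _ ⟨by omega, c, q2, le_rfl, hex⟩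
  have hTi : T < i := by
    by_contra hc
    exact q5 T y (by omega) t1 t2 t3 t4
  have hrect : ∀ x y, T < x → x < p → p < y → y ≤ c → ¬ r x y := by
    intro x y x1 x2 y1 y2 hxy
    have := t5 x ⟨x2, y, y1, y2, hxy⟩
    omega
  refine ⟨T, by omega, hTi, ?_, ⟨y, t2, t3, t4⟩, hrect⟩
  -- the first sight of `T` in `(p, c]`
  obtain ⟨y₀, ⟨u1, u2, u3⟩, u4⟩ := Dism.exists_first (P := fun z => p < z ∧ z ≤ c ∧ r T z) (b := p)
    (fun z hz => hz.1.le) (a := y) ⟨t2, t3, t4⟩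
  obtain ⟨s1, ⟨f1, f2⟩, f3⟩ := Dism.exists_first (P := fun z => p ≤ z ∧ r y₀ z) (b := p)
    (fun z hz => hz.1) (a := y₀ - 1) ⟨by omega, hz.pred y₀⟩
  have g2 := f3 (y₀ - 1) ⟨by omega, hz.pred y₀⟩
  have hTy : y₀ - n < T := by
    rcases lt_trichotomy (y₀ - n) T with hl | he | hl
    · exact hl
    · exfalso
      rw [← he, hper] at u3
      exact h.irrefl _ u3
    · omega
  have hcn : r T s1 := by
    refine h.cn (y₀ - n) T s1 (by omega) (by omega) (by omega) ((hper _ _).2 (h.symm _ _ u3))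
      ((hper _ _).2 f2) fun m m1 m2 m3 => ?_
    rw [hper] at m3
    rcases lt_or_ge m p with hm | hm
    · exact hrect m y₀ m1 hm u1 u2 (h.symm _ _ m3)
    · have := f3 m ⟨hm, m3⟩
      omega
  rcases f1.lt_or_eq with hl | he
  · have := u4 s1 ⟨hl, by omega, hcn⟩
    omega
  · rw [he]; exact hcn

end Cut

end VisMap
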