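import Pool.Agent.Lib.MP_9f3af0_lc.Mono

/-!
# Separation: abstract form of the crossing lemma

`T` is a closed curve with closed chain `P` (`par P z = 1` inside, every boundary point is a limit of
exterior points), cut by `D` into two closed chains `L1`, `L2`.

Types: `z` is of type 1 if `z ∉ tr L2` and `par L2 z = 0`, of type 2 if `z ∉ tr L1` and `par L1 z = 0`.
Every `z ∈ reg T \ D` has exactly one type.  If `z ∉ T` then `z` is off `tr L1 ∪ tr L2 ⊆ T ∪ D` and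
`1 = par P z = par L1 z + par L2 z`.  If `z ∈ T ∩ tr L1` (`z ∉ D`) then `z ∉ tr L2`, `par L2 z = 0` by `par_bd`:
type 1, and not type 2 because `z ∈ tr L1`.  The same for `z ∈ T ∩ tr L2`.  Both type sets are open
(`isOpen_par`), so on a preconnected `σ ⊆ reg T \ D` the type is constant.
-/

namespace VisMap

open Set

/-- The data of a cut. -/
structure Cut (T : Set ℂ) (P L1 L2 : List (ℂ × ℂ)) (D : Set ℂ) : Prop where
  c1 : Closed L1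
  c2 : Closed L2
  s1 : tr L1 ⊆ reg T
  s2 : tr L2 ⊆ reg T
  t1 : tr L1 ⊆ T ∪ D
  t2 : tr L2 ⊆ T ∪ D
  cov : T ⊆ tr L1 ∪ tr L2
  int : tr L1 ∩ tr L2 ⊆ D
  inn : ∀ z ∈ reg T, z ∉ T → par P z = 1
  sum : ∀ z, z ∉ tr L1 → z ∉ tr L2 → par P z = par L1 z + par L2 z
  acc : ∀ t ∈ T, t ∈ closure (reg T)ᶜ

theorem Cut.type_or {T : Set ℂ} {P L1 L2 : List (ℂ × ℂ)} {D : Set ℂ} (C : Cut T P L1 L2 D) {z : ℂ}
    (hz : z ∈ reg T) (hD : z ∉ D) :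
    (z ∉ tr L2 ∧ par L2 z = 0 ∧ ¬ (z ∉ tr L1 ∧ par L1 z = 0)) ∨
    (z ∉ tr L1 ∧ par L1 z = 0 ∧ ¬ (z ∉ tr L2 ∧ par L2 z = 0)) := by
  by_cases hT : z ∈ T
  · rcases C.cov hT with h1 | h2
    · have h3 : z ∉ tr L2 := fun h => hD (C.int ⟨h1, h⟩)
      exact Or.inl ⟨h3, par_bd C.c2 C.s2 h3 (C.acc z hT), fun h => h.1 h1⟩
    · have h3 : z ∉ tr L1 := fun h => hD (C.int ⟨h, h2⟩)
      exact Or.inr ⟨h3, par_bd C.c1 C.s1 h3 (C.acc z hT), fun h => h.1 h2⟩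
  · have h1 : z ∉ tr L1 := fun h => (C.t1 h).elim hT hD
    have h2 : z ∉ tr L2 := fun h => (C.t2 h).elim hT hD
    have h3 : par L1 z + par L2 z = 1 := by
      rw [← C.sum z h1 h2]; exact C.inn z hz hT
    have key : ∀ a b : ZMod 2, a + b = 1 → (b = 0 ∧ a ≠ 0) ∨ (a = 0 ∧ b ≠ 0) := by decide
    rcases key _ _ h3 with ⟨h4, h5⟩ | ⟨h4, h5⟩
    · exact Or.inl ⟨h2, h4, fun h => h5 h.2⟩
    · exact Or.inr ⟨h1, h4, fun h => h5 h.2⟩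

/-- Points of the first arc have type 1. -/
theorem Cut.type1 {T : Set ℂ} {P L1 L2 : List (ℂ × ℂ)} {D : Set ℂ} (C : Cut T P L1 L2 D) {z : ℂ}
    (hz : z ∈ T) (hz1 : z ∈ tr L1) (hD : z ∉ D) : z ∉ tr L2 ∧ par L2 z = 0 := by
  have h3 : z ∉ tr L2 := fun h => hD (C.int ⟨hz1, h⟩)
  exact ⟨h3, par_bd C.c2 C.s2 h3 (C.acc z hz)⟩

/-- Points of the second arc have type 2. -/
theorem Cut.type2 {T : Set ℂ} {P L1 L2 : List (ℂ × ℂ)} {D : Set ℂ} (C : Cut T P L1 L2 D) {z : ℂ}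
    (hz : z ∈ T) (hz2 : z ∈ tr L2) (hD : z ∉ D) : z ∉ tr L1 ∧ par L1 z = 0 := by
  have h3 : z ∉ tr L1 := fun h => hD (C.int ⟨h, hz2⟩)
  exact ⟨h3, par_bd C.c1 C.s1 h3 (C.acc z hz)⟩

/-- The type is constant on preconnected sets in `reg T \ D`. -/
theorem Cut.const {T : Set ℂ} {P L1 L2 : List (ℂ × ℂ)} {D : Set ℂ} (C : Cut T P L1 L2 D)
    {σ : Set ℂ} (hσ : IsPreconnected σ) (hs : σ ⊆ reg T) (hd : Disjoint σ D) {x y : ℂ}
    (hx : x ∈ σ) (hy : y ∈ σ) (h1 : x ∉ tr L2 ∧ par L2 x = 0) : y ∉ tr L2 ∧ par L2 y = 0 := by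
  by_contra hne
  have hor : ∀ z ∈ σ, _ := fun z hz => C.type_or (hs hz) (Set.disjoint_left.1 hd hz)
  have hcov : σ ⊆ {z | z ∉ tr L2 ∧ par L2 z = 0} ∪ {z | z ∉ tr L1 ∧ par L1 z = 0} := by
    intro z hz
    rcases hor z hz with ⟨h2, h3, -⟩ | ⟨h2, h3, -⟩
    · exact Or.inl ⟨h2, h3⟩
    · exact Or.inr ⟨h2, h3⟩
  have hy2 : y ∉ tr L1 ∧ par L1 y = 0 := by
    rcases hcov hy with h2 | h2
    · exact absurd h2 hne
    · exact h2
  obtain ⟨z, hz, hz1, hz2⟩ := hσ _ _ (isOpen_par C.c2 0) (isOpen_par C.c1 0) hcov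
    ⟨x, hx, h1⟩ ⟨y, hy, hy2⟩
  rcases hor z hz with ⟨-, -, h3⟩ | ⟨-, -, h3⟩
  · exact h3 hz2
  · exact h3 hz1

/-- The crossing lemma: a connected set in the region with points on both arcs meets the cut. -/
theorem Cut.cross {T : Set ℂ} {P L1 L2 : List (ℂ × ℂ)} {D : Set ℂ} (C : Cut T P L1 L2 D)
    {σ : Set ℂ} (hσ : IsPreconnected σ) (hs : σ ⊆ reg T) {x y : ℂ}
    (hx : x ∈ σ) (hxT : x ∈ T) (hx1 : x ∈ tr L1) (hy : y ∈ σ) (hyT : y ∈ T) (hy2 : y ∈ tr L2) :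
    (σ ∩ D).Nonempty := by
  by_contra hne
  have hd : Disjoint σ D := Set.disjoint_iff_inter_eq_empty.2 (Set.not_nonempty_iff_eq_empty.1 hne)
  have hxD : x ∉ D := Set.disjoint_left.1 hd hx
  have hyD : y ∉ D := Set.disjoint_left.1 hd hy
  have h1 := C.const hσ hs hd hx hy (C.type1 hxT hx1 hxD)
  exact h1.1 hy2

end VisMap
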