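import Pool.Agent.Lib.MP_9f3af0_lc.Laps

/-!
# MP_9f3af0_lc: a thin vertex excludes `NL` (helper88, helper55; Lean by helper74)

`El k n r v`: the laps of the vertex `v` (all vertices counted), i.e. the sum over the gaps of `v` of
`⌊hidden / k⌋`.  `El_eq`: it depends only on the class.  `one_le`: under `NL` every vertex has a lap.
`exists_gap`: a vertex with a lap has a gap that hides at least `k` vertices.
-/

namespace VisMap

namespace Laps

open Cut

variable {n : ℕ} {k : ℤ} {r : ℤ → ℤ → Prop}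

/-- The laps of the interval `(a, b)`, all vertices counted. -/
noncomputable abbrev lq (k : ℤ) (P : ℤ → Prop) (a b : ℤ) : ℤ := lp k (fun z => z) P a b

/-- The laps of the vertex `v`, all vertices counted. -/
noncomputable abbrev El (k : ℤ) (n : ℕ) (r : ℤ → ℤ → Prop) (v : ℤ) : ℤ := E k (fun z => z) n r v

theorem V_id {P : ℤ → Prop} {z : ℤ} : V (fun z => z) P z ↔ P z :=
  ⟨fun h => h.1, fun h => ⟨h, by show z - 1 < z; omega⟩⟩

theorem El_eq (hk : 0 < k) (hn : 0 < n) (hw : Wd n k r) {v v' : ℤ} (hv : k ∣ v' - v) :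
    El k n r v = El k n r v' := E_eq (Ctr.id hk) hn hw hv

theorem El_nonneg (hk : 0 < k) (v : ℤ) : 0 ≤ El k n r v := lp_nonneg (Ctr.id hk)

theorem El_per (hk : 0 < k) (hn : 0 < n) (hd : k ∣ n) (hw : Wd n k r) (v : ℤ) :
    El k n r (v + n) = El k n r v :=
  (El_eq hk hn hw (by simpa using hd)).symm

/-- A block of `k` hidden vertices gives a lap. -/
theorem El_pos_of (hk : 0 < k) {v s : ℤ} (h1 : v ≤ s) (h2 : s + k < v + n)
    (h3 : ∀ m, s < m → m ≤ s + k → ¬ r v m) : 0 < El k n r v :=
  lp_pos (Ctr.id hk) h1 (by omega) h2 (by omega) fun m m1 m2 m3 => h3 m m1 m2 m3.1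

/-- A vertex with a lap has a gap that hides at least `k` vertices. -/
theorem exists_gap (h : ZRel n r) (hk : 0 < k) {v : ℤ} (hv : 0 < El k n r v) :
    ∃ s t, v < s ∧ s + k < t ∧ t < v + n ∧ r v s ∧ r v t ∧ ∀ m, s < m → m < t → ¬ r v m := by
  obtain ⟨s, t, h1, h2, h3, h4, h5⟩ := exists_of_lp_pos (Ctr.id hk) hv
  have h4 : t - s = k := h4
  have hs : v + 1 ≤ s := by
    by_contra hlt
    exact h5 (v + 1) (by omega) (by omega) (V_id.2 (h.succ v))
  obtain ⟨p, p1, p2, p3, p4⟩ := exists_last (p := fun z => r v z) (a := v + 1) (b := s) hs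
    (h.succ v)
  have ht : t + 1 ≤ v + n - 1 := by
    by_contra hlt
    exact h5 (v + n - 1) (by omega) (by omega) (V_id.2 (last h v))
  obtain ⟨q, q1, q2, q3, q4⟩ := exists_first (p := fun z => r v z) (a := t + 1) (b := v + n - 1) ht
    (last h v)
  refine ⟨p, q, by omega, by omega, by omega, p3, q3, fun m m1 m2 m3 => ?_⟩
  rcases le_or_gt m s with h6 | h6
  · exact p4 m m1 h6 m3
  · rcases le_or_gt m t with h7 | h7
    · exact h5 m h6 h7 (V_id.2 m3)
    · exact q4 m (by omega) m2 m3

/-- Mates of a vertex without laps have the same row. -/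
theorem row_eq (hk : 0 < k) (hn : 0 < n) (hw : Wd n k r) {v v' : ℤ} (hv : k ∣ v' - v)
    (h0 : El k n r v = 0) {o : ℤ} (ho : Fw n r v o) : Fw n r v' o := by
  have h0' : El k n r v' = 0 := by rw [← El_eq hk hn hw hv, h0]
  obtain ⟨φ, h1, h2, h3, h4⟩ := hw v v' hv
  have h5 := word_inv (Ctr.id hk) hv h1 h2 h3 h4 o ho (by show v + o - 1 < v + o; omega)
  beta_reduce at h5
  have ho' := h1 o ho
  have h6 : lp k (fun z => z) (r v) v (v + o) = 0 := by
    have := lp_mono_right (P := r v) (Ctr.id hk) (a := v) (s := v + o) (b := v + n)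
      (by have := ho.1; omega) (by have := ho.2.1; omega)
    have := lp_nonneg (P := r v) (a := v) (b := v + o) (Ctr.id hk)
    have h0 : lp k (fun z => z) (r v) v (v + n) = 0 := h0
    omega
  have h7 : lp k (fun z => z) (r v') v' (v' + φ o) = 0 := by
    have := lp_mono_right (P := r v') (Ctr.id hk) (a := v') (s := v' + φ o) (b := v' + n)
      (by have := ho'.1; omega) (by have := ho'.2.1; omega)
    have := lp_nonneg (P := r v') (a := v') (b := v' + φ o) (Ctr.id hk)
    have h0 : lp k (fun z => z) (r v') v' (v' + n) = 0 := h0'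
    omega
  rw [h6, h7] at h5
  have : φ o = o := by omega
  rwa [this] at ho'

/-- Under `NL` every vertex has a lap. -/
theorem one_le (h : ZRel n r) (hk : 2 ≤ k) (hn : k + 2 < n) (hw : Wd n k r) (hnl : NL k r)
    (v : ℤ) : 1 ≤ El k n r v := by
  by_contra hlt
  have h0 : El k n r v = 0 := by
    have := El_nonneg (n := n) (r := r) (by omega : 0 < k) v
    omega
  have hk0 : 0 < k := by omega
  have hn0 : 0 < n := by omega
  -- nothing at the distances 2, …, k
  have h1 : ∀ d, 2 ≤ d → d ≤ k → ¬ r v (v + d) := by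
    intro d d1 d2 d3
    exact hnl v d d1 d2 fun u hu =>
      (row_eq hk0 hn0 hw hu h0 ⟨by omega, by omega, d3⟩).2.2
  have h2 : r v (v + (k + 1)) := by
    by_contra hno
    have := El_pos_of (n := n) (r := r) hk0 (v := v) (s := v + 1) (by omega) (by omega)
      fun m m1 m2 m3 => by
        rcases m2.lt_or_eq with m2 | rfl
        · exact h1 (m - v) (by omega) (by omega) (by rwa [add_sub_cancel])
        · exact hno (by convert m3 using 1; ring)
    omega
  refine hnl (v + 1) k hk le_rfl fun u hu => ?_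
  have hu' : k ∣ u - 1 - v := by
    have e : u - 1 - v = u - (v + 1) := by ring
    rw [e]; exact hu
  have h0' : El k n r (u - 1) = 0 := by rw [← El_eq hk0 hn0 hw hu', h0]
  have h3 : r (u - 1) (u + k) := by
    have := (row_eq hk0 hn0 hw hu' h0 (o := k + 1) ⟨by omega, by omega, h2⟩).2.2
    have e : u - 1 + (k + 1) = u + k := by ring
    rwa [e] at this
  have h4 : r (u - 1) u := by
    have := h.succ (u - 1)
    rwa [sub_add_cancel] at this
  refine h.cn (u - 1) u (u + k) (by omega) (by omega) (by omega) h4 h3 fun m m1 m2 m3 => ?_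
  have hu2 : k ∣ v - (u - 1) := by
    have e : v - (u - 1) = -(u - 1 - v) := by ring
    rw [e]; exact (dvd_neg).2 hu'
  have h5 := (row_eq hk0 hn0 hw hu2 h0' (o := m - (u - 1)) ⟨by omega, by omega, by
    have e : u - 1 + (m - (u - 1)) = m := by ring
    rw [e]; exact m3⟩).2.2
  exact h1 _ (by omega) (by omega) h5

/-- The minimum of the laps. -/
theorem exists_min (k : ℤ) (hk : 0 < k) (n : ℕ) (r : ℤ → ℤ → Prop) :
    ∃ v, ∀ w, El k n r v ≤ El k n r w := by
  obtain ⟨v, hv⟩ := WellFounded.has_min (measure fun v => (El k n r v).toNat).wf Set.univ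
    ⟨0, trivial⟩
  refine ⟨v, fun w => ?_⟩
  have h1 := hv.2 w trivial
  have h2 := El_nonneg (n := n) (r := r) hk w
  have h3 := El_nonneg (n := n) (r := r) hk v
  have h4 : ¬ (El k n r w).toNat < (El k n r v).toNat := h1
  omega

/-- The laps of a vertex, split at a gap. -/
theorem El_split (hk : 0 < k) {v s t : ℤ} (h1 : v < s) (h2 : s < t) (h3 : t < v + n)
    (hs : r v s) (ht : r v t) (hg : ∀ m, s < m → m < t → ¬ r v m) :
    El k n r v = lq k (r v) v s + (t - 1 - s) / k + lq k (r v) t (v + n) := by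
  have e1 := lp_split (P := r v) (Ctr.id hk) (a := v) (s := s) (b := v + n) h1 (by omega)
    (V_id.2 hs)
  have e2 := lp_split (P := r v) (Ctr.id hk) (a := s) (s := t) (b := v + n) h2 h3 (V_id.2 ht)
  have e3 := lp_gap (q := k) (c := fun z => z) (P := r v) (a := s) (b := t) h2
    fun m m1 m2 m3 => hg m m1 m2 m3.1
  show lp k (fun z => z) (r v) v (v + n) = _
  rw [e1, e2, e3, add_assoc]

/-- The laps of the mirror image. -/
theorem El_mirror (hk : 0 < k) (hz : ZR n r) (v : ℤ) :
    El k n (mirror r) v = El k n r (-v) := by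
  show lp k (fun z => z) (mirror r v) v (v + n) = lp k (fun z => z) (r (-v)) (-v) (-v + n)
  rw [lp_mirror_id hk (-v) (-v + n)]
  -- shift by `n`
  have key : ∀ (Q Q' : ℤ → Prop) (a d : ℤ) (j : ℕ), (∀ z, Q (z + d) ↔ Q' z) → ∀ x,
      W k (fun z => z) Q x (a + d) j = W k (fun z => z) Q' x a j := by
    intro Q Q' a d j hQ x
    induction j with
    | zero => rfl
    | succ j ih =>
      have e : a + d + j + 1 = a + j + 1 + d := by ring
      have hV : V (fun z => z) Q (a + d + j + 1) ↔ V (fun z => z) Q' (a + j + 1) := by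
        rw [V_id, V_id, e, hQ]
      by_cases hv : V (fun z => z) Q' (a + j + 1)
      · rw [W_vis hv, W_vis (hV.2 hv), ih]
      · rw [W_hid hv, W_hid (fun h => hv (hV.1 h)), ih]
        ring
  have e1 : -(-v + (n : ℤ)) = v + -n := by ring
  rw [e1, neg_neg]
  unfold lp
  have e2 : (v - 1 - (v + -(n : ℤ))).toNat = (v + n - 1 - v).toNat := by congr 1; ring
  rw [e2, key (fun z => r (-v) (-z)) (mirror r v) v (-n) _ ?_ 0]
  intro z
  have e3 : -(z + -(n : ℤ)) = -z + n := by ring
  show r (-v) (-(z + -(n : ℤ))) ↔ r (-v) (-z)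
  rw [e3]
  exact hz.perR _ _

/-- The remaining statement: not all vertices have a lap. -/
def MinL : Prop :=
  ∀ (n : ℕ) (k : ℤ) (r : ℤ → ℤ → Prop), ZRel n r → 2 ≤ k → k ∣ n → 4 * k ≤ n → Wd n k r →
    (∀ v, 1 ≤ El k n r v) → False

/-- `MinL` implies that some class is linked. -/
theorem linked_of_minL (H : MinL) : ∀ (n : ℕ) (k : ℤ) (r : ℤ → ℤ → Prop), ZRel n r → 0 < k →
    k ∣ n → k < n → Wd n k r → Lkd k r :=
  linked_of fun n k r h hk hd h4 hw hnl =>
    H n k r h hk hd h4 hw fun v => one_le h hk (by omega) hw hnl v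

end Laps

end VisMap
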