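import Pool.Agent.Lib.MP_9f3af0_lc.Pocket
import Pool.Agent.Lib.MP_9f3af0_lc.Thin

/-!
# MP_9f3af0_lc: the parts of the viewers with few laps are longer than `k` (helper14, helper74)

`M`: a set of vertices, invariant under `k`, that contains every vertex with at most one lap.
If every vertex has a lap, then some viewer in `M` has a part (pocket) of length greater than `k`.
-/

namespace VisMap

namespace Laps

open Cut

variable {n : ℕ} {k : ℤ} {r : ℤ → ℤ → Prop}

/-- An interval `[x, y]` that is hidden from the viewer `u` and from everything between `y + 1` and `u`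
lies in one part of `u`. -/
theorem hid_le (h : ZRel n r) {V : ℤ → Prop} {Λ : ℤ} (hV : ∀ a, V (a + n) ↔ V a)
    (hB : PB n r V Λ) {u x y : ℤ} (hu : V u) (h1 : u - n < x) (h2 : x ≤ y) (h3 : y + 1 < u)
    (hh : ∀ a b, y + 1 < a → a ≤ u → x ≤ b → b ≤ y → ¬ r a b) : y + 1 - x ≤ Λ := by
  have hz := ZR.of_zRel h
  have hper : ∀ a b, r (a - n) b ↔ r a b := fun a b => by
    rw [← h.per (a - n) b, sub_add_cancel]
  have hu1 : r u (u - 1) := hz.pred u
  have hu2 : r u (u - n + 1) := by
    have := h.succ (u - n)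
    exact (hper u _).1 this
  obtain ⟨t, t1, t2, t3, t4⟩ := VisMap.exists_first (p := fun z => r u z) (a := y + 1) (b := u - 1)
    (by omega) hu1
  rcases t1.lt_or_eq with t1 | rfl
  · have hx : u - n + 1 < x := by
      by_contra hlt
      have e : x = u - n + 1 := by omega
      exact hh u x (by omega) le_rfl le_rfl h2 (by rw [e]; exact hu2)
    obtain ⟨s, s1, s2, s3, s4⟩ := VisMap.exists_last (p := fun z => r u z) (a := u - n + 1)
      (b := x - 1) (by omega) hu2
    have hgap : ∀ m, s < m → m < t → ¬ r u m := by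
      intro m m1 m2
      rcases le_or_gt m (x - 1) with h5 | h5
      · exact s4 m m1 h5
      · rcases le_or_gt m y with h6 | h6
        · exact hh u m (by omega) le_rfl (by omega) h6
        · exact t4 m (by omega) m2
    obtain ⟨c, c1, c2, c3, c4⟩ := h.nc (u - n) s t (by omega) (by omega) (by omega)
      ((hper u s).2 s3) ((hper u t).2 t3) fun m m1 m2 m3 => hgap m m1 m2 ((hper u m).1 m3)
    rcases le_or_gt (y + 1) c with h5 | h5
    · have hP : LP n r (u - n) s c :=
        ⟨by omega, by omega, by omega, (hper u s).2 s3, fun a b a1 a2 b1 b2 => c3 a b a1 a2 b1 b2⟩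
      have hVu : V (u - n) := by
        rw [← hV, sub_add_cancel]; exact hu
      have := (hB _ _ _ hVu).1 hP
      omega
    · have hP : RP n r u t x := by
        refine ⟨by omega, by omega, by omega, t3, fun a b a1 a2 b1 b2 => ?_⟩
        rcases le_or_gt b y with h6 | h6
        · exact hh a b (by omega) a2 b1 h6
        · exact c4 a b (by omega) (by omega) (by omega) b2
      have := (hB _ _ _ hu).2 hP
      omega
  · have hP : RP n r u (y + 1) x :=
      ⟨h3, by omega, h1, t3, fun a b a1 a2 b1 b2 => hh a b a1 a2 b1 (by omega)⟩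
    have := (hB _ _ _ hu).2 hP
    omega

/-- The mirror image of `hid_le`. -/
theorem hid_le' (h : ZRel n r) {V : ℤ → Prop} {Λ : ℤ} (hV : ∀ a, V (a + n) ↔ V a)
    (hB : PB n r V Λ) {u x y : ℤ} (hu : V u) (h1 : u < x - 1) (h2 : x ≤ y) (h3 : y < u + n)
    (hh : ∀ a b, u ≤ a → a < x - 1 → x ≤ b → b ≤ y → ¬ r a b) : y + 1 - x ≤ Λ := by
  have := hid_le h.mirror (V := fun z => V (-z)) (Λ := Λ) (u := -u) (x := -y) (y := -x)
    (fun a => by
      have e : -(a + (n : ℤ)) = -a - n := by ring
      show V (-(a + n)) ↔ V (-a)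
      rw [e, ← hV (-a - n), sub_add_cancel])
    hB.mirror (by show V (- -u); rwa [neg_neg]) (by omega) (by omega) (by omega)
    fun a b a1 a2 b1 b2 hab => hh (-a) (-b) (by omega) (by omega) (by omega) (by omega) hab
  omega

/-- A viewer in `V` inside a part that is hidden from `[v, p)`: the corner is near. -/
theorem near_le (h : ZRel n r) {V : ℤ → Prop} {Λ : ℤ} (hV : ∀ a, V (a + n) ↔ V a)
    (hB : PB n r V Λ) {u v p : ℤ} (hu : V u) (h1 : v < p) (h2 : p < u) (h3 : u < v + n)
    (hh : ∀ a b, v ≤ a → a < p → p < b → b ≤ u → ¬ r a b) : p - v ≤ Λ := by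
  have := hid_le h hV hB (u := u) (x := v) (y := p - 1) hu (by omega) (by omega) (by omega)
    fun a b a1 a2 b1 b2 hab => hh b a b1 (by omega) (by omega) a2 (h.symm _ _ hab)
  omega

/-- The mirror image of `near_le`. -/
theorem near_le' (h : ZRel n r) {V : ℤ → Prop} {Λ : ℤ} (hV : ∀ a, V (a + n) ↔ V a)
    (hB : PB n r V Λ) {u v p : ℤ} (hu : V u) (h1 : p < v) (h2 : u < p) (h3 : v - n < u)
    (hh : ∀ a b, p < a → a ≤ v → u ≤ b → b < p → ¬ r a b) : v - p ≤ Λ := by
  have := hid_le' h hV hB (u := u) (x := p + 1) (y := v) hu (by omega) (by omega) (by omega)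
    fun a b a1 a2 b1 b2 hab => hh b a (by omega) b2 a1 (by omega) (h.symm _ _ hab)
  omega

/-- The setting: `M` is a union of classes that contains all vertices with at most one lap, every
vertex has a lap, and the parts of the viewers in `M` have length at most `Λ ≤ k`. -/
structure SCtx (n : ℕ) (k Λ : ℤ) (r : ℤ → ℤ → Prop) (M : ℤ → Prop) : Prop where
  zr : ZRel n r
  kpos : 0 < k
  dvd : k ∣ n
  mper : ∀ a, M (a + k) ↔ M a
  one : ∀ v, 1 ≤ El k n r v
  mem : ∀ v, El k n r v ≤ 1 → M v
  pb : PB n r M Λ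
  le : Λ ≤ k

namespace SCtx

variable {Λ : ℤ} {M : ℤ → Prop}

theorem per_n (C : SCtx n k Λ r M) (a : ℤ) : M (a + n) ↔ M a := by
  obtain ⟨j, hj⟩ := C.dvd
  rw [hj]
  have key : ∀ j : ℕ, ∀ a, M (a + k * j) ↔ M a := by
    intro j
    induction j with
    | zero => intro a; simp
    | succ j ih =>
      intro a
      have e : a + k * ((j + 1 : ℕ) : ℤ) = a + k * j + k := by push_cast; ring
      rw [e, C.mper, ih]
  have h1 := key j.toNat
  have h2 := key (-j).toNat
  rcases le_or_gt 0 j with h | h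
  · have e : ((j.toNat : ℕ) : ℤ) = j := by omega
    have := h1 a
    rwa [e] at this
  · have e : (((-j).toNat : ℕ) : ℤ) = -j := by omega
    have := h2 (a + k * j)
    rw [e] at this
    have e2 : a + k * j + k * -j = a := by ring
    rw [e2] at this
    exact this.symm

/-- Every block of `k` vertices contains a vertex of `M`. -/
theorem block (C : SCtx n k Λ r M) {m : ℤ} (hm : M m) (s : ℤ) : ∃ z, s < z ∧ z ≤ s + k ∧ M z := by
  have hk := C.kpos
  have key : ∀ j : ℕ, ∀ a, M (a + k * j) ↔ M a := by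
    intro j
    induction j with
    | zero => intro a; simp
    | succ j ih =>
      intro a
      have e : a + k * ((j + 1 : ℕ) : ℤ) = a + k * j + k := by push_cast; ring
      rw [e, C.mper, ih]
  have key' : ∀ (j : ℤ) a, M (a + k * j) ↔ M a := by
    intro j a
    rcases le_or_gt 0 j with h | h
    · obtain ⟨i, rfl⟩ : ∃ i : ℕ, j = i := ⟨j.toNat, by omega⟩
      exact key i a
    · obtain ⟨i, hi⟩ : ∃ i : ℕ, j = -i := ⟨(-j).toNat, by omega⟩
      have := key i (a + k * j)
      rw [hi] at this ⊢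
      have e2 : a + k * -(i : ℤ) + k * i = a := by ring
      rw [e2] at this
      exact this.symm
  refine ⟨m + k * ((s + k - m) / k), ?_, ?_, (key' _ _).2 hm⟩
  · have := Int.emod_add_mul_ediv (s + k - m) k
    have := Int.emod_lt_of_pos (s + k - m) hk
    omega
  · have := Int.emod_add_mul_ediv (s + k - m) k
    have := Int.emod_nonneg (s + k - m) hk.ne'
    omega

theorem mirror (C : SCtx n k Λ r M) : SCtx n k Λ (VisMap.mirror r) (fun z => M (-z)) where
  zr := C.zr.mirror
  kpos := C.kpos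
  dvd := C.dvd
  mper a := by
    have e : -(a + k) = -a - k := by ring
    show M (-(a + k)) ↔ M (-a)
    rw [e, ← C.mper (-a - k), sub_add_cancel]
  one v := by
    rw [El_mirror C.kpos (ZR.of_zRel C.zr)]
    exact C.one _
  mem v hv := by
    rw [El_mirror C.kpos (ZR.of_zRel C.zr)] at hv
    exact C.mem _ hv
  pb := C.pb.mirror
  le := C.le

end SCtx

/-- A gap `(p, q)` with a lap of the viewer `v ∈ M`, with a vertex of `M` in its forward part. -/
structure FT (n : ℕ) (k : ℤ) (r : ℤ → ℤ → Prop) (M : ℤ → Prop) (v p q : ℤ) : Prop where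
  mem : M v
  vp : v < p
  pq : p + k < q
  qn : q < v + n
  visp : r v p
  visq : r v q
  hid : ∀ m, p < m → m < q → ¬ r v m
  ex : ∃ u, p < u ∧ u < q ∧ M u ∧ ∀ x y, v ≤ x → x < p → p < y → y ≤ u → ¬ r x y

/-- A cut of a gap with a maximal forward part. -/
theorem max_cut (h : ZRel n r) {v p q u : ℤ} (h1 : v < p) (h2 : p ≤ u) (h3 : u < q)
    (h4 : q < v + n) (hp : r v p) (hq : r v q) (hh : ∀ m, p < m → m < q → ¬ r v m)
    (hu : ∀ x y, v ≤ x → x < p → p < y → y ≤ u → ¬ r x y) :
    ∃ c, u ≤ c ∧ c < q ∧ (∀ x y, v ≤ x → x < p → p < y → y ≤ c → ¬ r x y) ∧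
      (∀ x y, q < x → x ≤ v + n → c < y → y < q → ¬ r x y) ∧ r p (c + 1) := by
  obtain ⟨c0, a1, a2, a3, a4⟩ := h.nc v p q h1 (by omega) h4 hp hq hh
  obtain ⟨c1, b1, b2, b3, b4⟩ : ∃ c1, u ≤ c1 ∧ c0 ≤ c1 ∧ c1 < q ∧
      ∀ x y, v ≤ x → x < p → p < y → y ≤ c1 → ¬ r x y := by
    rcases le_or_gt u c0 with h5 | h5
    · exact ⟨c0, h5, le_rfl, a2, fun x y x1 x2 y1 y2 => a3 x y x1 x2 y1 y2⟩
    · exact ⟨u, le_rfl, h5.le, h3, hu⟩
  obtain ⟨c, d1, d2, d3, d4⟩ := VisMap.exists_last
    (p := fun c => ∀ x y, v ≤ x → x < p → p < y → y ≤ c → ¬ r x y) (a := c1) (b := q - 1)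
    (by omega) b4
  refine ⟨c, by omega, by omega, d3, fun x y x1 x2 y1 y2 => a4 x y x1 x2 (by omega) y2, ?_⟩
  rcases d2.lt_or_eq with d2 | d2
  · have h5 := d4 (c + 1) (by omega) (by omega)
    push Not at h5
    obtain ⟨x, y, x1, x2, y1, y2, hxy⟩ := h5
    have hy : y = c + 1 := by
      by_contra hne
      exact d3 x y x1 x2 y1 (by omega) hxy
    subst hy
    rcases (by omega : p = c ∨ p < c) with rfl | h6
    · exact h.succ p
    · have hP : LP n r v p c := ⟨h1, h6, by omega, hp, d3⟩
      exact hP.vis_end h x1 x2 (by omega) hxy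
  · have e : c + 1 = q := by omega
    rw [e]
    exact h.cn v p q h1 (by omega) h4 hp hq hh

section step

variable {Λ : ℤ} {M : ℤ → Prop}

/-- A gap with a lap of the corner `p`, beyond the gap `(p, q)` of `v`. -/
theorem far_gap (C : SCtx n k Λ r M) {v p q c s t : ℤ} (hv : M v) (h1 : v < p) (h2 : p + k < q)
    (h3 : q < v + n) (hvh : ∀ m, p < m → m < q → ¬ r v m)
    (hF : ∀ x y, v ≤ x → x < p → p < y → y ≤ c → ¬ r x y)
    (hB : ∀ x y, q < x → x ≤ v + n → c < y → y < q → ¬ r x y)
    (h4 : q ≤ s) (h5 : s + k < t) (h6 : t ≤ v + n) (hs : r p s) (ht : r p t)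
    (hg : ∀ m, s < m → m < t → ¬ r p m) :
    t < v + n ∧ p + n - t ≤ Λ ∧ t - s ≤ 2 * k ∧
      ∃ u, s < u ∧ u < t ∧ M u ∧ ∀ x y, t < x → x ≤ p + n → u ≤ y → y < t → ¬ r x y := by
  have h := C.zr
  have hz := ZR.of_zRel h
  have hk := C.kpos
  have hle := C.le
  have hn := C.per_n
  have hper : ∀ a b, r (a - n) b ↔ r a b := fun a b => by
    rw [← h.per (a - n) b, sub_add_cancel]
  obtain ⟨c', a1, a2, a3, a4⟩ := h.nc p s t (by omega) (by omega) (by omega) hs ht hg
  -- no vertex of `M` in the forward part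
  have hno : ∀ z, s < z → z ≤ c' → ¬ M z := by
    intro z z1 z2 hzM
    have := near_le h hn C.pb (u := z) (v := p) (p := s) hzM (by omega) z1 (by omega)
      fun a b b1 b2 b3 b4 => a3 a b b1 b2 b3 (by omega)
    omega
  have hc' : c' < s + k := by
    by_contra hlt
    obtain ⟨z, z1, z2, z3⟩ := C.block hv s
    exact hno z z1 (by omega) z3
  obtain ⟨u, u1, u2, u3⟩ := C.block hv s
  have u4 : c' < u := by
    by_contra hlt
    exact hno u u1 (by omega) u3
  have hex : ∀ x y, t < x → x ≤ p + n → u ≤ y → y < t → ¬ r x y :=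
    fun x y x1 x2 y1 y2 => a4 x y x1 x2 (by omega) y2
  have h7 : t < v + n := by
    by_contra hlt
    have ht' : t = v + n := by omega
    -- all rows of `(c' - n, v)` hide `(v, q)`
    have key : ∀ w, c' - n < w → w < v → ∀ y, v < y → y < q → ¬ r w y := by
      by_contra hcon
      push Not at hcon
      obtain ⟨w0, w1, w2, y0, w3, w4, w5⟩ := hcon
      obtain ⟨w, e1, e2, ⟨e0, e3⟩, e4⟩ := VisMap.exists_last
        (p := fun w => w < v ∧ ∃ y, v < y ∧ y < q ∧ r w y) (a := w0) (b := v - 1) (by omega)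
        ⟨w2, y0, w3, w4, w5⟩
      obtain ⟨y1, f1, f2, f3⟩ := e3
      obtain ⟨y, g1, g2, g3, g4⟩ := VisMap.exists_first (p := fun y => r w y) (a := v + 1)
        (b := y1) (by omega) f3
      have hwn : r (w + n) y := (h.per w y).2 g3
      have hyp : p < y := by
        by_contra hlt
        -- `y ∈ (v, p]` is hidden from `(c', v + n)`
        have h8 := a4 (y + n) (w + n) (by omega) (by omega) (by omega) (by omega)
        exact h8 ((h.per _ _).2 (h.symm _ _ hwn))
      have hyc : y ≤ c := by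
        by_contra hlt
        exact hB (w + n) y (by omega) (by omega) (by omega) (by omega) hwn
      have hw1 : r w (w + 1) := h.succ w
      obtain ⟨x, i1, i2, i3, i4⟩ := VisMap.exists_last (p := fun x => r w x) (a := w + 1)
        (b := v) (by omega) hw1
      have hxy : r x y := h.cn w x y (by omega) (by omega) (by omega) i3 g3 fun m m1 m2 m3 => by
        rcases le_or_gt m v with h8 | h8
        · exact i4 m m1 h8 m3
        · exact g4 m (by omega) m2 m3
      rcases i2.lt_or_eq with i2 | rfl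
      · exact e4 x (by omega) (by omega) ⟨i2, y, by omega, by omega, hxy⟩
      · exact hvh y hyp (by omega) hxy
    have hu' : M (u - n) := by
      rw [← hn, sub_add_cancel]; exact u3
    have := hid_le' h hn C.pb (u := u - n) (x := v + 1) (y := q - 1) hu' (by omega) (by omega)
      (by omega) fun a b a1 a2 b1 b2 => by
        exact key a (by omega) (by omega) b (by omega) (by omega)
    omega
  have h8 : p + n - t ≤ Λ := by
    refine near_le' h hn C.pb (u := u) (v := p + n) (p := t) u3 (by omega) (by omega) (by omega) ?_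
    intro a b a1 a2 b1 b2
    exact hex a b a1 a2 b1 b2
  refine ⟨h7, h8, ?_, u, u1, by omega, u3, hex⟩
  have hvn : M (v + n) := (hn v).2 hv
  have := hid_le h hn C.pb (u := v + n) (x := c' + 1) (y := t - 1) hvn (by omega) (by omega)
    (by omega) fun a b a1 a2 b1 b2 => a4 a b (by omega) (by omega) (by omega) (by omega)
  omega

/-- The corner of a gap of type `FT` is in `M` and has a gap with a lap on the other side, with a
larger near distance. -/
theorem FT.step (C : SCtx n k Λ r M) {v p q : ℤ} (hT : FT n k r M v p q) :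
    ∃ s t u, M p ∧ q ≤ s ∧ s + k < t ∧ t < v + n ∧ r p s ∧ r p t ∧
      (∀ m, s < m → m < t → ¬ r p m) ∧ s < u ∧ u < t ∧ M u ∧
      ∀ x y, t < x → x ≤ p + n → u ≤ y → y < t → ¬ r x y := by
  have h := C.zr
  have hz := ZR.of_zRel h
  have hk := C.kpos
  have hle := C.le
  have hn := C.per_n
  obtain ⟨hv, h1, h2, h3, hp, hq, hh, u, u1, u2, u3, u4⟩ := hT
  have hnear : p - v ≤ Λ := near_le h hn C.pb u3 h1 u1 (by omega) u4
  obtain ⟨c, c1, c2, hF, hB, hpc⟩ := max_cut h h1 u1.le u2 h3 hp hq hh u4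
  have hcp : c - p ≤ Λ := (C.pb _ _ _ hv).1 ⟨h1, by omega, by omega, hp, hF⟩
  have hqc : q - (c + 1) ≤ Λ := by
    rcases (by omega : c + 1 = q ∨ c + 1 < q) with h5 | h5
    · have : (0 : ℤ) < Λ := by omega
      omega
    · have := hid_le h hn C.pb (u := v + n) (x := c + 1) (y := q - 1) ((hn v).2 hv) (by omega)
        (by omega) (by omega) fun a b a1 a2 b1 b2 => hB a b (by omega) a2 (by omega) (by omega)
      omega
  have hpq : r p q := h.cn v p q h1 (by omega) h3 hp hq hh
  have hpv : r p (v + n) := (hz.perR _ _).2 (h.symm _ _ hp)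
  have hC := Ctr.id hk
  -- the laps of `p`
  have e1 : El k n r p = lq k (r p) p (c + 1) + lq k (r p) (c + 1) q + lq k (r p) q (v + n) +
      lq k (r p) (v + n) (p + n) := by
    have f1 := lp_split' (P := r p) hC (a := p) (s := c + 1) (b := p + n) (by omega) (by omega)
      (Or.inr (V_id.2 hpc))
    have f2 := lp_split' (P := r p) hC (a := c + 1) (s := q) (b := p + n) (by omega) (by omega)
      (Or.inr (V_id.2 hpq))
    have f3 := lp_split' (P := r p) hC (a := q) (s := v + n) (b := p + n) (by omega) (by omega)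
      (Or.inr (V_id.2 hpv))
    show lp k (fun z => z) (r p) p (p + n) = _
    rw [f1, f2, f3]; ring
  have z1 : lq k (r p) p (c + 1) ≤ 0 := by
    have := lp_card_le (P := r p) hC (a := p) (b := c + 1) (by omega) {p + 1} fun s hs => by
      rw [Finset.mem_singleton] at hs
      subst hs
      exact ⟨by omega, by omega, V_id.2 (h.succ p)⟩
    rw [Finset.card_singleton] at this
    by_contra hlt
    have h9 : k * 1 ≤ k * lq k (r p) p (c + 1) := mul_le_mul_of_nonneg_left (by omega) hk.le
    have h10 : k * lq k (r p) p (c + 1) + ((1 : ℕ) : ℤ) ≤ c + 1 - 1 - p := this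
    push_cast at h10
    omega
  have small : ∀ a b, a < b → b - a ≤ k → lq k (r p) a b ≤ 0 := by
    intro a b hab hle'
    have := lp_le (P := r p) hC hab
    have h9 : (b - 1 - a) / k = 0 := Int.ediv_eq_zero_of_lt (by omega) (by omega)
    rw [h9] at this
    exact this
  have z2 : lq k (r p) (c + 1) q ≤ 0 := by
    rcases (by omega : c + 1 = q ∨ c + 1 < q) with h5 | h5
    · rw [h5]; exact (lp_self).le
    · exact small _ _ h5 (by omega)
  have z4 : lq k (r p) (v + n) (p + n) ≤ 0 := small _ _ (by omega) (by omega)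
  have hone := C.one p
  have z3 : 0 < lq k (r p) q (v + n) := by omega
  obtain ⟨s0, t0, g1, g2, g3, g4, g5⟩ := exists_of_lp_pos hC z3
  have g4 : t0 - s0 = k := g4
  obtain ⟨s, s1, s2, s3, s4⟩ := VisMap.exists_last (p := fun z => r p z) (a := q) (b := s0) g1 hpq
  obtain ⟨t, t1, t2, t3, t4⟩ := VisMap.exists_first (p := fun z => r p z) (a := t0 + 1)
    (b := v + n) (by omega) hpv
  have hgap : ∀ m, s < m → m < t → ¬ r p m := by
    intro m m1 m2 m3
    rcases le_or_gt m s0 with h5 | h5
    · exact s4 m m1 h5 m3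
    · rcases le_or_gt m t0 with h6 | h6
      · exact g5 m h5 h6 (V_id.2 m3)
      · exact t4 m (by omega) m2 m3
  obtain ⟨k1, k2, k3, u', k4, k5, k6, k7⟩ := far_gap C hv h1 h2 h3 hh hF hB s1 (by omega) t2 s3 t3
    hgap
  -- only one such gap
  have y1 : lq k (r p) q s ≤ 0 := by
    by_contra hlt
    obtain ⟨s0', t0', g1', g2', g3', g4', g5'⟩ := exists_of_lp_pos hC (by omega : 0 < lq k (r p) q s)
    have g4' : t0' - s0' = k := g4'
    obtain ⟨s', s1', s2', s3', s4'⟩ := VisMap.exists_last (p := fun z => r p z) (a := q)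
      (b := s0') g1' hpq
    obtain ⟨t', t1', t2', t3', t4'⟩ := VisMap.exists_first (p := fun z => r p z) (a := t0' + 1)
      (b := s) (by omega) s3
    have hgap' : ∀ m, s' < m → m < t' → ¬ r p m := by
      intro m m1 m2 m3
      rcases le_or_gt m s0' with h5 | h5
      · exact s4' m m1 h5 m3
      · rcases le_or_gt m t0' with h6 | h6
        · exact g5' m h5 h6 (V_id.2 m3)
        · exact t4' m (by omega) m2 m3
    have := far_gap C hv h1 h2 h3 hh hF hB s1' (by omega) (by omega) s3' t3' hgap'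
    omega
  have y2 : lq k (r p) s t ≤ 1 := by
    have := lp_le (P := r p) hC (a := s) (b := t) (by omega)
    have h9 : (t - 1 - s) / k ≤ 1 := by
      have : (t - 1 - s) / k < 2 := Int.ediv_lt_of_lt_mul hk (by omega)
      omega
    exact this.trans h9
  have y3 : lq k (r p) t (v + n) ≤ 0 := small _ _ k1 (by omega)
  have e2 : lq k (r p) q (v + n) = lq k (r p) q s + lq k (r p) s t + lq k (r p) t (v + n) := by
    have f1 := lp_split' (P := r p) hC (a := q) (s := s) (b := v + n) s1 (by omega)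
      (Or.inr (V_id.2 s3))
    have f2 := lp_split' (P := r p) hC (a := s) (s := t) (b := v + n) (by omega) (by omega)
      (Or.inr (V_id.2 t3))
    show lp k (fun z => z) (r p) q (v + n) = _
    rw [f1, f2]; ring
  exact ⟨s, t, u', C.mem p (by omega), s1, by omega, k1, s3, t3, hgap, k4, k5, k6, k7⟩

/-- A gap of the other type is a gap of type `FT` of the mirror image. -/
theorem FT.of_right (h : ZRel n r) (hn : ∀ a, M (a + n) ↔ M a) {p s t u : ℤ} (hp : M p)
    (h1 : p < s) (h2 : s + k < t) (h3 : t < p + n) (hs : r p s) (ht : r p t)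
    (hg : ∀ m, s < m → m < t → ¬ r p m) (h4 : s < u) (h5 : u < t) (hu : M u)
    (h6 : ∀ x y, t < x → x ≤ p + n → u ≤ y → y < t → ¬ r x y) :
    FT n k (VisMap.mirror r) (fun z => M (-z)) (-(p + n)) (-t) (-s) := by
  have hz := ZR.of_zRel h
  refine ⟨?_, by omega, by omega, by omega, ?_, ?_, fun m m1 m2 m3 => ?_, -u, by omega, by omega,
    ?_, fun x y x1 x2 y1 y2 hxy => ?_⟩
  · show M (- -(p + n))
    rw [neg_neg]; exact (hn p).2 hp
  · show r (- -(p + n)) (- -t)
    rw [neg_neg, neg_neg]; exact (h.per _ _).2 ht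
  · show r (- -(p + n)) (- -s)
    rw [neg_neg, neg_neg]; exact (h.per _ _).2 hs
  · have m3 : r (- -(p + n)) (-m) := m3
    rw [neg_neg, h.per] at m3
    exact hg (-m) (by omega) (by omega) m3
  · show M (- -u)
    rw [neg_neg]; exact hu
  · exact h6 (-x) (-y) (by omega) (by omega) (by omega) (by omega) hxy

theorem no_FT : ∀ N : ℕ, ∀ (r : ℤ → ℤ → Prop) (M : ℤ → Prop), SCtx n k Λ r M →
    ∀ v p q : ℤ, Λ < p - v + N → ¬ FT n k r M v p q := by
  intro N
  induction N with
  | zero =>
    intro r M C v p q h1 hT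
    obtain ⟨hv, h1', h2, h3, hp, hq, hh, u, u1, u2, u3, u4⟩ := hT
    have := near_le C.zr C.per_n C.pb u3 h1' u1 (by omega) u4
    push_cast at h1
    omega
  | succ N ih =>
    intro r M C v p q h1 hT
    obtain ⟨s, t, u, a1, a2, a3, a4, a5, a6, a7, a8, a9, a10, a11⟩ := hT.step C
    have hvp := hT.vp
    have hpq := hT.pq
    have hk := C.kpos
    refine ih _ _ C.mirror (-(p + n)) (-t) (-s) ?_ (FT.of_right C.zr C.per_n a1 (by omega) a3
      (by omega) a5 a6 a7 a8 a9 a10 a11)
    push_cast at h1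
    omega

end step

/-- Some viewer in `M` has a part of length greater than `k`: the parts of the viewers in `M` are not
all of length at most `k`. -/
theorem not_pb (h : ZRel n r) (hk : 0 < k) (hd : k ∣ n) {M : ℤ → Prop} (hM : ∀ a, M (a + k) ↔ M a)
    (h1 : ∀ v, 1 ≤ El k n r v) (h2 : ∀ v, El k n r v ≤ 1 → M v) {v₀ : ℤ} (h0 : M v₀) :
    ¬ PB n r M k := by
  intro hB
  have C : SCtx n k k r M := ⟨h, hk, hd, hM, h1, h2, hB, le_rfl⟩
  obtain ⟨s, t, s1, s2, s3, s4, s5, s6⟩ := exists_gap h hk (v := v₀) (by have := h1 v₀; omega)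
  obtain ⟨c, c1, c2, c3, c4⟩ := h.nc v₀ s t s1 (by omega) s3 s4 s5 s6
  obtain ⟨u, u1, u2, u3⟩ := C.block h0 s
  rcases le_or_gt u c with h5 | h5
  · exact no_FT (k + 1).toNat r M C v₀ s t (by omega) ⟨h0, s1, s2, s3, s4, s5, s6, u, u1, by omega, u3,
      fun x y x1 x2 y1 y2 => c3 x y x1 x2 y1 (by omega)⟩
  · refine no_FT (k + 1).toNat _ _ C.mirror (-(v₀ + n)) (-t) (-s) (by omega)
      (FT.of_right h C.per_n h0 s1 s2 s3 s4 s5 s6 u1 (by omega) u3 fun x y x1 x2 y1 y2 => ?_)
    exact c4 x y x1 x2 (by omega) y2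

/-- If every vertex has a lap, then some vertex with the least number of laps has a part of length
greater than `k`. -/
theorem exists_long_part (h : ZRel n r) (hk : 0 < k) (hd : k ∣ n) (hw : Wd n k r)
    (h1 : ∀ v, 1 ≤ El k n r v) {L : ℤ} (hL : ∀ v, L ≤ El k n r v) {v₀ : ℤ}
    (h0 : El k n r v₀ = L) :
    ∃ v p c, El k n r v = L ∧ ((LP n r v p c ∧ k < c - p) ∨ (RP n r v p c ∧ k < p - c)) := by
  by_contra hno
  push Not at hno
  have hn : 0 < n := by
    rcases Nat.eq_zero_or_pos n with rfl | hn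
    · have := h1 0
      unfold El E at this
      rw [Nat.cast_zero, add_zero, lp_self] at this
      omega
    · exact hn
  refine not_pb h hk hd (M := fun v => El k n r v = L) (v₀ := v₀) (fun a => ?_) h1 (fun v hv => ?_)
    h0 (fun v p c hv => ?_)
  · show El k n r (a + k) = L ↔ El k n r a = L
    rw [← El_eq hk hn hw (v := a) (v' := a + k) (by simp)]
  · have := hL v
    have := h1 v₀
    show El k n r v = L
    omega
  · exact ⟨fun hP => (hno v p c hv).1 hP, fun hP => (hno v p c hv).2 hP⟩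

end Laps

end VisMap
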