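import Pool.Agent.Lib.MP_9f3af0_lc.Struct

/-!
# Sweeping a ray

`w` is a point off the line of the edge `j`, `h0` is a point of the open edge `j` such that the open segment
`(w, h0)` misses `T = TT N u`, and `e` is an end point of the edge `j`.  Turn the ray from `w` through `h0`
towards `e` until it meets a vertex.

Every point is uniquely `w + β (h0 - w) + γ (e - w)`.  Consider the vertices `u m`, `m < N`, `u m ≠ w`, in the
closed triangle (`β, γ ≥ 0`, `β + γ ≤ 1`); `e` is one of them (`e = u (j+1)` with `j + 1 = N` is `u 0`).  They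
have `γ > 0`: if `γ = 0` then `u m ∈ (w, h0]`, but `(w, h0)` misses `T` and `h0` is in the open edge `j`, not a
vertex.  Choose `m` with `τ = γ / (β + γ)` minimal, `c' = h0 + τ (e - h0)`; then `u m = w + (β + γ) (c' - w)`.
Claim: no point `x = w + β (h0 - w) + γ (c' - w)`, `β, γ > 0`, `β + γ < 1`, lies in `T`.  Let `B, G` be the
coordinates with respect to `h0 - w`, `c' - w` (affine functions) and suppose that `x` is on the edge
`k = [f, g]`.  `k ≠ j` because `B + G = 1` on the edge `j`.  One end point, say `g`, has `B g > 0`.  `g` is not in the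
closed triangle `B, G ≥ 0, B + G ≤ 1`: it would be a vertex `≠ w` with smaller `τ`
(`τ g = τ * G / (B + G) < τ`).  So `G g < 0` or `B g + G g > 1`.  Going from `x` to `g` (where `B > 0`
throughout), at the first point `y` with `G y = 0` or `B y + G y = 1` we have either `G y = 0`,
`0 < B y ≤ 1`, so `y ∈ (w, h0]`: `y ∈ T` contradicts that `(w, h0)` misses `T`, or `y = h0` is in the open edge `j`
and on the edge `k`, contradicting `open_edge`; or `B y + G y = 1`, `G y ≥ 0`, `B y > 0`, so `y ∈ [h0, c')`,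
which is in the open edge `j`: again a contradiction with `open_edge`.
(`g` is a vertex `u m'` with `m' < N`: for `k + 1 = N` use `u N = u 0`.)
-/

namespace VisMap

open Set

private theorem mem_open_iff {a b x : ℂ} :
    x ∈ openSegment ℝ a b ↔ ∃ θ : ℝ, 0 < θ ∧ θ < 1 ∧ x = a + (θ : ℂ) * (b - a) := by
  rw [openSegment_eq_image']
  constructor
  · rintro ⟨θ, hθ, rfl⟩
    exact ⟨θ, hθ.1, hθ.2, by simp⟩
  · rintro ⟨θ, h1, h2, rfl⟩
    exact ⟨θ, ⟨h1, h2⟩, by simp⟩

private theorem mem_seg_iff {a b x : ℂ} :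
    x ∈ segment ℝ a b ↔ ∃ θ : ℝ, 0 ≤ θ ∧ θ ≤ 1 ∧ x = a + (θ : ℂ) * (b - a) := by
  rw [segment_eq_image']
  constructor
  · rintro ⟨θ, hθ, rfl⟩
    exact ⟨θ, hθ.1, hθ.2, by simp⟩
  · rintro ⟨θ, h1, h2, rfl⟩
    exact ⟨θ, ⟨h1, h2⟩, by simp⟩

private theorem det_coord {p q : ℂ} (h : det p q ≠ 0) (y : ℂ) :
    y = ((det y q / det p q : ℝ) : ℂ) * p + ((det p y / det p q : ℝ) : ℂ) * q := by
  have h' : p.re * q.im - p.im * q.re ≠ 0 := h
  apply Complex.ext
  · simp only [det, Complex.add_re, Complex.re_ofReal_mul]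
    rw [div_mul_eq_mul_div, div_mul_eq_mul_div, ← add_div, eq_div_iff h']
    ring
  · simp only [det, Complex.add_im, Complex.im_ofReal_mul]
    rw [div_mul_eq_mul_div, div_mul_eq_mul_div, ← add_div, eq_div_iff h']
    ring

private theorem det_lin1 (p q : ℂ) (b c : ℝ) :
    det ((b : ℂ) * p + (c : ℂ) * q) q = b * det p q := by
  simp only [det, Complex.add_re, Complex.re_ofReal_mul, Complex.add_im, Complex.im_ofReal_mul]
  ring

private theorem det_lin2 (p q : ℂ) (b c : ℝ) :
    det p ((b : ℂ) * p + (c : ℂ) * q) = c * det p q := by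
  simp only [det, Complex.add_re, Complex.re_ofReal_mul, Complex.add_im, Complex.im_ofReal_mul]
  ring

private theorem coord_unique {p q : ℂ} (h : det p q ≠ 0) {b c b' c' : ℝ}
    (he : (b : ℂ) * p + (c : ℂ) * q = (b' : ℂ) * p + (c' : ℂ) * q) : b = b' ∧ c = c' := by
  have e1 := congrArg (fun y => det y q) he
  have e2 := congrArg (fun y => det p y) he
  simp only [det_lin1, det_lin2] at e1 e2
  exact ⟨mul_right_cancel₀ h e1, mul_right_cancel₀ h e2⟩

private theorem cross {β γ B G : ℝ} (hβ : 0 < β) (hγ : 0 < γ) (hs : β + γ < 1) (hB : 0 < B)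
    (hout : ¬ (0 ≤ G ∧ B + G ≤ 1)) :
    ∃ t : ℝ, 0 ≤ t ∧ t ≤ 1 ∧ 0 < β + t * (B - β) ∧ 0 ≤ γ + t * (G - γ) ∧
      ((γ + t * (G - γ) = 0 ∧ β + t * (B - β) < 1) ∨
        (β + t * (B - β)) + (γ + t * (G - γ)) = 1) := by
  have hpos : ∀ t : ℝ, 0 ≤ t → t ≤ 1 → 0 < β + t * (B - β) := by
    intro t h0 h1
    rcases eq_or_lt_of_le h1 with h2 | h2
    · rw [h2]; linarith
    · nlinarith [mul_pos (sub_pos.2 h2) hβ, mul_nonneg h0 hB.le]
  by_cases hG : 0 ≤ G
  · have h1 : 1 < B + G := by
      by_contra hc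
      exact hout ⟨hG, not_lt.1 hc⟩
    have hden : 0 < B + G - (β + γ) := by linarith
    have ht0 : 0 ≤ (1 - (β + γ)) / (B + G - (β + γ)) := div_nonneg (by linarith) hden.le
    have ht1 : (1 - (β + γ)) / (B + G - (β + γ)) ≤ 1 := by
      rw [div_le_one hden]; linarith
    have hsum : (1 - (β + γ)) / (B + G - (β + γ)) * (B + G - (β + γ)) = 1 - (β + γ) :=
      div_mul_cancel₀ _ hden.ne'
    refine ⟨_, ht0, ht1, hpos _ ht0 ht1, ?_, Or.inr ?_⟩
    · nlinarith [mul_nonneg (sub_nonneg.2 ht1) hγ.le, mul_nonneg ht0 hG]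
    · linear_combination hsum
  · have hG' : G < 0 := not_le.1 hG
    have hden : 0 < γ - G := by linarith
    have ht0 : 0 ≤ γ / (γ - G) := div_nonneg hγ.le hden.le
    have ht1 : γ / (γ - G) ≤ 1 := by
      rw [div_le_one hden]; linarith
    have hz : γ + γ / (γ - G) * (G - γ) = 0 := by
      have := div_mul_cancel₀ γ hden.ne'
      linear_combination -this
    by_cases hc : β + γ / (γ - G) * (B - β) < 1
    · exact ⟨_, ht0, ht1, hpos _ ht0 ht1, hz.ge, Or.inl ⟨hz, hc⟩⟩
    · have hc' := not_lt.1 hc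
      set t1 := γ / (γ - G) with ht1d
      have h2 : 1 - (β + γ) ≤ t1 * (B + G - (β + γ)) := by nlinarith
      have hden2 : 0 < B + G - (β + γ) := by
        by_contra hcon
        have := mul_nonneg ht0 (neg_nonneg.2 (not_lt.1 hcon))
        nlinarith
      have hr0 : 0 ≤ (1 - (β + γ)) / (B + G - (β + γ)) := div_nonneg (by linarith) hden2.le
      have hr1 : (1 - (β + γ)) / (B + G - (β + γ)) ≤ t1 := by
        rw [div_le_iff₀ hden2]; exact h2
      have hsum : (1 - (β + γ)) / (B + G - (β + γ)) * (B + G - (β + γ)) = 1 - (β + γ) :=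
        div_mul_cancel₀ _ hden2.ne'
      refine ⟨_, hr0, hr1.trans ht1, hpos _ hr0 (hr1.trans ht1), ?_, Or.inr ?_⟩
      · nlinarith [mul_nonneg (sub_nonneg.2 hr1) hden.le]
      · linear_combination hsum

theorem sweep {N : ℕ} {u : ℕ → ℂ} (h : SP N u) {w h0 e : ℂ} {j : ℕ} (hj : j < N)
    (hh : h0 ∈ openSegment ℝ (u j) (u (j + 1))) (he : e = u j ∨ e = u (j + 1))
    (hw : det (u (j + 1) - u j) (w - u j) ≠ 0) (hfree : ∀ x ∈ openSegment ℝ w h0, x ∉ TT N u) :
    ∃ m < N, ∃ c' ∈ segment ℝ h0 e, c' ≠ h0 ∧ u m ≠ w ∧ u m ∈ segment ℝ w c' ∧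
      ∀ β γ : ℝ, 0 < β → 0 < γ → β + γ < 1 →
        w + (β : ℂ) * (h0 - w) + (γ : ℂ) * (c' - w) ∉ TT N u := by
  classical
  have hN := h.three
  have hvT : ∀ m < N, u m ∈ TT N u := fun m hm => mem_TT.2 ⟨m, hm, left_mem_segment ℝ _ _⟩
  -- vertices are not in the open edge `j`
  have hvo : ∀ m < N, u m ∉ openSegment ℝ (u j) (u (j + 1)) := by
    intro m hm hmem
    by_cases hmj : m = j
    · subst hmj
      obtain ⟨θ, h1, h2, h3⟩ := mem_open_iff.1 hmem
      have h4 : (θ : ℂ) * (u (m + 1) - u m) = 0 := by linear_combination -h3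
      rcases mul_eq_zero.1 h4 with h5 | h5
      · exact h1.ne' (by exact_mod_cast h5)
      · rw [h5] at hw
        simp [det] at hw
    · exact open_edge h hj hm hmj hmem (left_mem_segment ℝ _ _)
  -- every end of an edge is a vertex with index `< N`
  have hidx : ∀ k < N, ∃ m < N, u m = u (k + 1) := by
    intro k hk
    rcases Nat.lt_or_ge (k + 1) N with h1 | h1
    · exact ⟨k + 1, h1, rfl⟩
    · have h2 : k + 1 = N := by omega
      exact ⟨0, by omega, by rw [h2, h.per]⟩
  obtain ⟨s, hs0, hs1, hh0⟩ := mem_open_iff.1 hh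
  set d : ℂ := u (j + 1) - u j with hd
  obtain ⟨σ, hσ0, heσ, hopen⟩ : ∃ σ : ℝ, σ ≠ 0 ∧ e - h0 = (σ : ℂ) * d ∧
      ∀ μ : ℝ, 0 ≤ μ → μ < 1 → h0 + (μ : ℂ) * (e - h0) ∈ openSegment ℝ (u j) (u (j + 1)) := by
    rcases he with he | he
    · refine ⟨-s, neg_ne_zero.2 hs0.ne', ?_, ?_⟩
      · rw [he, hh0]; push_cast; ring
      · intro μ h1 h2
        refine mem_open_iff.2 ⟨s * (1 - μ), mul_pos hs0 (by linarith), by nlinarith, ?_⟩
        rw [he, hh0]; push_cast; ring
    · refine ⟨1 - s, (sub_pos.2 hs1).ne', ?_, ?_⟩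
      · rw [he, hh0, hd]; push_cast; ring
      · intro μ h1 h2
        refine mem_open_iff.2 ⟨s + μ * (1 - s), by nlinarith [mul_nonneg h1 (sub_pos.2 hs1).le], ?_, ?_⟩
        · nlinarith [mul_pos (sub_pos.2 h2) (sub_pos.2 hs1)]
        · rw [he, hh0, hd]; push_cast; ring
  set p : ℂ := h0 - w with hp
  set q : ℂ := e - w with hq
  have hpd : det p d = det d (w - u j) := by
    rw [hp, hh0]
    simp only [det, Complex.add_re, Complex.re_ofReal_mul, Complex.add_im, Complex.im_ofReal_mul,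
      Complex.sub_re, Complex.sub_im]
    ring
  have hqp : q = p + (σ : ℂ) * d := by rw [← heσ, hq, hp]; ring
  have hDpd : det p d ≠ 0 := by rw [hpd]; exact hw
  have hD : det p q ≠ 0 := by
    have : det p q = σ * det p d := by
      rw [hqp]
      simp only [det, Complex.add_re, Complex.re_ofReal_mul, Complex.add_im, Complex.im_ofReal_mul]
      ring
    rw [this]
    exact mul_ne_zero hσ0 hDpd
  set B0 : ℂ → ℝ := fun y => det (y - w) q / det p q with hB0
  set G0 : ℂ → ℝ := fun y => det p (y - w) / det p q with hG0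
  have hcoord : ∀ y : ℂ, y = w + (B0 y : ℂ) * p + (G0 y : ℂ) * q := by
    intro y
    have := det_coord hD (y - w)
    rw [add_assoc, ← this]; ring
  have hcB : ∀ b c : ℝ, B0 (w + (b : ℂ) * p + (c : ℂ) * q) = b := by
    intro b c
    have : w + (b : ℂ) * p + (c : ℂ) * q - w = (b : ℂ) * p + (c : ℂ) * q := by ring
    simp only [hB0, this, det_lin1]
    field_simp
  have hcG : ∀ b c : ℝ, G0 (w + (b : ℂ) * p + (c : ℂ) * q) = c := by
    intro b c
    have : w + (b : ℂ) * p + (c : ℂ) * q - w = (b : ℂ) * p + (c : ℂ) * q := by ring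
    simp only [hG0, this, det_lin2]
    field_simp
  set V := (Finset.range N).filter
    (fun m => u m ≠ w ∧ 0 ≤ B0 (u m) ∧ 0 ≤ G0 (u m) ∧ B0 (u m) + G0 (u m) ≤ 1) with hV
  have hVne : V.Nonempty := by
    obtain ⟨m, hm, hme⟩ : ∃ m < N, u m = e := by
      rcases he with he | he
      · exact ⟨j, hj, he.symm⟩
      · obtain ⟨m, hm, h1⟩ := hidx j hj
        exact ⟨m, hm, by rw [h1, he]⟩
    have h1 : e = w + ((0 : ℝ) : ℂ) * p + ((1 : ℝ) : ℂ) * q := by rw [hq]; push_cast; ring
    have h2 : B0 e = 0 := by rw [h1]; exact hcB 0 1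
    have h3 : G0 e = 1 := by
      conv_lhs => rw [h1]
      exact hcG 0 1
    refine ⟨m, Finset.mem_filter.2 ⟨Finset.mem_range.2 hm, ?_⟩⟩
    rw [hme, h2, h3]
    refine ⟨?_, le_refl _, zero_le_one, by norm_num⟩
    intro hew
    apply hD
    rw [hq, hew]
    simp [det]
  have hGpos : ∀ m ∈ V, 0 < G0 (u m) := by
    intro m hm
    obtain ⟨hmN, hmw, hb, hg, hbg⟩ := Finset.mem_filter.1 hm
    rw [Finset.mem_range] at hmN
    rcases hg.eq_or_lt with h1 | h1
    · exfalso
      have h2 := hcoord (u m)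
      rw [← h1] at h2 hbg
      rcases hb.eq_or_lt with h3 | h3
      · apply hmw
        rw [h2, ← h3]; push_cast; ring
      · rcases (show B0 (u m) ≤ 1 by linarith).eq_or_lt with h4 | h4
        · have h5 : u m = h0 := by
            rw [h2, h4, hp]; push_cast; ring
          exact hvo m hmN (h5 ▸ hh)
        · refine hfree (u m) (mem_open_iff.2 ⟨B0 (u m), h3, h4, ?_⟩) (hvT m hmN)
          conv_lhs => rw [h2]
          push_cast; ring
    · exact h1
  obtain ⟨m, hmV, hmin⟩ := Finset.exists_min_image V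
    (fun m => G0 (u m) / (B0 (u m) + G0 (u m))) hVne
  obtain ⟨hmN, hmw, hb, hg, hbg⟩ := Finset.mem_filter.1 hmV
  rw [Finset.mem_range] at hmN
  have hg' := hGpos m hmV
  set τ : ℝ := G0 (u m) / (B0 (u m) + G0 (u m)) with hτ
  have hden : 0 < B0 (u m) + G0 (u m) := by linarith
  have hτ0 : 0 < τ := div_pos hg' hden
  have hτ1 : τ ≤ 1 := by
    rw [hτ, div_le_one hden]; linarith
  have hτm : τ * (B0 (u m) + G0 (u m)) = G0 (u m) := div_mul_cancel₀ _ hden.ne'
  have hmin' : ∀ m' < N, ∀ b c : ℝ, u m' = w + (b : ℂ) * p + (c : ℂ) * q → u m' ≠ w → 0 ≤ b →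
      0 ≤ c → b + c ≤ 1 → τ * (b + c) ≤ c := by
    intro m' hm' b c he' hne hb' hc' hbc'
    have e1 : B0 (u m') = b := by rw [he']; exact hcB b c
    have e2 : G0 (u m') = c := by rw [he']; exact hcG b c
    have hmem : m' ∈ V := by
      refine Finset.mem_filter.2 ⟨Finset.mem_range.2 hm', hne, ?_, ?_, ?_⟩
      · rw [e1]; exact hb'
      · rw [e2]; exact hc'
      · rw [e1, e2]; exact hbc'
    have h1 := hmin m' hmem
    have h2 := hGpos m' hmem
    simp only [e1, e2] at h1 h2
    have h3 : 0 < b + c := by linarith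
    exact (le_div_iff₀ h3).1 h1
  refine ⟨m, hmN, h0 + (τ : ℂ) * (e - h0), mem_seg_iff.2 ⟨τ, hτ0.le, hτ1, rfl⟩, ?_, hmw, ?_, ?_⟩
  · intro hcon
    have h1 : (τ : ℂ) * (e - h0) = 0 := by linear_combination hcon
    rcases mul_eq_zero.1 h1 with h2 | h2
    · exact hτ0.ne' (by exact_mod_cast h2)
    · rw [heσ] at h2
      rcases mul_eq_zero.1 h2 with h3 | h3
      · exact hσ0 (by exact_mod_cast h3)
      · apply hDpd
        rw [h3]; simp [det]
  · refine mem_seg_iff.2 ⟨B0 (u m) + G0 (u m), hden.le, hbg, ?_⟩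
    have h1 := hcoord (u m)
    have h2 : (τ : ℂ) * ((B0 (u m) + G0 (u m) : ℝ) : ℂ) = (G0 (u m) : ℂ) := by
      exact_mod_cast hτm
    conv_lhs => rw [h1]
    have h3 : e = q + w := by rw [hq]; ring
    have h4 : h0 = p + w := by rw [hp]; ring
    rw [h3, h4]
    push_cast at h2 ⊢
    linear_combination (p - q) * h2
  · intro β γ hβ hγ hβγ hx
    set c' : ℂ := h0 + (τ : ℂ) * (e - h0) with hc'
    set r : ℂ := c' - w with hr
    have hrp : r = p + (τ : ℂ) * (q - p) := by
      rw [hr, hc', hp, hq]; ring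
    have hR : det p r ≠ 0 := by
      have : det p r = τ * det p q := by
        rw [hrp]
        simp only [det, Complex.add_re, Complex.re_ofReal_mul, Complex.add_im,
          Complex.im_ofReal_mul, Complex.sub_re, Complex.sub_im]
        ring
      rw [this]
      exact mul_ne_zero hτ0.ne' hD
    obtain ⟨k, hk, hxk⟩ := mem_TT.1 hx
    have hkj : k ≠ j := by
      rintro rfl
      obtain ⟨θ, -, -, h1⟩ := mem_seg_iff.1 hxk
      have h2 : (β : ℂ) * p + (γ : ℂ) * r = p + ((θ - s : ℝ) : ℂ) * d := by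
        push_cast
        linear_combination h1 - hh0 - hp - (θ : ℂ) * hd
      have h3 := congrArg (fun y => det y d) h2
      have h4 : det ((β : ℂ) * p + (γ : ℂ) * r) d = (β + γ) * det p d := by
        rw [hrp, hqp]
        simp only [det, Complex.add_re, Complex.re_ofReal_mul, Complex.add_im,
          Complex.im_ofReal_mul, Complex.sub_re, Complex.sub_im]
        ring
      have h5 : det (p + ((θ - s : ℝ) : ℂ) * d) d = det p d := by
        simp only [det, Complex.add_re, Complex.re_ofReal_mul, Complex.add_im,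
          Complex.im_ofReal_mul]
        ring
      simp only [h4, h5] at h3
      have h6 : (β + γ - 1) * det p d = 0 := by linarith
      rcases mul_eq_zero.1 h6 with h7 | h7
      · linarith
      · exact hDpd h7
    -- the key step
    have key : ∀ g : ℂ, ∀ m' < N, u m' = g → segment ℝ (w + (β : ℂ) * p + (γ : ℂ) * r) g ⊆
        segment ℝ (u k) (u (k + 1)) → ∀ B G : ℝ, g = w + (B : ℂ) * p + (G : ℂ) * r → 0 < B →
        False := by
      intro g m' hm' hg'' hsub B G hgc hB
      have hout : ¬ (0 ≤ G ∧ B + G ≤ 1) := by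
        rintro ⟨hG, hBG⟩
        have e1 : u m' = w + ((B + G * (1 - τ) : ℝ) : ℂ) * p + ((G * τ : ℝ) : ℂ) * q := by
          rw [hg'', hgc, hrp]; push_cast; ring
        have hne : u m' ≠ w := by
          intro hcon
          have e2 : (B : ℂ) * p + (G : ℂ) * r = ((0 : ℝ) : ℂ) * p + ((0 : ℝ) : ℂ) * r := by
            have : w + (B : ℂ) * p + (G : ℂ) * r = w := by rw [← hgc, ← hg'', hcon]
            push_cast
            linear_combination this
          exact hB.ne' (coord_unique hR e2).1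
        have e3 := hmin' m' hm' _ _ e1 hne
          (by nlinarith [mul_nonneg hG (sub_nonneg.2 hτ1)]) (mul_nonneg hG hτ0.le)
          (by nlinarith)
        nlinarith [mul_pos hτ0 hB]
      obtain ⟨t, ht0, ht1, hb1, hc1, hcase⟩ := cross hβ hγ hβγ hB hout
      set b := β + t * (B - β) with hbdef
      set c := γ + t * (G - γ) with hcdef
      have hy : w + (b : ℂ) * p + (c : ℂ) * r ∈ segment ℝ (u k) (u (k + 1)) := by
        apply hsub
        refine mem_seg_iff.2 ⟨t, ht0, ht1, ?_⟩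
        rw [hgc, hbdef, hcdef]; push_cast; ring
      rcases hcase with ⟨h1, h2⟩ | h1
      · refine hfree _ (mem_open_iff.2 ⟨b, hb1, h2, ?_⟩) (mem_TT.2 ⟨k, hk, hy⟩)
        rw [h1]; push_cast; ring
      · have h2 : w + (b : ℂ) * p + (c : ℂ) * r = h0 + ((c * τ : ℝ) : ℂ) * (e - h0) := by
          have h3 : (b : ℂ) = 1 - c := by
            have : b = 1 - c := by linarith
            rw [this]; push_cast; ring
          rw [h3, hr, hc', hp]; push_cast; ring
        rw [h2] at hy
        refine open_edge h hj hk hkj (hopen (c * τ) (mul_nonneg hc1 hτ0.le) ?_) hy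
        have hc2 : c < 1 := by linarith
        nlinarith
    -- one end point has positive `B`
    have hcoordR : ∀ y : ℂ, ∃ B G : ℝ, y = w + (B : ℂ) * p + (G : ℂ) * r := by
      intro y
      refine ⟨det (y - w) r / det p r, det p (y - w) / det p r, ?_⟩
      have := det_coord hR (y - w)
      rw [add_assoc, ← this]; ring
    obtain ⟨B1, G1, hf⟩ := hcoordR (u k)
    obtain ⟨B2, G2, hg2⟩ := hcoordR (u (k + 1))
    obtain ⟨θ, hθ0, hθ1, hxθ⟩ := mem_seg_iff.1 hxk
    have hBβ : β = B1 + θ * (B2 - B1) := by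
      have e1 : (β : ℂ) * p + (γ : ℂ) * r = ((B1 + θ * (B2 - B1) : ℝ) : ℂ) * p +
          ((G1 + θ * (G2 - G1) : ℝ) : ℂ) * r := by
        rw [hg2, hf] at hxθ
        push_cast
        linear_combination hxθ
      exact (coord_unique hR e1).1
    have hconv : Convex ℝ (segment ℝ (u k) (u (k + 1))) := convex_segment _ _
    by_cases hB1 : 0 < B1
    · exact key (u k) k hk rfl (hconv.segment_subset hxk (left_mem_segment ℝ _ _)) B1 G1 hf hB1
    · have hB2 : 0 < B2 := by
        by_contra hcon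
        have h1 := mul_nonneg (sub_nonneg.2 hθ1) (neg_nonneg.2 (not_lt.1 hB1))
        have h2 := mul_nonneg hθ0 (neg_nonneg.2 (not_lt.1 hcon))
        nlinarith
      obtain ⟨m', hm', hm'e⟩ := hidx k hk
      exact key (u (k + 1)) m' hm' hm'e (hconv.segment_subset hxk (right_mem_segment ℝ _ _))
        B2 G2 hg2 hB2

end VisMap
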