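import Pool.Agent.Lib.MP_9f3af0_lc.Count
import Pool.Agent.Lib.MP_9f3af0_lc.Kkt

/-!
# MP_9f3af0_lc: twins at the longest pocket of an optimal set of classes (helper47)

`x` is a minimiser of `xᵀ H x + 2 fᵀ x` on the simplex of the weights of the classes, `H` the numbers
of hidden vertices (`Hc`), `f` any function of the classes.  `Tx`: the classes with `x ≠ 0`; `Ty`: the
classes with the smallest marginal value.  `opt_twins`: if `(i; p, c)` is a longest pocket of the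
viewers in `W`, `Tx ⊆ W ⊆ Ty`, and `f p ≤ f i`, then `p` is in `Ty` and `i`, `p` see the same vertices
of `Tx`.  `mopt_twins`: for a maximal support and `i ∈ Tx`, `W = Ty`, also `p ∈ Tx`.
-/

namespace VisMap

namespace Cut

open Kkt Matrix

/-- The class of a vertex. -/
def cl (k : ℤ) (hk : 0 < k) (z : ℤ) : Fin k.toNat :=
  ⟨(z % k).toNat, by
    have h1 := Int.emod_nonneg z hk.ne'
    have h2 := Int.emod_lt_of_pos z hk
    omega⟩

variable {n : ℕ} {k : ℤ} {r : ℤ → ℤ → Prop}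

theorem cl_dvd (hk : 0 < k) (z : ℤ) : k ∣ z - ((cl k hk z : Fin k.toNat) : ℕ) := by
  have h1 := Int.emod_nonneg z hk.ne'
  have e : (((cl k hk z : Fin k.toNat) : ℕ) : ℤ) = z % k := by
    show (((z % k).toNat : ℕ) : ℤ) = z % k
    omega
  rw [e]
  exact Int.dvd_self_sub_emod

theorem cl_eq (hk : 0 < k) {z z' : ℤ} (h : k ∣ z' - z) : cl k hk z' = cl k hk z := by
  have e : z' % k = z % k := Int.emod_eq_emod_iff_emod_sub_eq_zero.2 (Int.emod_eq_zero_of_dvd h)
  unfold cl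
  simp only [e]

theorem cl_coe (hk : 0 < k) (a : Fin k.toNat) : cl k hk ((a : ℕ) : ℤ) = a := by
  have h1 := a.2
  have e : ((a : ℕ) : ℤ) % k = (a : ℕ) := Int.emod_eq_of_lt (by omega) (by omega)
  unfold cl
  ext
  show (((a : ℕ) : ℤ) % k).toNat = a
  rw [e]; simp

theorem dvd_of_cl (hk : 0 < k) {z z' : ℤ} (h : cl k hk z' = cl k hk z) : k ∣ z' - z := by
  have h1 := cl_dvd hk z'
  have h2 := cl_dvd hk z
  rw [h] at h1
  have e : z' - z = (z' - ((cl k hk z : Fin k.toNat) : ℕ)) - (z - ((cl k hk z : Fin k.toNat) : ℕ)) := by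
    ring
  rw [e]; exact dvd_sub h1 h2

/-- The matrix of the numbers of hidden vertices. -/
noncomputable def HM (n : ℕ) (k : ℤ) (r : ℤ → ℤ → Prop) : Matrix (Fin k.toNat) (Fin k.toNat) ℝ :=
  fun a b => Hc n k r (a : ℕ) (b : ℕ)

theorem HM_cl (h : ZRel n r) (hn : 0 < n) (hk : 0 < k) (hd : k ∣ n) (hw : Wd n k r) (v e : ℤ) :
    HM n k r (cl k hk v) (cl k hk e) = Hc n k r v e := by
  unfold HM
  rw [← Hc_class h hn hd hw (cl_dvd hk v), Hc_dvd (dvd_rev (cl_dvd hk e))]

theorem HM_symm (h : ZRel n r) (hn : 0 < n) (hd : k ∣ n) (hw : Wd n k r) (a b : Fin k.toNat) :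
    HM n k r a b = HM n k r b a := by
  unfold HM
  rw [Hc_symm h hn hd hw]

/-- The classes in the support. -/
def Tx (k : ℤ) (hk : 0 < k) (x : Fin k.toNat → ℝ) (z : ℤ) : Prop := x (cl k hk z) ≠ 0

/-- The classes with the smallest marginal value. -/
def Ty (n : ℕ) (k : ℤ) (r : ℤ → ℤ → Prop) (hk : 0 < k) (f x : Fin k.toNat → ℝ) (z : ℤ) : Prop :=
  ∀ b, mg (HM n k r) f x (cl k hk z) ≤ mg (HM n k r) f x b

theorem Tx_sub (h : ZRel n r) (hn : 0 < n) (hk : 0 < k) (hd : k ∣ n) (hw : Wd n k r)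
    {f x : Fin k.toNat → ℝ} (hx : Opt (HM n k r) f x) {z : ℤ} (hz : Tx k hk x z) :
    Ty n k r hk f x z :=
  fun b => hx.le (HM_symm h hn hd hw) hz b

theorem Tx_per (hk : 0 < k) {x : Fin k.toNat → ℝ} {z z' : ℤ} (h : k ∣ z' - z) :
    Tx k hk x z' ↔ Tx k hk x z := by
  unfold Tx
  rw [cl_eq hk h]

theorem Ty_per (hk : 0 < k) {f x : Fin k.toNat → ℝ} {z z' : ℤ} (h : k ∣ z' - z) :
    Ty n k r hk f x z' ↔ Ty n k r hk f x z := by
  unfold Ty
  rw [cl_eq hk h]

theorem exists_Tx (hk : 0 < k) {H : Matrix (Fin k.toNat) (Fin k.toNat) ℝ} {f x : Fin k.toNat → ℝ}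
    (hx : Opt H f x) : ∃ z, Tx k hk x z := by
  by_contra hc
  push Not at hc
  have h1 : ∀ a, x a = 0 := by
    intro a
    have := hc ((a : ℕ) : ℤ)
    unfold Tx at this
    push Not at this
    rwa [cl_coe] at this
  have h2 := hx.sum
  simp only [h1, Finset.sum_const_zero] at h2
  norm_num at h2

/-- The twin property of a longest pocket. -/
theorem opt_twins (h : ZRel n r) (hk : 0 < k) (hd : k ∣ n) (hw : Wd n k r)
    {f x : Fin k.toNat → ℝ} (hx : Opt (HM n k r) f x) {W : ℤ → Prop}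
    (hW : ∀ z z', k ∣ z' - z → (W z' ↔ W z)) (hTW : ∀ z, Tx k hk x z → W z)
    (hWT : ∀ z, W z → Ty n k r hk f x z) {i p c : ℤ} (hi : W i) (hP : LP n r i p c)
    (hB : PB n r W (c - p)) (hf : f (cl k hk p) ≤ f (cl k hk i)) :
    Ty n k r hk f x p ∧ f (cl k hk p) = f (cl k hk i) ∧
      (∀ v, W v → Nb n r i v → Nb n r p v) ∧ ∀ z, Tx k hk x z → (Nb n r i z ↔ Nb n r p z) := by
  have hn : 0 < n := by have := hP.vp; have := hP.pc; have := hP.cn; omega
  have hdom : ∀ v, W v → Nb n r i v → Nb n r p v := fun v hv hiv =>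
    hP.dom h (V := W) (fun a => hW a (a + n) (by
      have e : a + (n : ℤ) - a = n := by ring
      rw [e]; exact hd)) hB hv hiv
  have hle : ∀ e, W e → Hc n k r p e ≤ Hc n k r i e := fun e he =>
    Hc_le hdom (fun z hz => (hW e z hz).2 he)
  -- the terms of the marginal values
  have hterm : ∀ b, HM n k r (cl k hk p) b * x b ≤ HM n k r (cl k hk i) b * x b := by
    intro b
    by_cases hb : x b = 0
    · rw [hb, mul_zero, mul_zero]
    · have hWb : W ((b : ℕ) : ℤ) := hTW _ (by unfold Tx; rw [cl_coe]; exact hb)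
      have h1 := hle _ hWb
      have h2 : HM n k r (cl k hk p) b ≤ HM n k r (cl k hk i) b := by
        have e1 := HM_cl h hn hk hd hw p ((b : ℕ) : ℤ)
        have e2 := HM_cl h hn hk hd hw i ((b : ℕ) : ℤ)
        rw [cl_coe] at e1 e2
        rw [e1, e2]
        exact_mod_cast h1
      exact mul_le_mul_of_nonneg_right h2 (hx.nn b)
  have hmv : ∀ a, (HM n k r *ᵥ x) a = ∑ b, HM n k r a b * x b := fun a => rfl
  have hsum : (HM n k r *ᵥ x) (cl k hk p) ≤ (HM n k r *ᵥ x) (cl k hk i) := by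
    rw [hmv, hmv]
    exact Finset.sum_le_sum fun b _ => hterm b
  have hmin := hWT i hi (cl k hk p)
  have hmg : mg (HM n k r) f x (cl k hk p) = mg (HM n k r) f x (cl k hk i) := by
    refine le_antisymm ?_ hmin
    unfold mg; linarith
  have hfeq : f (cl k hk p) = f (cl k hk i) := by
    unfold mg at hmg; linarith
  refine ⟨fun b => hmg ▸ hWT i hi b, hfeq, hdom, fun z hz => ?_⟩
  have hsumeq : (HM n k r *ᵥ x) (cl k hk p) = (HM n k r *ᵥ x) (cl k hk i) := by
    unfold mg at hmg; linarith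
  rw [hmv, hmv] at hsumeq
  have hteq := (Finset.sum_eq_sum_iff_of_le fun b _ => hterm b).1 hsumeq (cl k hk z)
    (Finset.mem_univ _)
  rw [HM_cl h hn hk hd hw, HM_cl h hn hk hd hw] at hteq
  have h3 : ((Hc n k r p z : ℕ) : ℝ) = (Hc n k r i z : ℕ) := mul_right_cancel₀ hz hteq
  have h4 : Hc n k r p z = Hc n k r i z := by exact_mod_cast h3
  exact twins_of h hn hd hdom (fun z' hz' => (hW z z' hz').2 (hTW z hz)) h4.ge
    (z := z) (by rw [sub_self]; exact dvd_zero k)

/-- For a maximal support and a viewer in the support, `p` is in the support, too. -/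
theorem mopt_twins (h : ZRel n r) (hk : 0 < k) (hd : k ∣ n) (hw : Wd n k r)
    {f x : Fin k.toNat → ℝ} (hx : MOpt (HM n k r) f x) {i p c : ℤ} (hi : Tx k hk x i)
    (hP : LP n r i p c) (hB : PB n r (Ty n k r hk f x) (c - p))
    (hf : f (cl k hk p) ≤ f (cl k hk i)) :
    Tx k hk x p ∧ f (cl k hk p) = f (cl k hk i) ∧
      (∀ v, Ty n k r hk f x v → Nb n r i v → Nb n r p v) ∧
      ∀ z, Tx k hk x z → (Nb n r i z ↔ Nb n r p z) := by
  have hn : 0 < n := by have := hP.vp; have := hP.pc; have := hP.cn; omega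
  have hTT : ∀ z, Tx k hk x z → Ty n k r hk f x z := fun z hz => Tx_sub h hn hk hd hw hx.toOpt hz
  obtain ⟨h1, h2, h3, h4⟩ := opt_twins h hk hd hw hx.toOpt (W := Ty n k r hk f x)
    (fun z z' hz => Ty_per hk hz) hTT (fun z hz => hz) (hTT i hi) hP hB hf
  refine ⟨?_, h2, h3, h4⟩
  have e1 : Hc n k r p i = Hc n k r i i := by
    refine le_antisymm (Hc_le h3 (fun z hz => hTT z ((Tx_per hk hz).2 hi))) ?_
    exact Hc_le (V := Tx k hk x) (fun v hv => (h4 v hv).2) (fun z hz => (Tx_per hk hz).2 hi)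
  have e2 : Hc n k r p p ≤ Hc n k r i p := Hc_le h3 (fun z hz => (Ty_per hk hz).2 h1)
  refine hx.mem_of (HM_symm h hn hd hw) (a := cl k hk i) hi ?_ ?_
  · exact le_antisymm (h1 _) (hTT i hi _)
  · rw [HM_cl h hn hk hd hw, HM_cl h hn hk hd hw, HM_cl h hn hk hd hw]
    have e3 := Hc_symm h hn hd hw i p
    have e4 : Hc n k r p p + Hc n k r i i ≤ 2 * Hc n k r i p := by omega
    have e5 : ((Hc n k r p p : ℕ) : ℝ) + (Hc n k r i i : ℕ) ≤ 2 * (Hc n k r i p : ℕ) := by
      exact_mod_cast e4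
    linarith

end Cut

end VisMap
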