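import Pool.Agent.Lib.MP_9f3af0_lc.Base

/-!
# Two radii in a small disc

`T` is closed and in the ball `B = ball t ε` it consists of the two radii `[t, p1]`, `[t, p2]` (`ε` at most
the lengths), which meet only in `t`.  If `z ∈ B \ T` and `s ∈ B ∩ T` then `s` is in the closure of the
component of `z` in the complement of `T`.

Proof.  Put `d1 = p1 - t`, `d2 = p2 - t`, `D = det d1 d2`.
Case `D ≠ 0`: every point is uniquely `t + α d1 + γ d2`.  In `B` the set `T` is
`{α ≥ 0, γ = 0} ∪ {α = 0, γ ≥ 0}`.  The sets `S = {α > 0, γ > 0}`, `H1 = {γ < 0}`, `H2 = {α < 0}`, intersected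
with `B`, are convex (so preconnected) and disjoint from `T`, they cover `B \ T`, and `H1 ∩ H2 ∩ B` is not
empty (`t - δ (d1 + d2)`).  So the component of `z` contains `S ∩ B` or `(H1 ∪ H2) ∩ B`.  Each point
`s = t + α d1` (`α ≥ 0`) is a limit of points of `S ∩ B` (`s + δ (d1 + d2)`) and of `H1 ∩ B` (`s - δ d2`); each
`s = t + γ d2` is a limit of points of `S ∩ B` and of `H2 ∩ B` (`s - δ d1`).
Case `D = 0`: then `d2 = - μ d1` with `μ > 0` (a positive multiple would make the radii overlap), `T ∩ B` is
the diameter `B ∩ {det d1 (x - t) = 0}`; the two open half discs `{± det d1 (x - t) > 0} ∩ B` are convex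
and each point `s` of the diameter is a limit of points `s ± δ (i d1)`.
The component of `z` contains a preconnected set `A ∋ z`, `A ⊆ Tᶜ`
(`IsPreconnected.subset_connectedComponentIn`).
-/

namespace VisMap

open Set Metric

private theorem tr_convex (c0 c1 c2 : ℝ) : Convex ℝ {x : ℂ | 0 < c0 + c1 * x.re + c2 * x.im} := by
  intro x hx y hy a b ha hb hab
  simp only [mem_ofPred_eq, Complex.add_re, Complex.add_im, Complex.real_smul, Complex.mul_re,
    Complex.mul_im, Complex.ofReal_re, Complex.ofReal_im, zero_mul, sub_zero, add_zero] at hx hy ⊢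
  have h1 : c0 + c1 * (a * x.re + b * y.re) + c2 * (a * x.im + b * y.im)
      = a * (c0 + c1 * x.re + c2 * x.im) + b * (c0 + c1 * y.re + c2 * y.im) := by
    have : a * (c0 + c1 * x.re + c2 * x.im) + b * (c0 + c1 * y.re + c2 * y.im)
      = (a + b) * c0 + c1 * (a * x.re + b * y.re) + c2 * (a * x.im + b * y.im) := by ring
    rw [this, hab, one_mul]
  rw [h1]
  rcases ha.lt_or_eq with h | h
  · have := mul_pos h hx
    have := mul_nonneg hb hy.le
    linarith
  · subst h
    have hb1 : b = 1 := by linarith
    subst hb1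
    linarith

private theorem tr_clos {A : Set ℂ} {t s w : ℂ} {ε : ℝ} (hs : s ∈ ball t ε)
    (h : ∀ δ : ℝ, 0 < δ → s + δ * w ∈ ball t ε → s + δ * w ∈ A) : s ∈ closure A := by
  have hc : Continuous fun δ : ℝ => s + (δ : ℂ) * w := by fun_prop
  have h0 : Filter.Tendsto (fun δ : ℝ => s + (δ : ℂ) * w) (nhdsWithin 0 (Ioi 0)) (nhds s) := by
    have h1 : Filter.Tendsto (fun δ : ℝ => s + (δ : ℂ) * w) (nhds 0) (nhds (s + ((0 : ℝ) : ℂ) * w)) :=
      hc.tendsto 0
    rw [Complex.ofReal_zero, zero_mul, add_zero] at h1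
    exact h1.mono_left nhdsWithin_le_nhds
  refine mem_closure_of_tendsto h0 ?_
  have h2 : ∀ᶠ δ : ℝ in nhdsWithin 0 (Ioi 0), s + (δ : ℂ) * w ∈ ball t ε :=
    h0.eventually (isOpen_ball.mem_nhds hs)
  filter_upwards [h2, self_mem_nhdsWithin] with δ hδ1 hδ2
  exact h δ hδ2 hδ1

private theorem tr_fin {T A : Set ℂ} {z s : ℂ} (hA : IsPreconnected A) (hz : z ∈ A) (hT : A ⊆ Tᶜ)
    (hs : s ∈ closure A) : s ∈ closure (connectedComponentIn Tᶜ z) :=
  closure_mono (hA.subset_connectedComponentIn hz hT) hs

/-- A point of the segment `[t, p]` is `t + θ (p - t)`. -/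
private theorem tr_seg {t p x : ℂ} (hx : x ∈ segment ℝ t p) :
    ∃ θ : ℝ, 0 ≤ θ ∧ θ ≤ 1 ∧ x - t = θ * (p - t) := by
  rw [segment_eq_image'] at hx
  obtain ⟨θ, ⟨h0, h1⟩, rfl⟩ := hx
  exact ⟨θ, h0, h1, by simp [Complex.real_smul]⟩

private theorem tr_seg' {t p x : ℂ} {θ : ℝ} (h0 : 0 ≤ θ) (h1 : θ ≤ 1) (h : x - t = θ * (p - t)) :
    x ∈ segment ℝ t p := by
  rw [segment_eq_image']
  refine ⟨θ, ⟨h0, h1⟩, ?_⟩
  simp only [Complex.real_smul]
  rw [← h]; ring

/-- A point of the ball on the ray from `t` through `p` is in the segment. -/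
private theorem tr_ray {t p x : ℂ} {θ ε : ℝ} (hε : 0 < ε) (hp : ε ≤ dist p t) (hx : x ∈ ball t ε)
    (h0 : 0 ≤ θ) (h : x - t = θ * (p - t)) : x ∈ segment ℝ t p := by
  refine tr_seg' h0 ?_ h
  by_contra hcon
  push Not at hcon
  rw [mem_ball, dist_eq_norm, h, norm_mul, Complex.norm_real, Real.norm_eq_abs, abs_of_nonneg h0] at hx
  rw [dist_eq_norm] at hp
  nlinarith

theorem two_radii {T : Set ℂ} {t p1 p2 : ℂ} {ε : ℝ} (hε : 0 < ε)
    (h1 : ε ≤ dist p1 t) (h2 : ε ≤ dist p2 t)
    (hT : ∀ x ∈ ball t ε, x ∈ T ↔ x ∈ segment ℝ t p1 ∪ segment ℝ t p2)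
    (hi : segment ℝ t p1 ∩ segment ℝ t p2 = {t})
    {z s : ℂ} (hz : z ∈ ball t ε) (hzT : z ∉ T) (hs : s ∈ ball t ε) (hsT : s ∈ T) :
    s ∈ closure (connectedComponentIn Tᶜ z) := by
  have hn1 : p1 - t ≠ 0 := by
    intro h
    rw [dist_eq_norm, h, norm_zero] at h1
    linarith
  have hn2 : p2 - t ≠ 0 := by
    intro h
    rw [dist_eq_norm, h, norm_zero] at h2
    linarith
  obtain ⟨d1, hd1⟩ : ∃ d1, d1 = p1 - t := ⟨_, rfl⟩
  obtain ⟨d2, hd2⟩ : ∃ d2, d2 = p2 - t := ⟨_, rfl⟩
  rw [← hd1] at hn1
  rw [← hd2] at hn2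
  by_cases hD : det d1 d2 = 0
  · -- collinear
    have hq1 : 0 < d1.re * d1.re + d1.im * d1.im := by
      have := Complex.normSq_pos.2 hn1
      rwa [Complex.normSq_apply] at this
    have hcol : ∀ q : ℂ, det d1 q = 0 → ∃ c : ℝ, q = c * d1 := by
      intro q hq
      refine ⟨(q.re * d1.re + q.im * d1.im) / (d1.re * d1.re + d1.im * d1.im), ?_⟩
      unfold det at hq
      apply Complex.ext
      · rw [Complex.re_ofReal_mul, div_mul_eq_mul_div, eq_div_iff hq1.ne']
        linear_combination (-d1.im) * hq
      · rw [Complex.im_ofReal_mul, div_mul_eq_mul_div, eq_div_iff hq1.ne']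
        linear_combination (d1.re) * hq
    obtain ⟨m, hm⟩ := hcol d2 hD
    have hm0 : m ≠ 0 := by
      rintro rfl
      apply hn2
      rw [hm]; simp
    have hmneg : m < 0 := by
      by_contra hcon
      have hmpos : 0 < m := lt_of_le_of_ne (not_lt.1 hcon) (Ne.symm hm0)
      have hρ : 0 < min 1 m := lt_min one_pos hmpos
      have hy : t + (min 1 m : ℝ) * d1 ∈ segment ℝ t p1 ∩ segment ℝ t p2 := by
        constructor
        · refine tr_seg' hρ.le (min_le_left _ _) ?_
          rw [← hd1]; ring
        · refine tr_seg' (θ := min 1 m / m) (by positivity) ?_ ?_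
          · rw [div_le_one hmpos]; exact min_le_right _ _
          · rw [← hd2, hm]
            have : (m : ℂ) ≠ 0 := Complex.ofReal_ne_zero.2 hm0
            rw [Complex.ofReal_div]
            field_simp
            ring
      rw [hi, mem_singleton_iff] at hy
      have h3 : ((min 1 m : ℝ) : ℂ) * d1 = 0 := by linear_combination hy
      rcases mul_eq_zero.1 h3 with h4 | h4
      · exact hρ.ne' (Complex.ofReal_eq_zero.1 h4)
      · exact hn1 h4
    have hTf : ∀ x ∈ ball t ε, x ∈ T ↔ det d1 (x - t) = 0 := by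
      intro x hx
      rw [hT x hx]
      constructor
      · rintro (h | h)
        · obtain ⟨θ, -, -, hθ⟩ := tr_seg h
          rw [hθ, ← hd1]
          unfold det
          rw [Complex.im_ofReal_mul, Complex.re_ofReal_mul]
          ring
        · obtain ⟨θ, -, -, hθ⟩ := tr_seg h
          rw [hθ, ← hd2, hm]
          unfold det
          rw [Complex.im_ofReal_mul, Complex.re_ofReal_mul, Complex.im_ofReal_mul,
            Complex.re_ofReal_mul]
          ring
      · intro h
        obtain ⟨c, hc⟩ := hcol _ h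
        rcases le_total 0 c with hc0 | hc0
        · left
          exact tr_ray hε h1 hx hc0 (by rw [hc, hd1])
        · right
          refine tr_ray (θ := c / m) hε h2 hx (div_nonneg_of_nonpos hc0 hmneg.le) ?_
          rw [hc, ← hd2, hm, Complex.ofReal_div]
          have : (m : ℂ) ≠ 0 := Complex.ofReal_ne_zero.2 hm0
          field_simp
    have hsf := (hTf s hs).1 hsT
    have hzf : det d1 (z - t) ≠ 0 := fun h => hzT ((hTf z hz).2 h)
    have hw : ∀ δ : ℝ, det d1 (s + δ * (Complex.I * d1) - t)
        = δ * (d1.re * d1.re + d1.im * d1.im) := by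
      intro δ
      have h3 : det d1 (s + δ * (Complex.I * d1) - t)
          = det d1 (s - t) + δ * (d1.re * d1.re + d1.im * d1.im) := by
        unfold det
        simp only [Complex.sub_re, Complex.sub_im, Complex.add_re, Complex.add_im,
          Complex.ofReal_re, Complex.ofReal_im, Complex.mul_re, Complex.mul_im,
          Complex.I_re, Complex.I_im]
        ring
      rw [h3, hsf, zero_add]
    rcases lt_or_gt_of_ne hzf with hneg | hpos
    · have hcv : Convex ℝ ({x : ℂ | 0 < (det d1 t) + d1.im * x.re + (-d1.re) * x.im} ∩ ball t ε) :=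
        (tr_convex _ _ _).inter (convex_ball t ε)
      have hmem : ∀ x : ℂ, 0 < (det d1 t) + d1.im * x.re + (-d1.re) * x.im ↔
          det d1 (x - t) < 0 := by
        intro x
        have : (det d1 t) + d1.im * x.re + (-d1.re) * x.im = - det d1 (x - t) := by
          unfold det; simp only [Complex.sub_re, Complex.sub_im]; ring
        rw [this]; constructor <;> intro h <;> linarith
      refine tr_fin hcv.isPreconnected ⟨(hmem z).2 hneg, hz⟩ ?_ ?_
      · rintro x ⟨hx1, hx2⟩ hxT
        have := (hTf x hx2).1 hxT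
        have h3 := (hmem x).1 hx1
        linarith
      · refine tr_clos (w := -(Complex.I * d1)) hs ?_
        intro δ hδ hb
        refine ⟨(hmem _).2 ?_, hb⟩
        have h3 := hw (-δ)
        have h4 : s + ((-δ : ℝ) : ℂ) * (Complex.I * d1) - t = s + δ * -(Complex.I * d1) - t := by
          push_cast; ring
        rw [h4] at h3
        rw [h3]
        nlinarith
    · have hcv : Convex ℝ ({x : ℂ | 0 < (-det d1 t) + (-d1.im) * x.re + d1.re * x.im} ∩ ball t ε) :=
        (tr_convex _ _ _).inter (convex_ball t ε)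
      have hmem : ∀ x : ℂ, 0 < (-det d1 t) + (-d1.im) * x.re + d1.re * x.im ↔
          0 < det d1 (x - t) := by
        intro x
        have : (-det d1 t) + (-d1.im) * x.re + d1.re * x.im = det d1 (x - t) := by
          unfold det; simp only [Complex.sub_re, Complex.sub_im]; ring
        rw [this]
      refine tr_fin hcv.isPreconnected ⟨(hmem z).2 hpos, hz⟩ ?_ ?_
      · rintro x ⟨hx1, hx2⟩ hxT
        have := (hTf x hx2).1 hxT
        have h3 := (hmem x).1 hx1
        linarith
      · refine tr_clos (w := Complex.I * d1) hs ?_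
        intro δ hδ hb
        refine ⟨(hmem _).2 ?_, hb⟩
        rw [hw δ]
        positivity
  · -- independent
    obtain ⟨D, hDD⟩ : ∃ D, D = det d1 d2 := ⟨_, rfl⟩
    rw [← hDD] at hD
    have hD2 : 0 < D * D := mul_self_pos.2 hD
    -- coordinates
    have hco : ∀ q : ℂ, q = (det q d2 / D : ℝ) * d1 + (det d1 q / D : ℝ) * d2 := by
      intro q
      apply Complex.ext
      · rw [Complex.add_re, Complex.re_ofReal_mul, Complex.re_ofReal_mul, div_mul_eq_mul_div,
          div_mul_eq_mul_div, ← add_div, eq_div_iff hD, hDD]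
        unfold det; ring
      · rw [Complex.add_im, Complex.im_ofReal_mul, Complex.im_ofReal_mul, div_mul_eq_mul_div,
          div_mul_eq_mul_div, ← add_div, eq_div_iff hD, hDD]
        unfold det; ring
    have hTf : ∀ x ∈ ball t ε, x ∈ T ↔
        (det d1 (x - t) = 0 ∧ 0 ≤ D * det (x - t) d2) ∨
        (det (x - t) d2 = 0 ∧ 0 ≤ D * det d1 (x - t)) := by
      intro x hx
      rw [hT x hx]
      constructor
      · rintro (h | h)
        · left
          obtain ⟨θ, hθ0, -, hθ⟩ := tr_seg h
          rw [hθ, ← hd1]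
          constructor
          · unfold det
            rw [Complex.im_ofReal_mul, Complex.re_ofReal_mul]
            ring
          · have : det (θ * d1) d2 = θ * D := by
              rw [hDD]; unfold det
              rw [Complex.im_ofReal_mul, Complex.re_ofReal_mul]
              ring
            rw [this]
            have : D * (θ * D) = θ * (D * D) := by ring
            rw [this]; positivity
        · right
          obtain ⟨θ, hθ0, -, hθ⟩ := tr_seg h
          rw [hθ, ← hd2]
          constructor
          · unfold det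
            rw [Complex.im_ofReal_mul, Complex.re_ofReal_mul]
            ring
          · have : det d1 (θ * d2) = θ * D := by
              rw [hDD]; unfold det
              rw [Complex.im_ofReal_mul, Complex.re_ofReal_mul]
              ring
            rw [this]
            have : D * (θ * D) = θ * (D * D) := by ring
            rw [this]; positivity
      · rintro (⟨h, h'⟩ | ⟨h, h'⟩)
        · left
          refine tr_ray (θ := det (x - t) d2 / D) hε h1 hx ?_ ?_
          · rw [div_eq_mul_inv, ← mul_one (det (x - t) d2 * D⁻¹)]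
            have : det (x - t) d2 * D⁻¹ * 1 = (D * det (x - t) d2) / (D * D) := by
              field_simp
            rw [this]; positivity
          · have h3 := hco (x - t)
            rw [h] at h3
            rw [← hd1]
            simpa using h3
        · right
          refine tr_ray (θ := det d1 (x - t) / D) hε h2 hx ?_ ?_
          · rw [div_eq_mul_inv, ← mul_one (det d1 (x - t) * D⁻¹)]
            have : det d1 (x - t) * D⁻¹ * 1 = (D * det d1 (x - t)) / (D * D) := by
              field_simp
            rw [this]; positivity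
          · have h3 := hco (x - t)
            rw [h] at h3
            rw [← hd2]
            simpa using h3
    -- affine forms: a x = D * det (x - t) d2, g x = D * det d1 (x - t)
    have ha : ∀ x : ℂ, D * det (x - t) d2
        = (D * (t.im * d2.re - t.re * d2.im)) + (D * d2.im) * x.re + (-(D * d2.re)) * x.im := by
      intro x; unfold det; simp only [Complex.sub_re, Complex.sub_im]; ring
    have ha' : ∀ x : ℂ, -(D * det (x - t) d2)
        = (-(D * (t.im * d2.re - t.re * d2.im))) + (-(D * d2.im)) * x.re + (D * d2.re) * x.im := by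
      intro x; unfold det; simp only [Complex.sub_re, Complex.sub_im]; ring
    have hg : ∀ x : ℂ, D * det d1 (x - t)
        = (D * (d1.im * t.re - d1.re * t.im)) + (-(D * d1.im)) * x.re + (D * d1.re) * x.im := by
      intro x; unfold det; simp only [Complex.sub_re, Complex.sub_im]; ring
    have hg' : ∀ x : ℂ, -(D * det d1 (x - t))
        = (-(D * (d1.im * t.re - d1.re * t.im))) + (D * d1.im) * x.re + (-(D * d1.re)) * x.im := by
      intro x; unfold det; simp only [Complex.sub_re, Complex.sub_im]; ring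
    have cA : Convex ℝ {x : ℂ | 0 < D * det (x - t) d2} := by
      have := tr_convex (D * (t.im * d2.re - t.re * d2.im)) (D * d2.im) (-(D * d2.re))
      simpa only [← ha] using this
    have cA' : Convex ℝ {x : ℂ | 0 < -(D * det (x - t) d2)} := by
      have := tr_convex (-(D * (t.im * d2.re - t.re * d2.im))) (-(D * d2.im)) (D * d2.re)
      simpa only [← ha'] using this
    have cG : Convex ℝ {x : ℂ | 0 < D * det d1 (x - t)} := by
      have := tr_convex (D * (d1.im * t.re - d1.re * t.im)) (-(D * d1.im)) (D * d1.re)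
      simpa only [← hg] using this
    have cG' : Convex ℝ {x : ℂ | 0 < -(D * det d1 (x - t))} := by
      have := tr_convex (-(D * (d1.im * t.re - d1.re * t.im))) (D * d1.im) (-(D * d1.re))
      simpa only [← hg'] using this
    -- shifts
    have sA : ∀ (x : ℂ) (δ a b : ℝ), D * det (x + δ * (a * d1 + b * d2) - t) d2
        = D * det (x - t) d2 + δ * a * (D * D) := by
      intro x δ a b
      have : D * det (x + δ * (a * d1 + b * d2) - t) d2
          = D * det (x - t) d2 + δ * a * (D * det d1 d2) := by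
        unfold det
        simp only [Complex.sub_re, Complex.sub_im, Complex.add_re, Complex.add_im,
          Complex.re_ofReal_mul, Complex.im_ofReal_mul]
        ring
      rw [this, ← hDD]
    have sG : ∀ (x : ℂ) (δ a b : ℝ), D * det d1 (x + δ * (a * d1 + b * d2) - t)
        = D * det d1 (x - t) + δ * b * (D * D) := by
      intro x δ a b
      have : D * det d1 (x + δ * (a * d1 + b * d2) - t)
          = D * det d1 (x - t) + δ * b * (D * det d1 d2) := by
        unfold det
        simp only [Complex.sub_re, Complex.sub_im, Complex.add_re, Complex.add_im,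
          Complex.re_ofReal_mul, Complex.im_ofReal_mul]
        ring
      rw [this, ← hDD]
    have hsT' := (hTf s hs).1 hsT
    have hsa : 0 ≤ D * det (s - t) d2 := by
      rcases hsT' with ⟨_, h⟩ | ⟨h, _⟩
      · exact h
      · rw [h]; simp
    have hsg : 0 ≤ D * det d1 (s - t) := by
      rcases hsT' with ⟨h, _⟩ | ⟨_, h⟩
      · rw [h]; simp
      · exact h
    have hTpos : ∀ x ∈ ball t ε, x ∈ T → 0 ≤ D * det (x - t) d2 ∧ 0 ≤ D * det d1 (x - t) := by
      intro x hx hxT
      rcases (hTf x hx).1 hxT with ⟨h, h'⟩ | ⟨h, h'⟩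
      · exact ⟨h', by rw [h]; simp⟩
      · exact ⟨by rw [h]; simp, h'⟩
    by_cases hzS : 0 < D * det (z - t) d2 ∧ 0 < D * det d1 (z - t)
    · refine tr_fin (A := ({x : ℂ | 0 < D * det (x - t) d2} ∩ {x : ℂ | 0 < D * det d1 (x - t)})
          ∩ ball t ε) ((cA.inter cG).inter (convex_ball t ε)).isPreconnected ⟨hzS, hz⟩ ?_ ?_
      · rintro x ⟨⟨hx1, hx2⟩, hx3⟩ hxT
        rw [mem_ofPred_eq] at hx1 hx2
        rcases (hTf x hx3).1 hxT with ⟨h, _⟩ | ⟨h, _⟩
        · rw [h] at hx2; simp at hx2
        · rw [h] at hx1; simp at hx1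
      · refine tr_clos (w := ((1 : ℝ) : ℂ) * d1 + ((1 : ℝ) : ℂ) * d2) hs ?_
        intro δ hδ hb
        refine ⟨⟨?_, ?_⟩, hb⟩
        · rw [mem_ofPred_eq, sA]; positivity
        · rw [mem_ofPred_eq, sG]; positivity
    · -- z in H1 ∪ H2
      have hzH : 0 < -(D * det (z - t) d2) ∨ 0 < -(D * det d1 (z - t)) := by
        by_contra hcon
        push Not at hcon
        obtain ⟨hc1, hc2⟩ := hcon
        have e1 : 0 ≤ D * det (z - t) d2 := by linarith
        have e2 : 0 ≤ D * det d1 (z - t) := by linarith
        apply hzT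
        rw [hTf z hz]
        by_cases h3 : 0 < D * det (z - t) d2
        · left
          refine ⟨?_, e1⟩
          have h4 : ¬ 0 < D * det d1 (z - t) := fun h => hzS ⟨h3, h⟩
          have h5 : D * det d1 (z - t) = 0 := le_antisymm (not_lt.1 h4) e2
          rcases mul_eq_zero.1 h5 with h6 | h6
          · exact absurd h6 hD
          · exact h6
        · right
          refine ⟨?_, e2⟩
          have h5 : D * det (z - t) d2 = 0 := le_antisymm (not_lt.1 h3) e1
          rcases mul_eq_zero.1 h5 with h6 | h6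
          · exact absurd h6 hD
          · exact h6
      have tb : t ∈ ball t ε := mem_ball_self hε
      -- common point of the two half discs
      have hcommon : ∃ y : ℂ, y ∈ ({x : ℂ | 0 < -(D * det (x - t) d2)} ∩ ball t ε) ∩
          ({x : ℂ | 0 < -(D * det d1 (x - t))} ∩ ball t ε) := by
        have hc : Continuous fun δ : ℝ => t + (δ : ℂ) * (((-1 : ℝ) : ℂ) * d1 + ((-1 : ℝ) : ℂ) * d2) := by
          fun_prop
        have h0 : Filter.Tendsto
            (fun δ : ℝ => t + (δ : ℂ) * (((-1 : ℝ) : ℂ) * d1 + ((-1 : ℝ) : ℂ) * d2))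
            (nhdsWithin 0 (Ioi 0)) (nhds t) := by
          have h3 := hc.tendsto 0
          simp only [Complex.ofReal_zero, zero_mul, add_zero] at h3
          exact h3.mono_left nhdsWithin_le_nhds
        have h4 : ∀ᶠ δ : ℝ in nhdsWithin 0 (Ioi 0),
            t + (δ : ℂ) * (((-1 : ℝ) : ℂ) * d1 + ((-1 : ℝ) : ℂ) * d2) ∈ ball t ε ∧ δ ∈ Ioi (0 : ℝ) :=
          (h0.eventually (isOpen_ball.mem_nhds tb)).and self_mem_nhdsWithin
        obtain ⟨δ, hδ1, hδ2⟩ := h4.exists
        rw [mem_Ioi] at hδ2
        have hz0 : det (t - t) d2 = 0 := by rw [sub_self]; simp [det]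
        have hz1 : det d1 (t - t) = 0 := by rw [sub_self]; simp [det]
        refine ⟨_, ⟨?_, hδ1⟩, ⟨?_, hδ1⟩⟩
        · rw [mem_ofPred_eq, sA, hz0]; nlinarith [mul_pos hδ2 hD2]
        · rw [mem_ofPred_eq, sG, hz1]; nlinarith [mul_pos hδ2 hD2]
      obtain ⟨y, hy1, hy2⟩ := hcommon
      have hpre : IsPreconnected (({x : ℂ | 0 < -(D * det (x - t) d2)} ∩ ball t ε) ∪
          ({x : ℂ | 0 < -(D * det d1 (x - t))} ∩ ball t ε)) :=
        IsPreconnected.union y hy1 hy2 (cA'.inter (convex_ball t ε)).isPreconnected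
          (cG'.inter (convex_ball t ε)).isPreconnected
      refine tr_fin hpre ?_ ?_ ?_
      · rcases hzH with h | h
        · exact Or.inl ⟨h, hz⟩
        · exact Or.inr ⟨h, hz⟩
      · rintro x (⟨hx1, hx2⟩ | ⟨hx1, hx2⟩) hxT
        · have := (hTpos x hx2 hxT).1
          rw [mem_ofPred_eq] at hx1
          linarith
        · have := (hTpos x hx2 hxT).2
          rw [mem_ofPred_eq] at hx1
          linarith
      · rcases hsT' with ⟨h, _⟩ | ⟨h, _⟩
        · refine tr_clos (w := ((0 : ℝ) : ℂ) * d1 + ((-1 : ℝ) : ℂ) * d2) hs ?_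
          intro δ hδ hb
          refine Or.inr ⟨?_, hb⟩
          rw [mem_ofPred_eq, sG, h]
          nlinarith [mul_pos hδ hD2]
        · refine tr_clos (w := ((-1 : ℝ) : ℂ) * d1 + ((0 : ℝ) : ℂ) * d2) hs ?_
          intro δ hδ hb
          refine Or.inl ⟨?_, hb⟩
          rw [mem_ofPred_eq, sA, h]
          nlinarith [mul_pos hδ hD2]

end VisMap
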