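import Pool.Agent.Lib.MP_9f3af0_lc.Jord

/-!
# A visible segment and an edge

Let `[u p, u q] ⊆ reg T` and let `x` be a common point of `[u p, u q]` and the edge `k`.  Then `x` is an end
point of the edge, or the whole edge lies in `[u p, u q]`.

Proof.  Suppose that `x` is in the open edge `k`.  The vertices `u p`, `u q` are not in the open edge
(`vertex_edge`/`open_edge` and `inj`), so `x ∈ (u p, u q)` open.  Put `d = u q - u p`.
If `det (u (k+1) - u k) d ≠ 0`: by `flip` (with `pc u 0 N` a permutation of `(u k, u (k+1)) :: L'`,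
`L' = pc u 0 k ++ pc u (k+1) N`, `x ∉ tr L'` by `open_edge`) the points `x + δ d` and `x - δ d`, `δ > 0` small, are on
different sides of the line of the edge and have different parity.  They are off `T` (they are off the
line of the edge `k`, and the other edges are closed and do not contain `x`) and in `reg T`, so both have
parity `1` (`Jordan.inn`): contradiction.
If the determinant is `0`: the edge and `[u p, u q]` lie on one line through `x` (`u k ≠ u (k+1)`,
`u p ≠ u q`); `x` is strictly inside both; since neither `u p` nor `u q` is strictly inside the edge, each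
half of the edge seen from `x` is contained in the corresponding half of `[u p, u q]`.
-/

namespace VisMap

open Set Filter Topology

private theorem ne_succ {N : ℕ} {u : ℕ → ℂ} (h : SP N u) {k : ℕ} (hk : k < N) : u k ≠ u (k + 1) := by
  intro he
  rcases Nat.lt_or_ge (k + 1) N with h1 | h1
  · have := h.inj k (k + 1) hk h1 he
    omega
  · have h2 : k + 1 = N := by omega
    rw [h2, h.per] at he
    have h3 := h.inj k 0 hk (by have := h.three; omega) he
    have := h.three
    omega

private theorem vertex_not_open {N : ℕ} {u : ℕ → ℂ} (h : SP N u) {p k : ℕ} (hp : p < N) (hk : k < N) :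
    u p ∉ openSegment ℝ (u k) (u (k + 1)) := by
  intro hx
  by_cases hpk : p = k
  · subst hpk
    exact ne_succ h hk (left_mem_openSegment_iff.1 hx)
  · exact open_edge h hk hp hpk hx (left_mem_segment ℝ _ _)

private theorem pc_perm (u : ℕ → ℂ) {N k : ℕ} (hk : k < N) :
    (pc u 0 N).Perm ((u k, u (k + 1)) :: (pc u 0 k ++ pc u (k + 1) N)) := by
  have h1 : List.Ico 0 N = List.Ico 0 k ++ (k :: List.Ico (k + 1) N) := by
    rw [← List.Ico.append_consecutive (Nat.zero_le k) hk.le, List.Ico.eq_cons hk]
  have h2 : pc u 0 N = pc u 0 k ++ ((u k, u (k + 1)) :: pc u (k + 1) N) := by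
    simp only [pc, h1, List.map_append, List.map_cons]
  rw [h2]
  exact List.perm_middle

private theorem open_aux {P d : ℂ} {a b r : ℝ} (h : (a < r ∧ r < b) ∨ (b < r ∧ r < a)) :
    P + r * d ∈ openSegment ℝ (P + a * d) (P + b * d) := by
  have hba : b - a ≠ 0 := by
    rcases h with ⟨h1, h2⟩ | ⟨h1, h2⟩
    · exact (by linarith : (0:ℝ) < b - a).ne'
    · exact (by linarith : b - a < 0).ne
  refine ⟨(b - r) / (b - a), (r - a) / (b - a), ?_, ?_, ?_, ?_⟩
  · rcases h with ⟨h1, h2⟩ | ⟨h1, h2⟩
    · exact div_pos (by linarith) (by linarith)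
    · exact div_pos_of_neg_of_neg (by linarith) (by linarith)
  · rcases h with ⟨h1, h2⟩ | ⟨h1, h2⟩
    · exact div_pos (by linarith) (by linarith)
    · exact div_pos_of_neg_of_neg (by linarith) (by linarith)
  · rw [← add_div, div_eq_one_iff_eq hba]
    ring
  · apply Complex.ext
    · simp only [Complex.add_re, Complex.smul_re, Complex.mul_re, Complex.ofReal_re,
        Complex.ofReal_im, smul_eq_mul]
      field_simp
      ring
    · simp only [Complex.add_im, Complex.smul_im, Complex.mul_im, Complex.ofReal_re,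
        Complex.ofReal_im, smul_eq_mul]
      field_simp
      ring

private theorem seg_aux {P Q : ℂ} {r : ℝ} (h0 : 0 ≤ r) (h1 : r ≤ 1) :
    P + r * (Q - P) ∈ segment ℝ P Q := by
  refine ⟨1 - r, r, by linarith, h0, by ring, ?_⟩
  simp only [Complex.real_smul]
  push_cast
  ring

theorem vis_edge {N : ℕ} {u : ℕ → ℂ} (h : SP N u) {p q k : ℕ} (hp : p < N) (hq : q < N) (hpq : p ≠ q)
    (hv : segment ℝ (u p) (u q) ⊆ reg (TT N u)) (hk : k < N) {x : ℂ}
    (hx : x ∈ segment ℝ (u p) (u q)) (hx' : x ∈ segment ℝ (u k) (u (k + 1))) :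
    x = u k ∨ x = u (k + 1) ∨
      (u k ∈ segment ℝ (u p) (u q) ∧ u (k + 1) ∈ segment ℝ (u p) (u q)) := by
  by_cases hxk : x = u k
  · exact Or.inl hxk
  by_cases hxk1 : x = u (k + 1)
  · exact Or.inr (Or.inl hxk1)
  refine Or.inr (Or.inr ?_)
  have hxo : x ∈ openSegment ℝ (u k) (u (k + 1)) :=
    mem_openSegment_of_ne_left_right (Ne.symm hxk) (Ne.symm hxk1) hx'
  have hxp : x ≠ u p := fun he => vertex_not_open h hp hk (he ▸ hxo)
  have hxq : x ≠ u q := fun he => vertex_not_open h hq hk (he ▸ hxo)
  have hxo' : x ∈ openSegment ℝ (u p) (u q) :=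
    mem_openSegment_of_ne_left_right (Ne.symm hxp) (Ne.symm hxq) hx
  have hpq' : u p ≠ u q := fun he => hpq (h.inj p q hp hq he)
  have hkk : u k ≠ u (k + 1) := ne_succ h hk
  obtain ⟨s, μ, hs, hμ, hsμ, hxe⟩ := hxo'
  obtain ⟨s', l, hs', hl, hsl, hxe'⟩ := hxo
  have hxd : x = u p + μ * (u q - u p) := by
    rw [← hxe]
    have : s = 1 - μ := by linarith
    subst this
    simp only [Complex.real_smul]
    push_cast
    ring
  have hxd' : x = u k + l * (u (k + 1) - u k) := by
    rw [← hxe']
    have : s' = 1 - l := by linarith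
    subst this
    simp only [Complex.real_smul]
    push_cast
    ring
  by_cases hdet : det (u (k + 1) - u k) (u q - u p) = 0
  · -- parallel case
    have hd : u q - u p ≠ 0 := sub_ne_zero.2 (Ne.symm hpq')
    obtain ⟨ρ, hρ⟩ : ∃ ρ : ℝ, u (k + 1) - u k = ρ * (u q - u p) := by
      generalize u (k + 1) - u k = e at hdet ⊢
      generalize u q - u p = d at hdet hd ⊢
      unfold det at hdet
      have hn : d.re ^ 2 + d.im ^ 2 ≠ 0 := by
        intro h0
        apply hd
        apply Complex.ext
        · simp only [Complex.zero_re]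
          nlinarith [sq_nonneg d.re, sq_nonneg d.im]
        · simp only [Complex.zero_im]
          nlinarith [sq_nonneg d.re, sq_nonneg d.im]
      refine ⟨(e.re * d.re + e.im * d.im) / (d.re ^ 2 + d.im ^ 2), ?_⟩
      apply Complex.ext
      · simp only [Complex.mul_re, Complex.ofReal_re, Complex.ofReal_im]
        field_simp
        linear_combination d.im * hdet
      · simp only [Complex.mul_im, Complex.ofReal_re, Complex.ofReal_im]
        field_simp
        linear_combination (- d.re) * hdet
    have hρ0 : ρ ≠ 0 := by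
      intro h0
      rw [h0] at hρ
      simp only [Complex.ofReal_zero, zero_mul] at hρ
      exact hkk (sub_eq_zero.1 hρ).symm
    have hk1 : u k = u p + ((μ - l * ρ : ℝ) : ℂ) * (u q - u p) := by
      have h1 : u k = x - l * (u (k + 1) - u k) := by rw [hxd']; ring
      rw [h1, hρ, hxd]
      push_cast
      ring
    have hk2 : u (k + 1) = u p + ((μ + (1 - l) * ρ : ℝ) : ℂ) * (u q - u p) := by
      have h1 : u (k + 1) = x + (1 - l) * (u (k + 1) - u k) := by rw [hxd']; ring
      rw [h1, hρ, hxd]
      push_cast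
      ring
    have hno : ∀ r : ℝ, (μ - l * ρ < r ∧ r < μ + (1 - l) * ρ) ∨
        (μ + (1 - l) * ρ < r ∧ r < μ - l * ρ) → r ≠ 0 ∧ r ≠ 1 := by
      intro r hr
      have h1 := open_aux (P := u p) (d := u q - u p) hr
      rw [← hk1, ← hk2] at h1
      constructor
      · rintro rfl
        simp only [Complex.ofReal_zero, zero_mul, add_zero] at h1
        exact vertex_not_open h hp hk h1
      · rintro rfl
        simp only [Complex.ofReal_one, one_mul, add_sub_cancel] at h1
        exact vertex_not_open h hq hk h1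
    have hμ1 : μ < 1 := by linarith
    have hl1 : l < 1 := by linarith
    have hbet : (μ - l * ρ < μ ∧ μ < μ + (1 - l) * ρ) ∨
        (μ + (1 - l) * ρ < μ ∧ μ < μ - l * ρ) := by
      rcases lt_or_gt_of_ne hρ0 with h1 | h1
      · right
        constructor <;> nlinarith
      · left
        constructor <;> nlinarith
    have ha0 : 0 ≤ μ - l * ρ := by
      by_contra hc
      push Not at hc
      have : ¬ ((μ - l * ρ < 0 ∧ 0 < μ + (1 - l) * ρ) ∨ (μ + (1 - l) * ρ < 0 ∧ 0 < μ - l * ρ)) :=
        fun h1 => (hno 0 h1).1 rfl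
      apply this
      left
      refine ⟨hc, ?_⟩
      rcases hbet with ⟨h1, h2⟩ | ⟨h1, h2⟩ <;> linarith
    have ha1 : μ - l * ρ ≤ 1 := by
      by_contra hc
      push Not at hc
      have : ¬ ((μ - l * ρ < 1 ∧ 1 < μ + (1 - l) * ρ) ∨ (μ + (1 - l) * ρ < 1 ∧ 1 < μ - l * ρ)) :=
        fun h1 => (hno 1 h1).2 rfl
      apply this
      right
      refine ⟨?_, hc⟩
      rcases hbet with ⟨h1, h2⟩ | ⟨h1, h2⟩ <;> linarith
    have hb0 : 0 ≤ μ + (1 - l) * ρ := by
      by_contra hc
      push Not at hc
      have : ¬ ((μ - l * ρ < 0 ∧ 0 < μ + (1 - l) * ρ) ∨ (μ + (1 - l) * ρ < 0 ∧ 0 < μ - l * ρ)) :=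
        fun h1 => (hno 0 h1).1 rfl
      apply this
      right
      refine ⟨hc, ?_⟩
      rcases hbet with ⟨h1, h2⟩ | ⟨h1, h2⟩ <;> linarith
    have hb1 : μ + (1 - l) * ρ ≤ 1 := by
      by_contra hc
      push Not at hc
      have : ¬ ((μ - l * ρ < 1 ∧ 1 < μ + (1 - l) * ρ) ∨ (μ + (1 - l) * ρ < 1 ∧ 1 < μ - l * ρ)) :=
        fun h1 => (hno 1 h1).2 rfl
      apply this
      left
      refine ⟨?_, hc⟩
      rcases hbet with ⟨h1, h2⟩ | ⟨h1, h2⟩ <;> linarith
    refine ⟨?_, ?_⟩
    · rw [hk1]
      exact seg_aux ha0 ha1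
    · rw [hk2]
      exact seg_aux hb0 hb1
  · -- transversal case
    exfalso
    have hJ := jordan h
    have hxL' : x ∉ tr (pc u 0 k ++ pc u (k + 1) N) := by
      rw [tr_append]
      rintro (h1 | h1)
      · obtain ⟨j, -, hj2, hj3⟩ := mem_tr_pc.1 h1
        exact open_edge h hk (by omega) (by omega) ⟨s', l, hs', hl, hsl, hxe'⟩ hj3
      · obtain ⟨j, hj1, hj2, hj3⟩ := mem_tr_pc.1 h1
        exact open_edge h hk (by omega) (by omega) ⟨s', l, hs', hl, hsl, hxe'⟩ hj3
    obtain ⟨c, hc⟩ := flip (closed_pc h) (pc_perm u hk)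
      (⟨s', l, hs', hl, hsl, hxe'⟩ : x ∈ openSegment ℝ (u k) (u (k + 1))) hxL'
    have hoff : ∀ᶠ z in 𝓝 x, z ∉ tr (pc u 0 k ++ pc u (k + 1) N) :=
      (isClosed_tr _).isOpen_compl.mem_nhds hxL'
    have hev := hc.and hoff
    have ht1 : Tendsto (fun δ : ℝ => x + δ * (u q - u p)) (𝓝[>] 0) (𝓝 x) := by
      have h1 : Tendsto (fun δ : ℝ => x + δ * (u q - u p)) (𝓝 0)
          (𝓝 (x + ((0 : ℝ) : ℂ) * (u q - u p))) := by
        apply Continuous.tendsto
        fun_prop
      simp only [Complex.ofReal_zero, zero_mul, add_zero] at h1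
      exact h1.mono_left nhdsWithin_le_nhds
    have ht2 : Tendsto (fun δ : ℝ => x - δ * (u q - u p)) (𝓝[>] 0) (𝓝 x) := by
      have h1 : Tendsto (fun δ : ℝ => x - δ * (u q - u p)) (𝓝 0)
          (𝓝 (x - ((0 : ℝ) : ℂ) * (u q - u p))) := by
        apply Continuous.tendsto
        fun_prop
      simp only [Complex.ofReal_zero, zero_mul, sub_zero] at h1
      exact h1.mono_left nhdsWithin_le_nhds
    have hsmall : ∀ᶠ δ : ℝ in 𝓝[>] 0, δ ∈ Ioo 0 (min s μ) :=
      Ioo_mem_nhdsGT (lt_min hs hμ)
    obtain ⟨δ, ⟨⟨h1, h2⟩, h3, h4⟩, h5, h6⟩ :=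
      (((ht1.eventually hev).and (ht2.eventually hev)).and hsmall).exists
    have hδs : δ < s := lt_of_lt_of_le h6 (min_le_left _ _)
    have hδμ : δ < μ := lt_of_lt_of_le h6 (min_le_right _ _)
    -- membership in the segment
    have hm1 : x + δ * (u q - u p) ∈ segment ℝ (u p) (u q) := by
      have := seg_aux (P := u p) (Q := u q) (r := μ + δ) (by linarith) (by linarith)
      rw [hxd]
      convert this using 1
      push_cast
      ring
    have hm2 : x - δ * (u q - u p) ∈ segment ℝ (u p) (u q) := by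
      have := seg_aux (P := u p) (Q := u q) (r := μ - δ) (by linarith) (by linarith)
      rw [hxd]
      convert this using 1
      push_cast
      ring
    -- determinants
    have hdx : det (u (k + 1) - u k) (x - u k) = 0 := by
      rw [hxd']
      simp only [det, Complex.sub_re, Complex.sub_im, Complex.add_re, Complex.add_im,
        Complex.mul_re, Complex.mul_im, Complex.ofReal_re, Complex.ofReal_im]
      ring
    have hd1 : det (u (k + 1) - u k) (x + δ * (u q - u p) - u k) =
        δ * det (u (k + 1) - u k) (u q - u p) := by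
      have : det (u (k + 1) - u k) (x + δ * (u q - u p) - u k) =
          det (u (k + 1) - u k) (x - u k) + δ * det (u (k + 1) - u k) (u q - u p) := by
        simp only [det, Complex.sub_re, Complex.sub_im, Complex.add_re, Complex.add_im,
          Complex.mul_re, Complex.mul_im, Complex.ofReal_re, Complex.ofReal_im]
        ring
      rw [this, hdx, zero_add]
    have hd2 : det (u (k + 1) - u k) (x - δ * (u q - u p) - u k) =
        - (δ * det (u (k + 1) - u k) (u q - u p)) := by
      have : det (u (k + 1) - u k) (x - δ * (u q - u p) - u k) =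
          det (u (k + 1) - u k) (x - u k) - δ * det (u (k + 1) - u k) (u q - u p) := by
        simp only [det, Complex.sub_re, Complex.sub_im,
          Complex.mul_re, Complex.mul_im, Complex.ofReal_re, Complex.ofReal_im]
        ring
      rw [this, hdx, zero_sub]
    have hne1 : det (u (k + 1) - u k) (x + δ * (u q - u p) - u k) ≠ 0 := by
      rw [hd1]
      exact mul_ne_zero h5.ne' hdet
    have hne2 : det (u (k + 1) - u k) (x - δ * (u q - u p) - u k) ≠ 0 := by
      rw [hd2]
      exact neg_ne_zero.2 (mul_ne_zero h5.ne' hdet)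
    have hline : ∀ z ∈ segment ℝ (u k) (u (k + 1)), det (u (k + 1) - u k) (z - u k) = 0 := by
      rintro z ⟨a, b, -, -, hab, rfl⟩
      have : a = 1 - b := by linarith
      subst this
      simp only [det, Complex.sub_re, Complex.sub_im, Complex.add_re, Complex.add_im,
        Complex.smul_re, Complex.smul_im, smul_eq_mul]
      ring
    have hT : ∀ z, z ∉ tr (pc u 0 k ++ pc u (k + 1) N) →
        det (u (k + 1) - u k) (z - u k) ≠ 0 → z ∉ TT N u := by
      intro z hz1 hz2 hz3
      obtain ⟨j, hj, hzj⟩ := mem_TT.1 hz3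
      rcases lt_trichotomy j k with hjk | hjk | hjk
      · exact hz1 (by rw [tr_append]; exact Or.inl (mem_tr_pc.2 ⟨j, Nat.zero_le _, hjk, hzj⟩))
      · subst hjk
        exact hz2 (hline z hzj)
      · exact hz1 (by rw [tr_append]; exact Or.inr (mem_tr_pc.2 ⟨j, hjk, hj, hzj⟩))
    have hp1 : par (pc u 0 N) (x + δ * (u q - u p)) = 1 :=
      hJ.inn _ (hv hm1) (hT _ h2 hne1)
    have hp2 : par (pc u 0 N) (x - δ * (u q - u p)) = 1 :=
      hJ.inn _ (hv hm2) (hT _ h4 hne2)
    have hc1 : c ≠ c + 1 := by
      intro h7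
      have : (0 : ZMod 2) = 1 := by
        have h8 : c + 0 = c + 1 := by rw [add_zero]; exact h7
        exact add_left_cancel h8
      exact absurd this (by decide)
    rcases lt_or_gt_of_ne hdet with hlt | hgt
    · have hn1 : det (u (k + 1) - u k) (x + δ * (u q - u p) - u k) < 0 := by
        rw [hd1]; exact mul_neg_of_pos_of_neg h5 hlt
      have hn2 : 0 < det (u (k + 1) - u k) (x - δ * (u q - u p) - u k) := by
        rw [hd2]; exact neg_pos.2 (mul_neg_of_pos_of_neg h5 hlt)
      have e1 := (h1 hne1).2 hn1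
      have e2 := (h3 hne2).1 hn2
      rw [hp1] at e1
      rw [hp2] at e2
      exact hc1 (e1.symm.trans e2)
    · have hn1 : 0 < det (u (k + 1) - u k) (x + δ * (u q - u p) - u k) := by
        rw [hd1]; exact mul_pos h5 hgt
      have hn2 : det (u (k + 1) - u k) (x - δ * (u q - u p) - u k) < 0 := by
        rw [hd2]; exact neg_lt_zero.2 (mul_pos h5 hgt)
      have e1 := (h1 hne1).1 hn1
      have e2 := (h3 hne2).2 hn2
      rw [hp1] at e1
      rw [hp2] at e2
      exact hc1 (e2.symm.trans e1)

end VisMap
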