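import Pool.Agent.Lib.MP_9f3af0_lc.Sweep
import Pool.Agent.Lib.MP_9f3af0_lc.FirstHit
import Pool.Agent.Lib.MP_9f3af0_lc.CrossC

/-!
# The window lemma

`u 0` sees no vertex other than its neighbours `u 1` and `u (N-1)`.  Then there are an edge `j`,
`1 ≤ j`, `j + 1 < N`, and points `a', b'` of it such that `u 1 ∈ [u 0, a']`, `u (N-1) ∈ [u 0, b']` and the triangle
`u 0, a', b'` lies in the region.

Proof.  `first_hit` gives `h0`; the first alternative `h0 = u m` means `[u 0, u m] ⊆ reg T` (closed set),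
excluded.  So `h0` is in the open edge `j`.  `sweep` with `w = u 0` for `e = u j` gives `m0`, `c0`, for
`e = u (j+1)` it gives `m1`, `c1`.  The open triangle `{β, γ > 0, β + γ < 1}` together with the open segment
`(u 0, h0)` is convex (`β > 0, γ ≥ 0, β + γ < 1`), off `T`, and contains points of `reg T \ T`, so it is
contained in `reg T` (same component); `reg T` is closed, so the closed triangle `u 0, h0, c0` is in
`reg T`, and the same for `c1`.  Hence `u 0` sees `u m0` and `u m1` (`u m ∈ [u 0, c']`, `u m ≠ u 0`), so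
`m0, m1 ∈ {1, N-1}`.  `m0 ≠ m1` because `u m0` and `u m1` are strictly on different sides of the line
`u 0 h0` (`c0` and `c1` are, as `h0` is strictly between `u j` and `u (j+1)`, which are off this line).
If `m0 = 1`, `m1 = N - 1`: `a' = c0`, `b' = c1`; the triangle `u 0, c0, c1` is the union of the two triangles
(`h0 ∈ [c0, c1]`).
If `m0 = N - 1`, `m1 = 1`: contradiction by `crossC` with `β = h0` on the edge `j`, `σ = [u 1, c1] ∪ [c1, u (j+1)]`
(connected, in `reg T`: `[u 1, c1] ⊆ [u 0, c1]`, `[c1, u (j+1)]` is part of the edge), `x = u 1` in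
`tr (chA u j h0)` (`j ≥ 1`, it is on the edge `0`), `y = u (j+1)` in `tr (chB N u j h0)`: `σ` does not meet
`[u 0, h0]` because all its points are strictly on one side of the line `u 0 h0`.
-/

namespace VisMap

open Set

private theorem mem_seg {a b z : ℂ} :
    z ∈ segment ℝ a b ↔ ∃ t : ℝ, 0 ≤ t ∧ t ≤ 1 ∧ z = a + (t : ℂ) * (b - a) := by
  rw [segment_eq_image']
  constructor
  · rintro ⟨t, ⟨h0, h1⟩, rfl⟩
    exact ⟨t, h0, h1, by simp⟩
  · rintro ⟨t, h0, h1, rfl⟩
    exact ⟨t, ⟨h0, h1⟩, by simp⟩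

private theorem mem_oseg {a b z : ℂ} :
    z ∈ openSegment ℝ a b ↔ ∃ t : ℝ, 0 < t ∧ t < 1 ∧ z = a + (t : ℂ) * (b - a) := by
  rw [openSegment_eq_image']
  constructor
  · rintro ⟨t, ⟨h0, h1⟩, rfl⟩
    exact ⟨t, h0, h1, by simp⟩
  · rintro ⟨t, h0, h1, rfl⟩
    exact ⟨t, ⟨h0, h1⟩, by simp⟩

/-- An affine function of the plane along a segment. -/
private theorem det_comb (v p a b : ℂ) (t : ℝ) :
    det v (a + (t : ℂ) * (b - a) - p) = (1 - t) * det v (a - p) + t * det v (b - p) := by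
  unfold det
  simp only [Complex.add_re, Complex.add_im, Complex.sub_re, Complex.sub_im, Complex.mul_re,
    Complex.mul_im, Complex.ofReal_re, Complex.ofReal_im]
  ring

/-- The open triangle with one side in the region lies in the region, so does the closed one. -/
private theorem tri {T : Set ℂ} (hc : IsClosed (reg T)) {w h0 c : ℂ}
    (hfree : ∀ x ∈ openSegment ℝ w h0, x ∈ reg T ∧ x ∉ T)
    (htri : ∀ β γ : ℝ, 0 < β → 0 < γ → β + γ < 1 →
      w + (β : ℂ) * (h0 - w) + (γ : ℂ) * (c - w) ∉ T) (β γ : ℝ) (hβ : 0 ≤ β) (hγ : 0 ≤ γ)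
    (hs : β + γ ≤ 1) : w + (β : ℂ) * (h0 - w) + (γ : ℂ) * (c - w) ∈ reg T := by
  set F : ℝ × ℝ → ℂ := fun p => w + (p.1 : ℂ) * (h0 - w) + (p.2 : ℂ) * (c - w) with hF
  have hFc : Continuous F := by
    rw [hF]
    fun_prop
  set A : Set (ℝ × ℝ) := {p | 0 < p.1 ∧ 0 ≤ p.2 ∧ p.1 + p.2 < 1} with hA
  have hAconv : Convex ℝ A := by
    rintro ⟨x1, y1⟩ ⟨h1, h2, h3⟩ ⟨x2, y2⟩ ⟨h4, h5, h6⟩ a b ha hb hab
    simp only at h1 h2 h3 h4 h5 h6
    simp only [hA, mem_ofPred_eq, Prod.smul_mk, Prod.mk_add_mk, smul_eq_mul]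
    refine ⟨?_, by positivity, ?_⟩
    · rcases eq_or_lt_of_le ha with h | h
      · have : b = 1 := by linarith
        rw [← h, this]; linarith
      · have h7 : 0 < a * x1 := mul_pos h h1
        have h8 : 0 ≤ b * x2 := mul_nonneg hb h4.le
        linarith
    · have h7 : a * (x1 + y1) + b * (x2 + y2) < 1 := by
        rcases eq_or_lt_of_le ha with h | h
        · have : b = 1 := by linarith
          rw [← h, this]; linarith
        · have h8 : a * (x1 + y1) < a * 1 := mul_lt_mul_of_pos_left h3 h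
          have h9 : b * (x2 + y2) ≤ b * 1 := mul_le_mul_of_nonneg_left h6.le hb
          linarith
      linarith
  have hpre : IsPreconnected (F '' A) := hAconv.isPreconnected.image F hFc.continuousOn
  have hoff : F '' A ⊆ Tᶜ := by
    rintro _ ⟨⟨x, y⟩, ⟨h1, h2, h3⟩, rfl⟩
    simp only at h1 h2 h3
    rcases eq_or_lt_of_le h2 with h | h
    · refine (hfree _ (mem_oseg.2 ⟨x, h1, by linarith, ?_⟩)).2
      simp [hF, ← h]
    · exact htri x y h1 h h3
  have hp0 : F (1 / 2, 0) ∈ F '' A := ⟨_, ⟨by norm_num, le_rfl, by norm_num⟩, rfl⟩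
  have hp0r : F (1 / 2, 0) ∈ reg T := by
    refine (hfree _ (mem_oseg.2 ⟨1 / 2, by norm_num, by norm_num, ?_⟩)).1
    simp [hF]
  have hall : F '' A ⊆ reg T := by
    intro z hz
    have h1 := hpre.subset_connectedComponentIn hp0 hoff hz
    have h2 : connectedComponentIn Tᶜ (F (1 / 2, 0)) = connectedComponentIn Tᶜ z :=
      connectedComponentIn_eq h1
    show Bornology.IsBounded (connectedComponentIn Tᶜ z)
    rw [← h2]
    exact hp0r
  have hlim : Filter.Tendsto (fun t : ℝ => F ((1 - t) * β + t / 3, (1 - t) * γ + t / 3))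
      (nhdsWithin 0 (Ioi 0)) (nhds (F (β, γ))) := by
    have h1 : Continuous fun t : ℝ => F ((1 - t) * β + t / 3, (1 - t) * γ + t / 3) := by
      fun_prop
    have h2 := (h1.tendsto 0).mono_left (nhdsWithin_le_nhds (s := Ioi 0))
    simpa using h2
  refine hc.mem_of_tendsto hlim ?_
  have h01 : ∀ᶠ t : ℝ in nhdsWithin 0 (Ioi 0), t ∈ Ioo (0 : ℝ) 1 :=
    Ioo_mem_nhdsGT one_pos
  filter_upwards [h01] with t ht
  obtain ⟨ht0, ht1⟩ := ht
  refine hall ⟨_, ⟨?_, ?_, ?_⟩, rfl⟩
  · show 0 < (1 - t) * β + t / 3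
    have : 0 ≤ (1 - t) * β := mul_nonneg (by linarith) hβ
    linarith
  · show 0 ≤ (1 - t) * γ + t / 3
    have : 0 ≤ (1 - t) * γ := mul_nonneg (by linarith) hγ
    linarith
  · show (1 - t) * β + t / 3 + ((1 - t) * γ + t / 3) < 1
    have : (1 - t) * (β + γ) ≤ (1 - t) * 1 := mul_le_mul_of_nonneg_left hs (by linarith)
    linarith

theorem window {N : ℕ} {u : ℕ → ℂ} (h : SP N u)
    (hv : ∀ m, 1 < m → m + 1 < N → ¬ segment ℝ (u 0) (u m) ⊆ reg (TT N u)) :
    ∃ j, 1 ≤ j ∧ j + 1 < N ∧ ∃ a' ∈ segment ℝ (u j) (u (j + 1)), ∃ b' ∈ segment ℝ (u j) (u (j + 1)),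
      u 1 ∈ segment ℝ (u 0) a' ∧ u (N - 1) ∈ segment ℝ (u 0) b' ∧
      convexHull ℝ {u 0, a', b'} ⊆ reg (TT N u) := by
  have J := jordan h
  have h3 := h.three
  obtain ⟨h0, hh0T, hfree, hcase⟩ := first_hit h
  have hu0T : u 0 ∈ TT N u := mem_TT.2 ⟨0, by omega, left_mem_segment ℝ _ _⟩
  have hD : segment ℝ (u 0) h0 ⊆ reg (TT N u) := by
    intro z hz
    rw [← insert_endpoints_openSegment] at hz
    rcases hz with rfl | rfl | hz
    · exact J.sub hu0T
    · exact J.sub hh0T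
    · exact (hfree z hz).1
  rcases hcase with ⟨m, hm1, hm2, rfl⟩ | ⟨j, hj1, hj2, hh0, hd⟩
  · exact absurd hD (hv m hm1 hm2)
  have hjN : j < N := by omega
  have hoff : ∀ x ∈ openSegment ℝ (u 0) h0, x ∉ TT N u := fun x hx => (hfree x hx).2
  obtain ⟨m0, hm0, c0, hc0, hc0h, hum0, hm0c, htri0⟩ := sweep h hjN hh0 (Or.inl rfl) hd hoff
  obtain ⟨m1, hm1, c1, hc1, hc1h, hum1, hm1c, htri1⟩ := sweep h hjN hh0 (Or.inr rfl) hd hoff
  have T0 := tri J.closed hfree htri0
  have T1 := tri J.closed hfree htri1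
  have hseg0 : segment ℝ (u 0) c0 ⊆ reg (TT N u) := by
    intro z hz
    obtain ⟨t, ht0, ht1, rfl⟩ := mem_seg.1 hz
    simpa using T0 0 t le_rfl ht0 (by linarith)
  have hseg1 : segment ℝ (u 0) c1 ⊆ reg (TT N u) := by
    intro z hz
    obtain ⟨t, ht0, ht1, rfl⟩ := mem_seg.1 hz
    simpa using T1 0 t le_rfl ht0 (by linarith)
  have hsees : ∀ m < N, ∀ c, u m ≠ u 0 → u m ∈ segment ℝ (u 0) c →
      segment ℝ (u 0) c ⊆ reg (TT N u) → m = 1 ∨ m = N - 1 := by
    intro m hm c hne hmc hc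
    by_contra hcon
    push Not at hcon
    have hm00 : m ≠ 0 := by rintro rfl; exact hne rfl
    refine hv m (by omega) (by omega) (Subset.trans ?_ hc)
    exact (convex_segment (u 0) c).segment_subset (left_mem_segment ℝ _ _) hmc
  have hm0' := hsees m0 hm0 c0 hum0 hm0c hseg0
  have hm1' := hsees m1 hm1 c1 hum1 hm1c hseg1
  -- parameters
  obtain ⟨s, hs0, hs1, hh0e⟩ := mem_oseg.1 hh0
  obtain ⟨τ0, hτ00, hτ01, hc0e⟩ := mem_seg.1 hc0
  obtain ⟨τ1, hτ10, hτ11, hc1e⟩ := mem_seg.1 hc1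
  obtain ⟨l0, hl00, hl01, hum0e⟩ := mem_seg.1 hm0c
  obtain ⟨l1, hl10, hl11, hum1e⟩ := mem_seg.1 hm1c
  have hτ0p : 0 < τ0 := by
    rcases eq_or_lt_of_le hτ00 with h5 | h5
    · exfalso; apply hc0h; rw [hc0e, ← h5]; simp
    · exact h5
  have hτ1p : 0 < τ1 := by
    rcases eq_or_lt_of_le hτ10 with h5 | h5
    · exfalso; apply hc1h; rw [hc1e, ← h5]; simp
    · exact h5
  have hl0p : 0 < l0 := by
    rcases eq_or_lt_of_le hl00 with h5 | h5
    · exfalso; apply hum0; rw [hum0e, ← h5]; simp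
    · exact h5
  have hl1p : 0 < l1 := by
    rcases eq_or_lt_of_le hl10 with h5 | h5
    · exfalso; apply hum1; rw [hum1e, ← h5]; simp
    · exact h5
  -- the affine function vanishing on the line `u 0 h0`
  set d := det (u (j + 1) - u j) (u 0 - u j) with hdd
  set f : ℂ → ℝ := fun x => det (h0 - u 0) (x - u 0) with hf
  have f_aff : ∀ (a b : ℂ) (t : ℝ), f (a + (t : ℂ) * (b - a)) = (1 - t) * f a + t * f b :=
    fun a b t => det_comb _ _ a b t
  have f0 : f (u 0) = 0 := by simp [hf, det]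
  have fh : f h0 = 0 := by simp only [hf, det]; ring
  have fj : f (u j) = - s * d := by
    simp only [hf, hdd, det, hh0e, Complex.add_re, Complex.add_im, Complex.sub_re, Complex.sub_im,
      Complex.mul_re, Complex.mul_im, Complex.ofReal_re, Complex.ofReal_im]
    ring
  have fj1 : f (u (j + 1)) = (1 - s) * d := by
    simp only [hf, hdd, det, hh0e, Complex.add_re, Complex.add_im, Complex.sub_re, Complex.sub_im,
      Complex.mul_re, Complex.mul_im, Complex.ofReal_re, Complex.ofReal_im]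
    ring
  have fc0 : f c0 = - (τ0 * s) * d := by
    rw [hc0e, f_aff, fh, fj]; ring
  have fc1 : f c1 = τ1 * (1 - s) * d := by
    rw [hc1e, f_aff, fh, fj1]; ring
  have fm0 : f (u m0) = - (l0 * τ0 * s) * d := by
    rw [hum0e, f_aff, f0, fc0]; ring
  have fm1 : f (u m1) = l1 * τ1 * (1 - s) * d := by
    rw [hum1e, f_aff, f0, fc1]; ring
  have hp0 : 0 < l0 * τ0 * s := by positivity
  have hp1 : 0 < l1 * τ1 * (1 - s) := mul_pos (mul_pos hl1p hτ1p) (by linarith)
  have hne : m0 ≠ m1 := by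
    rintro rfl
    rw [fm0] at fm1
    have h5 : (l1 * τ1 * (1 - s) + l0 * τ0 * s) * d = 0 := by linarith
    rcases mul_eq_zero.1 h5 with h6 | h6
    · linarith
    · exact hd h6
  have hc0s : c0 ∈ segment ℝ (u j) (u (j + 1)) :=
    (convex_segment _ _).segment_subset (openSegment_subset_segment ℝ _ _ hh0)
      (left_mem_segment ℝ _ _) hc0
  have hc1s : c1 ∈ segment ℝ (u j) (u (j + 1)) :=
    (convex_segment _ _).segment_subset (openSegment_subset_segment ℝ _ _ hh0)
      (right_mem_segment ℝ _ _) hc1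
  by_cases hm01 : m0 = 1
  · have hm1N : m1 = N - 1 := by
      rcases hm1' with h5 | h5
      · exact absurd (hm01.trans h5.symm) hne
      · exact h5
    refine ⟨j, hj1, hj2, c0, hc0s, c1, hc1s, by rw [← hm01]; exact hm0c, by rw [← hm1N]; exact hm1c,
      ?_⟩
    intro z hz
    rw [convexHull_insert (by simp), convexHull_pair, mem_convexJoin] at hz
    obtain ⟨p, hp, y, hy, hz⟩ := hz
    rw [mem_singleton_iff] at hp
    subst hp
    obtain ⟨t, ht0, ht1, hye⟩ := mem_seg.1 hy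
    obtain ⟨r, hr0, hr1, hze⟩ := mem_seg.1 hz
    -- `y` is on `[h0, c0]` or on `[h0, c1]`
    have hc0e' : c0 = h0 + ((-(τ0 * s) : ℝ) : ℂ) * (u (j + 1) - u j) := by
      rw [hc0e, hh0e]; push_cast; ring
    have hc1e' : c1 = h0 + ((τ1 * (1 - s) : ℝ) : ℂ) * (u (j + 1) - u j) := by
      rw [hc1e, hh0e]; push_cast; ring
    set κ : ℝ := -((1 - t) * (τ0 * s)) + t * (τ1 * (1 - s)) with hκ
    have hyκ : y = h0 + (κ : ℂ) * (u (j + 1) - u j) := by
      rw [hye, hc0e', hc1e', hκ]; push_cast; ring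
    have hτs : 0 < τ0 * s := mul_pos hτ0p hs0
    have hτs1 : 0 < τ1 * (1 - s) := mul_pos hτ1p (by linarith)
    rcases le_total κ 0 with hk | hk
    · set q : ℝ := -κ / (τ0 * s) with hq
      have hq0 : 0 ≤ q := div_nonneg (by linarith) hτs.le
      have hq1 : q ≤ 1 := by
        rw [hq, div_le_one hτs, hκ]
        have : 0 ≤ t * (τ1 * (1 - s)) := mul_nonneg ht0 hτs1.le
        have : 0 ≤ t * (τ0 * s) := mul_nonneg ht0 hτs.le
        linarith
      have hqk : κ = q * (-(τ0 * s)) := by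
        rw [hq, mul_neg, div_mul_cancel₀ _ hτs.ne', neg_neg]
      have hzz : z = u 0 + ((r * (1 - q) : ℝ) : ℂ) * (h0 - u 0) + ((r * q : ℝ) : ℂ) * (c0 - u 0) := by
        rw [hze, hyκ, hqk, hc0e']; push_cast; ring
      rw [hzz]
      exact T0 _ _ (mul_nonneg hr0 (by linarith)) (mul_nonneg hr0 hq0) (by linarith)
    · set q : ℝ := κ / (τ1 * (1 - s)) with hq
      have hq0 : 0 ≤ q := div_nonneg hk hτs1.le
      have hq1 : q ≤ 1 := by
        rw [hq, div_le_one hτs1, hκ]
        have : 0 ≤ (1 - t) * (τ0 * s) := mul_nonneg (by linarith) hτs.le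
        have : 0 ≤ (1 - t) * (τ1 * (1 - s)) := mul_nonneg (by linarith) hτs1.le
        linarith
      have hqk : κ = q * (τ1 * (1 - s)) := by
        rw [hq, div_mul_cancel₀ _ hτs1.ne']
      have hzz : z = u 0 + ((r * (1 - q) : ℝ) : ℂ) * (h0 - u 0) + ((r * q : ℝ) : ℂ) * (c1 - u 0) := by
        rw [hze, hyκ, hqk, hc1e']; push_cast; ring
      rw [hzz]
      exact T1 _ _ (mul_nonneg hr0 (by linarith)) (mul_nonneg hr0 hq0) (by linarith)
  · exfalso
    have hm0N : m0 = N - 1 := by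
      rcases hm0' with h5 | h5
      · exact absurd h5 hm01
      · exact h5
    have hm11 : m1 = 1 := by
      rcases hm1' with h5 | h5
      · exact h5
      · exact absurd (hm0N.trans h5.symm) hne
    subst hm11
    have hσ : IsPreconnected (segment ℝ (u 1) c1 ∪ segment ℝ c1 (u (j + 1))) :=
      IsPreconnected.union c1 (right_mem_segment ℝ _ _) (left_mem_segment ℝ _ _)
        (convex_segment _ _).isPreconnected (convex_segment _ _).isPreconnected
    have hσr : segment ℝ (u 1) c1 ∪ segment ℝ c1 (u (j + 1)) ⊆ reg (TT N u) := by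
      rintro z (hz | hz)
      · exact hseg1 ((convex_segment _ _).segment_subset hm1c (right_mem_segment ℝ _ _) hz)
      · exact J.sub (mem_TT.2 ⟨j, hjN,
          (convex_segment _ _).segment_subset hc1s (right_mem_segment ℝ _ _) hz⟩)
    obtain ⟨z, hzσ, hzD⟩ := crossC h hjN (openSegment_subset_segment ℝ _ _ hh0) hD hσ hσr
      (x := u 1) (y := u (j + 1)) (Or.inl (left_mem_segment ℝ _ _))
      (by
        unfold chA
        rw [tr_append]
        exact Or.inl (mem_tr_pc.2 ⟨0, le_rfl, by omega, right_mem_segment ℝ _ _⟩))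
      (Or.inr (right_mem_segment ℝ _ _))
      (by
        unfold chB
        rw [tr_cons]
        exact Or.inl (right_mem_segment ℝ _ _))
    have hfz : f z = 0 := by
      obtain ⟨t, _, _, rfl⟩ := mem_seg.1 hzD
      rw [f_aff, f0, fh]; ring
    have key : ∀ (a b x y : ℝ), 0 < x → 0 < y → 0 ≤ a → a ≤ 1 → b = (1 - a) * (x * d) + a * (y * d) →
        b ≠ 0 := by
      intro a b x y hx hy ha0 ha1 hb hb0
      have h5 : ((1 - a) * x + a * y) * d = 0 := by rw [← hb0, hb]; ring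
      rcases mul_eq_zero.1 h5 with h6 | h6
      · rcases eq_or_lt_of_le ha0 with h7 | h7
        · rw [← h7] at h6; linarith
        · have h8 : 0 < a * y := mul_pos h7 hy
          have h9 : 0 ≤ (1 - a) * x := mul_nonneg (by linarith) hx.le
          linarith
      · exact hd h6
    rcases hzσ with hz | hz
    · obtain ⟨t, ht0, ht1, hze⟩ := mem_seg.1 hz
      refine key t (f z) (l1 * τ1 * (1 - s)) (τ1 * (1 - s)) hp1 (mul_pos hτ1p (by linarith)) ht0 ht1
        ?_ hfz
      rw [hze, f_aff, fm1, fc1]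
    · obtain ⟨t, ht0, ht1, hze⟩ := mem_seg.1 hz
      refine key t (f z) (τ1 * (1 - s)) (1 - s) (mul_pos hτ1p (by linarith)) (by linarith) ht0 ht1
        ?_ hfz
      rw [hze, f_aff, fj1, fc1]

end VisMap
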